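import Pool.Agent.RPH.DtB
import Pool.Agent.BEO.RcB
import Pool.Agent.SCG.RForm

/-!
# RPH-DtR: the rank inequality (adapted from SCG/RRk)
-/

set_option autoImplicit false

open Finset
open scoped Classical

namespace Pool.Agent.RPH

open Pool.Agent.EPH Pool.Agent.BEO

namespace Dat

variable {k : ℕ} {Φ E Z Q : Type} [Fintype Φ] [Fintype E] [AddCommGroup Z] [Module F2 Z] [Module.Finite F2 Z]
  [AddCommGroup Q] [Module F2 Q] (D : Dat k Φ E Z Q)

/-- the common kernel of the coordinates -/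
private def VA : Submodule F2 Z := ⨅ e, LinearMap.ker (D.a e)

/-- the span of the boundaries of the ordinary faces -/
private def VB : Submodule F2 Z := Submodule.span F2 (Set.range fun F : {F : Φ // F ∉ D.B} => D.z F.1)

omit [Module.Finite F2 Z] in
private theorem mem_VA (x : Z) : x ∈ D.VA ↔ ∀ e, D.a e x = 0 := by
  unfold VA
  rw [Submodule.mem_iInf]
  exact Iff.rfl

omit [Module.Finite F2 Z] in
private theorem rad_VB (x y : Z) (hy : y ∈ D.VB) : D.J x y = 0 := by
  refine Submodule.span_induction (p := fun y _ => D.J x y = 0) ?_ (map_zero _) ?_ ?_ hy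
  · rintro _ ⟨F, rfl⟩
    exact D.rad F.1 F.2 x
  · intro u v _ _ hu hv
    rw [map_add, hu, hv, add_zero]
  · intro c u _ hu
    rw [map_smul, hu, smul_zero]

omit [Module.Finite F2 Z] in
private theorem cross (lam : Finset E) (x y : Z) (hx : x ∈ D.VA) (hy : y ∈ D.VB) : D.N lam x y = 0 := by
  rw [D.N_apply, D.rad_VB x y hy, zero_add]
  refine Finset.sum_eq_zero fun e _ => ?_
  rw [(D.mem_VA x).1 hx e, zero_mul]

omit [Module.Finite F2 Z] in
private theorem bd_span (F : Φ) (hF : F ∉ D.B) (x : Q) (hx : x ∈ Submodule.span F2 (Set.range D.q)) :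
    D.v x (D.z F) = D.dF F x := by
  refine Submodule.span_induction (p := fun y _ => D.v y (D.z F) = D.dF F y) ?_ ?_ ?_ ?_ hx
  · rintro _ ⟨e, rfl⟩
    exact D.bd F hF e
  · rw [map_zero, map_zero, LinearMap.zero_apply]
  · intro u v _ _ hu hv
    rw [map_add, map_add, LinearMap.add_apply, hu, hv]
  · intro c u _ hu
    rw [map_smul, map_smul, LinearMap.smul_apply, hu]

private theorem big : Module.finrank F2 Z ≤ Module.finrank F2 (D.VA ⊔ D.VB : Submodule F2 Z) + 2 * k := by
  have h1 := Subspace.finrank_add_finrank_dualAnnihilator_eq (D.VA ⊔ D.VB : Submodule F2 Z)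
  have h2 : (D.VA ⊔ D.VB : Submodule F2 Z).dualAnnihilator ≤ D.HB.map D.v := by
    intro φ hφ
    rw [Submodule.mem_dualAnnihilator] at hφ
    have h3 : φ ∈ Submodule.span F2 (Set.range D.a) := by
      refine mem_span_of_iInf_ker_le_ker ?_
      intro x hx
      exact hφ x (Submodule.mem_sup_left hx)
    have h4 : Submodule.span F2 (Set.range D.a) = (Submodule.span F2 (Set.range D.q)).map D.v := by
      rw [Submodule.map_span, ← Set.range_comp]
      rfl
    rw [h4] at h3
    obtain ⟨x, hx, rfl⟩ := h3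
    refine ⟨x, ?_, rfl⟩
    refine (D.mem_HB x).2 ⟨hx, fun F hF => ?_⟩
    rw [← D.bd_span F hF x hx]
    exact hφ _ (Submodule.mem_sup_right (Submodule.subset_span ⟨⟨F, hF⟩, rfl⟩))
  have := D.fin_HB
  have h3 := Submodule.finrank_mono h2
  have h4 := D.finrank_HB
  have h5 : Module.finrank F2 (D.VA ⊔ D.VB : Submodule F2 Z) +
      Module.finrank F2 (D.VA ⊔ D.VB : Submodule F2 Z).dualAnnihilator = Module.finrank F2 Z := h1
  have h6 : Module.finrank F2 (D.VA ⊔ D.VB : Submodule F2 Z).dualAnnihilator ≤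
      Module.finrank F2 (D.HB.map D.v) := h3
  have h7 : Module.finrank F2 (D.HB.map D.v) ≤ Module.finrank F2 D.HB := Submodule.finrank_map_le D.v D.HB
  omega

private theorem split (lam : Finset E) :
    SCG.rkOn (D.N lam) (D.VA ⊔ D.VB) = SCG.rkOn D.J D.VA + SCG.rkOn (D.N lam) D.VB := by
  rw [SCG.rk_block (D.N lam) D.VA D.VB (fun x hx y hy => D.cross lam x y hx hy)
    (fun x hx y hy => by rw [D.N_symm]; exact D.cross lam x y hx hy)]
  congr 1
  refine SCG.rk_congr _ _ _ fun x hx y _ => ?_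
  rw [D.N_apply, Finset.sum_eq_zero (fun e _ => by rw [(D.mem_VA x).1 hx e, zero_mul]), add_zero]

theorem rank_ineq (lam mu : Finset E) : D.rkN mu + D.gI lam ≤ D.rkN lam + mu.card + 4 * k := by
  have h1 : D.rkN mu ≤ SCG.rkOn (D.N mu) (D.VA ⊔ D.VB) + 2 * (2 * k) := SCG.rk_le_sub (D.N mu) _ (2 * k) D.big
  have h2 : SCG.rkOn (D.N lam) (D.VA ⊔ D.VB) ≤ D.rkN lam := SCG.rk_sub (D.N lam) _
  rw [D.split] at h1 h2
  have h3 : SCG.rkOn (D.N lam) D.VB = D.gI lam := SCG.rk_gram (D.N lam) fun F : {F : Φ // F ∉ D.B} => D.z F.1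
  have h4 : SCG.rkOn (D.N mu) D.VB ≤ mu.card := by
    refine SCG.rk_sum (D.N mu) D.VB mu D.a fun x _ y hy => ?_
    rw [D.N_apply, D.rad_VB x y hy, zero_add]
  omega

theorem gI_le (lam : Finset E) : D.gI lam ≤ D.rkN lam := by
  have h3 : SCG.rkOn (D.N lam) D.VB = D.gI lam := SCG.rk_gram (D.N lam) fun F : {F : Φ // F ∉ D.B} => D.z F.1
  rw [← h3]
  exact SCG.rk_sub (D.N lam) _

end Dat

end Pool.Agent.RPH
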