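import Pool.Agent.RPH.NWt
import Pool.Agent.RPH.DtR

/-!
# RPH-NExt: extremal sets exist
-/

set_option autoImplicit false

open Finset
open scoped Classical

namespace Pool.Agent.RPH

open Pool.Agent.EPH Pool.Agent.BEO

variable {k : ℕ} {Φ Vt Z Q : Type} [Fintype Φ] [Fintype Vt] [AddCommGroup Z] [Module F2 Z] [Module.Finite F2 Z]
  [AddCommGroup Q] [Module F2 Q]

private theorem NExt_three {α : Type} [Fintype α] (p : α → Prop) (f g h : α → ℕ) (a : α) (ha : p a) :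
    ∃ x, p x ∧ (∀ y, p y → f x ≤ f y) ∧ (∀ y, p y → f y ≤ f x → g x ≤ g y) ∧
      (∀ y, p y → f y ≤ f x → g y ≤ g x → h x ≤ h y) := by
  obtain ⟨x0, h0, hmin0⟩ := exists_min_image ((univ : Finset α).filter fun x => p x) f
    ⟨a, mem_filter.2 ⟨mem_univ _, ha⟩⟩
  obtain ⟨-, hp0⟩ := mem_filter.1 h0
  obtain ⟨x3, h3, hmin3⟩ := exists_min_image ((univ : Finset α).filter fun x => p x ∧ f x ≤ f x0) g
    ⟨x0, mem_filter.2 ⟨mem_univ _, hp0, le_rfl⟩⟩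
  obtain ⟨-, hp3, hf3⟩ := mem_filter.1 h3
  obtain ⟨x, hx, hmin⟩ := exists_min_image
    ((univ : Finset α).filter fun x => p x ∧ f x ≤ f x0 ∧ g x ≤ g x3) h
    ⟨x3, mem_filter.2 ⟨mem_univ _, hp3, hf3, le_rfl⟩⟩
  obtain ⟨-, hp, hf, hg⟩ := mem_filter.1 hx
  refine ⟨x, hp, ?_, ?_, ?_⟩
  · intro y hy
    exact hf.trans (hmin0 y (mem_filter.2 ⟨mem_univ _, hy⟩))
  · intro y hy hfy
    exact hg.trans (hmin3 y (mem_filter.2 ⟨mem_univ _, hy, hfy.trans hf⟩))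
  · intro y hy hfy hgy
    exact hmin y (mem_filter.2 ⟨mem_univ _, hy, hfy.trans hf, hgy.trans hg⟩)

theorem exists_ext (S : Sys k Φ Vt Z Q) (lam0 : Finset (Ch S.P)) (h1 : Real S.P lam0)
    (h3 : ∀ F, F ∉ S.D.B → S.D.dF F (S.D.cls lam0) = 0) (h4 : TcC S (S.D.cls lam0)) :
    ∃ lam mu, Ext S lam mu ∧ S.D.cls lam = S.D.cls lam0 := by
  obtain ⟨lam, ⟨hr, hc⟩, ho, hf, hs⟩ := NExt_three
    (fun lam : Finset (Ch S.P) => Real S.P lam ∧ S.D.cls lam = S.D.cls lam0) S.D.rkN (act S) Finset.card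
    lam0 ⟨h1, rfl⟩
  obtain ⟨mu, hm, hminm⟩ := exists_min_image
    (lam.powerset.filter fun mu => S.D.cls mu = S.D.cls lam) Finset.card
    ⟨lam, mem_filter.2 ⟨mem_powerset.2 (Subset.refl lam), rfl⟩⟩
  obtain ⟨hms, ham⟩ := mem_filter.1 hm
  refine ⟨lam, mu, ?_, hc⟩
  constructor
  · exact hr
  · intro lam' hr' hc'
    exact ho lam' ⟨hr', hc'.trans hc⟩
  · intro lam' hr' hc' hk'
    exact hf lam' ⟨hr', hc'.trans hc⟩ hk'
  · intro lam' hr' hc' hk' ha'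
    exact hs lam' ⟨hr', hc'.trans hc⟩ hk' ha'
  · exact mem_powerset.1 hms
  · exact ham
  · intro mu' hs' hc'
    exact hminm mu' (mem_filter.2 ⟨mem_powerset.2 hs', hc'⟩)
  · intro F hF
    rw [hc]
    exact h3 F hF
  · rw [hc]
    exact h4

theorem exists_ext0 (S : Sys k Φ Vt Z Q) : ∃ lam, Ext0 S lam := by
  obtain ⟨lam1, hr1, -, -⟩ := rematch S ∅
  obtain ⟨lam, hr, ho, hf, hs⟩ := NExt_three
    (fun lam : Finset (Ch S.P) => Real S.P lam) S.D.rkN (act S) Finset.card lam1 hr1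
  exact ⟨lam, hr, ho, hf, hs⟩

end Pool.Agent.RPH
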