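import Pool.Agent.RPH.ZOut
import Pool.Agent.RPH.NExt

/-!
# RPH-ZFin: few chords

PLAN. `exists_ext0` (`RPH/NExt.lean`) gives `lam` with `Ext0 S lam`; `rkN lam ≤ rkN nu` by `opt`; `(vs (gr lam)).card ≤ C` (`card_act0 k k`), and `lam.card ≤ C * C`: by `noPar0` the chord `e` is determined by the pair `(S.D.s e, S.D.t e)` of active faces (`Finset.card_le_card_of_injOn` into `vs ×ˢ vs`).
-/

set_option autoImplicit false

open Finset
open scoped Classical

namespace Pool.Agent.RPH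

open Pool.Agent.EPH
open Pool.Agent.BEO hiding Cfg Frame

theorem exists_few (k : ℕ) : ∃ T : ℕ, ∀ (Φ Vt Z Q : Type) [Fintype Φ] [Fintype Vt] [AddCommGroup Z] [Module F2 Z]
    [Module.Finite F2 Z] [AddCommGroup Q] [Module F2 Q] (S : Sys k Φ Vt Z Q) (nu : Finset (Ch S.P)), Real S.P nu →
    S.D.rkN nu ≤ k → ∃ lam : Finset (Ch S.P), Real S.P lam ∧ S.D.rkN lam ≤ S.D.rkN nu ∧ lam.card ≤ T := by
  obtain ⟨C, hC⟩ := card_act0 k k
  refine ⟨C * C, ?_⟩
  intro Φ Vt Z Q _ _ _ _ _ _ _ S nu hnu hk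
  obtain ⟨lam, hlam⟩ := exists_ext0 S
  have hle : S.D.rkN lam ≤ S.D.rkN nu := hlam.opt nu hnu
  have hcard : (vs (S.D.gr lam)).card ≤ C := hC Φ Vt Z Q S lam hlam (hle.trans hk)
  refine ⟨lam, hlam.real, hle, ?_⟩
  have hnp : NoPar S lam := noPar0 hlam
  have hadj : ∀ e ∈ lam, (S.D.gr lam).Adj (S.D.s e) (S.D.t e) := by
    intro e he
    exact (SimpleGraph.mem_edgeSet _).1 ((gr_mem S lam _).2 ⟨e, he, rfl⟩)
  have h1 : lam.card ≤ ((vs (S.D.gr lam)) ×ˢ (vs (S.D.gr lam))).card := by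
    refine Finset.card_le_card_of_injOn (fun e => (S.D.s e, S.D.t e)) ?_ ?_
    · intro e he
      have h2 := hadj e he
      refine Finset.mem_coe.2 (Finset.mem_product.2 ⟨?_, ?_⟩)
      · exact Finset.mem_filter.2 ⟨Finset.mem_univ _, _, h2⟩
      · exact Finset.mem_filter.2 ⟨Finset.mem_univ _, _, h2.symm⟩
    · intro e he e' he' hh
      have h3 : S.D.s e = S.D.s e' := congrArg Prod.fst hh
      have h4 : S.D.t e = S.D.t e' := congrArg Prod.snd hh
      exact hnp e he e' he' (by rw [h3, h4])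
  rw [Finset.card_product] at h1
  exact h1.trans (Nat.mul_le_mul hcard hcard)

end Pool.Agent.RPH
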