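import Pool.Agent.RPH.LTopR
import Pool.Agent.RPH.ZFin

/-!
# RPH-LTopA: maps of bounded Euler genus in a piece can be replaced by sets of few chords
-/

set_option autoImplicit false

open Finset
open scoped Classical

namespace Pool.Agent.RPH

open Pool.Agent.EPH Pool.Agent.BEO
open Pool.Agent.Helper35.OG hiding F2 dg

theorem exists_newA (k : ℕ) : ∃ T : ℕ, ∀ (V : Type) [Fintype V] [Nontrivial V] (G : SimpleGraph V) (hG : G.Connected)
    (X : Pce G) (_ : X.B.card ≤ k) (_ : Module.finrank F2 (HQ X.qe X.dF) ≤ k), X.M.eg ≤ k →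
    ∃ lam : Finset (Ch X.corP), lam.card ≤ T ∧ Real X.corP lam ∧ ∃ M' : GMap G, M'.eg ≤ X.M.eg ∧
        (∀ p, ¬ AF X.D X.M p → M'.nxt p = X.M.nxt p) ∧ X.IsR lam M' := by
  obtain ⟨T, hT⟩ := exists_few k
  refine ⟨T, ?_⟩
  intro V _ _ G hG X hB hH heg
  obtain ⟨nu, hn1, hn2⟩ := X.exists_lamM
  have h1 := Pce.rkN_eg hG X k hB hH nu X.M hn2
  obtain ⟨lam, hl1, hl2, hl3⟩ := hT (X.S.Face ⊕ Flag G) V (cyc G) (QT X.S) (X.mkS hG k hB hH) nu hn1 (by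
    have h2 : (((X.mkS hG k hB hH).D.rkN nu : ℕ) : ℤ) ≤ k := h1.le.trans heg
    exact_mod_cast h2)
  obtain ⟨M', hM1, hM2, hM3⟩ := X.exists_newR lam hl1
  refine ⟨lam, hl3, hl1, M', ?_, hM2, hM1⟩
  rw [← Pce.rkN_eg hG X k hB hH lam M' hM3, ← h1]
  exact_mod_cast hl2

end Pool.Agent.RPH
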