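import Pool.Agent.RPH.AMain
import Pool.Agent.RPH.LTopA

/-!
# RPH-AMainA: the leaf theorem
-/

set_option autoImplicit false

open Finset
open scoped Classical

namespace Pool.Agent.RPH

open Pool.Agent.EPH Pool.Agent.BEO
open Pool.Agent.Helper35.OG hiding F2 dg
open N487b59b3 Pool.Agent.Helper22

/-- the leaf theorem for all maps of bounded Euler genus -/
theorem leafA (k c B : ℕ) : ∃ cand : Inp → List Ec → List FGT.Ent, (FP fun p : Inp × List Ec => cand p.1 p.2) ∧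
    ∀ (n : ℕ) (G : SimpleGraph (Fin n)), G.Connected → 2 ≤ n → ∀ S : GMap G, S.eg ≤ k → ∀ l : Inp, Codes S l →
      ∀ (K : Finset (Fin n)) (Q : Finset (Flag G)), FGT.Leaf S K Q c → ∀ d : List Ec,
      FGT.DCodes (FGT.rk (G := G) K) d → ∀ M : GMap G, M.eg ≤ k → (FGT.mix (FGT.rk K) M).card ≤ B →
      ∃ M' : GMap G, (∀ p, ¬ AF (FGT.rk K) M p → M'.nxt p = M.nxt p) ∧ M'.eg ≤ M.eg ∧
        ∃ x ∈ cand l d, FGT.ECodes (FGT.part (FGT.rk K) M') x := by
  obtain ⟨T, hT⟩ := exists_newA (k + 8 * B + 4 * c)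
  refine ⟨cndA 0 (4 * B + 2 * c + B * 0) T, fp_cndA _ _ _, ?_⟩
  intro n G hG hn S hk l hl K Q lf d hd M hM hB
  have hnt : Nontrivial (Fin n) := Fin.nontrivial_iff_two_le.2 hn
  obtain ⟨gm, hgm1, hgm2⟩ : ∃ gm : List Pt, (∀ y, y ∈ gm ↔ ∃ p ∈ FGT.mix (FGT.rk K) M, y = cod p) ∧
      gm.length = (FGT.mix (FGT.rk K) M).card := by
    refine ⟨(FGT.mix (FGT.rk K) M).toList.map cod, fun y => ?_, by rw [List.length_map, Finset.length_toList]⟩
    rw [List.mem_map]
    constructor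
    · rintro ⟨p, hp, rfl⟩
      exact ⟨p, Finset.mem_toList.1 hp, rfl⟩
    · rintro ⟨p, hp, rfl⟩
      exact ⟨p, Finset.mem_toList.2 hp, rfl⟩
  obtain ⟨X, rfl, rfl, rfl, rfl, hbase⟩ := exists_pce hG hn S M K Q c lf l hl d hd gm hgm1
  have hB' : X.B.card ≤ k + 8 * B + 4 * X.c := (X.card_B B hB).trans (by omega)
  have hH' : Module.finrank F2 (HQ X.qe X.dF) ≤ k + 8 * B + 4 * X.c := (X.dim_H hG k hk B hB).trans (by omega)
  obtain ⟨g, hfit, -, hmem⟩ := exists_guess X l hl d hd gm hgm1 hgm2.le hbase B hB 0 [] rfl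
    (4 * B + 2 * X.c + B * 0) (by omega) (by omega)
  obtain ⟨lam, hl1, hl3, M', hM2, hM3, hM4⟩ := hT (Fin n) G hG X hB' hH' (by push_cast; linarith)
  have hodd : oddE lam.toList = lam := by
    ext e
    unfold oddE
    rw [mem_filter]
    constructor
    · rintro ⟨-, h1⟩
      by_contra h2
      rw [List.count_eq_zero_of_not_mem (fun h => h2 (Finset.mem_toList.1 h))] at h1
      omega
    · intro h1
      refine ⟨mem_univ _, ?_⟩
      rw [List.count_eq_one_of_mem lam.nodup_toList (Finset.mem_toList.2 h1)]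
  rw [← hodd] at hl3 hM4
  refine ⟨M', hM3, hM2, ent l d g (lam.toList.map ccd), ?_, codes_ent hfit hG hn _ hl3 M' hM3 hM4⟩
  unfold cndA
  rw [List.mem_flatMap]
  refine ⟨g, hmem, ?_⟩
  rw [List.mem_map]
  refine ⟨lam.toList.map ccd, ?_, rfl⟩
  refine mem_sbs _ _ _ ?_ ?_
  · rw [List.length_map, Finset.length_toList]
    exact hl1
  · intro x hx
    obtain ⟨e, -, rfl⟩ := List.mem_map.1 hx
    obtain ⟨φ, hφ, -⟩ := exists_phiR hfit
    exact List.mem_map.2 ⟨_, (mem_arg hfit hG hn φ hφ _).2 ⟨e, Or.inl rfl⟩, rfl⟩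

private theorem compl_any {α : Type} [Fintype α] (i j : DecidableEq α) (s : Finset α) :
    (letI := i; sᶜ) = (letI := j; sᶜ) := by
  have e : i = j := Subsingleton.elim _ _
  subst e
  rfl

/-- the leaf theorem -/
theorem leaf (k c B : ℕ) (o : Bool) : ∃ cand : Inp → List Ec → List FGT.Ent,
    (FP fun p : Inp × List Ec => cand p.1 p.2) ∧
    ∀ (n : ℕ) (G : SimpleGraph (Fin n)), G.Connected → 2 ≤ n → ∀ S : GMap G, S.eg ≤ k → ∀ l : Inp, Codes S l →
      ∀ (K : Finset (Fin n)) (Q : Finset (Flag G)), FGT.Leaf S K Q c → ∀ d : List Ec,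
      FGT.DCodes (FGT.rk (G := G) K) d → ∀ M : GMap G, (o = true → M.Orientable) → (o = false → M.eg ≤ k) →
      (FGT.mix (FGT.rk K) M).card ≤ B →
      ∃ M' : GMap G, (∀ p, ¬ AF (FGT.rk K) M p → M'.nxt p = M.nxt p) ∧
        (∀ p, FGT.part (FGT.rk K)ᶜ M' p = FGT.part (FGT.rk K)ᶜ M p) ∧ (o = true → M'.Orientable) ∧ M'.eg ≤ M.eg ∧
        ∃ x ∈ cand l d, FGT.ECodes (FGT.part (FGT.rk K) M') x := by
  cases o with
  | true =>
    obtain ⟨cand, h1, h2⟩ := leafO k c B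
    refine ⟨cand, h1, ?_⟩
    intro n G hG hn S hk l hl K Q lf d hd M hM _ hB
    obtain ⟨M', h3, h4, h5, h6⟩ := h2 n G hG hn S hk l hl K Q lf d hd M (hM rfl) hB
    refine ⟨M', h3, fun p => ?_, fun _ => h4, h5, h6⟩
    refine (congrArg (fun E => FGT.part E M' p) ?_).trans
      ((part_keep _ M M' h3 p).trans (congrArg (fun E => FGT.part E M p) ?_))
    · exact compl_any _ _ _
    · exact compl_any _ _ _
  | false =>
    obtain ⟨cand, h1, h2⟩ := leafA k c B
    refine ⟨cand, h1, ?_⟩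
    intro n G hG hn S hk l hl K Q lf d hd M _ hM hB
    obtain ⟨M', h3, h5, h6⟩ := h2 n G hG hn S hk l hl K Q lf d hd M (hM rfl) hB
    refine ⟨M', h3, fun p => ?_, fun h => absurd h (by decide), h5, h6⟩
    refine (congrArg (fun E => FGT.part E M' p) ?_).trans
      ((part_keep _ M M' h3 p).trans (congrArg (fun E => FGT.part E M p) ?_))
    · exact compl_any _ _ _
    · exact compl_any _ _ _

end Pool.Agent.RPH
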