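import Pool.Agent.EPH.AAlg
import Pool.Agent.FGT.Defs

/-!
# RPH: the candidates for the part of a new map in a leaf

The input is the code `l` of the embedding `S` and the list `d` of the codes of the edges of `D`. A guess `g` consists of: the
flags over `D` in the other corners of the map; the corners inside `D` which are not good, with the other flag in the base map;
the first and the last flags of the blocks with more than one dart; the labels of these blocks; the edges which define the labels.
-/

set_option autoImplicit false

namespace Pool.Agent.RPH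

open Pool.Agent.EPH Pool.Agent.BEO

/-- guesses -/
abbrev Gs : Type := List Pt × (List (Pt × Pt) × (List (Pt × Pt) × (List (Pt × Ec) × List Ec)))

/-- the flags of the allowed corners -/
def afl (l : Inp) (d : List Ec) (g : Gs) : List Pt := (fl l).filter fun p => memb d (ek p) && !memb g.1 p

/-- the other flag of an allowed corner of the base map -/
def nxg (l : Inp) (g : Gs) (p : Pt) : Pt := look g.2.1 p (look l p p)

/-- the other end of a block -/
def ptn (g : Gs) (p : Pt) : Pt := look g.2.2.1 p (sd p)

/-- an input whose rotation is the rotation of the blocks of the base map -/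
def rin (l : Inp) (d : List Ec) (g : Gs) : Inp := (afl l d g).map fun p => (p, sd (ptn g (nxg l g p)))

/-- the flags of the allowed corners at `v` -/
def afv (l : Inp) (d : List Ec) (g : Gs) (v : ℕ) : List Pt := (afl l d g).filter fun p => decide (p.1 = v)

/-- the last flag of the block `0` at `v` -/
def bsg (l : Inp) (d : List Ec) (g : Gs) (v : ℕ) : Pt := ptn g ((afv l d g v).headD (0, (0, false)))

/-- the last flags of the blocks at `v`, with their numbers -/
def rlg (l : Inp) (d : List Ec) (g : Gs) (v : ℕ) : List (ℕ × Pt) :=
  (orb (rin l d g) (afv l d g v) (bsg l d g v)).filter fun q => decide (q.1 + q.1 + 1 ≤ (afv l d g v).length)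

/-- the chords at `v`: code and the flags of the two corners -/
def chg (l : Inp) (d : List Ec) (g : Gs) (v : ℕ) : List (Cc × (Pt × Pt)) := (rlg l d g v).flatMap fun q =>
  ((rlg l d g v).filter fun q' => decide (q.1 + 1 ≤ q'.1)).map fun q' => ((v, (q.1, q'.1)), (q.2, q'.2))

/-- the label of the block with last flag `p` with respect to `e` -/
def wtg (l : Inp) (g : Gs) (p : Pt) (e : Ec) : Bool :=
  if memb (g.2.2.1.map Prod.fst) p then memb g.2.2.2.1 (p, e) else par (zl l e) (ek p)

/-- the label of a chord with respect to `e` -/
def lbg (l : Inp) (d : List Ec) (g : Gs) (e : Ec) (x : Cc) : Bool :=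
  odl ((rlg l d g x.1).filter fun q => cvr x q.1 && wtg l g q.2 e)

/-- the face of the corner of `p` -/
def fcg (l : Inp) (g : Gs) (p : Pt) : Bool × Pt := if memb (g.2.1.map Prod.fst) p then (true, p) else (false, fcl l p)

/-- the arcs: the faces of the two ends, the code and the label -/
def arg (l : Inp) (d : List Ec) (g : Gs) : List (((Bool × Pt) × (Bool × Pt)) × (Cc × List Bool)) :=
  (vtc l).flatMap fun v => (chg l d g v).flatMap fun x =>
    [((fcg l g x.2.1, fcg l g x.2.2), (x.1, g.2.2.2.2.map fun e => lbg l d g e x.1)),
      ((fcg l g x.2.2, fcg l g x.2.1), (x.1, g.2.2.2.2.map fun e => lbg l d g e x.1))]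

/-- the new position of the block `i` at `v` -/
def psg (l : Inp) (d : List Ec) (g : Gs) (c : List Cc) (v i : ℕ) : ℕ :=
  ((rlg l d g v).filter fun q => !decide (q.1 = i) && xor (decide (q.1 + 1 ≤ i)) (ivc c v q.1 i)).length

/-- the last flag of the block `q` in the new order -/
def ofg (g : Gs) (c : List Cc) (v : ℕ) (q : ℕ × Pt) : Pt := if ivc c v q.1 q.1 then ptn g q.2 else q.2

/-- the first flag of the block `q` in the new order -/
def ifg (g : Gs) (c : List Cc) (v : ℕ) (q : ℕ × Pt) : Pt := if ivc c v q.1 q.1 then q.2 else ptn g q.2

/-- the corners inside `D` of the new map at `v` -/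
def nwg (l : Inp) (d : List Ec) (g : Gs) (c : List Cc) (v : ℕ) : List (Pt × Pt) :=
  (rlg l d g v).flatMap fun q => (rlg l d g v).flatMap fun q' =>
    if decide (psg l d g c v q'.1 = psg l d g c v q.1 + 1) ||
        (decide (psg l d g c v q'.1 = 0) && decide (psg l d g c v q.1 + 1 = (rlg l d g v).length)) then
      [(ofg g c v q, ifg g c v q'), (ifg g c v q', ofg g c v q)]
    else []

/-- the part of the new map -/
def ent (l : Inp) (d : List Ec) (g : Gs) (c : List Cc) : List (Pt × Pt) := (vtc l).flatMap fun v => nwg l d g c v

/-- all pairs -/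
def prs {X Y : Type} (l : List X) (m : List Y) : List (X × Y) := l.flatMap fun x => m.map fun y => (x, y)

/-- all lists of at most `k` elements -/
def sbs {X : Type} [DecidableEq X] (l : List X) (k : ℕ) : List (List X) := cds (l.map fun x => [x]) k

/-- the guesses -/
def gss (k m : ℕ) (l : Inp) : List Gs := prs (sbs (fl l) m) (prs (sbs (prs (fl l) (fl l)) m)
  (prs (sbs (prs (fl l) (fl l)) m) (prs (sbs (prs (fl l) ((fl l).map ek)) m) (tup ((fl l).map ek) k))))

/-- the candidates (orientable maps) -/
def cndO (k m T : ℕ) (l : Inp) (d : List Ec) : List FGT.Ent :=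
  (gss k m l).flatMap fun g => (cds (wkX k (arg l d g)) T).map fun c => ent l d g c

/-- the candidates (all maps) -/
def cndA (k m T : ℕ) (l : Inp) (d : List Ec) : List FGT.Ent :=
  (gss k m l).flatMap fun g => (sbs ((arg l d g).map fun a => a.2.1) T).map fun c => ent l d g c

end Pool.Agent.RPH
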