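import Pool.Agent.RPH.AInv

/-!
# RPH-AArc: the arcs

PLAN. `exists_phiR`: `φ0` from `exists_phi` (EPH/AArc) for `X.S`; `φ := Sum.elim (fun F => (false, φ0 F)) (fun p => (true, cod p))`, injective by `cod_inj`. For `af p`: `memb (g.2.1.map Prod.fst) (cod p)` iff `p` is not good (`g1`, `cod_inj`); `fcs_inl`, `fcs_inr`.
`mem_arg`: as `mem_arC` in `EPH/AArc.lean`, with `rlg_eq` instead of `rlc_eq` (`X.corP.d v = X.na v`, `X.corP.fc v i = X.fcs (X.Rf v i)` by `rfl`), `af_Rf`.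
`lbg_eq`: as `lbf_eq` in `EPH/AArc.lean`: the left side is `∑ j ∈ Ioc e.lo e.hi, [wtg l g (cod (Rf v j)) (ec e')]`, and `[wtg ..] = wtb X (pc (zl l (ec e'))) v j`: if `fs v j ≠ al v j` by `g2` (`memb`) and `g3` (`ec_inj`, `Rf_inj`, `Rf_fst`; every element of `F2` is 0 or 1), and otherwise the sum `wtb` has one term `pc .. (ed (Rf v j))`, `ek_cod`, unfold `pc`.
Finally `∑ j ∈ Ioc lo hi, ∑ i ∈ Icc (fs v j) (al v j), x i = ∑ i ∈ Ioc (al v lo) (al v hi), x i` as `fs v j = al v (j - 1) + 1` for `j ≥ 1` (induction on `hi`, `Finset.sum_Ioc_consecutive`), and this is the sum of the two `cc` (`Icc 1 m = Ioc 0 m`, `x + x = 0`).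
-/

set_option autoImplicit false

open Finset
open scoped Classical

namespace Pool.Agent.RPH

open Pool.Agent.EPH Pool.Agent.BEO
open Pool.Agent.Helper35.OG hiding F2 dg

variable {n : ℕ} {G : SimpleGraph (Fin n)}

variable {X : Pce G} {l : Inp} {d : List Ec} {g : Gs}

theorem exists_phiR (h : Fit X l d g) : ∃ φ : X.S.Face ⊕ Flag G → Bool × Pt,
    (∀ p, X.af p → φ (X.fcs p) = fcg l g (cod p)) ∧ ∀ F F', φ F = φ F' → F = F' := by
  obtain ⟨φ0, h1, h2⟩ := exists_phi h.cS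
  refine ⟨Sum.elim (fun F => (false, φ0 F)) (fun p => (true, cod p)), ?_, ?_⟩
  · intro p hp
    unfold fcg
    by_cases hg : X.gc p
    · rw [X.fcs_inl.2 ⟨hg, rfl⟩, if_neg]
      · show (false, φ0 (X.S.face p)) = _
        rw [h1]
      · intro h3
        obtain ⟨y, hy, h4⟩ := List.mem_map.1 ((memb_iff _ _).1 h3)
        obtain ⟨p', hp', hg', rfl⟩ := (h.g1 y).1 hy
        have h5 : p' = p := cod_inj h4
        exact hg' (h5 ▸ hg)
    · rw [X.fcs_inr.2 ⟨hg, rfl⟩, if_pos]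
      · rfl
      · exact (memb_iff _ _).2 (List.mem_map.2 ⟨(cod p, cod (X.M0.nxt p)), (h.g1 _).2 ⟨p, hp, hg, rfl⟩, rfl⟩)
  · rintro (F | p) (F' | p') hF
    · exact congrArg Sum.inl (h2 _ _ (congrArg Prod.snd hF))
    · exact absurd (congrArg Prod.fst hF) Bool.false_ne_true
    · exact absurd (congrArg Prod.fst hF).symm Bool.false_ne_true
    · exact congrArg Sum.inr (cod_inj (congrArg Prod.snd hF))

private theorem aa_chg (h : Fit X l d g) (v : Fin n) (x : Cc × (Pt × Pt)) :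
    x ∈ chg l d g (v : ℕ) ↔ ∃ i j, i < X.na v ∧ j < X.na v ∧ i < j ∧
      x = (((v : ℕ), (i, j)), (cod (X.Rf v i), cod (X.Rf v j))) := by
  unfold chg
  rw [rlg_eq h v, List.mem_flatMap]
  constructor
  · rintro ⟨q, hq, hx⟩
    rw [List.mem_map] at hq hx
    obtain ⟨i, hi, rfl⟩ := hq
    obtain ⟨q', hq', rfl⟩ := hx
    rw [List.mem_filter, List.mem_map] at hq'
    obtain ⟨⟨j, hj, rfl⟩, hij⟩ := hq'
    rw [List.mem_range] at hi hj
    have hij' : i + 1 ≤ j := of_decide_eq_true hij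
    exact ⟨i, j, hi, hj, hij', rfl⟩
  · rintro ⟨i, j, hi, hj, hij, rfl⟩
    refine ⟨(i, cod (X.Rf v i)), List.mem_map.2 ⟨i, List.mem_range.2 hi, rfl⟩, ?_⟩
    rw [List.mem_map]
    refine ⟨(j, cod (X.Rf v j)), ?_, rfl⟩
    rw [List.mem_filter, List.mem_map]
    exact ⟨⟨j, List.mem_range.2 hj, rfl⟩, decide_eq_true hij⟩

theorem mem_arg (h : Fit X l d g) (hG : G.Connected) (hn : 2 ≤ n) (φ : X.S.Face ⊕ Flag G → Bool × Pt)
    (hφ : ∀ p, X.af p → φ (X.fcs p) = fcg l g (cod p)) (x : ((Bool × Pt) × (Bool × Pt)) × (Cc × List Bool)) :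
    x ∈ arg l d g ↔ ∃ e : Ch X.corP,
      x = ((φ (X.fcs (X.Rf e.vx e.lo)), φ (X.fcs (X.Rf e.vx e.hi))),
        (ccd e, g.2.2.2.2.map fun y => lbg l d g y (ccd e))) ∨
      x = ((φ (X.fcs (X.Rf e.vx e.hi)), φ (X.fcs (X.Rf e.vx e.lo))),
        (ccd e, g.2.2.2.2.map fun y => lbg l d g y (ccd e))) := by
  unfold arg
  rw [List.mem_flatMap]
  constructor
  · rintro ⟨v, hv, hx⟩
    rw [mem_vtc h.cS hG hn] at hv
    obtain ⟨v, rfl⟩ := hv
    rw [List.mem_flatMap] at hx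
    obtain ⟨y, hy, hx⟩ := hx
    obtain ⟨i, j, hi, hj, hij, rfl⟩ := (aa_chg h v y).1 hy
    refine ⟨⟨⟨v, (⟨i, hi⟩, ⟨j, hj⟩)⟩, hij⟩, ?_⟩
    show x = ((φ (X.fcs (X.Rf v i)), φ (X.fcs (X.Rf v j))), (((v : ℕ), (i, j)),
        g.2.2.2.2.map fun y => lbg l d g y ((v : ℕ), (i, j)))) ∨
      x = ((φ (X.fcs (X.Rf v j)), φ (X.fcs (X.Rf v i))), (((v : ℕ), (i, j)),
        g.2.2.2.2.map fun y => lbg l d g y ((v : ℕ), (i, j))))
    rw [hφ _ (X.af_Rf hi), hφ _ (X.af_Rf hj)]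
    rw [List.mem_cons, List.mem_singleton] at hx
    exact hx
  · rintro ⟨⟨⟨v, ⟨i, j⟩⟩, hij⟩, hx⟩
    have hij' : (i : ℕ) < (j : ℕ) := hij
    have hi : (i : ℕ) < X.na v := i.2
    have hj : (j : ℕ) < X.na v := j.2
    refine ⟨(v : ℕ), (mem_vtc h.cS hG hn _).2 ⟨v, rfl⟩, ?_⟩
    rw [List.mem_flatMap]
    refine ⟨(((v : ℕ), ((i : ℕ), (j : ℕ))), (cod (X.Rf v i), cod (X.Rf v j))),
      (aa_chg h v _).2 ⟨i, j, hi, hj, hij', rfl⟩, ?_⟩
    have hx' : x = ((φ (X.fcs (X.Rf v i)), φ (X.fcs (X.Rf v j))), (((v : ℕ), ((i : ℕ), (j : ℕ))),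
          g.2.2.2.2.map fun y => lbg l d g y ((v : ℕ), ((i : ℕ), (j : ℕ))))) ∨
        x = ((φ (X.fcs (X.Rf v j)), φ (X.fcs (X.Rf v i))), (((v : ℕ), ((i : ℕ), (j : ℕ))),
          g.2.2.2.2.map fun y => lbg l d g y ((v : ℕ), ((i : ℕ), (j : ℕ))))) := hx
    rw [hφ _ (X.af_Rf hi), hφ _ (X.af_Rf hj)] at hx'
    rw [List.mem_cons, List.mem_singleton]
    exact hx'

private theorem aa_odl {X : Type} (w : List X) :
    (if odl w = true then (1 : F2) else 0) = ((w.length : ℕ) : F2) := by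
  unfold odl
  rcases Nat.mod_two_eq_zero_or_one w.length with h | h
  · have h2 : ((w.length : ℕ) : F2) = 0 := by
      rw [ZMod.natCast_eq_zero_iff_even]
      exact Nat.even_iff.mpr h
    rw [h2, if_neg]
    rw [decide_eq_true_eq]
    omega
  · have h2 : ((w.length : ℕ) : F2) = 1 := by
      rw [ZMod.natCast_eq_one_iff_odd]
      exact Nat.odd_iff.mpr h
    rw [h2, if_pos]
    rw [decide_eq_true_eq]
    exact h

private theorem aa_len (r : ℕ → Bool) (d : ℕ) : ((((List.range d).filter r).length : ℕ) : F2) =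
    ∑ i ∈ Finset.range d, (if r i = true then (1 : F2) else 0) := by
  induction d with
  | zero => simp
  | succ d ih =>
    rw [List.range_succ, List.filter_append, List.length_append, Nat.cast_add, ih, Finset.sum_range_succ]
    congr 1
    by_cases hr : r d = true
    · rw [if_pos hr, List.filter_cons_of_pos hr]
      simp
    · rw [if_neg hr, List.filter_cons_of_neg hr]
      simp

private theorem aa_ne {v v' : Fin n} {j j' : ℕ} : X.Lf v' j' ≠ X.Rf v j := by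
  intro h
  have h1 : v' = v := by rw [← X.Lf_fst v' j', h, X.Rf_fst]
  subst h1
  exact cf_ne_side X.M0 X.b _ _ _ h.symm

private theorem aa_rr {v v' : Fin n} {j j' : ℕ} (hj : j < X.na v) (hj' : j' < X.na v') (h : X.Rf v j = X.Rf v' j') :
    v = v' ∧ j = j' := by
  have h1 : v = v' := by rw [← X.Rf_fst v j, h, X.Rf_fst]
  subst h1
  exact ⟨rfl, X.Rf_inj hj hj' h⟩

private theorem aa_wt (h : Fit X l d g) (e' : G.edgeSet) (he' : ec e' ∈ g.2.2.2.2) {v : Fin n} {j : ℕ}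
    (hj : j < X.na v) : (if wtg l g (cod (X.Rf v j)) (ec e') = true then (1 : F2) else 0) =
      wtb X (pc (zl l (ec e'))) v j := by
  unfold wtg
  by_cases hfa : X.fs v j = X.al v j
  · have h1 : ¬ memb (g.2.2.1.map Prod.fst) (cod (X.Rf v j)) = true := by
      intro h2
      obtain ⟨y, hy, h3⟩ := List.mem_map.1 ((memb_iff _ _).1 h2)
      obtain ⟨v', j', hj', hne, rfl | rfl⟩ := (h.g2 y).1 hy
      · exact aa_ne (cod_inj h3)
      · obtain ⟨h4, h5⟩ := aa_rr hj' hj (cod_inj h3)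
        subst h4
        subst h5
        exact hne hfa
    rw [if_neg h1, ek_cod]
    unfold wtb
    rw [hfa, Icc_self, sum_singleton]
    rfl
  · have h1 : memb (g.2.2.1.map Prod.fst) (cod (X.Rf v j)) = true :=
      (memb_iff _ _).2 (List.mem_map.2 ⟨(cod (X.Rf v j), cod (X.Lf v j)), (h.g2 _).2 ⟨v, j, hj, hfa, Or.inr rfl⟩, rfl⟩)
    rw [if_pos h1]
    have h2 : memb g.2.2.2.1 (cod (X.Rf v j), ec e') = true ↔ wtb X (pc (zl l (ec e'))) v j = 1 := by
      rw [memb_iff, h.g3]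
      constructor
      · rintro ⟨v', j', hj', -, e'', -, h4, h5⟩
        obtain ⟨h6, h7⟩ := aa_rr hj hj' (cod_inj (congrArg Prod.fst h5))
        have h8 : e' = e'' := ec_inj (congrArg Prod.snd h5)
        subst h6
        subst h7
        subst h8
        exact h4
      · intro h4
        exact ⟨v, j, hj, hfa, e', he', h4, rfl⟩
    by_cases h3 : wtb X (pc (zl l (ec e'))) v j = 1
    · rw [if_pos (h2.2 h3), h3]
    · rw [if_neg fun h4 => h3 (h2.1 h4)]
      have h5 : ∀ x : F2, x ≠ 1 → 0 = x := by decide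
      exact h5 _ h3

private theorem aa_sum (x : ℕ → F2) (v : Fin n) (lo : ℕ) : ∀ m, lo ≤ m → m < X.na v →
    ∑ j ∈ Ioc lo m, ∑ i ∈ Icc (X.fs v j) (X.al v j), x i = ∑ t ∈ Ioc (X.al v lo) (X.al v m), x t := by
  intro m hm
  induction m, hm using Nat.le_induction with
  | base =>
    intro _
    rw [Ioc_self, Ioc_self, sum_empty, sum_empty]
  | succ m hm ih =>
    intro h1
    have h2 : X.al v lo ≤ X.al v m := by
      rcases hm.lt_or_eq with h3 | h3
      · exact (X.al_mono h3 (by omega)).le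
      · rw [h3]
    have h4 : X.al v m ≤ X.al v (m + 1) := (X.al_mono (Nat.lt_succ_self m) h1).le
    rw [sum_Ioc_succ_top hm, ih (by omega), ← sum_Ioc_consecutive _ h2 h4]
    congr 1
    have h5 : X.fs v (m + 1) = X.al v m + 1 := by
      unfold Pce.fs
      rw [if_neg (by omega)]
      rfl
    rw [h5]
    refine sum_congr ?_ fun _ _ => rfl
    ext t
    rw [mem_Icc, mem_Ioc]
    omega

theorem lbg_eq (h : Fit X l d g) (hG : G.Connected) (hn : 2 ≤ n) (e : Ch X.corP) (e' : G.edgeSet)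
    (he' : ec e' ∈ g.2.2.2.2) : (if lbg l d g (ec e') (ccd e) = true then (1 : F2) else 0) =
      (X.qe e).1 ⟨pc (zl l (ec e')), zc_mem h.cS hG hn e'⟩ := by
  rw [X.qe_fst]
  obtain ⟨⟨v, ⟨i, j⟩⟩, hij⟩ := e
  have hij' : (i : ℕ) < (j : ℕ) := hij
  have hj : (j : ℕ) < X.na v := j.2
  show (if lbg l d g (ec e') ((v : ℕ), ((i : ℕ), (j : ℕ))) = true then (1 : F2) else 0) =
    (∑ t ∈ Icc 1 (X.al v i), pc (zl l (ec e')) (ed (cf X.M0 X.b v t))) +
      ∑ t ∈ Icc 1 (X.al v j), pc (zl l (ec e')) (ed (cf X.M0 X.b v t))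
  unfold lbg
  rw [aa_odl, rlg_eq h v, List.filter_map, List.length_map, aa_len]
  have h1 : ∀ t ∈ Finset.range (X.na v), (if ((fun q : ℕ × Pt => cvr ((v : ℕ), ((i : ℕ), (j : ℕ))) q.1 &&
      wtg l g q.2 (ec e')) ∘ fun t => (t, cod (X.Rf v t))) t = true then (1 : F2) else 0) =
      if (i : ℕ) < t ∧ t ≤ (j : ℕ) then wtb X (pc (zl l (ec e'))) v t else 0 := by
    intro t ht
    show (if (decide ((i : ℕ) + 1 ≤ t) && decide (t ≤ (j : ℕ)) && wtg l g (cod (X.Rf v t)) (ec e')) = true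
      then (1 : F2) else 0) = _
    rw [← aa_wt h e' he' (Finset.mem_range.1 ht)]
    by_cases h2 : (i : ℕ) < t ∧ t ≤ (j : ℕ)
    · rw [if_pos h2, decide_eq_true (show (i : ℕ) + 1 ≤ t from h2.1), decide_eq_true h2.2]
      simp
    · rw [if_neg h2, if_neg]
      intro h3
      rw [Bool.and_eq_true, Bool.and_eq_true, decide_eq_true_eq, decide_eq_true_eq] at h3
      exact h2 h3.1
  rw [Finset.sum_congr rfl h1, ← Finset.sum_filter]
  have h3 : (Finset.range (X.na v)).filter (fun t => (i : ℕ) < t ∧ t ≤ (j : ℕ)) = Ioc (i : ℕ) (j : ℕ) := by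
    ext t
    rw [mem_filter, mem_Ioc, Finset.mem_range]
    constructor
    · exact fun h => h.2
    · exact fun h => ⟨by omega, h⟩
  have h4 : ∀ m : ℕ, Icc 1 m = Ioc 0 m := by
    intro m
    ext t
    rw [mem_Icc, mem_Ioc]
    omega
  have h5 : X.al v i ≤ X.al v j := (X.al_mono hij' hj).le
  rw [h3, h4, h4, ← Finset.sum_Ioc_consecutive _ (Nat.zero_le _) h5, ← add_assoc,
    CharTwo.add_self_eq_zero, zero_add]
  exact aa_sum (fun t => pc (zl l (ec e')) (ed (cf X.M0 X.b v t))) v i j hij'.le hj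

end Pool.Agent.RPH
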