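import Pool.Agent.RPH.AArc
import Pool.Agent.RPH.Opt0

/-!
# RPH-AClsR: for a suitable tuple the canonical walks have the right classes

PLAN. As `exists_tupleC` in `Pool/Agent/EPH/ACls.lean` (copy its private lemmas). `H' := (HQ X.qe X.dF).map (LinearMap.fst F2 (cyc G →ₗ[F2] F2) (X.S.Face ⊕ Flag G → F2))`, `finrank H' ≤ k` (`Submodule.finrank_map_le`); `exists_coords` (BEO/TupL) for `finrank H'`, then append `k - finrank H'` copies of some
edge (there is an edge as `G` is connected and `2 ≤ n`: `exists_flag`). This gives `es0 : List G.edgeSet` of length `k`; `es := es0.map ec`. For a fitting `g` with these edges and walks `w`, `w'` with the same ends (`wkX_complete`, `mem_arg`, `exists_phiR`) and labels: the difference `x` of the sums of the `qe` is in `HQ`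
(in the span; `dF F'` of the sum along a walk from `F` to `F1` is `[F = F'] + [F1 = F']`, by `dF_qe`, induction on `DW`), `x.1` vanishes at the cycles of `es0` (`lbg_eq`, labels as in `lab_sum`), so `x.1 = 0`, and `x.2 F' = X.dF F' x = 0`. So `x = 0`. (`Canon` in `RPH/Opt0.lean`; the fields of `X.mkS` are `X.qe` etc. by `rfl`.)
-/

set_option autoImplicit false

open Finset
open scoped Classical

namespace Pool.Agent.RPH

open Pool.Agent.EPH Pool.Agent.BEO
open Pool.Agent.Helper35.OG hiding F2 dg

variable {n : ℕ} {G : SimpleGraph (Fin n)}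

private theorem fold_sum (L : List Bool) : ∀ a : Bool, (if L.foldl xor a = true then (1 : F2) else 0) =
    (if a = true then 1 else 0) + (L.map fun b : Bool => if b = true then (1 : F2) else 0).sum := by
  induction L with
  | nil =>
    intro a
    cases a <;> simp
  | cons b L ih =>
    intro a
    rw [List.foldl_cons, ih, List.map_cons, List.sum_cons, ← add_assoc]
    congr 1
    revert a b
    decide

private theorem lab_sum {I E : Type} (k : ℕ) (es : List I) (hk : es.length = k) (f : I → E → Bool) (w w' : List E)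
    (h : lbX k (fun e => es.map fun x => f x e) w' = lbX k (fun e => es.map fun x => f x e) w) (x : I)
    (hx : x ∈ es) : (w'.map fun e => if f x e = true then (1 : F2) else 0).sum =
      (w.map fun e => if f x e = true then (1 : F2) else 0).sum := by
  subst hk
  rw [lbX_map, lbX_map] at h
  have h1 := List.map_inj_left.1 h x hx
  have key : ∀ v : List E, (v.map fun e => if f x e = true then (1 : F2) else 0).sum =
      if (v.map (f x)).foldl xor false = true then (1 : F2) else 0 := by
    intro v
    rw [fold_sum]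
    simp only [List.map_map, Bool.false_eq_true, if_false, zero_add]
    rfl
  rw [key, key, h1]

private theorem sum_mem {E Q : Type} [AddCommGroup Q] [Module F2 Q] (q : E → Q) (w : List E) :
    (w.map q).sum ∈ Submodule.span F2 (Set.range q) := by
  induction w with
  | nil => exact Submodule.zero_mem _
  | cons e w ih =>
    rw [List.map_cons, List.sum_cons]
    exact Submodule.add_mem _ (Submodule.subset_span ⟨e, rfl⟩) ih

private theorem sum_lin {E Q : Type} [AddCommGroup Q] [Module F2 Q] (q : E → Q) (f : Q →ₗ[F2] F2) (w : List E) :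
    f (w.map q).sum = (w.map fun e => f (q e)).sum := by
  induction w with
  | nil => exact map_zero f
  | cons e w ih =>
    rw [List.map_cons, List.sum_cons, List.map_cons, List.sum_cons, map_add, ih]

theorem exists_es {X : Pce G} {l : Inp} (h : Codes X.S l) (hG : G.Connected) (hn : 2 ≤ n) (k : ℕ) (hB : X.B.card ≤ k)
    (hH : Module.finrank F2 (HQ X.qe X.dF) ≤ k) : ∃ es : List G.edgeSet, es.length = k ∧
      ∀ (d : List Ec) (g : Gs), Fit X l d g → g.2.2.2.2 = es.map ec →
        Canon (X.mkS hG k hB hH) {w | w.map ccd ∈ wkX k (arg l d g)} := by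
  have hnt : Nontrivial (Fin n) := Fin.nontrivial_iff_two_le.2 hn
  let zc : G.edgeSet → cyc G := fun e => ⟨pc (zl l (ec e)), zc_mem h hG hn e⟩
  have hspan : ∀ φ : cyc G →ₗ[ZMod 2] ZMod 2, (∀ e, φ (zc e) = 0) → φ = 0 := by
    intro φ hφ
    apply LinearMap.ext
    intro z
    have hz : z = ∑ e, z.1 e • zc e := by
      apply Subtype.ext
      funext e'
      rw [zc_span h hG hn z.1 z.2 e', Submodule.coe_sum, Finset.sum_apply]
      rfl
    rw [hz, map_sum]
    simp only [map_smul, hφ, smul_zero, Finset.sum_const_zero]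
    rfl
  obtain ⟨es, hlen, hes0⟩ : ∃ es : List G.edgeSet, es.length = k ∧
      ∀ φ ∈ (HQ X.qe X.dF).map (LinearMap.fst F2 (cyc G →ₗ[F2] F2) (X.S.Face ⊕ Flag G → F2)),
        (∀ e ∈ es, φ (zc e) = 0) → φ = 0 := by
    have hH' : Module.finrank F2 ((HQ X.qe X.dF).map
        (LinearMap.fst F2 (cyc G →ₗ[F2] F2) (X.S.Face ⊕ Flag G → F2))) ≤ k :=
      le_trans (Submodule.finrank_map_le _ _) hH
    obtain ⟨es0, hlen0, hes0⟩ := exists_coords zc hspan _ _ (rfl : Module.finrank F2 ((HQ X.qe X.dF).map
        (LinearMap.fst F2 (cyc G →ₗ[F2] F2) (X.S.Face ⊕ Flag G → F2))) = _)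
    obtain ⟨p0, _⟩ := exists_flag hG (⟨0, by omega⟩ : Fin n)
    refine ⟨es0 ++ List.replicate (k - es0.length) (ed p0), ?_, ?_⟩
    · rw [List.length_append, List.length_replicate]
      omega
    · intro φ hφ he
      exact hes0 φ hφ fun e h1 => he e (List.mem_append_left _ h1)
  refine ⟨es, hlen, ?_⟩
  intro d g hg hes F F' w hw hne
  obtain ⟨φ, hφ, hinj⟩ := exists_phiR hg
  have hlab : ∀ e : Ch X.corP, (g.2.2.2.2.map fun y => lbg l d g y (ccd e)) =
      es.map fun x => lbg l d g (ec x) (ccd e) := by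
    intro e
    rw [hes, List.map_map]
    rfl
  have hk : ∀ e : Ch X.corP, (es.map fun x => lbg l d g (ec x) (ccd e)).length = k := by
    intro e
    rw [List.length_map, hlen]
  have hA : ∀ x, x ∈ arg l d g ↔ ∃ e : Ch X.corP,
      x = ((φ ((X.mkS hG k hB hH).D.s e), φ ((X.mkS hG k hB hH).D.t e)),
        (ccd e, es.map fun x => lbg l d g (ec x) (ccd e))) ∨
      x = ((φ ((X.mkS hG k hB hH).D.t e), φ ((X.mkS hG k hB hH).D.s e)),
        (ccd e, es.map fun x => lbg l d g (ec x) (ccd e))) := by
    intro x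
    rw [mem_arg hg hG hn φ hφ x]
    refine exists_congr fun e => ?_
    rw [hlab]
    exact Iff.rfl
  obtain ⟨w', h1, h2, h3, h4, h5, h6⟩ := wkX_complete φ hinj (X.mkS hG k hB hH).D.s (X.mkS hG k hB hH).D.t ccd
    (fun e : Ch X.corP => es.map fun x => lbg l d g (ec x) (ccd e)) k hk (arg l d g) hA F F' w hw hne
  refine ⟨w', h1, h5, h2, h3, h4, ?_⟩
  show (w'.map X.qe).sum = (w.map X.qe).sum
  have hdF : ∀ (F1 : X.S.Face ⊕ Flag G) (v : List (Ch X.corP)),
      X.dF F1 (v.map X.qe).sum = (v.map fun e => (X.mkS hG k hB hH).D.dF F1 ((X.mkS hG k hB hH).D.q e)).sum := by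
    intro F1 v
    exact sum_lin X.qe (X.dF F1) v
  have hd : ∀ F1 : X.S.Face ⊕ Flag G, X.dF F1 ((w'.map X.qe).sum - (w.map X.qe).sum) = 0 := by
    intro F1
    have e1 := h5.bd F1
    have e2 := hw.bd F1
    have e3 := funext ((X.mkS hG k hB hH).D.inc F1)
    rw [← e3] at e1 e2
    rw [map_sub, hdF F1 w', hdF F1 w, e1, e2, sub_self]
  have hx : (w'.map X.qe).sum - (w.map X.qe).sum ∈ HQ X.qe X.dF :=
    ⟨Submodule.sub_mem _ (sum_mem X.qe w') (sum_mem X.qe w), hd⟩
  rw [← sub_eq_zero]
  have hx1 : ((w'.map X.qe).sum - (w.map X.qe).sum).1 = 0 := by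
    apply hes0
    · exact Submodule.mem_map_of_mem hx
    · intro e he
      have h9 := lab_sum k es hlen (fun (x : G.edgeSet) (a : Ch X.corP) => lbg l d g (ec x) (ccd a)) w w' h6 e he
      have he2 : ec e ∈ g.2.2.2.2 := by
        rw [hes]
        exact List.mem_map.2 ⟨e, he, rfl⟩
      have key : ∀ a : Ch X.corP, (X.qe a).1 (zc e) = if lbg l d g (ec e) (ccd a) = true then (1 : F2) else 0 := by
        intro a
        exact (lbg_eq hg hG hn a e he2).symm
      have key3 : ∀ v : List (Ch X.corP), (v.map X.qe).sum.1 (zc e) = (v.map fun a => (X.qe a).1 (zc e)).sum := by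
        intro v
        exact sum_lin X.qe ((LinearMap.applyₗ (zc e)).comp
          (LinearMap.fst F2 (cyc G →ₗ[F2] F2) (X.S.Face ⊕ Flag G → F2))) v
      have key2 : (fun a : Ch X.corP => (X.qe a).1 (zc e)) =
          fun a : Ch X.corP => if lbg l d g (ec e) (ccd a) = true then (1 : F2) else 0 := funext key
      rw [Prod.fst_sub, LinearMap.sub_apply, key3, key3, sub_eq_zero, key2]
      exact h9
  exact Prod.ext hx1 (funext fun F1 => hd F1)

end Pool.Agent.RPH
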