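import Pool.Agent.RPH.TMain

/-!
# RPH-LKeep: the corners which are kept

PLAN. `d := (nb G v).card`, `ps := psF S b hb lam h` (TMain). Facts: `ovr lam v 0 m = 0` (`ovr_zero` in `EPH/LCmp.lean`), so `posN lam v 0 = 0` and `sgN lam v 0 = false`; for `l, m < d`
`(ovr lam v l m : F2) = EPH.cmp (posN lam v) (sgN lam v) l m` (`cmp_posN`); `ovr lam v d m = 0` (all chords have `hi < d`). For all `m`, modulo 2:
`ovr lam v (i + 1) m + ovr lam v i m = #{e at v, e.lo = i, i < m ≤ e.hi} + #{e at v, e.hi = i, e.lo < m ≤ i}` (*).
Left to right: `T.nxt (cf i) = side (cf (i + 1))` (`nxt_cf`). If `sgN i = false`, `outF i = cf i`, take `y` with `posN y = (posN i + 1) % d` (a bijection, as in `LMk`), so `side (outF y) = side (cf (i + 1))`, `outF y = cf (i + 1)`: if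
`i + 1 < d` then `y = i + 1`, `sgN y = false` (`cf_inj`, `cf_ne_side`), `posN (i + 1) = posN i + 1` (`posN (i + 1) = 0 = posN 0` is impossible). If `i + 1 = d` then `y = 0` (`cf_period`), `posN i = d - 1`. If `sgN i = true`: `outF i = side (cf i)`; let `x` with `posN i = (posN x + 1) % d`;
`T.nxt (outF x) = side (outF i) = cf i`, so `outF x = T.nxt (cf i) = side (cf (i + 1))`; so `i + 1 < d`, `x = i + 1`, `sgN x = true` (for `i + 1 = d`, `x = 0` but `sgN 0 = false`), `posN i = posN (i + 1) + 1`. In all cases rows `i` and `i + 1` of `EPH.cmp` agree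
for `m < d` (row `d` is 0; for `m = i`, `m = i + 1` use the signs), so both sides of (*) are even for all `m < d`; comparing `m` and `m + 1` for `m > i` gives that the number of chords with `lo = i, hi = m` (at most one) is even, so 0; for `m ≤ i` compare `m` and `m - 1`: no chord with `hi = i`, `lo = m - 1`.
Right to left: then `ovr lam v (i + 1) m = ovr lam v i m` for all `m` (the sets are equal). For `m ≠ i, i + 1`: `bef lam v i m ↔ bef lam v (i + 1) m`. If `i + 1 < d`: `sgN i = sgN (i + 1) = (parity of ovr i (i + 1))`; if it is even then `bef (i + 1) i`, not `bef i (i + 1)`, so `posN (i + 1) = posN i + 1`, and `IsMk` gives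
`T.nxt (cf i) = side (cf (i + 1))`; if odd then `posN i = posN (i + 1) + 1`, `T.nxt (side (cf (i + 1))) = side (side (cf i)) = cf i`, then `nxt_nxt`. If `i + 1 = d`: row `d - 1` of `ovr` is 0, so `bef (d - 1) m` for all `m < d - 1`, `posN (d - 1) = d - 1`, `sgN = false`, `posN 0 = 0`: `T.nxt (cf (d - 1)) = side (cf 0) = side (cf d)`.
-/

set_option autoImplicit false

open Finset
open scoped Classical

namespace Pool.Agent.RPH

open Pool.Agent.EPH Pool.Agent.BEO
open Pool.Agent.Helper35.OG hiding F2 dg

variable {V : Type} {G : SimpleGraph V} [Fintype V]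

section aux

variable {Φ Vt : Type} {P : Cor Φ Vt}

private theorem ch_ext {e e' : Ch P} (h1 : e.vx = e'.vx) (h2 : e.lo = e'.lo) (h3 : e.hi = e'.hi) : e = e' := by
  obtain ⟨⟨v, lo, hi⟩, hl⟩ := e
  obtain ⟨⟨v', lo', hi'⟩, hl'⟩ := e'
  simp only [Ch.vx, Ch.lo, Ch.hi] at h1 h2 h3
  subst h1
  have h5 : lo = lo' := Fin.ext h2
  subst h5
  have h6 : hi = hi' := Fin.ext h3
  subst h6
  rfl

private theorem ch_lt (e : Ch P) : e.lo < e.hi := e.2

private theorem ch_hi (e : Ch P) : e.hi < P.d e.vx := e.1.2.2.2

private theorem ovr_add (lam : Finset (Ch P)) (v : Vt) (i m : ℕ) :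
    ovr lam v (i + 1) m + (lam.filter fun e => e.vx = v ∧ e.hi = i ∧ e.lo < m ∧ m ≤ i).card =
      ovr lam v i m + (lam.filter fun e => e.vx = v ∧ e.lo = i ∧ i < m ∧ m ≤ e.hi).card := by
  have h1 : ovr lam v (i + 1) m + (lam.filter fun e => e.vx = v ∧ e.hi = i ∧ e.lo < m ∧ m ≤ i).card =
      (lam.filter fun e => e.vx = v ∧ e.lo ≤ i ∧ i ≤ e.hi ∧ e.lo < m ∧ m ≤ e.hi).card := by
    unfold ovr
    rw [← Finset.card_union_of_disjoint, ← Finset.filter_or]
    · refine congrArg Finset.card (Finset.filter_congr fun e _ => ?_)
      have := ch_lt e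
      constructor
      · rintro (⟨h1, h2, h3, h4, h5⟩ | ⟨h1, h2, h3, h4⟩)
        · exact ⟨h1, by omega, by omega, h4, h5⟩
        · exact ⟨h1, by omega, by omega, h3, by omega⟩
      · rintro ⟨h1, h2, h3, h4, h5⟩
        by_cases h6 : e.hi = i
        · exact Or.inr ⟨h1, h6, h4, by omega⟩
        · exact Or.inl ⟨h1, by omega, by omega, h4, h5⟩
    · rw [Finset.disjoint_left]
      intro e he he'
      obtain ⟨_, _, _, a, _, _⟩ := Finset.mem_filter.1 he
      obtain ⟨_, _, b, _, _⟩ := Finset.mem_filter.1 he'
      omega
  have h2 : ovr lam v i m + (lam.filter fun e => e.vx = v ∧ e.lo = i ∧ i < m ∧ m ≤ e.hi).card =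
      (lam.filter fun e => e.vx = v ∧ e.lo ≤ i ∧ i ≤ e.hi ∧ e.lo < m ∧ m ≤ e.hi).card := by
    unfold ovr
    rw [← Finset.card_union_of_disjoint, ← Finset.filter_or]
    · refine congrArg Finset.card (Finset.filter_congr fun e _ => ?_)
      have := ch_lt e
      constructor
      · rintro (⟨h1, h2, h3, h4, h5⟩ | ⟨h1, h2, h3, h4⟩)
        · exact ⟨h1, by omega, by omega, h4, h5⟩
        · exact ⟨h1, by omega, by omega, by omega, h4⟩
      · rintro ⟨h1, h2, h3, h4, h5⟩
        by_cases h6 : e.lo = i
        · exact Or.inr ⟨h1, h6, by omega, h5⟩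
        · exact Or.inl ⟨h1, by omega, by omega, h4, h5⟩
    · rw [Finset.disjoint_left]
      intro e he he'
      obtain ⟨_, _, a, _, _, _⟩ := Finset.mem_filter.1 he
      obtain ⟨_, _, b, _, _⟩ := Finset.mem_filter.1 he'
      omega
  rw [h1, h2]

/-- the rows `i` and `i + 1` have the same parities iff no chord ends at `i` -/
private theorem row_iff (lam : Finset (Ch P)) (v : Vt) (i : ℕ) (hi : i < P.d v) :
    (∀ m, m < P.d v → (Odd (ovr lam v (i + 1) m) ↔ Odd (ovr lam v i m))) ↔
      ∀ e ∈ lam, e.vx = v → e.lo ≠ i ∧ e.hi ≠ i := by
  constructor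
  · intro h e he hev
    constructor
    · intro hlo
      obtain ⟨f, hf, hmax⟩ := Finset.exists_max_image (lam.filter fun e => e.vx = v ∧ e.lo = i)
        (fun e => e.hi) ⟨e, Finset.mem_filter.2 ⟨he, hev, hlo⟩⟩
      obtain ⟨hf1, hf2, hf3⟩ := Finset.mem_filter.1 hf
      have hlt := ch_lt f
      have hhi := ch_hi f
      rw [hf2] at hhi
      have h1 := ovr_add lam v i f.hi
      have h2 : (lam.filter fun e => e.vx = v ∧ e.hi = i ∧ e.lo < f.hi ∧ f.hi ≤ i).card = 0 := by
        rw [Finset.card_eq_zero, Finset.filter_eq_empty_iff]
        rintro e' _ ⟨_, _, _, h5⟩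
        omega
      have h3 : (lam.filter fun e => e.vx = v ∧ e.lo = i ∧ i < f.hi ∧ f.hi ≤ e.hi) = {f} := by
        ext e'
        rw [Finset.mem_filter, Finset.mem_singleton]
        constructor
        · rintro ⟨a1, a2, a3, a4, a5⟩
          have a6 := hmax e' (Finset.mem_filter.2 ⟨a1, a2, a3⟩)
          exact ch_ext (a2.trans hf2.symm) (a3.trans hf3.symm) (by omega)
        · rintro rfl
          exact ⟨hf1, hf2, hf3, by omega, le_rfl⟩
      rw [h2, h3, Finset.card_singleton, add_zero] at h1
      have h4 := h f.hi hhi
      rw [h1, Nat.odd_add_one] at h4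
      tauto
    · intro hhi
      obtain ⟨f, hf, hmin⟩ := Finset.exists_min_image (lam.filter fun e => e.vx = v ∧ e.hi = i)
        (fun e => e.lo) ⟨e, Finset.mem_filter.2 ⟨he, hev, hhi⟩⟩
      obtain ⟨hf1, hf2, hf3⟩ := Finset.mem_filter.1 hf
      have hlt := ch_lt f
      have h1 := ovr_add lam v i (f.lo + 1)
      have h2 : (lam.filter fun e => e.vx = v ∧ e.lo = i ∧ i < f.lo + 1 ∧ f.lo + 1 ≤ e.hi).card = 0 := by
        rw [Finset.card_eq_zero, Finset.filter_eq_empty_iff]
        rintro e' _ ⟨_, _, h4, _⟩
        omega
      have h3 : (lam.filter fun e => e.vx = v ∧ e.hi = i ∧ e.lo < f.lo + 1 ∧ f.lo + 1 ≤ i) = {f} := by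
        ext e'
        rw [Finset.mem_filter, Finset.mem_singleton]
        constructor
        · rintro ⟨a1, a2, a3, a4, a5⟩
          have a6 := hmin e' (Finset.mem_filter.2 ⟨a1, a2, a3⟩)
          exact ch_ext (a2.trans hf2.symm) (by omega) (a3.trans hf3.symm)
        · rintro rfl
          exact ⟨hf1, hf2, hf3, by omega, by omega⟩
      rw [h2, h3, Finset.card_singleton, add_zero] at h1
      have h4 := h (f.lo + 1) (by omega)
      rw [← h1, Nat.odd_add_one] at h4
      tauto
  · intro h m _
    have h1 : ovr lam v (i + 1) m = ovr lam v i m := by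
      unfold ovr
      refine congrArg Finset.card (Finset.filter_congr fun e he => ?_)
      constructor
      · rintro ⟨h1, h2, h3, h4, h5⟩
        have := h e he h1
        exact ⟨h1, by omega, by omega, h4, h5⟩
      · rintro ⟨h1, h2, h3, h4, h5⟩
        have := h e he h1
        exact ⟨h1, by omega, by omega, h4, h5⟩
    rw [h1]

private theorem ovr_top (lam : Finset (Ch P)) (v : Vt) (m : ℕ) : ovr lam v (P.d v) m = 0 := by
  unfold ovr
  rw [Finset.card_eq_zero, Finset.filter_eq_empty_iff]
  rintro e _ ⟨h1, _, h2, _⟩
  have := ch_hi e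
  rw [h1] at this
  omega

private theorem posN_zero (lam : Finset (Ch P)) (v : Vt) : posN lam v 0 = 0 := by
  unfold posN
  rw [Finset.card_eq_zero, Finset.filter_eq_empty_iff]
  rintro m _ ⟨_, h2⟩
  unfold bef at h2
  rw [ovr_zero] at h2
  apply h2
  constructor
  · intro h
    omega
  · intro h
    exact absurd h (by decide)

private theorem sgN_zero (lam : Finset (Ch P)) (v : Vt) : sgN lam v 0 = false := by
  unfold sgN
  rw [ovr_zero]
  decide

private theorem pos_surj' {pos : ℕ → ℕ} {d : ℕ} (h1 : ∀ i, i < d → pos i < d)
    (h2 : ∀ i j, i < d → j < d → pos i = pos j → i = j) (n : ℕ) (hn : n < d) :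
    ∃ x, x < d ∧ pos x = n := by
  have h3 : (range d).image pos = range d := by
    apply Finset.eq_of_subset_of_card_le
    · intro y hy
      obtain ⟨x, hx, rfl⟩ := Finset.mem_image.1 hy
      exact mem_range.2 (h1 x (mem_range.1 hx))
    · rw [Finset.card_image_of_injOn]
      intro x hx y hy hxy
      exact h2 x y (mem_range.1 hx) (mem_range.1 hy) hxy
  have h4 : n ∈ (range d).image pos := by
    rw [h3]
    exact mem_range.2 hn
  obtain ⟨x, hx, hxn⟩ := Finset.mem_image.1 h4
  exact ⟨x, mem_range.1 hx, hxn⟩

end aux

/-- a corner is kept if and only if no chord ends there -/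
theorem keep_iff (S : GMap G) (b : V → Flag G) (hb : IsBase b) (lam : Finset (Ch (corF S b hb)))
    (h : Real (corF S b hb) lam) (T : GMap G) (hT : IsMk S b (posN lam) (sgN lam) T) (v : V) (i : ℕ)
    (hi : i < (nb G v).card) :
    T.nxt (cf S b v i) = S.nxt (cf S b v i) ↔ ∀ e ∈ lam, e.vx = v → e.lo ≠ i ∧ e.hi ≠ i := by
  rw [← row_iff lam v i hi, nxt_cf]
  have hd : (corF S b hb).d v = (nb G v).card := rfl
  rw [hd]
  set d := (nb G v).card with hdd
  have hinj : ∀ i j, i < d → j < d → posN lam v i = posN lam v j → i = j := (real_iff_inj lam).1 h v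
  have hlt : ∀ l, l < d → posN lam v l < d := fun l hl => posN_lt lam v l hl
  have hbef : ∀ l m, l < d → m < d → l ≠ m →
      (posN lam v m < posN lam v l ↔ ¬ (m < l ↔ Odd (ovr lam v l m))) := by
    intro l m hl hm hlm
    have hr : ∀ l m, l < d → m < d → l ≠ m → (bef lam v l m ↔ ¬ bef lam v m l) :=
      fun l m _ _ hlm => bef_iff lam v l m hlm
    exact (tour_inj d (bef lam v) hr hinj l m hl hm hlm).symm
  have hsg : ∀ l, sgN lam v l = true ↔ Odd (ovr lam v l l) := by
    intro l
    unfold sgN
    exact decide_eq_true_iff
  have hp0 : posN lam v 0 = 0 := posN_zero lam v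
  have hs0 : sgN lam v 0 = false := sgN_zero lam v
  have htop : ∀ m, ¬ Odd (ovr lam v d m) := by
    intro m
    have h1 : ovr lam v d m = 0 := ovr_top lam v m
    rw [h1]
    decide
  have hd0 : cf S b v d = cf S b v 0 := by
    have := cf_period S hb v 0
    rw [zero_add] at this
    exact this
  have hdpos : 0 < d := by omega
  have outf : ∀ x, sgN lam v x = false → outF S b (sgN lam) v x = cf S b v x := by
    intro x hx
    unfold outF
    rw [hx]
    rfl
  have outt : ∀ x, sgN lam v x = true → outF S b (sgN lam) v x = side (cf S b v x) := by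
    intro x hx
    unfold outF
    rw [hx]
    rfl
  constructor
  · intro hk
    cases hsi : sgN lam v i
    · -- sign +
      have hno : ¬ Odd (ovr lam v i i) := by
        rw [← hsg i, hsi]
        decide
      obtain ⟨y, hy, hpy⟩ := pos_surj' hlt hinj ((posN lam v i + 1) % d) (Nat.mod_lt _ hdpos)
      have h1 := hT v i y hi hy hpy
      rw [outf i hsi, hk] at h1
      have h2 : cf S b v (i + 1) = outF S b (sgN lam) v y := by
        have := congrArg side h1
        rwa [side_side, side_side] at this
      have hsy : sgN lam v y = false := by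
        cases hsy : sgN lam v y
        · rfl
        · rw [outt y hsy] at h2
          exact absurd h2 (cf_ne_side S b v _ _)
      rw [outf y hsy] at h2
      by_cases hi1 : i + 1 < d
      · have hyi : i + 1 = y := cf_inj S hb v hi1 hy h2
        subst hyi
        have h3 : posN lam v (i + 1) ≠ 0 := by
          intro h4
          have := hinj (i + 1) 0 hi1 hdpos (h4.trans hp0.symm)
          omega
        have h4 : posN lam v (i + 1) = posN lam v i + 1 := by
          have h5 := hlt i hi
          by_cases h6 : posN lam v i + 1 < d
          · rw [Nat.mod_eq_of_lt h6] at hpy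
            exact hpy
          · have h7 : posN lam v i + 1 = d := by omega
            rw [h7, Nat.mod_self] at hpy
            exact absurd hpy h3
        have hno1 : ¬ Odd (ovr lam v (i + 1) (i + 1)) := by
          rw [← hsg (i + 1), hsy]
          decide
        intro m hm
        by_cases hm1 : m = i
        · subst hm1
          have h5 := hbef (m + 1) m hi1 hm (by omega)
          have h6 : posN lam v m < posN lam v (m + 1) := by omega
          have h7 := h5.1 h6
          have h8 : m < m + 1 := by omega
          tauto
        by_cases hm2 : m = i + 1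
        · subst hm2
          have h5 := hbef i (i + 1) hi hm (by omega)
          have h6 : ¬ posN lam v (i + 1) < posN lam v i := by omega
          have h8 : ¬ i + 1 < i := by omega
          tauto
        have h5 := hbef (i + 1) m hi1 hm (by omega)
        have h6 := hbef i m hi hm (by omega)
        have h7 : posN lam v m ≠ posN lam v i := fun h8 => hm1 (hinj m i hm hi h8)
        have h8 : posN lam v m < posN lam v (i + 1) ↔ posN lam v m < posN lam v i := by omega
        have h9 : m < i + 1 ↔ m < i := by omega
        rw [h8, h9] at h5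
        tauto
      · have hi2 : i + 1 = d := by omega
        rw [hi2, hd0] at h2
        have hy0 : 0 = y := cf_inj S hb v hdpos hy h2
        subst hy0
        rw [hp0] at hpy
        have h4 : posN lam v i = d - 1 := by
          have h5 := hlt i hi
          by_cases h6 : posN lam v i + 1 < d
          · rw [Nat.mod_eq_of_lt h6] at hpy
            omega
          · omega
        intro m hm
        rw [hi2]
        have h5 : ¬ Odd (ovr lam v i m) := by
          by_cases hm1 : m = i
          · rw [hm1]
            exact hno
          have h6 := hbef i m hi hm (by omega)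
          have h7 : posN lam v m ≠ posN lam v i := fun h8 => hm1 (hinj m i hm hi h8)
          have h8 : posN lam v m < posN lam v i := by
            have := hlt m hm
            omega
          have h9 : m < i := by omega
          tauto
        exact iff_of_false (htop m) h5
    · -- sign -
      have hno : Odd (ovr lam v i i) := by
        rw [← hsg i, hsi]
      have hi0 : i ≠ 0 := by
        rintro rfl
        rw [hs0] at hsi
        exact absurd hsi (by decide)
      have hpi0 : posN lam v i ≠ 0 := by
        intro h4
        exact hi0 (hinj i 0 hi hdpos (h4.trans hp0.symm))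
      obtain ⟨x, hx, hpx⟩ := pos_surj' hlt hinj (posN lam v i - 1) (by have := hlt i hi; omega)
      have hpx' : posN lam v i = posN lam v x + 1 := by omega
      have h0 : posN lam v i = (posN lam v x + 1) % d := by
        rw [← hpx', Nat.mod_eq_of_lt (hlt i hi)]
      have h1 := hT v x i hx hi h0
      rw [outt i hsi, side_side] at h1
      have h2 : outF S b (sgN lam) v x = side (cf S b v (i + 1)) := by
        rw [← hk, ← h1, T.nxt_nxt]
      have hsx : sgN lam v x = true := by
        cases hsx : sgN lam v x
        · rw [outf x hsx] at h2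
          exact absurd h2 (cf_ne_side S b v _ _)
        · rfl
      rw [outt x hsx] at h2
      have h3 : cf S b v x = cf S b v (i + 1) := by
        have := congrArg side h2
        rwa [side_side, side_side] at this
      by_cases hi1 : i + 1 < d
      · have hxi : x = i + 1 := cf_inj S hb v hx hi1 h3
        subst hxi
        have hno1 : Odd (ovr lam v (i + 1) (i + 1)) := by
          rw [← hsg (i + 1), hsx]
        intro m hm
        by_cases hm1 : m = i
        · subst hm1
          have h5 := hbef (m + 1) m hi1 hm (by omega)
          have h6 : ¬ posN lam v m < posN lam v (m + 1) := by omega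
          have h8 : m < m + 1 := by omega
          tauto
        by_cases hm2 : m = i + 1
        · subst hm2
          have h5 := hbef i (i + 1) hi hm (by omega)
          have h6 : posN lam v (i + 1) < posN lam v i := by omega
          have h7 := h5.1 h6
          have h8 : ¬ i + 1 < i := by omega
          tauto
        have h5 := hbef (i + 1) m hi1 hm (by omega)
        have h6 := hbef i m hi hm (by omega)
        have h7 : posN lam v m ≠ posN lam v (i + 1) := fun h8 => hm2 (hinj m (i + 1) hm hi1 h8)
        have h8 : posN lam v m < posN lam v (i + 1) ↔ posN lam v m < posN lam v i := by omega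
        have h9 : m < i + 1 ↔ m < i := by omega
        rw [h8, h9] at h5
        tauto
      · exfalso
        have hi2 : i + 1 = d := by omega
        rw [hi2, hd0] at h3
        have hx0 : x = 0 := cf_inj S hb v hx hdpos h3
        subst hx0
        rw [hs0] at hsx
        exact absurd hsx (by decide)
  · intro hrow
    by_cases hi1 : i + 1 < d
    · have r1 := hrow i hi
      have r2 := hrow (i + 1) hi1
      have c1 : ovr lam v (i + 1) i = ovr lam v i (i + 1) := ovr_comm lam v _ _
      rw [c1] at r1
      have hbetween : ∀ m, m < d → m ≠ i → m ≠ i + 1 →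
          (posN lam v m < posN lam v (i + 1) ↔ posN lam v m < posN lam v i) := by
        intro m hm hm1 hm2
        have h5 := hbef (i + 1) m hi1 hm (by omega)
        have h6 := hbef i m hi hm (by omega)
        have h9 : m < i + 1 ↔ m < i := by omega
        have h10 := hrow m hm
        rw [h5, h6, h9, h10]
      cases hsi : sgN lam v i
      · have hno : ¬ Odd (ovr lam v i i) := by
          rw [← hsg i, hsi]
          decide
        have hno1 : ¬ Odd (ovr lam v (i + 1) (i + 1)) := by tauto
        have hsi1 : sgN lam v (i + 1) = false := by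
          rw [← Bool.not_eq_true, hsg]
          exact hno1
        have h5 := hbef (i + 1) i hi1 hi (by omega)
        have h8 : i < i + 1 := by omega
        rw [c1] at h5
        have h6 : posN lam v i < posN lam v (i + 1) := by tauto
        have h7 : posN lam v (i + 1) = posN lam v i + 1 := by
          by_contra hne
          have h10 := hlt (i + 1) hi1
          obtain ⟨m, hm, hpm⟩ := pos_surj' hlt hinj (posN lam v i + 1) (by omega)
          have hm1 : m ≠ i := by
            rintro rfl
            omega
          have hm2 : m ≠ i + 1 := by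
            rintro rfl
            omega
          have h11 := hbetween m hm hm1 hm2
          omega
        have h9 := hT v i (i + 1) hi hi1 (by rw [← h7, Nat.mod_eq_of_lt (hlt (i + 1) hi1)])
        rw [outf i hsi, outf (i + 1) hsi1] at h9
        exact h9
      · have hno : Odd (ovr lam v i i) := by
          rw [← hsg i, hsi]
        have hno1 : Odd (ovr lam v (i + 1) (i + 1)) := by tauto
        have hsi1 : sgN lam v (i + 1) = true := by
          rw [hsg]
          exact hno1
        have h5 := hbef i (i + 1) hi hi1 (by omega)
        have h8 : ¬ i + 1 < i := by omega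
        have h6 : posN lam v (i + 1) < posN lam v i := by tauto
        have h7 : posN lam v i = posN lam v (i + 1) + 1 := by
          by_contra hne
          have h10 := hlt i hi
          obtain ⟨m, hm, hpm⟩ := pos_surj' hlt hinj (posN lam v (i + 1) + 1) (by omega)
          have hm1 : m ≠ i := by
            rintro rfl
            omega
          have hm2 : m ≠ i + 1 := by
            rintro rfl
            omega
          have h11 := hbetween m hm hm1 hm2
          omega
        have h9 := hT v (i + 1) i hi1 hi (by rw [← h7, Nat.mod_eq_of_lt (hlt i hi)])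
        rw [outt i hsi, outt (i + 1) hsi1, side_side] at h9
        rw [← h9, T.nxt_nxt]
    · have hi2 : i + 1 = d := by omega
      have hz : ∀ m, m < d → ¬ Odd (ovr lam v i m) := by
        intro m hm h5
        have h6 := (hrow m hm).2 h5
        rw [hi2] at h6
        exact htop m h6
      have hsi : sgN lam v i = false := by
        rw [← Bool.not_eq_true, hsg]
        exact hz i hi
      have hmax : ∀ m, m < d → m ≠ i → posN lam v m < posN lam v i := by
        intro m hm hmi
        have h5 := hbef i m hi hm (by omega)
        have h6 : m < i := by omega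
        have h7 := hz m hm
        tauto
      have hpi : posN lam v i = d - 1 := by
        obtain ⟨m, hm, hpm⟩ := pos_surj' hlt hinj (d - 1) (by omega)
        by_cases hmi : m = i
        · rw [← hmi]
          exact hpm
        · have h5 := hmax m hm hmi
          have h6 := hlt i hi
          omega
      have h9 := hT v i 0 hi hdpos (by
        rw [hp0, hpi, Nat.sub_add_cancel (by omega), Nat.mod_self])
      rw [outf i hsi, outf 0 hs0] at h9
      rw [hi2, hd0]
      exact h9

end Pool.Agent.RPH
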