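import Pool.Agent.RPH.LEmb
import Pool.Agent.RPH.LKeep

/-!
# RPH-LNewR: the map of a set of chords of allowed corners
-/

set_option autoImplicit false

open Finset
open scoped Classical

namespace Pool.Agent.RPH

open Pool.Agent.EPH Pool.Agent.BEO
open Pool.Agent.Helper35.OG hiding F2 dg

variable {V : Type} {G : SimpleGraph V} [Fintype V]

private theorem nr_pos {Φ Vt : Type} {P : Cor Φ Vt} (lam : Finset (Ch P)) (h : Real P lam) (v : Vt) {l m : ℕ}
    (hl : l < P.d v) (hm : m < P.d v) (hlm : l ≠ m) : bef lam v l m ↔ posN lam v m < posN lam v l :=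
  tour_inj (P.d v) (bef lam v) (fun l m _ _ hlm => bef_iff lam v l m hlm) ((real_iff_inj lam).1 h v) l m hl hm hlm

private theorem nr_mem {Φ Vt : Type} {P : Cor Φ Vt} (lam : Finset (Ch P)) (v : Vt) (l m : ℕ) :
    m ∈ (range (P.d v)).filter (fun m => m ≠ l ∧ bef lam v l m) ↔ m < P.d v ∧ m ≠ l ∧ bef lam v l m := by
  rw [mem_filter, mem_range]

namespace Pce

variable (X : Pce G)

/-- the last flag of the block `x` in the new order -/
noncomputable def oR (lam : Finset (Ch X.corP)) (v : V) (x : ℕ) : Flag G := if sgN lam v x then X.Lf v x else X.Rf v x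

/-- the first flag of the block `y` in the new order -/
noncomputable def oL (lam : Finset (Ch X.corP)) (v : V) (y : ℕ) : Flag G := if sgN lam v y then X.Rf v y else X.Lf v y

/-- `T` has the blocks in the order given by `lam` -/
def IsR (lam : Finset (Ch X.corP)) (T : GMap G) : Prop :=
  ∀ v x y, x < X.na v → y < X.na v → posN lam v y = (posN lam v x + 1) % X.na v → T.nxt (X.oR lam v x) = X.oL lam v y

/-- the last dart of the block in the new order -/
private noncomputable def nrF (lam : Finset (Ch X.corP)) (v : V) (x : ℕ) : ℕ := if sgN lam v x then X.fs v x else X.al v x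

/-- the first dart of the block in the new order -/
private noncomputable def nrI (lam : Finset (Ch X.corP)) (v : V) (y : ℕ) : ℕ := if sgN lam v y then X.al v y else X.fs v y

private theorem nrF_lt (lam : Finset (Ch X.corP)) {v : V} {x : ℕ} (hx : x < X.na v) : X.nrF lam v x < (nb G v).card := by
  unfold nrF
  split_ifs
  · exact X.fs_lt hx
  · exact X.al_lt hx

private theorem nrI_lt (lam : Finset (Ch X.corP)) {v : V} {x : ℕ} (hx : x < X.na v) : X.nrI lam v x < (nb G v).card := by
  unfold nrI
  split_ifs
  · exact X.al_lt hx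
  · exact X.fs_lt hx

private theorem nrF_ct (lam : Finset (Ch X.corP)) {v : V} {x : ℕ} (hx : x < X.na v) : X.ct v (X.nrF lam v x) = x := by
  have h1 := X.fs_le hx
  rw [X.ct_iff hx (X.nrF_lt lam hx)]
  unfold nrF
  split_ifs
  · exact ⟨le_rfl, h1⟩
  · exact ⟨h1, le_rfl⟩

private theorem nrI_ct (lam : Finset (Ch X.corP)) {v : V} {x : ℕ} (hx : x < X.na v) : X.ct v (X.nrI lam v x) = x := by
  have h1 := X.fs_le hx
  rw [X.ct_iff hx (X.nrI_lt lam hx)]
  unfold nrI
  split_ifs
  · exact ⟨h1, le_rfl⟩
  · exact ⟨le_rfl, h1⟩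

private theorem nr_sg (lam : Finset (Ch X.corP)) (v : V) (l : ℕ) :
    sgN (lam.image X.emb) v l = sgN lam v (X.ct v l) := by
  unfold sgN
  rw [X.ovr_emb]

/-- darts of different blocks -/
private theorem nr_ne (lam : Finset (Ch X.corP)) {v : V} {l m : ℕ} (h : X.ct v l ≠ X.ct v m) :
    bef (lam.image X.emb) v l m ↔ bef lam v (X.ct v l) (X.ct v m) := by
  unfold bef
  rw [X.ovr_emb]
  have h1 : m < l ↔ X.ct v m < X.ct v l := by
    constructor
    · intro h2
      have h3 := X.ct_mono v h2.le
      omega
    · intro h2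
      by_contra h3
      have h4 := X.ct_mono v (not_lt.1 h3)
      omega
  rw [h1]

/-- darts of the same block -/
private theorem nr_eq (lam : Finset (Ch X.corP)) {v : V} {l m : ℕ} (h : X.ct v l = X.ct v m) :
    bef (lam.image X.emb) v l m ↔ ¬ (m < l ↔ sgN lam v (X.ct v l) = true) := by
  unfold bef sgN
  rw [X.ovr_emb, ← h, decide_eq_true_eq]

/-- the other darts of a block are before its last dart -/
private theorem nr_last (lam : Finset (Ch X.corP)) {v : V} {x m : ℕ} (hx : x < X.na v) (hm : m < (nb G v).card)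
    (h : X.ct v m = x) (hne : m ≠ X.nrF lam v x) : bef (lam.image X.emb) v (X.nrF lam v x) m := by
  have h1 := X.nrF_ct lam hx
  rw [X.nr_eq lam (h1.trans h.symm), h1]
  have h2 := (X.ct_iff hx hm).1 h
  unfold nrF at hne ⊢
  cases h3 : sgN lam v x
  · rw [h3] at hne
    simp only [Bool.false_eq_true, if_false] at hne ⊢
    have h4 : m < X.al v x := lt_of_le_of_ne h2.2 hne
    exact fun h5 => h5.1 h4
  · rw [h3] at hne
    simp only [if_true] at hne ⊢
    have h4 : ¬ m < X.fs v x := not_lt.2 h2.1
    exact fun h5 => h4 (h5.2 trivial)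

/-- the other darts of a block are after its first dart -/
private theorem nr_first (lam : Finset (Ch X.corP)) {v : V} {x m : ℕ} (hx : x < X.na v) (hm : m < (nb G v).card)
    (h : X.ct v m = x) (hne : m ≠ X.nrI lam v x) : ¬ bef (lam.image X.emb) v (X.nrI lam v x) m := by
  have h1 := X.nrI_ct lam hx
  rw [X.nr_eq lam (h1.trans h.symm), h1, not_not]
  have h2 := (X.ct_iff hx hm).1 h
  unfold nrI at hne ⊢
  cases h3 : sgN lam v x
  · rw [h3] at hne
    simp only [Bool.false_eq_true, if_false] at hne ⊢
    have h4 : ¬ m < X.fs v x := not_lt.2 h2.1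
    exact iff_of_false h4 id
  · rw [h3] at hne
    simp only [if_true] at hne ⊢
    have h4 : m < X.al v x := lt_of_le_of_ne h2.2 hne
    exact iff_of_true h4 trivial

/-- the position of the first dart of the next block -/
private theorem nr_step (lam : Finset (Ch X.corP)) (h : Real X.corP lam) {v : V} {x y : ℕ} (hx : x < X.na v)
    (hy : y < X.na v) (hxy : posN lam v y = (posN lam v x + 1) % X.na v) :
    posN (lam.image X.emb) v (X.nrI lam v y) = (posN (lam.image X.emb) v (X.nrF lam v x) + 1) % (nb G v).card := by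
  have h' := (X.real_emb lam).2 h
  have hna : 0 < X.na v := by omega
  have hb : ∀ {l m : ℕ}, l < X.na v → m < X.na v → l ≠ m → (bef lam v l m ↔ posN lam v m < posN lam v l) :=
    fun hl hm hlm => nr_pos (P := X.corP) lam h v hl hm hlm
  have hinj : ∀ {l m : ℕ}, l < X.na v → m < X.na v → posN lam v l = posN lam v m → l = m :=
    fun hl hm hlm => (real_iff_inj lam).1 h v _ _ hl hm hlm
  have hlt : ∀ {l : ℕ}, l < X.na v → posN lam v l < X.na v := fun hl => posN_lt (P := X.corP) lam v _ hl
  have hFl := X.nrF_lt lam hx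
  have hIl := X.nrI_lt lam hy
  have hFc := X.nrF_ct lam hx
  have hIc := X.nrI_ct lam hy
  have hpx := hlt hx
  have hpy := hlt hy
  have hpI : posN (lam.image X.emb) v (X.nrI lam v y) < (nb G v).card :=
    posN_lt (P := corF X.M0 X.b X.hb) (lam.image X.emb) v _ hIl
  rcases Nat.lt_or_ge (posN lam v x + 1) (X.na v) with hc | hc
  · rw [Nat.mod_eq_of_lt hc] at hxy
    have hne : x ≠ y := by
      rintro rfl
      omega
    have hset : (range ((nb G v).card)).filter (fun m => m ≠ X.nrI lam v y ∧ bef (lam.image X.emb) v (X.nrI lam v y) m) =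
        insert (X.nrF lam v x) ((range ((nb G v).card)).filter
          (fun m => m ≠ X.nrF lam v x ∧ bef (lam.image X.emb) v (X.nrF lam v x) m)) := by
      ext m
      rw [mem_insert, mem_filter, mem_filter, mem_range]
      by_cases hm : m < (nb G v).card
      swap
      · constructor
        · rintro ⟨h1, -⟩
          exact absurd h1 hm
        · rintro (h1 | ⟨h1, -⟩)
          · rw [h1] at hm
            exact absurd hFl hm
          · exact absurd h1 hm
      have hw := X.ct_lt hm hna
      by_cases hmx : X.ct v m = x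
      · have h1 : m ≠ X.nrI lam v y := by
          rintro rfl
          exact hne (hmx.symm.trans hIc)
        have h2 : bef (lam.image X.emb) v (X.nrI lam v y) m := by
          rw [X.nr_ne lam (by rw [hIc, hmx]; exact hne.symm), hIc, hmx, hb hy hx hne.symm]
          omega
        refine iff_of_true ⟨hm, h1, h2⟩ ?_
        by_cases h3 : m = X.nrF lam v x
        · exact Or.inl h3
        · exact Or.inr ⟨hm, h3, X.nr_last lam hx hm hmx h3⟩
      · have hmF : m ≠ X.nrF lam v x := by
          rintro rfl
          exact hmx hFc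
        have hbF : bef (lam.image X.emb) v (X.nrF lam v x) m ↔ posN lam v (X.ct v m) < posN lam v x := by
          rw [X.nr_ne lam (by rw [hFc]; exact Ne.symm hmx), hFc, hb hx hw (Ne.symm hmx)]
        by_cases hmy : X.ct v m = y
        · refine iff_of_false ?_ ?_
          · rintro ⟨-, h1, h2⟩
            exact X.nr_first lam hy hm hmy h1 h2
          · rintro (h1 | ⟨-, -, h1⟩)
            · exact hmF h1
            · rw [hbF, hmy] at h1
              omega
        · have hmI : m ≠ X.nrI lam v y := by
            rintro rfl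
            exact hmy hIc
          have hbI : bef (lam.image X.emb) v (X.nrI lam v y) m ↔ posN lam v (X.ct v m) < posN lam v y := by
            rw [X.nr_ne lam (by rw [hIc]; exact Ne.symm hmy), hIc, hb hy hw (Ne.symm hmy)]
          have h1 : posN lam v (X.ct v m) ≠ posN lam v x := fun h2 => hmx (hinj hw hx h2)
          constructor
          · rintro ⟨-, -, h2⟩
            refine Or.inr ⟨hm, hmF, ?_⟩
            rw [hbF]
            rw [hbI] at h2
            omega
          · rintro (h2 | ⟨-, -, h2⟩)
            · exact absurd h2 hmF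
            · refine ⟨hm, hmI, ?_⟩
              rw [hbI]
              rw [hbF] at h2
              omega
    have h1 : posN (lam.image X.emb) v (X.nrI lam v y) = posN (lam.image X.emb) v (X.nrF lam v x) + 1 := by
      have h2 := congrArg Finset.card hset
      rw [card_insert_of_notMem (by
        rw [mem_filter]
        rintro ⟨-, h3, -⟩
        exact h3 rfl)] at h2
      exact h2
    rw [← h1, Nat.mod_eq_of_lt hpI]
  · have hcx : posN lam v x + 1 = X.na v := by omega
    rw [hcx, Nat.mod_self] at hxy
    have h1 : posN (lam.image X.emb) v (X.nrI lam v y) = 0 := by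
      refine Finset.card_eq_zero.2 (Finset.filter_eq_empty_iff.2 ?_)
      rintro m hm ⟨h2, h3⟩
      have hm' : m < (nb G v).card := mem_range.1 hm
      by_cases hmy : X.ct v m = y
      · exact X.nr_first lam hy hm' hmy h2 h3
      · rw [X.nr_ne lam (by rw [hIc]; exact Ne.symm hmy), hIc, hb hy (X.ct_lt hm' hna) (Ne.symm hmy)] at h3
        omega
    have h2 : posN (lam.image X.emb) v (X.nrF lam v x) = (nb G v).card - 1 := by
      have h3 : (range ((nb G v).card)).filter (fun m => m ≠ X.nrF lam v x ∧ bef (lam.image X.emb) v (X.nrF lam v x) m) =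
          (range ((nb G v).card)).erase (X.nrF lam v x) := by
        ext m
        rw [mem_filter, mem_erase, mem_range]
        constructor
        · rintro ⟨a, c, -⟩
          exact ⟨c, a⟩
        · rintro ⟨c, a⟩
          refine ⟨a, c, ?_⟩
          by_cases hmx : X.ct v m = x
          · exact X.nr_last lam hx a hmx c
          · have hw := X.ct_lt a hna
            rw [X.nr_ne lam (by rw [hFc]; exact Ne.symm hmx), hFc, hb hx hw (Ne.symm hmx)]
            have h4 := hlt hw
            have h5 : posN lam v (X.ct v m) ≠ posN lam v x := fun h6 => hmx (hinj hw hx h6)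
            omega
      have h4 := congrArg Finset.card h3
      rw [card_erase_of_mem (mem_range.2 hFl), card_range] at h4
      exact h4
    rw [h1, h2, show (nb G v).card - 1 + 1 = (nb G v).card by omega, Nat.mod_self]

theorem isR (lam : Finset (Ch X.corP)) (h : Real X.corP lam) (T : GMap G)
    (hT : IsMk X.M0 X.b (posN (lam.image X.emb)) (sgN (lam.image X.emb)) T) : X.IsR lam T := by
  intro v x y hx hy hxy
  have h1 := hT v (X.nrF lam v x) (X.nrI lam v y) (X.nrF_lt lam hx) (X.nrI_lt lam hy) (X.nr_step lam h hx hy hxy)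
  unfold outF at h1
  rw [X.nr_sg lam v (X.nrF lam v x), X.nr_sg lam v (X.nrI lam v y), X.nrF_ct lam hx, X.nrI_ct lam hy] at h1
  unfold oR oL Rf Lf
  unfold nrF nrI at h1
  cases h2 : sgN lam v x <;> cases h3 : sgN lam v y <;> rw [h2, h3] at h1 <;>
    simp only [Bool.false_eq_true, if_false, if_true, side_side] at h1 ⊢ <;> exact h1

theorem keepR (lam : Finset (Ch X.corP)) (h : Real X.corP lam) (T : GMap G)
    (hT : IsMk X.M0 X.b (posN (lam.image X.emb)) (sgN (lam.image X.emb)) T) (p : Flag G) (hp : ¬ AF X.D X.M p) :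
    T.nxt p = X.M.nxt p := by
  obtain ⟨i, hi, h1⟩ : ∃ i, i < (nb G p.1.fst).card ∧ (p = cf X.M0 X.b p.1.fst i ∨ X.M0.nxt p = cf X.M0 X.b p.1.fst i) := by
    obtain ⟨i, hi, h1 | h1⟩ := cf_cover X.M0 X.hb p.1.fst p rfl
    · exact ⟨i, hi, Or.inl h1⟩
    · rcases Nat.eq_zero_or_pos i with h0 | h0
      · refine ⟨(nb G p.1.fst).card - 1, by omega, Or.inr ?_⟩
        have h2 := nxt_side_cf X.M0 X.b p.1.fst ((nb G p.1.fst).card - 1)
        rw [show (nb G p.1.fst).card - 1 + 1 = 0 + (nb G p.1.fst).card by omega, cf_period X.M0 X.hb, ← h0, ← h1] at h2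
        exact h2
      · refine ⟨i - 1, by omega, Or.inr ?_⟩
        have h2 := nxt_side_cf X.M0 X.b p.1.fst (i - 1)
        rw [show i - 1 + 1 = i by omega, ← h1] at h2
        exact h2
  have h2 : ¬ X.ok p.1.fst i := by
    unfold ok
    rcases h1 with h1 | h1
    · rw [← h1, X.af_iff]
      exact hp
    · rw [← h1, X.af_nxt, X.af_iff]
      exact hp
  have h3 : T.nxt (cf X.M0 X.b p.1.fst i) = X.M0.nxt (cf X.M0 X.b p.1.fst i) := by
    refine (keep_iff X.M0 X.b X.hb (lam.image X.emb) ((X.real_emb lam).2 h) T hT p.1.fst i hi).2 ?_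
    intro e' he' hv
    obtain ⟨e, -, rfl⟩ := mem_image.1 he'
    rw [X.emb_vx] at hv
    rw [X.emb_lo, X.emb_hi]
    constructor
    · intro h4
      have h5 := X.al_ok (X.e_lo e)
      rw [h4, hv] at h5
      exact h2 h5
    · intro h4
      have h5 := X.al_ok (X.e_hi e)
      rw [h4, hv] at h5
      exact h2 h5
  rw [← X.keep p hp]
  rcases h1 with h1 | h1
  · rw [← h1] at h3
    exact h3
  · rw [← h1, X.M0.nxt_nxt] at h3
    have h4 := congrArg T.nxt h3
    rw [T.nxt_nxt] at h4
    exact h4.symm

theorem exists_newR (lam : Finset (Ch X.corP)) (h : Real X.corP lam) : ∃ T : GMap G, X.IsR lam T ∧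
    (∀ p, ¬ AF X.D X.M p → T.nxt p = X.M.nxt p) ∧
    ∀ z z' : cyc G, frm T z z' = frm X.M0 z z' + ∑ e ∈ lam, (X.qe e).1 z * (X.qe e).1 z' := by
  obtain ⟨T, hT, hf⟩ := map_of_realF X.M0 X.b X.hb (lam.image X.emb) ((X.real_emb lam).2 h)
  refine ⟨T, X.isR lam h T hT, X.keepR lam h T hT, ?_⟩
  intro z z'
  rw [hf z z']
  unfold frC
  rw [Finset.sum_image (fun a _ c _ hac => X.emb_inj hac)]
  congr 1

end Pce

end Pool.Agent.RPH
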