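import Pool.Agent.RPH.AInv
import Pool.Agent.RPH.LNewR

/-!
# RPH-AEnt: the part of the new map is computed

The members of `ent` are the pairs `(cod (oR lam v x), cod (oL lam v y))` and the reversed pairs, `lam := oddE w`, for
`x, y < na v` with `posN lam v y = (posN lam v x + 1) % na v` (`ae_mem`); `IsR` gives `M'.nxt (oR ..) = oL ..`. Conversely every
allowed flag is `oR lam v j` or `oL lam v j` for some `j < na v` (`ae_flag`), and `posN lam v` is a bijection.
-/

set_option autoImplicit false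

open Finset
open scoped Classical

namespace Pool.Agent.RPH

open Pool.Agent.EPH Pool.Agent.BEO
open Pool.Agent.Helper35.OG hiding F2 dg

variable {n : ℕ} {G : SimpleGraph (Fin n)}

private theorem ae_cond {d px py : ℕ} (h1 : px < d) (h2 : py < d) :
    (decide (py = px + 1) || (decide (py = 0) && decide (px + 1 = d))) = true ↔ py = (px + 1) % d := by
  rw [Bool.or_eq_true, Bool.and_eq_true, decide_eq_true_iff, decide_eq_true_iff, decide_eq_true_iff]
  rcases Nat.lt_or_ge (px + 1) d with h3 | h3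
  · rw [Nat.mod_eq_of_lt h3]
    constructor
    · rintro (h | ⟨h, h'⟩)
      · exact h
      · omega
    · exact Or.inl
  · have h4 : px + 1 = d := by omega
    rw [h4, Nat.mod_self]
    constructor
    · rintro (h | ⟨h, h'⟩)
      · omega
      · exact h
    · exact fun h => Or.inr ⟨h, rfl⟩

private theorem ae_surj {d : ℕ} (f : ℕ → ℕ) (h1 : ∀ i, i < d → f i < d)
    (h2 : ∀ i j, i < d → j < d → f i = f j → i = j) (k : ℕ) (hk : k < d) : ∃ i, i < d ∧ f i = k := by
  have h3 : Function.Injective (fun i : Fin d => (⟨f i, h1 i i.2⟩ : Fin d)) := by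
    intro i j hij
    exact Fin.ext (h2 i j i.2 j.2 (congrArg Fin.val hij))
  obtain ⟨i, hi⟩ := Finite.surjective_of_injective h3 ⟨k, hk⟩
  exact ⟨i, i.2, congrArg Fin.val hi⟩

private theorem ae_len {X : Pce G} {l : Inp} {d : List Ec} {g : Gs} (h : Fit X l d g) (v : Fin n) :
    (rlg l d g v).length = X.na v := by
  rw [rlg_eq h, List.length_map, List.length_range]

private theorem ae_ofg {X : Pce G} {l : Inp} {d : List Ec} {g : Gs} (h : Fit X l d g) (w : List (Ch X.corP)) (v : Fin n)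
    {x : ℕ} (hx : x < X.na v) : ofg g (w.map ccd) v (x, cod (X.Rf v x)) = cod (X.oR (oddE w) v x) := by
  have h1 : ivc (w.map ccd) v x x = sgN (oddE w) v x := ivc_ccd w v x x
  unfold ofg Pce.oR
  show (if ivc (w.map ccd) v x x = true then ptn g (cod (X.Rf v x)) else cod (X.Rf v x)) = _
  rw [h1]
  cases h2 : sgN (oddE w) v x
  · rw [if_neg Bool.false_ne_true, if_neg Bool.false_ne_true]
  · rw [if_pos rfl, if_pos rfl, ptn_Rf h hx]

private theorem ae_ifg {X : Pce G} {l : Inp} {d : List Ec} {g : Gs} (h : Fit X l d g) (w : List (Ch X.corP)) (v : Fin n)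
    {x : ℕ} (hx : x < X.na v) : ifg g (w.map ccd) v (x, cod (X.Rf v x)) = cod (X.oL (oddE w) v x) := by
  have h1 : ivc (w.map ccd) v x x = sgN (oddE w) v x := ivc_ccd w v x x
  unfold ifg Pce.oL
  show (if ivc (w.map ccd) v x x = true then cod (X.Rf v x) else ptn g (cod (X.Rf v x))) = _
  rw [h1]
  cases h2 : sgN (oddE w) v x
  · rw [if_neg Bool.false_ne_true, if_neg Bool.false_ne_true, ptn_Rf h hx]
  · rw [if_pos rfl, if_pos rfl]

private theorem ae_mem {X : Pce G} {l : Inp} {d : List Ec} {g : Gs} (h : Fit X l d g) (hG : G.Connected) (hn : 2 ≤ n)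
    (w : List (Ch X.corP)) (z : Pt × Pt) :
    z ∈ ent l d g (w.map ccd) ↔ ∃ (v : Fin n) (x y : ℕ), x < X.na v ∧ y < X.na v ∧
      posN (oddE w) v y = (posN (oddE w) v x + 1) % X.na v ∧
      (z = (cod (X.oR (oddE w) v x), cod (X.oL (oddE w) v y)) ∨
        z = (cod (X.oL (oddE w) v y), cod (X.oR (oddE w) v x))) := by
  unfold ent
  rw [List.mem_flatMap]
  constructor
  · rintro ⟨v', hv', hz⟩
    obtain ⟨v, rfl⟩ := (mem_vtc h.cS hG hn v').1 hv'
    unfold nwg at hz
    rw [ae_len h, rlg_eq h, List.mem_flatMap] at hz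
    obtain ⟨q, hq, hz⟩ := hz
    rw [List.mem_flatMap] at hz
    obtain ⟨q', hq', hz⟩ := hz
    obtain ⟨x, hx, rfl⟩ := List.mem_map.1 hq
    obtain ⟨y, hy, rfl⟩ := List.mem_map.1 hq'
    rw [List.mem_range] at hx hy
    have hx' : posN (oddE w) v x < X.na v := posN_lt (P := X.corP) (oddE w) v x hx
    have hy' : posN (oddE w) v y < X.na v := posN_lt (P := X.corP) (oddE w) v y hy
    rw [psg_ccd h w v x, psg_ccd h w v y] at hz
    split_ifs at hz with hc
    · refine ⟨v, x, y, hx, hy, (ae_cond hx' hy').1 hc, ?_⟩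
      rw [ae_ofg h w v hx, ae_ifg h w v hy] at hz
      rcases List.mem_cons.1 hz with h1 | h1
      · exact Or.inl h1
      · exact Or.inr (List.mem_singleton.1 h1)
    · exact absurd hz List.not_mem_nil
  · rintro ⟨v, x, y, hx, hy, hc, hz⟩
    refine ⟨v, (mem_vtc h.cS hG hn _).2 ⟨v, rfl⟩, ?_⟩
    unfold nwg
    rw [ae_len h, rlg_eq h, List.mem_flatMap]
    refine ⟨(x, cod (X.Rf v x)), List.mem_map.2 ⟨x, List.mem_range.2 hx, rfl⟩, ?_⟩
    rw [List.mem_flatMap]
    refine ⟨(y, cod (X.Rf v y)), List.mem_map.2 ⟨y, List.mem_range.2 hy, rfl⟩, ?_⟩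
    have hx' : posN (oddE w) v x < X.na v := posN_lt (P := X.corP) (oddE w) v x hx
    have hy' : posN (oddE w) v y < X.na v := posN_lt (P := X.corP) (oddE w) v y hy
    rw [psg_ccd h w v x, psg_ccd h w v y, if_pos ((ae_cond hx' hy').2 hc), ae_ofg h w v hx, ae_ifg h w v hy]
    rcases hz with h1 | h1
    · rw [h1]
      exact List.mem_cons_self
    · rw [h1]
      exact List.mem_cons_of_mem _ (List.mem_singleton.2 rfl)

/-- the corner of `oR` is allowed -/
private theorem ae_oR (X : Pce G) (lam : Finset (Ch X.corP)) {v : Fin n} {x : ℕ} (hx : x < X.na v) :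
    X.af (X.oR lam v x) := by
  unfold Pce.oR
  split_ifs
  · exact X.af_Lf hx
  · exact X.af_Rf hx

private theorem ae_oL (X : Pce G) (lam : Finset (Ch X.corP)) {v : Fin n} {x : ℕ} (hx : x < X.na v) :
    X.af (X.oL lam v x) := by
  unfold Pce.oL
  split_ifs
  · exact X.af_Rf hx
  · exact X.af_Lf hx

private theorem ae_flag (X : Pce G) (lam : Finset (Ch X.corP)) {p : Flag G} (hp : X.af p) :
    ∃ (v : Fin n) (j : ℕ), j < X.na v ∧ (p = X.oR lam v j ∨ p = X.oL lam v j) := by
  obtain ⟨i, hi, h1⟩ := X.exists_Rf hp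
  obtain ⟨j, hj, h2⟩ : ∃ j, j < X.na p.1.fst ∧ (p = X.Rf p.1.fst j ∨ p = X.Lf p.1.fst j) := by
    rcases h1 with h1 | h1
    · exact ⟨i, hi, Or.inl h1⟩
    · refine ⟨(i + 1) % X.na p.1.fst, Nat.mod_lt _ (by omega), Or.inr ?_⟩
      rw [← X.nxt_Rf hi, ← h1, X.M0.nxt_nxt]
  refine ⟨p.1.fst, j, hj, ?_⟩
  generalize p.1.fst = v at h2
  unfold Pce.oR Pce.oL
  cases h3 : sgN lam v j
  · rw [if_neg Bool.false_ne_true, if_neg Bool.false_ne_true]
    exact h2
  · rw [if_pos rfl, if_pos rfl]
    exact h2.symm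

private theorem ae_part (X : Pce G) (M' : GMap G) (hk : ∀ p, ¬ AF X.D X.M p → M'.nxt p = X.M.nxt p) (z : Pt × Pt) :
    (∃ p : Flag G, FGT.part X.D M' p ≠ p ∧ z = (cod p, cod (FGT.part X.D M' p))) ↔
      ∃ p : Flag G, X.af p ∧ z = (cod p, cod (M'.nxt p)) := by
  have key : ∀ p : Flag G, X.af p → FGT.part X.D M' p = M'.nxt p := by
    intro p hp
    have h1 : AF X.D M' p := (AF_keep X.D X.M M' hk p).2 ((X.af_iff p).1 hp)
    unfold FGT.part
    exact if_pos h1
  constructor
  · rintro ⟨p, hp, hz⟩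
    have h1 : X.af p := by
      by_contra h1
      have h2 : ¬ AF X.D M' p := fun h3 => h1 ((X.af_iff p).2 ((AF_keep X.D X.M M' hk p).1 h3))
      refine hp ?_
      unfold FGT.part
      exact if_neg h2
    rw [key p h1] at hz
    exact ⟨p, h1, hz⟩
  · rintro ⟨p, hp, hz⟩
    refine ⟨p, ?_, ?_⟩
    · rw [key p hp]
      exact M'.nxt_ne p
    · rw [key p hp]
      exact hz

theorem codes_ent {X : Pce G} {l : Inp} {d : List Ec} {g : Gs} (h : Fit X l d g) (hG : G.Connected) (hn : 2 ≤ n)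
    (w : List (Ch X.corP)) (hr : Real X.corP (oddE w)) (M' : GMap G) (hk : ∀ p, ¬ AF X.D X.M p → M'.nxt p = X.M.nxt p)
    (hM : X.IsR (oddE w) M') : FGT.ECodes (FGT.part X.D M') (ent l d g (w.map ccd)) := by
  intro z
  rw [ae_mem h hG hn w, ae_part X M' hk]
  have hinj : ∀ (v : Fin n) (a a' : ℕ), a < X.na v → a' < X.na v → posN (oddE w) v a = posN (oddE w) v a' → a = a' :=
    fun v a a' ha ha' haa => (real_iff_inj (oddE w)).1 hr v a a' ha ha' haa
  have hlt : ∀ (v : Fin n) (a : ℕ), a < X.na v → posN (oddE w) v a < X.na v :=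
    fun v a ha => posN_lt (P := X.corP) (oddE w) v a ha
  constructor
  · rintro ⟨v, x, y, hx, hy, hc, hz⟩
    have h1 := hM v x y hx hy hc
    rcases hz with hz | hz
    · exact ⟨X.oR (oddE w) v x, ae_oR X _ hx, by rw [hz, h1]⟩
    · refine ⟨X.oL (oddE w) v y, ae_oL X _ hy, ?_⟩
      rw [hz, ← h1, M'.nxt_nxt]
  · rintro ⟨p, hp, rfl⟩
    obtain ⟨v, i, hi, h0⟩ := ae_flag X (oddE w) hp
    have hd : 0 < X.na v := by omega
    rcases h0 with h0 | h0
    · obtain ⟨y, hy, hy'⟩ := ae_surj (fun i => posN (oddE w) v i) (hlt v) (hinj v)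
        ((posN (oddE w) v i + 1) % X.na v) (Nat.mod_lt _ hd)
      refine ⟨v, i, y, hi, hy, hy', Or.inl ?_⟩
      rw [h0, hM v i y hi hy hy']
    · obtain ⟨x, hx, hx'⟩ := ae_surj (fun i => (posN (oddE w) v i + 1) % X.na v) (fun _ _ => Nat.mod_lt _ hd)
        (by
          intro a a' ha ha' haa
          refine hinj v a a' ha ha' ?_
          have h1 := hlt v a ha
          have h2 := hlt v a' ha'
          replace haa : (posN (oddE w) v a + 1) % X.na v = (posN (oddE w) v a' + 1) % X.na v := haa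
          rcases Nat.lt_or_ge (posN (oddE w) v a + 1) (X.na v) with h3 | h3
          · rw [Nat.mod_eq_of_lt h3] at haa
            rcases Nat.lt_or_ge (posN (oddE w) v a' + 1) (X.na v) with h4 | h4
            · rw [Nat.mod_eq_of_lt h4] at haa
              omega
            · have h5 : posN (oddE w) v a' + 1 = X.na v := by omega
              rw [h5, Nat.mod_self] at haa
              omega
          · have h5 : posN (oddE w) v a + 1 = X.na v := by omega
            rw [h5, Nat.mod_self] at haa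
            rcases Nat.lt_or_ge (posN (oddE w) v a' + 1) (X.na v) with h4 | h4
            · rw [Nat.mod_eq_of_lt h4] at haa
              omega
            · omega)
        (posN (oddE w) v i) (hlt v i hi)
      refine ⟨v, x, i, hx, hi, hx'.symm, Or.inr ?_⟩
      have h1 := hM v x i hx hi hx'.symm
      rw [h0, ← h1, M'.nxt_nxt]

end Pool.Agent.RPH
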