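import Pool.Agent.RPH.LDic

/-!
# RPH-LBR: the number of exceptional faces

PLAN. `card_nG`: let `mM := FGT.mix X.D X.M` (its members are the flags `r` with `ed r ∈ D`, `ed (M.nxt r) ∉ D`), `mS := FGT.mix X.D X.S`
(`X.D = FGT.rk X.K`, so `mS.card ≤ X.c` is `X.lf.mx`). For `r` with `ed r ∈ D`, not `gc`: (a) not `Un D M r`: then (`ed (side r) = ed r`, `ed_side`) `r ∈ mM` or
`side r ∈ mM`; (b) not `Un D M (S.nxt r)`: if `ed (S.nxt r) ∉ D` then `r ∈ mS`, otherwise `S.nxt r ∈ mM` or `side (S.nxt r) ∈ mM`; (c) `r ∈ Q`. So the set is a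
subset of `mM ∪ mM.image side ∪ mS ∪ mM.image S.nxt ∪ mM.image (S.nxt ∘ side) ∪ Q`, and `card_image_le`, `X.lf.qc`.
`card_B`: `X.B ⊆ (NG.image fun r => Sum.inl (X.S.face r)) ∪ NG.image Sum.inr` with `NG` the set of `card_nG`. For `inr p`: `af p` gives `ed p ∈ D`. For `inl F`
with a good flag `p` and a flag `q` that is not good: if no flag `r` of `F` was in `NG` then the set of the good flags of `F` would be closed under `S.nxt` (`gc_nxt`) and
`across` (`ed_across`; a good flag is over `D`), hence all flags of `F` would be good (`Quot.eqvGen_exact`; see `face_iff` in LDic).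
-/

set_option autoImplicit false

open Finset
open scoped Classical

namespace Pool.Agent.RPH

open Pool.Agent.EPH Pool.Agent.BEO
open Pool.Agent.Helper35.OG hiding F2 dg

variable {V : Type} {G : SimpleGraph V} [Fintype V]

namespace Pce

variable (X : Pce G)

theorem card_nG (B : ℕ) (hB : (FGT.mix X.D X.M).card ≤ B) :
    (univ.filter fun r : Flag G => ed r ∈ X.D ∧ ¬ X.gc r).card ≤ 4 * B + 2 * X.c := by
  have hS : (FGT.mix X.D X.S).card ≤ X.c := X.lf.mx
  have hQ : X.Q.card ≤ X.c := X.lf.qc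
  have hmM : ∀ r : Flag G, ed r ∈ X.D → ed (X.M.nxt r) ∉ X.D → r ∈ FGT.mix X.D X.M := fun r h1 h2 =>
    mem_filter.2 ⟨mem_univ _, h1, h2⟩
  have hmS : ∀ r : Flag G, ed r ∈ X.D → ed (X.S.nxt r) ∉ X.D → r ∈ FGT.mix X.D X.S := fun r h1 h2 =>
    mem_filter.2 ⟨mem_univ _, h1, h2⟩
  -- a flag over `D` which is not in `Un`
  have hUn : ∀ r : Flag G, ed r ∈ X.D → ¬ Un X.D X.M r → r ∈ FGT.mix X.D X.M ∨ side r ∈ FGT.mix X.D X.M := by
    intro r hr h
    by_cases h1 : ed (X.M.nxt r) ∈ X.D
    · right
      refine hmM (side r) hr ?_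
      intro h2
      exact h ⟨⟨hr, h1⟩, hr, h2⟩
    · left
      exact hmM r hr h1
  have hsub : (univ.filter fun r : Flag G => ed r ∈ X.D ∧ ¬ X.gc r) ⊆
      (FGT.mix X.D X.M ∪ (FGT.mix X.D X.M).image side) ∪
        (((FGT.mix X.D X.M).image X.S.nxt ∪ (FGT.mix X.D X.M).image fun r => X.S.nxt (side r)) ∪
          (FGT.mix X.D X.S ∪ X.Q)) := by
    intro r hr
    obtain ⟨-, hr, h⟩ := mem_filter.1 hr
    simp only [mem_union, mem_image]
    by_cases hq : r ∈ X.Q
    · exact Or.inr (Or.inr (Or.inr hq))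
    · by_cases h1 : Un X.D X.M r
      · have h2 : ¬ Un X.D X.M (X.S.nxt r) := fun h3 => h ⟨⟨h1, h3⟩, hq⟩
        by_cases h3 : ed (X.S.nxt r) ∈ X.D
        · rcases hUn _ h3 h2 with h4 | h4
          · exact Or.inr (Or.inl (Or.inl ⟨_, h4, X.S.nxt_nxt r⟩))
          · refine Or.inr (Or.inl (Or.inr ⟨_, h4, ?_⟩))
            rw [side_side, X.S.nxt_nxt]
        · exact Or.inr (Or.inr (Or.inl (hmS r hr h3)))
      · rcases hUn _ hr h1 with h4 | h4
        · exact Or.inl (Or.inl h4)
        · exact Or.inl (Or.inr ⟨_, h4, side_side r⟩)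
  have c1 : ((FGT.mix X.D X.M).image side).card ≤ B := le_trans card_image_le hB
  have c2 : ((FGT.mix X.D X.M).image X.S.nxt).card ≤ B := le_trans card_image_le hB
  have c3 : ((FGT.mix X.D X.M).image fun r => X.S.nxt (side r)).card ≤ B := le_trans card_image_le hB
  have d0 := card_le_card hsub
  have d1 := card_union_le (FGT.mix X.D X.M ∪ (FGT.mix X.D X.M).image side)
    (((FGT.mix X.D X.M).image X.S.nxt ∪ (FGT.mix X.D X.M).image fun r => X.S.nxt (side r)) ∪
          (FGT.mix X.D X.S ∪ X.Q))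
  have d2 := card_union_le (FGT.mix X.D X.M) ((FGT.mix X.D X.M).image side)
  have d3 := card_union_le ((FGT.mix X.D X.M).image X.S.nxt ∪ (FGT.mix X.D X.M).image fun r => X.S.nxt (side r))
    (FGT.mix X.D X.S ∪ X.Q)
  have d4 := card_union_le ((FGT.mix X.D X.M).image X.S.nxt) ((FGT.mix X.D X.M).image fun r => X.S.nxt (side r))
  have d5 := card_union_le (FGT.mix X.D X.S) X.Q
  omega

theorem card_B (B : ℕ) (hB : (FGT.mix X.D X.M).card ≤ B) : X.B.card ≤ 8 * B + 4 * X.c := by
  have h1 := X.card_nG B hB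
  have hsub : X.B ⊆ ((univ.filter fun r : Flag G => ed r ∈ X.D ∧ ¬ X.gc r).image fun r => Sum.inl (X.S.face r)) ∪
      (univ.filter fun r : Flag G => ed r ∈ X.D ∧ ¬ X.gc r).image Sum.inr := by
    intro x hx
    obtain ⟨-, hx⟩ := mem_filter.1 hx
    rw [mem_union, mem_image, mem_image]
    rcases x with F | p
    · left
      obtain ⟨⟨p, hp, hgp⟩, q, hq, hgq⟩ := hx
      by_contra hcon
      push Not at hcon
      have hall : ∀ r : Flag G, X.S.face r = F → ed r ∈ X.D → X.gc r := by
        intro r hr h2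
        by_contra h3
        exact hcon r (mem_filter.2 ⟨mem_univ _, h2, h3⟩) (congrArg Sum.inl hr)
      have hD : ∀ r : Flag G, X.gc r → ed r ∈ X.D := fun r h => h.1.1.1.1
      have key : ∀ x y : Flag G, (y = X.S.nxt x ∨ y = across x) → X.S.face x = F → (X.gc x ↔ X.gc y) := by
        rintro x y (rfl | rfl) hx
        · exact (X.gc_nxt x).symm
        · have hx' : X.S.face (across x) = F := by rw [face_across]; exact hx
          constructor
          · intro h
            refine hall _ hx' ?_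
            rw [ed_across]
            exact hD x h
          · intro h
            refine hall _ hx ?_
            rw [← ed_across]
            exact hD _ h
      have h0 : Relation.EqvGen (fun p q : Flag G => q = X.S.nxt p ∨ q = across p) p q :=
        Quot.eqvGen_exact (hp.trans hq.symm)
      have h2 : ∀ x y : Flag G, Relation.EqvGen (fun p q : Flag G => q = X.S.nxt p ∨ q = across p) x y →
          X.S.face x = F → (X.gc x ↔ X.gc y) := by
        intro x y hxy
        induction hxy with
        | rel x y h => exact key x y h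
        | refl x => exact fun _ => Iff.rfl
        | symm x y h ih =>
          intro h3
          have h4 : X.S.face x = X.S.face y := Quot.eqvGen_sound h
          exact (ih (h4.trans h3)).symm
        | trans x y z h h' ih1 ih2 =>
          intro h3
          have h4 : X.S.face x = X.S.face y := Quot.eqvGen_sound h
          exact (ih1 h3).trans (ih2 (h4.symm.trans h3))
      exact hgq ((h2 p q h0 hp).1 hgp)
    · right
      exact ⟨p, mem_filter.2 ⟨mem_univ _, hx.1.1, hx.2⟩, rfl⟩
  have d0 := card_le_card hsub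
  have d1 := card_union_le ((univ.filter fun r : Flag G => ed r ∈ X.D ∧ ¬ X.gc r).image fun r =>
    (Sum.inl (X.S.face r) : X.S.Face ⊕ Flag G))
    ((univ.filter fun r : Flag G => ed r ∈ X.D ∧ ¬ X.gc r).image Sum.inr)
  have d2 : ((univ.filter fun r : Flag G => ed r ∈ X.D ∧ ¬ X.gc r).image fun r =>
    (Sum.inl (X.S.face r) : X.S.Face ⊕ Flag G)).card ≤ 4 * B + 2 * X.c := le_trans card_image_le h1
  have d3 : ((univ.filter fun r : Flag G => ed r ∈ X.D ∧ ¬ X.gc r).image
    (Sum.inr : Flag G → X.S.Face ⊕ Flag G)).card ≤ 4 * B + 2 * X.c := le_trans card_image_le h1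
  omega

end Pce

end Pool.Agent.RPH
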