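import Pool.Agent.RPH.LDic
import Pool.Agent.EPH.LSys

/-!
# RPH-LSysD: the classes of the allowed corners (definitions)
-/

set_option autoImplicit false

open Finset
open scoped Classical

namespace Pool.Agent.RPH

open Pool.Agent.EPH Pool.Agent.BEO
open Pool.Agent.Helper35.OG hiding F2 dg

variable {V : Type} {G : SimpleGraph V} [Fintype V]

/-- the space of classes: a functional on the cycles, and the ends on the faces -/
abbrev QT (S : GMap G) : Type := (cyc G →ₗ[F2] F2) × (S.Face ⊕ Flag G → F2)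

namespace Pce

variable (X : Pce G)

/-- the class of an allowed corner -/
noncomputable def qc (v : V) (j : ℕ) : QT X.S := (cc X.M0 X.b v (X.al v j), Pi.single (X.fcs (X.Rf v j)) 1)

/-- the class of a chord -/
noncomputable def qe (e : Ch X.corP) : QT X.S := X.qc e.vx e.lo + X.qc e.vx e.hi

/-- the degree at a face -/
noncomputable def dF (F : X.S.Face ⊕ Flag G) : QT X.S →ₗ[F2] F2 :=
  (LinearMap.proj F).comp (LinearMap.snd F2 (cyc G →ₗ[F2] F2) (X.S.Face ⊕ Flag G → F2))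

/-- the boundary of a face -/
noncomputable def zz : X.S.Face ⊕ Flag G → cyc G :=
  Sum.elim (fun F => if X.cpl F then bdF X.M0 (X.mf F) else 0) fun _ => 0

theorem dF_qc (F : X.S.Face ⊕ Flag G) (v : V) (j : ℕ) :
    X.dF F (X.qc v j) = if X.fcs (X.Rf v j) = F then 1 else 0 := by
  show (Pi.single (X.fcs (X.Rf v j)) (1 : F2) : X.S.Face ⊕ Flag G → F2) F = _
  by_cases h : X.fcs (X.Rf v j) = F
  · rw [h, Pi.single_eq_same, if_pos rfl]
  · rw [Pi.single_eq_of_ne (Ne.symm h), if_neg h]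

theorem dF_qe (F : X.S.Face ⊕ Flag G) (e : Ch X.corP) : X.dF F (X.qe e) =
    (if X.fcs (X.Rf e.vx e.lo) = F then 1 else 0) + (if X.fcs (X.Rf e.vx e.hi) = F then 1 else 0) := by
  unfold qe
  rw [map_add, dF_qc, dF_qc]

theorem e_lo (e : Ch X.corP) : e.lo < X.na e.vx := e.1.2.1.2

theorem e_hi (e : Ch X.corP) : e.hi < X.na e.vx := e.1.2.2.2

theorem e_lt (e : Ch X.corP) : e.lo < e.hi := e.2

/-- the coordinate of a chord -/
theorem qe_fst (e : Ch X.corP) (z : cyc G) : (X.qe e).1 z =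
    cc X.M0 X.b e.vx (X.al e.vx e.lo) z + cc X.M0 X.b e.vx (X.al e.vx e.hi) z := rfl

theorem rad (F : X.S.Face ⊕ Flag G) (x : cyc G) : frm X.M0 x (X.zz F) = 0 := by
  rcases F with F | p
  · show frm X.M0 x (if X.cpl F then bdF X.M0 (X.mf F) else 0) = 0
    split_ifs with h
    · have h1 := (frm_rad X.M0 (bdF X.M0 (X.mf F))).2 (Submodule.subset_span ⟨_, rfl⟩)
      rw [frm_symm]
      exact h1 x
    · rw [map_zero]
  · show frm X.M0 x 0 = 0
    rw [map_zero]

theorem bd (F : X.S.Face ⊕ Flag G) (hF : F ∉ X.B) (e : Ch X.corP) : (X.qe e).1 (X.zz F) = X.dF F (X.qe e) := by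
  rw [dF_qe]
  rcases F with F | p
  · rw [X.inl_nB] at hF
    rcases hF with hF | hF
    · have h0 : X.zz (Sum.inl F) = bdF X.M0 (X.mf F) := if_pos hF
      have h1 : ∀ j, X.M0.face (X.Rf e.vx j) = X.mf F ↔ X.fcs (X.Rf e.vx j) = Sum.inl F := by
        intro j
        rw [X.face_iff hF, X.fcs_inl]
        exact ⟨fun h => ⟨hF _ h, h⟩, fun h => h.2⟩
      rw [h0, qe_fst, cc_bd, cc_bd]
      have h2 : ∀ x y z : F2, x + y + (z + y) = x + z := by decide
      rw [h2]
      have h3 := h1 e.lo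
      have h4 := h1 e.hi
      unfold Rf at h3 h4 ⊢
      congr 1
      · by_cases h5 : X.fcs (cf X.M0 X.b e.vx (X.al e.vx e.lo)) = Sum.inl F
        · rw [if_pos h5, if_pos (h3.2 h5)]
        · rw [if_neg h5, if_neg fun h6 => h5 (h3.1 h6)]
      · by_cases h5 : X.fcs (cf X.M0 X.b e.vx (X.al e.vx e.hi)) = Sum.inl F
        · rw [if_pos h5, if_pos (h4.2 h5)]
        · rw [if_neg h5, if_neg fun h6 => h5 (h4.1 h6)]
    · have h1 : ∀ j, X.fcs (X.Rf e.vx j) ≠ Sum.inl F := by
        intro j h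
        rw [X.fcs_inl] at h
        exact hF _ h.2 h.1
      rw [if_neg (h1 _), if_neg (h1 _), add_zero]
      have h0 : ¬ X.cpl F := fun h => hF (X.rep F) (X.rep_eq F) (h _ (X.rep_eq F))
      have h2 : X.zz (Sum.inl F) = 0 := if_neg h0
      rw [h2, map_zero]
  · have h1 : ∀ j, j < X.na e.vx → X.fcs (X.Rf e.vx j) ≠ Sum.inr p := by
      intro j hj h
      rw [X.fcs_inr] at h
      apply hF
      unfold B isB
      rw [mem_filter]
      refine ⟨mem_univ _, ?_⟩
      rw [← h.2]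
      exact ⟨X.af_Rf hj, h.1⟩
    rw [if_neg (h1 _ (X.e_lo e)), if_neg (h1 _ (X.e_hi e)), add_zero]
    show (X.qe e).1 0 = 0
    rw [map_zero]

end Pce

end Pool.Agent.RPH
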