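import Pool.Agent.RPH.LRun
import Pool.Agent.RPH.LBR
import Pool.Agent.RPH.LSysD

/-!
# RPH-LHR: the dimension of the space of the even classes

PLAN. `exists_sig`: the set of the `x` in `QT X.S` for which there is `σ` with (1) and `x = ∑ v, ∑ j ∈ range (X.na v), σ v j • X.qc v j` is closed under sums and multiples and contains `X.qe e`
(`σ v j := [v = e.vx ∧ (j = e.lo ∨ j = e.hi)]`, `e.lo < e.hi`), so contains the span (`Submodule.span_induction`). For `x` in `HQ` apply `X.dF F` (linear, `dF_qc`):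
`∑ v, ∑ j, σ v j * [fcs (Rf v j) = F] = 0` for all `F`. For `F = inr (Rf v j)` with `Rf v j` not good only the term `(v, j)` is not 0 (`fcs_inr`, `Rf_fst`, `Rf_inj`): (2). For `F = inl F'`: (3) by `fcs_inl`. (4): first component.
`mem_sup`: by (4), `ccp_cf`, (2): `x.1 = ∑ v, ∑ j, σ v j • ccp X.M0 X.b (Rf v j) = ξ + η`, `ξ := ∑ v, ∑ j, σ v j • ccp X.S X.b (Rf v j)`, `η := ∑ v, ∑ j, σ v j • gg (Rf v j)` (`x + x = 0`). `ξ` is in `ann`: `ccp_bd` at `bdF X.S F`:
`∑ v, ∑ j, σ v j * ([S.face (Rf v j) = F] + [S.face (b v) = F])`, the first part is 0 by (3) and (2), the second by (1). `η` is in the span: for every `v` with some `j` with `σ v j ≠ 0` (so `Rf v j` is good): if all flags at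
`v` are good with the same `gg` then the sum over `j` is `(∑ j, σ v j) • gg = 0`; otherwise, by `gg_run` for every good flag at `v` (if one of them is in the second case of `gg_run`, all flags at `v` are good with the same `gg`), every
`gg (Rf v j)` with `σ v j ≠ 0` is `gg r` with `r` in the set. `dim_H`: the linear map `x ↦ x.1` is injective on `HQ` (`x.2 F = X.dF F x = 0`) with values in `ann ⊔ span`; `Submodule.finrank_add_le_finrank_add_finrank`;
`finrank (span (gg '' NG)) ≤ NG.card ≤ 4 * B + 2 * c` (`finrank_span_le_card` or `finrank_span_finset_le_card`, `card_nG` in LBR); `finrank ann = finrank (cyc G) - finrank (span (range (bdF S)))`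
(`Submodule.finrank_add_finrank_dualAnnihilator_eq` or `Subspace.finrank_add_finrank_dualAnnihilator_eq`; `ann` is the dual annihilator of `span (range (bdF S))`, which is the kernel of `frm S`, see the proof of `frm_rank` in `BEO/FrmRank.lean`), and
this is `finrank (range (frm S)) = S.eg ≤ k` (`LinearMap.finrank_range_add_finrank_ker`, `frm_rank`).
-/

set_option autoImplicit false

open Finset
open scoped Classical

namespace Pool.Agent.RPH

open Pool.Agent.EPH Pool.Agent.BEO
open Pool.Agent.Helper35.OG hiding F2 dg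

variable {V : Type} {G : SimpleGraph V} [Fintype V]

namespace Pce

variable (X : Pce G)

/-- the functionals which vanish on the faces of `S` -/
def ann : Submodule F2 (cyc G →ₗ[F2] F2) where
  carrier := {ξ | ∀ F : X.S.Face, ξ (bdF X.S F) = 0}
  add_mem' := by
    intro a b ha hb F
    rw [LinearMap.add_apply, ha F, hb F, add_zero]
  zero_mem' := fun F => rfl
  smul_mem' := by
    intro r a ha F
    rw [LinearMap.smul_apply, ha F, smul_zero]

private theorem hr_dbl {M : Type} [AddCommGroup M] [Module F2 M] (x : M) : x + x = 0 := by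
  have h1 : (1 : F2) + 1 = 0 := CharTwo.add_self_eq_zero 1
  have h2 : x + x = ((1 : F2) + 1) • x := by rw [add_smul, one_smul]
  rw [h2, h1, zero_smul]

private theorem pre_sig {x : QT X.S} (hx : x ∈ Submodule.span F2 (Set.range X.qe)) : ∃ σ : V → ℕ → F2,
    (∀ v, ∑ j ∈ range (X.na v), σ v j = 0) ∧ x = ∑ v, ∑ j ∈ range (X.na v), σ v j • X.qc v j := by
  induction hx using Submodule.span_induction with
  | mem x h =>
    obtain ⟨e, rfl⟩ := h
    have hlo := X.e_lo e
    have hhi := X.e_hi e
    refine ⟨fun v j => if v = e.vx then (if j = e.lo then 1 else 0) + (if j = e.hi then 1 else 0) else 0, ?_, ?_⟩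
    · intro v
      by_cases hv : v = e.vx
      · subst hv
        simp only [if_true]
        rw [sum_add_distrib, sum_ite_eq', sum_ite_eq', if_pos (mem_range.2 hlo), if_pos (mem_range.2 hhi)]
        exact hr_dbl (1 : F2)
      · exact sum_eq_zero fun j _ => if_neg hv
    · rw [sum_eq_single e.vx]
      · simp only [if_true]
        simp only [add_smul, ite_smul, one_smul, zero_smul]
        rw [sum_add_distrib, sum_ite_eq', sum_ite_eq', if_pos (mem_range.2 hlo), if_pos (mem_range.2 hhi)]
        rfl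
      · intro v _ hv
        refine sum_eq_zero fun j _ => ?_
        simp only [if_neg hv, zero_smul]
      · intro h
        exact absurd (mem_univ _) h
  | zero =>
    refine ⟨fun _ _ => 0, fun v => sum_eq_zero fun _ _ => rfl, ?_⟩
    symm
    refine sum_eq_zero fun v _ => sum_eq_zero fun j _ => ?_
    rw [zero_smul]
  | add x y _ _ hx hy =>
    obtain ⟨σ, h1, h2⟩ := hx
    obtain ⟨τ, h3, h4⟩ := hy
    refine ⟨fun v j => σ v j + τ v j, fun v => ?_, ?_⟩
    · rw [sum_add_distrib, h1, h3, add_zero]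
    · rw [h2, h4, ← sum_add_distrib]
      refine sum_congr rfl fun v _ => ?_
      rw [← sum_add_distrib]
      exact sum_congr rfl fun j _ => (add_smul _ _ _).symm
  | smul a x _ hx =>
    obtain ⟨σ, h1, h2⟩ := hx
    refine ⟨fun v j => a * σ v j, fun v => ?_, ?_⟩
    · rw [← mul_sum, h1, mul_zero]
    · rw [h2, smul_sum]
      refine sum_congr rfl fun v _ => ?_
      rw [smul_sum]
      exact sum_congr rfl fun j _ => smul_smul _ _ _

theorem exists_sig {x : QT X.S} (hx : x ∈ HQ X.qe X.dF) : ∃ σ : V → ℕ → F2,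
    (∀ v, ∑ j ∈ range (X.na v), σ v j = 0) ∧
    (∀ v j, j < X.na v → ¬ X.gc (X.Rf v j) → σ v j = 0) ∧
    (∀ F : X.S.Face, ∑ v, ∑ j ∈ range (X.na v), (if X.gc (X.Rf v j) ∧ X.S.face (X.Rf v j) = F then σ v j else 0) = 0) ∧
    x.1 = ∑ v, ∑ j ∈ range (X.na v), σ v j • cc X.M0 X.b v (X.al v j) := by
  obtain ⟨hx1, hx2⟩ := hx
  obtain ⟨σ, h1, h2⟩ := X.pre_sig hx1
  have h3 : ∀ F, ∑ v, ∑ j ∈ range (X.na v), (if X.fcs (X.Rf v j) = F then σ v j else 0) = 0 := by
    intro F
    have h4 := hx2 F
    rw [h2, map_sum] at h4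
    refine Eq.trans (sum_congr rfl fun v _ => ?_) h4
    rw [map_sum]
    refine sum_congr rfl fun j _ => ?_
    rw [map_smul, dF_qc, smul_eq_mul, mul_ite, mul_one, mul_zero]
  refine ⟨σ, h1, ?_, ?_, ?_⟩
  · intro v j hj hg
    have h4 := h3 (Sum.inr (X.Rf v j))
    rw [sum_eq_single v] at h4
    · rw [sum_eq_single j] at h4
      · rw [if_pos (X.fcs_inr.2 ⟨hg, rfl⟩)] at h4
        exact h4
      · intro j' hj' hne
        refine if_neg fun h5 => hne ?_
        exact X.Rf_inj (mem_range.1 hj') hj (X.fcs_inr.1 h5).2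
      · intro h5
        exact absurd (mem_range.2 hj) h5
    · intro v' _ hne
      refine sum_eq_zero fun j' _ => if_neg fun h5 => hne ?_
      have h6 := (X.fcs_inr.1 h5).2
      rw [← X.Rf_fst v' j', h6, X.Rf_fst]
    · intro h5
      exact absurd (mem_univ _) h5
  · intro F
    refine Eq.trans (sum_congr rfl fun v _ => sum_congr rfl fun j _ => ?_) (h3 (Sum.inl F))
    by_cases h5 : X.fcs (X.Rf v j) = Sum.inl F
    · rw [if_pos h5, if_pos (X.fcs_inl.1 h5)]
    · rw [if_neg h5, if_neg fun h6 => h5 (X.fcs_inl.2 h6)]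
  · have h4 := congrArg Prod.fst h2
    rw [Prod.fst_sum] at h4
    rw [h4]
    refine sum_congr rfl fun v _ => ?_
    rw [Prod.fst_sum]
    rfl

theorem mem_sup {x : QT X.S} (hx : x ∈ HQ X.qe X.dF) :
    x.1 ∈ X.ann ⊔ Submodule.span F2 (X.gg '' {r : Flag G | ed r ∈ X.D ∧ ¬ X.gc r}) := by
  obtain ⟨σ, h1, h2, h3, h4⟩ := X.exists_sig hx
  have h5 : x.1 = (∑ v, ∑ j ∈ range (X.na v), σ v j • ccp X.S X.b (X.Rf v j)) +
      ∑ v, ∑ j ∈ range (X.na v), σ v j • X.gg (X.Rf v j) := by
    rw [h4, ← sum_add_distrib]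
    refine sum_congr rfl fun v _ => ?_
    rw [← sum_add_distrib]
    refine sum_congr rfl fun j hj => ?_
    rw [← smul_add]
    congr 1
    have h6 : ccp X.M0 X.b (X.Rf v j) = cc X.M0 X.b v (X.al v j) := ccp_cf X.M0 X.hb (X.al_lt (mem_range.1 hj))
    unfold gg
    rw [← h6, add_comm (ccp X.M0 X.b (X.Rf v j)), ← add_assoc, hr_dbl (M := cyc G →ₗ[F2] F2), zero_add]
  rw [h5]
  refine Submodule.add_mem_sup ?_ ?_
  · intro F
    have h6 : (∑ v, ∑ j ∈ range (X.na v), σ v j • ccp X.S X.b (X.Rf v j)) (bdF X.S F) =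
        ∑ v, ∑ j ∈ range (X.na v), σ v j * ccp X.S X.b (X.Rf v j) (bdF X.S F) := by
      simp only [LinearMap.sum_apply, LinearMap.smul_apply, smul_eq_mul]
    have h7 : ∀ v, ∑ j ∈ range (X.na v), σ v j * ccp X.S X.b (X.Rf v j) (bdF X.S F) =
        ∑ j ∈ range (X.na v), (if X.gc (X.Rf v j) ∧ X.S.face (X.Rf v j) = F then σ v j else 0) := by
      intro v
      have h8 : ∀ j ∈ range (X.na v), σ v j * ccp X.S X.b (X.Rf v j) (bdF X.S F) =
          (if X.gc (X.Rf v j) ∧ X.S.face (X.Rf v j) = F then σ v j else 0) +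
            σ v j * (if X.S.face (X.b v) = F then 1 else 0) := by
        intro j hj
        rw [ccp_bd X.S X.hb, X.Rf_fst, mul_add]
        congr 1
        by_cases h9 : X.gc (X.Rf v j)
        · by_cases h10 : X.S.face (X.Rf v j) = F
          · rw [if_pos h10, if_pos ⟨h9, h10⟩, mul_one]
          · rw [if_neg h10, if_neg fun h => h10 h.2, mul_zero]
        · rw [h2 v j (mem_range.1 hj) h9, zero_mul, ite_self]
      rw [sum_congr rfl h8, sum_add_distrib, ← sum_mul, h1, zero_mul, add_zero]
    rw [h6, sum_congr rfl fun v _ => h7 v]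
    exact h3 F
  · refine Submodule.sum_mem _ fun v _ => ?_
    by_cases hall : ∃ g, ∀ q : Flag G, q.1.fst = v → X.gc q ∧ X.gg q = g
    · obtain ⟨g, hg⟩ := hall
      have h6 : ∑ j ∈ range (X.na v), σ v j • X.gg (X.Rf v j) = 0 := by
        rw [sum_congr rfl fun j _ => by rw [(hg (X.Rf v j) (X.Rf_fst v j)).2], ← sum_smul, h1, zero_smul]
      rw [h6]
      exact Submodule.zero_mem _
    · refine Submodule.sum_mem _ fun j hj => ?_
      by_cases h6 : σ v j = 0
      · rw [h6, zero_smul]
        exact Submodule.zero_mem _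
      · refine Submodule.smul_mem _ _ ?_
        have h7 : X.gc (X.Rf v j) := by
          by_contra h8
          exact h6 (h2 v j (mem_range.1 hj) h8)
        rcases X.gg_run h7 with ⟨r, -, h9, h10, h11⟩ | h8
        · exact Submodule.subset_span ⟨r, ⟨h9, h10⟩, h11⟩
        · rw [X.Rf_fst] at h8
          exact absurd ⟨X.gg (X.Rf v j), h8⟩ hall

private theorem ann_eq : X.ann = (Submodule.span F2 (Set.range (bdF X.S))).dualAnnihilator := by
  ext ξ
  rw [Submodule.mem_dualAnnihilator]
  constructor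
  · intro h w hw
    induction hw using Submodule.span_induction with
    | mem w hw =>
      obtain ⟨F, rfl⟩ := hw
      exact h F
    | zero => exact map_zero ξ
    | add x y _ _ hx hy => rw [map_add, hx, hy, add_zero]
    | smul a x _ hx => rw [map_smul, hx, smul_zero]
  · intro h F
    exact h _ (Submodule.subset_span ⟨F, rfl⟩)

private theorem ann_rank [Nontrivial V] (hG : G.Connected) : ((Module.finrank F2 X.ann : ℕ) : ℤ) = X.S.eg := by
  have h1 := LinearMap.finrank_range_add_finrank_ker (frm X.S)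
  have h4 : LinearMap.ker (frm X.S) = Submodule.span F2 (Set.range (bdF X.S)) := by
    ext z
    rw [LinearMap.mem_ker, ← frm_rad X.S z]
    constructor
    · intro h z'
      rw [h, LinearMap.zero_apply]
    · intro h
      exact LinearMap.ext h
  rw [h4] at h1
  have h2 := Subspace.finrank_add_finrank_dualAnnihilator_eq (Submodule.span F2 (Set.range (bdF X.S)))
  have h5 : Module.finrank F2 X.ann = Module.finrank F2 (LinearMap.range (frm X.S)) := by
    rw [X.ann_eq]
    exact Nat.add_left_cancel (h2.trans (h1.symm.trans (add_comm _ _)))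
  rw [h5]
  exact frm_rank hG X.S

theorem dim_H [Nontrivial V] (hG : G.Connected) (k : ℕ) (hk : X.S.eg ≤ k) (B : ℕ) (hB : (FGT.mix X.D X.M).card ≤ B) :
    Module.finrank F2 (HQ X.qe X.dF) ≤ k + 4 * B + 2 * X.c := by
  let W := X.ann ⊔ Submodule.span F2 (X.gg '' {r : Flag G | ed r ∈ X.D ∧ ¬ X.gc r})
  let L : HQ X.qe X.dF →ₗ[F2] W :=
    ((LinearMap.fst F2 (cyc G →ₗ[F2] F2) (X.S.Face ⊕ Flag G → F2)).comp (HQ X.qe X.dF).subtype).codRestrict W
      fun x => X.mem_sup x.2
  have hL : Function.Injective L := by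
    rw [injective_iff_map_eq_zero]
    intro x hx
    have h1 : x.1.1 = 0 := congrArg Subtype.val hx
    have h2 : x.1.2 = 0 := by
      funext F
      exact x.2.2 F
    exact Subtype.ext (Prod.ext h1 h2)
  have h1 : Module.finrank F2 (HQ X.qe X.dF) ≤ Module.finrank F2 W := LinearMap.finrank_le_finrank_of_injective hL
  have h2 : Module.finrank F2 W ≤ Module.finrank F2 X.ann +
      Module.finrank F2 (Submodule.span F2 (X.gg '' {r : Flag G | ed r ∈ X.D ∧ ¬ X.gc r})) :=
    Submodule.finrank_add_le_finrank_add_finrank _ _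
  have h3 : Module.finrank F2 (Submodule.span F2 (X.gg '' {r : Flag G | ed r ∈ X.D ∧ ¬ X.gc r})) ≤ 4 * B + 2 * X.c := by
    have h4 : X.gg '' {r : Flag G | ed r ∈ X.D ∧ ¬ X.gc r} =
        (((univ.filter fun r : Flag G => ed r ∈ X.D ∧ ¬ X.gc r).image X.gg : Finset (cyc G →ₗ[F2] F2)) :
          Set (cyc G →ₗ[F2] F2)) := by
      rw [coe_image, coe_filter]
      simp only [mem_univ, true_and]
    rw [h4]
    exact (finrank_span_finset_le_card _).trans (card_image_le.trans (X.card_nG B hB))
  have h5 := X.ann_rank hG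
  omega

end Pce

end Pool.Agent.RPH
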