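import Pool.Agent.EPH.LRot
import Pool.Agent.EPH.LDef

/-!
# RPH-LFul: all corners of a map
-/

set_option autoImplicit false

open Finset
open scoped Classical

namespace Pool.Agent.RPH

open Pool.Agent.EPH Pool.Agent.BEO
open Pool.Agent.Helper35.OG hiding F2 dg

variable {V : Type} {G : SimpleGraph V} [Fintype V]

/-- the corners at the vertices of a map, each a face of its own; the map and the base flags only serve to infer them -/
noncomputable def corF (S : GMap G) (b : V → Flag G) (_ : IsBase b) : Cor (V × ℕ) V where
  d v := (nb G v).card
  fc v i := (v, i)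
  inj _ _ _ _ _ h := congrArg Prod.snd h

/-- the corner `i` at `v` contains the flag `q` -/
def AtC (S : GMap G) (b : V → Flag G) (v : V) (i : ℕ) (q : Flag G) : Prop :=
  q = cf S b v i ∨ q = S.nxt (cf S b v i)

/-- the face on the other side of a dart -/
theorem face_side_cf (S : GMap G) (b : V → Flag G) (v : V) (i : ℕ) :
    S.face (side (cf S b v (i + 1))) = S.face (cf S b v i) := by
  rw [← nxt_cf, face_nxt]

end Pool.Agent.RPH
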