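import Pool.Agent.RPH.LEmb
import Pool.Agent.RPH.TK33

/-!
# RPH-LK33R: no three by three faces with null rectangles

The faces are complete faces of `S`, which are faces of `M0`; `k33_ch` for the map `M0`.
-/

set_option autoImplicit false

open Finset
open scoped Classical

namespace Pool.Agent.RPH

open Pool.Agent.EPH Pool.Agent.BEO
open Pool.Agent.Helper35.OG hiding F2 dg

variable {V : Type} {G : SimpleGraph V} [Fintype V]

namespace Pce

variable (X : Pce G)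

theorem k33_P (hG : G.Connected) (f g : Fin 3 → X.S.Face ⊕ Flag G) (e : Fin 3 → Fin 3 → Ch X.corP)
    (hfB : ∀ i, f i ∉ X.B) (hgB : ∀ i, g i ∉ X.B) (hf : ∀ i j, f i = f j → i = j) (hg : ∀ i j, g i = g j → i = j)
    (hfg : ∀ i j, f i ≠ g j) (hw : ∀ i j i' j', (e i j).vx = (e i' j').vx → i = i' ∧ j = j')
    (he : ∀ i j, s(X.fcs (X.Rf (e i j).vx (e i j).lo), X.fcs (X.Rf (e i j).vx (e i j).hi)) = s(f i, g j))
    (hN : ∀ i j i' j', X.qe (e i j) + X.qe (e i' j) + X.qe (e i' j') + X.qe (e i j') = 0) : False := by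
  have key : ∀ (F : X.S.Face ⊕ Flag G) (v : V) (j : ℕ), j < X.na v → X.fcs (X.Rf v j) = F → F ∉ X.B →
      ∃ F' : X.S.Face, F = Sum.inl F' ∧ X.cpl F' := by
    intro F v j hj h1 h2
    rw [← h1] at h2
    have h3 := X.fcs_nB (X.af_Rf hj) h2
    exact ⟨X.S.face (X.Rf v j), by rw [← h1]; exact X.fcs_inl.2 ⟨h3.1, rfl⟩, h3.2⟩
  have hF : ∀ i, ∃ F' : X.S.Face, f i = Sum.inl F' ∧ X.cpl F' := by
    intro i
    rcases Sym2.eq_iff.1 (he i 0) with ⟨h1, _⟩ | ⟨_, h1⟩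
    · exact key _ _ _ (X.e_lo _) h1 (hfB i)
    · exact key _ _ _ (X.e_hi _) h1 (hfB i)
  have hG' : ∀ j, ∃ F' : X.S.Face, g j = Sum.inl F' ∧ X.cpl F' := by
    intro j
    rcases Sym2.eq_iff.1 (he 0 j) with ⟨_, h1⟩ | ⟨h1, _⟩
    · exact key _ _ _ (X.e_hi _) h1 (hgB j)
    · exact key _ _ _ (X.e_lo _) h1 (hgB j)
  choose F hF1 hF2 using hF
  choose E hE1 hE2 using hG'
  have hface : ∀ (v : V) (j : ℕ) (F' : X.S.Face), X.cpl F' → X.fcs (X.Rf v j) = Sum.inl F' →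
      X.M0.face (cf X.M0 X.b v (X.al v j)) = X.mf F' := by
    intro v j F' h1 h2
    exact (X.face_iff h1 _).2 (X.fcs_inl.1 h2).2
  refine k33_ch hG X.M0 X.hb (fun i => X.mf (F i)) (fun j => X.mf (E j)) (fun i j => X.emb (e i j))
    (fun i => X.one_cpl (hF2 i)) (fun j => X.one_cpl (hE2 j)) (fun i j h => ?_) (fun i j h => ?_)
    (fun i j h => ?_) (fun i j i' j' h => hw i j i' j' h) (fun i j => ?_) (fun i j i' j' => ?_)
  · apply hf
    rw [hF1, hF1, X.mf_inj (hF2 i) (hF2 j) h]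
  · apply hg
    rw [hE1, hE1, X.mf_inj (hE2 i) (hE2 j) h]
  · apply hfg i j
    rw [hF1, hE1, X.mf_inj (hF2 i) (hE2 j) h]
  · have h1 := he i j
    rw [hF1, hE1] at h1
    rw [Sym2.eq_iff]
    rcases Sym2.eq_iff.1 h1 with ⟨h2, h3⟩ | ⟨h2, h3⟩
    · exact Or.inl ⟨hface _ _ _ (hF2 i) h2, hface _ _ _ (hE2 j) h3⟩
    · exact Or.inr ⟨hface _ _ _ (hE2 j) h2, hface _ _ _ (hF2 i) h3⟩
  · exact congrArg Prod.fst (hN i j i' j')

end Pce

end Pool.Agent.RPH
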