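import Pool.Agent.RPH.LPolR
import Pool.Agent.RPH.LSysD

/-!
# RPH-LParR: chords with the same two faces
-/

set_option autoImplicit false

open Finset
open scoped Classical

namespace Pool.Agent.RPH

open Pool.Agent.EPH Pool.Agent.BEO
open Pool.Agent.Helper35.OG hiding F2 dg

variable {V : Type} {G : SimpleGraph V} [Fintype V]

namespace Pce

variable (X : Pce G)

private theorem lpr_two (v v' : V) (hv : v ≠ v') (i j i' j' : ℕ) (hi : i < X.na v) (hj : j < X.na v)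
    (hi' : i' < X.na v') (hj' : j' < X.na v') (hij : i ≠ j) (h1 : X.fcs (X.Rf v i) = X.fcs (X.Rf v' i'))
    (h2 : X.fcs (X.Rf v j) = X.fcs (X.Rf v' j')) : X.qc v i + X.qc v j = X.qc v' i' + X.qc v' j' := by
  obtain ⟨r, _, _, _, r1, r2, r3, r4⟩ := X.two_dart hv hi hj hi' hj' hij h1 h2
  refine Prod.ext ?_ ?_
  · refine LinearMap.ext fun z => ?_
    have e1 := X.val_of_dart hi hj r r1 r2 z
    have e2 := X.val_of_dart hi' hj' (across r) r3 r4 z
    rw [ed_across] at e2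
    exact e1.trans e2.symm
  · show (Pi.single (X.fcs (X.Rf v i)) (1 : F2) : X.S.Face ⊕ Flag G → F2) + Pi.single (X.fcs (X.Rf v j)) 1 =
      Pi.single (X.fcs (X.Rf v' i')) 1 + Pi.single (X.fcs (X.Rf v' j')) 1
    rw [h1, h2]

theorem par_qe (e e' : Ch X.corP) (h : s(X.fcs (X.Rf e.vx e.lo), X.fcs (X.Rf e.vx e.hi)) =
    s(X.fcs (X.Rf e'.vx e'.lo), X.fcs (X.Rf e'.vx e'.hi))) : X.qe e = X.qe e' := by
  have hlo : e.lo < X.na e.vx := X.e_lo e
  have hhi : e.hi < X.na e.vx := X.e_hi e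
  have hlo' : e'.lo < X.na e'.vx := X.e_lo e'
  have hhi' : e'.hi < X.na e'.vx := X.e_hi e'
  have hlt : e.lo < e.hi := X.e_lt e
  have hlt' : e'.lo < e'.hi := X.e_lt e'
  show X.qc e.vx e.lo + X.qc e.vx e.hi = X.qc e'.vx e'.lo + X.qc e'.vx e'.hi
  generalize e.vx = v at *
  generalize e.lo = i at *
  generalize e.hi = j at *
  generalize e'.vx = v' at *
  generalize e'.lo = i' at *
  generalize e'.hi = j' at *
  by_cases hv : v = v'
  · subst hv
    rcases Sym2.eq_iff.1 h with ⟨h1, h2⟩ | ⟨h1, h2⟩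
    · rw [X.fcs_inj hlo hlo' h1, X.fcs_inj hhi hhi' h2]
    · rw [X.fcs_inj hlo hhi' h1, X.fcs_inj hhi hlo' h2, add_comm]
  · rcases Sym2.eq_iff.1 h with ⟨h1, h2⟩ | ⟨h1, h2⟩
    · exact X.lpr_two v v' hv i j i' j' hlo hhi hlo' hhi' hlt.ne h1 h2
    · exact (X.lpr_two v v' hv i j j' i' hlo hhi hhi' hlo' hlt.ne h1 h2).trans (add_comm _ _)

end Pce

end Pool.Agent.RPH
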