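import Pool.Agent.RPH.LPolR
import Pool.Agent.RPH.LParR
import Pool.Agent.RPH.LK33R
import Pool.Agent.RPH.LHR

/-!
# RPH-LSysR: the system of a piece

(No proofs missing; a collection of the previous modules.)
-/

set_option autoImplicit false

open Finset
open scoped Classical

namespace Pool.Agent.RPH

open Pool.Agent.EPH Pool.Agent.BEO
open Pool.Agent.Helper35.OG hiding F2 dg

variable {V : Type} {G : SimpleGraph V} [Fintype V]

namespace Pce

variable (X : Pce G)

/-- the linear data of a piece -/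
noncomputable def mkD (k : ℕ) (hB : X.B.card ≤ k) (hH : Module.finrank F2 (HQ X.qe X.dF) ≤ k) :
    Dat k (X.S.Face ⊕ Flag G) (Ch X.corP) (cyc G) (QT X.S) where
  s e := X.fcs (X.Rf e.vx e.lo)
  t e := X.fcs (X.Rf e.vx e.hi)
  z := X.zz
  q := X.qe
  v := LinearMap.fst F2 (cyc G →ₗ[F2] F2) (X.S.Face ⊕ Flag G → F2)
  dF := X.dF
  J := frm X.M0
  B := X.B
  symm := frm_symm X.M0
  inc F e := by
    convert X.dF_qe F e
  bd F hF e := X.bd F hF e
  rad F _ x := X.rad F x
  cardB := hB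
  dimH := hH

/-- the system of a piece -/
noncomputable def mkS (hG : G.Connected) (k : ℕ) (hB : X.B.card ≤ k) (hH : Module.finrank F2 (HQ X.qe X.dF) ≤ k) :
    Sys k (X.S.Face ⊕ Flag G) V (cyc G) (QT X.S) where
  P := X.corP
  pol := X.polP
  D := X.mkD k hB hH
  hs _ := rfl
  ht _ := rfl
  c := X.qc
  hc _ := rfl
  hF F v i _ := by
    have h := X.dF_qc F v i
    by_cases h1 : X.fcs (X.Rf v i) = F
    · rw [if_pos h1] at h
      exact h.trans (if_pos h1).symm
    · rw [if_neg h1] at h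
      exact h.trans (if_neg h1).symm
  par e e' h := X.par_qe e e' h
  k33 f g e hfB hgB hf hg hfg hw he hN := X.k33_P hG f g e hfB hgB hf hg hfg hw he hN

theorem N_mkS (hG : G.Connected) (k : ℕ) (hB : X.B.card ≤ k) (hH : Module.finrank F2 (HQ X.qe X.dF) ≤ k)
    (lam : Finset (Ch X.corP)) (z z' : cyc G) :
    (X.mkS hG k hB hH).D.N lam z z' = frm X.M0 z z' + ∑ e ∈ lam, (X.qe e).1 z * (X.qe e).1 z' := by
  show (frm X.M0 + ∑ e ∈ lam, (X.qe e).1.smulRight (X.qe e).1) z z' = _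
  rw [LinearMap.add_apply, LinearMap.add_apply, LinearMap.sum_apply, LinearMap.sum_apply]
  rfl

theorem cls_fst (hG : G.Connected) (k : ℕ) (hB : X.B.card ≤ k) (hH : Module.finrank F2 (HQ X.qe X.dF) ≤ k)
    (lam : Finset (Ch X.corP)) (z : cyc G) :
    ((X.mkS hG k hB hH).D.cls lam).1 z = ∑ e ∈ lam, (X.qe e).1 z := by
  show (∑ e ∈ lam, X.qe e).1 z = _
  rw [Prod.fst_sum, LinearMap.sum_apply]

end Pce

end Pool.Agent.RPH
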