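import Pool.Agent.RPH.AAlg
import Pool.Agent.RPH.LSysR
import Pool.Agent.EPH.ACls

/-!
# RPH-AFit: the guesses which fit a piece (definition)

The guess codes the flags over `D` in the other corners of the map, the allowed corners which are not good, the ends of the
blocks with at least two darts, the labels of these blocks and the edges which define the labels.
-/

set_option autoImplicit false

open Finset
open scoped Classical

namespace Pool.Agent.RPH

open Pool.Agent.EPH Pool.Agent.BEO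
open Pool.Agent.Helper35.OG hiding F2 dg

variable {n : ℕ} {G : SimpleGraph (Fin n)}

/-- the edges `i` of the blocks -/
noncomputable def wtb {V : Type} [Fintype V] {G : SimpleGraph V} (X : Pce G) (z : G.edgeSet → F2) (v : V) (j : ℕ) : F2 :=
  ∑ i ∈ Icc (X.fs v j) (X.al v j), z (ed (cf X.M0 X.b v i))

/-- The guess `g` fits the piece. -/
structure Fit (X : Pce G) (l : Inp) (d : List Ec) (g : Gs) : Prop where
  cS : Codes X.S l
  cD : FGT.DCodes X.D d
  gm : ∀ y, y ∈ g.1 ↔ ∃ p ∈ FGT.mix X.D X.M, y = cod p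
  g1 : ∀ y, y ∈ g.2.1 ↔ ∃ p, X.af p ∧ ¬ X.gc p ∧ y = (cod p, cod (X.M0.nxt p))
  g2 : ∀ y, y ∈ g.2.2.1 ↔ ∃ v j, j < X.na v ∧ X.fs v j ≠ X.al v j ∧
    (y = (cod (X.Lf v j), cod (X.Rf v j)) ∨ y = (cod (X.Rf v j), cod (X.Lf v j)))
  g3 : ∀ y, y ∈ g.2.2.2.1 ↔ ∃ v j, j < X.na v ∧ X.fs v j ≠ X.al v j ∧ ∃ e : G.edgeSet, ec e ∈ g.2.2.2.2 ∧
    wtb X (pc (zl l (ec e))) v j = 1 ∧ y = (cod (X.Rf v j), ec e)
  es : ∀ y ∈ g.2.2.2.2, ∃ e : G.edgeSet, y = ec e
  base : ∀ v : Fin n, 0 < X.na v → (afv l d g v).headD (0, (0, false)) = cod (side (X.b v))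

end Pool.Agent.RPH
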