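import Pool.Agent.RPH.AFpR
import Pool.Agent.EPH.AFpN

/-!
# RPH-AFpN: the part of the new map in polynomial time

PLAN. As `Pool/Agent/EPH/AFpN.lean` (`fp_ivc` there is generic).
-/

set_option autoImplicit false

namespace Pool.Agent.RPH

open Pool.Agent.EPH Pool.Agent.BEO
open Turing Function N487b59b3 N68a2faeb Pool.Agent.Helper22 Pool.Agent.Helper6.WB Pool.Agent.Helper47.TR Computability

section

variable {α β γ δ : Type} [N487b59b3 α] [N487b59b3 β] [N487b59b3 γ] [N487b59b3 δ]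

private theorem fp_bxor {c d : α → Bool} (hc : FP c) (hd : FP d) : FP fun a => xor (c a) (d a) := by
  refine (congrArg FP (funext fun a => ?_)).mp (FP.not (FP.beq hc hd))
  cases c a <;> cases d a <;> rfl

private theorem fp_psg {f : α → Inp} {d : α → List Ec} {g : α → Gs} {c : α → List Cc} {v i : α → ℕ}
    (hf : FP f) (hd : FP d) (hg : FP g) (hc : FP c) (hv : FP v) (hi : FP i) :
    FP fun a => psg (f a) (d a) (g a) (c a) (v a) (i a) := by
  have h2 : FP fun q : α × (ℕ × Pt) => q.2 := FP.snd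
  have hi' : FP fun q : α × (ℕ × Pt) => i q.1 := hi.comp FP.fst
  have hv' : FP fun q : α × (ℕ × Pt) => v q.1 := hv.comp FP.fst
  have hc' : FP fun q : α × (ℕ × Pt) => c q.1 := hc.comp FP.fst
  have h : FP fun q : α × (ℕ × Pt) =>
      !decide (q.2.1 = i q.1) && xor (decide (q.2.1 + 1 ≤ i q.1)) (ivc (c q.1) (v q.1) q.2.1 (i q.1)) :=
    FP.and (FP.not (FP.natEq h2.fst' hi')) (fp_bxor (FP.natLe (FP.natAdd h2.fst' (FP.const 1)) hi')
      (fp_ivc hc' hv' h2.fst' hi'))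
  exact FP.length (fp_filt h (fp_rlg hf hd hg hv))

private theorem fp_ofg {g : α → Gs} {c : α → List Cc} {v : α → ℕ} {q : α → ℕ × Pt} (hg : FP g) (hc : FP c)
    (hv : FP v) (hq : FP q) : FP fun a => ofg (g a) (c a) (v a) (q a) :=
  FP.ite (fp_ivc hc hv hq.fst' hq.fst') (fp_ptn hg hq.snd') hq.snd'

private theorem fp_ifg {g : α → Gs} {c : α → List Cc} {v : α → ℕ} {q : α → ℕ × Pt} (hg : FP g) (hc : FP c)
    (hv : FP v) (hq : FP q) : FP fun a => ifg (g a) (c a) (v a) (q a) :=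
  FP.ite (fp_ivc hc hv hq.fst' hq.fst') hq.snd' (fp_ptn hg hq.snd')

private theorem fp_nwg {f : α → Inp} {d : α → List Ec} {g : α → Gs} {c : α → List Cc} {v : α → ℕ}
    (hf : FP f) (hd : FP d) (hg : FP g) (hc : FP c) (hv : FP v) :
    FP fun a => nwg (f a) (d a) (g a) (c a) (v a) := by
  have h1 : FP fun r : (α × (ℕ × Pt)) × (ℕ × Pt) => r.1.2 := FP.fst.snd'
  have h2 : FP fun r : (α × (ℕ × Pt)) × (ℕ × Pt) => r.2 := FP.snd
  have h0 : FP fun r : (α × (ℕ × Pt)) × (ℕ × Pt) => r.1.1 := FP.fst.fst'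
  have hf' : FP fun r : (α × (ℕ × Pt)) × (ℕ × Pt) => f r.1.1 := hf.comp h0
  have hd' : FP fun r : (α × (ℕ × Pt)) × (ℕ × Pt) => d r.1.1 := hd.comp h0
  have hg' : FP fun r : (α × (ℕ × Pt)) × (ℕ × Pt) => g r.1.1 := hg.comp h0
  have hc' : FP fun r : (α × (ℕ × Pt)) × (ℕ × Pt) => c r.1.1 := hc.comp h0
  have hv' : FP fun r : (α × (ℕ × Pt)) × (ℕ × Pt) => v r.1.1 := hv.comp h0
  have hp1 := fp_psg hf' hd' hg' hc' hv' h1.fst'
  have hp2 := fp_psg hf' hd' hg' hc' hv' h2.fst'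
  have ho1 := fp_ofg hg' hc' hv' h1
  have ho2 := fp_ifg hg' hc' hv' h2
  have h3 : FP fun r : (α × (ℕ × Pt)) × (ℕ × Pt) =>
      if decide (psg (f r.1.1) (d r.1.1) (g r.1.1) (c r.1.1) (v r.1.1) r.2.1 =
          psg (f r.1.1) (d r.1.1) (g r.1.1) (c r.1.1) (v r.1.1) r.1.2.1 + 1) ||
        (decide (psg (f r.1.1) (d r.1.1) (g r.1.1) (c r.1.1) (v r.1.1) r.2.1 = 0) &&
          decide (psg (f r.1.1) (d r.1.1) (g r.1.1) (c r.1.1) (v r.1.1) r.1.2.1 + 1 =
            (rlg (f r.1.1) (d r.1.1) (g r.1.1) (v r.1.1)).length)) then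
        [(ofg (g r.1.1) (c r.1.1) (v r.1.1) r.1.2, ifg (g r.1.1) (c r.1.1) (v r.1.1) r.2),
          (ifg (g r.1.1) (c r.1.1) (v r.1.1) r.2, ofg (g r.1.1) (c r.1.1) (v r.1.1) r.1.2)]
      else [] :=
    FP.ite (FP.or (FP.natEq hp2 (FP.natAdd hp1 (FP.const 1)))
      (FP.and (FP.natEq hp2 (FP.const 0)) (FP.natEq (FP.natAdd hp1 (FP.const 1))
        (FP.length (fp_rlg hf' hd' hg' hv')))))
      (FP.cons (FP.pair ho1 ho2) (FP.cons (FP.pair ho2 ho1) (FP.const []))) (FP.const [])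
  have h4 := fp_flat h3 (l := fun r : α × (ℕ × Pt) => rlg (f r.1) (d r.1) (g r.1) (v r.1))
    (fp_rlg (hf.comp FP.fst) (hd.comp FP.fst) (hg.comp FP.fst) (hv.comp FP.fst))
  exact fp_flat h4 (fp_rlg hf hd hg hv)

theorem fp_ent {f : α → Inp} {d : α → List Ec} {g : α → Gs} {c : α → List Cc} (hf : FP f) (hd : FP d) (hg : FP g)
    (hc : FP c) : FP fun a => ent (f a) (d a) (g a) (c a) := by
  have h : FP fun q : α × ℕ => nwg (f q.1) (d q.1) (g q.1) (c q.1) q.2 :=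
    fp_nwg (hf.comp FP.fst) (hd.comp FP.fst) (hg.comp FP.fst) (hc.comp FP.fst) FP.snd
  exact fp_flat h (fp_vtc hf)

end

end Pool.Agent.RPH
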