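import Pool.Agent.RPH.AFpC
import Pool.Agent.RPH.AFpN
import Pool.Agent.EPH.AFpA

/-!
# RPH-AFp: the candidates in polynomial time
-/

set_option autoImplicit false

namespace Pool.Agent.RPH

open Pool.Agent.EPH Pool.Agent.BEO
open Turing Function N487b59b3 N68a2faeb Pool.Agent.Helper22 Pool.Agent.Helper6.WB Pool.Agent.Helper47.TR Computability

section

variable {α β γ δ : Type} [N487b59b3 α] [N487b59b3 β] [N487b59b3 γ] [N487b59b3 δ]

private theorem fp_prs [Inhabited β] [Inhabited γ] {l : α → List β} {m : α → List γ} (hl : FP l)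
    (hm : FP m) : FP fun a => prs (l a) (m a) := by
  have h1 : FP fun p : α × β => (m p.1).map fun y => (p.2, y) :=
    fp_mapc (h := fun q : (α × β) × γ => (q.1.2, q.2)) (by fun_prop) (hm.comp FP.fst)
  exact fp_flat h1 hl

private theorem fp_sbs [DecidableEq β] [Inhabited β] (k : ℕ) {l : α → List β} (hl : FP l) :
    FP fun a => sbs (l a) k := by
  have h1 : FP fun x : β => [x] := FP.cons FP.id (FP.const [])
  exact fp_cds k (FP.map h1 hl)

theorem fp_gss (k m : ℕ) : FP fun l : Inp => gss k m l := by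
  have h0 : FP fun l : Inp => fl l := fp_fl FP.id
  have h1 : FP fun l : Inp => (fl l).map ek := FP.map (fp_ek FP.id) h0
  have h2 : FP fun l : Inp => sbs (prs (fl l) (fl l)) m := fp_sbs m (fp_prs h0 h0)
  exact fp_prs (fp_sbs m h0) (fp_prs h2 (fp_prs h2 (fp_prs (fp_sbs m (fp_prs h0 h1)) (fp_tup k h1))))

theorem fp_cndO (k m T : ℕ) : FP fun p : Inp × List Ec => cndO k m T p.1 p.2 := by
  have hg : FP fun p : Inp × List Ec => gss k m p.1 := (fp_gss k m).comp FP.fst
  have h1 : FP fun q : (Inp × List Ec) × Gs => cds (wkX k (arg q.1.1 q.1.2 q.2)) T :=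
    fp_cds T (fp_wkX k (fp_arg (FP.comp FP.fst FP.fst) (FP.comp FP.snd FP.fst) FP.snd))
  have h2 : FP fun q : (Inp × List Ec) × Gs =>
      (cds (wkX k (arg q.1.1 q.1.2 q.2)) T).map fun c => ent q.1.1 q.1.2 q.2 c :=
    fp_mapc (h := fun r : ((Inp × List Ec) × Gs) × List Cc => ent r.1.1.1 r.1.1.2 r.1.2 r.2)
      (fp_ent (by fun_prop) (by fun_prop) (by fun_prop) FP.snd) h1
  exact fp_flat h2 hg

theorem fp_cndA (k m T : ℕ) : FP fun p : Inp × List Ec => cndA k m T p.1 p.2 := by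
  have hg : FP fun p : Inp × List Ec => gss k m p.1 := (fp_gss k m).comp FP.fst
  have h0 : FP fun q : (Inp × List Ec) × Gs => (arg q.1.1 q.1.2 q.2).map fun a => a.2.1 :=
    FP.map (by fun_prop) (fp_arg (FP.comp FP.fst FP.fst) (FP.comp FP.snd FP.fst) FP.snd)
  have h1 : FP fun q : (Inp × List Ec) × Gs => sbs ((arg q.1.1 q.1.2 q.2).map fun a => a.2.1) T :=
    fp_sbs T h0
  have h2 : FP fun q : (Inp × List Ec) × Gs =>
      (sbs ((arg q.1.1 q.1.2 q.2).map fun a => a.2.1) T).map fun c => ent q.1.1 q.1.2 q.2 c :=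
    fp_mapc (h := fun r : ((Inp × List Ec) × Gs) × List Cc => ent r.1.1.1 r.1.1.2 r.1.2 r.2)
      (fp_ent (by fun_prop) (by fun_prop) (by fun_prop) FP.snd) h1
  exact fp_flat h2 hg

end

end Pool.Agent.RPH
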