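import Pool.Agent.RPH.AFpR
import Pool.Agent.EPH.AFpC

/-!
# RPH-AFpC: the arcs in polynomial time
-/

set_option autoImplicit false

namespace Pool.Agent.RPH

open Pool.Agent.EPH Pool.Agent.BEO
open Turing Function N487b59b3 N68a2faeb Pool.Agent.Helper22 Pool.Agent.Helper6.WB Pool.Agent.Helper47.TR Computability

section

variable {α β γ δ : Type} [N487b59b3 α] [N487b59b3 β] [N487b59b3 γ] [N487b59b3 δ]

private theorem afpc_zl {f : α → Inp} {e : α → Ec} (hf : FP f) (he : FP e) :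
    FP fun a => zl (f a) (e a) :=
  FP.append (fp_look (fp_tbG hf) he.fst' (FP.const []))
    (FP.cons he (fp_look (fp_tbG hf) he.snd' (FP.const [])))

private theorem afpc_wtg {f : α → Inp} {g : α → Gs} {p : α → Pt} {e : α → Ec} (hf : FP f) (hg : FP g) (hp : FP p)
    (he : FP e) : FP fun a => wtg (f a) (g a) (p a) (e a) :=
  FP.ite (fp_memb (FP.map FP.fst hg.snd'.snd'.fst') hp)
    (fp_memb hg.snd'.snd'.snd'.fst' (FP.pair hp he)) (fp_par (afpc_zl hf he) (fp_ek hp))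

private theorem afpc_fcg {f : α → Inp} {g : α → Gs} {p : α → Pt} (hf : FP f) (hg : FP g) (hp : FP p) :
    FP fun a => fcg (f a) (g a) (p a) :=
  FP.ite (fp_memb (FP.map FP.fst hg.snd'.fst') hp) (FP.pair (FP.const true) hp)
    (FP.pair (FP.const false) (fp_fcl hf hp))

private theorem afpc_lbg {f : α → Inp} {d : α → List Ec} {g : α → Gs} {e : α → Ec} {x : α → Cc} (hf : FP f)
    (hd : FP d) (hg : FP g) (he : FP e) (hx : FP x) : FP fun a => lbg (f a) (d a) (g a) (e a) (x a) := by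
  have h1 : FP fun s : α × (ℕ × Pt) => cvr (x s.1) s.2.1 && wtg (f s.1) (g s.1) s.2.2 (e s.1) :=
    FP.and (fp_cvr (hx.comp FP.fst) FP.snd.fst')
      (afpc_wtg (hf.comp FP.fst) (hg.comp FP.fst) FP.snd.snd' (he.comp FP.fst))
  exact fp_odl (fp_filt h1 (fp_rlg hf hd hg hx.fst'))

private theorem afpc_chg {f : α → Inp} {d : α → List Ec} {g : α → Gs} {v : α → ℕ} (hf : FP f) (hd : FP d)
    (hg : FP g) (hv : FP v) : FP fun a => chg (f a) (d a) (g a) (v a) := by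
  have h1 : FP fun s : (α × (ℕ × Pt)) × (ℕ × Pt) => decide (s.1.2.1 + 1 ≤ s.2.1) :=
    FP.natLe (FP.natAdd FP.fst.snd'.fst' (FP.const 1)) FP.snd.fst'
  have h2 : FP fun s : α × (ℕ × Pt) => (rlg (f s.1) (d s.1) (g s.1) (v s.1)).filter fun q' =>
      decide (s.2.1 + 1 ≤ q'.1) :=
    fp_filt h1 (fp_rlg (hf.comp FP.fst) (hd.comp FP.fst) (hg.comp FP.fst) (hv.comp FP.fst))
  have h3 : FP fun s : (α × (ℕ × Pt)) × (ℕ × Pt) =>
      ((v s.1.1, (s.1.2.1, s.2.1)), (s.1.2.2, s.2.2)) :=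
    FP.pair (FP.pair (hv.comp FP.fst.fst') (FP.pair FP.fst.snd'.fst' FP.snd.fst'))
      (FP.pair FP.fst.snd'.snd' FP.snd.snd')
  have h4 := fp_mapc h3 h2
  exact fp_flat h4 (fp_rlg hf hd hg hv)

theorem fp_arg {f : α → Inp} {d : α → List Ec} {g : α → Gs} (hf : FP f) (hd : FP d) (hg : FP g) :
    FP fun a => arg (f a) (d a) (g a) := by
  have hl : FP fun s : (α × ℕ) × (Cc × (Pt × Pt)) => f s.1.1 := hf.comp FP.fst.fst'
  have hl2 : FP fun s : (α × ℕ) × (Cc × (Pt × Pt)) => d s.1.1 := hd.comp FP.fst.fst'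
  have hl3 : FP fun s : (α × ℕ) × (Cc × (Pt × Pt)) => g s.1.1 := hg.comp FP.fst.fst'
  have hA : FP fun s : (α × ℕ) × (Cc × (Pt × Pt)) => fcg (f s.1.1) (g s.1.1) s.2.2.1 :=
    afpc_fcg hl hl3 FP.snd.snd'.fst'
  have hB : FP fun s : (α × ℕ) × (Cc × (Pt × Pt)) => fcg (f s.1.1) (g s.1.1) s.2.2.2 :=
    afpc_fcg hl hl3 FP.snd.snd'.snd'
  have hL : FP fun s : (α × ℕ) × (Cc × (Pt × Pt)) =>
      (g s.1.1).2.2.2.2.map fun e => lbg (f s.1.1) (d s.1.1) (g s.1.1) e s.2.1 := by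
    have h0 : FP fun q : ((α × ℕ) × (Cc × (Pt × Pt))) × Ec =>
        lbg (f q.1.1.1) (d q.1.1.1) (g q.1.1.1) q.2 q.1.2.1 :=
      afpc_lbg (hl.comp FP.fst) (hl2.comp FP.fst) (hl3.comp FP.fst) FP.snd FP.fst.snd'.fst'
    exact fp_mapc h0 hl3.snd'.snd'.snd'.snd'
  have hC := FP.pair (f := fun s : (α × ℕ) × (Cc × (Pt × Pt)) => s.2.1) FP.snd.fst' hL
  have h1 : FP fun s : (α × ℕ) × (Cc × (Pt × Pt)) =>
      [((fcg (f s.1.1) (g s.1.1) s.2.2.1, fcg (f s.1.1) (g s.1.1) s.2.2.2),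
          (s.2.1, (g s.1.1).2.2.2.2.map fun e => lbg (f s.1.1) (d s.1.1) (g s.1.1) e s.2.1)),
        ((fcg (f s.1.1) (g s.1.1) s.2.2.2, fcg (f s.1.1) (g s.1.1) s.2.2.1),
          (s.2.1, (g s.1.1).2.2.2.2.map fun e => lbg (f s.1.1) (d s.1.1) (g s.1.1) e s.2.1))] :=
    FP.cons (FP.pair (FP.pair hA hB) hC) (FP.cons (FP.pair (FP.pair hB hA) hC) (FP.const []))
  have h2 := fp_flat h1 (afpc_chg (hf.comp FP.fst) (hd.comp FP.fst) (hg.comp FP.fst) FP.snd)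
  exact fp_flat h2 (fp_vtc hf)

end

end Pool.Agent.RPH
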