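import Pool.Agent.RPH.AAlg
import Pool.Agent.EPH.AFpR
import Pool.Agent.BEO.FpL

/-!
# RPH-AFpR: the rotation of the blocks in polynomial time

PLAN. As `Pool/Agent/EPH/AFpR.lean`, `BEO/FpG.lean`: `fp_filt`, `fp_mapc`, `fp_look`, `fp_sd`, `fp_ek`, `fp_fl`, `fp_orb`, `fp_memb` (search the name in BEO), `FP.natLe`, `FP.natAdd`, `FP.length`, `FP.headD`.
-/

set_option autoImplicit false

namespace Pool.Agent.RPH

open Pool.Agent.EPH Pool.Agent.BEO
open Turing Function N487b59b3 N68a2faeb Pool.Agent.Helper22 Pool.Agent.Helper6.WB Pool.Agent.Helper47.TR Computability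

section

variable {α β γ δ : Type} [N487b59b3 α] [N487b59b3 β] [N487b59b3 γ] [N487b59b3 δ]

theorem fp_afl {f : α → Inp} {d : α → List Ec} {g : α → Gs} (hf : FP f) (hd : FP d) (hg : FP g) :
    FP fun a => afl (f a) (d a) (g a) := by
  have h1 : FP fun q : α × Pt => memb (d q.1) (ek q.2) := fp_memb (hd.comp FP.fst) (fp_ek FP.snd)
  have h2 : FP fun q : α × Pt => memb (g q.1).1 q.2 := fp_memb ((hg.comp FP.fst).fst') FP.snd
  exact fp_filt (FP.and h1 h2.not) (fp_fl hf)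

theorem fp_ptn {g : α → Gs} {p : α → Pt} (hg : FP g) (hp : FP p) : FP fun a => ptn (g a) (p a) := by
  exact fp_look hg.snd'.snd'.fst' hp (fp_sd hp)

private theorem fp_nxgR {f : α → Inp} {g : α → Gs} {p : α → Pt} (hf : FP f) (hg : FP g) (hp : FP p) :
    FP fun a => nxg (f a) (g a) (p a) := by
  exact fp_look hg.snd'.fst' hp (fp_look hf hp hp)

private theorem fp_rinR {f : α → Inp} {d : α → List Ec} {g : α → Gs} (hf : FP f) (hd : FP d) (hg : FP g) :
    FP fun a => rin (f a) (d a) (g a) := by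
  have h1 : FP fun q : α × Pt => (q.2, sd (ptn (g q.1) (nxg (f q.1) (g q.1) q.2))) :=
    FP.pair FP.snd (fp_sd (fp_ptn (hg.comp FP.fst) (fp_nxgR (hf.comp FP.fst) (hg.comp FP.fst) FP.snd)))
  exact fp_mapc h1 (fp_afl hf hd hg)

private theorem fp_afvR {f : α → Inp} {d : α → List Ec} {g : α → Gs} {v : α → ℕ} (hf : FP f) (hd : FP d)
    (hg : FP g) (hv : FP v) : FP fun a => afv (f a) (d a) (g a) (v a) := by
  have h1 : FP fun q : α × Pt => decide (q.2.1 = v q.1) := fp_eq (FP.fst' FP.snd) (hv.comp FP.fst)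
  exact fp_filt h1 (fp_afl hf hd hg)

theorem fp_rlg {f : α → Inp} {d : α → List Ec} {g : α → Gs} {v : α → ℕ} (hf : FP f) (hd : FP d) (hg : FP g)
    (hv : FP v) : FP fun a => rlg (f a) (d a) (g a) (v a) := by
  have hafv := fp_afvR hf hd hg hv
  have hb : FP fun a => bsg (f a) (d a) (g a) (v a) := fp_ptn hg (FP.headD hafv (0, (0, false)))
  have h1 : FP fun q : α × (ℕ × Pt) => decide (q.2.1 + q.2.1 + 1 ≤ (afv (f q.1) (d q.1) (g q.1) (v q.1)).length) :=
    FP.natLe (FP.natAdd (FP.natAdd (FP.fst' FP.snd) (FP.fst' FP.snd)) (FP.const 1)) (FP.length (hafv.comp FP.fst))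
  exact fp_filt h1 (fp_orb (fp_rinR hf hd hg) hafv hb)

end

end Pool.Agent.RPH
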