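import Pool.Agent.RPH.Dt

/-!
# RPH-Defs: systems of chords inside a piece of an embedding
-/

set_option autoImplicit false

open Finset
open scoped Classical

namespace Pool.Agent.RPH

open Pool.Agent.EPH Pool.Agent.BEO

/-- Two faces with two common vertices are neighbours there, etc. -/
structure Pol {Φ Vt : Type} (P : Cor Φ Vt) : Prop where
  /-- two faces with two common vertices are neighbours at each of them -/
  two : ∀ v v' F G, v ≠ v' → F ≠ G → On P v F → On P v G → On P v' F → On P v' G →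
    ∀ i j, i < P.d v → j < P.d v → P.fc v i = F → P.fc v j = G → Nxt P v i j
  /-- two faces have at most two common vertices -/
  three : ∀ v v' v'' F G, v ≠ v' → v ≠ v'' → v' ≠ v'' → F ≠ G → On P v F → On P v G → On P v' F → On P v' G →
    On P v'' F → On P v'' G → False
  /-- two vertices have at most two common faces -/
  faces : ∀ v v' F G K, v ≠ v' → F ≠ G → F ≠ K → G ≠ K → On P v F → On P v G → On P v K → On P v' F →
    On P v' G → On P v' K → False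

structure Sys (k : ℕ) (Φ Vt Z Q : Type) [Fintype Φ] [Fintype Vt] [AddCommGroup Z] [Module F2 Z] [AddCommGroup Q]
    [Module F2 Q] where
  /-- the corners -/
  P : Cor Φ Vt
  pol : Pol P
  /-- the linear data -/
  D : Dat k Φ (Ch P) Z Q
  hs : ∀ e, D.s e = P.fc e.vx e.lo
  ht : ∀ e, D.t e = P.fc e.vx e.hi
  /-- the class of a corner -/
  c : Vt → ℕ → Q
  hc : ∀ e, D.q e = c e.vx e.lo + c e.vx e.hi
  hF : ∀ F v i, i < P.d v → D.dF F (c v i) = if P.fc v i = F then 1 else 0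
  /-- chords with the same two faces have the same class -/
  par : ∀ e e', s(D.s e, D.t e) = s(D.s e', D.t e') → D.q e = D.q e'
  /-- no three by three faces with nine different common vertices and null rectangles -/
  k33 : ∀ (f g : Fin 3 → Φ) (e : Fin 3 → Fin 3 → Ch P), (∀ i, f i ∉ D.B) → (∀ i, g i ∉ D.B) →
    (∀ i j, f i = f j → i = j) → (∀ i j, g i = g j → i = j) →
    (∀ i j, f i ≠ g j) → (∀ i j i' j', (e i j).vx = (e i' j').vx → i = i' ∧ j = j') →
    (∀ i j, s(D.s (e i j), D.t (e i j)) = s(f i, g j)) →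
    (∀ i j i' j', D.q (e i j) + D.q (e i' j) + D.q (e i' j') + D.q (e i j') = 0) → False

variable {k : ℕ} {Φ Vt Z Q : Type} [Fintype Φ] [Fintype Vt] [AddCommGroup Z] [Module F2 Z] [AddCommGroup Q]
  [Module F2 Q]

/-- Three far apart (at least `g`) closed walks of the same class outside the exceptional faces, each touching a path in
`mu`, are null. -/
def Tch (S : Sys k Φ Vt Z Q) (g : ℕ) (mu : Finset (Ch S.P)) : Prop :=
  ∀ (N : ℕ) (q : ℕ → Φ) (e : ℕ → Ch S.P) (F : Fin 3 → Φ) (l : Fin 3 → List (Ch S.P)) (α β : Fin 3 → ℕ),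
    (∀ t, t < N → e t ∈ mu ∧ s(S.D.s (e t), S.D.t (e t)) = s(q t, q (t + 1))) →
    (∀ t t', t < N → t' < N → e t = e t' → t = t') →
    (∀ i, DW S.D.s S.D.t (F i) (F i) (l i)) →
    β 0 + g ≤ α 1 → β 1 + g ≤ α 2 → β 2 ≤ N →
    (∀ i, ∃ t, α i < t ∧ t < β i ∧ ∃ g ∈ l i, S.D.s g = q t ∨ S.D.t g = q t) →
    (∀ i, ∀ g ∈ l i, ∀ t, t ≤ N → t ≤ α i ∨ β i ≤ t → S.D.s g ≠ q t ∧ S.D.t g ≠ q t) →
    (∀ i, ∀ g ∈ l i, ∀ h ∈ mu, (S.D.s h = S.D.s g ∨ S.D.s h = S.D.t g ∨ S.D.t h = S.D.s g ∨ S.D.t h = S.D.t g ∨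
      h.vx = g.vx) → ∃ t, α i ≤ t ∧ t < β i ∧ h = e t) →
    (∀ i j, i ≠ j → ∀ g ∈ l i, ∀ g' ∈ l j,
      g.vx ≠ g'.vx ∧ S.D.s g ≠ S.D.s g' ∧ S.D.s g ≠ S.D.t g' ∧ S.D.t g ≠ S.D.s g' ∧ S.D.t g ≠ S.D.t g') →
    (∀ i, ∀ g ∈ l i, S.D.s g ∉ S.D.B ∧ S.D.t g ∉ S.D.B) → (∀ t, t ≤ N → q t ∉ S.D.B) →
    ((l 0).map S.D.q).sum = ((l 1).map S.D.q).sum → ((l 1).map S.D.q).sum = ((l 2).map S.D.q).sum →
    ((l 0).map S.D.q).sum = 0

/-- the touching rule for the sets of the class `x` -/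
def TcC (S : Sys k Φ Vt Z Q) (x : Q) : Prop := ∀ mu : Finset (Ch S.P), S.D.cls mu = x → Tch S (60 * k + 60) mu

end Pool.Agent.RPH
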