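import Pool.Agent.FGT.Defs
import Pool.Agent.RPH.Defs
import Pool.Agent.RPH.LFul

/-!
# RPH-LPce: pieces of an embedding (definitions)

`S` is an embedding with a leaf `K`, `D` the edges with an end in `K`, `M` any map. A corner of `M` is *allowed* if both its
flags are over `D`. `M0` is a map which has the other corners of `M`, and has the corners of `S` between darts of `D` both
corners of which (in `M`) are allowed. The corners of `M0` at `v` are numbered from the base flag `b v`, and the last of them is
allowed (if any is). The allowed corners at `v` are numbered `0, ..., na v - 1`; `al v j` is the number (among all corners) of the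
allowed corner `j`. The block `j` at `v` consists of the darts between the allowed corners `j - 1` and `j`: these are the darts
`fs v j, ..., al v j`. Its last flag is `Rf v j`, its first flag is `Lf v j`.
-/

set_option autoImplicit false

open Finset
open scoped Classical

namespace Pool.Agent.RPH

open Pool.Agent.EPH Pool.Agent.BEO
open Pool.Agent.Helper35.OG hiding F2 dg

variable {V : Type} {G : SimpleGraph V}

/-- the corner of `p` is a corner inside `D` -/
def AF (D : Finset G.edgeSet) (M : GMap G) (p : Flag G) : Prop := ed p ∈ D ∧ ed (M.nxt p) ∈ D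

/-- both corners at the dart of `p` are corners inside `D` -/
def Un (D : Finset G.edgeSet) (M : GMap G) (p : Flag G) : Prop := AF D M p ∧ AF D M (side p)

/-- the corner of `S` at `p` is between darts all corners of which are inside `D` -/
def KS (S M : GMap G) (D : Finset G.edgeSet) (p : Flag G) : Prop := Un D M p ∧ Un D M (S.nxt p)

theorem AF_nxt (D : Finset G.edgeSet) (M : GMap G) (p : Flag G) : AF D M (M.nxt p) ↔ AF D M p := by
  unfold AF
  rw [M.nxt_nxt]
  exact and_comm

theorem Un_side (D : Finset G.edgeSet) (M : GMap G) (p : Flag G) : Un D M (side p) ↔ Un D M p := by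
  unfold Un
  rw [side_side]
  exact and_comm

theorem KS_nxt (S M : GMap G) (D : Finset G.edgeSet) (p : Flag G) : KS S M D (S.nxt p) ↔ KS S M D p := by
  unfold KS
  rw [S.nxt_nxt]
  exact and_comm

/-- if `M0` has the corners of `M` which are not inside `D`, it has the same flags at the corners inside `D` -/
theorem AF_keep (D : Finset G.edgeSet) (M M0 : GMap G) (h : ∀ p, ¬ AF D M p → M0.nxt p = M.nxt p) (p : Flag G) :
    AF D M0 p ↔ AF D M p := by
  constructor
  · intro h1
    by_contra h2
    have h3 := h p h2
    unfold AF at h1 h2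
    rw [h3] at h1
    exact h2 h1
  · intro h1
    by_contra h2
    have h3 : ed (M0.nxt p) ∉ D := fun h4 => h2 ⟨h1.1, h4⟩
    have h4 : ¬ AF D M (M0.nxt p) := fun h5 => h3 h5.1
    have h5 := h _ h4
    rw [M0.nxt_nxt] at h5
    have h6 : M.nxt p = M0.nxt p := by
      rw [h5, M.nxt_nxt, ← h5]
    exact h3 (h6 ▸ h1.2)

/-- A piece of an embedding with a map. -/
structure Pce [Fintype V] (G : SimpleGraph V) where
  /-- the embedding -/
  S : GMap G
  /-- the map -/
  M : GMap G
  /-- the base map -/
  M0 : GMap G
  /-- the vertices of the leaf -/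
  K : Finset V
  /-- bad corners -/
  Q : Finset (Flag G)
  /-- base flags -/
  b : V → Flag G
  /-- bound -/
  c : ℕ
  lf : FGT.Leaf S K Q c
  hb : IsBase b
  keep : ∀ p, ¬ AF (FGT.rk K) M p → M0.nxt p = M.nxt p
  agree : ∀ p, KS S M (FGT.rk K) p → M0.nxt p = S.nxt p
  wrap : ∀ v, (∃ p : Flag G, p.1.fst = v ∧ AF (FGT.rk K) M p) → AF (FGT.rk K) M (side (b v))

namespace Pce

variable [Fintype V] (X : Pce G)

/-- the edges of the piece -/
noncomputable def D : Finset G.edgeSet := FGT.rk X.K

/-- allowed corners -/
def af (p : Flag G) : Prop := AF X.D X.M0 p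

/-- good corners: they are corners of both maps and not bad -/
def gc (p : Flag G) : Prop := KS X.S X.M X.D p ∧ p ∉ X.Q

/-- the corner `i` at `v` is allowed -/
def ok (v : V) (i : ℕ) : Prop := X.af (cf X.M0 X.b v i)

/-- the number of the allowed corners at `v` -/
noncomputable def na (v : V) : ℕ := Nat.count (X.ok v) (nb G v).card

/-- the number of the `j`-th allowed corner at `v` -/
noncomputable def al (v : V) (j : ℕ) : ℕ := Nat.nth (fun i => i < (nb G v).card ∧ X.ok v i) j

/-- the first dart of the block `j` at `v` -/
noncomputable def fs (v : V) (j : ℕ) : ℕ := if j = 0 then 0 else X.al v (j - 1) + 1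

/-- the last flag of the block `j` at `v`, in the allowed corner `j` -/
noncomputable def Rf (v : V) (j : ℕ) : Flag G := cf X.M0 X.b v (X.al v j)

/-- the first flag of the block `j` at `v`, in the allowed corner `j - 1` -/
noncomputable def Lf (v : V) (j : ℕ) : Flag G := side (cf X.M0 X.b v (X.fs v j))

/-- the face of an allowed corner: the face of `S` for good corners, and a face of its own otherwise -/
noncomputable def fcs (p : Flag G) : X.S.Face ⊕ Flag G := if X.gc p then Sum.inl (X.S.face p) else Sum.inr p

/-- a face of `S` all corners of which are good -/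
def cpl (F : X.S.Face) : Prop := ∀ p, X.S.face p = F → X.gc p

/-- a flag of a face -/
noncomputable def rep (F : X.S.Face) : Flag G := Classical.choose (Quot.exists_rep F)

/-- the face of `M0` -/
noncomputable def mf (F : X.S.Face) : X.M0.Face := X.M0.face (X.rep F)

/-- exceptional faces -/
def isB : X.S.Face ⊕ Flag G → Prop :=
  Sum.elim (fun F => (∃ p, X.S.face p = F ∧ X.gc p) ∧ ∃ p, X.S.face p = F ∧ ¬ X.gc p) (fun p => X.af p ∧ ¬ X.gc p)

/-- the exceptional faces -/
noncomputable def B : Finset (X.S.Face ⊕ Flag G) := univ.filter X.isB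

theorem rep_eq (F : X.S.Face) : X.S.face (X.rep F) = F := Classical.choose_spec (Quot.exists_rep F)

theorem af_iff (p : Flag G) : X.af p ↔ AF X.D X.M p := AF_keep X.D X.M X.M0 X.keep p

theorem af_nxt (p : Flag G) : X.af (X.M0.nxt p) ↔ X.af p := AF_nxt X.D X.M0 p

theorem gc_nxt (p : Flag G) : X.gc (X.S.nxt p) ↔ X.gc p := by
  unfold gc
  rw [KS_nxt]
  refine and_congr_right fun _ => not_congr ⟨fun h => ?_, fun h => X.lf.qn p h⟩
  have h1 := X.lf.qn _ h
  rwa [X.S.nxt_nxt] at h1

theorem gc_eq {p : Flag G} (h : X.gc p) : X.M0.nxt p = X.S.nxt p := X.agree p h.1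

theorem gc_af {p : Flag G} (h : X.gc p) : X.af p := (X.af_iff p).2 h.1.1.1

theorem gc_af_side {p : Flag G} (h : X.gc p) : X.af (side p) := (X.af_iff _).2 h.1.1.2

end Pce

end Pool.Agent.RPH
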