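import Pool.Agent.EPH.LMk
import Pool.Agent.RPH.LPce

/-!
# RPH-LBase: maps given by lists of flags; the base map

PLAN. `exists_lst`: choose base flags `b v` (from `hd`, `choose`). Every flag `q` at `v` is `cf S b v x` or `side (cf S b v x)` for
exactly one `x < d v := (nb G v).card` (`cf_cover`, `cf_inj`, `cf_ne_side`, `EPH/LRot.lean`). So for `x < d v` exactly one of
`cf S b v x`, `side (cf S b v x)` is in `L v` (`h2`, `h4`); let `sg v x` be true if it is `side (cf S b v x)`, so that `outF S b sg v x ∈ L v`,
and let `pos v x := (L v).idxOf (outF S b sg v x)`. The length of `L v` is `d v` (`x ↦ outF v x` is a bijection of `range (d v)` with the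
members of `L v`, which has no duplicates). `PS G pos` (`EPH/LDef.lean`), and `exists_mk` (`EPH/LMk.lean`) gives `T` with
`T.nxt (outF v x) = side (outF v y)` if `pos v y = (pos v x + 1) % d v`; for the index `i` take `x, y` with `pos v x = i`,
`pos v y = (i + 1) % d v`.

`exists_m0`: for every `v` choose a flag `b1 v` at `v` such that the last flag `cf M b1 v (d - 1)` is `Un D M` if some flag at `v` is `Un D M`
(if `p` at `v` is `Un`, take `b1 v := rot M p`: then `cf M b1 v (d - 1) = (rot M)^[d] p = p` by `rot_orbit`), and a flag `b2 v` at `v` such that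
`cf S b2 v (d - 1)` is not `Un D M` if some flag at `v` is not. Let
`L v := ((List.range (d v)).map (cf M b1 v)).filter (¬ Un D M ·) ++ ((List.range (d v)).map (cf S b2 v)).filter (Un D M ·)`. The hypotheses of
`exists_lst` hold as `Un` is invariant under `side` (`Un_side`) and by `cf_cover`, `cf_inj`, `cf_ne_side`. Let `M0` be the map.
(1) `¬ AF D M p`: one of `p`, `M.nxt p` is some `x := cf M b1 v i`, `i < d`, the other is `side y`, `y := cf M b1 v (i + 1)` (`nxt_cf`; `cf_cover`,
`nxt_side_cf`, `cf_period`); as `x` and `side y` are not `AF` (`AF_nxt`), `x` and `y` are not `Un`, so `i ≠ d - 1` or there are no `Un` flags at `v`.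
If `i < d - 1` then `x` and `y` are consecutive members of the filtered list, so `M0.nxt x = side y`. If `i = d - 1`, `L v` is the list of all
`cf M b1 v i`, and `y = cf M b1 v 0` is its first member. In both cases `M0.nxt x = side y = M.nxt x`, and `M0.nxt (side y) = x` by `nxt_nxt`.
(2) `KS S M D p`: in the same way with the second list: `x := cf S b2 v i` and `y := cf S b2 v (i + 1)` are `Un`. A useful list lemma: if
`l = l1 ++ [x, y] ++ l2` and `P x`, `P y` then `l.filter P = l1.filter P ++ [x, y] ++ l2.filter P`.
-/

set_option autoImplicit false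

open Finset
open scoped Classical

namespace Pool.Agent.RPH

open Pool.Agent.EPH Pool.Agent.BEO
open Pool.Agent.Helper35.OG hiding F2 dg

variable {V : Type} {G : SimpleGraph V} [Fintype V]

private theorem outF_at (S : GMap G) {b : V → Flag G} (hb : IsBase b) (sg : V → ℕ → Bool) (v : V) (q : Flag G)
    (hq : q.1.fst = v) :
    ∃ x, x < (nb G v).card ∧ (q = outF S b sg v x ∨ q = side (outF S b sg v x)) := by
  obtain ⟨x, hx, h⟩ := cf_cover S hb v q hq
  refine ⟨x, hx, ?_⟩
  unfold outF
  split_ifs
  · rw [side_side]
    exact h.symm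
  · exact h

private theorem outF_inj' (S : GMap G) {b : V → Flag G} (hb : IsBase b) (sg : V → ℕ → Bool) (v : V) {x y : ℕ}
    (hx : x < (nb G v).card) (hy : y < (nb G v).card) (h : outF S b sg v x = outF S b sg v y) : x = y := by
  unfold outF at h
  split_ifs at h
  · have h2 := congrArg side h
    rw [side_side, side_side] at h2
    exact cf_inj S hb v hx hy h2
  · exact (cf_ne_side S b v y x h.symm).elim
  · exact (cf_ne_side S b v x y h).elim
  · exact cf_inj S hb v hx hy h

/-- the map given by lists of flags at the vertices -/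
theorem exists_lst (S : GMap G) (hd : ∀ v : V, ∃ p : Flag G, p.1.fst = v) (L : V → List (Flag G))
    (h1 : ∀ v, ∀ p ∈ L v, p.1.fst = v) (h2 : ∀ p : Flag G, p ∈ L p.1.fst ∨ side p ∈ L p.1.fst)
    (h3 : ∀ v, (L v).Nodup) (h4 : ∀ v, ∀ p ∈ L v, side p ∉ L v) :
    ∃ T : GMap G, ∀ v i (hi : i < (L v).length) (hj : (i + 1) % (L v).length < (L v).length),
      T.nxt (L v)[i] = side (L v)[(i + 1) % (L v).length] := by
  choose b hb using hd
  have hb' : IsBase b := hb
  let sg : V → ℕ → Bool := fun v x => decide (side (cf S b v x) ∈ L v)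
  have hm : ∀ v x, outF S b sg v x ∈ L v := by
    intro v x
    have h5 := h2 (cf S b v x)
    rw [cf_fst S hb'] at h5
    by_cases h6 : side (cf S b v x) ∈ L v
    · have : sg v x = true := by
        show decide (side (cf S b v x) ∈ L v) = true
        simp [h6]
      unfold outF
      rw [if_pos this]
      exact h6
    · have : ¬ sg v x = true := by
        show ¬ decide (side (cf S b v x) ∈ L v) = true
        simp [h6]
      unfold outF
      rw [if_neg this]
      rcases h5 with h5 | h5
      · exact h5
      · exact absurd h5 h6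
  have hsurj : ∀ v, ∀ q ∈ L v, ∃ x, x < (nb G v).card ∧ outF S b sg v x = q := by
    intro v q hq
    obtain ⟨x, hx, h | h⟩ := outF_at S hb' sg v q (h1 v q hq)
    · exact ⟨x, hx, h.symm⟩
    · exfalso
      apply h4 v q hq
      rw [h, side_side]
      exact hm v x
  have hlen : ∀ v, (L v).length = (nb G v).card := by
    intro v
    rw [← List.toFinset_card_of_nodup (h3 v)]
    symm
    rw [← card_range (nb G v).card]
    apply Finset.card_bij (fun x _ => outF S b sg v x)
    · intro x _
      exact List.mem_toFinset.2 (hm v x)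
    · intro x hx y hy h
      exact outF_inj' S hb' sg v (mem_range.1 hx) (mem_range.1 hy) h
    · intro q hq
      obtain ⟨x, hx, h⟩ := hsurj v q (List.mem_toFinset.1 hq)
      exact ⟨x, mem_range.2 hx, h⟩
  let pos : V → ℕ → ℕ := fun v x => (L v).idxOf (outF S b sg v x)
  have hpl : ∀ v x, pos v x < (L v).length := fun v x => List.idxOf_lt_length_of_mem (hm v x)
  have hpe : ∀ v x, (L v)[pos v x]'(hpl v x) = outF S b sg v x := fun v x => List.getElem_idxOf (hpl v x)
  have hps : PS G pos := by
    refine ⟨fun v x _ => ?_, fun v x y hx hy h => ?_⟩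
    · rw [← hlen v]
      exact hpl v x
    · apply outF_inj' S hb' sg v hx hy
      rw [← hpe v x, ← hpe v y]
      congr 1
  obtain ⟨T, hT⟩ := exists_mk S b hb' pos hps sg
  refine ⟨T, fun v i hi hj => ?_⟩
  obtain ⟨x, hx, hx'⟩ := hsurj v (L v)[i] (List.getElem_mem hi)
  obtain ⟨y, hy, hy'⟩ := hsurj v (L v)[(i + 1) % (L v).length] (List.getElem_mem hj)
  have e1 : pos v x = i := by
    show (L v).idxOf (outF S b sg v x) = i
    rw [hx']
    exact (h3 v).idxOf_getElem i hi
  have e2 : pos v y = (i + 1) % (L v).length := by
    show (L v).idxOf (outF S b sg v y) = (i + 1) % (L v).length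
    rw [hy']
    exact (h3 v).idxOf_getElem _ hj
  rw [← hx', ← hy']
  apply hT v x y hx hy
  rw [e1, e2, hlen v]

private theorem lst_step {T : GMap G} {L : List (Flag G)}
    (hT : ∀ i (hi : i < L.length) (hj : (i + 1) % L.length < L.length),
      T.nxt L[i] = side L[(i + 1) % L.length])
    {l1 l2 : List (Flag G)} {x y : Flag G} (h : L = l1 ++ x :: y :: l2) : T.nxt x = side y := by
  subst h
  have e1 : (l1 ++ x :: y :: l2).length = l1.length + l2.length + 2 := by
    simp
    omega
  have hi : l1.length < (l1 ++ x :: y :: l2).length := by omega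
  have e2 : (l1.length + 1) % (l1 ++ x :: y :: l2).length = l1.length + 1 := Nat.mod_eq_of_lt (by omega)
  have hj : (l1.length + 1) % (l1 ++ x :: y :: l2).length < (l1 ++ x :: y :: l2).length := by omega
  have h1 := hT _ hi hj
  have h2 : (l1 ++ x :: y :: l2)[l1.length] = x := by simp
  have h3 : (l1 ++ x :: y :: l2)[(l1.length + 1) % (l1 ++ x :: y :: l2).length] = y := by
    have h4 : ∀ (k : ℕ) (hk : k < (l1 ++ x :: y :: l2).length), k = l1.length + 1 →
        (l1 ++ x :: y :: l2)[k] = y := by
      intro k hk hk'
      subst hk'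
      simp [List.getElem_append_right]
    exact h4 _ hj e2
  rw [h2, h3] at h1
  exact h1

private theorem lst_wrap {T : GMap G} {L : List (Flag G)}
    (hT : ∀ i (hi : i < L.length) (hj : (i + 1) % L.length < L.length),
      T.nxt L[i] = side L[(i + 1) % L.length])
    {d : ℕ} (f : ℕ → Flag G) (h : L = (List.range (d + 1)).map f) : T.nxt (f d) = side (f 0) := by
  subst h
  have e1 : ((List.range (d + 1)).map f).length = d + 1 := by simp
  have hi : d < ((List.range (d + 1)).map f).length := by omega
  have e2 : (d + 1) % ((List.range (d + 1)).map f).length = 0 := by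
    rw [e1]
    exact Nat.mod_self _
  have hj : (d + 1) % ((List.range (d + 1)).map f).length < ((List.range (d + 1)).map f).length := by omega
  have h1 := hT _ hi hj
  have h2 : ((List.range (d + 1)).map f)[d] = f d := by simp
  have h3 : ((List.range (d + 1)).map f)[(d + 1) % ((List.range (d + 1)).map f).length] = f 0 := by
    have h4 : ∀ (k : ℕ) (hk : k < ((List.range (d + 1)).map f).length), k = 0 →
        ((List.range (d + 1)).map f)[k] = f 0 := by
      intro k hk hk'
      subst hk'
      simp
    exact h4 _ hj e2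
  rw [h2, h3] at h1
  exact h1

private theorem range_split (f : ℕ → Flag G) {i d : ℕ} (h : i + 1 < d) :
    (List.range d).map f = ((List.range d).map f).take i ++ f i :: f (i + 1) :: ((List.range d).map f).drop (i + 2) := by
  have e1 : ((List.range d).map f).length = d := by simp
  conv_lhs => rw [← List.take_append_drop i ((List.range d).map f)]
  congr 1
  rw [List.drop_eq_getElem_cons (by omega : i < ((List.range d).map f).length),
    List.drop_eq_getElem_cons (by omega : i + 1 < ((List.range d).map f).length)]
  simp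

private theorem filter_split (f : ℕ → Flag G) (P : Flag G → Bool) {i d : ℕ} (h : i + 1 < d) (hx : P (f i) = true)
    (hy : P (f (i + 1)) = true) :
    ∃ l1 l2, ((List.range d).map f).filter P = l1 ++ f i :: f (i + 1) :: l2 := by
  rw [range_split f h, List.filter_append, List.filter_cons_of_pos hx, List.filter_cons_of_pos hy]
  exact ⟨_, _, rfl⟩

private theorem exists_bs (S : GMap G) (hd : ∀ v : V, ∃ p : Flag G, p.1.fst = v) (P : Flag G → Prop) :
    ∃ b : V → Flag G, IsBase b ∧ ∀ v, (∃ p : Flag G, p.1.fst = v ∧ P p) → P (cf S b v ((nb G v).card - 1)) := by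
  have h : ∀ v : V, ∃ p : Flag G, p.1.fst = v ∧ ((∃ p : Flag G, p.1.fst = v ∧ P p) →
      P ((rot S)^[(nb G v).card - 1] p)) := by
    intro v
    by_cases h1 : ∃ p : Flag G, p.1.fst = v ∧ P p
    · obtain ⟨p, hp1, hp2⟩ := h1
      refine ⟨rot S p, by rw [rot_fst, hp1], fun _ => ?_⟩
      have h2 := (rot_orbit S p).1
      rw [hp1] at h2
      have h3 : 0 < (nb G v).card := by
        have : IsBase (fun w => if w = v then p else Classical.choose (hd w)) := by
          intro w
          by_cases hw : w = v
          · simp only [if_pos hw]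
            rw [hp1, hw]
          · simp only [if_neg hw]
            exact Classical.choose_spec (hd w)
        exact deg_pos this v
      rw [← Function.iterate_succ_apply, Nat.succ_eq_add_one, Nat.sub_add_cancel h3, h2]
      exact hp2
    · obtain ⟨p, hp⟩ := hd v
      exact ⟨p, hp, fun h2 => absurd h2 h1⟩
  choose b hb1 hb2 using h
  exact ⟨b, hb1, hb2⟩

/-- the base map -/
theorem exists_m0 (S M : GMap G) (D : Finset G.edgeSet) (hd : ∀ v : V, ∃ p : Flag G, p.1.fst = v) :
    ∃ M0 : GMap G, (∀ p, ¬ AF D M p → M0.nxt p = M.nxt p) ∧ ∀ p, KS S M D p → M0.nxt p = S.nxt p := by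
  obtain ⟨b1, hb1, hc1⟩ := exists_bs M hd (fun p => Un D M p)
  obtain ⟨b2, hb2, hc2⟩ := exists_bs S hd (fun p => ¬ Un D M p)
  have mem1 : ∀ v (p : Flag G), p ∈ ((List.range (nb G v).card).map (cf M b1 v)).filter
      (fun p => decide (¬ Un D M p)) ↔ (∃ i, i < (nb G v).card ∧ cf M b1 v i = p) ∧ ¬ Un D M p := by
    intro v p
    rw [List.mem_filter, List.mem_map]
    simp only [List.mem_range, decide_eq_true_eq]
  have mem2 : ∀ v (p : Flag G), p ∈ ((List.range (nb G v).card).map (cf S b2 v)).filter
      (fun p => decide (Un D M p)) ↔ (∃ i, i < (nb G v).card ∧ cf S b2 v i = p) ∧ Un D M p := by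
    intro v p
    rw [List.mem_filter, List.mem_map]
    simp only [List.mem_range, decide_eq_true_eq]
  let L : V → List (Flag G) := fun v =>
    ((List.range (nb G v).card).map (cf M b1 v)).filter (fun p => decide (¬ Un D M p)) ++
      ((List.range (nb G v).card).map (cf S b2 v)).filter (fun p => decide (Un D M p))
  have hL : ∀ v, L v = ((List.range (nb G v).card).map (cf M b1 v)).filter (fun p => decide (¬ Un D M p)) ++
      ((List.range (nb G v).card).map (cf S b2 v)).filter (fun p => decide (Un D M p)) := fun v => rfl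
  have memL : ∀ v (p : Flag G), p ∈ L v ↔ ((∃ i, i < (nb G v).card ∧ cf M b1 v i = p) ∧ ¬ Un D M p) ∨
      ((∃ i, i < (nb G v).card ∧ cf S b2 v i = p) ∧ Un D M p) := by
    intro v p
    rw [hL, List.mem_append, mem1, mem2]
  obtain ⟨T, hT⟩ := exists_lst S hd L
    (by
      intro v p hp
      rcases (memL v p).1 hp with ⟨⟨i, _, rfl⟩, _⟩ | ⟨⟨i, _, rfl⟩, _⟩
      · exact cf_fst M hb1 v i
      · exact cf_fst S hb2 v i)
    (by
      intro p
      by_cases hu : Un D M p
      · obtain ⟨i, hi, h | h⟩ := cf_cover S hb2 p.1.fst p rfl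
        · exact Or.inl ((memL _ _).2 (Or.inr ⟨⟨i, hi, h.symm⟩, hu⟩))
        · refine Or.inr ((memL _ _).2 (Or.inr ⟨⟨i, hi, ?_⟩, (Un_side D M p).2 hu⟩))
          rw [h, side_side]
          congr 1
          rw [side_fst, cf_fst S hb2]
      · obtain ⟨i, hi, h | h⟩ := cf_cover M hb1 p.1.fst p rfl
        · exact Or.inl ((memL _ _).2 (Or.inl ⟨⟨i, hi, h.symm⟩, hu⟩))
        · refine Or.inr ((memL _ _).2 (Or.inl ⟨⟨i, hi, ?_⟩, fun h' => hu ((Un_side D M p).1 h')⟩))
          rw [h, side_side]
          congr 1
          rw [side_fst, cf_fst M hb1])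
    (by
      intro v
      rw [hL]
      refine List.Nodup.append ?_ ?_ ?_
      · apply List.Nodup.filter
        apply List.Nodup.map_on _ List.nodup_range
        intro i hi j hj h
        exact cf_inj M hb1 v (List.mem_range.1 hi) (List.mem_range.1 hj) h
      · apply List.Nodup.filter
        apply List.Nodup.map_on _ List.nodup_range
        intro i hi j hj h
        exact cf_inj S hb2 v (List.mem_range.1 hi) (List.mem_range.1 hj) h
      · intro p hp1 hp2
        exact ((mem1 v p).1 hp1).2 ((mem2 v p).1 hp2).2)
    (by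
      intro v p hp hq
      rcases (memL v p).1 hp with ⟨⟨i, _, hi⟩, hu⟩ | ⟨⟨i, _, hi⟩, hu⟩ <;>
        rcases (memL v _).1 hq with ⟨⟨j, _, hj⟩, hw⟩ | ⟨⟨j, _, hj⟩, hw⟩
      · exact cf_ne_side M b1 v j i (by rw [hj, hi])
      · exact hu ((Un_side D M p).1 hw)
      · exact hw ((Un_side D M p).2 hu)
      · exact cf_ne_side S b2 v j i (by rw [hj, hi]))
  have dpos : ∀ v, 0 < (nb G v).card := fun v => deg_pos hb1 v
  -- the corners of `M` which are not inside `D`
  have c1 : ∀ v i, i < (nb G v).card → ¬ AF D M (cf M b1 v i) →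
      T.nxt (cf M b1 v i) = side (cf M b1 v (i + 1)) := by
    intro v i hi ha
    have hx : ¬ Un D M (cf M b1 v i) := fun h => ha h.1
    have hy : ¬ Un D M (cf M b1 v (i + 1)) := by
      intro h
      apply ha
      rw [← AF_nxt, nxt_cf]
      exact h.2
    by_cases hlt : i + 1 < (nb G v).card
    · obtain ⟨l1, l2, h⟩ := filter_split (cf M b1 v) (fun p => decide (¬ Un D M p)) hlt (by simpa using hx)
        (by simpa using hy)
      apply lst_step (hT v) (l1 := l1)
        (l2 := l2 ++ ((List.range (nb G v).card).map (cf S b2 v)).filter (fun p => decide (Un D M p)))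
      rw [hL, h]
      simp
    · have hd' : i = (nb G v).card - 1 := by omega
      have hno : ∀ p : Flag G, p.1.fst = v → ¬ Un D M p := by
        intro p hp hu
        apply hx
        rw [hd']
        exact hc1 v ⟨p, hp, hu⟩
      have hLv : L v = (List.range (i + 1)).map (cf M b1 v) := by
        have e1 : ((List.range (nb G v).card).map (cf M b1 v)).filter (fun p => decide (¬ Un D M p)) =
            (List.range (nb G v).card).map (cf M b1 v) := by
          rw [List.filter_eq_self]
          intro p hp
          obtain ⟨j, _, rfl⟩ := List.mem_map.1 hp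
          simpa using hno _ (cf_fst M hb1 v j)
        have e2 : ((List.range (nb G v).card).map (cf S b2 v)).filter (fun p => decide (Un D M p)) = [] := by
          rw [List.filter_eq_nil_iff]
          intro p hp
          obtain ⟨j, _, rfl⟩ := List.mem_map.1 hp
          simpa using hno _ (cf_fst S hb2 v j)
        rw [hL, e1, e2, List.append_nil]
        congr 2
        omega
      have h5 := lst_wrap (hT v) (cf M b1 v) hLv
      rw [h5]
      congr 1
      have h6 := cf_period M hb1 v 0
      rw [← h6]
      congr 1
      omega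
  have c2 : ∀ v i, i < (nb G v).card → KS S M D (cf S b2 v i) →
      T.nxt (cf S b2 v i) = side (cf S b2 v (i + 1)) := by
    intro v i hi ha
    have hx : Un D M (cf S b2 v i) := ha.1
    have hy : Un D M (cf S b2 v (i + 1)) := by
      have := ha.2
      rw [nxt_cf, Un_side] at this
      exact this
    by_cases hlt : i + 1 < (nb G v).card
    · obtain ⟨l1, l2, h⟩ := filter_split (cf S b2 v) (fun p => decide (Un D M p)) hlt (by simpa using hx)
        (by simpa using hy)
      apply lst_step (hT v)
        (l1 := ((List.range (nb G v).card).map (cf M b1 v)).filter (fun p => decide (¬ Un D M p)) ++ l1) (l2 := l2)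
      rw [hL, h]
      simp
    · have hd' : i = (nb G v).card - 1 := by omega
      have hno : ∀ p : Flag G, p.1.fst = v → Un D M p := by
        intro p hp
        by_contra hu
        have := hc2 v ⟨p, hp, hu⟩
        rw [← hd'] at this
        exact this hx
      have hLv : L v = (List.range (i + 1)).map (cf S b2 v) := by
        have e1 : ((List.range (nb G v).card).map (cf S b2 v)).filter (fun p => decide (Un D M p)) =
            (List.range (nb G v).card).map (cf S b2 v) := by
          rw [List.filter_eq_self]
          intro p hp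
          obtain ⟨j, _, rfl⟩ := List.mem_map.1 hp
          simpa using hno _ (cf_fst S hb2 v j)
        have e2 : ((List.range (nb G v).card).map (cf M b1 v)).filter (fun p => decide (¬ Un D M p)) = [] := by
          rw [List.filter_eq_nil_iff]
          intro p hp
          obtain ⟨j, _, rfl⟩ := List.mem_map.1 hp
          simpa using hno _ (cf_fst M hb1 v j)
        rw [hL, e1, e2, List.nil_append]
        congr 2
        omega
      have h5 := lst_wrap (hT v) (cf S b2 v) hLv
      rw [h5]
      congr 1
      have h6 := cf_period S hb2 v 0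
      rw [← h6]
      congr 1
      omega
  -- a flag which is the other side of a numbered flag
  have up : ∀ (N : GMap G) (b : V → Flag G) (_ : IsBase b) (v : V) (i : ℕ), i < (nb G v).card →
      ∃ j, j < (nb G v).card ∧ cf N b v (j + 1) = cf N b v i := by
    intro N b hb v i hi
    rcases Nat.eq_zero_or_pos i with h0 | h0
    · refine ⟨(nb G v).card - 1, by omega, ?_⟩
      rw [h0, ← cf_period N hb v 0]
      congr 1
      omega
    · exact ⟨i - 1, by omega, by congr 1; omega⟩
  refine ⟨T, fun p hp => ?_, fun p hp => ?_⟩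
  · obtain ⟨i, hi, h | h⟩ := cf_cover M hb1 p.1.fst p rfl
    · rw [h] at hp
      have h1 := c1 _ i hi hp
      rw [← h] at h1
      rw [h1, ← nxt_cf, ← h]
    · obtain ⟨j, hj, hji⟩ := up M b1 hb1 _ i hi
      rw [← hji] at h
      have h2 : M.nxt p = cf M b1 p.1.fst j := by
        conv_lhs => rw [h]
        exact nxt_side_cf M b1 _ j
      have h3 : ¬ AF D M (cf M b1 p.1.fst j) := by
        rw [← h2, AF_nxt]
        exact hp
      have h4 := c1 _ j hj h3
      rw [h2, ← T.nxt_nxt (cf M b1 p.1.fst j), h4, ← h]
  · obtain ⟨i, hi, h | h⟩ := cf_cover S hb2 p.1.fst p rfl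
    · rw [h] at hp
      have h1 := c2 _ i hi hp
      rw [← h] at h1
      rw [h1, ← nxt_cf, ← h]
    · obtain ⟨j, hj, hji⟩ := up S b2 hb2 _ i hi
      rw [← hji] at h
      have h2 : S.nxt p = cf S b2 p.1.fst j := by
        conv_lhs => rw [h]
        exact nxt_side_cf S b2 _ j
      have h3 : KS S M D (cf S b2 p.1.fst j) := by
        rw [← h2, KS_nxt]
        exact hp
      have h4 := c2 _ j hj h3
      rw [h2, ← T.nxt_nxt (cf S b2 p.1.fst j), h4, ← h]

end Pool.Agent.RPH
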