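import Pool.Agent.RPH.AFit
import Pool.Agent.RPH.LBase

/-!
# RPH-AGss: there is a fitting guess
-/

set_option autoImplicit false

open Finset
open scoped Classical

namespace Pool.Agent.RPH

open Pool.Agent.EPH Pool.Agent.BEO
open Pool.Agent.Helper35.OG hiding F2 dg

section gen

variable {V : Type} [Fintype V] {G : SimpleGraph V}

private theorem gs_mix (D : Finset G.edgeSet) (M : GMap G) (p : Flag G) :
    p ∈ FGT.mix D M ↔ ed p ∈ D ∧ ed (M.nxt p) ∉ D := by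
  unfold FGT.mix
  rw [mem_filter]
  exact and_iff_right (mem_univ _)

/-- blocks with at least two darts -/
private theorem gs_big (X : Pce G) (v : V) (j : ℕ) (hj : j < X.na v) (hne : X.fs v j ≠ X.al v j) :
    cf X.M0 X.b v (X.fs v j) ∈ FGT.mix X.D X.M := by
  rw [gs_mix]
  have h1 : ed (X.Lf v j) ∈ X.D := (X.af_Lf hj).1
  have h2 : ed (cf X.M0 X.b v (X.fs v j)) ∈ X.D := h1
  refine ⟨h2, fun h3 => ?_⟩
  have h4 : X.ok v (X.fs v j) := (X.af_iff _).2 ⟨h2, h3⟩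
  have h5 : X.fs v j < X.al v j := lt_of_le_of_ne (X.fs_le hj) hne
  have h6 := (X.ct_iff hj (X.fs_lt hj)).2 ⟨le_rfl, X.fs_le hj⟩
  have h7 := (X.ct_iff hj (lt_of_le_of_lt (show X.fs v j + 1 ≤ X.al v j from h5) (X.al_lt hj))).2 ⟨by omega, h5⟩
  have h8 := X.ct_succ v (X.fs v j)
  rw [if_pos h4] at h8
  omega

private theorem gs_ng (X : Pce G) (B : ℕ) (hB : (FGT.mix X.D X.M).card ≤ B) :
    ∃ s : Finset (Flag G), (∀ p, p ∈ s ↔ X.af p ∧ ¬ X.gc p) ∧ s.card ≤ 4 * B + 2 * X.c := by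
  refine ⟨univ.filter fun p => X.af p ∧ ¬ X.gc p, fun p => ?_, ?_⟩
  · rw [mem_filter]
    exact and_iff_right (mem_univ _)
  · refine le_trans (card_le_card fun p hp => ?_) (X.card_nG B hB)
    obtain ⟨-, h1, h2⟩ := mem_filter.1 hp
    exact mem_filter.2 ⟨mem_univ _, h1.1, h2⟩

end gen

variable {n : ℕ} {G : SimpleGraph (Fin n)}

theorem mem_sbs {X : Type} [DecidableEq X] (l : List X) (m : ℕ) (L : List X) (h1 : L.length ≤ m) (h2 : ∀ x ∈ L, x ∈ l) :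
    L ∈ sbs l m := by
  unfold sbs
  rw [mem_cds]
  refine ⟨L.map fun x => [x], ?_, ?_, ?_⟩
  · rw [List.length_map]
    exact h1
  · intro w hw
    obtain ⟨x, hx, rfl⟩ := List.mem_map.1 hw
    exact List.mem_map.2 ⟨x, h2 x hx, rfl⟩
  · clear h1 h2
    induction L with
    | nil => rfl
    | cons x L ih =>
      rw [List.map_cons, List.flatten_cons, ← ih]
      rfl

private theorem mem_prs {X Y : Type} (l : List X) (m : List Y) (x : X × Y) (h1 : x.1 ∈ l) (h2 : x.2 ∈ m) :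
    x ∈ prs l m := by
  unfold prs
  exact List.mem_flatMap.2 ⟨x.1, h1, List.mem_map.2 ⟨x.2, h2, rfl⟩⟩

theorem mem_gss (k m : ℕ) (l : Inp) (g : Gs) (h1 : g.1.length ≤ m) (h2 : g.2.1.length ≤ m) (h3 : g.2.2.1.length ≤ m)
    (h4 : g.2.2.2.1.length ≤ m) (h5 : g.2.2.2.2.length = k) (a1 : ∀ x ∈ g.1, x ∈ fl l)
    (a2 : ∀ x ∈ g.2.1, x.1 ∈ fl l ∧ x.2 ∈ fl l) (a3 : ∀ x ∈ g.2.2.1, x.1 ∈ fl l ∧ x.2 ∈ fl l)
    (a4 : ∀ x ∈ g.2.2.2.1, x.1 ∈ fl l ∧ x.2 ∈ (fl l).map ek) (a5 : ∀ x ∈ g.2.2.2.2, x ∈ (fl l).map ek) :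
    g ∈ gss k m l := by
  unfold gss
  refine mem_prs _ _ _ (mem_sbs _ _ _ h1 a1) (mem_prs _ _ _ (mem_sbs _ _ _ h2 fun x hx => ?_)
    (mem_prs _ _ _ (mem_sbs _ _ _ h3 fun x hx => ?_) (mem_prs _ _ _ (mem_sbs _ _ _ h4 fun x hx => ?_) ?_)))
  · exact mem_prs _ _ _ (a2 x hx).1 (a2 x hx).2
  · exact mem_prs _ _ _ (a3 x hx).1 (a3 x hx).2
  · exact mem_prs _ _ _ (a4 x hx).1 (a4 x hx).2
  · exact (mem_tup _ _ _).2 ⟨h5, a5⟩

/-- the flags of the allowed corners at a vertex -/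
private theorem gs_afv {S M : GMap G} {D : Finset G.edgeSet} {l : Inp} (hl : Codes S l) {d : List Ec}
    (hd : FGT.DCodes D d) {gm : List Pt} (hm : ∀ y, y ∈ gm ↔ ∃ p ∈ FGT.mix D M, y = cod p) (g : Gs) (hg : g.1 = gm)
    (v : Fin n) (y : Pt) : y ∈ afv l d g v ↔ ∃ p : Flag G, AF D M p ∧ p.1.fst = v ∧ y = cod p := by
  unfold afv afl
  rw [List.mem_filter, List.mem_filter, mem_fl hl, hg]
  have hd' : ∀ p : Flag G, memb d (ek (cod p)) = true ↔ ed p ∈ D := by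
    intro p
    rw [memb_iff, ek_cod, hd]
    constructor
    · rintro ⟨e, he, h⟩
      rw [ec_inj h]
      exact he
    · intro h
      exact ⟨ed p, h, rfl⟩
  have hm' : ∀ p : Flag G, memb gm (cod p) = true ↔ p ∈ FGT.mix D M := by
    intro p
    rw [memb_iff, hm]
    constructor
    · rintro ⟨q, hq, h⟩
      rw [cod_inj h]
      exact hq
    · intro h
      exact ⟨p, h, rfl⟩
  have hx : ∀ p : Flag G, p ∈ FGT.mix D M ↔ ed p ∈ D ∧ ed (M.nxt p) ∉ D := gs_mix D M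
  have ha : ∀ p : Flag G, (memb d (ek (cod p)) && !memb gm (cod p)) = true ↔ AF D M p := by
    intro p
    rw [Bool.and_eq_true, Bool.not_eq_true', ← Bool.not_eq_true, hd', hm', hx]
    unfold AF
    constructor
    · rintro ⟨h1, h2⟩
      exact ⟨h1, by_contra fun h3 => h2 ⟨h1, h3⟩⟩
    · rintro ⟨h1, h2⟩
      exact ⟨h1, fun h3 => h3.2 h2⟩
  constructor
  · rintro ⟨⟨⟨p, rfl⟩, h2⟩, h3⟩
    refine ⟨p, (ha p).1 h2, ?_, rfl⟩
    have h4 : (p.1.fst : ℕ) = v := of_decide_eq_true h3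
    exact Fin.ext h4
  · rintro ⟨p, h1, h2, rfl⟩
    refine ⟨⟨⟨p, rfl⟩, (ha p).2 h1⟩, ?_⟩
    apply decide_eq_true
    show (p.1.fst : ℕ) = v
    rw [h2]

/-- the piece, with base flags fitting the lists of the algorithm -/
theorem exists_pce (hG : G.Connected) (hn : 2 ≤ n) (S M : GMap G) (K : Finset (Fin n)) (Q : Finset (Flag G)) (c : ℕ)
    (lf : FGT.Leaf S K Q c) (l : Inp) (hl : Codes S l) (d : List Ec) (hd : FGT.DCodes (FGT.rk (G := G) K) d) (gm : List Pt)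
    (hm : ∀ y, y ∈ gm ↔ ∃ p ∈ FGT.mix (FGT.rk K) M, y = cod p) :
    ∃ X : Pce G, X.S = S ∧ X.M = M ∧ X.K = K ∧ X.c = c ∧ ∀ (g : Gs), g.1 = gm → ∀ v : Fin n, 0 < X.na v →
      (afv l d g v).headD (0, (0, false)) = cod (side (X.b v)) := by
  have : Nontrivial (Fin n) := Fin.nontrivial_iff_two_le.2 hn
  have hfl : ∀ v : Fin n, ∃ p : Flag G, p.1.fst = v := fun v => exists_flag hG v
  obtain ⟨M0, hk, ha⟩ := exists_m0 S M (FGT.rk K) hfl
  have hb : ∀ v : Fin n, ∃ q : Flag G, q.1.fst = v ∧ ((∃ p : Flag G, p.1.fst = v ∧ AF (FGT.rk K) M p) →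
      AF (FGT.rk K) M (side q) ∧ ∀ (g : Gs), g.1 = gm → (afv l d g v).headD (0, (0, false)) = cod (side q)) := by
    intro v
    by_cases h : ∃ p : Flag G, p.1.fst = v ∧ AF (FGT.rk K) M p
    · obtain ⟨p, hp1, hp2⟩ := h
      have h1 : cod p ∈ afv l d (gm, ([], ([], ([], [])))) v :=
        (gs_afv hl hd hm (gm, ([], ([], ([], [])))) rfl v _).2 ⟨p, hp2, hp1, rfl⟩
      have h2 : (afv l d (gm, ([], ([], ([], [])))) v).headD (0, (0, false)) ∈ afv l d (gm, ([], ([], ([], [])))) v := by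
        cases hh : afv l d (gm, ([], ([], ([], [])))) v with
        | nil =>
          rw [hh] at h1
          exact absurd h1 List.not_mem_nil
        | cons x t =>
          rw [List.headD_cons]
          exact List.mem_cons_self
      obtain ⟨q, hq1, hq2, hq3⟩ := (gs_afv hl hd hm (gm, ([], ([], ([], [])))) rfl v _).1 h2
      refine ⟨side q, hq2, fun _ => ?_⟩
      rw [side_side]
      refine ⟨hq1, fun g hg => ?_⟩
      rw [← hq3]
      unfold afv afl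
      rw [hg]
    · obtain ⟨p, hp⟩ := hfl v
      exact ⟨p, hp, fun h' => absurd h' h⟩
  choose b hb1 hb2 using hb
  obtain ⟨X, hXS, hXM, hXK, hXc, hXb⟩ : ∃ X : Pce G, X.S = S ∧ X.M = M ∧ X.K = K ∧ X.c = c ∧ X.b = b :=
    ⟨{ S := S, M := M, M0 := M0, K := K, Q := Q, b := b, c := c, lf := lf, hb := hb1, keep := hk, agree := ha,
       wrap := fun v hv => (hb2 v hv).1 }, rfl, rfl, rfl, rfl, rfl⟩
  refine ⟨X, hXS, hXM, hXK, hXc, fun g hg v hv => ?_⟩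
  rw [hXb]
  refine (hb2 v ⟨X.Rf v 0, X.Rf_fst v 0, ?_⟩).2 g hg
  have h1 := (X.af_iff _).1 (X.af_Rf hv)
  unfold Pce.D at h1
  rw [hXM, hXK] at h1
  exact h1

theorem exists_guess (X : Pce G) (l : Inp) (hl : Codes X.S l) (d : List Ec) (hd : FGT.DCodes X.D d) (gm : List Pt)
    (hm : ∀ y, y ∈ gm ↔ ∃ p ∈ FGT.mix X.D X.M, y = cod p) (hml : gm.length ≤ (FGT.mix X.D X.M).card)
    (hbase : ∀ (g : Gs), g.1 = gm → ∀ v : Fin n, 0 < X.na v →
      (afv l d g v).headD (0, (0, false)) = cod (side (X.b v)))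
    (B : ℕ) (hB : (FGT.mix X.D X.M).card ≤ B) (k : ℕ) (es : List G.edgeSet) (hes : es.length = k) (m : ℕ)
    (hm1 : 4 * B + 2 * X.c ≤ m) (hm2 : B * k ≤ m) : ∃ g : Gs, Fit X l d g ∧ g.2.2.2.2 = es.map ec ∧ g ∈ gss k m l := by
  obtain ⟨N2, hN2⟩ : ∃ N2 : Finset (Fin n × ℕ), ∀ x, x ∈ N2 ↔ x.2 < X.na x.1 ∧ X.fs x.1 x.2 ≠ X.al x.1 x.2 := by
    refine ⟨(univ ×ˢ range (∑ v, X.na v)).filter fun x => x.2 < X.na x.1 ∧ X.fs x.1 x.2 ≠ X.al x.1 x.2, fun x => ?_⟩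
    rw [mem_filter, mem_product, mem_range]
    refine ⟨fun h => h.2, fun h => ⟨⟨mem_univ _, ?_⟩, h⟩⟩
    exact lt_of_lt_of_le h.1 (single_le_sum (f := fun v => X.na v) (fun _ _ => Nat.zero_le _) (mem_univ x.1))
  have hN2c : N2.card ≤ B := by
    refine le_trans ?_ hB
    refine card_le_card_of_injOn (fun x => cf X.M0 X.b x.1 (X.fs x.1 x.2)) (fun x hx => ?_) ?_
    · have h1 := (hN2 x).1 hx
      exact gs_big X x.1 x.2 h1.1 h1.2
    · rintro ⟨v, j⟩ hx ⟨v', j'⟩ hx' h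
      have h1 := (hN2 _).1 hx
      have h1' := (hN2 _).1 hx'
      have h2 : cf X.M0 X.b v (X.fs v j) = cf X.M0 X.b v' (X.fs v' j') := h
      have h3 : v = v' := by
        rw [← cf_fst X.M0 X.hb v (X.fs v j), h2, cf_fst X.M0 X.hb]
      subst h3
      have h4 : X.fs v j = X.fs v j' := cf_inj X.M0 X.hb v (X.fs_lt h1.1) (X.fs_lt h1'.1) h2
      have h5 : X.ct v (X.fs v j) = j := (X.ct_iff h1.1 (X.fs_lt h1.1)).2 ⟨le_rfl, X.fs_le h1.1⟩
      have h6 : X.ct v (X.fs v j') = j' := (X.ct_iff h1'.1 (X.fs_lt h1'.1)).2 ⟨le_rfl, X.fs_le h1'.1⟩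
      rw [h4, h6] at h5
      rw [h5]
  obtain ⟨ng, hng, hngc⟩ := gs_ng X B hB
  obtain ⟨g1, hg1⟩ : ∃ g1 : List (Pt × Pt), g1 = ng.toList.map fun p => (cod p, cod (X.M0.nxt p)) := ⟨_, rfl⟩
  obtain ⟨g2, hg2⟩ : ∃ g2 : List (Pt × Pt), g2 = N2.toList.flatMap fun x =>
    [(cod (X.Lf x.1 x.2), cod (X.Rf x.1 x.2)), (cod (X.Rf x.1 x.2), cod (X.Lf x.1 x.2))] := ⟨_, rfl⟩
  obtain ⟨g3, hg3⟩ : ∃ g3 : List (Pt × Ec), g3 = N2.toList.flatMap fun x =>
    (es.filter fun e => decide (wtb X (pc (zl l (ec e))) x.1 x.2 = 1)).map fun e => (cod (X.Rf x.1 x.2), ec e) := ⟨_, rfl⟩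
  have mg1 : ∀ y, y ∈ g1 ↔ ∃ p, X.af p ∧ ¬ X.gc p ∧ y = (cod p, cod (X.M0.nxt p)) := by
    intro y
    rw [hg1, List.mem_map]
    constructor
    · rintro ⟨p, hp, rfl⟩
      rw [mem_toList, hng] at hp
      exact ⟨p, hp.1, hp.2, rfl⟩
    · rintro ⟨p, h1, h2, rfl⟩
      exact ⟨p, mem_toList.2 ((hng p).2 ⟨h1, h2⟩), rfl⟩
  have mg2 : ∀ y, y ∈ g2 ↔ ∃ v j, j < X.na v ∧ X.fs v j ≠ X.al v j ∧
      (y = (cod (X.Lf v j), cod (X.Rf v j)) ∨ y = (cod (X.Rf v j), cod (X.Lf v j))) := by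
    intro y
    rw [hg2, List.mem_flatMap]
    constructor
    · rintro ⟨⟨v, j⟩, h1, h2⟩
      have h3 := (hN2 _).1 (mem_toList.1 h1)
      refine ⟨v, j, h3.1, h3.2, ?_⟩
      rw [List.mem_cons, List.mem_singleton] at h2
      exact h2
    · rintro ⟨v, j, h1, h2, h3⟩
      refine ⟨(v, j), mem_toList.2 ((hN2 _).2 ⟨h1, h2⟩), ?_⟩
      rw [List.mem_cons, List.mem_singleton]
      exact h3
  have mg3 : ∀ y, y ∈ g3 ↔ ∃ v j, j < X.na v ∧ X.fs v j ≠ X.al v j ∧ ∃ e : G.edgeSet, ec e ∈ es.map ec ∧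
      wtb X (pc (zl l (ec e))) v j = 1 ∧ y = (cod (X.Rf v j), ec e) := by
    intro y
    rw [hg3, List.mem_flatMap]
    constructor
    · rintro ⟨⟨v, j⟩, h1, h2⟩
      have h3 := (hN2 _).1 (mem_toList.1 h1)
      obtain ⟨e, he, rfl⟩ := List.mem_map.1 h2
      obtain ⟨he1, he2⟩ := List.mem_filter.1 he
      exact ⟨v, j, h3.1, h3.2, e, List.mem_map.2 ⟨e, he1, rfl⟩, of_decide_eq_true he2, rfl⟩
    · rintro ⟨v, j, h1, h2, e, he, hw, rfl⟩
      refine ⟨(v, j), mem_toList.2 ((hN2 _).2 ⟨h1, h2⟩), List.mem_map.2 ⟨e, List.mem_filter.2 ⟨?_, decide_eq_true hw⟩, rfl⟩⟩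
      obtain ⟨e', he', hee⟩ := List.mem_map.1 he
      rw [← ec_inj hee]
      exact he'
  have l1 : g1.length ≤ m := by
    rw [hg1, List.length_map, length_toList]
    exact hngc.trans hm1
  have l2 : g2.length ≤ m := by
    have h1 : g2.length = N2.card * 2 := by
      rw [hg2, List.length_flatMap, ← length_toList N2]
      simp
    omega
  have l3 : g3.length ≤ m := by
    refine le_trans ?_ ((Nat.mul_le_mul_right k hN2c).trans hm2)
    rw [hg3, List.length_flatMap, ← length_toList N2]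
    refine (List.sum_le_card_nsmul _ k fun y hy => ?_).trans (le_of_eq ?_)
    · obtain ⟨x, -, rfl⟩ := List.mem_map.1 hy
      rw [List.length_map, ← hes]
      exact List.length_filter_le _ _
    · rw [List.length_map, smul_eq_mul]
  have hec : ∀ e : G.edgeSet, ec e ∈ (fl l).map ek := fun e =>
    List.mem_map.2 ⟨cod (rp e), (mem_fl hl _).2 ⟨_, rfl⟩, rfl⟩
  have hfc : ∀ p : Flag G, cod p ∈ fl l := fun p => (mem_fl hl _).2 ⟨p, rfl⟩
  refine ⟨(gm, (g1, (g2, (g3, es.map ec)))), ⟨hl, hd, hm, mg1, mg2, mg3, ?_, hbase _ rfl⟩, rfl, ?_⟩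
  · intro y hy
    obtain ⟨e, -, he⟩ := List.mem_map.1 hy
    exact ⟨e, he.symm⟩
  · refine mem_gss k m l _ ?_ l1 l2 l3 ?_ ?_ ?_ ?_ ?_ ?_
    · show gm.length ≤ m
      omega
    · show (es.map ec).length = k
      rw [List.length_map, hes]
    · intro x hx
      obtain ⟨p, -, rfl⟩ := (hm x).1 hx
      exact hfc p
    · intro x hx
      obtain ⟨p, -, -, rfl⟩ := (mg1 x).1 hx
      exact ⟨hfc _, hfc _⟩
    · intro x hx
      obtain ⟨v, j, -, -, rfl | rfl⟩ := (mg2 x).1 hx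
      · exact ⟨hfc _, hfc _⟩
      · exact ⟨hfc _, hfc _⟩
    · intro x hx
      obtain ⟨v, j, -, -, e, -, -, rfl⟩ := (mg3 x).1 hx
      exact ⟨hfc _, hec _⟩
    · intro x hx
      obtain ⟨e, -, rfl⟩ := List.mem_map.1 hx
      exact hec e

end Pool.Agent.RPH
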