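import Pool.Agent.RPH.ARot

/-!
# RPH-AInv: positions and signs computed from the codes

As `psc_ccd` in `Pool/Agent/EPH/AInv.lean`, with `rlg_eq` instead of `rlc_eq`.
-/

set_option autoImplicit false

open Finset
open scoped Classical

namespace Pool.Agent.RPH

open Pool.Agent.EPH Pool.Agent.BEO
open Pool.Agent.Helper35.OG hiding F2 dg

variable {n : ℕ} {G : SimpleGraph (Fin n)}

variable {X : Pce G} {l : Inp} {d : List Ec} {g : Gs}

private theorem ovr_symm {Φ Vt : Type} {P : Cor Φ Vt} (lam : Finset (Ch P)) (v : Vt) (l m : ℕ) :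
    ovr lam v l m = ovr lam v m l := by
  unfold ovr
  congr 1
  refine filter_congr fun e _ => ?_
  tauto

theorem psg_ccd (h : Fit X l d g) (w : List (Ch X.corP)) (v : Fin n) (i : ℕ) :
    psg l d g (w.map ccd) v i = posN (oddE w) v i := by
  have hd : X.corP.d v = X.na v := rfl
  unfold psg posN
  rw [rlg_eq h v, List.filter_map, List.length_map, hd]
  rw [← List.toFinset_card_of_nodup (List.Nodup.filter _ List.nodup_range)]
  congr 1
  ext m
  rw [List.mem_toFinset, List.mem_filter, List.mem_range, mem_filter, mem_range]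
  refine and_congr_right fun _ => ?_
  simp only [Function.comp_apply, Bool.and_eq_true, Bool.not_eq_true', decide_eq_false_iff_not]
  refine and_congr_right fun _ => ?_
  rw [ivc_ccd, ovr_symm]
  unfold bef
  by_cases h1 : m < i
  · have h2 : m + 1 ≤ i := h1
    by_cases h3 : Odd (ovr (oddE w) v i m) <;> simp [h1, h2, h3]
  · have h2 : ¬ m + 1 ≤ i := h1
    by_cases h3 : Odd (ovr (oddE w) v i m) <;> simp [h1, h2, h3]

end Pool.Agent.RPH
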