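import Pool.Agent.RPH.LTopR
import Pool.Agent.RPH.AClsR
import Pool.Agent.RPH.AEnt
import Pool.Agent.RPH.AGss
import Pool.Agent.RPH.AFp

/-!
# RPH-AMain: the candidates for the part of a new map in a leaf (orientable maps)
-/

set_option autoImplicit false

open Finset
open scoped Classical

namespace Pool.Agent.RPH

open Pool.Agent.EPH Pool.Agent.BEO
open Pool.Agent.Helper35.OG hiding F2 dg
open N487b59b3 Pool.Agent.Helper22

variable {n : ℕ} {G : SimpleGraph (Fin n)}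

/-- a map with the corners of `M` which are not inside `D` has the same part outside `D` -/
theorem part_keep {V : Type} [Fintype V] {G : SimpleGraph V} (D : Finset G.edgeSet) (M M' : GMap G)
    (h : ∀ p, ¬ AF D M p → M'.nxt p = M.nxt p) (p : Flag G) : FGT.part Dᶜ M' p = FGT.part Dᶜ M p := by
  unfold FGT.part
  by_cases h1 : ed p ∈ Dᶜ
  · have h2 : ¬ AF D M p := fun h3 => (mem_compl.1 h1) h3.1
    rw [h p h2]
  · rw [if_neg fun h2 => h1 h2.1, if_neg fun h2 => h1 h2.1]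

/-- the leaf theorem for orientable maps -/
theorem leafO (k c B : ℕ) : ∃ cand : Inp → List Ec → List FGT.Ent, (FP fun p : Inp × List Ec => cand p.1 p.2) ∧
    ∀ (n : ℕ) (G : SimpleGraph (Fin n)), G.Connected → 2 ≤ n → ∀ S : GMap G, S.eg ≤ k → ∀ l : Inp, Codes S l →
      ∀ (K : Finset (Fin n)) (Q : Finset (Flag G)), FGT.Leaf S K Q c → ∀ d : List Ec,
      FGT.DCodes (FGT.rk (G := G) K) d → ∀ M : GMap G, M.Orientable → (FGT.mix (FGT.rk K) M).card ≤ B →
      ∃ M' : GMap G, (∀ p, ¬ AF (FGT.rk K) M p → M'.nxt p = M.nxt p) ∧ M'.Orientable ∧ M'.eg ≤ M.eg ∧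
        ∃ x ∈ cand l d, FGT.ECodes (FGT.part (FGT.rk K) M') x := by
  obtain ⟨T, hT⟩ := exists_new (k + 8 * B + 4 * c)
  refine ⟨cndO (k + 8 * B + 4 * c) (4 * B + 2 * c + B * (k + 8 * B + 4 * c)) T, fp_cndO _ _ _, ?_⟩
  intro n G hG hn S hk l hl K Q lf d hd M hM hB
  have hnt : Nontrivial (Fin n) := Fin.nontrivial_iff_two_le.2 hn
  obtain ⟨gm, hgm1, hgm2⟩ : ∃ gm : List Pt, (∀ y, y ∈ gm ↔ ∃ p ∈ FGT.mix (FGT.rk K) M, y = cod p) ∧
      gm.length = (FGT.mix (FGT.rk K) M).card := by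
    refine ⟨(FGT.mix (FGT.rk K) M).toList.map cod, fun y => ?_, by rw [List.length_map, Finset.length_toList]⟩
    rw [List.mem_map]
    constructor
    · rintro ⟨p, hp, rfl⟩
      exact ⟨p, Finset.mem_toList.1 hp, rfl⟩
    · rintro ⟨p, hp, rfl⟩
      exact ⟨p, Finset.mem_toList.2 hp, rfl⟩
  obtain ⟨X, rfl, rfl, rfl, rfl, hbase⟩ := exists_pce hG hn S M K Q c lf l hl d hd gm hgm1
  have hB' : X.B.card ≤ k + 8 * B + 4 * X.c := (X.card_B B hB).trans (by omega)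
  have hH' : Module.finrank F2 (HQ X.qe X.dF) ≤ k + 8 * B + 4 * X.c := (X.dim_H hG k hk B hB).trans (by omega)
  obtain ⟨es, hes, hcan⟩ := exists_es hl hG hn (k + 8 * B + 4 * X.c) hB' hH'
  obtain ⟨g, hfit, hges, hmem⟩ := exists_guess X l hl d hd gm hgm1 hgm2.le hbase B hB _ es hes
    (4 * B + 2 * X.c + B * (k + 8 * B + 4 * X.c)) (by omega) (by omega)
  obtain ⟨ls, hl1, hl2, hl3, M', hM1, hM2, hM3, hM4⟩ := hT (Fin n) G hG X hB' hH' hM _ (hcan d g hfit hges)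
  refine ⟨M', hM3, hM1, hM2, ent l d g (ls.flatten.map ccd), ?_, codes_ent hfit hG hn _ hl3 M' hM3 hM4⟩
  unfold cndO
  rw [List.mem_flatMap]
  refine ⟨g, hmem, ?_⟩
  rw [List.mem_map]
  refine ⟨ls.flatten.map ccd, ?_, rfl⟩
  rw [mem_cds]
  refine ⟨ls.map (List.map ccd), ?_, ?_, ?_⟩
  · rw [List.length_map]
    exact hl1
  · intro w hw'
    obtain ⟨w', hw1, rfl⟩ := List.mem_map.1 hw'
    exact hl2 w' hw1
  · rw [List.map_flatten]

end Pool.Agent.RPH
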