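import Pool.Agent.RPH.AFit

/-!
# RPH-ARot: the rotation of the blocks

The allowed flags, the other flags, the other ends of the blocks, and the list of the blocks at a vertex.
-/

set_option autoImplicit false

open Finset
open scoped Classical

namespace Pool.Agent.RPH

open Pool.Agent.EPH Pool.Agent.BEO
open Pool.Agent.Helper35.OG hiding F2 dg

variable {n : ℕ} {G : SimpleGraph (Fin n)}

variable {X : Pce G} {l : Inp} {d : List Ec} {g : Gs}

private theorem mem_mix0 {V : Type} [Fintype V] {G : SimpleGraph V} (D : Finset G.edgeSet) (M : GMap G) (p : Flag G) :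
    p ∈ FGT.mix D M ↔ ed p ∈ D ∧ ed (M.nxt p) ∉ D := by
  unfold FGT.mix
  rw [mem_filter]
  exact ⟨fun h => h.2, fun h => ⟨mem_univ _, h⟩⟩

private theorem mem_mix1 (D : Finset G.edgeSet) (M : GMap G) (p : Flag G) :
    p ∈ FGT.mix D M ↔ ed p ∈ D ∧ ed (M.nxt p) ∉ D := mem_mix0 D M p

theorem mem_afl (h : Fit X l d g) (y : Pt) : y ∈ afl l d g ↔ ∃ p : Flag G, X.af p ∧ y = cod p := by
  unfold afl
  rw [List.mem_filter, mem_fl h.cS]
  have key : ∀ p : Flag G, (memb d (ek (cod p)) && !memb g.1 (cod p)) = true ↔ X.af p := by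
    intro p
    rw [Bool.and_eq_true, Bool.not_eq_true', ← Bool.not_eq_true, memb_iff, memb_iff, h.gm, h.cD, ek_cod, X.af_iff]
    have h1 : (∃ e ∈ X.D, ec (ed p) = ec e) ↔ ed p ∈ X.D := by
      constructor
      · rintro ⟨e, he, h2⟩
        rw [ec_inj h2]
        exact he
      · intro h2
        exact ⟨_, h2, rfl⟩
    have h2 : (∃ q ∈ FGT.mix X.D X.M, cod p = cod q) ↔ ed p ∈ X.D ∧ ed (X.M.nxt p) ∉ X.D := by
      rw [← mem_mix1]
      constructor
      · rintro ⟨q, hq, h3⟩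
        rw [cod_inj h3]
        exact hq
      · intro h3
        exact ⟨_, h3, rfl⟩
    rw [h1, h2]
    unfold AF
    constructor
    · rintro ⟨h3, h4⟩
      exact ⟨h3, by_contra fun h5 => h4 ⟨h3, h5⟩⟩
    · rintro ⟨h3, h4⟩
      exact ⟨h3, fun h5 => h5.2 h4⟩
  constructor
  · rintro ⟨⟨p, rfl⟩, h1⟩
    exact ⟨p, (key p).1 h1, rfl⟩
  · rintro ⟨p, h1, rfl⟩
    exact ⟨⟨p, rfl⟩, (key p).2 h1⟩

theorem nxg_cod (h : Fit X l d g) {p : Flag G} (hp : X.af p) : nxg l g (cod p) = cod (X.M0.nxt p) := by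
  unfold nxg
  by_cases hg : X.gc p
  · rw [look_none, look_cod h.cS, X.gc_eq hg]
    intro y hy
    obtain ⟨q, -, h1, h2⟩ := (h.g1 _).1 hy
    have h3 : cod p = cod q := congrArg Prod.fst h2
    rw [← cod_inj h3] at h1
    exact h1 hg
  · refine look_eq _ _ _ _ ((h.g1 _).2 ⟨p, hp, hg, rfl⟩) ?_
    intro y hy
    obtain ⟨q, -, -, h2⟩ := (h.g1 _).1 hy
    have h3 : cod p = cod q := congrArg Prod.fst h2
    have h4 : y = cod (X.M0.nxt q) := congrArg Prod.snd h2
    rw [h4, cod_inj h3]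

private theorem Rf_inj2 {v v' : Fin n} {j j' : ℕ} (hj : j < X.na v) (hj' : j' < X.na v')
    (h : X.Rf v j = X.Rf v' j') : v = v' ∧ j = j' := by
  have h1 : v = v' := by
    rw [← X.Rf_fst v j, h, X.Rf_fst]
  subst h1
  exact ⟨rfl, X.Rf_inj hj hj' h⟩

private theorem Lf_inj2 {v v' : Fin n} {j j' : ℕ} (hj : j < X.na v) (hj' : j' < X.na v')
    (h : X.Lf v j = X.Lf v' j') : v = v' ∧ j = j' := by
  have h1 : v = v' := by
    rw [← X.Lf_fst v j, h, X.Lf_fst]
  subst h1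
  refine ⟨rfl, ?_⟩
  unfold Pce.Lf at h
  have h2 := congrArg side h
  rw [side_side, side_side] at h2
  have h3 := cf_inj X.M0 X.hb v (X.fs_lt hj) (X.fs_lt hj') h2
  have h4 := (X.ct_iff hj (X.fs_lt hj)).2 ⟨le_rfl, X.fs_le hj⟩
  have h5 := (X.ct_iff hj' (X.fs_lt hj')).2 ⟨le_rfl, X.fs_le hj'⟩
  rw [← h4, ← h5, h3]

private theorem Rf_ne_Lf {v v' : Fin n} {j j' : ℕ} : X.Rf v j ≠ X.Lf v' j' := by
  intro h
  have h1 : v = v' := by
    rw [← X.Rf_fst v j, h, X.Lf_fst]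
  subst h1
  exact cf_ne_side X.M0 X.b v _ _ h

private theorem Lf_side {v : Fin n} {j : ℕ} (h : X.fs v j = X.al v j) : X.Lf v j = side (X.Rf v j) := by
  unfold Pce.Lf Pce.Rf
  rw [h]

theorem ptn_Rf (h : Fit X l d g) {v : Fin n} {j : ℕ} (hj : j < X.na v) : ptn g (cod (X.Rf v j)) = cod (X.Lf v j) := by
  unfold ptn
  by_cases hf : X.fs v j = X.al v j
  · rw [look_none, sd_cod, Lf_side hf]
    intro y hy
    obtain ⟨v', j', hj', h1, h2 | h2⟩ := (h.g2 _).1 hy
    · exact Rf_ne_Lf (cod_inj (congrArg Prod.fst h2))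
    · obtain ⟨rfl, rfl⟩ := Rf_inj2 hj hj' (cod_inj (congrArg Prod.fst h2))
      exact h1 hf
  · refine look_eq _ _ _ _ ((h.g2 _).2 ⟨v, j, hj, hf, Or.inr rfl⟩) ?_
    intro y hy
    obtain ⟨v', j', hj', h1, h2 | h2⟩ := (h.g2 _).1 hy
    · exact absurd (cod_inj (congrArg Prod.fst h2)) Rf_ne_Lf
    · obtain ⟨rfl, rfl⟩ := Rf_inj2 hj hj' (cod_inj (congrArg Prod.fst h2))
      exact congrArg Prod.snd h2

theorem ptn_Lf (h : Fit X l d g) {v : Fin n} {j : ℕ} (hj : j < X.na v) : ptn g (cod (X.Lf v j)) = cod (X.Rf v j) := by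
  unfold ptn
  by_cases hf : X.fs v j = X.al v j
  · rw [look_none, sd_cod, Lf_side hf, side_side]
    intro y hy
    obtain ⟨v', j', hj', h1, h2 | h2⟩ := (h.g2 _).1 hy
    · obtain ⟨rfl, rfl⟩ := Lf_inj2 hj hj' (cod_inj (congrArg Prod.fst h2))
      exact h1 hf
    · exact Rf_ne_Lf (cod_inj (congrArg Prod.fst h2)).symm
  · refine look_eq _ _ _ _ ((h.g2 _).2 ⟨v, j, hj, hf, Or.inl rfl⟩) ?_
    intro y hy
    obtain ⟨v', j', hj', h1, h2 | h2⟩ := (h.g2 _).1 hy
    · obtain ⟨rfl, rfl⟩ := Lf_inj2 hj hj' (cod_inj (congrArg Prod.fst h2))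
      exact congrArg Prod.snd h2
    · exact absurd (cod_inj (congrArg Prod.fst h2)).symm Rf_ne_Lf

private theorem mem_afv (h : Fit X l d g) (v : Fin n) (y : Pt) : y ∈ afv l d g v ↔
    ∃ j, j < X.na v ∧ (y = cod (X.Rf v j) ∨ y = cod (X.Lf v j)) := by
  unfold afv
  rw [List.mem_filter, mem_afl h, decide_eq_true_iff]
  constructor
  · rintro ⟨⟨p, hp, rfl⟩, h1⟩
    have h2 : p.1.fst = v := Fin.ext h1
    obtain ⟨j, hj, h3 | h3⟩ := X.exists_Rf hp
    · rw [h2] at hj h3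
      exact ⟨j, hj, Or.inl (by rw [← h3])⟩
    · rw [h2] at hj h3
      refine ⟨(j + 1) % X.na v, Nat.mod_lt _ (by omega), Or.inr ?_⟩
      rw [← X.nxt_Rf hj, ← h3, X.M0.nxt_nxt]
  · rintro ⟨j, hj, rfl | rfl⟩
    · refine ⟨⟨_, X.af_Rf hj, rfl⟩, ?_⟩
      show (((X.Rf v j).1.fst : Fin n) : ℕ) = (v : ℕ)
      rw [X.Rf_fst]
    · refine ⟨⟨_, X.af_Lf hj, rfl⟩, ?_⟩
      show (((X.Lf v j).1.fst : Fin n) : ℕ) = (v : ℕ)
      rw [X.Lf_fst]

theorem len_afv (h : Fit X l d g) (v : Fin n) : (afv l d g v).length = 2 * X.na v := by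
  have hnd : (afv l d g v).Nodup := by
    unfold afv afl fl
    exact ((nodup_ddp _).filter _).filter _
  have h1 : (afv l d g v).toFinset = (range (X.na v)).image (fun j => cod (X.Rf v j)) ∪
      (range (X.na v)).image (fun j => cod (X.Lf v j)) := by
    ext y
    rw [List.mem_toFinset, mem_afv h, mem_union, mem_image, mem_image]
    constructor
    · rintro ⟨j, hj, rfl | rfl⟩
      · exact Or.inl ⟨j, mem_range.2 hj, rfl⟩
      · exact Or.inr ⟨j, mem_range.2 hj, rfl⟩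
    · rintro (⟨j, hj, rfl⟩ | ⟨j, hj, rfl⟩)
      · exact ⟨j, mem_range.1 hj, Or.inl rfl⟩
      · exact ⟨j, mem_range.1 hj, Or.inr rfl⟩
  rw [← List.toFinset_card_of_nodup hnd, h1, card_union_of_disjoint, card_image_of_injOn, card_image_of_injOn,
    card_range]
  · omega
  · intro i hi j hj hij
    exact (Lf_inj2 (mem_range.1 (mem_coe.1 hi)) (mem_range.1 (mem_coe.1 hj)) (cod_inj hij)).2
  · intro i hi j hj hij
    exact (Rf_inj2 (mem_range.1 (mem_coe.1 hi)) (mem_range.1 (mem_coe.1 hj)) (cod_inj hij)).2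
  · rw [disjoint_left]
    intro y hy hy'
    obtain ⟨i, -, rfl⟩ := mem_image.1 hy
    obtain ⟨j, -, h2⟩ := mem_image.1 hy'
    exact Rf_ne_Lf (cod_inj h2).symm

private theorem rtc_Rf (h : Fit X l d g) {v : Fin n} {j : ℕ} (hj : j < X.na v) :
    rtc (rin l d g) (cod (X.Rf v j)) = cod (X.Rf v ((j + 1) % X.na v)) := by
  have h0 : (j + 1) % X.na v < X.na v := Nat.mod_lt _ (by omega)
  have h1 : sd (ptn g (nxg l g (cod (X.Rf v j)))) = sd (cod (X.Rf v ((j + 1) % X.na v))) := by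
    rw [nxg_cod h (X.af_Rf hj), X.nxt_Rf hj, ptn_Lf h h0]
  unfold rtc
  rw [look_eq (rin l d g) (cod (X.Rf v j)) (cod (X.Rf v j)) (sd (cod (X.Rf v ((j + 1) % X.na v)))), sd_cod, sd_cod,
    side_side]
  · unfold rin
    rw [List.mem_map]
    exact ⟨_, (mem_afl h _).2 ⟨_, X.af_Rf hj, rfl⟩, by rw [h1]⟩
  · intro y hy
    unfold rin at hy
    obtain ⟨p, -, h2⟩ := List.mem_map.1 hy
    have h3 : p = cod (X.Rf v j) := congrArg Prod.fst h2
    have h4 : sd (ptn g (nxg l g p)) = y := congrArg Prod.snd h2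
    rw [← h4, h3, h1]

private theorem rtc_iter (h : Fit X l d g) {v : Fin n} (j : ℕ) (hj : j < X.na v) :
    (rtc (rin l d g))^[j] (cod (X.Rf v 0)) = cod (X.Rf v j) := by
  induction j with
  | zero => rfl
  | succ j ih =>
    rw [Function.iterate_succ_apply', ih (by omega), rtc_Rf h (by omega), Nat.mod_eq_of_lt hj]

private theorem filter_rng (a : ℕ) : (List.range (2 * a)).filter (fun i => decide (i + i + 1 ≤ 2 * a)) = List.range a := by
  rw [show 2 * a = a + a by ring, List.range_add, List.filter_append, List.filter_eq_self.2, List.filter_eq_nil_iff.2,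
    List.append_nil]
  · intro x hx
    obtain ⟨y, hy, rfl⟩ := List.mem_map.1 hx
    rw [decide_eq_true_iff]
    omega
  · intro x hx
    have h1 := List.mem_range.1 hx
    rw [decide_eq_true_iff]
    omega

theorem rlg_eq (h : Fit X l d g) (v : Fin n) :
    rlg l d g v = (List.range (X.na v)).map fun j => (j, cod (X.Rf v j)) := by
  unfold rlg
  rw [orb_eq, len_afv h, List.filter_map]
  have h1 : ((fun q : ℕ × Pt => decide (q.1 + q.1 + 1 ≤ 2 * X.na v)) ∘
      fun i : ℕ => (i, (rtc (rin l d g))^[i] (bsg l d g v))) = fun i => decide (i + i + 1 ≤ 2 * X.na v) := rfl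
  rw [h1, filter_rng]
  refine List.map_congr_left fun j hj => ?_
  have h2 := List.mem_range.1 hj
  have h3 : bsg l d g v = cod (X.Rf v 0) := by
    unfold bsg
    rw [h.base v (by omega)]
    have h4 : side (X.b v) = X.Lf v 0 := rfl
    rw [h4, ptn_Lf h (by omega)]
  rw [h3, rtc_iter h j h2]

end Pool.Agent.RPH
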