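import Pool.Agent.RPH.CBase

/-!
# EPH: jumps
-/

set_option autoImplicit false

open Finset
open scoped Classical

namespace Pool.Agent.RPH

open Pool.Agent.BEO hiding Cfg Frame

/-- A jump: a walk of length at most six in `R` between two vertices of `M` at larger distance in `M`. -/
structure Jmp {k : ℕ} {V Q : Type} [Fintype V] [AddCommGroup Q] [Module F2 Q] (c : Cfg k V Q) where
  /-- first end -/
  p : V
  /-- last end -/
  q : V
  /-- the walk -/
  w : c.R.Walk p q
  len : w.length ≤ 6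
  far : ¬ Near c.M w.length p q
  hp : p ∈ vs c.M
  hq : q ∈ vs c.M

/-- two jumps are far from each other -/
def Jmp.Sep {k : ℕ} {V Q : Type} [Fintype V] [AddCommGroup Q] [Module F2 Q] {c : Cfg k V Q} (s t : Jmp c) : Prop :=
  ¬ Near c.M 7 s.p t.p ∧ ¬ Near c.M 7 s.p t.q ∧ ¬ Near c.M 7 s.q t.p ∧ ¬ Near c.M 7 s.q t.q

end Pool.Agent.RPH
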