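import Pool.Agent.RPH.CSeg
import Pool.Agent.RPH.CBase

/-!
# RPH-CNbr: common neighbours of inner vertices
-/

set_option autoImplicit false

open Finset
open scoped Classical

namespace Pool.Agent.RPH

open Pool.Agent.BEO hiding Cfg Frame

variable {k C : ℕ} {V Q : Type} [Fintype V] [AddCommGroup Q] [Module F2 Q] {c : Cfg k V Q} (f : Frame C c)

private theorem nbr_walk (j j' : Fin f.m) (l l' : ℕ) (h1 : 5 ≤ l) (h2 : l + 5 ≤ f.n j) (h3 : 1 ≤ l')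
    (h4 : l' ≤ f.n j') (w : (c.L \ c.M).Walk (f.x j l) (f.x j' l')) (hw : w.length ≤ 4) :
    j' = j ∧ l' ≤ l + w.length ∧ l ≤ l' + w.length :=
  near_idx f j j' l l' w.length (by omega) (by omega) h3 h4
    (f.far j l j' l' (by omega) (by omega) h3 h4 w hw)

private theorem nbr_sd {y z : V} (hy : y ∉ vs c.M) (h : c.L.Adj y z) : (c.L \ c.M).Adj y z := by
  rw [SimpleGraph.sdiff_adj]
  refine ⟨h, fun h' => hy ?_⟩
  rw [vs, Finset.mem_filter]
  exact ⟨Finset.mem_univ _, z, h'⟩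

theorem nbr_two (u : V) (j j' : Fin f.m) (l l' : ℕ) (h1 : 5 ≤ l) (h2 : l + 5 ≤ f.n j) (h3 : 2 ≤ l')
    (h4 : l' + 1 ≤ f.n j') (a1 : c.L.Adj u (f.x j l)) (a2 : c.L.Adj u (f.x j' l')) :
    j' = j ∧ l' ≤ l + 2 ∧ l ≤ l' + 2 := by
  by_cases m1 : c.M.Adj (f.x j l) u
  · rcases (f.adj j l (by omega) (by omega) u).1 m1 with e | e
    · rw [e] at a2
      obtain ⟨hj, h⟩ := adj_inner f j j' (l - 1) l' (by omega) (by omega) (by omega) (by omega) a2
      exact ⟨hj, by omega, by omega⟩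
    · rw [e] at a2
      obtain ⟨hj, h⟩ := adj_inner f j j' (l + 1) l' (by omega) (by omega) (by omega) (by omega) a2
      exact ⟨hj, by omega, by omega⟩
  · by_cases m2 : c.M.Adj (f.x j' l') u
    · rcases (f.adj j' l' (by omega) (by omega) u).1 m2 with e | e
      · rw [e] at a1
        obtain ⟨hj, h⟩ := adj_inner f j' j (l' - 1) l (by omega) (by omega) (by omega) (by omega) a1
        exact ⟨hj.symm, by omega, by omega⟩
      · rw [e] at a1
        obtain ⟨hj, h⟩ := adj_inner f j' j (l' + 1) l (by omega) (by omega) (by omega) (by omega) a1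
        exact ⟨hj.symm, by omega, by omega⟩
    · have b1 : (c.L \ c.M).Adj (f.x j l) u := by
        rw [SimpleGraph.sdiff_adj]
        exact ⟨a1.symm, m1⟩
      have b2 : (c.L \ c.M).Adj u (f.x j' l') := by
        rw [SimpleGraph.sdiff_adj]
        exact ⟨a2, fun h => m2 h.symm⟩
      have h := nbr_walk f j j' l l' h1 h2 (by omega) (by omega)
        (SimpleGraph.Walk.cons b1 (SimpleGraph.Walk.cons b2 SimpleGraph.Walk.nil)) (by simp)
      simpa using h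

theorem nbr_out (y : V) (hy : y ∉ vs c.M) (j j' : Fin f.m) (l l' : ℕ) (h1 : 5 ≤ l) (h2 : l + 5 ≤ f.n j)
    (h3 : 1 ≤ l') (h4 : l' ≤ f.n j') (a1 : c.L.Adj y (f.x j l)) (a2 : c.L.Adj y (f.x j' l')) :
    j' = j ∧ l' ≤ l + 2 ∧ l ≤ l' + 2 := by
  have h := nbr_walk f j j' l l' h1 h2 h3 h4
    (SimpleGraph.Walk.cons (nbr_sd hy a1).symm
      (SimpleGraph.Walk.cons (nbr_sd hy a2) SimpleGraph.Walk.nil)) (by simp)
  simpa using h

theorem nbr_mid (y u : V) (hy : y ∉ vs c.M) (j j' : Fin f.m) (l l' : ℕ) (h1 : 5 ≤ l) (h2 : l + 5 ≤ f.n j)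
    (h3 : 2 ≤ l') (h4 : l' + 1 ≤ f.n j') (a1 : c.L.Adj y (f.x j l)) (a2 : c.L.Adj y u)
    (a3 : c.L.Adj u (f.x j' l')) : j' = j ∧ l' ≤ l + 3 ∧ l ≤ l' + 3 := by
  by_cases m2 : c.M.Adj (f.x j' l') u
  · rcases (f.adj j' l' (by omega) (by omega) u).1 m2 with e | e
    · rw [e] at a2
      obtain ⟨hj, h, h'⟩ := nbr_out f y hy j j' l (l' - 1) h1 h2 (by omega) (by omega) a1 a2
      exact ⟨hj, by omega, by omega⟩
    · rw [e] at a2
      obtain ⟨hj, h, h'⟩ := nbr_out f y hy j j' l (l' + 1) h1 h2 (by omega) (by omega) a1 a2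
      exact ⟨hj, by omega, by omega⟩
  · have b2 : (c.L \ c.M).Adj u (f.x j' l') := by
      rw [SimpleGraph.sdiff_adj]
      exact ⟨a3, fun h => m2 h.symm⟩
    have h := nbr_walk f j j' l l' h1 h2 (by omega) (by omega)
      (SimpleGraph.Walk.cons (nbr_sd hy a1).symm (SimpleGraph.Walk.cons (nbr_sd hy a2)
        (SimpleGraph.Walk.cons b2 SimpleGraph.Walk.nil))) (by simp)
    simpa using h

theorem nbr_far (y y' u : V) (hy : y ∉ vs c.M) (hy' : y' ∉ vs c.M) (j j' : Fin f.m) (l l' : ℕ) (h1 : 5 ≤ l)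
    (h2 : l + 5 ≤ f.n j) (h3 : 1 ≤ l') (h4 : l' ≤ f.n j') (a1 : c.L.Adj y (f.x j l)) (a2 : c.L.Adj y u)
    (a3 : c.L.Adj u y') (a4 : c.L.Adj y' (f.x j' l')) : j' = j ∧ l' ≤ l + 4 ∧ l ≤ l' + 4 := by
  have h := nbr_walk f j j' l l' h1 h2 h3 h4
    (SimpleGraph.Walk.cons (nbr_sd hy a1).symm (SimpleGraph.Walk.cons (nbr_sd hy a2)
      (SimpleGraph.Walk.cons (nbr_sd hy' a3.symm).symm
        (SimpleGraph.Walk.cons (nbr_sd hy' a4) SimpleGraph.Walk.nil)))) (by simp)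
  simpa using h

/-- the same for adjacent `y`, `y'` -/
theorem nbr_adj (y y' : V) (hy : y ∉ vs c.M) (hy' : y' ∉ vs c.M) (j j' : Fin f.m) (l l' : ℕ) (h1 : 5 ≤ l)
    (h2 : l + 5 ≤ f.n j) (h3 : 1 ≤ l') (h4 : l' ≤ f.n j') (a1 : c.L.Adj y (f.x j l)) (a2 : c.L.Adj y y')
    (a4 : c.L.Adj y' (f.x j' l')) : j' = j ∧ l' ≤ l + 4 ∧ l ≤ l' + 4 := by
  have h := nbr_walk f j j' l l' h1 h2 h3 h4
    (SimpleGraph.Walk.cons (nbr_sd hy a1).symm (SimpleGraph.Walk.cons (nbr_sd hy a2)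
      (SimpleGraph.Walk.cons (nbr_sd hy' a4) SimpleGraph.Walk.nil))) (by simp)
  have h' : j' = j ∧ l' ≤ l + 3 ∧ l ≤ l' + 3 := by simpa using h
  exact ⟨h'.1, by omega, by omega⟩

end Pool.Agent.RPH
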