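import Pool.Agent.BEO.NearB
import Pool.Agent.RPH.CBase

/-!
# RPH-CSeg: distances inside a segment

PLAN. `near_seg`: induction on `r`, generalizing `l`; `near_succ`: either `Near r` (monotone bounds), or `x j l` is
adjacent in `M` to `w` with `Near r w v`; by `f.adj` (as `1 ≤ l ≤ n j`) `w = x j (l - 1)` or `x j (l + 1)`, and the
induction hypothesis applies to `l - 1` resp. `l + 1` (bounds with `r`: `r + 1 ≤ l - 1`, `l + 1 + r ≤ n j`).
`near_idx`: combine with `f.inj` (the `l'` found satisfies `1 ≤ l' ≤ n j`). `adj_inner`: if `x j l` and `x j' l'` are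
adjacent in `L` but not in `M`, the one-edge walk of `L \ M` has length 1, so `f.far` gives `Near M 1`, i.e. equal
(impossible) or adjacent in `M` (`near_one`). Adjacent in `M`: `x j' l' = x j (l - 1)` or `x j (l + 1)` by `f.adj`; if
`l - 1 = 0` or `l + 1 = n j + 1` this would be in `B` (`e0`, `e1`) contradicting `notB`; otherwise `f.inj`.
-/

set_option autoImplicit false

open Finset
open scoped Classical

namespace Pool.Agent.RPH

open Pool.Agent.BEO hiding Cfg Frame

variable {k C : ℕ} {V Q : Type} [Fintype V] [AddCommGroup Q] [Module F2 Q] {c : Cfg k V Q} (f : Frame C c)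

theorem near_seg (j : Fin f.m) (l r : ℕ) (v : V) (h1 : r + 1 ≤ l) (h2 : l + r ≤ f.n j)
    (h : Near c.M r (f.x j l) v) : ∃ l', v = f.x j l' ∧ l' ≤ l + r ∧ l ≤ l' + r := by
  induction r generalizing l with
  | zero => exact ⟨l, (near_zero.mp h).symm, by omega, by omega⟩
  | succ r ih =>
    rcases near_succ.mp h with h | ⟨w, hw, h⟩
    · obtain ⟨l', e, a, b⟩ := ih l (by omega) (by omega) h
      exact ⟨l', e, by omega, by omega⟩
    · rcases (f.adj j l (by omega) (by omega) w).mp hw with e | e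
      · rw [e] at h
        obtain ⟨l', e', a, b⟩ := ih (l - 1) (by omega) (by omega) h
        exact ⟨l', e', by omega, by omega⟩
      · rw [e] at h
        obtain ⟨l', e', a, b⟩ := ih (l + 1) (by omega) (by omega) h
        exact ⟨l', e', by omega, by omega⟩

theorem near_idx (j j' : Fin f.m) (l l' r : ℕ) (h1 : r + 1 ≤ l) (h2 : l + r ≤ f.n j) (h3 : 1 ≤ l')
    (h4 : l' ≤ f.n j') (h : Near c.M r (f.x j l) (f.x j' l')) : j' = j ∧ l' ≤ l + r ∧ l ≤ l' + r := by
  obtain ⟨m, e, a, b⟩ := near_seg f j l r _ h1 h2 h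
  obtain ⟨e1, e2⟩ := f.inj j' l' j m h3 h4 (by omega) (by omega) e
  exact ⟨e1, by omega, by omega⟩

/-- inner vertices are adjacent in `L` only if they are consecutive -/
theorem adj_inner (j j' : Fin f.m) (l l' : ℕ) (h1 : 1 ≤ l) (h2 : l ≤ f.n j) (h3 : 1 ≤ l')
    (h4 : l' ≤ f.n j') (h : c.L.Adj (f.x j l) (f.x j' l')) : j' = j ∧ (l' = l + 1 ∨ l = l' + 1) := by
  have hM : c.M.Adj (f.x j l) (f.x j' l') := by
    by_contra hM
    have hd : (c.L \ c.M).Adj (f.x j l) (f.x j' l') := by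
      rw [SimpleGraph.sdiff_adj]
      exact ⟨h, hM⟩
    have hn := f.far j l j' l' h1 h2 h3 h4 (SimpleGraph.Walk.cons hd SimpleGraph.Walk.nil) (by simp)
    have hn' : Near c.M 1 (f.x j l) (f.x j' l') := by simpa using hn
    rcases near_one.mp hn' with e | e
    · exact h.ne e
    · exact hM e
  rcases (f.adj j l h1 h2 _).mp hM with e | e
  · by_cases h0 : l - 1 = 0
    · exfalso
      rw [h0] at e
      exact f.notB j' l' h3 h4 (e ▸ f.e0 j)
    · obtain ⟨e1, e2⟩ := f.inj j' l' j (l - 1) h3 h4 (by omega) (by omega) e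
      exact ⟨e1, Or.inr (by omega)⟩
  · by_cases h0 : l = f.n j
    · exfalso
      rw [h0] at e
      exact f.notB j' l' h3 h4 (e ▸ f.e1 j)
    · obtain ⟨e1, e2⟩ := f.inj j' l' j (l + 1) h3 h4 (by omega) (by omega) e
      exact ⟨e1, Or.inl (by omega)⟩

/-- consecutive inner vertices are adjacent -/
theorem adj_next (j : Fin f.m) (l : ℕ) (h1 : 1 ≤ l) (h2 : l + 1 ≤ f.n j) : c.L.Adj (f.x j l) (f.x j (l + 1)) :=
  c.le ((f.adj j l h1 (by omega) _).mpr (Or.inr rfl))

/-- inner vertices are vertices of `M` -/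
theorem x_mem (j : Fin f.m) (l : ℕ) (h1 : 1 ≤ l) (h2 : l ≤ f.n j) : f.x j l ∈ vs c.M := by
  rw [vs, Finset.mem_filter]
  exact ⟨Finset.mem_univ _, f.x j (l + 1), (f.adj j l h1 h2 _).mpr (Or.inr rfl)⟩

end Pool.Agent.RPH
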