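import Pool.Agent.RPH.CFar

/-!
# EPH: positions in the segments (definitions for the section on good positions)
-/

set_option autoImplicit false

open Finset
open scoped Classical

namespace Pool.Agent.RPH

open Pool.Agent.BEO hiding Cfg Frame

namespace Frame

variable {k C : ℕ} {V Q : Type} [Fintype V] [AddCommGroup Q] [Module F2 Q] {c : Cfg k V Q} (f : Frame C c)

/-- the faces with the same neighbours as `x j i` -/
noncomputable def tw (j : Fin f.m) (i : ℕ) : Finset V := univ.filter fun u => ∀ w, c.L.Adj u w ↔ c.L.Adj (f.x j i) w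

/-- the common neighbours of `x j (i - 1)` and `x j (i + 1)` -/
noncomputable def cmn (j : Fin f.m) (i : ℕ) : Finset V :=
  univ.filter fun u => c.L.Adj u (f.x j (i - 1)) ∧ c.L.Adj u (f.x j (i + 1))

/-- the faces of type `τ` at position `i` -/
noncomputable def ty (τ : Fin 4) (j : Fin f.m) (i : ℕ) : Finset V := univ.filter fun y => f.Tr τ j i y

/-- every closed walk of `R` through at most four faces, one of them `x j i`, is null -/
def Nul (j : Fin f.m) (i : ℕ) : Prop :=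
  ∀ w : c.R.Walk (f.x j i) (f.x j i), w.length ≤ 4 → (w.edges.map c.a).sum = 0

/-- the position `i` is inside the segment, has no neighbour in `B`, no face of type 1, and all faces of type 2 at `i` have
the same neighbours as `x j i` -/
structure Ok0 (j : Fin f.m) (i : ℕ) : Prop where
  lo : 25 ≤ i
  hi : i + 25 ≤ f.n j
  nB : ∀ b ∈ f.B, ¬ c.L.Adj b (f.x j i)
  t1 : ∀ y, ¬ f.Tr 1 j i y
  t2 : ∀ y, f.Tr 2 j i y → y ∈ f.tw j i

/-- moreover short closed walks through `x j i` are null -/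
structure Ok1 (j : Fin f.m) (i : ℕ) : Prop where
  lo : 25 ≤ i
  hi : i + 25 ≤ f.n j
  nB : ∀ b ∈ f.B, ¬ c.L.Adj b (f.x j i)
  t1 : ∀ y, ¬ f.Tr 1 j i y
  t2 : ∀ y, f.Tr 2 j i y → y ∈ f.tw j i
  nul : f.Nul j i

/-- moreover there are no faces of type 0 or 3 -/
structure Ok2 (j : Fin f.m) (i : ℕ) : Prop where
  ok : f.Ok1 j i
  t0 : ∀ y, ¬ f.Tr 0 j i y
  t3 : ∀ y, ¬ f.Tr 3 j i y

/-- all positions near `i` are of this kind -/
def Good (j : Fin f.m) (i : ℕ) : Prop := ∀ l, i ≤ l + (13 * k + 30) → l ≤ i + (13 * k + 30) → f.Ok2 j l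

/-- The portion `s, ..., t` of a segment: every second face `x j l` has the neighbours `U (l - 1)` and `U (l + 1)`, the
sets `U c` are even, and split as `A c`, `T c` with `X c` complete to both and `A c` complete to `T c`. -/
structure Flow (j : Fin f.m) (s t : ℕ) (U A T X : ℕ → Finset V) : Prop where
  par : (s + t) % 2 = 0
  lt : s < t
  lo : 25 ≤ s
  hi : t + 25 ≤ f.n j
  nbx : ∀ l, s < l → l < t → (s + l) % 2 = 1 → ∀ u, c.L.Adj (f.x j l) u ↔ (u ∈ U (l - 1) ∨ u ∈ U (l + 1))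
  dj : ∀ l, s < l → l < t → (s + l) % 2 = 1 → Disjoint (U (l - 1)) (U (l + 1))
  nul : ∀ l, s < l → l < t → f.Nul j l
  ev : ∀ i, s < i → i < t → (s + i) % 2 = 0 → Even (U i).card
  mem : ∀ i, s < i → i < t → (s + i) % 2 = 0 → f.x j i ∈ A i
  split : ∀ i, s < i → i < t → (s + i) % 2 = 0 → U i = A i ∪ T i ∧ Disjoint (A i) (T i) ∧ Disjoint (X i) (U i)
  nbA : ∀ i, s < i → i < t → (s + i) % 2 = 0 → ∀ u ∈ A i, ∀ w, c.L.Adj u w ↔ (w ∈ X i ∨ w ∈ T i)
  nbT : ∀ i, s < i → i < t → (s + i) % 2 = 0 → ∀ u ∈ T i, ∀ w, c.L.Adj u w ↔ (w ∈ X i ∨ w ∈ A i)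
  nbX : ∀ i, s + 2 < i → i + 2 < t → (s + i) % 2 = 0 → ∀ w ∈ X i, ∀ u, c.L.Adj w u →
    ∃ i', s < i' ∧ i' < t ∧ (s + i') % 2 = 0 ∧ u ∈ U i'

/-- Three positions with faces of type 0 (or 3) and the same vector. -/
structure Trp (j : Fin f.m) (τ : Fin 4) (i1 i2 i3 : ℕ) (y1 y2 y3 : V) : Prop where
  hτ : τ = 0 ∨ τ = 3
  p12 : (i1 + i2) % 2 = 0
  p23 : (i2 + i3) % 2 = 0
  g12 : i1 + 40 ≤ i2
  g23 : i2 + 40 ≤ i3
  t1 : f.Tr τ j i1 y1
  t2 : f.Tr τ j i2 y2
  t3 : f.Tr τ j i3 y3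
  r12 : f.rv τ j i1 y1 = f.rv τ j i2 y2
  r23 : f.rv τ j i2 y2 = f.rv τ j i3 y3
  ok : ∀ l, i1 ≤ l → l ≤ i3 → f.Ok1 j l

/-- the exceptional positions `i` of the same parity as `i1`: a face of type 0 whose neighbours are not `cmn j i`, or a face of
type 3 whose neighbours are not the symmetric difference of `cmn j i` and the neighbours of `x j i` -/
def Exc (j : Fin f.m) (i : ℕ) : Prop :=
  (∃ y, f.Tr 0 j i y ∧ ∃ u, ¬ (c.L.Adj y u ↔ u ∈ f.cmn j i)) ∨
    (∃ y, f.Tr 3 j i y ∧ ∃ u, ¬ (c.L.Adj y u ↔ ¬ (c.L.Adj (f.x j i) u ↔ u ∈ f.cmn j i)))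

end Frame

end Pool.Agent.RPH
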