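import Pool.Agent.RPH.CNbr
import Pool.Agent.RPH.DDef

/-!
# RPH-CT2: type 2 (trace `{i - 1, i + 1}`)
-/

set_option autoImplicit false

open Finset
open scoped Classical

namespace Pool.Agent.RPH

open Pool.Agent.BEO hiding Cfg Frame

variable {k C : ℕ} {V Q : Type} [Fintype V] [AddCommGroup Q] [Module F2 Q] {c : Cfg k V Q} (f : Frame C c)

theorem type2_tw (j : Fin f.m) (i i' : ℕ) (y y' : V) (h : f.Tr 2 j i y) (h' : f.Tr 2 j i' y') (hi : i + 40 ≤ i')
    (hr : f.rv 2 j i y = f.rv 2 j i' y') : y ∈ f.tw j i ∧ y' ∈ f.tw j i' := by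
  obtain ⟨hy, hi1, hi2, ht⟩ := h
  obtain ⟨hy', hi1', hi2', ht'⟩ := h'
  have a1 : c.L.Adj y (f.x j (i + 1)) :=
    (ht j (i + 1) (by omega) (by omega)).mpr ⟨rfl, Or.inr (Or.inr (Or.inl ⟨rfl, Or.inr rfl⟩))⟩
  have a1' : c.L.Adj y' (f.x j (i' + 1)) :=
    (ht' j (i' + 1) (by omega) (by omega)).mpr ⟨rfl, Or.inr (Or.inr (Or.inl ⟨rfl, Or.inr rfl⟩))⟩
  have e2 : ∀ (i : ℕ) (y u : V), f.rv 2 j i y u = row c.L y u + row c.L (f.x j i) u := by
    intro i y u
    unfold Frame.rv
    rw [if_neg (by decide), if_neg (by decide), if_pos (by decide)]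
    ring
  have hu : ∀ u, row c.L y u + row c.L (f.x j i) u = row c.L y' u + row c.L (f.x j i') u := by
    intro u
    rw [← e2, ← e2, hr]
  have key : ∀ u, c.L.Adj y u ↔ c.L.Adj (f.x j i) u := by
    intro u
    have hu' := hu u
    by_contra hne
    have h1 : (c.L.Adj y u ∨ c.L.Adj (f.x j i) u) ∧ (c.L.Adj y' u ∨ c.L.Adj (f.x j i') u) := by
      unfold row at hu'
      by_cases b1 : c.L.Adj y u <;> by_cases b2 : c.L.Adj (f.x j i) u <;>
        by_cases b3 : c.L.Adj y' u <;> by_cases b4 : c.L.Adj (f.x j i') u <;>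
        simp [b1, b2, b3, b4] at hu' hne ⊢
    obtain ⟨h2, h3⟩ := h1
    rcases h2 with h2 | h2 <;> rcases h3 with h3 | h3
    · have := nbr_far f y y' u hy hy' j j (i + 1) (i' + 1) (by omega) (by omega) (by omega) (by omega) a1 h2
        h3.symm a1'
      omega
    · have := nbr_mid f y u hy j j (i + 1) i' (by omega) (by omega) (by omega) (by omega) a1 h2 h3.symm
      omega
    · have := nbr_mid f y' u hy' j j (i' + 1) i (by omega) (by omega) (by omega) (by omega) a1' h3 h2.symm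
      omega
    · have := nbr_two f u j j i i' (by omega) (by omega) (by omega) (by omega) h2.symm h3.symm
      omega
  have key' : ∀ u, c.L.Adj y' u ↔ c.L.Adj (f.x j i') u := by
    intro u
    have hu' := hu u
    have hk := key u
    unfold row at hu'
    by_cases b1 : c.L.Adj y u <;> by_cases b2 : c.L.Adj (f.x j i) u <;>
      by_cases b3 : c.L.Adj y' u <;> by_cases b4 : c.L.Adj (f.x j i') u <;>
      simp [b1, b2, b3, b4] at hu' hk ⊢
  unfold Frame.tw
  exact ⟨Finset.mem_filter.2 ⟨Finset.mem_univ _, key⟩, Finset.mem_filter.2 ⟨Finset.mem_univ _, key'⟩⟩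

end Pool.Agent.RPH
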