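import Pool.Agent.RPH.DDef
import Pool.Agent.BEO.Par

/-!
# RPH-DNul: few positions with a short closed walk which is not null
-/

set_option autoImplicit false

open Finset
open scoped Classical

namespace Pool.Agent.RPH

open Pool.Agent.BEO hiding Cfg Frame

/-- the class of a closed walk -/
private theorem cw_mem {k : ℕ} {V Q : Type} [Fintype V] [AddCommGroup Q] [Module F2 Q]
    (c : Cfg k V Q) {v : V} (w : c.R.Walk v v) : (w.edges.map c.a).sum ∈ c.H := by
  rw [sum_list, sum_coef]
  refine c.clsR _ ?_ ?_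
  · intro e he
    rw [Finset.mem_filter] at he
    have h1 : w.edges.count e ≠ 0 := by
      intro h0
      have h2 := he.2
      rw [h0, Nat.cast_zero] at h2
      exact zero_ne_one h2
    have h3 : e ∈ w.edges := by
      by_contra h4
      exact h1 (List.count_eq_zero_of_not_mem h4)
    exact w.edges_subset_edgeSet h3
  · intro x
    rw [even_cast, dg_coef, walk_bd]
    exact q_add_self _

private theorem three_far (g : ℕ) (T : Finset ℕ) (hT : 2 * g + 1 ≤ T.card) :
    ∃ i : Fin 3 → ℕ, (∀ r, i r ∈ T) ∧ i 0 + g ≤ i 1 ∧ i 1 + g ≤ i 2 := by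
  have key : ∀ (S : Finset ℕ) (m : ℕ), m + (g + 1) ≤ S.card →
      ∃ a ∈ S, m + 1 ≤ (S.filter fun x => a + g ≤ x).card := by
    intro S m hS
    have hne : S.Nonempty := Finset.card_pos.1 (by omega)
    refine ⟨S.min' hne, S.min'_mem hne, ?_⟩
    have h1 := Finset.card_filter_add_card_filter_not (s := S) (fun x => S.min' hne + g ≤ x)
    have h2 : (S.filter fun x => ¬ S.min' hne + g ≤ x).card ≤ g := by
      have h3 : (S.filter fun x => ¬ S.min' hne + g ≤ x) ⊆
          Finset.Ico (S.min' hne) (S.min' hne + g) := by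
        intro x hx
        rw [Finset.mem_filter] at hx
        rw [Finset.mem_Ico]
        exact ⟨S.min'_le x hx.1, by omega⟩
      have h4 := Finset.card_le_card h3
      rw [Nat.card_Ico] at h4
      omega
    omega
  obtain ⟨a0, ha0, h1⟩ := key T g (by omega)
  obtain ⟨a1, ha1, h2⟩ := key (T.filter fun x => a0 + g ≤ x) 0 (by omega)
  obtain ⟨a2, ha2⟩ := Finset.card_pos.1 (show 0 < _ from h2)
  rw [Finset.mem_filter, Finset.mem_filter] at ha2
  rw [Finset.mem_filter] at ha1
  refine ⟨![a0, a1, a2], ?_, ha1.2, ha2.2⟩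
  intro r
  fin_cases r
  · exact ha0
  · exact ha1.1
  · exact ha2.1.1

private theorem short_to {V : Type} {G : SimpleGraph V} {v : V} (w : G.Walk v v) (hw : w.length ≤ 4)
    (F : V) (hF : F ∈ w.support) : ∃ p : G.Walk v F, p.length ≤ 2 := by
  classical
  have h1 : (w.takeUntil F hF).length + (w.dropUntil F hF).length = w.length := by
    rw [← SimpleGraph.Walk.length_append, SimpleGraph.Walk.take_spec]
  by_cases h2 : (w.takeUntil F hF).length ≤ 2
  · exact ⟨_, h2⟩
  · refine ⟨(w.dropUntil F hF).reverse, ?_⟩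
    rw [SimpleGraph.Walk.length_reverse]
    omega

section Frm

variable {k C : ℕ} {V Q : Type} [Fintype V] [AddCommGroup Q] [Module F2 Q] {c : Cfg k V Q}
  (f : Frame C c)

private theorem p1_card (n : ℕ) :
    ((range (n + 1)).filter fun i => i < 25 ∨ n < i + 25).card ≤ 50 := by
  have h1 : ((range (n + 1)).filter fun i => i < 25 ∨ n < i + 25) ⊆
      range 25 ∪ Finset.Ico (n + 1 - 25) (n + 1) := by
    intro i hi
    rw [Finset.mem_filter, Finset.mem_range] at hi
    rw [Finset.mem_union, Finset.mem_range, Finset.mem_Ico]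
    omega
  refine (Finset.card_le_card h1).trans ((Finset.card_union_le _ _).trans ?_)
  rw [Finset.card_range, Nat.card_Ico]
  omega

private theorem p2_card (j : Fin f.m) (b : V) :
    ((range (f.n j + 1)).filter fun i => 25 ≤ i ∧ i + 25 ≤ f.n j ∧
      ∃ w : c.R.Walk (f.x j i) b, w.length ≤ 3).card ≤ 13 := by
  rcases Finset.eq_empty_or_nonempty ((range (f.n j + 1)).filter fun i => 25 ≤ i ∧
    i + 25 ≤ f.n j ∧ ∃ w : c.R.Walk (f.x j i) b, w.length ≤ 3) with h | ⟨i0, h0⟩
  · rw [h, Finset.card_empty]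
    omega
  · rw [Finset.mem_filter] at h0
    obtain ⟨-, a1, a2, w0, hw0⟩ := h0
    have h1 : ((range (f.n j + 1)).filter fun i => 25 ≤ i ∧ i + 25 ≤ f.n j ∧
        ∃ w : c.R.Walk (f.x j i) b, w.length ≤ 3) ⊆ Finset.Icc (i0 - 6) (i0 + 6) := by
      intro i hi
      rw [Finset.mem_filter] at hi
      obtain ⟨-, b1, b2, w, hw⟩ := hi
      have h2 : (w0.append w.reverse).length ≤ 6 := by
        rw [SimpleGraph.Walk.length_append, SimpleGraph.Walk.length_reverse]
        omega
      obtain ⟨-, h3, h4⟩ := far_idx f j j i0 i (by omega) (by omega) (by omega) (by omega)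
        (w0.append w.reverse) h2
      rw [Finset.mem_Icc]
      omega
    refine (Finset.card_le_card h1).trans ?_
    rw [Nat.card_Icc]
    omega

private theorem fib (j : Fin f.m) (T : Finset ℕ) (h : Q) (hh : h ≠ 0)
    (W : ∀ i : ℕ, c.R.Walk (f.x j i) (f.x j i))
    (h1 : ∀ i ∈ T, 25 ≤ i ∧ i + 25 ≤ f.n j)
    (h2 : ∀ i ∈ T, ∀ b ∈ f.B, ∀ w : c.R.Walk (f.x j i) b, 3 < w.length)
    (h3 : ∀ i ∈ T, (W i).length ≤ 4)
    (h4 : ∀ i ∈ T, ((W i).edges.map c.a).sum = h) : T.card ≤ 2 * (60 * k + 80) := by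
  by_contra hcon
  obtain ⟨i, hi, g1, g2⟩ := three_far (60 * k + 80) T (by omega)
  have hb : ∀ r, 25 ≤ i r ∧ i r + 25 ≤ f.n j := fun r => h1 _ (hi r)
  have hgap : ∀ r r' : Fin 3, r ≠ r' → i r + (60 * k + 80) ≤ i r' ∨ i r' + (60 * k + 80) ≤ i r := by
    intro r r' hr
    fin_cases r <;> fin_cases r' <;> simp at hr ⊢ <;> omega
  have hq : ∀ r, f.x j (i r - 1 + 1) = f.x j (i r) := by
    intro r
    congr 1
    have := (hb r).1
    omega
  apply hh
  rw [← h4 (i 0) (hi 0)]
  refine c.touch (f.n j - 1) (fun t => f.x j (t + 1)) (fun r => f.x j (i r)) (fun r => W (i r))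
    (fun r => i r - 9) (fun r => i r + 7) ?_ ?_ ?_ ?_ ?_ ?_ ?_ ?_ ?_ (fun r => h3 _ (hi r)) ?_ ?_ ?_ ?_
  · intro t ht
    exact (f.adj j (t + 1) (by omega) (by omega) _).2 (Or.inr rfl)
  · intro t t' ht ht' he
    have hn := (hb 0).2
    have h5 := (f.inj j (t + 1) j (t' + 1) (by omega) (by omega) (by omega) (by omega) he).2
    omega
  · show i 0 + 7 + (60 * k + 60) ≤ i 1 - 9
    omega
  · show i 1 + 7 + (60 * k + 60) ≤ i 2 - 9
    omega
  · show i 2 + 7 ≤ f.n j - 1
    have := (hb 2).2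
    omega
  · intro r
    have := (hb r).1
    refine ⟨i r - 1, ?_, ?_, ?_⟩
    · show i r - 9 < i r - 1
      omega
    · show i r - 1 < i r + 7
      omega
    · show f.x j (i r - 1 + 1) ∈ (W (i r)).support
      rw [hq r]
      exact SimpleGraph.Walk.start_mem_support _
  · intro r t ht1 ht2 u hu
    have ht1' : i r - 9 < t := ht1
    have ht2' : t < i r + 7 := ht2
    have hb1 := (hb r).1
    have hb2 := (hb r).2
    rcases (f.adj j (t + 1) (by omega) (by omega) u).1 hu with e | e
    · left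
      rw [e]
      show f.x j (t + 1 - 1) = f.x j (t - 1 + 1)
      congr 1
      omega
    · right
      exact e
  · intro r F hF F' hF' hFF
    obtain ⟨p, hp⟩ := short_to (W (i r)) (h3 _ (hi r)) F' hF'
    have hwalk : ∃ w : c.R.Walk (f.x j (i r)) F, w.length ≤ 3 := by
      rcases hFF with e | e
      · rw [e]
        exact ⟨p, by omega⟩
      · refine ⟨p.append (SimpleGraph.Walk.cons e.symm SimpleGraph.Walk.nil), ?_⟩
        rw [SimpleGraph.Walk.length_append, SimpleGraph.Walk.length_cons,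
          SimpleGraph.Walk.length_nil]
        omega
    obtain ⟨w, hw⟩ := hwalk
    rcases f.cov F hF with hB | ⟨j', l', k1, k2, k3⟩
    · have := h2 _ (hi r) F hB w
      omega
    · subst k3
      have hb1 := (hb r).1
      have hb2 := (hb r).2
      obtain ⟨e1, e2, e3⟩ := far_idx f j j' (i r) l' (by omega) (by omega) k1 k2 w (by omega)
      subst e1
      refine ⟨l' - 1, ?_, ?_, ?_⟩
      · show i r - 9 < l' - 1
        omega
      · show l' - 1 < i r + 7
        omega
      · show f.x j' l' = f.x j' (l' - 1 + 1)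
        congr 1
        omega
  · intro r r' hr F hF F' hF'
    obtain ⟨p, hp⟩ := short_to (W (i r)) (h3 _ (hi r)) F hF
    obtain ⟨p', hp'⟩ := short_to (W (i r')) (h3 _ (hi r')) F' hF'
    have hb1 := hb r
    have hb2 := hb r'
    have hno : ∀ w : c.R.Walk (f.x j (i r)) (f.x j (i r')), ¬ w.length ≤ 5 := by
      intro w hw
      obtain ⟨-, e2, e3⟩ := far_idx f j j (i r) (i r') (by omega) (by omega) (by omega) (by omega)
        w (by omega)
      rcases hgap r r' hr with e | e <;> omega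
    constructor
    · intro e
      subst e
      apply hno (p.append p'.reverse)
      rw [SimpleGraph.Walk.length_append, SimpleGraph.Walk.length_reverse]
      omega
    · intro e
      apply hno (p.append (SimpleGraph.Walk.cons e p'.reverse))
      rw [SimpleGraph.Walk.length_append, SimpleGraph.Walk.length_cons,
        SimpleGraph.Walk.length_reverse]
      omega
  · intro r F hF hX
    obtain ⟨p, hp⟩ := short_to (W (i r)) (h3 _ (hi r)) F hF
    have := h2 _ (hi r) F (f.XB F hX) p
    omega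
  · intro t ht hX
    have hn := (hb 0).2
    exact f.notB j (t + 1) (by omega) (by omega) (f.XB _ hX)
  · show ((W (i 0)).edges.map c.a).sum = ((W (i 1)).edges.map c.a).sum
    rw [h4 _ (hi 0), h4 _ (hi 1)]
  · show ((W (i 1)).edges.map c.a).sum = ((W (i 2)).edges.map c.a).sum
    rw [h4 _ (hi 1), h4 _ (hi 2)]

end Frm

theorem card_nul (k C : ℕ) : ∃ N : ℕ, ∀ (V Q : Type) [Fintype V] [AddCommGroup Q] [Module F2 Q] (c : Cfg k V Q)
    (f : Frame C c) (j : Fin f.m), ((range (f.n j + 1)).filter fun i => ¬ f.Nul j i).card ≤ N := by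
  refine ⟨50 + 13 * C + 2 * (60 * k + 80) * 2 ^ k, ?_⟩
  intro V Q _ _ _ c f j
  have hW : ∀ i : ℕ, ∃ w : c.R.Walk (f.x j i) (f.x j i), ¬ f.Nul j i →
      w.length ≤ 4 ∧ (w.edges.map c.a).sum ≠ 0 := by
    intro i
    by_cases h : f.Nul j i
    · exact ⟨SimpleGraph.Walk.nil, fun h' => absurd h h'⟩
    · unfold Frame.Nul at h
      push Not at h
      obtain ⟨w, h1, h2⟩ := h
      exact ⟨w, fun _ => ⟨h1, h2⟩⟩
  choose W hW using hW
  obtain ⟨P3, hP3⟩ : ∃ P3 : Finset ℕ, P3 = (range (f.n j + 1)).filter fun i =>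
      (25 ≤ i ∧ i + 25 ≤ f.n j) ∧ (∀ b ∈ f.B, ∀ w : c.R.Walk (f.x j i) b, 3 < w.length) ∧
        ¬ f.Nul j i := ⟨_, rfl⟩
  have hsub : ((range (f.n j + 1)).filter fun i => ¬ f.Nul j i) ⊆
      (((range (f.n j + 1)).filter fun i => i < 25 ∨ f.n j < i + 25) ∪
        f.B.biUnion fun b => (range (f.n j + 1)).filter fun i => 25 ≤ i ∧ i + 25 ≤ f.n j ∧
          ∃ w : c.R.Walk (f.x j i) b, w.length ≤ 3) ∪ P3 := by
    intro i hi
    rw [Finset.mem_filter] at hi
    rw [Finset.mem_union, Finset.mem_union, Finset.mem_filter, Finset.mem_biUnion, hP3,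
      Finset.mem_filter]
    by_cases h1 : i < 25 ∨ f.n j < i + 25
    · exact Or.inl (Or.inl ⟨hi.1, h1⟩)
    · push Not at h1
      by_cases h2 : ∀ b ∈ f.B, ∀ w : c.R.Walk (f.x j i) b, 3 < w.length
      · exact Or.inr ⟨hi.1, h1, h2, hi.2⟩
      · push Not at h2
        obtain ⟨b, hb, w, hw⟩ := h2
        refine Or.inl (Or.inr ⟨b, hb, ?_⟩)
        rw [Finset.mem_filter]
        exact ⟨hi.1, h1.1, h1.2, w, hw⟩
  have c1 := p1_card (f.n j)
  have c2 : (f.B.biUnion fun b => (range (f.n j + 1)).filter fun i => 25 ≤ i ∧ i + 25 ≤ f.n j ∧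
      ∃ w : c.R.Walk (f.x j i) b, w.length ≤ 3).card ≤ 13 * C := by
    refine Finset.card_biUnion_le.trans ((Finset.sum_le_card_nsmul _ _ 13 fun b _ =>
      p2_card f j b).trans ?_)
    rw [smul_eq_mul, mul_comm]
    exact Nat.mul_le_mul_left 13 f.hB
  have c3 : P3.card ≤ 2 * (60 * k + 80) * 2 ^ k := by
    have _ := c.finH
    have hfin : Finite c.H := Module.finite_of_finite F2
    have _ : Fintype c.H := Fintype.ofFinite c.H
    have h1 : (P3.image fun i => (⟨((W i).edges.map c.a).sum, cw_mem c (W i)⟩ : c.H)).card ≤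
        2 ^ k := by
      refine (Finset.card_le_univ _).trans ?_
      rw [Module.card_eq_pow_finrank (K := F2), ZMod.card]
      exact Nat.pow_le_pow_right (by omega) c.dimH
    refine (Finset.card_le_mul_card_image P3 (2 * (60 * k + 80)) ?_).trans (Nat.mul_le_mul_left _ h1)
    intro h hh
    rw [Finset.mem_image] at hh
    obtain ⟨i0, hi0, he⟩ := hh
    rw [hP3, Finset.mem_filter] at hi0
    refine fib f j _ (h : Q) ?_ W ?_ ?_ ?_ ?_
    · rw [← he]
      exact (hW i0 hi0.2.2.2).2
    · intro i hi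
      rw [Finset.mem_filter, hP3, Finset.mem_filter] at hi
      exact hi.1.2.1
    · intro i hi
      rw [Finset.mem_filter, hP3, Finset.mem_filter] at hi
      exact hi.1.2.2.1
    · intro i hi
      rw [Finset.mem_filter, hP3, Finset.mem_filter] at hi
      exact (hW i hi.1.2.2.2).1
    · intro i hi
      rw [Finset.mem_filter] at hi
      rw [← hi.2]
  have c4 := Finset.card_le_card hsub
  have c5 := Finset.card_union_le (((range (f.n j + 1)).filter fun i => i < 25 ∨ f.n j < i + 25) ∪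
        f.B.biUnion fun b => (range (f.n j + 1)).filter fun i => 25 ≤ i ∧ i + 25 ≤ f.n j ∧
          ∃ w : c.R.Walk (f.x j i) b, w.length ≤ 3) P3
  have c6 := Finset.card_union_le ((range (f.n j + 1)).filter fun i => i < 25 ∨ f.n j < i + 25)
        (f.B.biUnion fun b => (range (f.n j + 1)).filter fun i => 25 ≤ i ∧ i + 25 ≤ f.n j ∧
          ∃ w : c.R.Walk (f.x j i) b, w.length ≤ 3)
  omega

end Pool.Agent.RPH
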