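import Pool.Agent.RPH.DEven
import Pool.Agent.RPH.DMem
import Pool.Agent.RPH.DNb

/-!
# RPH-DFl: the flow in the middle of a triple
-/

set_option autoImplicit false

open Finset
open scoped Classical

namespace Pool.Agent.RPH

open Pool.Agent.BEO hiding Cfg Frame

variable {k C : ℕ} {V Q : Type} [Fintype V] [AddCommGroup Q] [Module F2 Q] {c : Cfg k V Q} (f : Frame C c)

variable {f} {j : Fin f.m} {τ : Fin 4} {i1 i2 i3 : ℕ} {y1 y2 y3 : V}

private theorem fl_tw (i : ℕ) (u : V) :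
    u ∈ f.tw j i ↔ ∀ w, c.L.Adj u w ↔ c.L.Adj (f.x j i) w := by
  unfold Frame.tw
  rw [mem_filter]
  exact ⟨fun h => h.2, fun h => ⟨mem_univ _, h⟩⟩

private theorem fl_ty (σ : Fin 4) (i : ℕ) (u : V) : u ∈ f.ty σ j i ↔ f.Tr σ j i u := by
  unfold Frame.ty
  rw [mem_filter]
  exact ⟨fun h => h.2, fun h => ⟨mem_univ _, h⟩⟩

private theorem fl_cmn (i : ℕ) (u : V) :
    u ∈ f.cmn j i ↔ c.L.Adj u (f.x j (i - 1)) ∧ c.L.Adj u (f.x j (i + 1)) := by
  unfold Frame.cmn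
  rw [mem_filter]
  exact ⟨fun h => h.2, fun h => ⟨mem_univ _, h⟩⟩

private theorem fl_X (i : ℕ) (u : V) :
    u ∈ f.tw j (i - 1) ∪ f.tw j (i + 1) ∪ f.ty 0 j i ↔
      (u ∈ f.tw j (i - 1) ∨ u ∈ f.tw j (i + 1) ∨ f.Tr 0 j i u) := by
  rw [mem_union, mem_union, fl_ty, or_assoc]

private theorem fl_p1 {a b c d e g : Prop} (hd : ¬ d) (hg : ¬ g) :
    (a ∨ b ∨ c ∨ d ∨ e ∨ g) ↔ ((a ∨ b ∨ c) ∨ e) := by
  constructor
  · rintro (h | h | h | h | h | h)
    · exact Or.inl (Or.inl h)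
    · exact Or.inl (Or.inr (Or.inl h))
    · exact Or.inl (Or.inr (Or.inr h))
    · exact absurd h hd
    · exact Or.inr h
    · exact absurd h hg
  · rintro ((h | h | h) | h)
    · exact Or.inl h
    · exact Or.inr (Or.inl h)
    · exact Or.inr (Or.inr (Or.inl h))
    · exact Or.inr (Or.inr (Or.inr (Or.inr (Or.inl h))))

private theorem fl_p2 {X A T : Prop} (h6 : A → ¬ T) (h7 : X → ¬ (A ∨ T)) :
    ¬ ((X ∨ T) ↔ (A ∨ T)) ↔ (X ∨ A) := by
  constructor
  · intro h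
    by_contra hn
    apply h
    constructor
    · rintro (hx | ht)
      · exact absurd (Or.inl hx) hn
      · exact Or.inr ht
    · rintro (ha | ht)
      · exact absurd (Or.inr ha) hn
      · exact Or.inr ht
  · rintro (hx | ha) h
    · exact h7 hx (h.1 (Or.inl hx))
    · rcases h.2 (Or.inl ha) with hx | ht
      · exact h7 hx (Or.inl ha)
      · exact h6 ha ht

private theorem fl_irr (v : V) : ¬ c.L.Adj v v := fun h => h.ne rfl

private theorem fl_U (h : f.Trp j τ i1 i2 i3 y1 y2 y3) (i : ℕ) (h1 : i1 + 8 ≤ i) (h2 : i + 8 ≤ i3)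
    (u : V) : u ∈ f.cmn j i ↔ (u ∈ f.tw j i ∨ f.Tr 3 j i u) :=
  ⟨cmn_mem f j i (h.ok _ (by omega) (by omega)) (h.ok _ (by omega) (by omega))
    (h.ok _ (by omega) (by omega)) u,
   mem_cmn f j i (h.ok _ (by omega) (by omega)) u⟩

private theorem fl_AT (h : f.Trp j τ i1 i2 i3 y1 y2 y3) (i : ℕ) (h1 : i1 + 8 ≤ i) (h2 : i + 8 ≤ i3)
    (u : V) (hu : u ∈ f.tw j i) : ¬ f.Tr 3 j i u := by
  intro hT
  have ho := h.ok i (by omega) (by omega)
  have hlo := ho.lo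
  have hhi := ho.hi
  have ha : c.L.Adj u (f.x j i) := (hT.2.2.2 j i (by omega) (by omega)).2
    ⟨rfl, Or.inr (Or.inr (Or.inr ⟨rfl, Or.inr (Or.inl rfl)⟩))⟩
  exact fl_irr _ (((fl_tw i u).1 hu _).1 ha)

private theorem fl_XU (h : f.Trp j τ i1 i2 i3 y1 y2 y3) (i : ℕ) (h1 : i1 + 8 ≤ i) (h2 : i + 8 ≤ i3)
    (u : V) (hu : u ∈ f.tw j (i - 1) ∨ u ∈ f.tw j (i + 1) ∨ f.Tr 0 j i u) : u ∉ f.cmn j i := by
  intro hc
  rw [fl_cmn] at hc
  rcases hu with hu | hu | hu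
  · exact fl_irr _ (((fl_tw _ u).1 hu _).1 hc.1)
  · exact fl_irr _ (((fl_tw _ u).1 hu _).1 hc.2)
  · have ho := h.ok i (by omega) (by omega)
    have hlo := ho.lo
    have hhi := ho.hi
    have h3 := ((hu.2.2.2 j (i - 1) (by omega) (by omega)).1 hc.1).2
    unfold Frame.Ty at h3
    omega

private theorem fl_nbA (h : f.Trp j τ i1 i2 i3 y1 y2 y3) (i : ℕ) (h1 : i1 + 8 ≤ i) (h2 : i + 8 ≤ i3)
    (hp : (i1 + i) % 2 = 0) (w : V) : c.L.Adj (f.x j i) w ↔
      ((w ∈ f.tw j (i - 1) ∨ w ∈ f.tw j (i + 1) ∨ f.Tr 0 j i w) ∨ f.Tr 3 j i w) := by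
  have n1 := (trp_no h (i - 1) (by omega) (by omega) (by omega) w).2
  have n2 := (trp_no h (i + 1) (by omega) (by omega) (by omega) w).2
  rw [nb_x f j i (h.ok _ (by omega) (by omega)) (h.ok _ (by omega) (by omega))
    (h.ok _ (by omega) (by omega)) w]
  exact fl_p1 n1 n2

theorem trp_flow (h : f.Trp j τ i1 i2 i3 y1 y2 y3) (s t : ℕ) (h1 : i1 + 8 ≤ s) (h2 : t + 8 ≤ i3) (hst : s < t)
    (hs : (i1 + s) % 2 = 0) (ht : (i1 + t) % 2 = 0) (hexc : ∀ i, s ≤ i → i ≤ t → (i1 + i) % 2 = 0 → ¬ f.Exc j i) :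
    f.Flow j s t (f.cmn j) (f.tw j) (f.ty 3 j) (fun i => f.tw j (i - 1) ∪ f.tw j (i + 1) ∪ f.ty 0 j i) := by
  refine ⟨by omega, hst, (h.ok s (by omega) (by omega)).lo, (h.ok t (by omega) (by omega)).hi,
    ?_, ?_, ?_, ?_, ?_, ?_, ?_, ?_, ?_⟩
  · intro l hl1 hl2 hl3 u
    exact trp_nbx h l (by omega) (by omega) (by omega) u
  · intro l hl1 hl2 hl3
    exact trp_dj h l (by omega) (by omega) (by omega)
  · intro l hl1 hl2
    exact (h.ok l (by omega) (by omega)).nul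
  · intro i hi1 hi2 hi3
    exact trp_even h i (by omega) (by omega) (by omega)
  · intro i hi1 hi2 hi3
    exact mem_tw_self f j i
  · intro i hi1 hi2 hi3
    refine ⟨?_, ?_, ?_⟩
    · ext u
      rw [mem_union, fl_ty]
      exact fl_U h i (by omega) (by omega) u
    · rw [Finset.disjoint_left]
      intro u hu hu'
      rw [fl_ty] at hu'
      exact fl_AT h i (by omega) (by omega) u hu hu'
    · rw [Finset.disjoint_left]
      intro u hu
      rw [fl_X] at hu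
      exact fl_XU h i (by omega) (by omega) u hu
  · intro i hi1 hi2 hi3 u hu w
    rw [(fl_tw i u).1 hu w, fl_nbA h i (by omega) (by omega) (by omega) w]
    show _ ↔ (w ∈ f.tw j (i - 1) ∪ f.tw j (i + 1) ∪ f.ty 0 j i ∨ w ∈ f.ty 3 j i)
    rw [fl_X, fl_ty]
  · intro i hi1 hi2 hi3 u hu w
    show _ ↔ (w ∈ f.tw j (i - 1) ∪ f.tw j (i + 1) ∪ f.ty 0 j i ∨ w ∈ f.tw j i)
    rw [fl_X]
    rw [fl_ty] at hu
    have hne := hexc i (by omega) (by omega) (by omega)
    have h3 : c.L.Adj u w ↔ ¬ (c.L.Adj (f.x j i) w ↔ w ∈ f.cmn j i) := by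
      by_contra hcon
      exact hne (Or.inr ⟨u, hu, w, hcon⟩)
    have h4 := fl_nbA h i (by omega) (by omega) (by omega) w
    have h5 := fl_U h i (by omega) (by omega) w
    have h6 := fl_AT h i (by omega) (by omega) w
    have h7 := fl_XU h i (by omega) (by omega) w
    rw [h3, h4, h5]
    rw [h5] at h7
    exact fl_p2 h6 h7
  · intro i hi1 hi2 hi3 w hw u hu
    change w ∈ f.tw j (i - 1) ∪ f.tw j (i + 1) ∪ f.ty 0 j i at hw
    rw [fl_X] at hw
    rcases hw with hw | hw | hw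
    · have h3 := ((fl_tw _ w).1 hw u).1 hu
      rw [trp_nbx h (i - 1) (by omega) (by omega) (by omega) u] at h3
      rcases h3 with h3 | h3
      · exact ⟨i - 1 - 1, by omega, by omega, by omega, h3⟩
      · exact ⟨i - 1 + 1, by omega, by omega, by omega, h3⟩
    · have h3 := ((fl_tw _ w).1 hw u).1 hu
      rw [trp_nbx h (i + 1) (by omega) (by omega) (by omega) u] at h3
      rcases h3 with h3 | h3
      · exact ⟨i + 1 - 1, by omega, by omega, by omega, h3⟩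
      · exact ⟨i + 1 + 1, by omega, by omega, by omega, h3⟩
    · have hne := hexc i (by omega) (by omega) (by omega)
      have h3 : c.L.Adj w u ↔ u ∈ f.cmn j i := by
        by_contra hcon
        exact hne (Or.inl ⟨w, hw, u, hcon⟩)
      exact ⟨i, by omega, by omega, by omega, h3.1 hu⟩

end Pool.Agent.RPH
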