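import Pool.Agent.RPH.DDef
import Pool.Agent.BEO.Par

/-!
# RPH-DFlowA: the class of the edges at a set `U i` of a flow

`star_eq` by closed walks of length 4, `flow_cls` by triangles and parities.
-/

set_option autoImplicit false

open Finset
open scoped Classical

namespace Pool.Agent.RPH

open Pool.Agent.BEO hiding Cfg Frame

variable {k C : ℕ} {V Q : Type} [Fintype V] [AddCommGroup Q] [Module F2 Q] {c : Cfg k V Q} (f : Frame C c)

private theorem dfa_pair (c : Cfg k V Q) (x y u u' : V)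
    (hnul : ∀ w : c.R.Walk x x, w.length ≤ 4 → (w.edges.map c.a).sum = 0) (h1 : c.L.Adj x u) (h2 : c.L.Adj y u)
    (h3 : c.L.Adj x u') (h4 : c.L.Adj y u') :
    c.a s(x, u) + c.a s(y, u) = c.a s(x, u') + c.a s(y, u') := by
  have h := hnul (SimpleGraph.Walk.cons (c.leR h1) (SimpleGraph.Walk.cons (c.leR h2.symm)
    (SimpleGraph.Walk.cons (c.leR h4) (SimpleGraph.Walk.cons (c.leR h3.symm) SimpleGraph.Walk.nil)))) (by simp)
  simp only [SimpleGraph.Walk.edges_cons, SimpleGraph.Walk.edges_nil, List.map_cons, List.map_nil,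
    List.sum_cons, List.sum_nil, add_zero] at h
  rw [Sym2.eq_swap (a := u) (b := y), Sym2.eq_swap (a := u') (b := x)] at h
  have e1 : c.a s(x, u) + c.a s(y, u) + (c.a s(x, u') + c.a s(y, u')) = 0 := by
    rw [← h]
    abel
  have e2 := q_add_self (c.a s(x, u') + c.a s(y, u'))
  calc c.a s(x, u) + c.a s(y, u) = c.a s(x, u) + c.a s(y, u) + (c.a s(x, u') + c.a s(y, u'))
        + (c.a s(x, u') + c.a s(y, u')) := by rw [add_assoc _ (c.a s(x, u') + c.a s(y, u')), e2, add_zero]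
    _ = c.a s(x, u') + c.a s(y, u') := by rw [e1, zero_add]

private theorem dfa_tri (c : Cfg k V Q) (x u u' : V)
    (hnul : ∀ w : c.R.Walk x x, w.length ≤ 4 → (w.edges.map c.a).sum = 0) (h1 : c.L.Adj x u) (h2 : c.L.Adj u u')
    (h3 : c.L.Adj x u') : c.a s(u, u') = c.a s(x, u) + c.a s(x, u') := by
  have h := hnul (SimpleGraph.Walk.cons (c.leR h1) (SimpleGraph.Walk.cons (c.leR h2)
    (SimpleGraph.Walk.cons (c.leR h3.symm) SimpleGraph.Walk.nil))) (by simp)
  simp only [SimpleGraph.Walk.edges_cons, SimpleGraph.Walk.edges_nil, List.map_cons, List.map_nil,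
    List.sum_cons, List.sum_nil, add_zero] at h
  rw [Sym2.eq_swap (a := u') (b := x)] at h
  have e2 := q_add_self (c.a s(u, u'))
  calc c.a s(u, u') = c.a s(u, u') + (c.a s(x, u) + (c.a s(u, u') + c.a s(x, u'))) := by
        rw [h, add_zero]
    _ = (c.a s(u, u') + c.a s(u, u')) + (c.a s(x, u) + c.a s(x, u')) := by abel
    _ = c.a s(x, u) + c.a s(x, u') := by rw [e2, zero_add]

private theorem dfa_even {n : ℕ} (h : Even n) (z : Q) : n • z = 0 := by
  obtain ⟨r, rfl⟩ := h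
  rw [add_smul, q_add_self]

private theorem dfa_odd {n : ℕ} (h : ¬ Even n) (z : Q) : n • z = z := by
  rw [Nat.not_even_iff_odd] at h
  obtain ⟨r, rfl⟩ := h
  rw [add_smul, one_smul, dfa_even ⟨r, by ring⟩, zero_add]

theorem star_eq (c : Cfg k V Q) (U : Finset V) (hU : Even U.card) (x x' : V)
    (hnul : ∀ w : c.R.Walk x x, w.length ≤ 4 → (w.edges.map c.a).sum = 0) (h : ∀ u ∈ U, c.L.Adj x u ∧ c.L.Adj x' u) :
    ∑ u ∈ U, c.a s(x, u) = ∑ u ∈ U, c.a s(x', u) := by
  have h1 : ∑ u ∈ U, (c.a s(x, u) + c.a s(x', u)) = 0 := by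
    rcases U.eq_empty_or_nonempty with h0 | ⟨v, hv⟩
    · rw [h0, sum_empty]
    · rw [sum_congr rfl (fun u hu => dfa_pair c x x' u v hnul (h u hu).1 (h u hu).2 (h v hv).1 (h v hv).2),
        sum_const, dfa_even hU]
  rw [sum_add_distrib] at h1
  have e2 := q_add_self (∑ u ∈ U, c.a s(x', u))
  calc ∑ u ∈ U, c.a s(x, u) = ∑ u ∈ U, c.a s(x, u) + (∑ u ∈ U, c.a s(x', u) + ∑ u ∈ U, c.a s(x', u)) := by
        rw [e2, add_zero]
    _ = ∑ u ∈ U, c.a s(x', u) := by rw [← add_assoc, h1, zero_add]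

theorem flow_cls {j : Fin f.m} {s t : ℕ} {U A T X : ℕ → Finset V} (h : f.Flow j s t U A T X) (i : ℕ) (h1 : s < i)
    (h2 : i < t) (h3 : (s + i) % 2 = 0) :
    ∑ e ∈ (es c.L).filter (fun e => ∃ u ∈ U i, u ∈ e), c.a e = 0 := by
  obtain ⟨hsp, hAT, hXU⟩ := h.split i h1 h2 h3
  have hA := h.nbA i h1 h2 h3
  have hT := h.nbT i h1 h2 h3
  have hev := h.ev i h1 h2 h3
  have hx := h.mem i h1 h2 h3
  have hpar := h.par
  have hAU : ∀ u ∈ A i, u ∈ U i := fun u hu => by rw [hsp]; exact mem_union_left _ hu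
  have hTU : ∀ u ∈ T i, u ∈ U i := fun u hu => by rw [hsp]; exact mem_union_right _ hu
  have hXn : ∀ w ∈ X i, w ∉ U i := fun w hw hw' => (disjoint_left.1 hXU) hw hw'
  -- the vertex `x0`
  have hx0 : ∀ u ∈ U i, c.L.Adj (f.x j (i + 1)) u := by
    intro u hu
    rw [h.nbx (i + 1) (by omega) (by omega) (by omega) u]
    left
    exact hu
  have hnul : ∀ w : c.R.Walk (f.x j (i + 1)) (f.x j (i + 1)), w.length ≤ 4 → (w.edges.map c.a).sum = 0 :=
    h.nul (i + 1) (by omega) (by omega)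
  set x0 := f.x j (i + 1) with hx0d
  have hx0X : x0 ∈ X i := by
    have h4 : c.L.Adj (f.x j i) x0 := (hx0 _ (hAU _ hx)).symm
    rcases (hA _ hx x0).1 h4 with h5 | h5
    · exact h5
    · exact absurd (hx0 _ (hTU _ h5)) (c.L.irrefl)
  have hXadj : ∀ w ∈ X i, ∀ u ∈ U i, c.L.Adj w u := by
    intro w hw u hu
    rw [hsp, mem_union] at hu
    rcases hu with hu | hu
    · exact ((hA u hu w).2 (Or.inl hw)).symm
    · exact ((hT u hu w).2 (Or.inl hw)).symm
  -- parities
  have hp1 : (A i).card + (T i).card = (U i).card := by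
    rw [hsp, card_union_of_disjoint hAT]
  have hp2 : (X i).card + (T i).card = (nb c.L (f.x j i)).card := by
    rw [← card_union_of_disjoint]
    · congr 1
      ext w
      unfold nb
      rw [mem_union, mem_filter, hA _ hx w]
      simp
    · rw [disjoint_left]
      intro w hw hw'
      exact hXn w hw (hTU w hw')
  have hev2 := c.evL (f.x j i)
  -- the edges
  have hedge : (es c.L).filter (fun e => ∃ u ∈ U i, u ∈ e) =
      (X i ×ˢ U i).image (fun p => s(p.1, p.2)) ∪ (A i ×ˢ T i).image (fun p => s(p.1, p.2)) := by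
    ext e
    rw [mem_filter, mem_union, mem_image, mem_image]
    constructor
    · rintro ⟨he, u, hu, hue⟩
      obtain ⟨w, rfl⟩ := Sym2.mem_iff_exists.1 hue
      unfold es at he
      rw [mem_filter, SimpleGraph.mem_edgeSet] at he
      have hadj := he.2
      rw [hsp, mem_union] at hu
      rcases hu with hu' | hu'
      · rcases (hA u hu' w).1 hadj with hw | hw
        · exact Or.inl ⟨(w, u), mem_product.2 ⟨hw, hAU u hu'⟩, Sym2.eq_swap⟩
        · exact Or.inr ⟨(u, w), mem_product.2 ⟨hu', hw⟩, rfl⟩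
      · rcases (hT u hu' w).1 hadj with hw | hw
        · exact Or.inl ⟨(w, u), mem_product.2 ⟨hw, hTU u hu'⟩, Sym2.eq_swap⟩
        · exact Or.inr ⟨(w, u), mem_product.2 ⟨hw, hu'⟩, Sym2.eq_swap⟩
    · rintro (⟨p, hp, rfl⟩ | ⟨p, hp, rfl⟩)
      · rw [mem_product] at hp
        refine ⟨?_, p.2, hp.2, Sym2.mem_mk_right _ _⟩
        unfold es
        rw [mem_filter, SimpleGraph.mem_edgeSet]
        exact ⟨mem_univ _, hXadj _ hp.1 _ hp.2⟩
      · rw [mem_product] at hp
        refine ⟨?_, p.1, hAU _ hp.1, Sym2.mem_mk_left _ _⟩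
        unfold es
        rw [mem_filter, SimpleGraph.mem_edgeSet]
        exact ⟨mem_univ _, (hA _ hp.1 _).2 (Or.inr hp.2)⟩
  have hdis : Disjoint ((X i ×ˢ U i).image (fun p => s(p.1, p.2)))
      ((A i ×ˢ T i).image (fun p : V × V => s(p.1, p.2))) := by
    rw [disjoint_left]
    intro e he he'
    rw [mem_image] at he he'
    obtain ⟨p, hp, rfl⟩ := he
    obtain ⟨q, hq, hpq⟩ := he'
    rw [mem_product] at hp hq
    rw [Sym2.eq_iff] at hpq
    rcases hpq with ⟨e1, -⟩ | ⟨-, e2⟩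
    · exact hXn _ hp.1 (e1 ▸ hAU _ hq.1)
    · exact hXn _ hp.1 (e2 ▸ hTU _ hq.2)
  have hinj1 : Set.InjOn (fun p : V × V => s(p.1, p.2)) (X i ×ˢ U i : Finset (V × V)) := by
    intro p hp q hq hpq
    rw [mem_coe, mem_product] at hp hq
    have hpq' : s(p.1, p.2) = s(q.1, q.2) := hpq
    rw [Sym2.eq_iff] at hpq'
    rcases hpq' with ⟨e1, e2⟩ | ⟨e1, e2⟩
    · exact Prod.ext e1 e2
    · exact absurd (e1 ▸ hq.2) (hXn _ hp.1)
  have hinj2 : Set.InjOn (fun p : V × V => s(p.1, p.2)) (A i ×ˢ T i : Finset (V × V)) := by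
    intro p hp q hq hpq
    rw [mem_coe, mem_product] at hp hq
    have hpq' : s(p.1, p.2) = s(q.1, q.2) := hpq
    rw [Sym2.eq_iff] at hpq'
    rcases hpq' with ⟨e1, e2⟩ | ⟨e1, e2⟩
    · exact Prod.ext e1 e2
    · exact absurd (e1 ▸ hq.2) (disjoint_left.1 hAT hp.1)
  rw [hedge, sum_union hdis, sum_image hinj1, sum_image hinj2, sum_product, sum_product]
  -- the two sums
  have e1 : ∑ w ∈ X i, ∑ u ∈ U i, c.a s(w, u) = (X i).card • ∑ u ∈ U i, c.a s(x0, u) := by
    rw [← sum_const]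
    refine sum_congr rfl fun w hw => ?_
    exact (star_eq c (U i) hev x0 w hnul fun u hu => ⟨hx0 u hu, hXadj w hw u hu⟩).symm
  have e2 : ∑ u ∈ A i, ∑ u' ∈ T i, c.a s(u, u') =
      (T i).card • ∑ u ∈ A i, c.a s(x0, u) + (A i).card • ∑ u' ∈ T i, c.a s(x0, u') := by
    have e3 : ∀ u ∈ A i, ∑ u' ∈ T i, c.a s(u, u') =
        (T i).card • c.a s(x0, u) + ∑ u' ∈ T i, c.a s(x0, u') := by
      intro u hu
      rw [← sum_const, ← sum_add_distrib]
      refine sum_congr rfl fun u' hu' => ?_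
      exact dfa_tri c x0 u u' hnul (hx0 u (hAU u hu)) ((hA u hu u').2 (Or.inr hu')) (hx0 u' (hTU u' hu'))
    rw [sum_congr rfl e3, sum_add_distrib, sum_const, ← smul_sum]
  have e4 : ∑ u ∈ U i, c.a s(x0, u) = ∑ u ∈ A i, c.a s(x0, u) + ∑ u ∈ T i, c.a s(x0, u) := by
    rw [hsp, sum_union hAT]
  show ∑ w ∈ X i, ∑ u ∈ U i, c.a s(w, u) + ∑ u ∈ A i, ∑ u' ∈ T i, c.a s(u, u') = 0
  rw [e1, e2, e4]
  rw [← hp1] at hev
  rw [← hp2] at hev2
  by_cases hT2 : Even (T i).card
  · have hA2 : Even (A i).card := by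
      rw [Nat.even_add] at hev
      exact hev.2 hT2
    have hX2 : Even (X i).card := by
      rw [Nat.even_add] at hev2
      exact hev2.2 hT2
    rw [dfa_even hX2, dfa_even hT2, dfa_even hA2, add_zero, add_zero]
  · have hA2 : ¬ Even (A i).card := by
      rw [Nat.even_add] at hev
      exact fun h => hT2 (hev.1 h)
    have hX2 : ¬ Even (X i).card := by
      rw [Nat.even_add] at hev2
      exact fun h => hT2 (hev2.1 h)
    rw [dfa_odd hX2, dfa_odd hT2, dfa_odd hA2, q_add_self]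

end Pool.Agent.RPH
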