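import Pool.Agent.BEO.Base

/-!
# RPH-DRank: deleting the edges at a set of vertices containing a long path

The rows of `L` are mapped onto the coordinates `p 2, ..., p (m - 1)`; the kernel contains the rows of the vertices
outside `P2`.
-/

set_option autoImplicit false

open Finset
open scoped Classical

namespace Pool.Agent.RPH

open Pool.Agent.BEO

variable {V : Type} [Fintype V]

/-- the edges of `L` with no end in `P` -/
def outG (L : SimpleGraph V) (P : Finset V) : SimpleGraph V where
  Adj u w := L.Adj u w ∧ u ∉ P ∧ w ∉ P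
  symm := ⟨fun _ _ h => ⟨h.1.symm, h.2.2, h.2.1⟩⟩
  loopless := ⟨fun _ h => h.1.ne rfl⟩

private theorem row_out (L : SimpleGraph V) (P1 P2 : Finset V) (h12 : P1 ⊆ P2)
    (hP : ∀ w ∈ P2, w ∉ P1 → ∀ u, L.Adj w u → u ∈ P1) (u w : V) :
    row (outG L P1) u w = if u ∈ P2 then 0 else if w ∈ P2 then 0 else row L u w := by
  have hn : ∀ a b, (outG L P1).Adj a b → a ∉ P2 := by
    rintro a b ⟨h1, h2, h3⟩ h4
    exact h3 (hP a h4 h2 b h1)
  unfold row
  by_cases hu : u ∈ P2
  · rw [if_pos hu, if_neg fun h => hn u w h hu]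
  · rw [if_neg hu]
    by_cases hw : w ∈ P2
    · rw [if_pos hw, if_neg fun h => hn w u h.symm hw]
    · rw [if_neg hw]
      by_cases h : L.Adj u w
      · rw [if_pos h, if_pos ⟨h, fun h1 => hu (h12 h1), fun h1 => hw (h12 h1)⟩]
      · rw [if_neg h, if_neg fun h1 => h h1.1]

/-- the coordinates outside `P2` -/
private noncomputable def rho (P2 : Finset V) : (V → F2) →ₗ[F2] (V → F2) :=
  LinearMap.pi fun w => if w ∈ P2 then 0 else LinearMap.proj w

private theorem rho_apply (P2 : Finset V) (r : V → F2) (w : V) :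
    rho P2 r w = if w ∈ P2 then 0 else r w := by
  unfold rho
  rw [LinearMap.pi_apply]
  by_cases h : w ∈ P2
  · rw [if_pos h, if_pos h]
    rfl
  · rw [if_neg h, if_neg h]
    rfl

/-- the coordinates `p 2, p 3, ...` -/
private noncomputable def cpi (L : SimpleGraph V) (p : ℕ → V) (k : ℕ) : rowSp L →ₗ[F2] (Fin k → F2) :=
  (LinearMap.pi fun i : Fin k => LinearMap.proj (p (i.val + 2))).comp (rowSp L).subtype

private theorem cpi_apply (L : SimpleGraph V) (p : ℕ → V) (k : ℕ) (r : rowSp L) (i : Fin k) :
    cpi L p k r i = (r : V → F2) (p (i.val + 2)) := rfl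

private theorem cpi_surj (L : SimpleGraph V) (m : ℕ) (p : ℕ → V)
    (hpath : ∀ i j, i ≤ m → j ≤ m → (L.Adj (p i) (p j) ↔ (i + 1 = j ∨ j + 1 = i))) :
    LinearMap.range (cpi L p (m - 2)) = ⊤ := by
  have key : ∀ n : ℕ, ∀ i : Fin (m - 2), i.val = n →
      (Pi.single i 1 : Fin (m - 2) → F2) ∈ LinearMap.range (cpi L p (m - 2)) := by
    intro n
    induction n using Nat.strong_induction_on with
    | _ n ih =>
      intro i hi
      have hil := i.isLt
      have hmem : row L (p (i.val + 1)) ∈ rowSp L := Submodule.subset_span ⟨_, rfl⟩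
      have hval : ∀ j : Fin (m - 2), cpi L p (m - 2) ⟨row L (p (i.val + 1)), hmem⟩ j =
          if j = i ∨ j.val + 2 = i.val then 1 else 0 := by
        intro j
        have hjl := j.isLt
        rw [cpi_apply]
        show row L (p (i.val + 1)) (p (j.val + 2)) = _
        unfold row
        have h1 : L.Adj (p (i.val + 1)) (p (j.val + 2)) ↔ (j = i ∨ j.val + 2 = i.val) := by
          rw [hpath _ _ (by omega) (by omega), Fin.ext_iff]
          omega
        by_cases h2 : L.Adj (p (i.val + 1)) (p (j.val + 2))
        · rw [if_pos h2, if_pos (h1.1 h2)]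
        · rw [if_neg h2, if_neg fun h3 => h2 (h1.2 h3)]
      by_cases h2 : 2 ≤ i.val
      · have h3 := ih (i.val - 2) (by omega) ⟨i.val - 2, by omega⟩ rfl
        have h4 : (Pi.single i 1 : Fin (m - 2) → F2) =
            cpi L p (m - 2) ⟨row L (p (i.val + 1)), hmem⟩ - Pi.single ⟨i.val - 2, by omega⟩ 1 := by
          funext j
          rw [Pi.sub_apply, hval, Pi.single_apply, Pi.single_apply]
          by_cases h5 : j = i
          · have h6 : ¬ j = ⟨i.val - 2, by omega⟩ := by
              rw [Fin.ext_iff]
              show ¬ j.val = i.val - 2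
              rw [h5]
              omega
            rw [if_pos h5, if_pos (Or.inl h5), if_neg h6, sub_zero]
          · by_cases h6 : j.val + 2 = i.val
            · have h7 : j = ⟨i.val - 2, by omega⟩ := by
                rw [Fin.ext_iff]
                show j.val = i.val - 2
                omega
              rw [if_neg h5, if_pos (Or.inr h6), if_pos h7, sub_self]
            · have h7 : ¬ j = ⟨i.val - 2, by omega⟩ := by
                rw [Fin.ext_iff]
                show ¬ j.val = i.val - 2
                omega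
              rw [if_neg h5, if_neg (fun h8 => h8.elim h5 h6), if_neg h7, sub_zero]
        rw [h4]
        exact Submodule.sub_mem _ ⟨_, rfl⟩ h3
      · have h4 : (Pi.single i 1 : Fin (m - 2) → F2) = cpi L p (m - 2) ⟨row L (p (i.val + 1)), hmem⟩ := by
          funext j
          rw [hval, Pi.single_apply]
          by_cases h5 : j = i
          · rw [if_pos h5, if_pos (Or.inl h5)]
          · rw [if_neg h5, if_neg]
            rintro (h6 | h6)
            · exact h5 h6
            · omega
        rw [h4]
        exact ⟨_, rfl⟩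
  rw [eq_top_iff, ← (Pi.basisFun F2 (Fin (m - 2))).span_eq, Submodule.span_le]
  rintro _ ⟨i, rfl⟩
  rw [Pi.basisFun_apply]
  exact key _ i rfl

theorem rank_out (L : SimpleGraph V) (P1 P2 : Finset V) (h12 : P1 ⊆ P2)
    (hP : ∀ w ∈ P2, w ∉ P1 → ∀ u, L.Adj w u → u ∈ P1) (m : ℕ) (p : ℕ → V)
    (hinj : ∀ i j, i ≤ m → j ≤ m → p i = p j → i = j) (hp : ∀ i, i ≤ m → p i ∈ P2)
    (hpath : ∀ i j, i ≤ m → j ≤ m → (L.Adj (p i) (p j) ↔ (i + 1 = j ∨ j + 1 = i)))
    (hcross : ∀ i, 0 < i → i < m → ∀ w, w ∉ P2 → ¬ L.Adj (p i) w) :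
    Module.finrank F2 (rowSp (outG L P1)) + m ≤ Module.finrank F2 (rowSp L) + 4 := by
  have h1 := LinearMap.finrank_range_add_finrank_ker (cpi L p (m - 2))
  rw [cpi_surj L m p hpath, finrank_top, Module.finrank_fin_fun] at h1
  have h2 : rowSp (outG L P1) ≤
      (LinearMap.ker (cpi L p (m - 2))).map ((rho P2).comp (rowSp L).subtype) := by
    unfold rowSp
    rw [Submodule.span_le]
    rintro _ ⟨u, rfl⟩
    by_cases hu : u ∈ P2
    · have h3 : row (outG L P1) u = 0 := by
        funext w
        rw [row_out L P1 P2 h12 hP, if_pos hu]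
        rfl
      rw [h3]
      exact Submodule.zero_mem _
    · have hmem : row L u ∈ rowSp L := Submodule.subset_span ⟨_, rfl⟩
      refine ⟨⟨row L u, hmem⟩, ?_, ?_⟩
      · show cpi L p (m - 2) ⟨row L u, hmem⟩ = 0
        funext i
        have hil := i.isLt
        rw [cpi_apply]
        show row L u (p (i.val + 2)) = 0
        unfold row
        rw [if_neg]
        intro h3
        exact hcross (i.val + 2) (by omega) (by omega) u hu h3.symm
      · funext w
        show rho P2 (row L u) w = row (outG L P1) u w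
        rw [rho_apply, row_out L P1 P2 h12 hP, if_neg hu]
  have h3 := (Submodule.finrank_mono h2).trans (Submodule.finrank_map_le _ _)
  omega

end Pool.Agent.RPH
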