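import Pool.Agent.RPH.DBad2
import Pool.Agent.RPH.DE03

/-!
# RPH-DGood: few positions are not good

PLAN. `N1` from `card_bad1`, `N2` from `card_E03`. A position `i` in `range (f.n j + 1)` which is not good has within
distance `D := 13 k + 30` a position `l` which is not `Ok2`. If `f.n j < l`: at most `D` positions `i`. Otherwise `l` is in
`range (f.n j + 1)` and is one of at most `N1 + N2` positions, each responsible for at most `2 D + 1` values of `i`.
-/

set_option autoImplicit false

open Finset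
open scoped Classical

namespace Pool.Agent.RPH

open Pool.Agent.BEO hiding Cfg Frame

theorem card_good (k C : ℕ) : ∃ N : ℕ, ∀ (V Q : Type) [Fintype V] [AddCommGroup Q] [Module F2 Q] (c : Cfg k V Q)
    (f : Frame C c) (j : Fin f.m), ((range (f.n j + 1)).filter fun i => ¬ f.Good j i).card ≤ N := by
  obtain ⟨N1, hN1⟩ := card_bad1 k C
  obtain ⟨N2, hN2⟩ := card_E03 k C N1
  refine ⟨(13 * k + 30) + (N1 + N2) * (2 * (13 * k + 30) + 1), ?_⟩
  intro V Q _ _ _ c f j
  have h1 := hN1 V Q c f j
  have h2 := hN2 V Q c f j h1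
  generalize hD : 13 * k + 30 = D
  let B : Finset ℕ := ((range (f.n j + 1)).filter fun i => ¬ f.Ok1 j i) ∪
    ((range (f.n j + 1)).filter fun i => f.Ok1 j i ∧ ∃ y, f.Tr 0 j i y ∨ f.Tr 3 j i y)
  have hB : B.card ≤ N1 + N2 := (card_union_le _ _).trans (Nat.add_le_add h1 h2)
  have hsub : ((range (f.n j + 1)).filter fun i => ¬ f.Good j i) ⊆
      Icc (f.n j + 1 - D) (f.n j) ∪ B.biUnion fun l => Icc (l - D) (l + D) := by
    intro i hi
    obtain ⟨hir, hig⟩ := mem_filter.1 hi
    have hin : i < f.n j + 1 := mem_range.1 hir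
    have hex : ∃ l, i ≤ l + (13 * k + 30) ∧ l ≤ i + (13 * k + 30) ∧ ¬ f.Ok2 j l := by
      by_contra hcon
      push Not at hcon
      exact hig fun l hl1 hl2 => hcon l hl1 hl2
    obtain ⟨l, hl1, hl2, hl3⟩ := hex
    rw [hD] at hl1 hl2
    by_cases hln : l < f.n j + 1
    · refine mem_union_right _ (mem_biUnion.2 ⟨l, ?_, mem_Icc.2 ⟨by omega, by omega⟩⟩)
      by_cases hok : f.Ok1 j l
      · refine mem_union_right _ (mem_filter.2 ⟨mem_range.2 hln, hok, ?_⟩)
        by_contra hcon
        push Not at hcon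
        exact hl3 ⟨hok, fun y => (hcon y).1, fun y => (hcon y).2⟩
      · exact mem_union_left _ (mem_filter.2 ⟨mem_range.2 hln, hok⟩)
    · exact mem_union_left _ (mem_Icc.2 ⟨by omega, by omega⟩)
  refine (card_le_card hsub).trans ((card_union_le _ _).trans (Nat.add_le_add ?_ ?_))
  · rw [Nat.card_Icc]
    omega
  · refine (card_biUnion_le_card_mul _ _ (2 * D + 1) ?_).trans (Nat.mul_le_mul_right _ hB)
    intro l _
    rw [Nat.card_Icc]
    omega

end Pool.Agent.RPH
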