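import Pool.Agent.RPH.DRho
import Pool.Agent.RPH.CRvK

/-!
# RPH-DKm: vectors of `K` attached to the faces of type 0 and 3 in the middle of a triple
-/

set_option autoImplicit false

open Finset
open scoped Classical

namespace Pool.Agent.RPH

open Pool.Agent.BEO hiding Cfg Frame

variable {k C : ℕ} {V Q : Type} [Fintype V] [AddCommGroup Q] [Module F2 Q] {c : Cfg k V Q} (f : Frame C c)

variable {f} {j : Fin f.m} {τ : Fin 4} {i1 i2 i3 : ℕ} {y1 y2 y3 : V}

private theorem tele (g : ℕ → F2) (i m : ℕ) :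
    ∑ l ∈ (Ioo i (i + 2 * m)).filter (fun l => (i + l) % 2 = 1), (g (l - 1) + g (l + 1)) =
      g i + g (i + 2 * m) := by
  induction m with
  | zero =>
    have h : (Ioo i (i + 2 * 0)).filter (fun l => (i + l) % 2 = 1) = ∅ := by
      simp
    rw [h, sum_empty, Nat.mul_zero, Nat.add_zero, CharTwo.add_self_eq_zero]
  | succ m ih =>
    have h : (Ioo i (i + 2 * (m + 1))).filter (fun l => (i + l) % 2 = 1) =
        insert (i + 2 * m + 1) ((Ioo i (i + 2 * m)).filter (fun l => (i + l) % 2 = 1)) := by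
      ext l
      simp only [mem_filter, mem_Ioo, mem_insert]
      constructor
      · rintro ⟨⟨h1, h2⟩, h3⟩
        by_cases h4 : l = i + 2 * m + 1
        · exact Or.inl h4
        · exact Or.inr ⟨⟨h1, by omega⟩, h3⟩
      · rintro (h1 | ⟨⟨h1, h2⟩, h3⟩)
        · exact ⟨⟨by omega, by omega⟩, by omega⟩
        · exact ⟨⟨h1, by omega⟩, h3⟩
    have hn : i + 2 * m + 1 ∉ (Ioo i (i + 2 * m)).filter (fun l => (i + l) % 2 = 1) := by
      simp only [mem_filter, mem_Ioo]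
      rintro ⟨⟨_, h2⟩, _⟩
      omega
    rw [h, sum_insert hn, ih, show i + 2 * m + 1 - 1 = i + 2 * m by omega,
      show i + 2 * m + 1 + 1 = i + 2 * (m + 1) by ring]
    have e := CharTwo.add_self_eq_zero (g (i + 2 * m))
    linear_combination e

private theorem row_two (h : f.Trp j τ i1 i2 i3 y1 y2 y3) (l : ℕ) (h1 : i1 + 5 ≤ l)
    (h2 : l + 5 ≤ i3) (hp : (i1 + l) % 2 = 1) (u : V) :
    row c.L (f.x j l) u = (if u ∈ f.cmn j (l - 1) then 1 else 0) +
      (if u ∈ f.cmn j (l + 1) then 1 else 0) := by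
  have a := trp_nbx h l h1 h2 hp u
  have b := trp_dj h l h1 h2 hp
  unfold row
  by_cases c1 : u ∈ f.cmn j (l - 1)
  · have c2 : u ∉ f.cmn j (l + 1) := fun c2 => Finset.disjoint_left.mp b c1 c2
    rw [if_pos (a.mpr (Or.inl c1)), if_pos c1, if_neg c2, add_zero]
  · by_cases c2 : u ∈ f.cmn j (l + 1)
    · rw [if_pos (a.mpr (Or.inr c2)), if_neg c1, if_pos c2, zero_add]
    · rw [if_neg (fun hh => (a.mp hh).elim c1 c2), if_neg c1, if_neg c2, add_zero]

private theorem alt_le (h : f.Trp j τ i1 i2 i3 y1 y2 y3) (a b : ℕ) (hab : a ≤ b)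
    (h1 : i1 + 6 ≤ a) (h2 : b + 6 ≤ i3) (hp : (i1 + a) % 2 = 0) (hp2 : (i1 + b) % 2 = 0) (u : V) :
    f.alt j a u + f.alt j b u = (if u ∈ f.cmn j a then 1 else 0) +
      (if u ∈ f.cmn j b then 1 else 0) := by
  rw [alt_sub f j a b hab (by omega) u]
  obtain ⟨m, hm⟩ : ∃ m, b = a + 2 * m := ⟨(b - a) / 2, by omega⟩
  subst hm
  rw [← tele (fun l => if u ∈ f.cmn j l then (1 : F2) else 0) a m]
  apply sum_congr rfl
  intro l hl
  rw [mem_filter, mem_Ioo] at hl
  exact row_two h l (by omega) (by omega) (by omega) u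

private theorem alt_any (h : f.Trp j τ i1 i2 i3 y1 y2 y3) (i : ℕ)
    (h1 : i1 + 6 ≤ i) (h2 : i + 6 ≤ i3) (hp : (i1 + i) % 2 = 0) (u : V) :
    f.alt j i u + f.alt j i2 u = (if u ∈ f.cmn j i then 1 else 0) +
      (if u ∈ f.cmn j i2 then 1 else 0) := by
  have g12 := h.g12
  have g23 := h.g23
  have p12 := h.p12
  rcases le_total i i2 with hle | hle
  · exact alt_le h i i2 hle h1 (by omega) hp p12 u
  · have e := alt_le h i2 i hle (by omega) h2 p12 hp u
    rw [add_comm (f.alt j i u), e, add_comm]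

private theorem rv_two (h : f.Trp j τ i1 i2 i3 y1 y2 y3) (σ : Fin 4) (hσ : σ = 0 ∨ σ = 3) (i : ℕ)
    (h1 : i1 + 6 ≤ i) (h2 : i + 6 ≤ i3) (hp : (i1 + i) % 2 = 0) (y : V) (u : V) :
    f.rv σ j i y u + f.rv τ j i2 y2 u =
      f.rho σ j i y u + if u ∈ f.cmn j i then 1 else 0 := by
  rw [rv_rho f σ hσ, rv_rho f τ h.hτ, trp_rho2 h u]
  have e := alt_any h i h1 h2 hp u
  have e2 := CharTwo.add_self_eq_zero (if u ∈ f.cmn j i2 then (1 : F2) else 0)
  linear_combination e + e2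

theorem trp_K0 (h : f.Trp j τ i1 i2 i3 y1 y2 y3) (i : ℕ) (h1 : i1 + 6 ≤ i) (h2 : i + 6 ≤ i3)
    (hp : (i1 + i) % 2 = 0) (y : V) (hy : f.Tr 0 j i y) :
    (fun u => row c.L y u + if u ∈ f.cmn j i then 1 else 0) ∈ f.K := by
  have e : (fun u => row c.L y u + if u ∈ f.cmn j i then 1 else 0) =
      f.rv 0 j i y + f.rv τ j i2 y2 := by
    funext u
    rw [Pi.add_apply, rv_two h 0 (Or.inl rfl) i h1 h2 hp y u]
    unfold Frame.rho
    have h03 : ¬ ((0 : Fin 4) = 3) := by decide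
    rw [if_neg h03, add_zero]
  rw [e]
  exact f.K.add_mem (rv_mem f 0 j i y hy) (rv_mem f τ j i2 y2 h.t2)

theorem trp_K3 (h : f.Trp j τ i1 i2 i3 y1 y2 y3) (i : ℕ) (h1 : i1 + 6 ≤ i) (h2 : i + 6 ≤ i3)
    (hp : (i1 + i) % 2 = 0) (y : V) (hy : f.Tr 3 j i y) :
    (fun u => row c.L y u + row c.L (f.x j i) u + if u ∈ f.cmn j i then 1 else 0) ∈ f.K := by
  have e : (fun u => row c.L y u + row c.L (f.x j i) u + if u ∈ f.cmn j i then 1 else 0) =
      f.rv 3 j i y + f.rv τ j i2 y2 := by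
    funext u
    rw [Pi.add_apply, rv_two h 3 (Or.inr rfl) i h1 h2 hp y u]
    unfold Frame.rho
    rw [if_pos rfl]
  rw [e]
  exact f.K.add_mem (rv_mem f 3 j i y hy) (rv_mem f τ j i2 y2 h.t2)

end Pool.Agent.RPH
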