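import Pool.Agent.RPH.DNb
import Pool.Agent.RPH.DFlowC

/-!
# RPH-DOdd: at good positions the twin classes are odd

PLAN. `nb_good`: `nb_x` without the types 0 and 3. `odd_tw`: suppose `(tw j i).card` is even. For `l` with
`|l - i| ≤ 13 k + 20` the number `(nb c.L (x j l)).card` is even and equals `(tw j (l - 1)).card + (tw j (l + 1)).card`
(`nb_good`-like statement at `l`, `tw_disj`), so `(tw j l).card` is even for all `l = i` modulo 2 in this range. Take
`s := i - 2 m`, `t := i + 2 m` with `m := 4 k + 3` (`4 m > 13 k + 8`, `2 m + 5 ≤ 13 k + 30`) and the flow `U = A = tw j`,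
`T = ∅`, `X i = tw j (i - 1) ∪ tw j (i + 1)`; `flow_bound` gives a contradiction. (`Disjoint (X i) (U i)`: a face of
`tw j (i - 1)` is adjacent to `x j i`, hence not in `tw j i` by `tw_indep`.)
-/

set_option autoImplicit false

open Finset
open scoped Classical

namespace Pool.Agent.RPH

open Pool.Agent.BEO hiding Cfg Frame

variable {k C : ℕ} {V Q : Type} [Fintype V] [AddCommGroup Q] [Module F2 Q] {c : Cfg k V Q} (f : Frame C c)

theorem nb_good (j : Fin f.m) (i : ℕ) (h : f.Good j i) (l : ℕ) (h1 : i ≤ l + (13 * k + 28)) (h2 : l ≤ i + (13 * k + 28))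
    (u : V) : c.L.Adj (f.x j l) u ↔ (u ∈ f.tw j (l - 1) ∨ u ∈ f.tw j (l + 1)) := by
  have g0 := h l (by omega) (by omega)
  have g25 := g0.ok.lo
  have gm := h (l - 1) (by omega) (by omega)
  have gp := h (l + 1) (by omega) (by omega)
  rw [nb_x f j l gm.ok g0.ok gp.ok u]
  constructor
  · rintro (e | e | e | e | e | e)
    · exact Or.inl e
    · exact Or.inr e
    · exact absurd e (g0.t0 u)
    · exact absurd e (gm.t3 u)
    · exact absurd e (g0.t3 u)
    · exact absurd e (gp.t3 u)
  · rintro (e | e)
    · exact Or.inl e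
    · exact Or.inr (Or.inl e)

private theorem step_tw (j : Fin f.m) (i : ℕ) (h : f.Good j i) (l : ℕ) (h1 : i ≤ l + (13 * k + 28))
    (h2 : l ≤ i + (13 * k + 28)) : Even (f.tw j (l - 1)).card ↔ Even (f.tw j (l + 1)).card := by
  have g0 := h l (by omega) (by omega)
  have e1 : nb c.L (f.x j l) = f.tw j (l - 1) ∪ f.tw j (l + 1) := by
    ext u
    simp only [nb, mem_filter, mem_univ, true_and, mem_union]
    exact nb_good f j i h l h1 h2 u
  have e2 := c.evL (f.x j l)
  rw [e1, card_union_of_disjoint (tw_disj f j l g0.ok), Nat.even_add] at e2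
  exact e2

private theorem up_tw (j : Fin f.m) (i : ℕ) (h : f.Good j i) (he : Even (f.tw j i).card) (n : ℕ)
    (hn : 2 * n ≤ 13 * k + 28) : Even (f.tw j (i + 2 * n)).card := by
  induction n with
  | zero => simpa using he
  | succ n ih =>
    have h1 := ih (by omega)
    have h2 := (step_tw f j i h (i + 2 * n + 1) (by omega) (by omega)).mp (by simpa using h1)
    have e : i + 2 * (n + 1) = i + 2 * n + 1 + 1 := by ring
    rw [e]
    exact h2

private theorem lo_tw (j : Fin f.m) (i : ℕ) (h : f.Good j i) : 13 * k + 55 ≤ i := by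
  have g := (h (i - (13 * k + 30)) (by omega) (by omega)).ok.lo
  omega

private theorem hi_tw (j : Fin f.m) (i : ℕ) (h : f.Good j i) : i + (13 * k + 55) ≤ f.n j := by
  have g := (h (i + (13 * k + 30)) (by omega) (by omega)).ok.hi
  omega

private theorem down_tw (j : Fin f.m) (i : ℕ) (h : f.Good j i) (he : Even (f.tw j i).card) (n : ℕ)
    (hn : 2 * n ≤ 13 * k + 28) : Even (f.tw j (i - 2 * n)).card := by
  have hlo := lo_tw f j i h
  induction n with
  | zero => simpa using he
  | succ n ih =>
    have h1 := ih (by omega)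
    have e1 : i - 2 * n = i - 2 * n - 1 + 1 := by omega
    have h2 := (step_tw f j i h (i - 2 * n - 1) (by omega) (by omega)).mpr (by rw [← e1]; exact h1)
    have e : i - 2 * (n + 1) = i - 2 * n - 1 - 1 := by omega
    rw [e]
    exact h2

private theorem all_tw (j : Fin f.m) (i : ℕ) (h : f.Good j i) (he : Even (f.tw j i).card) (l : ℕ)
    (h1 : i ≤ l + (13 * k + 28)) (h2 : l ≤ i + (13 * k + 28)) (hp : (l + i) % 2 = 0) :
    Even (f.tw j l).card := by
  rcases le_total i l with hl | hl
  · have e : l = i + 2 * ((l - i) / 2) := by omega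
    rw [e]
    exact up_tw f j i h he _ (by omega)
  · have e : l = i - 2 * ((i - l) / 2) := by omega
    rw [e]
    exact down_tw f j i h he _ (by omega)

theorem odd_tw (j : Fin f.m) (i : ℕ) (h : f.Good j i) : Odd (f.tw j i).card := by
  by_contra hodd
  have he : Even (f.tw j i).card := Nat.not_odd_iff_even.mp hodd
  have hlo := lo_tw f j i h
  have hhi := hi_tw f j i h
  have hfl : f.Flow j (i - (8 * k + 6)) (i + (8 * k + 6)) (f.tw j) (f.tw j) (fun _ => ∅)
      (fun l => f.tw j (l - 1) ∪ f.tw j (l + 1)) := by
    refine ⟨by omega, by omega, by omega, by omega, ?_, ?_, ?_, ?_, ?_, ?_, ?_, ?_, ?_⟩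
    · intro l h1 h2 _ u
      exact nb_good f j i h l (by omega) (by omega) u
    · intro l h1 h2 _
      exact tw_disj f j l (h l (by omega) (by omega)).ok
    · intro l h1 h2
      exact (h l (by omega) (by omega)).ok.nul
    · intro l h1 h2 h3
      exact all_tw f j i h he l (by omega) (by omega) (by omega)
    · intro l _ _ _
      exact mem_tw_self f j l
    · intro l h1 h2 h3
      refine ⟨by simp, by simp, ?_⟩
      rw [disjoint_left]
      intro w hw hw'
      have ha : c.L.Adj (f.x j l) w := (nb_good f j i h l (by omega) (by omega) w).mpr (by simpa using hw)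
      exact tw_indep f j l _ _ (mem_tw_self f j l) hw' ha
    · intro l h1 h2 h3 u hu w
      have e1 : c.L.Adj u w ↔ c.L.Adj (f.x j l) w := by
        have := hu
        simp only [Frame.tw, mem_filter, mem_univ, true_and] at this
        exact this w
      rw [e1, nb_good f j i h l (by omega) (by omega) w]
      simp
    · intro l h1 h2 h3 u hu
      simp at hu
    · intro l h1 h2 h3 w hw u hwu
      have hw' : w ∈ f.tw j (l - 1) ∨ w ∈ f.tw j (l + 1) := by simpa using hw
      rcases hw' with e | e
      · have e1 : c.L.Adj (f.x j (l - 1)) u := by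
          simp only [Frame.tw, mem_filter, mem_univ, true_and] at e
          exact (e u).mp hwu
        rcases (nb_good f j i h (l - 1) (by omega) (by omega) u).mp e1 with e2 | e2
        · exact ⟨l - 1 - 1, by omega, by omega, by omega, e2⟩
        · exact ⟨l - 1 + 1, by omega, by omega, by omega, e2⟩
      · have e1 : c.L.Adj (f.x j (l + 1)) u := by
          simp only [Frame.tw, mem_filter, mem_univ, true_and] at e
          exact (e u).mp hwu
        rcases (nb_good f j i h (l + 1) (by omega) (by omega) u).mp e1 with e2 | e2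
        · exact ⟨l + 1 - 1, by omega, by omega, by omega, e2⟩
        · exact ⟨l + 1 + 1, by omega, by omega, by omega, e2⟩
  have hb := flow_bound f hfl
  omega

end Pool.Agent.RPH
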