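import Pool.Agent.RPH.DRel
import Pool.Agent.RPH.DNb

/-! RPH-DTwo: the middle of a triple, faces at odd positions. -/

set_option autoImplicit false

open Finset
open scoped Classical

namespace Pool.Agent.RPH

open Pool.Agent.BEO hiding Cfg Frame

variable {k C : ℕ} {V Q : Type} [Fintype V] [AddCommGroup Q] [Module F2 Q] {c : Cfg k V Q} (f : Frame C c)

variable {f} {j : Fin f.m} {τ : Fin 4} {i1 i2 i3 : ℕ} {y1 y2 y3 : V}

/-- a face near the middle of a triple is not adjacent to its ends -/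
theorem trp_rho (h : f.Trp j τ i1 i2 i3 y1 y2 y3) (l : ℕ) (h1 : i1 + 5 ≤ l) (h2 : l + 5 ≤ i3) (u : V)
    (hu : c.L.Adj u (f.x j l)) : f.rho τ j i1 y1 u = 0 ∧ f.rho τ j i3 y3 u = 0 := by
  have hy1 := h.t1.1
  have b1 := h.t1.2.1
  have b2 := h.t1.2.2.1
  have hy3 := h.t3.1
  have b3 := h.t3.2.1
  have b4 := h.t3.2.2.1
  have a1 : c.L.Adj y1 (f.x j i1) := by
    refine (h.t1.2.2.2 j i1 (by omega) (by omega)).2 ⟨rfl, ?_⟩
    rcases h.hτ with e | e
    · exact Or.inl ⟨e, rfl⟩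
    · exact Or.inr (Or.inr (Or.inr ⟨e, Or.inr (Or.inl rfl)⟩))
  have a3 : c.L.Adj y3 (f.x j i3) := by
    refine (h.t3.2.2.2 j i3 (by omega) (by omega)).2 ⟨rfl, ?_⟩
    rcases h.hτ with e | e
    · exact Or.inl ⟨e, rfl⟩
    · exact Or.inr (Or.inr (Or.inr ⟨e, Or.inr (Or.inl rfl)⟩))
  have n1 : ¬ c.L.Adj y1 u := by
    intro hA
    have := nbr_mid f y1 u hy1 j j i1 l (by omega) (by omega) (by omega) (by omega) a1 hA hu
    omega
  have n3 : ¬ c.L.Adj y3 u := by
    intro hA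
    have := nbr_mid f y3 u hy3 j j i3 l (by omega) (by omega) (by omega) (by omega) a3 hA hu
    omega
  have m1 : ¬ c.L.Adj (f.x j i1) u := by
    intro hA
    have := nbr_two f u j j i1 l (by omega) (by omega) (by omega) (by omega) hA.symm hu
    omega
  have m3 : ¬ c.L.Adj (f.x j i3) u := by
    intro hA
    have := nbr_two f u j j i3 l (by omega) (by omega) (by omega) (by omega) hA.symm hu
    omega
  unfold Frame.rho row
  rw [if_neg n1, if_neg n3, if_neg m1, if_neg m3, ite_self]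
  exact ⟨add_zero _, add_zero _⟩

theorem trp_two (h : f.Trp j τ i1 i2 i3 y1 y2 y3) (l : ℕ) (h1 : i1 + 5 ≤ l) (h2 : l + 5 ≤ i3) (hp : (i1 + l) % 2 = 1)
    (u : V) (hu : c.L.Adj u (f.x j l)) : c.L.Adj u (f.x j (l - 2)) ↔ ¬ c.L.Adj u (f.x j (l + 2)) := by
  have b1 := h.t1.2.1
  have b4 := h.t3.2.2.1
  have h12 := h.g12
  have h23 := h.g23
  have p12 := h.p12
  have p23 := h.p23
  have hr := rel (f := f) τ h.hτ j i1 i3 y1 y3 (by omega) (by omega) (h.r12.trans h.r23) u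
  obtain ⟨r1, r3⟩ := trp_rho h l h1 h2 u hu
  rw [r1, r3, add_zero] at hr
  have hsub : ({l - 2, l, l + 2} : Finset ℕ) ⊆ (Ioo i1 i3).filter (fun l => (i1 + l) % 2 = 1) := by
    intro l' hl'
    simp only [mem_insert, mem_singleton] at hl'
    rw [mem_filter, mem_Ioo]
    omega
  rw [← Finset.sum_subset hsub] at hr
  · rw [Finset.sum_insert (by simp only [mem_insert, mem_singleton]; omega),
      Finset.sum_insert (by simp only [mem_singleton]; omega), Finset.sum_singleton] at hr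
    unfold row at hr
    rw [if_pos hu.symm] at hr
    by_cases c1 : c.L.Adj (f.x j (l - 2)) u <;> by_cases c2 : c.L.Adj (f.x j (l + 2)) u
    · rw [if_pos c1, if_pos c2] at hr
      exact absurd hr (by decide)
    · exact ⟨fun _ hc => c2 hc.symm, fun _ => c1.symm⟩
    · exact ⟨fun hc => absurd hc.symm c1, fun hc => absurd c2.symm hc⟩
    · rw [if_neg c1, if_neg c2] at hr
      exact absurd hr (by decide)
  · intro l' hl' hn
    rw [mem_filter, mem_Ioo] at hl'
    unfold row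
    rw [if_neg]
    intro hA
    have := nbr_two f u j j l l' (by omega) (by omega) (by omega) (by omega) hu hA.symm
    apply hn
    simp only [mem_insert, mem_singleton]
    omega

private theorem trp_cmn (i : ℕ) (u : V) :
    u ∈ f.cmn j i ↔ c.L.Adj u (f.x j (i - 1)) ∧ c.L.Adj u (f.x j (i + 1)) := by
  unfold Frame.cmn
  rw [mem_filter]
  exact ⟨fun h => h.2, fun h => ⟨mem_univ _, h⟩⟩

theorem trp_nbx (h : f.Trp j τ i1 i2 i3 y1 y2 y3) (l : ℕ) (h1 : i1 + 5 ≤ l) (h2 : l + 5 ≤ i3) (hp : (i1 + l) % 2 = 1)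
    (u : V) : c.L.Adj (f.x j l) u ↔ (u ∈ f.cmn j (l - 1) ∨ u ∈ f.cmn j (l + 1)) := by
  have e1 : l - 1 - 1 = l - 2 := by omega
  have e2 : l - 1 + 1 = l := by omega
  have e3 : l + 1 - 1 = l := by omega
  have e4 : l + 1 + 1 = l + 2 := by omega
  rw [trp_cmn, trp_cmn, e1, e2, e3, e4]
  constructor
  · intro hu
    have h3 := trp_two h l h1 h2 hp u hu.symm
    by_cases hc : c.L.Adj u (f.x j (l - 2))
    · exact Or.inl ⟨hc, hu.symm⟩
    · refine Or.inr ⟨hu.symm, ?_⟩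
      by_contra hc'
      exact hc (h3.2 hc')
  · rintro (⟨_, hu⟩ | ⟨hu, _⟩)
    · exact hu.symm
    · exact hu.symm

theorem trp_dj (h : f.Trp j τ i1 i2 i3 y1 y2 y3) (l : ℕ) (h1 : i1 + 5 ≤ l) (h2 : l + 5 ≤ i3) (hp : (i1 + l) % 2 = 1) :
    Disjoint (f.cmn j (l - 1)) (f.cmn j (l + 1)) := by
  have e1 : l - 1 - 1 = l - 2 := by omega
  have e2 : l - 1 + 1 = l := by omega
  have e4 : l + 1 + 1 = l + 2 := by omega
  rw [Finset.disjoint_left]
  intro u hu hu'
  rw [trp_cmn, e1, e2] at hu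
  rw [trp_cmn, e4] at hu'
  exact (trp_two h l h1 h2 hp u hu.2).1 hu.1 hu'.2

theorem trp_no (h : f.Trp j τ i1 i2 i3 y1 y2 y3) (l : ℕ) (h1 : i1 + 5 ≤ l) (h2 : l + 5 ≤ i3) (hp : (i1 + l) % 2 = 1)
    (y : V) : ¬ f.Tr 0 j l y ∧ ¬ f.Tr 3 j l y := by
  have b1 := h.t1.2.1
  have b4 := h.t3.2.2.1
  constructor
  · intro hT
    have a0 : c.L.Adj y (f.x j l) := (hT.2.2.2 j l (by omega) (by omega)).2
      ⟨rfl, Or.inl ⟨rfl, rfl⟩⟩
    have a1 : ¬ c.L.Adj y (f.x j (l - 2)) := by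
      intro hA
      have h3 := ((hT.2.2.2 j (l - 2) (by omega) (by omega)).1 hA).2
      unfold Frame.Ty at h3
      omega
    have a2 : ¬ c.L.Adj y (f.x j (l + 2)) := by
      intro hA
      have h3 := ((hT.2.2.2 j (l + 2) (by omega) (by omega)).1 hA).2
      unfold Frame.Ty at h3
      omega
    exact a1 ((trp_two h l h1 h2 hp y a0).2 a2)
  · intro hT
    have a0 : c.L.Adj y (f.x j l) := (hT.2.2.2 j l (by omega) (by omega)).2
      ⟨rfl, Or.inr (Or.inr (Or.inr ⟨rfl, Or.inr (Or.inl rfl)⟩))⟩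
    have a1 : ¬ c.L.Adj y (f.x j (l - 2)) := by
      intro hA
      have h3 := ((hT.2.2.2 j (l - 2) (by omega) (by omega)).1 hA).2
      unfold Frame.Ty at h3
      omega
    have a2 : ¬ c.L.Adj y (f.x j (l + 2)) := by
      intro hA
      have h3 := ((hT.2.2.2 j (l + 2) (by omega) (by omega)).1 hA).2
      unfold Frame.Ty at h3
      omega
    exact a1 ((trp_two h l h1 h2 hp y a0).2 a2)

end Pool.Agent.RPH
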