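import Pool.Agent.EPH.XDef

/-!
# RPH-Dt: the linear data of a piece of an embedding

The edges `E` are chords of the piece, `B` the faces which are not complete faces of the piece. The class `q e` of a chord
contains its coordinate `v (q e)` (a functional on the cycles), its ends on the faces (`dF`), and possibly more.
-/

set_option autoImplicit false

open Finset
open scoped Classical

namespace Pool.Agent.RPH

open Pool.Agent.EPH Pool.Agent.BEO

/-- the classes which are sums of edges and have even degree at every face -/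
def HQ {Φ E Q : Type} [AddCommGroup Q] [Module F2 Q] (q : E → Q) (dF : Φ → Q →ₗ[F2] F2) : Submodule F2 Q where
  carrier := {x | x ∈ Submodule.span F2 (Set.range q) ∧ ∀ F, dF F x = 0}
  add_mem' := by
    rintro x y ⟨h1, h2⟩ ⟨h3, h4⟩
    refine ⟨Submodule.add_mem _ h1 h3, fun F => ?_⟩
    rw [map_add, h2 F, h4 F, add_zero]
  zero_mem' := ⟨Submodule.zero_mem _, fun _ => map_zero _⟩
  smul_mem' := by
    rintro r x ⟨h1, h2⟩
    refine ⟨Submodule.smul_mem _ r h1, fun F => ?_⟩
    rw [map_smul, h2 F, smul_zero]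

structure Dat (k : ℕ) (Φ E Z Q : Type) [Fintype Φ] [Fintype E] [AddCommGroup Z] [Module F2 Z] [AddCommGroup Q]
    [Module F2 Q] where
  /-- one face of an edge -/
  s : E → Φ
  /-- the other face of an edge -/
  t : E → Φ
  /-- boundary of a face -/
  z : Φ → Z
  /-- class of an edge -/
  q : E → Q
  /-- coordinate of a class -/
  v : Q →ₗ[F2] Z →ₗ[F2] F2
  /-- degree of a class at a face -/
  dF : Φ → Q →ₗ[F2] F2
  /-- the form -/
  J : Z →ₗ[F2] Z →ₗ[F2] F2
  /-- the exceptional faces -/
  B : Finset Φ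
  symm : ∀ x y, J x y = J y x
  inc : ∀ F e, dF F (q e) = (if s e = F then 1 else 0) + (if t e = F then 1 else 0)
  bd : ∀ F, F ∉ B → ∀ e, v (q e) (z F) = dF F (q e)
  rad : ∀ F, F ∉ B → ∀ x, J x (z F) = 0
  cardB : B.card ≤ k
  dimH : Module.finrank F2 (HQ q dF) ≤ k

namespace Dat

variable {k : ℕ} {Φ E Z Q : Type} [Fintype Φ] [Fintype E] [AddCommGroup Z] [Module F2 Z] [AddCommGroup Q] [Module F2 Q]
  (D : Dat k Φ E Z Q)

/-- the coordinate of an edge -/
def a (e : E) : Z →ₗ[F2] F2 := D.v (D.q e)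

/-- the classes of the even sets -/
def H : Submodule F2 Q := HQ D.q D.dF

/-- the classes of the sets which are even outside `B` -/
def HB : Submodule F2 Q := HQ D.q (fun F : {F : Φ // F ∉ D.B} => D.dF F.1)

noncomputable def N (lam : Finset E) : Z →ₗ[F2] Z →ₗ[F2] F2 := D.J + ∑ e ∈ lam, (D.a e).smulRight (D.a e)

noncomputable def rkN (lam : Finset E) : ℕ := Module.finrank F2 (LinearMap.range (D.N lam))

/-- the rank of the form on the faces outside `B` -/
noncomputable def gI (lam : Finset E) : ℕ := Module.finrank F2 (Submodule.span F2 (Set.range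
  fun (F G : {F : Φ // F ∉ D.B}) => D.N lam (D.z F.1) (D.z G.1)))

/-- the class of a set -/
def cls (lam : Finset E) : Q := ∑ e ∈ lam, D.q e

/-- the graph of the pairs of faces -/
def gr (lam : Finset E) : SimpleGraph Φ where
  Adj F G := F ≠ G ∧ ∃ e ∈ lam, (D.s e = F ∧ D.t e = G) ∨ (D.s e = G ∧ D.t e = F)
  symm := ⟨by
    rintro F G ⟨h, e, he, h1 | h1⟩
    · exact ⟨h.symm, e, he, Or.inr h1⟩
    · exact ⟨h.symm, e, he, Or.inl h1⟩⟩
  loopless := ⟨fun F h => h.1 rfl⟩

end Dat

end Pool.Agent.RPH
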