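import Pool.Agent.RPH.Dt

/-!
# RPH-DtB: elementary facts about the linear data
-/

set_option autoImplicit false

open Finset
open scoped Classical

namespace Pool.Agent.RPH

open Pool.Agent.EPH Pool.Agent.BEO

namespace Dat

variable {k : ℕ} {Φ E Z Q : Type} [Fintype Φ] [Fintype E] [AddCommGroup Z] [Module F2 Z] [AddCommGroup Q] [Module F2 Q]
  (D : Dat k Φ E Z Q)

theorem N_apply (lam : Finset E) (x y : Z) : D.N lam x y = D.J x y + ∑ e ∈ lam, D.a e x * D.a e y := by
  unfold N
  rw [LinearMap.add_apply, LinearMap.add_apply, LinearMap.sum_apply, LinearMap.sum_apply]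
  rfl

theorem N_symm (lam : Finset E) (x y : Z) : D.N lam x y = D.N lam y x := by
  rw [N_apply, N_apply, D.symm]
  congr 1
  exact sum_congr rfl fun e _ => mul_comm _ _

theorem J_z (x : Z) (F : Φ) (hF : F ∉ D.B) : D.J x (D.z F) = 0 := D.rad F hF x

theorem a_z (e : E) (F : Φ) (hF : F ∉ D.B) :
    D.a e (D.z F) = (if D.s e = F then 1 else 0) + (if D.t e = F then 1 else 0) := by
  unfold a
  rw [D.bd F hF e, D.inc F e]

theorem sum_a (nu : Finset E) : ∑ e ∈ nu, D.a e = D.v (D.cls nu) := by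
  unfold a cls
  rw [map_sum]

theorem dF_cls (nu : Finset E) (F : Φ) : D.dF F (D.cls nu) =
    ∑ e ∈ nu, ((if D.s e = F then (1 : F2) else 0) + (if D.t e = F then 1 else 0)) := by
  unfold cls
  rw [map_sum]
  exact sum_congr rfl fun e _ => D.inc F e

/-- the class of a list -/
theorem sum_cls (l : List E) : (l.map D.q).sum = D.cls (oddE l) := by
  have hsm : ∀ (n : ℕ) (φ : Q), n • φ = if n % 2 = 1 then φ else 0 := by
    intro n φ
    have h2 : (2 : ℕ) • φ = 0 := by
      have h3 : ((1 : F2) + 1) • φ = 0 := by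
        have h4 : (1 : F2) + 1 = 0 := by decide
        rw [h4, zero_smul]
      rw [add_smul, one_smul] at h3
      rw [two_nsmul]
      exact h3
    rcases Nat.mod_two_eq_zero_or_one n with h | h
    · rw [if_neg (by omega)]
      conv_lhs => rw [← Nat.div_add_mod n 2, h, add_zero, mul_comm, mul_nsmul', h2, nsmul_zero]
    · rw [if_pos h]
      conv_lhs => rw [← Nat.div_add_mod n 2, h, add_nsmul, mul_comm, mul_nsmul', h2, nsmul_zero, zero_add,
        one_nsmul]
  rw [sum_list_map_count]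
  unfold cls oddE
  rw [sum_filter]
  rw [sum_subset (subset_univ l.toFinset) (fun e _ he => by
    rw [List.count_eq_zero.2 (fun h => he (List.mem_toFinset.2 h)), zero_nsmul])]
  exact sum_congr rfl fun e _ => hsm _ _

theorem cls_mem (nu : Finset E) : D.cls nu ∈ Submodule.span F2 (Set.range D.q) :=
  Submodule.sum_mem _ fun e _ => Submodule.subset_span ⟨e, rfl⟩

theorem mem_H (x : Q) : x ∈ D.H ↔ x ∈ Submodule.span F2 (Set.range D.q) ∧ ∀ F, D.dF F x = 0 := Iff.rfl

theorem mem_HB (x : Q) : x ∈ D.HB ↔ x ∈ Submodule.span F2 (Set.range D.q) ∧ ∀ F, F ∉ D.B → D.dF F x = 0 := by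
  constructor
  · rintro ⟨h1, h2⟩
    exact ⟨h1, fun F hF => h2 ⟨F, hF⟩⟩
  · rintro ⟨h1, h2⟩
    exact ⟨h1, fun F => h2 F.1 F.2⟩

private theorem dtb_fin (S : Submodule F2 Q) (h : S ≤ Submodule.span F2 (Set.range D.q)) : Module.Finite F2 S := by
  have h1 : FiniteDimensional F2 (Submodule.span F2 (Set.range D.q)) :=
    FiniteDimensional.span_of_finite F2 (Set.finite_range D.q)
  exact Submodule.finiteDimensional_of_le h

theorem fin_H : Module.Finite F2 D.H := D.dtb_fin D.H fun _ hx => hx.1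

theorem fin_HB : Module.Finite F2 D.HB := D.dtb_fin D.HB fun _ hx => hx.1

theorem finrank_HB : Module.finrank F2 D.HB ≤ 2 * k := by
  have hf := D.fin_HB
  have hf' := D.fin_H
  let φ : D.HB →ₗ[F2] ({F // F ∈ D.B} → F2) :=
    LinearMap.pi fun F => (D.dF F.1).comp D.HB.subtype
  have hφ : ∀ (x : D.HB) (F : {F // F ∈ D.B}), φ x F = D.dF F.1 x.1 := fun x F => rfl
  have h1 := LinearMap.finrank_range_add_finrank_ker φ
  have h2 : Module.finrank F2 (LinearMap.range φ) ≤ k := by
    refine (Submodule.finrank_le _).trans ?_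
    rw [Module.finrank_fintype_fun_eq_card, Fintype.card_coe]
    exact D.cardB
  have hm : ∀ x : LinearMap.ker φ, x.1.1 ∈ D.H := by
    intro x
    have hx := (D.mem_HB x.1.1).1 x.1.2
    refine ⟨hx.1, fun F => ?_⟩
    by_cases hF : F ∈ D.B
    · have h3 : φ x.1 = 0 := x.2
      have h4 := congrFun h3 ⟨F, hF⟩
      rw [hφ] at h4
      exact h4
    · exact hx.2 F hF
  let ψ : LinearMap.ker φ →ₗ[F2] D.H :=
    { toFun := fun x => ⟨x.1.1, hm x⟩
      map_add' := fun _ _ => rfl
      map_smul' := fun _ _ => rfl }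
  have hψ : Function.Injective ψ := by
    intro x y hxy
    have h3 : x.1.1 = y.1.1 := congrArg (fun z : D.H => z.1) hxy
    exact Subtype.ext (Subtype.ext h3)
  have h3 : Module.finrank F2 (LinearMap.ker φ) ≤ Module.finrank F2 D.H :=
    LinearMap.finrank_le_finrank_of_injective hψ
  have h4 : Module.finrank F2 D.H ≤ k := D.dimH
  omega

end Dat

end Pool.Agent.RPH
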