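import Pool.Agent.RPH.ExtD
import Pool.Agent.EPH.XDef

/-!
# RPH-E2D: the exceptional faces (definition)
-/

set_option autoImplicit false

open Finset
open scoped Classical

namespace Pool.Agent.RPH

open Pool.Agent.EPH Pool.Agent.BEO

variable {k : ℕ} {Φ Vt Z Q : Type} [Fintype Φ] [Fintype Vt] [AddCommGroup Z] [Module F2 Z] [AddCommGroup Q] [Module F2 Q]

/-- the exceptional faces -/
structure E2S (S : Sys k Φ Vt Z Q)
    (lam mu : Finset (Ch S.P)) (N : ℕ) (E2 : Finset Φ) : Prop where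
  card : (E2.image (row (S.D.gr lam))).card ≤ N
  act : ∀ y ∈ E2, y ∈ vs (S.D.gr lam)
  sub : Yf S lam mu ⊆ E2
  nbr : ∀ y ∈ Yf S lam mu, ∀ u, (S.D.gr lam).Adj y u → u ∈ E2
  priv : ∀ v, ∀ y ∈ Yf S lam mu, On S.P v y → ∀ p q, On S.P v p → On S.P v q → (S.D.gr lam).Adj p q → p ∈ E2

end Pool.Agent.RPH
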