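import Pool.Agent.RPH.Defs

/-!
# RPH-ExtD: extremal sets of given class (definitions)
-/

set_option autoImplicit false

open Finset
open scoped Classical

namespace Pool.Agent.RPH

open Pool.Agent.EPH Pool.Agent.BEO

variable {k : ℕ} {Φ Vt Z Q : Type} [Fintype Φ] [Fintype Vt] [AddCommGroup Z] [Module F2 Z] [AddCommGroup Q]
  [Module F2 Q]

/-- the number of the active faces -/
noncomputable def act (S : Sys k Φ Vt Z Q) (lam : Finset (Ch S.P)) : ℕ := (vs (S.D.gr lam)).card

/-- `lam` is optimal among the realizable sets of its class, has then the smallest number of active faces, and is then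
smallest; `mu` is a smallest subset of the same class. -/
structure Ext (S : Sys k Φ Vt Z Q) (lam mu : Finset (Ch S.P)) : Prop where
  real : Real S.P lam
  opt : ∀ lam', Real S.P lam' → S.D.cls lam' = S.D.cls lam → S.D.rkN lam ≤ S.D.rkN lam'
  few : ∀ lam', Real S.P lam' → S.D.cls lam' = S.D.cls lam → S.D.rkN lam' ≤ S.D.rkN lam →
    act S lam ≤ act S lam'
  small : ∀ lam', Real S.P lam' → S.D.cls lam' = S.D.cls lam → S.D.rkN lam' ≤ S.D.rkN lam →
    act S lam' ≤ act S lam → lam.card ≤ lam'.card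
  sub : mu ⊆ lam
  clsM : S.D.cls mu = S.D.cls lam
  smallM : ∀ mu', mu' ⊆ lam → S.D.cls mu' = S.D.cls lam → mu.card ≤ mu'.card
  /-- the set is even outside `B` -/
  ev : ∀ F, F ∉ S.D.B → S.D.dF F (S.D.cls lam) = 0
  tc : TcC S (S.D.cls lam)

/-- `lam` is optimal among all realizable sets, has then the smallest number of active faces, and is then smallest. -/
structure Ext0 (S : Sys k Φ Vt Z Q) (lam : Finset (Ch S.P)) : Prop where
  real : Real S.P lam
  opt : ∀ lam', Real S.P lam' → S.D.rkN lam ≤ S.D.rkN lam'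
  few : ∀ lam', Real S.P lam' → S.D.rkN lam' ≤ S.D.rkN lam → act S lam ≤ act S lam'
  small : ∀ lam', Real S.P lam' → S.D.rkN lam' ≤ S.D.rkN lam → act S lam' ≤ act S lam →
    lam.card ≤ lam'.card

/-- no two chords with the same two faces -/
def NoPar (S : Sys k Φ Vt Z Q) (lam : Finset (Ch S.P)) : Prop :=
  ∀ e ∈ lam, ∀ e' ∈ lam, s(S.D.s e, S.D.t e) = s(S.D.s e', S.D.t e') → e = e'

/-- the number of the ends of the chords of `l` at the face `F` -/
noncomputable def mf (S : Sys k Φ Vt Z Q) (l : List (Ch S.P)) (F : Φ) : ℕ :=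
  (l.countP fun e => decide (S.D.s e = F)) + l.countP fun e => decide (S.D.t e = F)

/-- the classes of the chords at `y` and at `y'` differ by a constant -/
def LC (S : Sys k Φ Vt Z Q) (lam : Finset (Ch S.P)) (y y' : Φ) : Prop :=
  ∃ d : Q, ∀ e ∈ lam, ∀ e' ∈ lam, ∀ u, s(S.D.s e, S.D.t e) = s(y, u) → s(S.D.s e', S.D.t e') = s(y', u) →
    S.D.q e + S.D.q e' = d

/-- delete all chords at the faces of `T` -/
noncomputable def delF (S : Sys k Φ Vt Z Q) (lam : Finset (Ch S.P)) (T : Finset Φ) : Finset (Ch S.P) :=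
  lam.filter fun e => S.D.s e ∉ T ∧ S.D.t e ∉ T

/-- the class of a pair of faces -/
noncomputable def cl (S : Sys k Φ Vt Z Q) (e' : Sym2 Φ) : Q :=
  if h : ∃ e : Ch S.P, s(S.D.s e, S.D.t e) = e' then S.D.q (Classical.choose h) else 0

/-- the active faces outside `mu` -/
noncomputable def Yf (S : Sys k Φ Vt Z Q) (lam mu : Finset (Ch S.P)) : Finset Φ :=
  univ.filter fun y => y ∈ vs (S.D.gr lam) ∧ y ∉ vs (S.D.gr mu)

end Pool.Agent.RPH
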