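import Pool.Agent.RPH.NMat
import Pool.Agent.RPH.NHf
import Pool.Agent.RPH.DtB

/-!
# RPH-NWt: the complement of a null set of half chords is rematched

Adapt `Pool/Agent/EPH/NWt.lean`. `O` := the corners met by an odd number of half chords outside the given set.
-/

set_option autoImplicit false

open Finset
open scoped Classical

namespace Pool.Agent.RPH

open Pool.Agent.EPH Pool.Agent.BEO

variable {k : ℕ} {Φ Vt Z Q : Type} [Fintype Φ] [Fintype Vt] [AddCommGroup Z] [Module F2 Z] [AddCommGroup Q] [Module F2 Q]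

private theorem nw_f2 : ∀ a : F2, a = 0 ∨ a = 1 := by decide

private theorem nw_sum {ι κ M : Type} [Fintype ι] [DecidableEq κ] [AddCommGroup M] [Module F2 M] (g : ι → κ) (y : ι → F2) (φ : κ → M) :
    ∑ p ∈ (univ.image g).filter (fun p => ∑ h, (if g h = p then y h else 0) = 1), φ p = ∑ h, y h • φ (g h) := by
  have h1 : ∑ p ∈ (univ.image g).filter (fun p => ∑ h, (if g h = p then y h else 0) = 1), φ p =
      ∑ p ∈ univ.image g, (∑ h, (if g h = p then y h else 0)) • φ p := by
    rw [sum_filter]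
    refine sum_congr rfl fun p _ => ?_
    rcases nw_f2 (∑ h, (if g h = p then y h else 0)) with h | h
    · rw [h, if_neg (by decide), zero_smul]
    · rw [h, if_pos rfl, one_smul]
  rw [h1]
  have h2 : ∀ p, (∑ h, (if g h = p then y h else 0)) • φ p = ∑ h, (if g h = p then y h • φ p else 0) := by
    intro p
    rw [sum_smul]
    refine sum_congr rfl fun h _ => ?_
    split_ifs
    · rfl
    · exact zero_smul _ _
  simp only [h2]
  rw [sum_comm]
  refine sum_congr rfl fun h _ => ?_
  rw [sum_ite_eq, if_pos (mem_image_of_mem g (mem_univ h))]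

private theorem nw_card {ι κ : Type} [Fintype ι] [DecidableEq κ] (g : ι → κ) (y : ι → F2) :
    ((univ.image g).filter (fun p => ∑ h, (if g h = p then y h else 0) = 1)).card ≤
      (univ.filter fun h => y h = 1).card := by
  refine le_trans (card_le_card (t := (univ.filter fun h => y h = 1).image g) ?_) card_image_le
  intro p hp
  have h1 := (mem_filter.1 hp).2
  obtain ⟨h, -, hh⟩ : ∃ h ∈ (univ : Finset ι), (if g h = p then y h else 0) ≠ 0 := by
    refine exists_ne_zero_of_sum_ne_zero ?_
    rw [h1]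
    decide
  rw [mem_image]
  by_cases hg : g h = p
  · rw [if_pos hg] at hh
    refine ⟨h, mem_filter.2 ⟨mem_univ _, ?_⟩, hg⟩
    exact (nw_f2 (y h)).resolve_left hh
  · rw [if_neg hg] at hh
    exact absurd rfl hh

private theorem nw_two {M : Type} [AddCommMonoid M] {n : ℕ} (f : Fin n × Bool → M) :
    ∑ h, f h = ∑ i, (f (i, false) + f (i, true)) := by
  rw [Fintype.sum_prod_type]
  refine sum_congr rfl fun i _ => ?_
  rw [Fintype.sum_bool, add_comm]

theorem wt (S : Sys k Φ Vt Z Q) (mu : Finset (Ch S.P)) (l : List (Ch S.P))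
    (hl : (l.map S.D.q).sum = S.D.cls mu) (x : Fin l.length × Bool → F2) (hx : x ∈ Cd S l) :
    ∃ nu : Finset (Ch S.P), Real S.P nu ∧ S.D.cls nu = S.D.cls mu ∧
      2 * nu.card + (univ.filter fun h => x h = 1).card ≤ 2 * l.length := by
  obtain ⟨hx1, -, hx3⟩ := hx
  obtain ⟨g, hg⟩ : ∃ g : Fin l.length × Bool → Vt × ℕ, g = fun h => (hfV l h, hfC l h) := ⟨_, rfl⟩
  obtain ⟨y, hy⟩ : ∃ y : Fin l.length × Bool → F2, y = fun h => 1 + x h := ⟨_, rfl⟩
  obtain ⟨O, hO⟩ : ∃ O : Finset (Vt × ℕ), O = (univ.image g).filter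
    (fun p => ∑ h, (if g h = p then y h else 0) = 1) := ⟨_, rfl⟩
  have hd : ∀ p ∈ O, p.2 < S.P.d p.1 := by
    intro p hp
    rw [hO, mem_filter, mem_image] at hp
    obtain ⟨⟨h, -, rfl⟩, -⟩ := hp
    rw [hg]
    show hfC l h < S.P.d (hfV l h)
    unfold hfC hfV
    split_ifs
    · exact (l.get h.1).1.2.2.isLt
    · exact (l.get h.1).1.2.1.isLt
  have hev : ∀ v, Even (O.filter fun p => p.1 = v).card := by
    intro v
    rw [← ZMod.natCast_eq_zero_iff_even, card_filter, Nat.cast_sum]
    have h1 := nw_sum g y (fun p => (((if p.1 = v then 1 else 0 : ℕ)) : F2))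
    rw [← hO] at h1
    rw [h1]
    have h2 : ∀ h, y h • (((if (g h).1 = v then 1 else 0 : ℕ)) : F2) =
        (if hfV l h = v then 1 else 0) + (if hfV l h = v then x h else 0) := by
      intro h
      rw [hg, hy]
      show (1 + x h) • (((if hfV l h = v then 1 else 0 : ℕ)) : F2) = _
      split_ifs
      · rw [Nat.cast_one, smul_eq_mul, mul_one]
      · rw [Nat.cast_zero, smul_zero, add_zero]
    simp only [h2]
    rw [sum_add_distrib, hx1 v, add_zero, nw_two]
    refine sum_eq_zero fun i _ => ?_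
    show (if (l.get i).vx = v then (1 : F2) else 0) + (if (l.get i).vx = v then 1 else 0) = 0
    exact CharTwo.add_self_eq_zero _
  obtain ⟨nu, hn1, hn2, hn3⟩ := rematchO S O hd hev
  refine ⟨nu, hn1, ?_, ?_⟩
  · rw [hn3, hO, nw_sum g y (fun p => S.c p.1 p.2), ← hl]
    have h2 : ∀ h, y h • S.c (g h).1 (g h).2 = S.c (hfV l h) (hfC l h) + x h • S.c (hfV l h) (hfC l h) := by
      intro h
      rw [hg, hy]
      show (1 + x h) • S.c (hfV l h) (hfC l h) = _
      rw [add_smul, one_smul]
    simp only [h2]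
    rw [sum_add_distrib, hx3, add_zero, nw_two]
    have h3 : (l.map S.D.q).sum = ∑ i : Fin l.length, S.D.q (l.get i) :=
      (Fin.sum_univ_fun_getElem l S.D.q).symm
    rw [h3]
    refine sum_congr rfl fun i _ => ?_
    exact (S.hc _).symm
  · rw [hn2]
    have h1 : O.card ≤ (univ.filter fun h => y h = 1).card := by
      rw [hO]
      exact nw_card g y
    have h2 : (univ.filter fun h => y h = 1) = univ.filter fun h => ¬ x h = 1 := by
      refine filter_congr fun h _ => ?_
      rw [hy]
      show 1 + x h = 1 ↔ ¬ x h = 1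
      rcases nw_f2 (x h) with h3 | h3
      · rw [h3]
        decide
      · rw [h3]
        decide
    have h3 := card_filter_add_card_filter_not (s := (univ : Finset (Fin l.length × Bool))) (fun h => x h = 1)
    rw [card_univ, Fintype.card_prod, Fintype.card_fin, Fintype.card_bool] at h3
    rw [h2] at h1
    omega


theorem rematch (S : Sys k Φ Vt Z Q) (mu : Finset (Ch S.P)) :
    ∃ nu : Finset (Ch S.P), Real S.P nu ∧ S.D.cls nu = S.D.cls mu ∧ nu.card ≤ mu.card := by
  obtain ⟨nu, h1, h2, h3⟩ := wt S mu mu.toList (sum_map_toList _ _) 0 (Cd S mu.toList).zero_mem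
  refine ⟨nu, h1, h2, ?_⟩
  rw [length_toList] at h3
  omega

end Pool.Agent.RPH
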