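import Pool.Agent.RPH.NRk
import Pool.Agent.RPH.NCod
import Pool.Agent.RPH.NWt
import Pool.Agent.EPH.CodeD

/-!
# RPH-NF: Lemma F

Adapt `Pool/Agent/EPH/NF.lean`. For `x ∈ Cd S l`: `wt` and `near_min` give
`(univ.filter fun h => x h = 1).card ≤ 2 * (28 * k + 2 + c)`, so `finrank (Cd S l) ≤ 4 * (28 * k + 2 + c)` (`code_dim`). The number of ends
of `l` at a face outside `S.D.B` is even (`h.ev`), so the number of the faces of `l` is at most `l.length + k`.
-/

set_option autoImplicit false

open Finset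
open scoped Classical

namespace Pool.Agent.RPH

open Pool.Agent.EPH Pool.Agent.BEO

variable {k : ℕ} {Φ Vt Z Q : Type} [Fintype Φ] [Fintype Vt] [AddCommGroup Z] [Module F2 Z] [Module.Finite F2 Z]
  [AddCommGroup Q] [Module F2 Q]

/-- the numbers of the elements of a list with a given value add up to its length -/
private theorem nf_sum {α β : Type} [Fintype β] (f : α → β) (l : List α) :
    ∑ b, (l.countP fun e => decide (f e = b)) = l.length := by
  induction l with
  | nil => simp
  | cons a l ih =>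
    simp only [List.countP_cons, sum_add_distrib, ih, List.length_cons, decide_eq_true_eq]
    rw [sum_ite_eq univ (f a) (fun _ => 1), if_pos (mem_univ _)]

private theorem nf_cnt {β : Type} [Fintype β] (m : β → ℕ) :
    ∑ b, (m b - 1) + (univ.filter fun b => 0 < m b).card = ∑ b, m b := by
  rw [card_filter, ← sum_add_distrib]
  refine sum_congr rfl fun b _ => ?_
  split_ifs <;> omega

omit [Module.Finite F2 Z] in
private theorem nf_even {S : Sys k Φ Vt Z Q} {lam mu : Finset (Ch S.P)} (h : Ext S lam mu) (l : List (Ch S.P))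
    (hl : (l.map S.D.q).sum = S.D.cls lam) (F : Φ) (hF : F ∉ S.D.B) : Even (mf S l F) := by
  have h2 : S.D.dF F (S.D.cls lam) = 0 := h.ev F hF
  rw [← hl] at h2
  have h3 : ∀ l : List (Ch S.P), S.D.dF F (l.map S.D.q).sum = ((mf S l F : ℕ) : F2) := by
    intro l
    unfold mf
    induction l with
    | nil => simp
    | cons e l ih =>
      rw [List.map_cons, List.sum_cons, map_add, ih, S.D.inc]
      simp only [List.countP_cons, decide_eq_true_eq]
      push_cast
      ring
  rw [h3] at h2
  exact ZMod.natCast_eq_zero_iff_even.1 h2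

/-- the common bound -/
private theorem nf_key {S : Sys k Φ Vt Z Q} {lam mu : Finset (Ch S.P)} (h : Ext S lam mu) (l : List (Ch S.P)) (c : ℕ)
    (hl : (l.map S.D.q).sum = S.D.cls lam) (hc : l.length ≤ mu.card + c) :
    2 * l.length ≤ 4 * (28 * k + 2 + c) + (univ.filter fun v => 0 < mv l v).card +
      (univ.filter fun F => 0 < mf S l F / 2).card + 2 * k := by
  have h1 : Module.finrank F2 (Cd S l) ≤ 2 * (2 * (28 * k + 2 + c)) := by
    refine code_dim (Cd S l) (2 * (28 * k + 2 + c)) fun x hx => ?_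
    obtain ⟨nu, -, hn, hw⟩ := wt S lam l hl x hx
    have h2 := near_min h nu hn
    omega
  have h2 := dim_cd S l
  have h3 : (univ.filter fun v : Vt => ∃ e ∈ l, e.vx = v) = univ.filter fun v => 0 < mv l v := by
    refine filter_congr fun v _ => ?_
    unfold mv
    rw [List.countP_pos_iff]
    simp only [decide_eq_true_eq]
  have h4 : (univ.filter fun F : Φ => ∃ e ∈ l, S.D.s e = F ∨ S.D.t e = F) ⊆
      (univ.filter fun F => 0 < mf S l F / 2) ∪ S.D.B := by
    intro F hF
    rw [mem_union]
    by_cases hB : F ∈ S.D.B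
    · exact Or.inr hB
    · left
      rw [mem_filter] at hF ⊢
      refine ⟨mem_univ _, ?_⟩
      obtain ⟨m, hm⟩ := nf_even h l hl F hB
      have h5 : 0 < mf S l F / 2 ↔ 0 < mf S l F := by omega
      rw [h5]
      unfold mf
      rw [Nat.add_pos_iff_pos_or_pos, List.countP_pos_iff, List.countP_pos_iff]
      simp only [decide_eq_true_eq]
      obtain ⟨-, e, he, h6 | h6⟩ := hF
      · exact Or.inl ⟨e, he, h6⟩
      · exact Or.inr ⟨e, he, h6⟩
  have h5 := (card_le_card h4).trans (card_union_le _ _)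
  have h6 := S.D.cardB
  rw [h3] at h2
  omega

omit [Fintype Φ] in
private theorem nf_V {P : Cor Φ Vt} (l : List (Ch P)) :
    ∑ v, (mv l v - 1) + (univ.filter fun v => 0 < mv l v).card = l.length := by
  rw [nf_cnt]
  unfold mv
  exact nf_sum (fun e : Ch P => e.vx) l

omit [Module.Finite F2 Z] in
private theorem nf_F (S : Sys k Φ Vt Z Q) (l : List (Ch S.P)) :
    ∑ F, (mf S l F / 2 - 1) + (univ.filter fun F => 0 < mf S l F / 2).card ≤ l.length := by
  rw [nf_cnt fun F => mf S l F / 2]
  have h1 : ∑ F, mf S l F = l.length + l.length := by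
    unfold mf
    rw [sum_add_distrib, nf_sum (fun e : Ch S.P => S.D.s e) l, nf_sum (fun e : Ch S.P => S.D.t e) l]
  have h2 : 2 * ∑ F, mf S l F / 2 ≤ ∑ F, mf S l F := by
    rw [mul_sum]
    refine sum_le_sum fun F _ => ?_
    omega
  omega

/-- Lemma F -/
theorem lemF {S : Sys k Φ Vt Z Q} {lam mu : Finset (Ch S.P)} (h : Ext S lam mu) (l : List (Ch S.P)) (c : ℕ)
    (hl : (l.map S.D.q).sum = S.D.cls lam) (hc : l.length ≤ mu.card + c) :
    ∑ v, (mv l v - 1) ≤ 2 * k + 4 * (28 * k + 2 + c) := by
  have h1 := nf_key h l c hl hc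
  have h2 := nf_V l
  have h3 := nf_F S l
  omega

theorem lemF' {S : Sys k Φ Vt Z Q} {lam mu : Finset (Ch S.P)} (h : Ext S lam mu) (l : List (Ch S.P)) (c : ℕ)
    (hl : (l.map S.D.q).sum = S.D.cls lam) (hc : l.length ≤ mu.card + c) :
    ∑ F, (mf S l F / 2 - 1) ≤ 2 * k + 4 * (28 * k + 2 + c) := by
  have h1 := nf_key h l c hl hc
  have h2 := nf_V l
  have h3 := nf_F S l
  omega

end Pool.Agent.RPH
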