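import Pool.Agent.RPH.NPar

/-!
# RPH-XCfgA: chords and pairs of faces

Adapt `Pool/Agent/EPH/XCfgA.lean` (`RG` is the definition in `Pool/Agent/EPH/XDef.lean`).
-/

set_option autoImplicit false

open Finset
open scoped Classical

namespace Pool.Agent.RPH

open Pool.Agent.EPH Pool.Agent.BEO

variable {k : ℕ} {Φ Vt Z Q : Type} [Fintype Φ] [Fintype Vt] [AddCommGroup Z] [Module F2 Z] [AddCommGroup Q] [Module F2 Q]

variable (S : Sys k Φ Vt Z Q)

theorem s_ne_t (e : Ch S.P) : S.D.s e ≠ S.D.t e := by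
  rw [S.hs, S.ht]
  intro h
  have h1 : e.lo = e.hi := S.P.inj e.vx e.lo e.hi e.1.2.1.2 e.1.2.2.2 h
  have h2 : e.lo < e.hi := e.2
  omega

theorem RG_iff (F G : Φ) : (RG S.P).Adj F G ↔ ∃ e : Ch S.P, s(S.D.s e, S.D.t e) = s(F, G) := by
  constructor
  · rintro ⟨hne, v, ⟨i, hi, hiF⟩, ⟨j, hj, hjG⟩⟩
    rcases lt_trichotomy i j with hij | hij | hij
    · let e0 : Ch S.P := ⟨⟨v, ⟨i, hi⟩, ⟨j, hj⟩⟩, hij⟩
      refine ⟨e0, ?_⟩
      rw [S.hs e0, S.ht e0]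
      show s(S.P.fc v i, S.P.fc v j) = s(F, G)
      rw [hiF, hjG]
    · exfalso
      apply hne
      rw [← hiF, ← hjG, hij]
    · let e0 : Ch S.P := ⟨⟨v, ⟨j, hj⟩, ⟨i, hi⟩⟩, hij⟩
      refine ⟨e0, ?_⟩
      rw [S.hs e0, S.ht e0]
      show s(S.P.fc v j, S.P.fc v i) = s(F, G)
      rw [hiF, hjG, Sym2.eq_swap]
  · rintro ⟨e, he⟩
    have hne := s_ne_t S e
    have h1 : On S.P e.vx (S.D.s e) := ⟨e.lo, e.1.2.1.2, (S.hs e).symm⟩
    have h2 : On S.P e.vx (S.D.t e) := ⟨e.hi, e.1.2.2.2, (S.ht e).symm⟩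
    rcases Sym2.eq_iff.1 he with ⟨h3, h4⟩ | ⟨h3, h4⟩
    · rw [← h3, ← h4]
      exact ⟨hne, e.vx, h1, h2⟩
    · rw [← h3, ← h4]
      exact ⟨hne.symm, e.vx, h2, h1⟩

theorem cl_eq (e : Ch S.P) : cl S s(S.D.s e, S.D.t e) = S.D.q e := by
  have h : ∃ e' : Ch S.P, s(S.D.s e', S.D.t e') = s(S.D.s e, S.D.t e) := ⟨e, rfl⟩
  unfold cl
  rw [dif_pos h]
  exact S.par _ _ (Classical.choose_spec h)

theorem gr_mem (lam : Finset (Ch S.P)) (e' : Sym2 Φ) :
    e' ∈ (S.D.gr lam).edgeSet ↔ ∃ e ∈ lam, s(S.D.s e, S.D.t e) = e' := by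
  induction e' using Sym2.ind with
  | _ F G =>
    rw [SimpleGraph.mem_edgeSet]
    constructor
    · rintro ⟨_, e, he, h⟩
      exact ⟨e, he, Sym2.eq_iff.2 h⟩
    · rintro ⟨e, he, h⟩
      have h1 := Sym2.eq_iff.1 h
      refine ⟨?_, e, he, h1⟩
      have hne := s_ne_t S e
      rcases h1 with ⟨h3, h4⟩ | ⟨h3, h4⟩
      · rw [← h3, ← h4]
        exact hne
      · rw [← h3, ← h4]
        exact hne.symm

theorem gr_le (lam : Finset (Ch S.P)) : S.D.gr lam ≤ RG S.P := by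
  intro F G h
  obtain ⟨_, e, _, h1⟩ := h
  exact (RG_iff S F G).2 ⟨e, Sym2.eq_iff.2 h1⟩

private theorem xc_img (lam : Finset (Ch S.P)) :
    es (S.D.gr lam) = lam.image fun e => s(S.D.s e, S.D.t e) := by
  ext e'
  unfold es
  rw [mem_filter, gr_mem, mem_image]
  exact ⟨fun h => h.2, fun h => ⟨mem_univ _, h⟩⟩

theorem sum_gr (lam : Finset (Ch S.P)) (hp : NoPar S lam) : ∑ e' ∈ es (S.D.gr lam), cl S e' = S.D.cls lam := by
  rw [xc_img, Finset.sum_image (fun e he e' he' h => hp e he e' he' h)]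
  exact Finset.sum_congr rfl fun e _ => cl_eq S e

theorem card_gr (lam : Finset (Ch S.P)) (hp : NoPar S lam) : (es (S.D.gr lam)).card = lam.card := by
  rw [xc_img, Finset.card_image_of_injOn (fun e he e' he' h => hp e he e' he' h)]

/-- a set of pairs of faces with common vertices comes from a set of chords; the chords of `mu` are preferred -/
theorem exists_lift (mu : Finset (Ch S.P)) (hp : NoPar S mu) (χ : Finset (Sym2 Φ)) (h : ∀ e ∈ χ, e ∈ (RG S.P).edgeSet) :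
    ∃ nu : Finset (Ch S.P), NoPar S nu ∧ (∀ e', e' ∈ χ ↔ ∃ e ∈ nu, s(S.D.s e, S.D.t e) = e') ∧ nu.card = χ.card ∧
      S.D.cls nu = ∑ e' ∈ χ, cl S e' ∧
      ∀ e ∈ nu, s(S.D.s e, S.D.t e) ∈ (S.D.gr mu).edgeSet → e ∈ mu := by
  have h1 : ∀ e' ∈ χ, ∃ e : Ch S.P, s(S.D.s e, S.D.t e) = e' ∧
      (e' ∈ (S.D.gr mu).edgeSet → e ∈ mu) := by
    intro e' he'
    by_cases hm : e' ∈ (S.D.gr mu).edgeSet
    · obtain ⟨e, he, h2⟩ := (gr_mem S mu e').1 hm
      exact ⟨e, h2, fun _ => he⟩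
    · have h2 := h e' he'
      clear he'
      induction e' using Sym2.ind with
      | _ F G =>
        rw [SimpleGraph.mem_edgeSet] at h2
        obtain ⟨e, he⟩ := (RG_iff S F G).1 h2
        exact ⟨e, he, fun h3 => absurd h3 hm⟩
  choose g hg1 hg2 using h1
  have hinj : Function.Injective fun x : {x // x ∈ χ} => g x.1 x.2 := by
    intro x y hxy
    have h2 : g x.1 x.2 = g y.1 y.2 := hxy
    have h3 := hg1 x.1 x.2
    rw [h2, hg1 y.1 y.2] at h3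
    exact Subtype.ext h3.symm
  have hmem : ∀ e, e ∈ χ.attach.image (fun x : {x // x ∈ χ} => g x.1 x.2) ↔
      ∃ x : {x // x ∈ χ}, g x.1 x.2 = e := by
    intro e
    rw [Finset.mem_image]
    exact ⟨fun ⟨x, _, hx⟩ => ⟨x, hx⟩, fun ⟨x, hx⟩ => ⟨x, Finset.mem_attach _ _, hx⟩⟩
  refine ⟨χ.attach.image fun x : {x // x ∈ χ} => g x.1 x.2, ?_, ?_, ?_, ?_, ?_⟩
  · intro e he e' he' hee
    obtain ⟨x, rfl⟩ := (hmem e).1 he
    obtain ⟨y, rfl⟩ := (hmem e').1 he'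
    rw [hg1, hg1] at hee
    rw [Subtype.ext hee]
  · intro e'
    constructor
    · intro he'
      exact ⟨g e' he', (hmem _).2 ⟨⟨e', he'⟩, rfl⟩, hg1 e' he'⟩
    · rintro ⟨e, he, h2⟩
      obtain ⟨x, rfl⟩ := (hmem e).1 he
      rw [hg1] at h2
      rw [← h2]
      exact x.2
  · rw [Finset.card_image_of_injective _ hinj, Finset.card_attach]
  · unfold Dat.cls
    rw [Finset.sum_image (fun x _ y _ hxy => hinj hxy), ← Finset.sum_attach χ (cl S)]
    refine Finset.sum_congr rfl fun x _ => ?_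
    rw [← cl_eq S, hg1]
  · intro e he h2
    obtain ⟨x, rfl⟩ := (hmem e).1 he
    rw [hg1] at h2
    exact hg2 x.1 x.2 h2

end Pool.Agent.RPH
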