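import Pool.Agent.RPH.NPar
import Pool.Agent.RPH.DtR
import Pool.Agent.RPH.XCfgA

/-!
# RPH-NTw: deleting an even number of twins

Adapt `Pool/Agent/EPH/NTw.lean`. With `U` the set of neighbours of `x` and `a y u = a x u + d y`: the form changes by
`f ⊗ d + d ⊗ f + U.card • ∑ y ∈ T, d y ⊗ d y`, where `d = ∑ y ∈ T, d y` and `f = ∑ u ∈ U, a x u` is the value of the form at `z x` (`x ∉ S.D.B`, `J_z`).
`twin_del` (`U` even, `h.ev`-type hypothesis `hev`): as in the adapted module; the class changes by `U.card • d + T.card • .. = 0`.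
`twin_del0` (no parity, `T = {y, y'}`, `y, y' ∉ S.D.B`): if `U.card` is even as before; if it is odd take `x := y`: the chords at `y'` have `a y' u = a y u + d`,
so `d = N (z y + z y')` and `f = N (z y)` are in the range of the form `N = N lam`, hence the new form `N + f ⊗ d + d ⊗ f + d ⊗ d` vanishes on
the radical of `N`: its rank is not larger.
-/

set_option autoImplicit false

open Finset
open scoped Classical

namespace Pool.Agent.RPH

open Pool.Agent.EPH Pool.Agent.BEO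

variable {k : ℕ} {Φ Vt Z Q : Type} [Fintype Φ] [Fintype Vt] [AddCommGroup Z] [Module F2 Z] [Module.Finite F2 Z]
  [AddCommGroup Q] [Module F2 Q]

omit [Module.Finite F2 Z] in
private theorem nt_adj (S : Sys k Φ Vt Z Q) (lam : Finset (Ch S.P)) (F G : Φ) :
    (S.D.gr lam).Adj F G ↔ ∃ e ∈ lam, s(S.D.s e, S.D.t e) = s(F, G) := by
  rw [← SimpleGraph.mem_edgeSet]
  exact gr_mem S lam s(F, G)

omit [Module.Finite F2 Z] in
private theorem nt_nb (S : Sys k Φ Vt Z Q) (lam : Finset (Ch S.P)) (F G : Φ) :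
    G ∈ nb (S.D.gr lam) F ↔ (S.D.gr lam).Adj F G := by
  unfold nb
  rw [mem_filter]
  exact ⟨fun h => h.2, fun h => ⟨mem_univ _, h⟩⟩

omit [Module.Finite F2 Z] in
private theorem nt_sum (S : Sys k Φ Vt Z Q) (lam : Finset (Ch S.P)) (hp : NoPar S lam) (x : Φ) (T : Finset Φ)
    (h : ∀ y ∈ T, ∀ u, (S.D.gr lam).Adj y u ↔ (S.D.gr lam).Adj x u) {M : Type} [AddCommMonoid M] (g : Q → M) :
    ∑ e ∈ lam.filter (fun e => S.D.s e ∈ T ∨ S.D.t e ∈ T), g (S.D.q e) =
      ∑ y ∈ T, ∑ u ∈ nb (S.D.gr lam) x, g (cl S s(y, u)) := by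
  have h1 : (lam.filter (fun e => S.D.s e ∈ T ∨ S.D.t e ∈ T)).image (fun e => s(S.D.s e, S.D.t e)) =
      (T ×ˢ nb (S.D.gr lam) x).image fun p => s(p.1, p.2) := by
    ext e'
    rw [mem_image, mem_image]
    constructor
    · rintro ⟨e, he, rfl⟩
      obtain ⟨he1, he2⟩ := mem_filter.1 he
      rcases he2 with he2 | he2
      · refine ⟨(S.D.s e, S.D.t e), mem_product.2 ⟨he2, (nt_nb S lam _ _).2 ?_⟩, rfl⟩
        exact (h _ he2 _).1 ((nt_adj S lam _ _).2 ⟨e, he1, rfl⟩)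
      · refine ⟨(S.D.t e, S.D.s e), mem_product.2 ⟨he2, (nt_nb S lam _ _).2 ?_⟩, Sym2.eq_swap⟩
        exact (h _ he2 _).1 ((nt_adj S lam _ _).2 ⟨e, he1, Sym2.eq_swap⟩)
    · rintro ⟨⟨y, u⟩, hyu, rfl⟩
      obtain ⟨hy, hu⟩ := mem_product.1 hyu
      obtain ⟨e, he, he2⟩ := (nt_adj S lam _ _).1 ((h y hy u).2 ((nt_nb S lam _ _).1 hu))
      refine ⟨e, mem_filter.2 ⟨he, ?_⟩, he2⟩
      rcases Sym2.eq_iff.1 he2 with ⟨h3, -⟩ | ⟨-, h3⟩
      · left
        rw [h3]
        exact hy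
      · right
        rw [h3]
        exact hy
  have h2 : ∀ y ∈ T, y ∉ nb (S.D.gr lam) x := by
    intro y hy hy2
    exact (S.D.gr lam).loopless.irrefl x ((h y hy x).1 ((nt_nb S lam _ _).1 hy2).symm)
  calc ∑ e ∈ lam.filter (fun e => S.D.s e ∈ T ∨ S.D.t e ∈ T), g (S.D.q e) =
        ∑ e ∈ lam.filter (fun e => S.D.s e ∈ T ∨ S.D.t e ∈ T), g (cl S s(S.D.s e, S.D.t e)) :=
        sum_congr rfl fun e _ => by rw [cl_eq]
    _ = ∑ e' ∈ (lam.filter (fun e => S.D.s e ∈ T ∨ S.D.t e ∈ T)).image (fun e => s(S.D.s e, S.D.t e)),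
          g (cl S e') := by
        rw [sum_image]
        intro e he e' he' hee
        exact hp e (mem_filter.1 he).1 e' (mem_filter.1 he').1 hee
    _ = ∑ e' ∈ (T ×ˢ nb (S.D.gr lam) x).image (fun p => s(p.1, p.2)), g (cl S e') := by rw [h1]
    _ = ∑ p ∈ T ×ˢ nb (S.D.gr lam) x, g (cl S s(p.1, p.2)) := by
        rw [sum_image]
        rintro ⟨y, u⟩ hyu ⟨y', u'⟩ hyu' he
        obtain ⟨hy, hu⟩ := mem_product.1 hyu
        obtain ⟨hy', hu'⟩ := mem_product.1 hyu'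
        rcases Sym2.eq_iff.1 he with ⟨h3, h4⟩ | ⟨h3, h4⟩
        · exact Prod.ext h3 h4
        · exfalso
          apply h2 y hy
          have h5 : y = u' := h3
          rw [h5]
          exact hu'
    _ = ∑ y ∈ T, ∑ u ∈ nb (S.D.gr lam) x, g (cl S s(y, u)) := sum_product _ _ _

omit [Module.Finite F2 Z] in
private theorem nt_dF (S : Sys k Φ Vt Z Q) (lam : Finset (Ch S.P)) (hp : NoPar S lam) (x : Φ) {M : Type}
    [AddCommMonoid M] [Module F2 M] (g : Q → M) :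
    ∑ e ∈ lam, S.D.dF x (S.D.q e) • g (S.D.q e) = ∑ u ∈ nb (S.D.gr lam) x, g (cl S s(x, u)) := by
  have h1 := nt_sum S lam hp x {x} (fun y hy u => by rw [mem_singleton.1 hy]) g
  rw [sum_singleton] at h1
  rw [← h1, sum_filter]
  refine sum_congr rfl fun e _ => ?_
  rw [S.D.inc]
  have hne := s_ne_t S e
  by_cases h2 : S.D.s e = x
  · have h3 : S.D.t e ≠ x := fun h => hne (h2.trans h.symm)
    rw [if_pos h2, if_neg h3, if_pos (Or.inl (mem_singleton.2 h2)), add_zero, one_smul]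
  · by_cases h3 : S.D.t e = x
    · rw [if_neg h2, if_pos h3, if_pos (Or.inr (mem_singleton.2 h3)), zero_add, one_smul]
    · rw [if_neg h2, if_neg h3, if_neg, add_zero, zero_smul]
      rintro (h4 | h4)
      · exact h2 (mem_singleton.1 h4)
      · exact h3 (mem_singleton.1 h4)

omit [Module.Finite F2 Z] in
private theorem nt_f (S : Sys k Φ Vt Z Q) (lam : Finset (Ch S.P)) (hp : NoPar S lam) (x : Φ) (hx : x ∉ S.D.B)
    (w : Z) : S.D.N lam (S.D.z x) w = ∑ u ∈ nb (S.D.gr lam) x, S.D.v (cl S s(x, u)) w := by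
  rw [← nt_dF S lam hp x (fun c => S.D.v c w), Dat.N_apply, S.D.symm, Dat.J_z S.D w x hx, zero_add]
  refine sum_congr rfl fun e _ => ?_
  have h1 : S.D.a e (S.D.z x) = S.D.dF x (S.D.q e) := S.D.bd x hx e
  rw [h1, smul_eq_mul]
  rfl

omit [Module.Finite F2 Z] in
private theorem nt_card (S : Sys k Φ Vt Z Q) (lam : Finset (Ch S.P)) (hp : NoPar S lam) (x : Φ) :
    ((nb (S.D.gr lam) x).card : F2) = S.D.dF x (S.D.cls lam) := by
  have h1 := nt_dF S lam hp x (fun _ => (1 : F2))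
  rw [sum_const, nsmul_eq_mul, mul_one] at h1
  rw [← h1]
  unfold Dat.cls
  rw [map_sum]
  exact sum_congr rfl fun e _ => by rw [smul_eq_mul, mul_one]

private theorem nt_sq : ∀ a : F2, a * a = a := by decide

omit [Module.Finite F2 Z] in
private theorem nt_self (S : Sys k Φ Vt Z Q) (lam : Finset (Ch S.P)) (x : Φ) (hx : x ∉ S.D.B) :
    S.D.N lam (S.D.z x) (S.D.z x) = S.D.dF x (S.D.cls lam) := by
  rw [Dat.N_apply, Dat.J_z S.D _ x hx, zero_add]
  unfold Dat.cls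
  rw [map_sum]
  refine sum_congr rfl fun e _ => ?_
  have h1 : S.D.a e (S.D.z x) = S.D.dF x (S.D.q e) := S.D.bd x hx e
  rw [h1, nt_sq]

private theorem nt_q2 (y : Q) : y + y = 0 := by
  have h : (2 : F2) = 0 := by decide
  rw [← two_smul F2 y, h, zero_smul]

omit [Module.Finite F2 Z] in
private theorem nt_d (S : Sys k Φ Vt Z Q) (lam : Finset (Ch S.P)) (x y : Φ)
    (h : ∀ u, (S.D.gr lam).Adj y u ↔ (S.D.gr lam).Adj x u) (hlc : LC S lam y x) :
    ∃ d : Q, ∀ u ∈ nb (S.D.gr lam) x, cl S s(y, u) = cl S s(x, u) + d := by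
  obtain ⟨d, hd⟩ := hlc
  refine ⟨d, fun u hu => ?_⟩
  rw [nt_nb] at hu
  obtain ⟨e', he', h2⟩ := (nt_adj S lam _ _).1 hu
  obtain ⟨e, he, h1⟩ := (nt_adj S lam _ _).1 ((h u).2 hu)
  have h3 := hd e he e' he' u h1 h2
  rw [← h1, ← h2, cl_eq, cl_eq, ← h3, add_comm (S.D.q e) (S.D.q e'), ← add_assoc, nt_q2, zero_add]

omit [Module.Finite F2 Z] in
private theorem nt_ds (S : Sys k Φ Vt Z Q) (lam : Finset (Ch S.P)) (x : Φ) (T : Finset Φ)
    (h : ∀ y ∈ T, ∀ u, (S.D.gr lam).Adj y u ↔ (S.D.gr lam).Adj x u) (hlc : ∀ y ∈ T, LC S lam y x) :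
    ∃ d : Φ → Q, ∀ y ∈ T, ∀ u ∈ nb (S.D.gr lam) x, cl S s(y, u) = cl S s(x, u) + d y := by
  have hex : ∀ y : Φ, ∃ d : Q, y ∈ T → ∀ u ∈ nb (S.D.gr lam) x, cl S s(y, u) = cl S s(x, u) + d := by
    intro y
    by_cases hy : y ∈ T
    · obtain ⟨d, hd⟩ := nt_d S lam x y (h y hy) (hlc y hy)
      exact ⟨d, fun _ => hd⟩
    · exact ⟨0, fun h' => absurd h' hy⟩
  choose d hd using hex
  exact ⟨d, fun y hy => hd y hy⟩

private theorem nt_alg {ι κ : Type} (T : Finset ι) (n : Finset κ) (hT : Even T.card) (hn : Even n.card)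
    (b b' : κ → F2) (d d' : ι → F2) :
    ∑ y ∈ T, ∑ u ∈ n, (b u + d y) * (b' u + d' y) =
      (∑ u ∈ n, b u) * (∑ y ∈ T, d' y) + (∑ y ∈ T, d y) * (∑ u ∈ n, b' u) := by
  have h1 : (T.card : F2) = 0 := ZMod.natCast_eq_zero_iff_even.2 hT
  have h2 : (n.card : F2) = 0 := ZMod.natCast_eq_zero_iff_even.2 hn
  have h3 : ∀ y ∈ T, ∑ u ∈ n, (b u + d y) * (b' u + d' y) =
      ∑ u ∈ n, b u * b' u + (∑ u ∈ n, b u) * d' y + d y * (∑ u ∈ n, b' u) := by
    intro y _
    have h4 : ∀ u ∈ n, (b u + d y) * (b' u + d' y) = b u * b' u + b u * d' y + d y * b' u + d y * d' y :=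
      fun u _ => by ring
    rw [sum_congr rfl h4, sum_add_distrib, sum_add_distrib, sum_add_distrib, sum_const, nsmul_eq_mul, h2,
      zero_mul, add_zero, sum_mul, mul_sum]
  rw [sum_congr rfl h3, sum_add_distrib, sum_add_distrib, sum_const, nsmul_eq_mul, h1, zero_mul, zero_add,
    mul_sum, sum_mul]

omit [Module.Finite F2 Z] in
/-- the change of the form -/
private theorem nt_N (S : Sys k Φ Vt Z Q) (lam : Finset (Ch S.P)) (T : Finset Φ) (u v : Z) :
    S.D.N (delF S lam T) u v = S.D.N lam u v +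
      ∑ e ∈ lam.filter (fun e => S.D.s e ∈ T ∨ S.D.t e ∈ T), S.D.v (S.D.q e) u * S.D.v (S.D.q e) v := by
  have h2 : ∑ e ∈ lam, S.D.a e u * S.D.a e v = ∑ e ∈ delF S lam T, S.D.a e u * S.D.a e v +
      ∑ e ∈ lam.filter (fun e => S.D.s e ∈ T ∨ S.D.t e ∈ T), S.D.v (S.D.q e) u * S.D.v (S.D.q e) v := by
    unfold delF
    rw [← sum_filter_add_sum_filter_not lam (fun e => S.D.s e ∉ T ∧ S.D.t e ∉ T)]
    congr 1
    refine sum_congr (filter_congr fun e _ => ?_) fun _ _ => rfl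
    tauto
  rw [Dat.N_apply, Dat.N_apply S.D lam u v, h2]
  generalize ∑ e ∈ lam.filter (fun e => S.D.s e ∈ T ∨ S.D.t e ∈ T), S.D.v (S.D.q e) u * S.D.v (S.D.q e) v = p
  generalize S.D.J u v = j
  generalize ∑ e ∈ delF S lam T, S.D.a e u * S.D.a e v = t
  revert p j t
  decide

/-- the rank of a pull back -/
private theorem nt_pull {W : Type} [AddCommGroup W] [Module F2 W] [Module.Finite F2 W]
    (N : W →ₗ[F2] W →ₗ[F2] F2) (hsym : ∀ u v, N u v = N v u) (z0 : W) (h0 : N z0 z0 = 0) (y : W →ₗ[F2] F2)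
    (N' : W →ₗ[F2] W →ₗ[F2] F2) (h : ∀ u v, N' u v = N u v + N z0 u * y v + y u * N z0 v) :
    Module.finrank F2 (LinearMap.range N') ≤ Module.finrank F2 (LinearMap.range N) := by
  obtain ⟨φ, hφ⟩ : ∃ φ : W →ₗ[F2] W, ∀ u, φ u = u + y u • z0 := ⟨LinearMap.id + y.smulRight z0, fun u => rfl⟩
  have h1 : ∀ u v, N' u v = N (φ u) (φ v) := by
    intro u v
    rw [h, hφ, hφ]
    simp only [map_add, map_smul, LinearMap.add_apply, LinearMap.smul_apply, smul_eq_mul, h0, hsym u z0]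
    ring
  have h2 : LinearMap.range N' ≤ (LinearMap.range N).map (LinearMap.lcomp F2 F2 φ) := by
    rintro _ ⟨u, rfl⟩
    refine ⟨N (φ u), ⟨φ u, rfl⟩, ?_⟩
    refine LinearMap.ext fun v => ?_
    rw [LinearMap.lcomp_apply, h1]
  exact (Submodule.finrank_mono h2).trans (Submodule.finrank_map_le _ _)

omit [Module.Finite F2 Z] in
private theorem nt_key {S : Sys k Φ Vt Z Q} {lam : Finset (Ch S.P)} (hp : NoPar S lam) (x : Φ) (hx : x ∉ S.D.B)
    (hev : S.D.dF x (S.D.cls lam) = 0) (T : Finset Φ) (hT : Even T.card)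
    (h : ∀ y ∈ T, ∀ u, (S.D.gr lam).Adj y u ↔ (S.D.gr lam).Adj x u) (d : Φ → Q)
    (hd : ∀ y ∈ T, ∀ u ∈ nb (S.D.gr lam) x, cl S s(y, u) = cl S s(x, u) + d y) (u v : Z) :
    S.D.N (delF S lam T) u v = S.D.N lam u v + S.D.N lam (S.D.z x) u * (∑ y ∈ T, S.D.v (d y)) v +
      (∑ y ∈ T, S.D.v (d y)) u * S.D.N lam (S.D.z x) v := by
  have hn : Even (nb (S.D.gr lam) x).card := by
    rw [← ZMod.natCast_eq_zero_iff_even, ← hev]
    exact nt_card S lam hp x
  rw [nt_N, add_assoc]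
  congr 1
  rw [nt_sum S lam hp x T h (fun c => S.D.v c u * S.D.v c v), nt_f S lam hp x hx, nt_f S lam hp x hx,
    LinearMap.sum_apply, LinearMap.sum_apply, ← nt_alg T _ hT hn]
  refine sum_congr rfl fun y hy => sum_congr rfl fun w hw => ?_
  rw [hd y hy w hw, map_add]
  rfl

theorem twin_del {S : Sys k Φ Vt Z Q} {lam : Finset (Ch S.P)} (hp : NoPar S lam) (x : Φ) (hx : x ∉ S.D.B)
    (hev : S.D.dF x (S.D.cls lam) = 0) (T : Finset Φ) (hT : Even T.card)
    (h : ∀ y ∈ T, ∀ u, (S.D.gr lam).Adj y u ↔ (S.D.gr lam).Adj x u) (hlc : ∀ y ∈ T, LC S lam y x) :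
    S.D.cls (delF S lam T) = S.D.cls lam ∧ S.D.rkN (delF S lam T) ≤ S.D.rkN lam := by
  obtain ⟨d, hd⟩ := nt_ds S lam x T h hlc
  have hn : Even (nb (S.D.gr lam) x).card := by
    rw [← ZMod.natCast_eq_zero_iff_even, ← hev]
    exact nt_card S lam hp x
  have h2 : ∀ (n : ℕ) (c : Q), Even n → n • c = 0 := by
    rintro n c ⟨m, rfl⟩
    rw [← two_mul, mul_comm, mul_nsmul', two_nsmul, nt_q2, nsmul_zero]
  constructor
  · have h3 : S.D.cls lam = S.D.cls (delF S lam T) +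
        ∑ e ∈ lam.filter (fun e => S.D.s e ∈ T ∨ S.D.t e ∈ T), S.D.q e := by
      unfold Dat.cls delF
      rw [← sum_filter_add_sum_filter_not lam (fun e => S.D.s e ∉ T ∧ S.D.t e ∉ T)]
      congr 1
      refine sum_congr (filter_congr fun e _ => ?_) fun _ _ => rfl
      tauto
    have h4 : ∑ e ∈ lam.filter (fun e => S.D.s e ∈ T ∨ S.D.t e ∈ T), S.D.q e = 0 := by
      have h5 := nt_sum S lam hp x T h (fun c => c)
      rw [h5]
      have h6 : ∀ y ∈ T, ∑ u ∈ nb (S.D.gr lam) x, cl S s(y, u) = ∑ u ∈ nb (S.D.gr lam) x, cl S s(x, u) := by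
        intro y hy
        rw [sum_congr rfl (hd y hy), sum_add_distrib, sum_const, h2 _ _ hn, add_zero]
      rw [sum_congr rfl h6, sum_const, h2 _ _ hT]
    rw [h3, h4, add_zero]
  · refine nt_pull (S.D.N lam) (S.D.N_symm lam) (S.D.z x) ?_ (∑ y ∈ T, S.D.v (d y)) _ ?_
    · rw [nt_self S lam x hx, hev]
    · exact nt_key hp x hx hev T hT h d hd

theorem twin_del0 {S : Sys k Φ Vt Z Q} {lam : Finset (Ch S.P)} (hp : NoPar S lam) (y y' : Φ) (hy : y ∉ S.D.B)
    (hy' : y' ∉ S.D.B) (hne : y ≠ y') (h : ∀ u, (S.D.gr lam).Adj y u ↔ (S.D.gr lam).Adj y' u) (hlc : LC S lam y y') :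
    S.D.rkN (delF S lam {y, y'}) ≤ S.D.rkN lam := by
  have h' : ∀ w ∈ ({y, y'} : Finset Φ), ∀ u, (S.D.gr lam).Adj w u ↔ (S.D.gr lam).Adj y' u := by
    intro w hw u
    rcases mem_insert.1 hw with rfl | hw
    · exact h u
    · rw [mem_singleton.1 hw]
  obtain ⟨d, hd⟩ := nt_d S lam y' y h hlc
  have hds : ∀ w ∈ ({y, y'} : Finset Φ), ∀ u ∈ nb (S.D.gr lam) y',
      cl S s(w, u) = cl S s(y', u) + (if w = y then d else 0) := by
    intro w hw u hu
    rcases mem_insert.1 hw with rfl | hw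
    · rw [if_pos rfl]
      exact hd u hu
    · rw [mem_singleton.1 hw, if_neg hne.symm, add_zero]
  by_cases hev : S.D.dF y' (S.D.cls lam) = 0
  · have hT : Even ({y, y'} : Finset Φ).card := by
      rw [card_pair hne]
      exact even_two
    refine nt_pull (S.D.N lam) (S.D.N_symm lam) (S.D.z y') ?_
      (∑ w ∈ ({y, y'} : Finset Φ), S.D.v (if w = y then d else 0)) _ ?_
    · rw [nt_self S lam y' hy', hev]
    · exact nt_key hp y' hy' hev {y, y'} hT h' (fun w => if w = y then d else 0) hds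
  · have hc : ((nb (S.D.gr lam) y').card : F2) = 1 := by
      rw [nt_card S lam hp y']
      generalize S.D.dF y' (S.D.cls lam) = r at hev
      revert r
      decide
    have hnb : nb (S.D.gr lam) y = nb (S.D.gr lam) y' := by
      ext u
      rw [nt_nb, nt_nb]
      exact h u
    have hdv : ∀ w, S.D.v d w = S.D.N lam (S.D.z y) w + S.D.N lam (S.D.z y') w := by
      intro w
      rw [nt_f S lam hp y hy, nt_f S lam hp y' hy', hnb, sum_congr rfl fun u hu => by rw [hd u hu, map_add,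
        LinearMap.add_apply], sum_add_distrib, sum_const, nsmul_eq_mul, hc, one_mul]
      generalize ∑ u ∈ nb (S.D.gr lam) y', S.D.v (cl S s(y', u)) w = p
      generalize S.D.v d w = r
      revert p r
      decide
    have hN : ∀ u v, S.D.N (delF S lam {y, y'}) u v = S.D.N lam u v + S.D.N lam (S.D.z y') u * S.D.v d v +
        S.D.v d u * S.D.N lam (S.D.z y') v + S.D.v d u * S.D.v d v := by
      intro u v
      rw [nt_N, nt_sum S lam hp y' {y, y'} h' (fun c => S.D.v c u * S.D.v c v), sum_pair hne,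
        ← sum_add_distrib, nt_f S lam hp y' hy', nt_f S lam hp y' hy']
      have h3 : ∀ w ∈ nb (S.D.gr lam) y', S.D.v (cl S s(y, w)) u * S.D.v (cl S s(y, w)) v +
          S.D.v (cl S s(y', w)) u * S.D.v (cl S s(y', w)) v = S.D.v (cl S s(y', w)) u * S.D.v d v +
          S.D.v d u * S.D.v (cl S s(y', w)) v + S.D.v d u * S.D.v d v := by
        intro w hw
        rw [hd w hw, map_add, LinearMap.add_apply, LinearMap.add_apply]
        generalize S.D.v (cl S s(y', w)) u = p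
        generalize S.D.v (cl S s(y', w)) v = p'
        generalize S.D.v d u = r
        generalize S.D.v d v = r'
        revert p p' r r'
        decide
      rw [sum_congr rfl h3, sum_add_distrib, sum_add_distrib, sum_const, nsmul_eq_mul, hc, one_mul, sum_mul,
        mul_sum]
      ring
    unfold Dat.rkN
    refine Submodule.finrank_mono ?_
    rintro _ ⟨u, rfl⟩
    refine ⟨u + (S.D.N lam (S.D.z y') u) • (S.D.z y + S.D.z y') + (S.D.v d u) • S.D.z y' +
      (S.D.v d u) • (S.D.z y + S.D.z y'), ?_⟩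
    refine LinearMap.ext fun v => ?_
    rw [hN]
    simp only [map_add, map_smul, LinearMap.add_apply, LinearMap.smul_apply, smul_eq_mul, hdv]

end Pool.Agent.RPH
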