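import Pool.Agent.RPH.AMainA
import Pool.Agent.FGT.FinR

/-!
# RPH-GLeaf: the leaf theorem in the form used by the assembly
-/

set_option autoImplicit false

open Finset
open scoped Classical

namespace Pool.Agent.RPH

open Pool.Agent.EPH Pool.Agent.BEO
open Pool.Agent.Helper35.OG hiding F2 dg
open N487b59b3 Pool.Agent.Helper22

/-- the leaf theorem in the form used by the assembly -/
theorem leafT (k c B : ℕ) (o : Bool) : ∃ cand : Inp → List Ec → List FGT.En,
    (FP fun p : Inp × List Ec => cand p.1 p.2) ∧ FGT.LeafT k c B o cand := by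
  obtain ⟨cand, h1, h2⟩ := leaf k c B o
  refine ⟨cand, h1, ?_⟩
  intro n G hG hn S hS l hl K Q hL d hd M hM hM' hB
  obtain ⟨M', -, h3, h4, h5, h6⟩ := h2 n G hG hn S hS l hl K Q hL d hd M hM hM' hB
  refine ⟨M', fun p => ?_, h4, h5, h6⟩
  convert h3 p

end Pool.Agent.RPH
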