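import Pool.Agent.RPH.GdNb
import Pool.Agent.BEO.Par

/-!
# RPH-GdCls: even sets of edges of the extended graph

`oldE χ` are the old edges of `χ`.
-/

set_option autoImplicit false

open Finset
open scoped Classical

namespace Pool.Agent.RPH

open Pool.Agent.BEO (F2 nb es vs dg row)

namespace PCfg

variable {k : ℕ} {V Q : Type} [Fintype V] [AddCommGroup Q] [Module F2 Q] (c : PCfg k V Q)

/-- the old edges -/
noncomputable def oldE (χ : Finset (Sym2 (GV c.B))) : Finset (Sym2 V) :=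
  univ.filter fun e => e.map Sum.inl ∈ χ

/-! ### the vertices and edges of a path -/

theorem dg_card {X : Type} (χ : Finset (Sym2 X)) (x : X) (s : Finset (Sym2 X))
    (h : ∀ e, e ∈ s ↔ e ∈ χ ∧ x ∈ e) : dg χ x = s.card := by
  unfold dg
  congr 1
  ext e
  rw [Finset.mem_filter]
  exact (h e).symm

theorem dg_coef' {X : Type} (U χ : Finset (Sym2 X)) (hU : ∀ e, e ∈ U) (x : X) (f g : Sym2 X → F2)
    (hχ : ∀ e, e ∈ χ ↔ f e = 1) (h1 : ∀ e, x ∈ e → g e = 1) (h0 : ∀ e, x ∉ e → g e = 0) :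
    ((dg χ x : ℕ) : F2) = ∑ e ∈ U, f e * g e := by
  rw [dg_card χ x (U.filter fun e => f e = 1 ∧ x ∈ e) fun e => by rw [Finset.mem_filter, hχ]; exact ⟨fun h => h.2, fun h => ⟨hU e, h⟩⟩]
  rw [Finset.card_filter, Nat.cast_sum]
  refine Finset.sum_congr rfl fun e _ => ?_
  rcases Pool.Agent.BEO.f2_cases (f e) with h | h
  · rw [h, zero_mul, if_neg (fun h' => by exact absurd h'.1 (by decide)), Nat.cast_zero]
  · by_cases hv : x ∈ e
    · rw [h, if_pos ⟨rfl, hv⟩, h1 e hv, one_mul, Nat.cast_one]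
    · rw [h, if_neg (fun h' => hv h'.2), h0 e hv, mul_zero, Nat.cast_zero]

theorem mid_ne_inl (b : {v : V // v ∈ c.B}) (i : Fin 2) (j : Fin 6) (v : V) : c.mid b i j ≠ Sum.inl v := by
  intro h
  unfold mid at h
  exact absurd h (by simp)

theorem mid_ne_top (b : {v : V // v ∈ c.B}) (i : Fin 2) (j : Fin 6) : c.mid b i j ≠ c.top := by
  intro h
  unfold mid top at h
  exact absurd (Sum.inr_injective h) (by simp)

theorem inl_ne_top (v : V) : (Sum.inl v : GV c.B) ≠ c.top := by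
  intro h
  unfold top at h
  exact absurd h (by simp)

theorem mid_inj {b b' : {v : V // v ∈ c.B}} {i i' : Fin 2} {j j' : Fin 6}
    (h : c.mid b i j = c.mid b' i' j') : b = b' ∧ i = i' ∧ j = j' := by
  unfold mid at h
  have h1 := Sum.inl_injective (Sum.inr_injective h)
  simp only [Prod.mk.injEq] at h1
  exact ⟨h1.1, h1.2.1, h1.2.2⟩

noncomputable def pv (b : {v : V // v ∈ c.B}) (i : Fin 2) (j : ℕ) : GV c.B :=
  if j = 0 then Sum.inl b.1 else if h : j - 1 < 6 then c.mid b i ⟨j - 1, h⟩ else c.top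

theorem pv_zero (b : {v : V // v ∈ c.B}) (i : Fin 2) : c.pv b i 0 = Sum.inl b.1 := if_pos rfl

theorem pv_mid (b : {v : V // v ∈ c.B}) (i : Fin 2) (j : Fin 6) : c.pv b i (j + 1) = c.mid b i j := by
  unfold pv
  rw [if_neg (Nat.succ_ne_zero _), dif_pos (show (j : ℕ) + 1 - 1 < 6 from j.2)]
  rfl

theorem pv_top (b : {v : V // v ∈ c.B}) (i : Fin 2) : c.pv b i 7 = c.top := by
  unfold pv
  rw [if_neg (by norm_num), dif_neg (by norm_num)]

theorem le7 {j : ℕ} (hj : j ≤ 7) : j = 0 ∨ (∃ j' : Fin 6, j = (j' : ℕ) + 1) ∨ j = 7 := by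
  by_cases h0 : j = 0
  · exact Or.inl h0
  · by_cases h7 : j = 7
    · exact Or.inr (Or.inr h7)
    · exact Or.inr (Or.inl ⟨⟨j - 1, by omega⟩, by simp only; omega⟩)

theorem pv_inj (b : {v : V // v ∈ c.B}) (i : Fin 2) {j k : ℕ} (hj : j ≤ 7) (hk : k ≤ 7)
    (h : c.pv b i j = c.pv b i k) : j = k := by
  rcases le7 hj with rfl | ⟨j', rfl⟩ | rfl
  · rcases le7 hk with rfl | ⟨k', rfl⟩ | rfl
    · rfl
    · rw [pv_zero, pv_mid] at h
      exact absurd h.symm (c.mid_ne_inl _ _ _ _)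
    · rw [pv_zero, pv_top] at h
      exact absurd h (c.inl_ne_top _)
  · rcases le7 hk with rfl | ⟨k', rfl⟩ | rfl
    · rw [pv_zero, pv_mid] at h
      exact absurd h (c.mid_ne_inl _ _ _ _)
    · rw [pv_mid, pv_mid] at h
      rw [(c.mid_inj h).2.2]
    · rw [pv_mid, pv_top] at h
      exact absurd h (c.mid_ne_top _ _ _)
  · rcases le7 hk with rfl | ⟨k', rfl⟩ | rfl
    · rw [pv_zero, pv_top] at h
      exact absurd h.symm (c.inl_ne_top _)
    · rw [pv_mid, pv_top] at h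
      exact absurd h.symm (c.mid_ne_top _ _ _)
    · rfl

/-- the neighbours of an inner vertex -/
theorem mid_adj (L : SimpleGraph V) (b : {v : V // v ∈ c.B}) (i : Fin 2) (j : Fin 6) (h : c.act b i)
    (x : GV c.B) : (c.extG L).Adj (c.mid b i j) x ↔ x = c.pv b i j ∨ x = c.pv b i (j + 2) := by
  rcases c.gv_cases x with ⟨v, rfl⟩ | ⟨b', i', j', rfl⟩ | rfl
  · rw [SimpleGraph.adj_comm, c.ext_inl_mid L]
    constructor
    · rintro ⟨rfl, rfl, _⟩
      left
      exact (c.pv_zero b i).symm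
    · rintro (h1 | h1)
      · rcases le7 (show (j : ℕ) ≤ 7 by omega) with h0 | ⟨k, hk⟩ | h7
        · rw [h0, pv_zero] at h1
          exact ⟨Sum.inl_injective h1, Fin.ext h0, h⟩
        · rw [hk, pv_mid] at h1
          exact absurd h1.symm (c.mid_ne_inl _ _ _ _)
        · omega
      · rcases le7 (show (j : ℕ) + 2 ≤ 7 by omega) with h0 | ⟨k, hk⟩ | h7
        · omega
        · rw [hk, pv_mid] at h1
          exact absurd h1.symm (c.mid_ne_inl _ _ _ _)
        · rw [h7, pv_top] at h1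
          exact absurd h1 (c.inl_ne_top _)
  · rw [c.ext_mid_mid L]
    constructor
    · rintro ⟨rfl, rfl, _, h1 | h1⟩
      · right
        rw [show (j : ℕ) + 2 = (j' : ℕ) + 1 by omega, pv_mid]
      · left
        rw [h1, pv_mid]
    · rintro (h1 | h1)
      · rcases le7 (show (j : ℕ) ≤ 7 by omega) with h0 | ⟨k, hk⟩ | h7
        · rw [h0, pv_zero] at h1
          exact absurd h1 (c.mid_ne_inl _ _ _ _)
        · rw [hk, pv_mid] at h1
          obtain ⟨h2, h3, h4⟩ := c.mid_inj h1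
          exact ⟨h2.symm, h3.symm, h, Or.inr (by rw [hk, h4])⟩
        · omega
      · rcases le7 (show (j : ℕ) + 2 ≤ 7 by omega) with h0 | ⟨k, hk⟩ | h7
        · omega
        · rw [hk, pv_mid] at h1
          obtain ⟨h2, h3, h4⟩ := c.mid_inj h1
          refine ⟨h2.symm, h3.symm, h, Or.inl ?_⟩
          rw [h4]
          omega
        · rw [h7, pv_top] at h1
          exact absurd h1 (c.mid_ne_top _ _ _)
  · rw [c.ext_mid_top L]
    constructor
    · rintro ⟨rfl, _⟩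
      right
      exact (c.pv_top b i).symm
    · rintro (h1 | h1)
      · rcases le7 (show (j : ℕ) ≤ 7 by omega) with h0 | ⟨k, hk⟩ | h7
        · rw [h0, pv_zero] at h1
          exact absurd h1.symm (c.inl_ne_top _)
        · rw [hk, pv_mid] at h1
          exact absurd h1.symm (c.mid_ne_top _ _ _)
        · omega
      · rcases le7 (show (j : ℕ) + 2 ≤ 7 by omega) with h0 | ⟨k, hk⟩ | h7
        · omega
        · rw [hk, pv_mid] at h1
          exact absurd h1.symm (c.mid_ne_top _ _ _)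
        · refine ⟨Fin.ext ?_, h⟩
          show (j : ℕ) = 5
          omega

/-- the edges of the path -/
noncomputable def pe (b : {v : V // v ∈ c.B}) (i : Fin 2) (j : ℕ) : Sym2 (GV c.B) :=
  s(c.pv b i j, c.pv b i (j + 1))

theorem pe_inj (b : {v : V // v ∈ c.B}) (i : Fin 2) {j k : ℕ} (hj : j < 7) (hk : k < 7)
    (h : c.pe b i j = c.pe b i k) : j = k := by
  unfold pe at h
  rw [Sym2.eq_iff] at h
  rcases h with ⟨h1, _⟩ | ⟨h1, h2⟩
  · exact c.pv_inj b i (by omega) (by omega) h1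
  · have h3 := c.pv_inj b i (by omega) (by omega) h1
    have h4 := c.pv_inj b i (by omega) (by omega) h2
    omega

theorem pe_mid (b : {v : V // v ∈ c.B}) (i : Fin 2) {j : ℕ} (hj : j < 7) :
    ∃ k : Fin 6, c.mid b i k ∈ c.pe b i j := by
  by_cases h0 : j = 0
  · refine ⟨0, ?_⟩
    rw [← c.pv_mid b i 0, h0]
    exact Sym2.mem_mk_right _ _
  · obtain ⟨k, hk⟩ : ∃ k : Fin 6, j = (k : ℕ) + 1 := ⟨⟨j - 1, by omega⟩, by simp only; omega⟩
    refine ⟨k, ?_⟩
    rw [← c.pv_mid b i k, ← hk]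
    exact Sym2.mem_mk_left _ _

theorem pe_adj (L : SimpleGraph V) (b : {v : V // v ∈ c.B}) (i : Fin 2) (h : c.act b i) {j : ℕ} (hj : j < 7) :
    c.pe b i j ∈ (c.extG L).edgeSet := by
  unfold pe
  rw [SimpleGraph.mem_edgeSet]
  by_cases h0 : j = 0
  · have h1 : c.pv b i (j + 1) = c.mid b i 0 := by
      rw [h0]
      exact c.pv_mid b i 0
    rw [h1, SimpleGraph.adj_comm, c.mid_adj L b i 0 h, h0]
    left
    rfl
  · obtain ⟨k, hk⟩ : ∃ k : Fin 6, j = (k : ℕ) + 1 := ⟨⟨j - 1, by omega⟩, by simp only; omega⟩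
    rw [hk, c.pv_mid b i k, c.mid_adj L b i k h]
    right
    rfl

/-- an edge at an inner vertex is one of two edges of the path -/
theorem edge_mid {L : SimpleGraph V} {b : {v : V // v ∈ c.B}} {i : Fin 2} {j : Fin 6} {e : Sym2 (GV c.B)}
    (he : e ∈ (c.extG L).edgeSet) (hm : c.mid b i j ∈ e) :
    c.act b i ∧ (e = c.pe b i j ∨ e = c.pe b i (j + 1)) := by
  obtain ⟨x, rfl⟩ := Sym2.mem_iff_exists.1 hm
  rw [SimpleGraph.mem_edgeSet] at he
  have h : c.act b i := by
    by_contra hn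
    exact c.mid_none L b i j hn x he
  refine ⟨h, ?_⟩
  rw [c.mid_adj L b i j h] at he
  unfold pe
  rcases he with he | he
  · left
    rw [he, c.pv_mid b i j, Sym2.eq_swap]
  · right
    rw [he, c.pv_mid b i j]

/-- an edge of the extended graph is old or contains an inner vertex -/
theorem edge_cases {L : SimpleGraph V} {e : Sym2 (GV c.B)} (he : e ∈ (c.extG L).edgeSet) :
    (∃ e0 ∈ L.edgeSet, e = Sym2.map Sum.inl e0) ∨ ∃ b i j, c.mid b i j ∈ e := by
  induction e using Sym2.ind with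
  | _ x y =>
    rw [SimpleGraph.mem_edgeSet] at he
    rcases c.gv_cases x with ⟨v, rfl⟩ | ⟨b', i', j', rfl⟩ | rfl
    · rcases c.gv_cases y with ⟨w, rfl⟩ | ⟨b', i', j', rfl⟩ | rfl
      · left
        rw [c.ext_inl_inl L] at he
        exact ⟨s(v, w), he, rfl⟩
      · exact Or.inr ⟨b', i', j', Sym2.mem_mk_right _ _⟩
      · exact absurd he (c.ext_inl_top L v)
    · exact Or.inr ⟨b', i', j', Sym2.mem_mk_left _ _⟩
    · rcases c.gv_cases y with ⟨w, rfl⟩ | ⟨b', i', j', rfl⟩ | rfl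
      · exact absurd he.symm (c.ext_inl_top L w)
      · exact Or.inr ⟨b', i', j', Sym2.mem_mk_right _ _⟩
      · exact absurd rfl he.ne

theorem map_edge {L : SimpleGraph V} {e0 : Sym2 V} (he : Sym2.map Sum.inl e0 ∈ (c.extG L).edgeSet) :
    e0 ∈ L.edgeSet := by
  induction e0 using Sym2.ind with
  | _ u v =>
    rw [Sym2.map_mk, SimpleGraph.mem_edgeSet] at he
    exact (c.ext_inl_inl L u v).mp he

theorem map_edge' {L : SimpleGraph V} {e0 : Sym2 V} (he : e0 ∈ L.edgeSet) :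
    Sym2.map Sum.inl e0 ∈ (c.extG L).edgeSet := by
  induction e0 using Sym2.ind with
  | _ u v =>
    rw [Sym2.map_mk, SimpleGraph.mem_edgeSet]
    exact (c.ext_inl_inl L u v).mpr he

theorem map_inj : Function.Injective (Sym2.map (Sum.inl : V → GV c.B)) :=
  Sym2.map.injective Sum.inl_injective

theorem mem_map_inl {e0 : Sym2 V} {v : V} : (Sum.inl v : GV c.B) ∈ Sym2.map Sum.inl e0 ↔ v ∈ e0 := by
  rw [Sym2.mem_map]
  constructor
  · rintro ⟨a, ha, h⟩
    rw [← Sum.inl_injective h]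
    exact ha
  · intro h
    exact ⟨v, h, rfl⟩

theorem notMem_map {e0 : Sym2 V} {b : {v : V // v ∈ c.B}} {i : Fin 2} {j : Fin 6} :
    c.mid b i j ∉ Sym2.map Sum.inl e0 := by
  rw [Sym2.mem_map]
  rintro ⟨a, _, h⟩
  exact c.mid_ne_inl b i j a h.symm

theorem step {L0 : SimpleGraph V} {χ : Finset (Sym2 (GV c.B))} (h1 : ∀ e ∈ χ, e ∈ (c.extG L0).edgeSet)
    (h2 : ∀ v, Even (dg χ v)) (b : {v : V // v ∈ c.B}) (i : Fin 2) (j : Fin 6) :
    c.pe b i j ∈ χ ↔ c.pe b i (j + 1) ∈ χ := by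
  have hne : c.pe b i j ≠ c.pe b i (j + 1) := by
    intro h
    have := c.pe_inj b i (show (j : ℕ) < 7 by omega) (show (j : ℕ) + 1 < 7 by omega) h
    omega
  have hin : c.mid b i j ∈ c.pe b i j := by
    rw [← c.pv_mid b i j]
    exact Sym2.mem_mk_right _ _
  have hin' : c.mid b i j ∈ c.pe b i (j + 1) := by
    rw [← c.pv_mid b i j]
    exact Sym2.mem_mk_left _ _
  have hsub : ∀ e, e ∈ χ ∧ c.mid b i j ∈ e → e = c.pe b i j ∨ e = c.pe b i (j + 1) := by
    intro e he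
    exact (c.edge_mid (h1 e he.1) he.2).2
  have hd := h2 (c.mid b i j)
  constructor
  · intro ha
    by_contra hb
    rw [dg_card χ (c.mid b i j) {c.pe b i j}, Finset.card_singleton] at hd
    · exact absurd hd (by decide)
    · intro e
      rw [Finset.mem_singleton]
      constructor
      · rintro rfl
        exact ⟨ha, hin⟩
      · intro he
        rcases hsub e he with h | h
        · exact h
        · exact absurd (h ▸ he.1) hb
  · intro ha
    by_contra hb
    rw [dg_card χ (c.mid b i j) {c.pe b i (j + 1)}, Finset.card_singleton] at hd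
    · exact absurd hd (by decide)
    · intro e
      rw [Finset.mem_singleton]
      constructor
      · rintro rfl
        exact ⟨ha, hin'⟩
      · intro he
        rcases hsub e he with h | h
        · exact absurd (h ▸ he.1) hb
        · exact h

theorem path_all {L0 : SimpleGraph V} {χ : Finset (Sym2 (GV c.B))} (h1 : ∀ e ∈ χ, e ∈ (c.extG L0).edgeSet)
    (h2 : ∀ v, Even (dg χ v)) (b : {v : V // v ∈ c.B}) (i : Fin 2) (j : ℕ) (hj : j < 7) :
    c.pe b i j ∈ χ ↔ c.pe b i 0 ∈ χ := by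
  induction j with
  | zero => exact Iff.rfl
  | succ j ih =>
    rw [← ih (by omega)]
    exact (c.step h1 h2 b i ⟨j, by omega⟩).symm

/-- the sum of the first components -/
theorem sum_fst {L0 : SimpleGraph V} {χ : Finset (Sym2 (GV c.B))} (h1 : ∀ e ∈ χ, e ∈ (c.extG L0).edgeSet) :
    ∑ e ∈ χ, (c.aX e).1 = ∑ e0 ∈ c.oldE χ, c.a e0 := by
  have hsub : (c.oldE χ).image (Sym2.map Sum.inl) ⊆ χ := by
    intro e he
    obtain ⟨e0, he0, rfl⟩ := Finset.mem_image.mp he
    exact (Finset.mem_filter.mp he0).2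
  rw [← Finset.sum_subset hsub, Finset.sum_image (fun x _ y _ h => c.map_inj h)]
  · refine Finset.sum_congr rfl fun e0 _ => ?_
    rw [c.aX_old]
  · intro e he hn
    rcases c.edge_cases (h1 e he) with ⟨e0, _, rfl⟩ | ⟨b, i, j, hm⟩
    · exact absurd (Finset.mem_image.mpr ⟨e0, Finset.mem_filter.mpr ⟨Finset.mem_univ _, he⟩, rfl⟩) hn
    · obtain ⟨x, rfl⟩ := Sym2.mem_iff_exists.1 hm
      rw [c.aX_mid L0 b i j x ((SimpleGraph.mem_edgeSet _).mp (h1 _ he))]

/-- the degrees of the old edges -/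
theorem dg_old {χ : Finset (Sym2 (GV c.B))} (v : V)
    (h : ∀ e ∈ χ, Sum.inl v ∈ e → ∃ e0, e = Sym2.map Sum.inl e0) : dg (c.oldE χ) v = dg χ (Sum.inl v) := by
  rw [dg_card (c.oldE χ) v ((c.oldE χ).filter fun e => v ∈ e) fun e => Finset.mem_filter,
    ← Finset.card_image_of_injective _ c.map_inj]
  refine (dg_card χ (Sum.inl v) _ fun e => ?_).symm
  rw [Finset.mem_image]
  constructor
  · rintro ⟨e0, he0, rfl⟩
    rw [Finset.mem_filter] at he0
    exact ⟨(Finset.mem_filter.mp he0.1).2, (c.mem_map_inl).mpr he0.2⟩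
  · rintro ⟨he, hv⟩
    obtain ⟨e0, rfl⟩ := h e he hv
    exact ⟨e0, Finset.mem_filter.mpr ⟨Finset.mem_filter.mpr ⟨Finset.mem_univ _, he⟩, (c.mem_map_inl).mp hv⟩, rfl⟩

theorem ext_cls (χ : Finset (Sym2 (GV c.B))) (h1 : ∀ e ∈ χ, e ∈ (c.extG c.R).edgeSet)
    (h2 : ∀ v, Even (dg χ v)) : ∑ e ∈ χ, c.aX e ∈ c.HX := by
  have hfst : (∑ e ∈ χ, c.aX e).1 = ∑ e0 ∈ c.oldE χ, c.a e0 := by
    rw [Prod.fst_sum]
    exact c.sum_fst h1
  refine Submodule.mem_prod.mpr ⟨?_, Submodule.mem_top⟩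
  rw [hfst]
  refine c.clsR _ (fun e he => ?_) (fun v hv => ?_)
  · exact c.map_edge (h1 _ (Finset.mem_filter.mp he).2)
  · rw [c.dg_old v]
    · exact h2 _
    · intro e he hve
      rcases c.edge_cases (h1 e he) with ⟨e0, _, rfl⟩ | ⟨b, i, j, hm⟩
      · exact ⟨e0, rfl⟩
      · exfalso
        obtain ⟨x, rfl⟩ := Sym2.mem_iff_exists.1 hm
        have hadj := (SimpleGraph.mem_edgeSet _).mp (h1 _ he)
        rcases Sym2.mem_iff.mp hve with h | h
        · exact c.mid_ne_inl b i j v h.symm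
        · rw [← h, SimpleGraph.adj_comm, c.ext_inl_mid] at hadj
          exact hv (hadj.1 ▸ b.2)

theorem old_all {L0 : SimpleGraph V} (χ : Finset (Sym2 (GV c.B))) (h1 : ∀ e ∈ χ, e ∈ (c.extG L0).edgeSet)
    (h2 : ∀ v, Even (dg χ v)) (h3 : ∑ e ∈ χ, c.aX e = 0) :
    (∀ e ∈ c.oldE χ, e ∈ L0.edgeSet) ∧ (∀ v, Even (dg (c.oldE χ) v)) ∧ ∑ e0 ∈ c.oldE χ, c.a e0 = 0 ∧
    (χ.filter fun e => e ∈ (c.extG c.M).edgeSet).card = ((c.oldE χ).filter fun e => e ∈ c.M.edgeSet).card ∧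
    (χ.filter fun e => e ∉ (c.extG c.M).edgeSet).card = ((c.oldE χ).filter fun e => e ∉ c.M.edgeSet).card := by
  have hfst : ∑ e0 ∈ c.oldE χ, c.a e0 = 0 := by
    rw [← c.sum_fst h1, ← Prod.fst_sum, h3]
    rfl
  have hno : ∀ (b : {v : V // v ∈ c.B}) (i : Fin 2) (j : Fin 6), ∀ e ∈ χ, c.mid b i j ∉ e := by
    intro b i j e he hm
    have h0 : c.pe b i 0 ∈ χ := by
      rcases (c.edge_mid (h1 e he) hm).2 with h | h
      · rw [← c.path_all h1 h2 b i j (by omega), ← h]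
        exact he
      · rw [← c.path_all h1 h2 b i (j + 1) (by omega), ← h]
        exact he
    have hT : χ.filter (fun e => ∃ j, c.mid b i j ∈ e) = (range 7).image (c.pe b i) := by
      ext e'
      rw [Finset.mem_filter, Finset.mem_image]
      constructor
      · rintro ⟨he', k, hk⟩
        rcases (c.edge_mid (h1 e' he') hk).2 with h | h
        · exact ⟨k, Finset.mem_range.mpr (by omega), h.symm⟩
        · exact ⟨k + 1, Finset.mem_range.mpr (by omega), h.symm⟩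
      · rintro ⟨k, hk, rfl⟩
        have hk' := Finset.mem_range.mp hk
        exact ⟨(c.path_all h1 h2 b i k hk').mpr h0, c.pe_mid b i hk'⟩
    have hc : (χ.filter (fun e => ∃ j, c.mid b i j ∈ e)).card = 7 := by
      rw [hT, Finset.card_image_of_injOn, Finset.card_range]
      intro x hx y hy hxy
      exact c.pe_inj b i (Finset.mem_range.mp (Finset.mem_coe.mp hx)) (Finset.mem_range.mp (Finset.mem_coe.mp hy)) hxy
    have h4 : (∑ e ∈ χ, c.aX e).2 (b, i) = ((χ.filter (fun e => ∃ j, c.mid b i j ∈ e)).card : F2) := by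
      rw [Prod.snd_sum, Finset.sum_apply, Finset.card_filter, Nat.cast_sum]
      refine Finset.sum_congr rfl fun e' _ => ?_
      unfold aX
      show (if ∃ j, c.mid b i j ∈ e' then (1 : F2) else 0) = _
      by_cases hh : ∃ j, c.mid b i j ∈ e'
      · rw [if_pos hh, if_pos hh, Nat.cast_one]
      · rw [if_neg hh, if_neg hh, Nat.cast_zero]
    rw [h3, hc] at h4
    have h5 : (0 : F2) = ((7 : ℕ) : F2) := h4
    exact absurd h5 (by decide)
  have hold : ∀ e ∈ χ, ∃ e0, e = Sym2.map Sum.inl e0 := by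
    intro e he
    rcases c.edge_cases (h1 e he) with ⟨e0, _, rfl⟩ | ⟨b, i, j, hm⟩
    · exact ⟨e0, rfl⟩
    · exact absurd hm (hno b i j e he)
  have e1 : (χ.filter fun e => e ∈ (c.extG c.M).edgeSet).card = ((c.oldE χ).filter fun e => e ∈ c.M.edgeSet).card := by
    rw [← Finset.card_image_of_injective _ c.map_inj]
    congr 1
    ext e
    rw [Finset.mem_filter, Finset.mem_image]
    constructor
    · rintro ⟨he, hM⟩
      obtain ⟨e0, rfl⟩ := hold e he
      exact ⟨e0, Finset.mem_filter.mpr ⟨Finset.mem_filter.mpr ⟨Finset.mem_univ _, he⟩, c.map_edge hM⟩, rfl⟩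
    · rintro ⟨e0, he0, rfl⟩
      rw [Finset.mem_filter] at he0
      exact ⟨(Finset.mem_filter.mp he0.1).2, c.map_edge' he0.2⟩
  have e2 : (χ.filter fun e => e ∉ (c.extG c.M).edgeSet).card = ((c.oldE χ).filter fun e => e ∉ c.M.edgeSet).card := by
    rw [← Finset.card_image_of_injective _ c.map_inj]
    congr 1
    ext e
    rw [Finset.mem_filter, Finset.mem_image]
    constructor
    · rintro ⟨he, hM⟩
      obtain ⟨e0, rfl⟩ := hold e he
      exact ⟨e0, Finset.mem_filter.mpr ⟨Finset.mem_filter.mpr ⟨Finset.mem_univ _, he⟩,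
        fun h => hM (c.map_edge' h)⟩, rfl⟩
    · rintro ⟨e0, he0, rfl⟩
      rw [Finset.mem_filter] at he0
      exact ⟨(Finset.mem_filter.mp he0.1).2, fun h => he0.2 (c.map_edge h)⟩
  exact ⟨fun e he => c.map_edge (h1 _ (Finset.mem_filter.mp he).2),
    fun v => by rw [c.dg_old v fun e he _ => hold e he]; exact h2 _, hfst, e1, e2⟩

theorem ext_mn (χ : Finset (Sym2 (GV c.B))) (h1 : ∀ e ∈ χ, e ∈ (c.extG c.L).edgeSet)
    (h2 : ∀ v, Even (dg χ v)) (h3 : ∑ e ∈ χ, c.aX e = 0) :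
    (χ.filter fun e => e ∈ (c.extG c.M).edgeSet).card ≤ (χ.filter fun e => e ∉ (c.extG c.M).edgeSet).card := by
  obtain ⟨a1, a2, a3, a4, a5⟩ := c.old_all χ h1 h2 h3
  rw [a4, a5]
  exact c.mn _ a1 a2 a3

theorem ext_mnR (χ : Finset (Sym2 (GV c.B))) (h1 : ∀ e ∈ χ, e ∈ (c.extG c.R).edgeSet)
    (h2 : ∀ v, Even (dg χ v)) (h3 : ∑ e ∈ χ, c.aX e = 0) :
    (χ.filter fun e => e ∈ (c.extG c.M).edgeSet).card ≤
      (χ.filter fun e => e ∉ (c.extG c.M).edgeSet).card + 13 * k := by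
  obtain ⟨a1, a2, a3, a4, a5⟩ := c.old_all χ h1 h2 h3
  rw [a4, a5]
  exact c.mnR _ a1 a2 a3

theorem oldE_es (L0 : SimpleGraph V) : c.oldE (es (c.extG L0)) = es L0 := by
  ext e
  unfold oldE es
  rw [Finset.mem_filter, Finset.mem_filter, Finset.mem_filter]
  constructor
  · rintro ⟨_, _, h⟩
    exact ⟨Finset.mem_univ _, c.map_edge h⟩
  · rintro ⟨_, h⟩
    exact ⟨Finset.mem_univ _, Finset.mem_univ _, c.map_edge' h⟩

theorem ext_clLM : ∑ e ∈ es (c.extG c.L), c.aX e = ∑ e ∈ es (c.extG c.M), c.aX e := by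
  have he : ∀ L0 : SimpleGraph V, ∀ e ∈ es (c.extG L0), e ∈ (c.extG L0).edgeSet := by
    intro L0 e h
    exact (Finset.mem_filter.mp h).2
  refine Prod.ext ?_ ?_
  · rw [Prod.fst_sum, Prod.fst_sum, c.sum_fst (he c.L), c.sum_fst (he c.M), c.oldE_es, c.oldE_es]
    exact c.clLM
  · rw [Prod.snd_sum, Prod.snd_sum]
    funext bi
    rw [Finset.sum_apply, Finset.sum_apply]
    have hs : ∀ L0 : SimpleGraph V, ∑ e ∈ es (c.extG L0), (c.aX e).2 bi =
        ∑ e ∈ (es (c.extG L0)).filter (fun e => ∃ j, c.mid bi.1 bi.2 j ∈ e), (1 : F2) := by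
      intro L0
      rw [Finset.sum_filter]
      rfl
    rw [hs, hs]
    refine Finset.sum_congr ?_ fun _ _ => rfl
    ext e
    rw [Finset.mem_filter, Finset.mem_filter]
    unfold es
    rw [Finset.mem_filter, Finset.mem_filter]
    refine and_congr_left fun hm => and_congr_right fun _ => ?_
    obtain ⟨j, hj⟩ := hm
    obtain ⟨x, rfl⟩ := Sym2.mem_iff_exists.1 hj
    rw [SimpleGraph.mem_edgeSet, SimpleGraph.mem_edgeSet]
    by_cases ha : c.act bi.1 bi.2
    · rw [c.mid_adj c.L bi.1 bi.2 j ha, c.mid_adj c.M bi.1 bi.2 j ha]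
    · exact iff_of_false (c.mid_none c.L bi.1 bi.2 j ha x) (c.mid_none c.M bi.1 bi.2 j ha x)

end PCfg

end Pool.Agent.RPH
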