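import Pool.Agent.RPH.GdNb
import Pool.Agent.BEO.Par

/-!
# RPH-GdEv: all degrees of the extended graphs are even
-/

set_option autoImplicit false

open Finset
open scoped Classical

namespace Pool.Agent.RPH

open Pool.Agent.BEO (F2 nb es vs dg row)

namespace PCfg

variable {k : ℕ} {V Q : Type} [Fintype V] [AddCommGroup Q] [Module F2 Q] (c : PCfg k V Q)

private theorem gdEv_act (b : {v : V // v ∈ c.B}) :
    Even ((univ.filter (fun i : Fin 2 => c.act b i)).card + (nb c.L b.1).card) := by
  by_cases h : Even (nb c.L b.1).card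
  · have h1 : univ.filter (fun i : Fin 2 => c.act b i) = univ := by
      rw [filter_eq_self]
      intro i _
      exact Or.inr h
    rw [h1, card_univ, Fintype.card_fin]
    exact even_two.add h
  · have h1 : univ.filter (fun i : Fin 2 => c.act b i) = {0} := by
      ext i
      rw [mem_filter, mem_singleton]
      constructor
      · rintro ⟨_, h2 | h2⟩
        · exact h2
        · exact absurd h2 h
      · intro h2
        exact ⟨mem_univ _, Or.inl h2⟩
    rw [h1, card_singleton]
    exact odd_one.add_odd (Nat.not_even_iff_odd.mp h)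

private theorem gdEv_inl (L0 : SimpleGraph V) {v : V} (hv : v ∉ c.B) :
    nb (c.extG L0) (Sum.inl v) = (nb L0 v).image Sum.inl := by
  ext u
  simp only [nb, mem_filter, mem_univ, true_and, mem_image]
  rcases c.gv_cases u with ⟨u', rfl⟩ | ⟨b, i, j, rfl⟩ | rfl
  · rw [c.ext_inl_inl]
    constructor
    · intro h
      exact ⟨u', h, rfl⟩
    · rintro ⟨w, hw, hwu⟩
      rw [Sum.inl.injEq] at hwu
      rwa [← hwu]
  · rw [c.ext_inl_mid]
    constructor
    · rintro ⟨h, _, _⟩
      exact absurd b.2 (by rw [← h]; exact hv)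
    · rintro ⟨w, _, hw⟩
      exact absurd hw (by simp [mid])
  · constructor
    · intro h
      exact absurd h (c.ext_inl_top L0 v)
    · rintro ⟨w, _, hw⟩
      exact absurd hw (by simp [top])

private theorem gdEv_inlB (L0 : SimpleGraph V) {v : V} (hv : v ∈ c.B) :
    nb (c.extG L0) (Sum.inl v) = (nb L0 v).image Sum.inl ∪
      (univ.filter (fun i : Fin 2 => c.act ⟨v, hv⟩ i)).image (fun i => c.mid ⟨v, hv⟩ i 0) := by
  ext u
  simp only [nb, mem_filter, mem_univ, true_and, mem_image, mem_union]
  rcases c.gv_cases u with ⟨u', rfl⟩ | ⟨b, i, j, rfl⟩ | rfl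
  · rw [c.ext_inl_inl]
    constructor
    · intro h
      exact Or.inl ⟨u', h, rfl⟩
    · rintro (⟨w, hw, hwu⟩ | ⟨i, _, hi⟩)
      · rw [Sum.inl.injEq] at hwu
        rwa [← hwu]
      · exact absurd hi (by simp [mid])
  · rw [c.ext_inl_mid]
    constructor
    · rintro ⟨h, hj, ha⟩
      subst h
      subst hj
      exact Or.inr ⟨i, ha, rfl⟩
    · rintro (⟨w, _, hw⟩ | ⟨i', ha, hi⟩)
      · exact absurd hw (by simp [mid])
      · have h1 : (⟨v, hv⟩ : {v : V // v ∈ c.B}) = b ∧ i' = i ∧ (0 : Fin 6) = j := by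
          simpa [mid] using hi
        obtain ⟨rfl, rfl, rfl⟩ := h1
        exact ⟨rfl, rfl, ha⟩
  · constructor
    · intro h
      exact absurd h (c.ext_inl_top L0 v)
    · rintro (⟨w, _, hw⟩ | ⟨i, _, hi⟩)
      · exact absurd hw (by simp [top])
      · exact absurd hi (by simp [mid, top])

private theorem gdEv_top (L0 : SimpleGraph V) :
    nb (c.extG L0) c.top = (univ.filter (fun p : {v : V // v ∈ c.B} × Fin 2 => c.act p.1 p.2)).image
      (fun p => c.mid p.1 p.2 5) := by
  ext u
  simp only [nb, mem_filter, mem_univ, true_and, mem_image]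
  rcases c.gv_cases u with ⟨u', rfl⟩ | ⟨b, i, j, rfl⟩ | rfl
  · constructor
    · intro h
      exact absurd h.symm (c.ext_inl_top L0 u')
    · rintro ⟨p, _, hp⟩
      exact absurd hp (by simp [mid])
  · rw [SimpleGraph.adj_comm, c.ext_mid_top]
    constructor
    · rintro ⟨rfl, ha⟩
      exact ⟨(b, i), ha, rfl⟩
    · rintro ⟨⟨b', i'⟩, ha, hp⟩
      have h1 : b' = b ∧ i' = i ∧ (5 : Fin 6) = j := by
        simpa [mid] using hp
      obtain ⟨rfl, rfl, rfl⟩ := h1
      exact ⟨rfl, ha⟩
  · constructor
    · intro h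
      exact absurd h ((c.extG L0).irrefl)
    · rintro ⟨p, _, hp⟩
      exact absurd hp (by simp [mid, top])

private theorem gdEv_sum : Even (∑ b : {v : V // v ∈ c.B}, (nb c.L b.1).card) := by
  have h1 : ∑ b : {v : V // v ∈ c.B}, (nb c.L b.1).card = ∑ v ∈ c.B, (nb c.L v).card :=
    Finset.sum_coe_sort c.B (fun v => (nb c.L v).card)
  have h2 : Even (∑ v, (nb c.L v).card) := by
    have h3 := Pool.Agent.BEO.sum_dg (es c.L) (by
      intro e he
      exact c.L.not_isDiag_of_mem_edgeSet (mem_filter.mp he).2)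
    have h4 : ∑ v, (nb c.L v).card = ∑ v, dg (es c.L) v :=
      sum_congr rfl fun v _ => (Pool.Agent.BEO.dg_es c.L v).symm
    rw [h4, h3]
    exact even_two_mul _
  have h5 : Even (∑ v ∈ c.Bᶜ, (nb c.L v).card) := by
    refine even_sum _ fun v hv => ?_
    exact c.evL v (mem_compl.mp hv)
  rw [← sum_add_sum_compl c.B, Nat.even_add] at h2
  rw [h1]
  exact h2.mpr h5

theorem ext_even (L0 : SimpleGraph V) (h1 : ∀ v, v ∉ c.B → Even (nb L0 v).card)
    (h2 : ∀ v, Even ((nb c.L v).card + (nb L0 v).card)) (x : GV c.B) : Even (nb (c.extG L0) x).card := by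
  rcases c.gv_cases x with ⟨v, rfl⟩ | ⟨b, i, j, rfl⟩ | rfl
  · by_cases hv : v ∈ c.B
    · rw [c.gdEv_inlB L0 hv, card_union_of_disjoint, card_image_of_injective _ Sum.inl_injective,
        card_image_of_injective]
      · have h3 := c.gdEv_act ⟨v, hv⟩
        have h4 := h2 v
        rw [Nat.even_add] at h3 h4 ⊢
        exact (h3.trans h4).symm
      · intro i i' hii
        have h5 : i = i' := by
          simpa [mid] using hii
        exact h5
      · rw [disjoint_left]
        intro y hy hy'
        rw [mem_image] at hy hy'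
        obtain ⟨w, _, rfl⟩ := hy
        obtain ⟨i, _, hi⟩ := hy'
        exact absurd hi (by simp [mid])
    · rw [c.gdEv_inl L0 hv, card_image_of_injective _ Sum.inl_injective]
      exact h1 v hv
  · by_cases ha : c.act b i
    · obtain ⟨p, q, hpq, hN, _⟩ := c.mid_nb L0 b i j ha
      have h3 : nb (c.extG L0) (c.mid b i j) = {p, q} := by
        ext y
        simp only [nb, mem_filter, mem_univ, true_and, mem_insert, mem_singleton]
        exact hN y
      rw [h3, card_pair hpq]
      exact even_two
    · have h3 : nb (c.extG L0) (c.mid b i j) = ∅ := by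
        rw [nb, filter_eq_empty_iff]
        intro y _
        exact c.mid_none L0 b i j ha y
      rw [h3, card_empty]
      exact Even.zero
  · rw [c.gdEv_top L0, card_image_of_injective]
    · rw [card_filter, Fintype.sum_prod_type]
      have h3 : ∀ b : {v : V // v ∈ c.B}, ∑ i : Fin 2, (if c.act b i then 1 else 0) =
          (univ.filter (fun i : Fin 2 => c.act b i)).card := by
        intro b
        rw [card_filter]
      rw [sum_congr rfl fun b _ => h3 b]
      have h4 : Even (∑ b : {v : V // v ∈ c.B},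
          ((univ.filter (fun i : Fin 2 => c.act b i)).card + (nb c.L b.1).card)) :=
        even_sum _ fun b _ => c.gdEv_act b
      rw [sum_add_distrib, Nat.even_add] at h4
      exact h4.mpr c.gdEv_sum
    · rintro ⟨b, i⟩ ⟨b', i'⟩ h
      have h5 : b = b' ∧ i = i' := by
        simpa [mid] using h
      rw [h5.1, h5.2]

theorem ext_evL (x : GV c.B) : Even (nb (c.extG c.L) x).card :=
  c.ext_even c.L c.evL (fun v => ⟨(nb c.L v).card, rfl⟩) x

theorem ext_evM (x : GV c.B) : Even (nb (c.extG c.M) x).card := c.ext_even c.M c.evM c.par x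

end PCfg

end Pool.Agent.RPH
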