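import Pool.Agent.RPH.GdCls
import Pool.Agent.RPH.GdEv

/-!
# RPH-GdLb: the lower bound for the extended graph
-/

set_option autoImplicit false

open Finset
open scoped Classical

namespace Pool.Agent.RPH

open Pool.Agent.BEO (F2 nb es vs dg row rowSp)

variable {k : ℕ} {V Q : Type} [Fintype V] [AddCommGroup Q] [Module F2 Q] (c : PCfg k V Q)

namespace PCfg

private theorem coord {L0 : SimpleGraph V} {χ : Finset (Sym2 (GV c.B))}
    (h1 : ∀ e ∈ χ, e ∈ (c.extG L0).edgeSet) (h2 : ∀ v, Even (dg χ v)) (b : {v : V // v ∈ c.B})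
    (i : Fin 2) : (∑ e ∈ χ, c.aX e).2 (b, i) = if c.pe b i 0 ∈ χ then (1 : F2) else 0 := by
  have h4 : (∑ e ∈ χ, c.aX e).2 (b, i) =
      ((χ.filter (fun e => ∃ j, c.mid b i j ∈ e)).card : F2) := by
    rw [Prod.snd_sum, Finset.sum_apply, Finset.card_filter, Nat.cast_sum]
    refine Finset.sum_congr rfl fun e' _ => ?_
    unfold aX
    show (if ∃ j, c.mid b i j ∈ e' then (1 : F2) else 0) = _
    by_cases hh : ∃ j, c.mid b i j ∈ e'
    · rw [if_pos hh, if_pos hh, Nat.cast_one]
    · rw [if_neg hh, if_neg hh, Nat.cast_zero]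
  rw [h4]
  by_cases h0 : c.pe b i 0 ∈ χ
  · rw [if_pos h0]
    have hT : χ.filter (fun e => ∃ j, c.mid b i j ∈ e) = (range 7).image (c.pe b i) := by
      ext e'
      rw [Finset.mem_filter, Finset.mem_image]
      constructor
      · rintro ⟨he', k, hk⟩
        rcases (c.edge_mid (h1 e' he') hk).2 with h | h
        · exact ⟨k, Finset.mem_range.mpr (by omega), h.symm⟩
        · exact ⟨k + 1, Finset.mem_range.mpr (by omega), h.symm⟩
      · rintro ⟨k, hk, rfl⟩
        have hk' := Finset.mem_range.mp hk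
        exact ⟨(c.path_all h1 h2 b i k hk').mpr h0, c.pe_mid b i hk'⟩
    have hc : (χ.filter (fun e => ∃ j, c.mid b i j ∈ e)).card = 7 := by
      rw [hT, Finset.card_image_of_injOn, Finset.card_range]
      intro x hx y hy hxy
      exact c.pe_inj b i (Finset.mem_range.mp (Finset.mem_coe.mp hx))
        (Finset.mem_range.mp (Finset.mem_coe.mp hy)) hxy
    rw [hc]
    decide
  · rw [if_neg h0]
    have hT : χ.filter (fun e => ∃ j, c.mid b i j ∈ e) = ∅ := by
      rw [Finset.filter_eq_empty_iff]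
      rintro e' he' ⟨k, hk⟩
      rcases (c.edge_mid (h1 e' he') hk).2 with h | h
      · exact h0 ((c.path_all h1 h2 b i k (by omega)).mp (h ▸ he'))
      · exact h0 ((c.path_all h1 h2 b i (k + 1) (by omega)).mp (h ▸ he'))
    rw [hT, Finset.card_empty, Nat.cast_zero]

private theorem mem_es {X : Type} [Fintype X] (L0 : SimpleGraph X) (e : Sym2 X) :
    e ∈ es L0 ↔ e ∈ L0.edgeSet := by
  unfold es
  rw [Finset.mem_filter]
  exact ⟨fun h => h.2, fun h => ⟨Finset.mem_univ _, h⟩⟩

private theorem pe_zero (b : {v : V // v ∈ c.B}) (i : Fin 2) :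
    c.pe b i 0 = s(Sum.inl b.1, c.mid b i 0) := by
  have h1 : c.pv b i (0 + 1) = c.mid b i 0 := c.pv_mid b i 0
  unfold pe
  rw [h1, c.pv_zero]

/-- the number of edges of the extended graph -/
private theorem es_le : (es (c.extG c.M)).card ≤ (es c.M).card + 14 * k := by
  have hsub : es (c.extG c.M) ⊆ (es c.M).image (Sym2.map Sum.inl) ∪
      (univ : Finset (({v : V // v ∈ c.B} × Fin 2) × Fin 7)).image
        (fun p => c.pe p.1.1 p.1.2 (p.2 : ℕ)) := by
    intro e he
    rw [mem_es] at he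
    rw [Finset.mem_union, Finset.mem_image, Finset.mem_image]
    rcases c.edge_cases he with ⟨e0, h0, rfl⟩ | ⟨b, i, j, hm⟩
    · exact Or.inl ⟨e0, (mem_es _ _).mpr h0, rfl⟩
    · right
      rcases (c.edge_mid he hm).2 with h | h
      · exact ⟨((b, i), ⟨(j : ℕ), by omega⟩), Finset.mem_univ _, h.symm⟩
      · exact ⟨((b, i), ⟨(j : ℕ) + 1, by omega⟩), Finset.mem_univ _, h.symm⟩
  have h1 := Finset.card_le_card hsub
  have h2 := Finset.card_union_le ((es c.M).image (Sym2.map (Sum.inl : V → GV c.B)))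
    ((univ : Finset (({v : V // v ∈ c.B} × Fin 2) × Fin 7)).image
      (fun p => c.pe p.1.1 p.1.2 (p.2 : ℕ)))
  have h3 := Finset.card_image_le (s := es c.M) (f := Sym2.map (Sum.inl : V → GV c.B))
  have h4 := Finset.card_image_le (s := (univ : Finset (({v : V // v ∈ c.B} × Fin 2) × Fin 7)))
    (f := fun p => c.pe p.1.1 p.1.2 (p.2 : ℕ))
  have h5 : (univ : Finset (({v : V // v ∈ c.B} × Fin 2) × Fin 7)).card = c.B.card * 2 * 7 := by
    rw [Finset.card_univ, Fintype.card_prod, Fintype.card_prod, Fintype.card_coe,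
      Fintype.card_fin, Fintype.card_fin]
  have h6 := c.cardB
  omega

/-- the rank outside `B` -/
private theorem rk_le (L' : SimpleGraph (GV c.B)) :
    Module.finrank F2 (rowISp (L'.comap Sum.inl) c.B) ≤ Module.finrank F2 (rowSp L') := by
  let ρ : (GV c.B → F2) →ₗ[F2] ({v : V // v ∉ c.B} → F2) :=
    LinearMap.funLeft F2 F2 (fun v : {v : V // v ∉ c.B} => (Sum.inl v.1 : GV c.B))
  have h1 : rowISp (L'.comap Sum.inl) c.B ≤ Submodule.map ρ (rowSp L') := by
    unfold rowISp
    rw [Submodule.span_le]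
    rintro _ ⟨v, rfl⟩
    have h2 : rowI (L'.comap Sum.inl) c.B v = ρ (row L' (Sum.inl v.1)) := by
      funext u
      rfl
    rw [h2]
    exact Submodule.mem_map_of_mem (Submodule.subset_span ⟨_, rfl⟩)
  exact (Submodule.finrank_mono h1).trans (Submodule.finrank_map_le ρ (rowSp L'))

/-- the neighbours of an old vertex -/
private theorem nb_old (L' : SimpleGraph (GV c.B)) (v : V) :
    (nb L' (Sum.inl v)).card = (nb (L'.comap Sum.inl) v).card +
      (univ.filter fun y : ({v : V // v ∈ c.B} × Fin 2 × Fin 6) ⊕ Unit =>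
        L'.Adj (Sum.inl v) (Sum.inr y)).card := by
  have h1 : nb L' (Sum.inl v) = (nb (L'.comap Sum.inl) v).image Sum.inl ∪
      (univ.filter fun y : ({v : V // v ∈ c.B} × Fin 2 × Fin 6) ⊕ Unit =>
        L'.Adj (Sum.inl v) (Sum.inr y)).image Sum.inr := by
    ext x
    rw [Finset.mem_union, Finset.mem_image, Finset.mem_image]
    unfold nb
    rw [Finset.mem_filter]
    constructor
    · rintro ⟨_, hx⟩
      rcases x with u | y
      · exact Or.inl ⟨u, Finset.mem_filter.mpr ⟨Finset.mem_univ _, hx⟩, rfl⟩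
      · exact Or.inr ⟨y, Finset.mem_filter.mpr ⟨Finset.mem_univ _, hx⟩, rfl⟩
    · rintro (⟨u, hu, rfl⟩ | ⟨y, hy, rfl⟩)
      · exact ⟨Finset.mem_univ _, (Finset.mem_filter.mp hu).2⟩
      · exact ⟨Finset.mem_univ _, (Finset.mem_filter.mp hy).2⟩
  rw [h1, Finset.card_union_of_disjoint, Finset.card_image_of_injective _ Sum.inl_injective,
    Finset.card_image_of_injective _ Sum.inr_injective]
  rw [Finset.disjoint_left]
  intro x hx hx'
  obtain ⟨u, _, rfl⟩ := Finset.mem_image.mp hx
  obtain ⟨y, _, hy⟩ := Finset.mem_image.mp hx'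
  exact absurd hy (by simp)

theorem ext_lb (L' : SimpleGraph (GV c.B)) (h1 : L' ≤ c.extG c.L) (h2 : ∀ v, Even (nb L' v).card)
    (h3 : ∑ e ∈ es L', c.aX e = ∑ e ∈ es (c.extG c.M), c.aX e) :
    (es (c.extG c.M)).card ≤ Module.finrank F2 (rowSp L') + 12 * (30 * k + 10) := by
  have hL : ∀ e ∈ es L', e ∈ (c.extG c.L).edgeSet := by
    intro e he
    rw [mem_es] at he
    exact SimpleGraph.edgeSet_mono h1 he
  have hM : ∀ e ∈ es (c.extG c.M), e ∈ (c.extG c.M).edgeSet := fun e he => (mem_es _ _).mp he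
  have hLd : ∀ v, Even (dg (es L') v) := by
    intro v
    rw [Pool.Agent.BEO.dg_es]
    exact h2 v
  have hMd : ∀ v, Even (dg (es (c.extG c.M)) v) := by
    intro v
    rw [Pool.Agent.BEO.dg_es]
    exact c.ext_evM v
  have hpe : ∀ (b : {v : V // v ∈ c.B}) (i : Fin 2), c.act b i → L'.Adj (Sum.inl b.1) (c.mid b i 0) := by
    intro b i hb
    have e1 := c.coord hL hLd b i
    have e2 := c.coord hM hMd b i
    rw [if_pos ((mem_es _ _).mpr (c.pe_adj c.M b i hb (by norm_num))), ← h3, e1] at e2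
    by_cases h0 : c.pe b i 0 ∈ es L'
    · rw [mem_es, c.pe_zero, SimpleGraph.mem_edgeSet] at h0
      exact h0
    · rw [if_neg h0] at e2
      exact absurd e2 (by decide)
  have hadj : ∀ (v : V) (y : ({v : V // v ∈ c.B} × Fin 2 × Fin 6) ⊕ Unit),
      L'.Adj (Sum.inl v) (Sum.inr y) ↔ (c.extG c.M).Adj (Sum.inl v) (Sum.inr y) := by
    intro v y
    rcases y with ⟨b, i, j⟩ | u
    · have e1 : (Sum.inr (Sum.inl (b, i, j)) : GV c.B) = c.mid b i j := rfl
      rw [e1, c.ext_inl_mid]
      constructor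
      · intro h
        exact (c.ext_inl_mid c.L v b i j).mp (h1 h)
      · rintro ⟨rfl, rfl, h⟩
        exact hpe b i h
    · have e1 : (Sum.inr (Sum.inr u) : GV c.B) = c.top := rfl
      rw [e1]
      exact iff_of_false (fun h => c.ext_inl_top c.L v (h1 h)) (c.ext_inl_top c.M v)
  have hcM : (c.extG c.M).comap Sum.inl = c.M := by
    ext u v
    exact c.ext_inl_inl c.M u v
  have hpar : ∀ v, Even ((nb (L'.comap Sum.inl) v).card + (nb c.M v).card) := by
    intro v
    have e1 := h2 (Sum.inl v)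
    have e2 := c.ext_evM (Sum.inl v)
    rw [c.nb_old L' v] at e1
    rw [c.nb_old (c.extG c.M) v, hcM] at e2
    have e3 : (univ.filter fun y : ({v : V // v ∈ c.B} × Fin 2 × Fin 6) ⊕ Unit =>
        L'.Adj (Sum.inl v) (Sum.inr y)) = (univ.filter fun y => (c.extG c.M).Adj (Sum.inl v) (Sum.inr y)) := by
      ext y
      rw [Finset.mem_filter, Finset.mem_filter, hadj]
    rw [e3, Nat.even_add] at e1
    rw [Nat.even_add] at e2 ⊢
    exact e1.trans e2.symm
  have hle : L'.comap Sum.inl ≤ c.L := by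
    intro u v h
    exact (c.ext_inl_inl c.L u v).mp (h1 h)
  have hev : ∀ v, v ∉ c.B → Even (nb (L'.comap Sum.inl) v).card := by
    intro v hv
    have e1 := hpar v
    rw [Nat.even_add] at e1
    exact e1.mpr (c.evM v hv)
  have hold : c.oldE (es L') = es (L'.comap Sum.inl) := by
    ext e
    rw [mem_es]
    unfold oldE
    rw [Finset.mem_filter, mem_es]
    induction e using Sym2.ind with
    | _ u v =>
      rw [Sym2.map_mk, SimpleGraph.mem_edgeSet, SimpleGraph.mem_edgeSet]
      exact ⟨fun h => h.2, fun h => ⟨Finset.mem_univ _, h⟩⟩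
  have hcl : ∑ e ∈ es (L'.comap Sum.inl), c.a e = ∑ e ∈ es c.M, c.a e := by
    have e1 := congrArg Prod.fst h3
    rw [Prod.fst_sum, Prod.fst_sum, c.sum_fst hL, c.sum_fst hM, c.oldE_es, hold] at e1
    exact e1
  have e1 := c.lb (L'.comap Sum.inl) hle hev hpar hcl
  have e2 := c.es_le
  have e3 := c.rk_le L'
  omega

end PCfg

end Pool.Agent.RPH
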