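import Pool.Agent.RPH.GdDef

/-!
# RPH-GdNb: adjacency in the extended graph
-/

set_option autoImplicit false

open Finset
open scoped Classical

namespace Pool.Agent.RPH

open Pool.Agent.BEO (F2 nb es vs dg row)

namespace PCfg

variable {k : ℕ} {V Q : Type} [Fintype V] [AddCommGroup Q] [Module F2 Q] (c : PCfg k V Q) (L : SimpleGraph V)

private theorem g_ll (u v : V) : c.gRel L (Sum.inl u) (Sum.inl v) ↔ L.Adj u v := by
  simp [gRel, mid, top]

private theorem g_lm (v : V) (b : {v : V // v ∈ c.B}) (i : Fin 2) (j : Fin 6) :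
    c.gRel L (Sum.inl v) (c.mid b i j) ↔ v = b.1 ∧ j = 0 ∧ c.act b i := by
  constructor
  · rintro (⟨u, w, h1, h2, h3⟩ | ⟨b', i', h1, h2, h3⟩ | ⟨b', i', j', j'', h1, h2, h3, h4⟩ | ⟨b', i', h1, h2, h3⟩)
    · exact absurd h2 (by simp [mid])
    · simp only [mid, Sum.inr.injEq, Sum.inl.injEq, Prod.mk.injEq] at h2 h3
      obtain ⟨rfl, rfl, rfl⟩ := h3
      exact ⟨h2, rfl, h1⟩
    · exact absurd h2 (by simp [mid])
    · exact absurd h3 (by simp [mid, top])
  · rintro ⟨rfl, rfl, h⟩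
    exact Or.inr (Or.inl ⟨b, i, h, rfl, rfl⟩)

private theorem g_ml (v : V) (b : {v : V // v ∈ c.B}) (i : Fin 2) (j : Fin 6) :
    ¬ c.gRel L (c.mid b i j) (Sum.inl v) := by
  simp [gRel, mid, top]

private theorem g_mm (b b' : {v : V // v ∈ c.B}) (i i' : Fin 2) (j j' : Fin 6) :
    c.gRel L (c.mid b i j) (c.mid b' i' j') ↔ b = b' ∧ i = i' ∧ c.act b i ∧ (j' : ℕ) = (j : ℕ) + 1 := by
  constructor
  · rintro (⟨u, w, h1, h2, h3⟩ | ⟨b', i', h1, h2, h3⟩ | ⟨b', i', j', j'', h1, h2, h3, h4⟩ | ⟨b', i', h1, h2, h3⟩)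
    · exact absurd h2 (by simp [mid])
    · exact absurd h2 (by simp [mid])
    · simp only [mid, Sum.inr.injEq, Sum.inl.injEq, Prod.mk.injEq] at h2 h3
      obtain ⟨rfl, rfl, rfl⟩ := h3
      obtain ⟨rfl, rfl, rfl⟩ := h2
      exact ⟨rfl, rfl, h1, h4⟩
    · exact absurd h3 (by simp [mid, top])
  · rintro ⟨rfl, rfl, h, h'⟩
    exact Or.inr (Or.inr (Or.inl ⟨b, i, j, j', h, rfl, rfl, h'⟩))

private theorem g_mt (b : {v : V // v ∈ c.B}) (i : Fin 2) (j : Fin 6) :
    c.gRel L (c.mid b i j) c.top ↔ j = 5 ∧ c.act b i := by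
  constructor
  · rintro (⟨u, w, h1, h2, h3⟩ | ⟨b', i', h1, h2, h3⟩ | ⟨b', i', j', j'', h1, h2, h3, h4⟩ | ⟨b', i', h1, h2, h3⟩)
    · exact absurd h2 (by simp [top])
    · exact absurd h2 (by simp [mid])
    · exact absurd h3 (by simp [mid, top])
    · simp only [mid, Sum.inr.injEq, Sum.inl.injEq, Prod.mk.injEq] at h2
      obtain ⟨rfl, rfl, rfl⟩ := h2
      exact ⟨rfl, h1⟩
  · rintro ⟨rfl, h⟩
    exact Or.inr (Or.inr (Or.inr ⟨b, i, h, rfl, rfl⟩))

private theorem g_tm (x : GV c.B) : ¬ c.gRel L c.top x := by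
  simp [gRel, mid, top]

private theorem g_lt (v : V) : ¬ c.gRel L (Sum.inl v) c.top := by
  simp [gRel, mid, top]

theorem ext_inl_inl (u v : V) : (c.extG L).Adj (Sum.inl u) (Sum.inl v) ↔ L.Adj u v := by
  unfold extG
  rw [SimpleGraph.fromRel_adj, g_ll, g_ll]
  constructor
  · rintro ⟨_, h | h⟩
    · exact h
    · exact h.symm
  · intro h
    exact ⟨fun h' => h.ne (Sum.inl_injective h'), Or.inl h⟩

theorem ext_inl_mid (v : V) (b : {v : V // v ∈ c.B}) (i : Fin 2) (j : Fin 6) :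
    (c.extG L).Adj (Sum.inl v) (c.mid b i j) ↔ v = b.1 ∧ j = 0 ∧ c.act b i := by
  unfold extG
  rw [SimpleGraph.fromRel_adj, g_lm]
  constructor
  · rintro ⟨_, h | h⟩
    · exact h
    · exact absurd h (g_ml c L v b i j)
  · intro h
    exact ⟨by simp [mid], Or.inl h⟩

theorem ext_mid_mid (b b' : {v : V // v ∈ c.B}) (i i' : Fin 2) (j j' : Fin 6) :
    (c.extG L).Adj (c.mid b i j) (c.mid b' i' j') ↔
      b = b' ∧ i = i' ∧ c.act b i ∧ ((j' : ℕ) = (j : ℕ) + 1 ∨ (j : ℕ) = (j' : ℕ) + 1) := by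
  unfold extG
  rw [SimpleGraph.fromRel_adj, g_mm, g_mm]
  constructor
  · rintro ⟨_, ⟨h1, h2, h3, h4⟩ | ⟨h1, h2, h3, h4⟩⟩
    · exact ⟨h1, h2, h3, Or.inl h4⟩
    · subst h1
      subst h2
      exact ⟨rfl, rfl, h3, Or.inr h4⟩
  · rintro ⟨rfl, rfl, h3, h4⟩
    refine ⟨?_, ?_⟩
    · intro h
      simp only [mid, Sum.inr.injEq, Sum.inl.injEq, Prod.mk.injEq] at h
      have h5 := h.2.2
      subst h5
      omega
    · rcases h4 with h4 | h4
      · exact Or.inl ⟨rfl, rfl, h3, h4⟩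
      · exact Or.inr ⟨rfl, rfl, h3, h4⟩

theorem ext_mid_top (b : {v : V // v ∈ c.B}) (i : Fin 2) (j : Fin 6) :
    (c.extG L).Adj (c.mid b i j) c.top ↔ j = 5 ∧ c.act b i := by
  unfold extG
  rw [SimpleGraph.fromRel_adj, g_mt]
  constructor
  · rintro ⟨_, h | h⟩
    · exact h
    · exact absurd h (g_tm c L _)
  · intro h
    exact ⟨by simp [mid, top], Or.inl h⟩

theorem ext_inl_top (v : V) : ¬ (c.extG L).Adj (Sum.inl v) c.top := by
  unfold extG
  rw [SimpleGraph.fromRel_adj]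
  rintro ⟨_, h | h⟩
  · exact g_lt c L v h
  · exact g_tm c L _ h

/-- every vertex is an old one, an inner vertex of a path or the new vertex -/
theorem gv_cases (x : GV c.B) : (∃ v, x = Sum.inl v) ∨ (∃ b i j, x = c.mid b i j) ∨ x = c.top := by
  rcases x with v | ⟨b, i, j⟩ | u
  · exact Or.inl ⟨v, rfl⟩
  · exact Or.inr (Or.inl ⟨b, i, j, rfl⟩)
  · exact Or.inr (Or.inr rfl)

/-- the labels of the edges -/
theorem aX_old (e : Sym2 V) : c.aX (e.map Sum.inl) = (c.a e, 0) := by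
  unfold aX
  refine Prod.ext ?_ ?_
  · have h1 : univ.filter (fun e0 : Sym2 V => e0.map Sum.inl =
        (e.map Sum.inl : Sym2 (GV c.B))) = {e} := by
      ext e0
      rw [mem_filter, mem_singleton]
      constructor
      · rintro ⟨_, h⟩
        exact Sym2.map.injective Sum.inl_injective h
      · rintro rfl
        exact ⟨mem_univ _, rfl⟩
    show ∑ e0 ∈ univ.filter (fun e0 : Sym2 V => e0.map Sum.inl = (e.map Sum.inl : Sym2 (GV c.B))),
      c.a e0 = c.a e
    rw [h1, sum_singleton]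
  · funext bi
    refine if_neg ?_
    rintro ⟨j, hj⟩
    rw [Sym2.mem_map] at hj
    obtain ⟨v, _, hv⟩ := hj
    exact absurd hv (by simp [mid])

theorem aX_mid (b : {v : V // v ∈ c.B}) (i : Fin 2) (j : Fin 6) (x : GV c.B)
    (h : (c.extG L).Adj (c.mid b i j) x) : c.aX s(c.mid b i j, x) = (0, Pi.single (b, i) 1) := by
  unfold aX
  refine Prod.ext ?_ ?_
  · have h1 : univ.filter (fun e0 : Sym2 V => e0.map Sum.inl = s(c.mid b i j, x)) = ∅ := by
      ext e0
      rw [mem_filter]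
      constructor
      · rintro ⟨_, h⟩
        have h2 : c.mid b i j ∈ e0.map Sum.inl := by
          rw [h]
          exact Sym2.mem_mk_left _ _
        rw [Sym2.mem_map] at h2
        obtain ⟨v, _, hv⟩ := h2
        exact absurd hv (by simp [mid])
      · intro h
        exact absurd h (notMem_empty _)
    show ∑ e0 ∈ univ.filter (fun e0 : Sym2 V => e0.map Sum.inl = s(c.mid b i j, x)), c.a e0 = 0
    rw [h1, sum_empty]
  · funext bi
    show (if ∃ j', c.mid bi.1 bi.2 j' ∈ s(c.mid b i j, x) then (1 : F2) else 0) =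
      (Pi.single (b, i) 1 : GT c.B) bi
    by_cases hbi : bi = (b, i)
    · subst hbi
      rw [if_pos ⟨j, Sym2.mem_mk_left _ _⟩, Pi.single_eq_same]
    · rw [if_neg, Pi.single_eq_of_ne hbi]
      rintro ⟨j', hj'⟩
      rw [Sym2.mem_iff] at hj'
      rcases hj' with h1 | h1
      · simp only [mid, Sum.inr.injEq, Sum.inl.injEq, Prod.mk.injEq] at h1
        exact hbi (Prod.ext h1.1 h1.2.1)
      · rw [← h1, ext_mid_mid] at h
        exact hbi (Prod.ext h.1.symm h.2.1.symm)

private theorem gd_symm_inl (v : V) (b : {v : V // v ∈ c.B}) (i : Fin 2) (j : Fin 6) :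
    (c.extG L).Adj (c.mid b i j) (Sum.inl v) ↔ v = b.1 ∧ j = 0 ∧ c.act b i := by
  rw [SimpleGraph.adj_comm, ext_inl_mid]

/-- an inner vertex of a path has exactly two neighbours, and is their only common neighbour -/
theorem mid_nb (b : {v : V // v ∈ c.B}) (i : Fin 2) (j : Fin 6) (h : c.act b i) :
    ∃ p q, p ≠ q ∧ (∀ x, (c.extG L).Adj (c.mid b i j) x ↔ x = p ∨ x = q) ∧
      ∀ y, (c.extG L).Adj p y → (c.extG L).Adj q y → y = c.mid b i j := by
  have hmm : ∀ (b b' : {v : V // v ∈ c.B}) (i i' : Fin 2) (j j' : Fin 6),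
      c.mid b i j = c.mid b' i' j' ↔ b = b' ∧ i = i' ∧ (j : ℕ) = (j' : ℕ) := by
    intro b b' i i' j j'
    simp only [mid, Sum.inr.injEq, Sum.inl.injEq, Prod.mk.injEq, Fin.ext_iff]
  have h0 : ∀ j : Fin 6, j = 0 ↔ (j : ℕ) = 0 := fun j => by
    rw [Fin.ext_iff]
    rfl
  have h5 : ∀ j : Fin 6, j = 5 ↔ (j : ℕ) = 5 := fun j => by
    rw [Fin.ext_iff]
    rfl
  have hlm : ∀ (v : V) (b : {v : V // v ∈ c.B}) (i : Fin 2) (j : Fin 6),
      (Sum.inl v : GV c.B) ≠ c.mid b i j := fun v b i j => by simp [mid]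
  have hmt : ∀ (b : {v : V // v ∈ c.B}) (i : Fin 2) (j : Fin 6), c.mid b i j ≠ c.top :=
    fun b i j => by simp [mid, top]
  have hlt : ∀ v : V, (Sum.inl v : GV c.B) ≠ c.top := fun v => by simp [top]
  by_cases hj0 : (j : ℕ) = 0
  · refine ⟨Sum.inl b.1, c.mid b i 1, hlm _ _ _ _, ?_, ?_⟩
    · intro x
      rcases c.gv_cases x with ⟨v, rfl⟩ | ⟨b', i', j', rfl⟩ | rfl
      · rw [gd_symm_inl]
        constructor
        · rintro ⟨rfl, _⟩
          exact Or.inl rfl
        · rintro (h1 | h1)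
          · exact ⟨Sum.inl_injective h1, (h0 j).2 hj0, h⟩
          · exact absurd h1 (hlm _ _ _ _)
      · rw [ext_mid_mid, hmm]
        constructor
        · rintro ⟨rfl, rfl, _, h2⟩
          exact Or.inr ⟨rfl, rfl, by show (j' : ℕ) = 1; omega⟩
        · rintro (h1 | ⟨rfl, rfl, h1⟩)
          · exact absurd h1.symm (hlm _ _ _ _)
          · have h1' : (j' : ℕ) = 1 := h1
            exact ⟨rfl, rfl, h, Or.inl (by omega)⟩
      · rw [ext_mid_top, h5]
        constructor
        · rintro ⟨h1, _⟩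
          omega
        · rintro (h1 | h1)
          · exact absurd h1.symm (hlt _)
          · exact absurd h1.symm (hmt _ _ _)
    · intro y hp hq
      rcases c.gv_cases y with ⟨v, rfl⟩ | ⟨b', i', j', rfl⟩ | rfl
      · rw [gd_symm_inl, h0] at hq
        exact absurd hq.2.1 (by show ¬ (1 : ℕ) = 0; omega)
      · rw [ext_inl_mid, h0] at hp
        rw [ext_mid_mid] at hq
        rw [hmm]
        exact ⟨hq.1.symm, hq.2.1.symm, by omega⟩
      · exact absurd hp (c.ext_inl_top L _)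
  · by_cases hj5 : (j : ℕ) = 5
    · refine ⟨c.mid b i 4, c.top, hmt _ _ _, ?_, ?_⟩
      · intro x
        rcases c.gv_cases x with ⟨v, rfl⟩ | ⟨b', i', j', rfl⟩ | rfl
        · rw [gd_symm_inl, h0]
          constructor
          · rintro ⟨_, h1, _⟩
            exact absurd h1 hj0
          · rintro (h1 | h1)
            · exact absurd h1 (hlm _ _ _ _)
            · exact absurd h1 (hlt _)
        · rw [ext_mid_mid, hmm]
          constructor
          · rintro ⟨rfl, rfl, _, h2⟩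
            have := j'.isLt
            exact Or.inl ⟨rfl, rfl, by show (j' : ℕ) = 4; omega⟩
          · rintro (⟨rfl, rfl, h1⟩ | h1)
            · have h1' : (j' : ℕ) = 4 := h1
              exact ⟨rfl, rfl, h, Or.inr (by omega)⟩
            · exact absurd h1 (hmt _ _ _)
        · rw [ext_mid_top, h5]
          constructor
          · intro _
            exact Or.inr rfl
          · intro _
            exact ⟨hj5, h⟩
      · intro y hp hq
        rcases c.gv_cases y with ⟨v, rfl⟩ | ⟨b', i', j', rfl⟩ | rfl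
        · exact absurd hq.symm (c.ext_inl_top L v)
        · rw [ext_mid_mid] at hp
          rw [SimpleGraph.adj_comm, ext_mid_top, h5] at hq
          rw [hmm]
          exact ⟨hp.1.symm, hp.2.1.symm, by omega⟩
        · exact absurd hq (SimpleGraph.irrefl _)
    · have hjl := j.isLt
      refine ⟨c.mid b i ⟨(j : ℕ) - 1, by omega⟩, c.mid b i ⟨(j : ℕ) + 1, by omega⟩, ?_, ?_, ?_⟩
      · intro h1
        rw [hmm] at h1
        have h2 : (j : ℕ) - 1 = (j : ℕ) + 1 := h1.2.2
        omega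
      · intro x
        rcases c.gv_cases x with ⟨v, rfl⟩ | ⟨b', i', j', rfl⟩ | rfl
        · rw [gd_symm_inl, h0]
          constructor
          · rintro ⟨_, h1, _⟩
            exact absurd h1 hj0
          · rintro (h1 | h1)
            · exact absurd h1 (hlm _ _ _ _)
            · exact absurd h1 (hlm _ _ _ _)
        · rw [ext_mid_mid, hmm, hmm]
          constructor
          · rintro ⟨rfl, rfl, _, h2 | h2⟩
            · exact Or.inr ⟨rfl, rfl, by show (j' : ℕ) = (j : ℕ) + 1; omega⟩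
            · exact Or.inl ⟨rfl, rfl, by show (j' : ℕ) = (j : ℕ) - 1; omega⟩
          · rintro (⟨rfl, rfl, h1⟩ | ⟨rfl, rfl, h1⟩)
            · have h1' : (j' : ℕ) = (j : ℕ) - 1 := h1
              exact ⟨rfl, rfl, h, Or.inr (by omega)⟩
            · have h1' : (j' : ℕ) = (j : ℕ) + 1 := h1
              exact ⟨rfl, rfl, h, Or.inl (by omega)⟩
        · rw [ext_mid_top, h5]
          constructor
          · rintro ⟨h1, _⟩
            exact absurd h1 hj5
          · rintro (h1 | h1)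
            · exact absurd h1.symm (hmt _ _ _)
            · exact absurd h1.symm (hmt _ _ _)
      · intro y hp hq
        rcases c.gv_cases y with ⟨v, rfl⟩ | ⟨b', i', j', rfl⟩ | rfl
        · rw [gd_symm_inl, h0] at hq
          exact absurd hq.2.1 (by show ¬ (j : ℕ) + 1 = 0; omega)
        · rw [ext_mid_mid] at hp hq
          rw [hmm]
          have hp4 : (j' : ℕ) = (j : ℕ) - 1 + 1 ∨ (j : ℕ) - 1 = (j' : ℕ) + 1 := hp.2.2.2
          have hq4 : (j' : ℕ) = (j : ℕ) + 1 + 1 ∨ (j : ℕ) + 1 = (j' : ℕ) + 1 := hq.2.2.2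
          exact ⟨hp.1.symm, hp.2.1.symm, by omega⟩
        · rw [ext_mid_top, h5] at hp
          exact absurd hp.1 (by show ¬ (j : ℕ) - 1 = 5; omega)

/-- an unused inner vertex has no neighbours -/
theorem mid_none (b : {v : V // v ∈ c.B}) (i : Fin 2) (j : Fin 6) (h : ¬ c.act b i) (x : GV c.B) :
    ¬ (c.extG L).Adj (c.mid b i j) x := by
  intro hx
  rcases c.gv_cases x with ⟨v, rfl⟩ | ⟨b', i', j', rfl⟩ | rfl
  · rw [gd_symm_inl] at hx
    exact h hx.2.2
  · rw [ext_mid_mid] at hx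
    exact h hx.2.2.1
  · rw [ext_mid_top] at hx
    exact h hx.2

end PCfg

end Pool.Agent.RPH
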