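import Pool.Agent.RPH.GdNb

/-!
# RPH-GdRk: the rank of the extended graph

The rows of the old vertices outside `B` are sums of an extension by zero of a row of the graph outside `B` and a function on
`B`; there are at most `13 * B.card + 1` other rows.
-/

set_option autoImplicit false

open Finset
open scoped Classical

namespace Pool.Agent.RPH

open Pool.Agent.BEO (F2 nb es vs dg row rowSp)

namespace PCfg

variable {k : ℕ} {V Q : Type} [Fintype V] [AddCommGroup Q] [Module F2 Q] (c : PCfg k V Q)

/-- extension by zero from the vertices outside `B` -/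
private noncomputable def gdE1 (B : Finset V) : ({v : V // v ∉ B} → F2) →ₗ[F2] (GV B → F2) where
  toFun f := Sum.elim (fun v => if h : v ∉ B then f ⟨v, h⟩ else 0) (fun _ => 0)
  map_add' f g := by
    funext x
    rcases x with v | x
    · simp only [Sum.elim_inl, Pi.add_apply]
      split_ifs <;> simp
    · simp
  map_smul' a f := by
    funext x
    rcases x with v | x
    · simp only [Sum.elim_inl, Pi.smul_apply, RingHom.id_apply]
      split_ifs <;> simp
    · simp

/-- extension by zero from `B` -/
private noncomputable def gdE2 (B : Finset V) : ({v : V // v ∈ B} → F2) →ₗ[F2] (GV B → F2) where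
  toFun f := Sum.elim (fun v => if h : v ∈ B then f ⟨v, h⟩ else 0) (fun _ => 0)
  map_add' f g := by
    funext x
    rcases x with v | x
    · simp only [Sum.elim_inl, Pi.add_apply]
      split_ifs <;> simp
    · simp
  map_smul' a f := by
    funext x
    rcases x with v | x
    · simp only [Sum.elim_inl, Pi.smul_apply, RingHom.id_apply]
      split_ifs <;> simp
    · simp

/-- the rows of the other vertices -/
private noncomputable def gdO (y : {v : V // v ∈ c.B} ⊕ (({v : V // v ∈ c.B} × Fin 2 × Fin 6) ⊕ Unit)) : GV c.B → F2 :=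
  row (c.extG c.L) (Sum.map Subtype.val id y)

private theorem gd_row {v : V} (hv : v ∉ c.B) :
    row (c.extG c.L) (Sum.inl v) = gdE1 c.B (rowI c.L c.B ⟨v, hv⟩) +
      gdE2 c.B (fun u => if c.L.Adj v u.1 then 1 else 0) := by
  funext x
  rcases c.gv_cases x with ⟨u, rfl⟩ | ⟨b, i, j, rfl⟩ | rfl
  · show (if (c.extG c.L).Adj (Sum.inl v) (Sum.inl u) then (1 : F2) else 0) =
      (if h : u ∉ c.B then rowI c.L c.B ⟨v, hv⟩ ⟨u, h⟩ else 0) +
        (if h : u ∈ c.B then (if c.L.Adj v u then (1 : F2) else 0) else 0)
    by_cases hu : u ∈ c.B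
    · rw [dif_neg (not_not.2 hu), dif_pos hu, zero_add]
      exact if_congr (c.ext_inl_inl c.L v u) rfl rfl
    · rw [dif_pos hu, dif_neg hu, add_zero]
      exact if_congr (c.ext_inl_inl c.L v u) rfl rfl
  · show (if (c.extG c.L).Adj (Sum.inl v) (c.mid b i j) then (1 : F2) else 0) = 0 + 0
    rw [add_zero, if_neg]
    intro h
    rw [ext_inl_mid] at h
    exact hv (h.1 ▸ b.2)
  · show (if (c.extG c.L).Adj (Sum.inl v) c.top then (1 : F2) else 0) = 0 + 0
    rw [add_zero, if_neg (c.ext_inl_top c.L v)]

private theorem gd_le : rowSp (c.extG c.L) ≤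
    (Submodule.map (gdE1 c.B) (rowISp c.L c.B) ⊔ Submodule.map (gdE2 c.B) ⊤) ⊔
      Submodule.span F2 (Set.range c.gdO) := by
  unfold rowSp
  rw [Submodule.span_le]
  rintro _ ⟨x, rfl⟩
  rcases x with v | x
  · by_cases hv : v ∈ c.B
    · exact Submodule.mem_sup_right (Submodule.subset_span ⟨Sum.inl ⟨v, hv⟩, rfl⟩)
    · refine Submodule.mem_sup_left ?_
      have h := c.gd_row hv
      rw [h]
      refine Submodule.add_mem_sup ?_ ?_
      · exact Submodule.mem_map_of_mem (Submodule.subset_span ⟨⟨v, hv⟩, rfl⟩)
      · exact Submodule.mem_map_of_mem Submodule.mem_top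
  · exact Submodule.mem_sup_right (Submodule.subset_span ⟨Sum.inr x, rfl⟩)

private theorem gd_es : (es c.M).card ≤ (es (c.extG c.M)).card := by
  refine Finset.card_le_card_of_injOn (Sym2.map Sum.inl) ?_ ?_
  · intro e he
    unfold es at he
    rw [Finset.mem_coe, mem_filter] at he
    unfold es
    rw [Finset.mem_coe, mem_filter]
    refine ⟨mem_univ _, ?_⟩
    induction e using Sym2.ind with
    | h u v =>
      rw [Sym2.map_mk]
      exact (c.ext_inl_inl c.M u v).2 he.2
  · exact fun e _ e' _ h => Sym2.map.injective Sum.inl_injective h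

theorem ext_rk : Module.finrank F2 (rowSp (c.extG c.L)) ≤ 30 * k + 10 + (es (c.extG c.M)).card := by
  have h1 := Submodule.finrank_mono c.gd_le
  have h2 := Submodule.finrank_add_le_finrank_add_finrank
    (Submodule.map (gdE1 c.B) (rowISp c.L c.B) ⊔ Submodule.map (gdE2 c.B) ⊤)
    (Submodule.span F2 (Set.range c.gdO))
  have h3 := Submodule.finrank_add_le_finrank_add_finrank
    (Submodule.map (gdE1 c.B) (rowISp c.L c.B)) (Submodule.map (gdE2 c.B) ⊤)
  have h4 := Submodule.finrank_map_le (gdE1 c.B) (rowISp c.L c.B)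
  have h5 := Submodule.finrank_map_le (gdE2 c.B) ⊤
  have h6 : Module.finrank F2 (⊤ : Submodule F2 ({v : V // v ∈ c.B} → F2)) = c.B.card := by
    rw [finrank_top, Module.finrank_fintype_fun_eq_card, Fintype.card_coe]
  have h7 : Module.finrank F2 (Submodule.span F2 (Set.range c.gdO)) ≤ c.B.card + (c.B.card * (2 * 6) + 1) := by
    have h := finrank_range_le_card (R := F2) c.gdO
    rw [Fintype.card_sum, Fintype.card_sum, Fintype.card_prod, Fintype.card_prod, Fintype.card_coe, Fintype.card_fin,
      Fintype.card_fin, Fintype.card_unit] at h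
    exact h
  have h8 := c.rk
  have h9 := c.cardB
  have h10 := c.gd_es
  omega

end PCfg

end Pool.Agent.RPH
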