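import Pool.Agent.RPH.GdCls

/-!
# RPH-GdTch: the touching rule in the extended graph
-/

set_option autoImplicit false

open Finset
open scoped Classical

namespace Pool.Agent.RPH

open Pool.Agent.BEO (F2 nb es vs dg row rowSp)

variable {k : ℕ} {V Q : Type} [Fintype V] [AddCommGroup Q] [Module F2 Q] (c : PCfg k V Q)

namespace PCfg

/-- the exceptional vertices of the extended configuration -/
noncomputable def XX : Finset (GV c.B) := univ.filter fun x => ∀ v, x = Sum.inl v → v ∈ c.B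

theorem cardXX : (c.XX).card ≤ 13 * k + 1 := by
  have h1 : c.XX ⊆ (c.B.image Sum.inl) ∪
      ((univ : Finset (({v : V // v ∈ c.B} × Fin 2 × Fin 6) ⊕ Unit)).image Sum.inr) := by
    intro x hx
    unfold XX at hx
    rw [Finset.mem_filter] at hx
    rw [Finset.mem_union, Finset.mem_image, Finset.mem_image]
    rcases x with v | y
    · exact Or.inl ⟨v, hx.2 v rfl, rfl⟩
    · exact Or.inr ⟨y, Finset.mem_univ _, rfl⟩
  refine (Finset.card_le_card h1).trans ((Finset.card_union_le _ _).trans ?_)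
  have h2 : (c.B.image (Sum.inl : V → GV c.B)).card ≤ c.B.card := Finset.card_image_le
  have h3 : ((univ : Finset (({v : V // v ∈ c.B} × Fin 2 × Fin 6) ⊕ Unit)).image (Sum.inr : _ → GV c.B)).card ≤
      12 * c.B.card + 1 := by
    refine Finset.card_image_le.trans ?_
    rw [Finset.card_univ, Fintype.card_sum, Fintype.card_prod, Fintype.card_prod, Fintype.card_fin, Fintype.card_fin,
      Fintype.card_unit, Fintype.card_coe]
    omega
  have h4 := c.cardB
  omega

theorem not_XX (x : GV c.B) (h : x ∉ c.XX) : ∃ v, v ∉ c.B ∧ x = Sum.inl v := by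
  unfold XX at h
  rw [Finset.mem_filter] at h
  by_contra hc
  refine h ⟨Finset.mem_univ _, fun v hv => ?_⟩
  by_contra hb
  exact hc ⟨v, hb, hv⟩

private theorem gt_walk {x y : GV c.B} (w : (c.extG c.R).Walk x y) : (∀ z ∈ w.support, z ∉ c.XX) →
    ∀ a b : V, x = Sum.inl a → y = Sum.inl b → ∃ w' : c.R.Walk a b, w'.length = w.length ∧
      w'.support.map Sum.inl = w.support ∧ (w.edges.map c.aX).sum = ((w'.edges.map c.a).sum, 0) := by
  induction w with
  | nil =>
    intro h a b ha hb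
    have hab : a = b := Sum.inl_injective (ha.symm.trans hb)
    subst hab
    refine ⟨SimpleGraph.Walk.nil, rfl, ?_, ?_⟩
    · rw [SimpleGraph.Walk.support_nil, SimpleGraph.Walk.support_nil, List.map_singleton, ha]
    · rw [SimpleGraph.Walk.edges_nil, SimpleGraph.Walk.edges_nil, List.map_nil, List.map_nil, List.sum_nil, List.sum_nil]
      rfl
  | @cons x y' y hxy p ih =>
    intro h a b ha hb
    have hy' : y' ∉ c.XX := h y' (by
      rw [SimpleGraph.Walk.support_cons]
      exact List.mem_cons_of_mem _ p.start_mem_support)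
    obtain ⟨a', _, ha'⟩ := c.not_XX y' hy'
    obtain ⟨p', hp1, hp2, hp3⟩ := ih (fun z hz => h z (by
      rw [SimpleGraph.Walk.support_cons]
      exact List.mem_cons_of_mem _ hz)) a' b ha' hb
    subst ha
    subst ha'
    have hadj : c.R.Adj a a' := (c.ext_inl_inl c.R a a').1 hxy
    refine ⟨SimpleGraph.Walk.cons hadj p', ?_, ?_, ?_⟩
    · rw [SimpleGraph.Walk.length_cons, SimpleGraph.Walk.length_cons, hp1]
    · rw [SimpleGraph.Walk.support_cons, SimpleGraph.Walk.support_cons, List.map_cons, hp2]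
    · rw [SimpleGraph.Walk.edges_cons, SimpleGraph.Walk.edges_cons, List.map_cons, List.map_cons, List.sum_cons,
        List.sum_cons, hp3]
      have h5 : c.aX s(Sum.inl a, Sum.inl a') = (c.a s(a, a'), 0) := c.aX_old s(a, a')
      rw [h5, Prod.mk_add_mk, add_zero]

theorem ext_touch (N : ℕ) (q : ℕ → GV c.B) (v : Fin 3 → GV c.B) (w : ∀ i, (c.extG c.R).Walk (v i) (v i))
    (α β : Fin 3 → ℕ)
    (h1 : ∀ t, t < N → (c.extG c.M).Adj (q t) (q (t + 1)))
    (h2 : ∀ t t', t ≤ N → t' ≤ N → q t = q t' → t = t')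
    (h3 : β 0 + (60 * (30 * k + 10) + 60) ≤ α 1) (h4 : β 1 + (60 * (30 * k + 10) + 60) ≤ α 2) (h5 : β 2 ≤ N)
    (h6 : ∀ i, ∃ t, α i < t ∧ t < β i ∧ q t ∈ (w i).support)
    (h7 : ∀ i t, α i < t → t < β i → ∀ u, (c.extG c.M).Adj (q t) u → u = q (t - 1) ∨ u = q (t + 1))
    (h8 : ∀ i, ∀ F ∈ vs (c.extG c.M), ∀ F' ∈ (w i).support, F = F' ∨ (c.extG c.R).Adj F F' →
      ∃ t, α i < t ∧ t < β i ∧ F = q t)
    (h9 : ∀ i j, i ≠ j → ∀ F ∈ (w i).support, ∀ F' ∈ (w j).support, F ≠ F' ∧ ¬ (c.extG c.R).Adj F F')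
    (h10 : ∀ i, (w i).length ≤ 4) (h11 : ∀ i, ∀ F ∈ (w i).support, F ∉ c.XX) (h12 : ∀ t, t ≤ N → q t ∉ c.XX)
    (h13 : ((w 0).edges.map c.aX).sum = ((w 1).edges.map c.aX).sum)
    (h14 : ((w 1).edges.map c.aX).sum = ((w 2).edges.map c.aX).sum) :
    ((w 0).edges.map c.aX).sum = 0 := by
  have hl : ∀ i, β i ≤ N := by
    intro i
    obtain ⟨t1, a1, b1, -⟩ := h6 1
    obtain ⟨t2, a2, b2, -⟩ := h6 2
    fin_cases i
    · show β 0 ≤ N
      omega
    · show β 1 ≤ N
      omega
    · exact h5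
  have hq : ∀ t : ℕ, ∃ u : V, t ≤ N → (u ∉ c.B ∧ q t = Sum.inl u) := by
    intro t
    by_cases ht : t ≤ N
    · obtain ⟨u, h1, h2⟩ := c.not_XX _ (h12 t ht)
      exact ⟨u, fun _ => ⟨h1, h2⟩⟩
    · obtain ⟨u, -, -⟩ := c.not_XX _ (h12 0 (Nat.zero_le _))
      exact ⟨u, fun h => absurd h ht⟩
  choose q' hq' using hq
  have hv : ∀ i, ∃ u, u ∉ c.B ∧ v i = Sum.inl u := fun i => c.not_XX _ (h11 i _ (w i).start_mem_support)
  choose v' hv' using hv
  choose w' hw1 hw2 hw3 using fun i => gt_walk c (w i) (h11 i) (v' i) (v' i) (hv' i).2 (hv' i).2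
  have hs : ∀ i F, F ∈ (w' i).support → Sum.inl F ∈ (w i).support := by
    intro i F hF
    rw [← hw2 i]
    exact List.mem_map_of_mem hF
  have hs' : ∀ i F, Sum.inl F ∈ (w i).support → F ∈ (w' i).support := by
    intro i F hF
    rw [← hw2 i, List.mem_map] at hF
    obtain ⟨F', hF', he⟩ := hF
    rw [← Sum.inl_injective he]
    exact hF'
  have hnB : ∀ F : V, (Sum.inl F : GV c.B) ∉ c.XX → F ∉ c.B := by
    intro F hF
    obtain ⟨u, hu, he⟩ := c.not_XX _ hF
    rw [Sum.inl_injective he]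
    exact hu
  have key := c.touch N q' v' w' α β
    (by
      intro t ht
      have h0 := h1 t ht
      rw [(hq' t (by omega)).2, (hq' (t + 1) (by omega)).2] at h0
      exact (c.ext_inl_inl c.M _ _).1 h0)
    (by
      intro t t' ht ht' he
      refine h2 t t' ht ht' ?_
      rw [(hq' t ht).2, (hq' t' ht').2, he])
    (by omega) (by omega) h5
    (by
      intro i
      obtain ⟨t, a1, b1, hm⟩ := h6 i
      refine ⟨t, a1, b1, hs' i _ ?_⟩
      rw [← (hq' t (by have := hl i; omega)).2]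
      exact hm)
    (by
      intro i t ha hb u hu
      have hN := hl i
      have h0 := h7 i t ha hb (Sum.inl u) (by
        rw [(hq' t (by omega)).2]
        exact (c.ext_inl_inl c.M _ _).2 hu)
      rcases h0 with h0 | h0
      · rw [(hq' (t - 1) (by omega)).2] at h0
        exact Or.inl (Sum.inl_injective h0)
      · rw [(hq' (t + 1) (by omega)).2] at h0
        exact Or.inr (Sum.inl_injective h0))
    (by
      intro i F hF F' hF' h
      have hF0 : (Sum.inl F : GV c.B) ∈ vs (c.extG c.M) := by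
        unfold vs at hF ⊢
        rw [Finset.mem_filter] at hF ⊢
        obtain ⟨-, u, hu⟩ := hF
        exact ⟨Finset.mem_univ _, Sum.inl u, (c.ext_inl_inl c.M _ _).2 hu⟩
      obtain ⟨t, ha, hb, he⟩ := h8 i (Sum.inl F) hF0 (Sum.inl F') (hs i _ hF') (by
        rcases h with h | h
        · exact Or.inl (by rw [h])
        · exact Or.inr ((c.ext_inl_inl c.R _ _).2 h))
      refine ⟨t, ha, hb, ?_⟩
      rw [(hq' t (by have := hl i; omega)).2] at he
      exact Sum.inl_injective he)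
    (by
      intro i j hij F hF F' hF'
      obtain ⟨ha, hb⟩ := h9 i j hij (Sum.inl F) (hs i _ hF) (Sum.inl F') (hs j _ hF')
      exact ⟨fun h => ha (by rw [h]), fun h => hb ((c.ext_inl_inl c.R _ _).2 h)⟩)
    (by
      intro i
      rw [hw1 i]
      exact h10 i)
    (fun i F hF => hnB F (h11 i _ (hs i _ hF)))
    (fun t ht => (hq' t ht).1)
    (by
      rw [hw3 0, hw3 1] at h13
      exact (Prod.ext_iff.1 h13).1)
    (by
      rw [hw3 1, hw3 2] at h14
      exact (Prod.ext_iff.1 h14).1)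
  rw [hw3 0, key]
  rfl

end PCfg

end Pool.Agent.RPH
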