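import Pool.Agent.RPH.GdRk
import Pool.Agent.RPH.GdLb
import Pool.Agent.RPH.GdTch
import Pool.Agent.RPH.GdEv

/-!
# RPH-GdTop: the extended configuration

`HX` is finite dimensional, of dimension `≤ k + 2 * B.card` (`Submodule.prodEquivOfTop..`, `finrank_prod`; see the last part of
`Pool/Agent/SCG/PCore.lean`).
-/

set_option autoImplicit false

open Finset
open scoped Classical

namespace Pool.Agent.RPH

open Pool.Agent.BEO (F2 nb es vs dg row rowSp)

variable {k : ℕ} {V Q : Type} [Fintype V] [AddCommGroup Q] [Module F2 Q] (c : PCfg k V Q)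

namespace PCfg

private def prodE {P T : Type} [AddCommGroup P] [Module F2 P] [AddCommGroup T] [Module F2 T] (H : Submodule F2 P) :
    (H × T) ≃ₗ[F2] (H.prod (⊤ : Submodule F2 T)) where
  toFun x := ⟨(x.1.1, x.2), Submodule.mem_prod.2 ⟨x.1.2, Submodule.mem_top⟩⟩
  map_add' _ _ := rfl
  map_smul' _ _ := rfl
  invFun y := (⟨y.1.1, (Submodule.mem_prod.1 y.2).1⟩, y.1.2)
  left_inv _ := rfl
  right_inv _ := rfl

theorem extG_mono {L0 L1 : SimpleGraph V} (h : L0 ≤ L1) : c.extG L0 ≤ c.extG L1 := by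
  intro x y h1
  unfold extG at h1 ⊢
  rw [SimpleGraph.fromRel_adj] at h1 ⊢
  refine ⟨h1.1, h1.2.imp ?_ ?_⟩
  · intro h2
    unfold gRel at h2 ⊢
    rcases h2 with ⟨u, v, h3, h4, h5⟩ | h2
    · exact Or.inl ⟨u, v, h3, h4, h h5⟩
    · exact Or.inr h2
  · intro h2
    unfold gRel at h2 ⊢
    rcases h2 with ⟨u, v, h3, h4, h5⟩ | h2
    · exact Or.inl ⟨u, v, h3, h4, h h5⟩
    · exact Or.inr h2

theorem finHX : Module.Finite F2 c.HX := by
  have hf := c.finH
  exact Module.Finite.equiv (prodE (T := GT c.B) c.H)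

theorem dimHX : Module.finrank F2 c.HX ≤ 30 * k + 10 := by
  have hf := c.finH
  have h1 : Module.finrank F2 c.HX = Module.finrank F2 (c.H × GT c.B) :=
    (LinearEquiv.finrank_eq (prodE (T := GT c.B) c.H)).symm
  rw [h1, Module.finrank_prod]
  have h2 : Module.finrank F2 (GT c.B) = 2 * c.B.card := by
    rw [Module.finrank_fintype_fun_eq_card, Fintype.card_prod, Fintype.card_fin, mul_comm]
    congr 1
    exact Fintype.card_coe c.B
  have h3 := c.dimH
  have h4 := c.cardB
  omega

/-- the extended configuration -/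
noncomputable def ext : Cfg (30 * k + 10) (GV c.B) (Q × GT c.B) where
  L := c.extG c.L
  M := c.extG c.M
  R := c.extG c.R
  le := c.extG_mono c.le
  leR := c.extG_mono c.leR
  a := c.aX
  H := c.HX
  evL := c.ext_evL
  evM := c.ext_evM
  X := c.XX
  cardX := c.cardXX.trans (by omega)
  touch := c.ext_touch
  clsR := c.ext_cls
  finH := c.finHX
  dimH := c.dimHX
  mn := fun χ h1 h2 h3 => c.ext_mn χ h1 h2 h3
  mnR := fun χ h1 h2 h3 => (c.ext_mnR χ h1 h2 h3).trans (by omega)
  clLM := c.ext_clLM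
  rk := by
    have h := c.ext_rk
    omega
  lb := c.ext_lb

end PCfg

end Pool.Agent.RPH
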