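import Pool.Agent.EPH.KRow
import Pool.Agent.EPH.KRam
import Pool.Agent.EPH.XDef
import Pool.Agent.RPH.ExtD
import Pool.Agent.RPH.DtB

/-!
# RPH-KBlk: a large block of faces has a common vertex

`rect_mem`: the functional is `∑` over four chords; it vanishes on `D.z F` for every `F` by `D.inc` (each of `f, f'` is a face of
two of the four chords, so is each of `g, g'`, with the same multiplicity; every value is `(if D.s e = F) + (if D.t e = F)`,
symmetric in the two faces: by cases of `Sym2.eq_iff`) so it is in `D.H` (`H` are the functionals vanishing on all `D.z F`;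
compare `clsR` in `Pool/Agent/EPH/XCfgB.lean`). `card_H`: `D.H` as a finset has at most `2 ^ k` members
(`Module.card_eq_pow_finrank` or `Module.natCard_eq_pow_finrank`; `finrank_H` in
`Pool/Agent/EPH/DtB.lean`). PLAN for `big_block`: `q` from `ram33 (2 ^ k)`, `N` from `block q (max r 3)`, with `α = β = Φ`,
`X = Vt`, `F = G := fun f x => On S.P x f` and a choice `w` of a common vertex of `f` and `g` (`hx`; outside `I × J` any value:
`Classical.choice`, if `I` or `J` is empty then `N` should be positive: use `N + 1`). The two conditions of `block` are `pol.three` and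
`pol.faces`. Second alternative: done (`max r 3`, shrink is not necessary: `r ≤ max r 3 ≤ card`). First alternative: choose
chords `e i j : Ch S.P` with `(e i j).vx = w (a i) (b j)` and `s(D.s (e i j), D.t (e i j)) = s(a i, b j)` (two different faces on a
vertex have a chord there: see `cl_eq`/`RG_iff`-lemmas in `XCfgA`), labels `col i j := D.q (e i j) + D.q (e i 0) + D.q (e 0 j) +
D.q (e 0 0)` (`0 : Fin q` exists: `3 ≤ q`), which are in `D.H` (`rect_mem`). `ram33` gives a three by three block with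
constant label `x`; the sum over a rectangle of this block is `4 x = 0` (`module over F2`: every term occurs twice), so
`S.k33` applies (`f i ≠ g j`: disjointness).
-/

set_option autoImplicit false

open Finset
open scoped Classical

namespace Pool.Agent.RPH

open Pool.Agent.EPH
open Pool.Agent.BEO hiding Cfg Frame

variable {k : ℕ} {Φ Vt Z Q : Type} [Fintype Φ] [Fintype Vt] [AddCommGroup Z] [Module F2 Z] [Module.Finite F2 Z] [AddCommGroup Q] [Module F2 Q]

private theorem kb_dbl {Q : Type} [AddCommGroup Q] [Module F2 Q] (φ : Q) : φ + φ = 0 := by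
  rw [← two_smul F2 φ, show (2 : F2) = 0 from rfl, zero_smul]

omit [Module.Finite F2 Z] in
private theorem kb_inc (S : Sys k Φ Vt Z Q) (F f g : Φ) (e : Ch S.P) (h : s(S.D.s e, S.D.t e) = s(f, g)) :
    S.D.dF F (S.D.q e) = (if f = F then 1 else 0) + (if g = F then 1 else 0) := by
  rw [S.D.inc]
  rcases Sym2.eq_iff.1 h with ⟨h1, h2⟩ | ⟨h1, h2⟩
  · rw [h1, h2]
  · rw [h1, h2, add_comm]

theorem rect_mem (S : Sys k Φ Vt Z Q) (f f' g g' : Φ) (e1 e2 e3 e4 : Ch S.P) (h1 : s(S.D.s e1, S.D.t e1) = s(f, g))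
    (h2 : s(S.D.s e2, S.D.t e2) = s(f', g)) (h3 : s(S.D.s e3, S.D.t e3) = s(f', g'))
    (h4 : s(S.D.s e4, S.D.t e4) = s(f, g')) : S.D.q e1 + S.D.q e2 + S.D.q e3 + S.D.q e4 ∈ S.D.H := by
  rw [S.D.mem_H]
  refine ⟨Submodule.add_mem _ (Submodule.add_mem _ (Submodule.add_mem _ (Submodule.subset_span ⟨e1, rfl⟩)
    (Submodule.subset_span ⟨e2, rfl⟩)) (Submodule.subset_span ⟨e3, rfl⟩)) (Submodule.subset_span ⟨e4, rfl⟩),
    fun F => ?_⟩
  rw [map_add, map_add, map_add, kb_inc S F f g e1 h1,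
    kb_inc S F f' g e2 h2, kb_inc S F f' g' e3 h3, kb_inc S F f g' e4 h4]
  have key : ∀ a b c d : F2, a + b + (c + b) + (c + d) + (a + d) = 0 := by decide
  exact key _ _ _ _

theorem card_H (S : Sys k Φ Vt Z Q) : ∃ T : Finset (Q), T.card ≤ 2 ^ k ∧ ∀ x, x ∈ T ↔ x ∈ S.D.H := by
  have hf2 : Finite F2 := inferInstanceAs (Finite (ZMod 2))
  have hmf : Module.Finite F2 S.D.H := S.D.fin_H
  have hfin : Finite S.D.H := Module.finite_of_finite F2
  have hfin' : (S.D.H : Set (Q)).Finite := Set.toFinite _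
  refine ⟨hfin'.toFinset, ?_, fun x => by rw [Set.Finite.mem_toFinset]; rfl⟩
  have h1 : Nat.card S.D.H = Nat.card F2 ^ Module.finrank F2 S.D.H :=
    Module.natCard_eq_pow_finrank
  rw [Nat.card_zmod] at h1
  have h2 : Nat.card S.D.H = (S.D.H : Set (Q)).ncard := rfl
  have h3 : (2 : ℕ) ^ Module.finrank F2 S.D.H ≤ 2 ^ k := Nat.pow_le_pow_right (by norm_num) S.D.dimH
  rw [← Set.ncard_eq_toFinset_card _ hfin', ← h2, h1]
  exact h3

theorem exists_ch (P : Cor Φ Vt) (v : Vt) (F G : Φ) (hFG : F ≠ G) (hF : On P v F) (hG : On P v G) :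
    ∃ e : Ch P, e.vx = v ∧ s(P.fc v e.lo, P.fc v e.hi) = s(F, G) := by
  obtain ⟨i, hi, hiF⟩ := hF
  obtain ⟨j, hj, hjG⟩ := hG
  rcases lt_trichotomy i j with hij | hij | hij
  · refine ⟨⟨⟨v, ⟨i, hi⟩, ⟨j, hj⟩⟩, hij⟩, rfl, ?_⟩
    change s(P.fc v i, P.fc v j) = s(F, G)
    rw [hiF, hjG]
  · exact absurd (by rw [← hiF, ← hjG, hij]) hFG
  · refine ⟨⟨⟨v, ⟨j, hj⟩, ⟨i, hi⟩⟩, hij⟩, rfl, ?_⟩
    change s(P.fc v j, P.fc v i) = s(F, G)
    rw [hiF, hjG, Sym2.eq_swap]

theorem big_block (k r : ℕ) : ∃ N : ℕ, ∀ (Φ Vt Z Q : Type) [Fintype Φ] [Fintype Vt] [AddCommGroup Z] [Module F2 Z]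
    [Module.Finite F2 Z] [AddCommGroup Q] [Module F2 Q] (S : Sys k Φ Vt Z Q) (I J : Finset Φ), Disjoint I J →
    (∀ f ∈ I, f ∉ S.D.B) → (∀ g ∈ J, g ∉ S.D.B) →
    (∀ f ∈ I, ∀ g ∈ J, ∃ v, On S.P v f ∧ On S.P v g) → N ≤ I.card → N ≤ J.card →
    ∃ v, ∃ I' ⊆ I, ∃ J' ⊆ J, r ≤ I'.card ∧ r ≤ J'.card ∧ (∀ f ∈ I', On S.P v f) ∧ ∀ g ∈ J', On S.P v g := by
  obtain ⟨q, hq3, hq⟩ := ram33 (2 ^ k)
  obtain ⟨N, hN⟩ := block q r
  refine ⟨N + 1, ?_⟩
  intro Φ Vt Z Q _ _ _ _ _ _ _ S I J hdisj hIB hJB hx hI hJ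
  have hIne : I.Nonempty := card_pos.1 (by omega)
  have hJne : J.Nonempty := card_pos.1 (by omega)
  obtain ⟨f0, hf0⟩ := hIne
  obtain ⟨g0, hg0⟩ := hJne
  obtain ⟨v0, -⟩ := hx f0 hf0 g0 hg0
  let w : Φ → Φ → Vt := fun f g => if h : ∃ v, On S.P v f ∧ On S.P v g then Classical.choose h else v0
  have hw : ∀ f ∈ I, ∀ g ∈ J, On S.P (w f g) f ∧ On S.P (w f g) g := by
    intro f hf g hg
    have h := hx f hf g hg
    have h1 : w f g = Classical.choose h := dif_pos h
    rw [h1]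
    exact Classical.choose_spec h
  rcases hN Φ Φ Vt (fun f x => On S.P x f) (fun g x => On S.P x g) w I J hw
    (fun i _ i' _ hii x y z hxy hxz hyz h1 h2 h3 h4 h5 h6 =>
      S.pol.three x y z i i' hxy hxz hyz hii h1 h4 h2 h5 h3 h6)
    (fun x y hxy j1 _ j2 _ j3 _ h12 h13 h23 a1 a2 a3 b1 b2 b3 =>
      S.pol.faces x y j1 j2 j3 hxy h12 h13 h23 a1 a2 a3 b1 b2 b3) (by omega) (by omega) with
    ⟨a, b, haI, hbJ, hai, hbi, hwi⟩ | h
  · exfalso
    have hab : ∀ i j, a i ≠ b j := by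
      intro i j hij
      exact disjoint_left.1 hdisj (haI i) (by rw [hij]; exact hbJ j)
    have hex : ∀ i j, ∃ e : Ch S.P, e.vx = w (a i) (b j) ∧ s(S.D.s e, S.D.t e) = s(a i, b j) := by
      intro i j
      obtain ⟨e, he, hs⟩ := exists_ch S.P (w (a i) (b j)) (a i) (b j) (hab i j)
        (hw _ (haI i) _ (hbJ j)).1 (hw _ (haI i) _ (hbJ j)).2
      refine ⟨e, he, ?_⟩
      rw [S.hs, S.ht, he]
      exact hs
    choose e he hes using hex
    let o : Fin q := ⟨0, by omega⟩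
    obtain ⟨T, hT, hTm⟩ := card_H S
    obtain ⟨a', b', x, ha', hb', hcol⟩ := hq (Q)
      (fun i j => S.D.q (e i j) + S.D.q (e o j) + S.D.q (e o o) + S.D.q (e i o)) T hT
      (fun i j => (hTm _).2 (rect_mem S (a i) (a o) (b j) (b o) _ _ _ _ (hes i j) (hes o j)
        (hes o o) (hes i o)))
    refine S.k33 (fun i => a (a' i)) (fun i => b (b' i)) (fun i j => e (a' i) (b' j))
      (fun i => hIB _ (haI _)) (fun i => hJB _ (hbJ _))
      (fun i j h => ha' i j (hai _ _ h)) (fun i j h => hb' i j (hbi _ _ h)) (fun i j => hab _ _)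
      (fun i j i' j' h => ?_) (fun i j => hes _ _) (fun i j i' j' => ?_)
    · have h1 : w (a (a' i)) (b (b' j)) = w (a (a' i')) (b (b' j')) := by
        rw [← he, ← he]
        exact h
      obtain ⟨h2, h3⟩ := hwi _ _ _ _ h1
      exact ⟨ha' _ _ h2, hb' _ _ h3⟩
    · have hc : ∀ i j, S.D.q (e (a' i) (b' j)) =
          x - S.D.q (e o (b' j)) - S.D.q (e o o) - S.D.q (e (a' i) o) := by
        intro i j
        have h1 := hcol i j
        rw [← h1]
        abel
      change S.D.q (e (a' i) (b' j)) + S.D.q (e (a' i') (b' j)) + S.D.q (e (a' i') (b' j')) +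
        S.D.q (e (a' i) (b' j')) = 0
      rw [hc i j, hc i' j, hc i' j', hc i j']
      have e1 : ∀ x A B C D E : Q, x - A - C - D + (x - A - C - E) + (x - B - C - E) +
          (x - B - C - D) = (x + x) + (x + x) - (A + A) - (B + B) - (C + C) - (C + C) - (D + D) -
            (E + E) := by
        intro x A B C D E
        abel
      rw [e1]
      simp only [kb_dbl]
      simp
  · exact h

end Pool.Agent.RPH
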