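import Pool.Agent.RPH.Defs

/-!
# RPH-KCnt: few vertices on two of a few faces, few faces on two of a few vertices
-/

set_option autoImplicit false

open Finset
open scoped Classical

namespace Pool.Agent.RPH

open Pool.Agent.EPH Pool.Agent.BEO

variable {Φ Vt : Type} [Fintype Φ] [Fintype Vt]

private theorem kc_gen {A B : Type} [Fintype A] (R : A → B → Prop) (H : Finset B)
    (h : ∀ p q, p ≠ q → (univ.filter fun v => R v p ∧ R v q).card ≤ 2) :
    (univ.filter fun v => ∃ p ∈ H, ∃ q ∈ H, p ≠ q ∧ R v p ∧ R v q).card ≤ 2 * H.card ^ 2 := by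
  have h1 : (univ.filter fun v => ∃ p ∈ H, ∃ q ∈ H, p ≠ q ∧ R v p ∧ R v q) ⊆
      (H ×ˢ H).biUnion fun x => if x.1 = x.2 then ∅ else univ.filter fun v => R v x.1 ∧ R v x.2 := by
    intro v hv
    rw [mem_filter] at hv
    obtain ⟨-, p, hp, q, hq, hpq, h1, h2⟩ := hv
    rw [mem_biUnion]
    refine ⟨(p, q), mem_product.2 ⟨hp, hq⟩, ?_⟩
    rw [if_neg hpq, mem_filter]
    exact ⟨mem_univ _, h1, h2⟩
  have h2 : ((H ×ˢ H).biUnion fun x => if x.1 = x.2 then ∅ else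
      univ.filter fun v => R v x.1 ∧ R v x.2).card ≤ (H ×ˢ H).card * 2 := by
    refine card_biUnion_le_card_mul _ _ _ fun x _ => ?_
    by_cases hx : x.1 = x.2
    · rw [if_pos hx, card_empty]
      omega
    · rw [if_neg hx]
      exact h _ _ hx
  refine (card_le_card h1).trans (h2.trans ?_)
  rw [card_product]
  exact le_of_eq (by ring)

theorem card_two_faces {P : Cor Φ Vt} (hP : Pol P) (Hb : Finset Φ) :
    (univ.filter fun v => ∃ p ∈ Hb, ∃ q ∈ Hb, p ≠ q ∧ On P v p ∧ On P v q).card ≤ 2 * Hb.card ^ 2 := by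
  refine kc_gen (On P) Hb fun p q hpq => ?_
  by_contra hc
  rw [not_le, two_lt_card] at hc
  obtain ⟨a, ha, b, hb, c, hcc, h1, h2, h3⟩ := hc
  rw [mem_filter] at ha hb hcc
  exact hP.three a b c p q h1 h2 h3 hpq ha.2.1 ha.2.2 hb.2.1 hb.2.2 hcc.2.1 hcc.2.2

theorem card_two_vertices {P : Cor Φ Vt} (hP : Pol P) (X : Finset Vt) :
    (univ.filter fun F => ∃ v ∈ X, ∃ v' ∈ X, v ≠ v' ∧ On P v F ∧ On P v' F).card ≤ 2 * X.card ^ 2 := by
  refine kc_gen (fun F v => On P v F) X fun v v' hv => ?_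
  by_contra hc
  rw [not_le, two_lt_card] at hc
  obtain ⟨a, ha, b, hb, c, hcc, h1, h2, h3⟩ := hc
  rw [mem_filter] at ha hb hcc
  exact hP.faces v v' a b c hv h1 h2 h3 ha.2.1 hb.2.1 hcc.2.1 ha.2.2 hb.2.2 hcc.2.2

end Pool.Agent.RPH
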