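import Pool.Agent.RPH.XTch

/-!
# RPH-XCfg: the configuration of an extremal set

Adapt `Pool/Agent/EPH/XCfg.lean`. Parameter `4 * k + 1`: `B := S.D.B`, `H := S.D.HB` (`finrank_HB`, `fin_HB`), `evL`, `evM`, `par`: `nb_dF` and `h.ev`, `h.clsM`;
`touch := touchR h`-like (a larger gap); `mn`, `mnR`, `clLM`, `rk`, `lb`: `mnL`, `mnR` (`28 k + 2 ≤ 13 (4 k + 1)`), `classes`, `row_le` for `mu`, `lbG`
(`24 k + 2 ≤ 12 (4 k + 1)`).
-/

set_option autoImplicit false

open Finset
open scoped Classical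

namespace Pool.Agent.RPH

open Pool.Agent.EPH Pool.Agent.BEO

variable {k : ℕ} {Φ Vt Z Q : Type} [Fintype Φ] [Fintype Vt] [AddCommGroup Z] [Module F2 Z] [Module.Finite F2 Z]
  [AddCommGroup Q] [Module F2 Q]

variable {S : Sys k Φ Vt Z Q} {lam mu : Finset (Ch S.P)}

theorem exists_pcfg (h : Ext S lam mu) : ∃ c : PCfg (4 * k + 1) Φ Q, c.L = S.D.gr lam ∧ c.M = S.D.gr mu ∧
    c.R = RG S.P ∧ c.a = cl S ∧ c.B = S.D.B := by
  have hp : NoPar S lam := noPar h
  have hpm : NoPar S mu := fun e he e' he' hee => hp e (h.sub he) e' (h.sub he') hee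
  have hle : S.D.gr mu ≤ S.D.gr lam := by
    rintro F G ⟨hne, e, he, h1⟩
    exact ⟨hne, e, h.sub he, h1⟩
  have hB := S.D.cardB
  have hH := S.D.finrank_HB
  refine ⟨{
    L := S.D.gr lam
    M := S.D.gr mu
    R := RG S.P
    le := hle
    leR := gr_le S lam
    B := S.D.B
    cardB := by omega
    a := cl S
    H := S.D.HB
    evL := fun v hv => by
      have h1 := nb_dF S lam hp v
      rw [h.ev v hv] at h1
      exact ZMod.natCast_eq_zero_iff_even.1 h1.symm
    evM := fun v hv => by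
      have h1 := nb_dF S mu hpm v
      rw [h.clsM, h.ev v hv] at h1
      exact ZMod.natCast_eq_zero_iff_even.1 h1.symm
    par := fun v => by
      have h1 := nb_dF S lam hp v
      have h2 := nb_dF S mu hpm v
      rw [h.clsM] at h2
      refine ZMod.natCast_eq_zero_iff_even.1 ?_
      rw [Nat.cast_add, ← h1, ← h2]
      exact CharTwo.add_self_eq_zero _
    touch := fun N q v w α β h1 h2 h3 h4 h5 h6 h7 h8 h9 _ h12 h13 h10 h11 =>
      touchR h N q v w α β h1 h2 (by omega) (by omega) h5 h6 h7 h8 h9 h12 h13 h10 h11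
    clsR := fun χ h1 h2 => clsRB S χ h1 h2
    finH := S.D.fin_HB
    dimH := by omega
    mn := fun χ h1 _ h3 => mnL h χ h1 h3
    mnR := fun χ h1 _ h3 => by
      have h4 := mnR h χ h1 h3
      omega
    clLM := classes h
    rk := by
      have h1 := row_le h mu h.clsM
      rw [card_gr S mu hpm]
      omega
    lb := fun L' h1 _ _ h3 => by
      have h4 := lbG h L' h1 h3
      omega }, rfl, rfl, rfl, rfl, rfl⟩

end Pool.Agent.RPH
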