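import Pool.Agent.RPH.XCol
import Pool.Agent.RPH.XCfg
import Pool.Agent.RPH.CFrame
import Pool.Agent.RPH.DGood
import Pool.Agent.RPH.DRows
import Pool.Agent.RPH.E2D
import Pool.Agent.RPH.DPriv
import Pool.Agent.RPH.GdTch

/-!
# RPH-XE2: the exceptional faces of an extremal set have few different rows

Adapt `Pool/Agent/EPH/XE2.lean`. `c` from `exists_pcfg h`, `f : Frame C c.ext` from `exists_frame (30 * (4 * k + 1) + 10)`, and `card_good`, `card_priv`, `card_rows`
for this parameter. Fine positions as there; `E2 :=` the active faces `y` such that `inl y` is not `x j i` with `i` fine. `card`: the row of `y` in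
`gr lam` is a function of the row of `inl y` in `c.ext.L = extG (gr lam)` (`ext_inl_inl`), so the number of rows is at most that of the adapted module for the
set of the `inl y` (`xrows` there). The neighbours in `gr lam` of a fine `x j i = inl y` are the `y'` with `inl y' = x j (i - 1)` or `x j (i + 1)`.
`x j l` with `inl y = x j l` is in `vs c.ext.M`; as `x j l` is not in `B`, `y ∈ vs (gr mu)` (its neighbours `x j (l ± 1)` in `extG (gr mu)` are inner vertices,
hence old).
-/

set_option autoImplicit false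

open Finset
open scoped Classical

namespace Pool.Agent.RPH

open Pool.Agent.EPH
open Pool.Agent.BEO hiding Cfg Frame

section

variable {k C : ℕ} {V Q : Type} [Fintype V] [AddCommGroup Q] [Module F2 Q] {c : Cfg k V Q} (f : Frame C c)

/-- all positions near `i` are good and private -/
private def xfine (j : Fin f.m) (i : ℕ) : Prop :=
  ∀ l, i ≤ l + 2 → l ≤ i + 2 → f.Good j l ∧ f.Priv j l

private theorem xgood_ok {j : Fin f.m} {i : ℕ} (h : f.Good j i) : 25 ≤ i ∧ i + 25 ≤ f.n j := by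
  have h1 := h i (by omega) (by omega)
  exact ⟨h1.ok.lo, h1.ok.hi⟩

private theorem xrow_tw {j : Fin f.m} {i : ℕ} {w : V} (h : w ∈ f.tw j i) :
    row c.L w = row c.L (f.x j i) := by
  funext u
  unfold row
  exact if_congr ((mem_filter.1 h).2 u) rfl rfl

private theorem xcard (Ng Np : ℕ) (j : Fin f.m)
    (hg : ((range (f.n j + 1)).filter fun i => ¬ f.Good j i).card ≤ Ng)
    (hp : ((range (f.n j + 1)).filter fun i => f.Good j i ∧ f.Good j (i + 1) ∧ ¬ f.Priv j i).card ≤ Np) :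
    ((range (f.n j + 1)).filter fun i => f.Good j i ∧ ¬ xfine f j i).card ≤ Ng * 7 + Np * 5 := by
  have hsub : ((range (f.n j + 1)).filter fun i => f.Good j i ∧ ¬ xfine f j i) ⊆
      (((range (f.n j + 1)).filter fun i => ¬ f.Good j i).biUnion fun l => Icc (l - 3) (l + 3)) ∪
      (((range (f.n j + 1)).filter fun i => f.Good j i ∧ f.Good j (i + 1) ∧ ¬ f.Priv j i).biUnion
        fun l => Icc (l - 2) (l + 2)) := by
    intro i hi
    obtain ⟨hir, hig, hif⟩ := mem_filter.1 hi
    obtain ⟨h1, h2⟩ := xgood_ok f hig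
    unfold xfine at hif
    push Not at hif
    obtain ⟨l, hl1, hl2, hl3⟩ := hif
    by_cases hgl : f.Good j l
    · have hpl := hl3 hgl
      by_cases hgl1 : f.Good j (l + 1)
      · refine mem_union_right _ (mem_biUnion.2 ⟨l, mem_filter.2 ⟨mem_range.2 (by omega), hgl, hgl1, hpl⟩,
          mem_Icc.2 ⟨by omega, by omega⟩⟩)
      · refine mem_union_left _ (mem_biUnion.2 ⟨l + 1, mem_filter.2 ⟨mem_range.2 (by omega), hgl1⟩,
          mem_Icc.2 ⟨by omega, by omega⟩⟩)
    · refine mem_union_left _ (mem_biUnion.2 ⟨l, mem_filter.2 ⟨mem_range.2 (by omega), hgl⟩,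
        mem_Icc.2 ⟨by omega, by omega⟩⟩)
  refine (card_le_card hsub).trans ((card_union_le _ _).trans (Nat.add_le_add ?_ ?_))
  · refine (card_biUnion_le_card_mul _ _ 7 ?_).trans (Nat.mul_le_mul_right _ hg)
    intro l _
    rw [Nat.card_Icc]
    omega
  · refine (card_biUnion_le_card_mul _ _ 5 ?_).trans (Nat.mul_le_mul_right _ hp)
    intro l _
    rw [Nat.card_Icc]
    omega

private theorem xrows (Nr M : ℕ) (E : Finset V) (hE : E ⊆ vs c.L)
    (hr : (((vs c.L).filter fun w => ∀ j i, f.Good j i → w ∉ f.tw j i).image (row c.L)).card ≤ Nr)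
    (hM : ∀ j : Fin f.m, ((range (f.n j + 1)).filter fun i => f.Good j i ∧ ¬ xfine f j i).card ≤ M)
    (hfine : ∀ w ∈ E, ∀ j i, w ∈ f.tw j i → ¬ xfine f j i) :
    (E.image (row c.L)).card ≤ Nr + C * M := by
  have hsub : E.image (row c.L) ⊆
      (((vs c.L).filter fun w => ∀ j i, f.Good j i → w ∉ f.tw j i).image (row c.L)) ∪
      ((univ : Finset (Fin f.m)).biUnion fun j =>
        ((range (f.n j + 1)).filter fun i => f.Good j i ∧ ¬ xfine f j i).image
          fun i => row c.L (f.x j i)) := by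
    intro r hr
    obtain ⟨w, hw, rfl⟩ := mem_image.1 hr
    by_cases h1 : ∀ j i, f.Good j i → w ∉ f.tw j i
    · exact mem_union_left _ (mem_image_of_mem _ (mem_filter.2 ⟨hE hw, h1⟩))
    · push Not at h1
      obtain ⟨j, i, h2, h3⟩ := h1
      obtain ⟨h4, h5⟩ := xgood_ok f h2
      refine mem_union_right _ (mem_biUnion.2 ⟨j, mem_univ _, mem_image.2 ⟨i, mem_filter.2
        ⟨mem_range.2 (by omega), h2, hfine w hw j i h3⟩, (xrow_tw f h3).symm⟩⟩)
  refine (card_le_card hsub).trans ((card_union_le _ _).trans (Nat.add_le_add hr ?_))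
  refine (card_biUnion_le_card_mul _ _ M fun j _ => card_image_le.trans (hM j)).trans ?_
  rw [card_univ, Fintype.card_fin]
  exact Nat.mul_le_mul_right _ f.hm

end

section

variable {k C : ℕ} {V Q : Type} [Fintype V] [AddCommGroup Q] [Module F2 Q] {c : PCfg k V Q} (f : Frame C c.ext)

private theorem xold {j : Fin f.m} {l : ℕ} (h1 : 1 ≤ l) (h2 : l ≤ f.n j) : ∃ v, v ∉ c.B ∧ f.x j l = Sum.inl v :=
  c.not_XX _ fun h => f.notB j l h1 h2 (f.XB _ h)

private theorem xvsM {j : Fin f.m} {l : ℕ} (h1 : 1 ≤ l) (h2 : l + 1 ≤ f.n j) {y : V} (hy : Sum.inl y = f.x j l) :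
    y ∈ vs c.M := by
  obtain ⟨v, -, hv⟩ := xold f (j := j) (l := l + 1) (by omega) h2
  have h3 : c.ext.M.Adj (f.x j l) (f.x j (l + 1)) := (f.adj j l h1 (by omega) _).2 (Or.inr rfl)
  rw [← hy, hv] at h3
  unfold vs
  rw [mem_filter]
  exact ⟨mem_univ _, v, (c.ext_inl_inl c.M y v).1 h3⟩

end

section

variable {k C : ℕ} {Φ Vt Z Q : Type} [Fintype Φ] [Fintype Vt] [AddCommGroup Z] [Module F2 Z] [Module.Finite F2 Z]
  [AddCommGroup Q] [Module F2 Q]

variable {S : Sys k Φ Vt Z Q} {lam mu : Finset (Ch S.P)}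

private theorem xtw (h : Ext S lam mu) (c : PCfg (4 * k + 1) Φ Q) (hL : c.L = S.D.gr lam) (hM : c.M = S.D.gr mu)
    (hR : c.R = RG S.P) (hca : c.a = cl S) (hB : c.B = S.D.B) (f : Frame C c.ext) {j : Fin f.m} {i : ℕ}
    (hf : xfine f j i) {l : ℕ} (h1 : i ≤ l + 1) (h2 : l ≤ i + 1) : f.tw j l = {f.x j l} :=
  tw_single h c hL hM hR hca hB f j l (hf (l - 1) (by omega) (by omega)).1 (hf l (by omega) (by omega)).1
    (hf (l + 1) (by omega) (by omega)).1 (hf (l - 1) (by omega) (by omega)).2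
    (hf l (by omega) (by omega)).2

private theorem xnb (h : Ext S lam mu) (c : PCfg (4 * k + 1) Φ Q) (hL : c.L = S.D.gr lam) (hM : c.M = S.D.gr mu)
    (hR : c.R = RG S.P) (hca : c.a = cl S) (hB : c.B = S.D.B) (f : Frame C c.ext) {j : Fin f.m} {i : ℕ}
    (hf : xfine f j i) {u : GV c.B} (hu : c.ext.L.Adj (f.x j i) u) : u = f.x j (i - 1) ∨ u = f.x j (i + 1) := by
  have hg := (hf i (by omega) (by omega)).1
  rcases (nb_good f j i hg i (by omega) (by omega) u).1 hu with h1 | h1
  · rw [xtw h c hL hM hR hca hB f hf (by omega) (by omega), mem_singleton] at h1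
    exact Or.inl h1
  · rw [xtw h c hL hM hR hca hB f hf (by omega) (by omega), mem_singleton] at h1
    exact Or.inr h1

end

theorem exists_E2 (k : ℕ) : ∃ N : ℕ, ∀ (Φ Vt Z Q : Type) [Fintype Φ] [Fintype Vt] [AddCommGroup Z] [Module F2 Z]
    [Module.Finite F2 Z] [AddCommGroup Q] [Module F2 Q] (S : Sys k Φ Vt Z Q) (lam mu : Finset (Ch S.P)), Ext S lam mu →
    ∃ E2 : Finset Φ, E2S S lam mu N E2 := by
  obtain ⟨C, hC⟩ := exists_frame (30 * (4 * k + 1) + 10)
  obtain ⟨Ng, hNg⟩ := card_good (30 * (4 * k + 1) + 10) C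
  obtain ⟨Np, hNp⟩ := card_priv (30 * (4 * k + 1) + 10) C
  obtain ⟨Nr, hNr⟩ := card_rows (30 * (4 * k + 1) + 10) C
  refine ⟨Nr + C * (Ng * 7 + Np * 5), ?_⟩
  intro Φ Vt Z Q _ _ _ _ _ _ _ S lam mu h
  obtain ⟨c, hL, hM, hR, hca, hB⟩ := exists_pcfg h
  obtain ⟨f⟩ := hC _ _ c.ext
  have hvM : ∀ {j : Fin f.m} {l : ℕ} {y : Φ}, 1 ≤ l → l + 1 ≤ f.n j → Sum.inl y = f.x j l → y ∈ vs (S.D.gr mu) := by
    intro j l y h1 h2 h3
    rw [← hM]
    exact xvsM f h1 h2 h3
  have hAL : ∀ u v : Φ, c.ext.L.Adj (Sum.inl u) (Sum.inl v) ↔ (S.D.gr lam).Adj u v := by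
    intro u v
    rw [← hL]
    exact c.ext_inl_inl c.L u v
  have hAR : ∀ u v : Φ, c.ext.R.Adj (Sum.inl u) (Sum.inl v) ↔ (RG S.P).Adj u v := by
    intro u v
    rw [← hR]
    exact c.ext_inl_inl c.R u v
  have hvL : ∀ y : Φ, y ∈ vs (S.D.gr lam) → (Sum.inl y : GV c.B) ∈ vs c.ext.L := by
    intro y hy
    unfold vs at hy ⊢
    obtain ⟨-, u, hu⟩ := mem_filter.1 hy
    exact mem_filter.2 ⟨mem_univ _, Sum.inl u, (hAL y u).2 hu⟩
  have hY : ∀ y, y ∈ Yf S lam mu ↔ y ∈ vs (S.D.gr lam) ∧ y ∉ vs (S.D.gr mu) := by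
    intro y
    unfold Yf
    rw [mem_filter]
    exact ⟨fun h => h.2, fun h => ⟨mem_univ _, h⟩⟩
  have hok : ∀ {j : Fin f.m} {i : ℕ}, xfine f j i → 25 ≤ i ∧ i + 25 ≤ f.n j := fun {j i} hf =>
    xgood_ok f (hf i (by omega) (by omega)).1
  obtain ⟨E, hE⟩ : ∃ E : Finset Φ, ∀ w, w ∈ E ↔
      w ∈ vs (S.D.gr lam) ∧ ¬ ∃ j i, xfine f j i ∧ Sum.inl w = f.x j i :=
    ⟨(vs (S.D.gr lam)).filter fun w => ¬ ∃ j i, xfine f j i ∧ Sum.inl w = f.x j i, fun w => mem_filter⟩
  refine ⟨E, ?_, fun y hy => ((hE y).1 hy).1, ?_, ?_, ?_⟩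
  · have hx := xrows f Nr (Ng * 7 + Np * 5) (E.image Sum.inl) (by
      intro w hw
      obtain ⟨y, hy, rfl⟩ := mem_image.1 hw
      exact hvL y ((hE y).1 hy).1) (hNr _ _ c.ext f)
      (fun j => xcard f Ng Np j (hNg _ _ c.ext f j) (hNp _ _ c.ext f j)) (by
      intro w hw j i hwt hfi
      obtain ⟨y, hy, rfl⟩ := mem_image.1 hw
      rw [xtw h c hL hM hR hca hB f hfi (by omega) (by omega), mem_singleton] at hwt
      exact ((hE y).1 hy).2 ⟨j, i, hfi, hwt⟩)
    have hsub : E.image (row (S.D.gr lam)) ⊆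
        ((E.image Sum.inl).image (row c.ext.L)).image fun (F : GV c.B → F2) (u : Φ) => F (Sum.inl u) := by
      intro r hr
      obtain ⟨y, hy, rfl⟩ := mem_image.1 hr
      refine mem_image.2 ⟨row c.ext.L (Sum.inl y), mem_image_of_mem _ (mem_image_of_mem _ hy), ?_⟩
      funext u
      unfold row
      exact if_congr (hAL y u) rfl rfl
    exact (card_le_card hsub).trans (card_image_le.trans hx)
  · intro y hy
    rw [hY] at hy
    rw [hE]
    refine ⟨hy.1, ?_⟩
    rintro ⟨j, i, hfi, hyx⟩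
    have := hok hfi
    exact hy.2 (hvM (by omega) (by omega) hyx)
  · intro y hy u hu
    rw [hY] at hy
    rw [hE]
    refine ⟨?_, ?_⟩
    · unfold vs
      rw [mem_filter]
      exact ⟨mem_univ _, y, hu.symm⟩
    · rintro ⟨j, i, hfi, hux⟩
      have hi := hok hfi
      have hu' : c.ext.L.Adj (f.x j i) (Sum.inl y) := by
        rw [← hux]
        exact (hAL u y).2 hu.symm
      rcases xnb h c hL hM hR hca hB f hfi hu' with h1 | h1
      · exact hy.2 (hvM (by omega) (by omega) h1)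
      · exact hy.2 (hvM (by omega) (by omega) h1)
  · intro v y hy hvy p q hvp hvq hpq
    rw [hY] at hy
    rw [hE]
    refine ⟨?_, ?_⟩
    · unfold vs
      rw [mem_filter]
      exact ⟨mem_univ _, q, hpq⟩
    · rintro ⟨j, i, hfi, hpx⟩
      have hi := hok hfi
      have hpq' : c.ext.L.Adj (f.x j i) (Sum.inl q) := by
        rw [← hpx]
        exact (hAL p q).2 hpq
      have hyL := hvL y hy.1
      have hadj : ∀ z, On S.P v z → ∀ z', Sum.inl z = z' →
          (Sum.inl y : GV c.B) = z' ∨ c.ext.R.Adj (Sum.inl y) z' := by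
        rintro z hz _ rfl
        by_cases hyz : y = z
        · exact Or.inl (congrArg _ hyz)
        · right
          rw [hAR]
          exact ⟨hyz, v, hvy, hz⟩
      rcases xnb h c hL hM hR hca hB f hfi hpq' with h1 | h1
      · have hpr := (hfi (i - 1) (by omega) (by omega)).2
        have ei : i - 1 + 1 = i := by omega
        have h2 := hpr (f.x j (i - 1)) (mem_tw_self f j (i - 1)) (f.x j i)
          (by rw [ei]; exact mem_tw_self f j i) (Sum.inl y) hyL (hadj _ hvq _ h1) (hadj _ hvp _ hpx)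
        rw [ei, xtw h c hL hM hR hca hB f hfi (l := i - 1) (by omega) (by omega),
          xtw h c hL hM hR hca hB f hfi (l := i) (by omega) (by omega), mem_singleton, mem_singleton] at h2
        rcases h2 with h2 | h2
        · exact hy.2 (hvM (by omega) (by omega) h2)
        · exact hy.2 (hvM (by omega) (by omega) h2)
      · have hpr := (hfi i (by omega) (by omega)).2
        have h2 := hpr (f.x j i) (mem_tw_self f j i) (f.x j (i + 1)) (mem_tw_self f j (i + 1)) (Sum.inl y) hyL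
          (hadj _ hvp _ hpx) (hadj _ hvq _ h1)
        rw [xtw h c hL hM hR hca hB f hfi (l := i) (by omega) (by omega),
          xtw h c hL hM hR hca hB f hfi (l := i + 1) (by omega) (by omega), mem_singleton, mem_singleton] at h2
        rcases h2 with h2 | h2
        · exact hy.2 (hvM (by omega) (by omega) h2)
        · exact hy.2 (hvM (by omega) (by omega) h2)

end Pool.Agent.RPH
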