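import Pool.Agent.RPH.KWrd
import Pool.Agent.EPH.WFin
import Pool.Agent.RPH.XE2

/-!
# RPH-KErs: erasing two twins of the same colour at a vertex

The letters are the pairs (row of an exceptional face, colour); two letters are related if faces with these rows are adjacent. By
`hE.priv` the word of the corners at `v` describes the chords at `v` (`realAt_iff`), and `vertex_erase` applies.
-/

set_option autoImplicit false

open Finset
open scoped Classical

namespace Pool.Agent.RPH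

open Pool.Agent.EPH
open Pool.Agent.BEO hiding Cfg Frame

private theorem ke_row {Φ : Type} {G : SimpleGraph Φ} {p q : Φ} (h : row G p = row G q) (w : Φ) :
    G.Adj p w ↔ G.Adj q w := by
  have h1 := congrFun h w
  unfold row at h1
  by_cases h2 : G.Adj p w <;> by_cases h3 : G.Adj q w
  · exact ⟨fun _ => h3, fun _ => h2⟩
  · rw [if_pos h2, if_neg h3] at h1
    exact absurd h1 one_ne_zero
  · rw [if_neg h2, if_pos h3] at h1
    exact absurd h1.symm one_ne_zero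
  · exact ⟨fun h => absurd h h2, fun h => absurd h h3⟩

/-- letters -/
private def KA {Φ : Type} {M : ℕ} (G : SimpleGraph Φ) (E2 : Finset Φ) (col : Φ → Fin M) : Type :=
  {r : (Φ → F2) × Fin M // ∃ p ∈ E2, (row G p, col p) = r}

/-- the relation on the letters -/
private def KB {Φ : Type} {M : ℕ} (G : SimpleGraph Φ) (E2 : Finset Φ) (col : Φ → Fin M) (a b : KA G E2 col) : Prop :=
  ∃ p ∈ E2, ∃ q ∈ E2, row G p = a.1.1 ∧ row G q = b.1.1 ∧ G.Adj p q

private theorem kb_iff {Φ : Type} {M : ℕ} (G : SimpleGraph Φ) (E2 : Finset Φ) (col : Φ → Fin M) {p q : Φ} (hp : p ∈ E2)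
    (hq : q ∈ E2) (a b : KA G E2 col) (ha : a.1.1 = row G p) (hb : b.1.1 = row G q) : KB G E2 col a b ↔ G.Adj p q := by
  constructor
  · rintro ⟨p', _, q', _, h1, h2, h3⟩
    have h4 : G.Adj p q' := (ke_row (h1.trans ha) q').1 h3
    exact ((ke_row (h2.trans hb) p).1 h4.symm).symm
  · intro h
    exact ⟨p, hp, q, hq, ha.symm, hb.symm, h⟩

private theorem kb_symm {Φ : Type} {M : ℕ} (G : SimpleGraph Φ) (E2 : Finset Φ) (col : Φ → Fin M) (a b : KA G E2 col)
    (h : KB G E2 col a b) : KB G E2 col b a := by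
  obtain ⟨p, hp, q, hq, h1, h2, h3⟩ := h
  exact ⟨q, hq, p, hp, h2, h1, h3.symm⟩

private theorem kb_irr {Φ : Type} {M : ℕ} (G : SimpleGraph Φ) (E2 : Finset Φ) (col : Φ → Fin M) (a : KA G E2 col) :
    ¬ KB G E2 col a a := by
  rintro ⟨p, hp, q, hq, h1, h2, h3⟩
  exact G.loopless.irrefl q ((ke_row (h1.trans h2.symm) q).1 h3)

/-- the word -/
private noncomputable def KW {Φ : Type} {M : ℕ} (G : SimpleGraph Φ) (E2 : Finset Φ) (col : Φ → Fin M) (d : ℕ)
    (fc : ℕ → Φ) (i : ℕ) : Option (KA G E2 col) :=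
  if h : i < d ∧ fc i ∈ E2 then some ⟨(row G (fc i), col (fc i)), fc i, h.2, rfl⟩ else none

private theorem kw_some {Φ : Type} {M : ℕ} {G : SimpleGraph Φ} {E2 : Finset Φ} {col : Φ → Fin M} {d : ℕ} {fc : ℕ → Φ}
    {i : ℕ} {a : KA G E2 col} (h : KW G E2 col d fc i = some a) : fc i ∈ E2 ∧ a.1 = (row G (fc i), col (fc i)) := by
  unfold KW at h
  split_ifs at h with h1
  exact ⟨h1.2, (congrArg (fun x : KA G E2 col => x.1) (Option.some.inj h)).symm⟩

private theorem kw_pos {Φ : Type} {M : ℕ} {G : SimpleGraph Φ} {E2 : Finset Φ} (col : Φ → Fin M) {d : ℕ} {fc : ℕ → Φ}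
    {i : ℕ} (h1 : i < d) (h2 : fc i ∈ E2) :
    ∃ a : KA G E2 col, KW G E2 col d fc i = some a ∧ a.1 = (row G (fc i), col (fc i)) := by
  unfold KW
  rw [dif_pos ⟨h1, h2⟩]
  exact ⟨_, rfl, rfl⟩

private theorem kw_rl {Φ : Type} {M : ℕ} {G : SimpleGraph Φ} {E2 : Finset Φ} {d : ℕ} {fc : ℕ → Φ} (col : Φ → Fin M)
    (hE : ∀ i j, i < d → j < d → G.Adj (fc i) (fc j) → fc i ∈ E2) (i j : ℕ) (hi : i < d) (hj : j < d) :
    G.Adj (fc i) (fc j) ↔ rl (KB G E2 col) (KW G E2 col d fc) i j := by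
  constructor
  · intro h
    obtain ⟨a, ha, ha'⟩ := kw_pos (G := G) col hi (hE i j hi hj h)
    obtain ⟨b, hb, hb'⟩ := kw_pos (G := G) col hj (hE j i hj hi h.symm)
    exact ⟨a, b, ha, hb, (kb_iff G E2 col (hE i j hi hj h) (hE j i hj hi h.symm) a b (congrArg Prod.fst ha')
      (congrArg Prod.fst hb')).2 h⟩
  · rintro ⟨a, b, ha, hb, hab⟩
    obtain ⟨h1, h2⟩ := kw_some ha
    obtain ⟨h3, h4⟩ := kw_some hb
    exact (kb_iff G E2 col h1 h3 a b (congrArg Prod.fst h2) (congrArg Prod.fst h4)).1 hab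

private theorem delF_adj {k : ℕ} {Φ Vt Z Q : Type} [Fintype Φ] [Fintype Vt] [AddCommGroup Z] [Module F2 Z] [AddCommGroup Q] [Module F2 Q]
    (S : Sys k Φ Vt Z Q) (lam : Finset (Ch S.P)) (T : Finset Φ) (p q : Φ) :
    (S.D.gr (delF S lam T)).Adj p q ↔ (S.D.gr lam).Adj p q ∧ p ∉ T ∧ q ∉ T := by
  constructor
  · rintro ⟨h1, e, he, h2⟩
    unfold delF at he
    rw [mem_filter] at he
    refine ⟨⟨h1, e, he.1, h2⟩, ?_⟩
    rcases h2 with ⟨rfl, rfl⟩ | ⟨rfl, rfl⟩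
    · exact he.2
    · exact ⟨he.2.2, he.2.1⟩
  · rintro ⟨⟨h1, e, he, h2⟩, h3, h4⟩
    refine ⟨h1, e, ?_, h2⟩
    unfold delF
    rw [mem_filter]
    refine ⟨he, ?_⟩
    rcases h2 with ⟨rfl, rfl⟩ | ⟨rfl, rfl⟩
    · exact ⟨h3, h4⟩
    · exact ⟨h4, h3⟩

theorem real_erase (N M : ℕ) : ∃ N' : ℕ, ∀ (k : ℕ) (Φ Vt Z Q : Type) [Fintype Φ] [Fintype Vt] [AddCommGroup Z]
    [Module F2 Z] [Module.Finite F2 Z] [AddCommGroup Q] [Module F2 Q] (S : Sys k Φ Vt Z Q) (lam mu : Finset (Ch S.P)) (_ : Ext S lam mu)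
    (E2 : Finset Φ) (_ : E2S S lam mu N E2) (col : Φ → Fin M) (v : Vt) (Y0 : Finset Φ),
    (∀ y ∈ Y0, y ∈ Yf S lam mu ∧ On S.P v y) → N' < Y0.card → ∃ y ∈ Y0, ∃ y' ∈ Y0, y ≠ y' ∧
      row (S.D.gr lam) y = row (S.D.gr lam) y' ∧ col y = col y' ∧ RealAt S.P (delF S lam {y, y'}) v := by
  obtain ⟨N', hN'⟩ := vertex_erase (N * M)
  refine ⟨N', ?_⟩
  intro k Φ Vt Z Q _ _ _ _ _ _ _ S lam mu h E2 hE col v Y0 hY hcard
  obtain ⟨y0, hy0⟩ : Y0.Nonempty := card_pos.1 (by omega)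
  obtain ⟨hy1, hy2⟩ := hY y0 hy0
  have hpriv : ∀ i j, i < S.P.d v → j < S.P.d v →
      (S.D.gr lam).Adj (S.P.fc v i) (S.P.fc v j) → S.P.fc v i ∈ E2 := fun i j hi hj hij =>
    hE.priv v y0 hy1 hy2 _ _ ⟨i, hi, rfl⟩ ⟨j, hj, rfl⟩ hij
  let eA : ↥(E2.image (fun p => (row (S.D.gr lam) p, col p))) ≃ KA (S.D.gr lam) E2 col :=
    ⟨fun x => ⟨x.1, mem_image.1 x.2⟩, fun x => ⟨x.1, mem_image.2 x.2⟩, fun _ => rfl, fun _ => rfl⟩
  let iA : Fintype (KA (S.D.gr lam) E2 col) := Fintype.ofEquiv _ eA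
  have hA : Fintype.card (KA (S.D.gr lam) E2 col) ≤ N * M := by
    rw [Fintype.card_congr eA.symm, Fintype.card_coe]
    have h1 : E2.image (fun p => (row (S.D.gr lam) p, col p)) ⊆
        (E2.image (row (S.D.gr lam))) ×ˢ (univ : Finset (Fin M)) := by
      intro x hx
      obtain ⟨p, hp, rfl⟩ := mem_image.1 hx
      exact mem_product.2 ⟨mem_image_of_mem _ hp, mem_univ _⟩
    have h2 := card_le_card h1
    rw [card_product, card_univ, Fintype.card_fin] at h2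
    exact h2.trans (Nat.mul_le_mul_right M hE.card)
  have hreal : RealAt S.P lam v := (real_iff S.P lam).1 h.real v
  have hfour := (realAt_iff S lam v (KB (S.D.gr lam) E2 col) (KW (S.D.gr lam) E2 col (S.P.d v) (S.P.fc v))
    (kw_rl col hpriv)).1 hreal
  have hmem : ∀ i, i ∈ (range (S.P.d v)).filter (fun i => S.P.fc v i ∈ Y0) ↔
      i < S.P.d v ∧ S.P.fc v i ∈ Y0 := fun i => by rw [mem_filter, mem_range]
  have hE2 : ∀ i, S.P.fc v i ∈ Y0 → S.P.fc v i ∈ E2 := fun i hi => hE.sub (hY _ hi).1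
  have hSp : N' < ((range (S.P.d v)).filter (fun i => S.P.fc v i ∈ Y0)).card := by
    refine lt_of_lt_of_le hcard ?_
    refine le_trans (card_le_card ?_) (card_image_le (f := S.P.fc v))
    intro y hy
    obtain ⟨i, hi, hiy⟩ := (hY y hy).2
    exact mem_image.2 ⟨i, (hmem i).2 ⟨hi, by rw [hiy]; exact hy⟩, hiy⟩
  obtain ⟨i, hi, j, hj, hij, hκ, h4⟩ := hN' (KA (S.D.gr lam) E2 col) hA (KB (S.D.gr lam) E2 col)
    (kb_symm _ _ _) (kb_irr _ _ _) (S.P.d v) _ hfour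
    ((range (S.P.d v)).filter (fun i => S.P.fc v i ∈ Y0)) (fun i hi => by
      obtain ⟨h1, h2⟩ := (hmem i).1 hi
      obtain ⟨a, ha, -⟩ := kw_pos (G := S.D.gr lam) col h1 (hE2 i h2)
      exact ⟨h1, by rw [ha]; exact Option.some_ne_none a⟩) hSp
  obtain ⟨hi1, hi2⟩ := (hmem i).1 hi
  obtain ⟨hj1, hj2⟩ := (hmem j).1 hj
  have hinj : ∀ a b, a < S.P.d v → b < S.P.d v → (S.P.fc v a = S.P.fc v b ↔ a = b) :=
    fun a b ha hb => ⟨S.P.inj v a b ha hb, fun hab => by rw [hab]⟩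
  have hrc : (row (S.D.gr lam) (S.P.fc v i), col (S.P.fc v i)) = (row (S.D.gr lam) (S.P.fc v j), col (S.P.fc v j)) := by
    obtain ⟨a, ha, ha'⟩ := kw_pos (G := S.D.gr lam) col hi1 (hE2 i hi2)
    obtain ⟨b, hb, hb'⟩ := kw_pos (G := S.D.gr lam) col hj1 (hE2 j hj2)
    rw [ha, hb, Option.some.injEq] at hκ
    rw [← ha', ← hb', hκ]
  refine ⟨S.P.fc v i, hi2, S.P.fc v j, hj2, fun hh => hij ((hinj i j hi1 hj1).1 hh), congrArg Prod.fst hrc,
    congrArg Prod.snd hrc, ?_⟩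
  · refine (realAt_iff S _ v (KB (S.D.gr lam) E2 col) _ ?_).2 h4
    intro a b ha hb
    rw [delF_adj, kw_rl col hpriv a b ha hb, mem_insert, mem_singleton, mem_insert, mem_singleton,
      hinj a i ha hi1, hinj a j ha hj1, hinj b i hb hi1, hinj b j hb hj1]
    constructor
    · rintro ⟨⟨x, y, h5, h6, h7⟩, h8, h9⟩
      refine ⟨x, y, ?_, ?_, h7⟩
      · show (if a = i ∨ a = j then none else _) = _
        rw [if_neg h8]
        exact h5
      · show (if b = i ∨ b = j then none else _) = _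
        rw [if_neg h9]
        exact h6
    · rintro ⟨x, y, h5, h6, h7⟩
      have h5' : (if a = i ∨ a = j then none else
        KW (S.D.gr lam) E2 col (S.P.d v) (S.P.fc v) a) = some x := h5
      have h6' : (if b = i ∨ b = j then none else
        KW (S.D.gr lam) E2 col (S.P.d v) (S.P.fc v) b) = some y := h6
      have h8 : ¬ (a = i ∨ a = j) := by
        intro hh
        rw [if_pos hh] at h5'
        exact Option.some_ne_none x h5'.symm
      have h9 : ¬ (b = i ∨ b = j) := by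
        intro hh
        rw [if_pos hh] at h6'
        exact Option.some_ne_none y h6'.symm
      rw [if_neg h8] at h5'
      rw [if_neg h9] at h6'
      exact ⟨⟨x, y, h5', h6', h7⟩, h8, h9⟩

end Pool.Agent.RPH
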