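import Pool.Agent.RPH.KBlk
import Pool.Agent.RPH.XCfgA

/-!
# RPH-KLab: few classes of twins

`exists_code`: number the members of `Y.image f`. PLAN for `lab_classes`. `N3` from `big_block k 3`, `M := max (N3 + 2)
((2 ^ k) ^ (N1 + N3 + 1) + 1)` (or the sum). Write `L := S.D.gr lam`, `b y u := cl S s(y, u)`; for a chord `e` with the faces `y, u`
`cl S s(y, u) = S.D.q e` (`cl_eq`, from `XCfgA.lean`, uses `S.par`). `Y1 = ∅`: trivial. Case A, `Y1.card ≤ N3`: `exists_code` with `f := id`: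
`col y = col y'` implies `y = y'`, and `LC S lam y y` with `d := 0` because two chords of `lam` with the same two faces are
equal (`noPar`, `a + a = 0`). Case B, `N3 < Y1.card`. Let `y0 ∈ Y1`, `U := univ.filter (L.Adj y0)` (= the neighbours of every
`y ∈ Y1`, same rows); if `U = ∅` all `LC` hold trivially; let `u0 ∈ U`. `U2 := U.filter fun u => u ∉ Hb ∧ ∀ v ∈ X1, ¬ On S.P v u`.
`U2.card ≤ N3`: otherwise `big_block` with `I := Y1`, `J := U2` (disjoint: `u ∈ Y1` and `L.Adj y0 u` would give `L.Adj u u` as the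
rows of `y0` and `u` are the same; common vertex: `gr_le`, `RG`): a vertex `v` on three `u ∈ U2` and on some `y ∈ Y1`; by the last
hypothesis `y, u` have two common vertices, one of them is not `v`, so `pol.two` gives `Nxt S.P v i j` for the corners `i` of `y`
and `j` of `u` at `v`; but a corner has at most two neighbours (`Nxt` with `omega`), and the three corners are different.
If some `u ∈ U` is on a vertex of `X1` choose one, `u1`, otherwise `u1 := u0`. `W := (U.filter (· ∈ Hb)) ∪ U2 ∪ {u1}`,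
`W.card ≤ N1 + N3 + 1`. `f y := fun u => if u ∈ W then b y u + b y u0 + b y0 u + b y0 u0 else 0`; its values at `u ∈ W` are in `D.H`
(`rect_mem` of `KBlk.lean`), a set of at most `2 ^ k` functionals (`card_H`), so `(Y1.image f).card ≤ (2 ^ k) ^ W.card`
(inject into `W.pi`/`Finset.pi W fun _ => T`, `card_pi`, or `Fintype.piFinset`); `exists_code`. If `f y = f y'` then
`LC S lam y y'` with `d := b y u0 + b y' u0`: let `u` be a common neighbour; if `u ∈ W` clear (`a + a = 0`); otherwise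
`u ∉ Hb`, `u ∉ U2`, so `u` is on a vertex `x ∈ X1`, and so is `u1` (`X1.card ≤ 1`: the same vertex), and `y, y'` are on `x`:
by `S.hc` and `cl_eq` for the chords at `x` (`exists_ch`): `b y u = S.c x i + S.c x j` with `i, j` the corners of `y, u` at `x`, so
`b y u + b y' u = S.c x i + S.c x i' = b y u1 + b y' u1 = d`.
-/

set_option autoImplicit false

open Finset
open scoped Classical

namespace Pool.Agent.RPH

open Pool.Agent.EPH
open Pool.Agent.BEO hiding Cfg Frame

variable {k : ℕ} {Φ Vt Z Q : Type} [Fintype Φ] [Fintype Vt] [AddCommGroup Z] [Module F2 Z] [Module.Finite F2 Z] [AddCommGroup Q] [Module F2 Q]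

theorem exists_code {α X : Type} (Y : Finset α) (f : α → X) (M : ℕ) (hM : (Y.image f).card < M) :
    ∃ col : α → Fin M, ∀ y ∈ Y, ∀ y' ∈ Y, col y = col y' → f y = f y' := by
  let e := (Y.image f).equivFin
  refine ⟨fun y => if h : f y ∈ Y.image f then Fin.castLE hM.le (e ⟨f y, h⟩) else ⟨0, by omega⟩, ?_⟩
  intro y hy y' hy' h
  have h1 : f y ∈ Y.image f := mem_image_of_mem f hy
  have h2 : f y' ∈ Y.image f := mem_image_of_mem f hy'
  simp only [dif_pos h1, dif_pos h2] at h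
  have h3 := e.injective (Fin.castLE_injective hM.le h)
  exact congrArg Subtype.val h3

private theorem kl_code {α X : Type} [i : DecidableEq X] (Y : Finset α) (f : α → X) (M : ℕ)
    (hM : (Y.image f).card < M) : ∃ col : α → Fin M, ∀ y ∈ Y, ∀ y' ∈ Y, col y = col y' → f y = f y' := by
  have h : i = fun a b => Classical.propDecidable (a = b) := Subsingleton.elim _ _
  subst h
  exact exists_code Y f M hM

private theorem kl_dbl {Q : Type} [AddCommGroup Q] [Module F2 Q] (φ : Q) : φ + φ = 0 := by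
  rw [← two_smul F2 φ, show (2 : F2) = 0 from rfl, zero_smul]

private theorem kl_cl {k : ℕ} {Φ Vt Z Q : Type} [Fintype Φ] [Fintype Vt] [AddCommGroup Z] [Module F2 Z] [AddCommGroup Q] [Module F2 Q]
    (S : Sys k Φ Vt Z Q) (e : Ch S.P) (F G : Φ) (h : s(S.D.s e, S.D.t e) = s(F, G)) :
    cl S s(F, G) = S.D.q e := by
  rw [← h, cl_eq]

private theorem kl_corner {k : ℕ} {Φ Vt Z Q : Type} [Fintype Φ] [Fintype Vt] [AddCommGroup Z] [Module F2 Z] [AddCommGroup Q] [Module F2 Q]
    (S : Sys k Φ Vt Z Q) (x : Vt) (F G : Φ) (hFG : F ≠ G) (i j : ℕ) (hi : i < S.P.d x) (hj : j < S.P.d x)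
    (hiF : S.P.fc x i = F) (hjG : S.P.fc x j = G) : cl S s(F, G) = S.c x i + S.c x j := by
  rcases lt_trichotomy i j with hij | hij | hij
  · let e : Ch S.P := ⟨⟨x, ⟨i, hi⟩, ⟨j, hj⟩⟩, hij⟩
    have h1 : s(S.D.s e, S.D.t e) = s(F, G) := by
      rw [S.hs, S.ht]
      change s(S.P.fc x i, S.P.fc x j) = s(F, G)
      rw [hiF, hjG]
    rw [kl_cl S e F G h1, S.hc]
    rfl
  · exact absurd (by rw [← hiF, ← hjG, hij]) hFG
  · let e : Ch S.P := ⟨⟨x, ⟨j, hj⟩, ⟨i, hi⟩⟩, hij⟩
    have h1 : s(S.D.s e, S.D.t e) = s(F, G) := by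
      rw [S.hs, S.ht]
      change s(S.P.fc x j, S.P.fc x i) = s(F, G)
      rw [hiF, hjG, Sym2.eq_swap]
    rw [kl_cl S e F G h1, S.hc]
    exact add_comm _ _

private theorem kl_lc {k : ℕ} {Φ Vt Z Q : Type} [Fintype Φ] [Fintype Vt] [AddCommGroup Z] [Module F2 Z] [AddCommGroup Q] [Module F2 Q]
    (S : Sys k Φ Vt Z Q) (lam : Finset (Ch S.P)) (y y' : Φ) (d : Q)
    (h : ∀ u, (S.D.gr lam).Adj y u → cl S s(y, u) + cl S s(y', u) = d) : LC S lam y y' := by
  refine ⟨d, fun e he e' he' u h1 h2 => ?_⟩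
  rw [← kl_cl S e y u h1, ← kl_cl S e' y' u h2]
  refine h u ?_
  rw [← SimpleGraph.mem_edgeSet, gr_mem]
  exact ⟨e, he, h1⟩

private theorem kl_ch {k : ℕ} {Φ Vt Z Q : Type} [Fintype Φ] [Fintype Vt] [AddCommGroup Z] [Module F2 Z] [AddCommGroup Q] [Module F2 Q]
    (S : Sys k Φ Vt Z Q) (lam : Finset (Ch S.P)) (y u : Φ) (h : (S.D.gr lam).Adj y u) :
    ∃ e : Ch S.P, s(S.D.s e, S.D.t e) = s(y, u) := by
  rw [← SimpleGraph.mem_edgeSet, gr_mem] at h
  obtain ⟨e, -, he⟩ := h
  exact ⟨e, he⟩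

theorem lab_classes (k N1 : ℕ) : ∃ M : ℕ, ∀ (Φ Vt Z Q : Type) [Fintype Φ] [Fintype Vt] [AddCommGroup Z] [Module F2 Z]
    [Module.Finite F2 Z] [AddCommGroup Q] [Module F2 Q] (S : Sys k Φ Vt Z Q) (lam mu : Finset (Ch S.P)) (_ : Ext S lam mu) (Y1 Hb : Finset Φ)
    (X1 : Finset Vt), (∀ y ∈ Y1, y ∉ S.D.B) → S.D.B ⊆ Hb → Hb.card ≤ N1 → X1.card ≤ 1 → (∀ y ∈ Y1, ∀ v ∈ X1, On S.P v y) →
    (∀ y ∈ Y1, ∀ y' ∈ Y1, row (S.D.gr lam) y = row (S.D.gr lam) y') →
    (∀ y ∈ Y1, ∀ u, (S.D.gr lam).Adj y u → u ∈ Hb ∨ (∃ v ∈ X1, On S.P v u) ∨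
      ∃ v v', v ≠ v' ∧ On S.P v y ∧ On S.P v u ∧ On S.P v' y ∧ On S.P v' u) →
    ∃ col : Φ → Fin M, ∀ y ∈ Y1, ∀ y' ∈ Y1, col y = col y' → LC S lam y y' := by
  obtain ⟨N3, hN3⟩ := big_block k 3
  refine ⟨N3 + 2 + ((2 ^ k) ^ (N1 + N3 + 1) + 1), ?_⟩
  intro Φ Vt Z Q _ _ _ _ _ _ _ S lam mu _ Y1 Hb X1 hYB hBH hHb hX1 hon hrow hnb
  by_cases hY : Y1.card ≤ N3
  · have h1 : (Y1.image (id : Φ → Φ)).card < N3 + 2 + ((2 ^ k) ^ (N1 + N3 + 1) + 1) := by
      rw [image_id]
      omega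
    obtain ⟨col, hcol⟩ := exists_code Y1 id _ h1
    refine ⟨col, fun y hy y' hy' h => ?_⟩
    have h2 : y = y' := hcol y hy y' hy' h
    rw [← h2]
    exact kl_lc S lam y y 0 fun u _ => kl_dbl _
  · push Not at hY
    obtain ⟨y0, hy0⟩ : Y1.Nonempty := card_pos.1 (by omega)
    have hadj : ∀ y ∈ Y1, ∀ u, (S.D.gr lam).Adj y u ↔ (S.D.gr lam).Adj y0 u := by
      intro y hy u
      have h1 := congrFun (hrow y hy y0 hy0) u
      unfold row at h1
      by_cases h2 : (S.D.gr lam).Adj y u <;> by_cases h3 : (S.D.gr lam).Adj y0 u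
      · exact ⟨fun _ => h3, fun _ => h2⟩
      · rw [if_pos h2, if_neg h3] at h1
        exact absurd h1 (by decide)
      · rw [if_neg h2, if_pos h3] at h1
        exact absurd h1 (by decide)
      · exact ⟨fun h => absurd h h2, fun h => absurd h h3⟩
    let U : Finset Φ := univ.filter fun u => (S.D.gr lam).Adj y0 u
    have hU : ∀ u, u ∈ U ↔ (S.D.gr lam).Adj y0 u := fun u => by simp [U]
    by_cases hUe : U = ∅
    · refine ⟨fun _ => ⟨0, by omega⟩, fun y hy y' hy' _ => kl_lc S lam y y' 0 fun u hu => ?_⟩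
      have h1 : u ∈ U := (hU u).2 ((hadj y hy u).1 hu)
      rw [hUe] at h1
      exact absurd h1 (notMem_empty u)
    obtain ⟨u0, hu0⟩ := nonempty_iff_ne_empty.2 hUe
    let U2 : Finset Φ := U.filter fun u => u ∉ Hb ∧ ∀ v ∈ X1, ¬ On S.P v u
    have hU2 : U2.card ≤ N3 := by
      by_contra hc
      push Not at hc
      have hdisj : Disjoint Y1 U2 := by
        rw [disjoint_left]
        intro u hu1 hu2
        have h1 : (S.D.gr lam).Adj y0 u := (hU u).1 (mem_filter.1 hu2).1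
        exact (S.D.gr lam).loopless.irrefl u ((hadj u hu1 u).2 h1)
      obtain ⟨v, I', hI', J', hJ', hI3, hJ3, hIv, hJv⟩ := hN3 Φ Vt Z Q S Y1 U2 hdisj hYB
        (fun u hu h' => (mem_filter.1 hu).2.1 (hBH h'))
        (fun y hy u hu => by
          have h1 : (S.D.gr lam).Adj y u := (hadj y hy u).2 ((hU u).1 (mem_filter.1 hu).1)
          exact (gr_le S lam h1).2) hY.le hc.le
      obtain ⟨y, hy⟩ : I'.Nonempty := card_pos.1 (by omega)
      obtain ⟨i, hi, hiy⟩ := hIv y hy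
      have key : ∀ u ∈ J', ∃ j, j < S.P.d v ∧ S.P.fc v j = u ∧ Nxt S.P v i j := by
        intro u hu
        obtain ⟨j, hj, hju⟩ := hJv u hu
        have hu2 := mem_filter.1 (hJ' hu)
        have h1 : (S.D.gr lam).Adj y u := (hadj y (hI' hy) u).2 ((hU u).1 hu2.1)
        refine ⟨j, hj, hju, ?_⟩
        rcases hnb y (hI' hy) u h1 with h2 | ⟨x, hx, h2⟩ | ⟨w, w', hww, h2, h3, h4, h5⟩
        · exact absurd h2 hu2.2.1
        · exact absurd h2 (hu2.2.2 x hx)
        · by_cases hvw : v = w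
          · exact S.pol.two v w' y u (by rw [hvw]; exact hww) h1.ne (hIv y hy) (hJv u hu) h4 h5 i j hi hj
              hiy hju
          · exact S.pol.two v w y u hvw h1.ne (hIv y hy) (hJv u hu) h2 h3 i j hi hj hiy hju
      obtain ⟨a, ha, b, hb, c, hc', hab, hac, hbc⟩ := two_lt_card.1 (by omega : 2 < J'.card)
      obtain ⟨j1, hj1, hf1, hn1⟩ := key a ha
      obtain ⟨j2, hj2, hf2, hn2⟩ := key b hb
      obtain ⟨j3, hj3, hf3, hn3⟩ := key c hc'
      have h12 : j1 ≠ j2 := fun h => hab (by rw [← hf1, ← hf2, h])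
      have h13 : j1 ≠ j3 := fun h => hac (by rw [← hf1, ← hf3, h])
      have h23 : j2 ≠ j3 := fun h => hbc (by rw [← hf2, ← hf3, h])
      unfold Nxt at hn1 hn2 hn3
      omega
    obtain ⟨u1, hu1, hu1'⟩ : ∃ u1 ∈ U, (∃ u ∈ U, ∃ v ∈ X1, On S.P v u) → ∃ v ∈ X1, On S.P v u1 := by
      by_cases h : ∃ u ∈ U, ∃ v ∈ X1, On S.P v u
      · obtain ⟨u, hu, h1⟩ := h
        exact ⟨u, hu, fun _ => h1⟩
      · exact ⟨u0, hu0, fun h' => absurd h' h⟩
    let W : Finset Φ := (U.filter fun u => u ∈ Hb) ∪ U2 ∪ {u1}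
    have hWU : ∀ u ∈ W, u ∈ U := by
      intro u hu
      rcases mem_union.1 hu with h | h
      · rcases mem_union.1 h with h | h
        · exact (mem_filter.1 h).1
        · exact (mem_filter.1 h).1
      · rw [mem_singleton.1 h]
        exact hu1
    have hWc : W.card ≤ N1 + N3 + 1 := by
      have h1 : (U.filter fun u => u ∈ Hb).card ≤ N1 :=
        (card_le_card fun u hu => (mem_filter.1 hu).2).trans hHb
      calc W.card ≤ ((U.filter fun u => u ∈ Hb) ∪ U2).card + ({u1} : Finset Φ).card := card_union_le _ _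
        _ ≤ ((U.filter fun u => u ∈ Hb).card + U2.card) + 1 := by
            have := card_union_le (U.filter fun u => u ∈ Hb) U2
            rw [card_singleton]
            omega
        _ ≤ N1 + N3 + 1 := by omega
    obtain ⟨T, hT, hTm⟩ := card_H S
    let f : Φ → ({u // u ∈ W} → (Q)) := fun y u =>
      cl S s(y, u.1) + cl S s(y0, u.1) + cl S s(y0, u0) + cl S s(y, u0)
    have hf : (Y1.image f).card < N3 + 2 + ((2 ^ k) ^ (N1 + N3 + 1) + 1) := by
      have h1 : Y1.image f ⊆ Fintype.piFinset (fun _ : {u // u ∈ W} => T) := by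
        intro g hg
        obtain ⟨y, hy, rfl⟩ := mem_image.1 hg
        rw [Fintype.mem_piFinset]
        intro u
        rw [hTm]
        obtain ⟨e1, he1⟩ := kl_ch S lam y u.1 ((hadj y hy _).2 ((hU _).1 (hWU _ u.2)))
        obtain ⟨e2, he2⟩ := kl_ch S lam y0 u.1 ((hU _).1 (hWU _ u.2))
        obtain ⟨e3, he3⟩ := kl_ch S lam y0 u0 ((hU _).1 hu0)
        obtain ⟨e4, he4⟩ := kl_ch S lam y u0 ((hadj y hy _).2 ((hU _).1 hu0))
        have h2 := rect_mem S y y0 u.1 u0 e1 e2 e3 e4 he1 he2 he3 he4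
        change cl S s(y, u.1) + cl S s(y0, u.1) + cl S s(y0, u0) + cl S s(y, u0) ∈ S.D.H
        rw [kl_cl S e1 _ _ he1, kl_cl S e2 _ _ he2, kl_cl S e3 _ _ he3, kl_cl S e4 _ _ he4]
        exact h2
      have h2 := card_le_card h1
      rw [Fintype.card_piFinset, prod_const, card_univ, Fintype.card_coe] at h2
      have h3 : T.card ^ W.card ≤ (2 ^ k) ^ (N1 + N3 + 1) :=
        (Nat.pow_le_pow_left hT _).trans (Nat.pow_le_pow_right (by positivity) hWc)
      omega
    obtain ⟨col, hcol⟩ := kl_code Y1 f (N3 + 2 + ((2 ^ k) ^ (N1 + N3 + 1) + 1)) hf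
    refine ⟨col, fun y hy y' hy' h => ?_⟩
    have hff : f y = f y' := hcol y hy y' hy' h
    have hW : ∀ u ∈ W, cl S s(y, u) + cl S s(y', u) = cl S s(y, u0) + cl S s(y', u0) := by
      intro u hu
      have h1 : cl S s(y, u) + cl S s(y0, u) + cl S s(y0, u0) + cl S s(y, u0) =
          cl S s(y', u) + cl S s(y0, u) + cl S s(y0, u0) + cl S s(y', u0) := congrFun hff ⟨u, hu⟩
      have h2 : ∀ A B C D E E' : Q, A + B + C + D = E + B + C + E' → A + E = D + E' := by
        intro A B C D E E' h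
        have e1 : A = E + E' - D := by
          have : A = (A + B + C + D) - B - C - D := by abel
          rw [this, h]
          abel
        rw [e1]
        have e2 : E + E' - D + E = (E + E) + E' - (D + D) + D := by abel
        rw [e2, kl_dbl, kl_dbl]
        abel
      exact h2 _ _ _ _ _ _ h1
    refine kl_lc S lam y y' (cl S s(y, u0) + cl S s(y', u0)) fun u hu => ?_
    have huU : u ∈ U := (hU u).2 ((hadj y hy u).1 hu)
    by_cases huW : u ∈ W
    · exact hW u huW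
    · have hX : ∃ v ∈ X1, On S.P v u := by
        by_contra hc
        push Not at hc
        apply huW
        by_cases hH : u ∈ Hb
        · exact mem_union_left _ (mem_union_left _ (mem_filter.2 ⟨huU, hH⟩))
        · exact mem_union_left _ (mem_union_right _ (mem_filter.2 ⟨huU, hH, hc⟩))
      obtain ⟨x, hx, hxu⟩ := hX
      obtain ⟨x', hx', hxu1⟩ := hu1' ⟨u, huU, x, hx, hxu⟩
      have hxx : x' = x := card_le_one.1 hX1 x' hx' x hx
      rw [hxx] at hxu1
      have hW1 := hW u1 (mem_union_right _ (mem_singleton_self u1))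
      rw [← hW1]
      obtain ⟨i, hi, hiy⟩ := hon y hy x hx
      obtain ⟨i', hi', hiy'⟩ := hon y' hy' x hx
      obtain ⟨j, hj, hju⟩ := hxu
      obtain ⟨j1, hj1, hju1⟩ := hxu1
      have hyu1 : (S.D.gr lam).Adj y u1 := (hadj y hy _).2 ((hU _).1 hu1)
      have hyu' : (S.D.gr lam).Adj y' u := (hadj y' hy' _).2 ((hU _).1 huU)
      have hyu1' : (S.D.gr lam).Adj y' u1 := (hadj y' hy' _).2 ((hU _).1 hu1)
      rw [kl_corner S x y u hu.ne i j hi hj hiy hju, kl_corner S x y' u hyu'.ne i' j hi' hj hiy' hju,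
        kl_corner S x y u1 hyu1.ne i j1 hi hj1 hiy hju1, kl_corner S x y' u1 hyu1'.ne i' j1 hi' hj1 hiy' hju1]
      have e1 : ∀ A B C : Q, A + B + (C + B) = A + C := by
        intro A B C
        have e2 : A + B + (C + B) = A + C + (B + B) := by abel
        rw [e2, kl_dbl, add_zero]
      rw [e1, e1]

end Pool.Agent.RPH
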