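import Pool.Agent.RPH.KBlk

/-!
# RPH-KMat: Lemma K: a bound for matchings of faces

Three applications of `big_block` to the vertices common to `f i` and `g j`.
-/

set_option autoImplicit false

open Finset
open scoped Classical

namespace Pool.Agent.RPH

open Pool.Agent.EPH Pool.Agent.BEO

variable {Φ Vt : Type}

/-- one application of `big_block` to the faces `f i` and `g j` -/
private theorem km_block (k r : ℕ) : ∃ N : ℕ, ∀ (Φ Vt Z Q : Type) [Fintype Φ] [Fintype Vt] [AddCommGroup Z] [Module F2 Z]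
    [Module.Finite F2 Z] [AddCommGroup Q] [Module F2 Q] (S : Sys k Φ Vt Z Q) (m : ℕ) (f g : Fin m → Φ),
    (∀ i, f i ∉ S.D.B) → (∀ i, g i ∉ S.D.B) →
    (∀ i j, f i = f j → i = j) → (∀ i j, g i = g j → i = j) → (∀ i j, f i ≠ g j) →
    (∀ i j, ∃ x, On S.P x (f i) ∧ On S.P x (g j)) → ∀ I J : Finset (Fin m), N ≤ I.card → N ≤ J.card →
    ∃ x, ∃ I' ⊆ I, ∃ J' ⊆ J, r ≤ I'.card ∧ r ≤ J'.card ∧ (∀ i ∈ I', On S.P x (f i)) ∧ ∀ j ∈ J', On S.P x (g j) := by
  obtain ⟨N, hN⟩ := big_block k r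
  refine ⟨N, ?_⟩
  intro Φ Vt Z Q _ _ _ _ _ _ _ S m f g hfB hgB hf hg hfg hx I J hI hJ
  have hdis : Disjoint (I.image f) (J.image g) := by
    rw [Finset.disjoint_left]
    intro a ha hb
    obtain ⟨i, _, rfl⟩ := mem_image.1 ha
    obtain ⟨j, _, h⟩ := mem_image.1 hb
    exact hfg i j h.symm
  have hall : ∀ a ∈ I.image f, ∀ c ∈ J.image g, ∃ v, On S.P v a ∧ On S.P v c := by
    intro a ha c hc
    obtain ⟨i, _, rfl⟩ := mem_image.1 ha
    obtain ⟨j, _, rfl⟩ := mem_image.1 hc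
    exact hx i j
  have hcI : N ≤ (I.image f).card := by
    rw [card_image_of_injective _ (fun i j h => hf i j h)]
    exact hI
  have hcJ : N ≤ (J.image g).card := by
    rw [card_image_of_injective _ (fun i j h => hg i j h)]
    exact hJ
  obtain ⟨x, I', hI', J', hJ', h1, h2, h3, h4⟩ := hN Φ Vt Z Q S (I.image f) (J.image g) hdis
    (fun a ha => by
      obtain ⟨i, _, rfl⟩ := mem_image.1 ha
      exact hfB i)
    (fun a ha => by
      obtain ⟨i, _, rfl⟩ := mem_image.1 ha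
      exact hgB i) hall hcI hcJ
  refine ⟨x, I.filter (fun i => f i ∈ I'), filter_subset _ _, J.filter (fun j => g j ∈ J'), filter_subset _ _,
    ?_, ?_, fun i hi => h3 _ (mem_filter.1 hi).2, fun j hj => h4 _ (mem_filter.1 hj).2⟩
  · refine h1.trans (le_trans (card_le_card ?_) (card_image_le (f := f)))
    intro a ha
    obtain ⟨i, hi, rfl⟩ := mem_image.1 (hI' ha)
    exact mem_image_of_mem f (mem_filter.2 ⟨hi, ha⟩)
  · refine h2.trans (le_trans (card_le_card ?_) (card_image_le (f := g)))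
    intro a ha
    obtain ⟨i, hi, rfl⟩ := mem_image.1 (hJ' ha)
    exact mem_image_of_mem g (mem_filter.2 ⟨hi, ha⟩)

private theorem km_eq {P : Cor Φ Vt} (hP : Pol P) {m : ℕ} (f : Fin m → Φ) (hf : ∀ i j, f i = f j → i = j)
    (x y : Vt) (I : Finset (Fin m)) (hI : 3 ≤ I.card) (h1 : ∀ i ∈ I, On P x (f i)) (h2 : ∀ i ∈ I, On P y (f i)) :
    x = y := by
  by_contra hxy
  obtain ⟨a, ha, b, hb, c, hc, hab, hac, hbc⟩ := Finset.two_lt_card.1 hI
  exact hP.faces x y (f a) (f b) (f c) hxy (fun h => hab (hf _ _ h)) (fun h => hac (hf _ _ h))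
    (fun h => hbc (hf _ _ h)) (h1 a ha) (h1 b hb) (h1 c hc) (h2 a ha) (h2 b hb) (h2 c hc)

theorem matching_bound (k : ℕ) : ∃ m0 : ℕ, ∀ (Φ Vt Z Q : Type) [Fintype Φ] [Fintype Vt] [AddCommGroup Z] [Module F2 Z]
    [Module.Finite F2 Z] [AddCommGroup Q] [Module F2 Q] (S : Sys k Φ Vt Z Q) (m : ℕ) (f g : Fin m → Φ) (v : Fin m → Vt),
    (∀ i, f i ∉ S.D.B) → (∀ i, g i ∉ S.D.B) → (∀ i j, f i = f j → i = j) → (∀ i j, g i = g j → i = j) → (∀ i j, f i ≠ g j) → (∀ i j, v i = v j → i = j) →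
    (∀ i, On S.P (v i) (f i) ∧ On S.P (v i) (g i)) → (∀ i x, On S.P x (f i) → On S.P x (g i) → x = v i) →
    (∀ i j, ∃ x, On S.P x (f i) ∧ On S.P x (g j)) → m ≤ m0 := by
  obtain ⟨N3, h3⟩ := km_block k 3
  obtain ⟨N2, h2⟩ := km_block k (max 3 N3)
  obtain ⟨N1, h1⟩ := km_block k N2
  refine ⟨N1, ?_⟩
  intro Φ Vt Z Q _ _ _ _ _ _ _ S m f g v hfB hgB hf hg hfg hv hon huniq hx
  by_contra hcon
  push Not at hcon
  have hcard : N1 ≤ (Finset.univ : Finset (Fin m)).card := by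
    rw [Finset.card_univ, Fintype.card_fin]
    exact hcon.le
  obtain ⟨x, I1, _, J1, _, hI1, hJ1, hx1, hx2⟩ := h1 Φ Vt Z Q S m f g hfB hgB hf hg hfg hx univ univ hcard hcard
  obtain ⟨y, J2, _, I2, hI2s, _, hI2, _, hy2⟩ := h2 Φ Vt Z Q S m f g hfB hgB hf hg hfg hx J1 I1 hJ1 hI1
  have hI2' : N3 ≤ I2.card := le_trans (le_max_right _ _) hI2
  have hI2'' : 3 ≤ I2.card := le_trans (le_max_left _ _) hI2
  obtain ⟨z, I3, hI3s, J3, hJ3s, hI3, hJ3, hz1, hz2⟩ := h3 Φ Vt Z Q S m f g hfB hgB hf hg hfg hx I2 I2 hI2' hI2'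
  have hxz : x = z := km_eq S.pol f hf x z I3 hI3 (fun i hi => hx1 i (hI2s (hI3s hi))) hz1
  have hyz : y = z := km_eq S.pol g hg y z J3 hJ3 (fun j hj => hy2 j (hJ3s hj)) hz2
  obtain ⟨a, ha, b, hb, c, _, hab, _, _⟩ := Finset.two_lt_card.1 hI2''
  have key : ∀ i ∈ I2, x = v i := by
    intro i hi
    apply huniq i x (hx1 i (hI2s hi))
    rw [hxz, ← hyz]
    exact hy2 i hi
  exact hab (hv a b ((key a ha).symm.trans (key b hb)))

end Pool.Agent.RPH
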