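import Pool.Agent.RPH.ExtD
import Pool.Agent.RPH.DtB
import Pool.Agent.EPH.NReal

/-!
# RPH-NPar: no parallel chords

Two chords with the same two faces are at different vertices, hence short, and both can be deleted.
-/

set_option autoImplicit false

open Finset
open scoped Classical

namespace Pool.Agent.RPH

open Pool.Agent.EPH Pool.Agent.BEO

variable {k : ℕ} {Φ Vt Z Q : Type} [Fintype Φ] [Fintype Vt] [AddCommGroup Z] [Module F2 Z] [AddCommGroup Q] [Module F2 Q]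

omit [Fintype Φ] [Fintype Vt] in
private theorem np_ext {P : Cor Φ Vt} {e e' : Ch P} (h1 : e.vx = e'.vx) (h2 : e.lo = e'.lo)
    (h3 : e.hi = e'.hi) : e = e' := by
  obtain ⟨⟨v, i, j⟩, h⟩ := e
  obtain ⟨⟨v', i', j'⟩, h'⟩ := e'
  have h1' : v = v' := h1
  subst h1'
  have h2' : i = i' := Fin.ext h2
  have h3' : j = j' := Fin.ext h3
  subst h2'
  subst h3'
  rfl

private theorem np_f2 (y : F2) : y + y = 0 := by
  revert y
  decide

private theorem np_q2 (y : Q) : y + y = 0 := by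
  have h : (2 : F2) = 0 := by decide
  rw [← two_smul F2 y, h, zero_smul]

private theorem np_st (S : Sys k Φ Vt Z Q) (e : Ch S.P) : S.D.s e ≠ S.D.t e := by
  rw [S.hs, S.ht]
  intro h
  have h1 := S.P.inj _ _ _ e.1.2.1.2 e.1.2.2.2 h
  have h2 : e.lo < e.hi := e.2
  have h3 : e.lo = e.hi := h1
  omega

private theorem np_vx {S : Sys k Φ Vt Z Q} {e e' : Ch S.P} (hne : e ≠ e')
    (hh : s(S.D.s e, S.D.t e) = s(S.D.s e', S.D.t e')) : e.vx ≠ e'.vx := by
  intro hv
  have hl1 : e.lo < S.P.d e.vx := e.1.2.1.2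
  have hl2 : e.hi < S.P.d e.vx := e.1.2.2.2
  have hl3 : e'.lo < S.P.d e.vx := by
    rw [hv]
    exact e'.1.2.1.2
  have hl4 : e'.hi < S.P.d e.vx := by
    rw [hv]
    exact e'.1.2.2.2
  have hlt : e.lo < e.hi := e.2
  have hlt' : e'.lo < e'.hi := e'.2
  rw [S.hs, S.ht, S.hs, S.ht, ← hv] at hh
  rcases Sym2.eq_iff.1 hh with ⟨h1, h2⟩ | ⟨h1, h2⟩
  · exact hne (np_ext hv (S.P.inj _ _ _ hl1 hl3 h1) (S.P.inj _ _ _ hl2 hl4 h2))
  · have h3 := S.P.inj _ _ _ hl1 hl4 h1
    have h4 := S.P.inj _ _ _ hl2 hl3 h2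
    omega

private theorem np_short {S : Sys k Φ Vt Z Q} {e e' : Ch S.P} (hv : e.vx ≠ e'.vx)
    (hh : s(S.D.s e, S.D.t e) = s(S.D.s e', S.D.t e')) : ¬ e.Long := by
  have h1 : On S.P e.vx (S.D.s e) := ⟨e.lo, e.1.2.1.2, (S.hs e).symm⟩
  have h2 : On S.P e.vx (S.D.t e) := ⟨e.hi, e.1.2.2.2, (S.ht e).symm⟩
  have h3 : On S.P e'.vx (S.D.s e') := ⟨e'.lo, e'.1.2.1.2, (S.hs e').symm⟩
  have h4 : On S.P e'.vx (S.D.t e') := ⟨e'.hi, e'.1.2.2.2, (S.ht e').symm⟩
  have h5 : On S.P e'.vx (S.D.s e) ∧ On S.P e'.vx (S.D.t e) := by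
    rcases Sym2.eq_iff.1 hh with ⟨h6, h7⟩ | ⟨h6, h7⟩
    · rw [h6, h7]
      exact ⟨h3, h4⟩
    · rw [h6, h7]
      exact ⟨h4, h3⟩
  intro hL
  exact hL (S.pol.two e.vx e'.vx _ _ hv (np_st S e) h1 h2 h5.1 h5.2 e.lo e.hi e.1.2.1.2 e.1.2.2.2
    (S.hs e).symm (S.ht e).symm)

/-- two parallel chords can be deleted -/
private theorem np_del {S : Sys k Φ Vt Z Q} {lam : Finset (Ch S.P)} {e e' : Ch S.P} (he : e ∈ lam) (he' : e' ∈ lam)
    (hne : e ≠ e') (hh : s(S.D.s e, S.D.t e) = s(S.D.s e', S.D.t e')) (hreal : Real S.P lam) :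
    ∃ lam', Real S.P lam' ∧ S.D.cls lam' = S.D.cls lam ∧ S.D.rkN lam' ≤ S.D.rkN lam ∧ act S lam' ≤ act S lam ∧
      lam'.card < lam.card := by
  have hv := np_vx hne hh
  have hsh : ¬ e.Long := np_short hv hh
  have hsh' : ¬ e'.Long := np_short hv.symm hh.symm
  have hqq : S.D.q e = S.D.q e' := S.par e e' hh
  have haa : S.D.a e = S.D.a e' := by
    unfold Dat.a
    rw [hqq]
  have he'' : e' ∈ lam.erase e := Finset.mem_erase.mpr ⟨Ne.symm hne, he'⟩
  have hN : S.D.N ((lam.erase e).erase e') = S.D.N lam := by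
    unfold Dat.N
    rw [← Finset.add_sum_erase lam _ he, ← Finset.add_sum_erase (lam.erase e) _ he'', haa]
    ext x y
    simp only [LinearMap.add_apply]
    have h1 := np_f2 (((S.D.a e').smulRight (S.D.a e') x) y)
    linear_combination (-1) * h1
  have hC : S.D.cls ((lam.erase e).erase e') = S.D.cls lam := by
    unfold Dat.cls
    rw [← Finset.add_sum_erase lam _ he, ← Finset.add_sum_erase (lam.erase e) _ he'', hqq, ← add_assoc,
      np_q2, zero_add]
  have hsub : (lam.erase e).erase e' ⊆ lam :=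
    (Finset.erase_subset _ _).trans (Finset.erase_subset _ _)
  refine ⟨(lam.erase e).erase e', ?_, hC, ?_, ?_, ?_⟩
  · rw [real_iff]
    intro v
    refine realAt_congr (lam := lam) ?_ ((real_iff _ _).1 hreal v)
    intro f _ hf
    rw [Finset.mem_erase, Finset.mem_erase]
    constructor
    · intro h2
      refine ⟨?_, ?_, h2⟩
      · rintro rfl
        exact hsh' hf
      · rintro rfl
        exact hsh hf
    · exact fun h2 => h2.2.2
  · unfold Dat.rkN
    rw [hN]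
  · unfold act
    refine Finset.card_le_card ?_
    intro v hv
    unfold vs at hv ⊢
    rw [Finset.mem_filter] at hv ⊢
    obtain ⟨h2, u, h3, f, hf, h4⟩ := hv
    exact ⟨h2, u, h3, f, hsub hf, h4⟩
  · have h2 := Finset.card_erase_lt_of_mem he
    have h3 := Finset.card_erase_lt_of_mem he''
    omega

theorem noPar {S : Sys k Φ Vt Z Q} {lam mu : Finset (Ch S.P)} (h : Ext S lam mu) : NoPar S lam := by
  intro e he e' he' hh
  by_contra hne
  obtain ⟨lam', h1, h2, h3, h4, h5⟩ := np_del he he' hne hh h.real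
  have h6 := h.small lam' h1 h2 h3 h4
  omega

theorem noPar0 {S : Sys k Φ Vt Z Q} {lam : Finset (Ch S.P)} (h : Ext0 S lam) : NoPar S lam := by
  intro e he e' he' hh
  by_contra hne
  obtain ⟨lam', h1, -, h3, h4, h5⟩ := np_del he he' hne hh h.real
  have h6 := h.small lam' h1 h3 h4
  omega

end Pool.Agent.RPH
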