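import Pool.Agent.RPH.KErs
import Pool.Agent.RPH.KOff
import Pool.Agent.RPH.KHub
import Pool.Agent.RPH.KCnt
import Pool.Agent.RPH.KCol
import Pool.Agent.RPH.XDel

/-!
# RPH-KOut: few active faces outside `mu`

`N` from `exists_E2 k`, `N1` from `exists_hubs k N`, `X0 := VH ∪ {v with two different hubs}`, a colouring `col` of the faces
outside the hubs with `lab_col`, `N2` from `real_erase N M`. Faces on no vertex of `X0`: at most `N * M`; faces on exactly one:
at most `N2` for every vertex of `X0`.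
-/

set_option autoImplicit false

open Finset
open scoped Classical

namespace Pool.Agent.RPH

open Pool.Agent.EPH
open Pool.Agent.BEO hiding Cfg Frame

private theorem ko_row {V : Type} {L : SimpleGraph V} {y y' : V} (h : row L y = row L y') (u : V) :
    L.Adj y u ↔ L.Adj y' u := by
  have h1 := congrFun h u
  unfold row at h1
  by_cases a : L.Adj y u <;> by_cases b : L.Adj y' u
  · exact ⟨fun _ => b, fun _ => a⟩
  · rw [if_pos a, if_neg b] at h1
    exact absurd h1 one_ne_zero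
  · rw [if_neg a, if_pos b] at h1
    exact absurd h1.symm one_ne_zero
  · exact ⟨fun h => absurd h a, fun h => absurd h b⟩

section

variable {k : ℕ} {Φ Vt Z Q : Type} [Fintype Φ] [Fintype Vt] [AddCommGroup Z] [Module F2 Z] [Module.Finite F2 Z] [AddCommGroup Q] [Module F2 Q]

variable {S : Sys k Φ Vt Z Q} {lam mu : Finset (Ch S.P)}

private theorem ko_two {Q : Type} [AddCommGroup Q] [Module F2 Q] (x : Q) : x + x = 0 := by
  rw [← two_smul F2 x, show (2 : F2) = 0 from rfl, zero_smul]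

private theorem ko_contra (h : Ext S lam mu) {y y' : Φ} (hne : y ≠ y') (hyB : y ∉ S.D.B) (hy : y ∈ Yf S lam mu)
    (hrow : row (S.D.gr lam) y = row (S.D.gr lam) y') (hlc : LC S lam y y')
    (hreal : ∀ v, (On S.P v y ∨ On S.P v y') → RealAt S.P (delF S lam {y, y'}) v) : False := by
  refine del_contra h y hyB {y, y'} ?_ ⟨y, mem_insert_self _ _, ?_⟩ ?_ ?_ ?_
  · rw [card_pair hne]
    exact even_two
  · unfold Yf at hy
    exact (mem_filter.1 hy).2.1
  · intro z hz u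
    rcases mem_insert.1 hz with e | e
    · rw [e]
    · rw [mem_singleton.1 e]
      exact (ko_row hrow u).symm
  · intro z hz
    rcases mem_insert.1 hz with e | e
    · rw [e]
      refine ⟨0, fun e1 he1 e2 he2 u h1 h2 => ?_⟩
      rw [noPar h e1 he1 e2 he2 (h1.trans h2.symm), ko_two]
    · rw [mem_singleton.1 e]
      obtain ⟨d, hd⟩ := hlc
      exact ⟨d, fun e1 he1 e2 he2 u h1 h2 => by rw [add_comm]; exact hd e2 he2 e1 he1 u h2 h1⟩
  · rintro v ⟨z, hz, hzv⟩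
    rcases mem_insert.1 hz with e | e
    · rw [e] at hzv
      exact hreal v (Or.inl hzv)
    · rw [mem_singleton.1 e] at hzv
      exact hreal v (Or.inr hzv)

end

theorem card_Y (k : ℕ) : ∃ C : ℕ, ∀ (Φ Vt Z Q : Type) [Fintype Φ] [Fintype Vt] [AddCommGroup Z] [Module F2 Z]
    [Module.Finite F2 Z] [AddCommGroup Q] [Module F2 Q] (S : Sys k Φ Vt Z Q) (lam mu : Finset (Ch S.P)), Ext S lam mu → (Yf S lam mu).card ≤ C := by
  obtain ⟨N, hN⟩ := exists_E2 k
  obtain ⟨N1, hN1⟩ := exists_hubs k N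
  obtain ⟨M, hM⟩ := lab_col k N1
  obtain ⟨N2, hN2⟩ := real_erase N M
  refine ⟨(2 * (N1 + 2 * N1 ^ 2) ^ 2 + N1) + (N * M + (N1 + 2 * N1 ^ 2) * N2), ?_⟩
  intro Φ Vt Z Q _ _ _ _ _ _ _ S lam mu h
  obtain ⟨E2, hE⟩ := hN Φ Vt Z Q S lam mu h
  obtain ⟨Hb, VH, hHb, hVH, hBH, hub⟩ := hN1 Φ Vt Z Q S (S.D.gr lam) (gr_le S lam) E2 hE.card
  obtain ⟨X1, hX1⟩ : ∃ X1 : Finset Vt, X1 =
    univ.filter fun v => ∃ p ∈ Hb, ∃ q ∈ Hb, p ≠ q ∧ On S.P v p ∧ On S.P v q := ⟨_, rfl⟩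
  have hX1c : X1.card ≤ 2 * N1 ^ 2 := by
    rw [hX1]
    exact (card_two_faces S.pol Hb).trans (Nat.mul_le_mul_left 2 (Nat.pow_le_pow_left hHb 2))
  obtain ⟨X0, hX0⟩ : ∃ X0 : Finset Vt, X0 = VH ∪ X1 := ⟨_, rfl⟩
  have hX0c : X0.card ≤ N1 + 2 * N1 ^ 2 := by
    rw [hX0]
    exact (card_union_le _ _).trans (Nat.add_le_add hVH hX1c)
  obtain ⟨col, hcol⟩ := hM Φ Vt Z Q S lam mu h N E2 hE Hb VH X0 hBH hHb (by rw [hX0]; exact subset_union_left) hub
  have hoff : ∀ v, v ∉ X0 → ∀ y ∈ Yf S lam mu, On S.P v y → ∀ lam' : Finset (Ch S.P), lam' ⊆ lam →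
      RealAt S.P lam' v := by
    intro v hv y hy hyv lam' hs
    rw [hX0, mem_union, not_or] at hv
    refine real_off hE Hb VH hub v hv.1 ?_ y hy hyv lam' hs
    intro p hp q hq hvp hvq
    by_contra hpq
    apply hv.2
    rw [hX1, mem_filter]
    exact ⟨mem_univ _, p, hp, q, hq, hpq, hvp, hvq⟩
  obtain ⟨D2, hD2⟩ : ∃ D2 : Finset Φ, D2 =
    univ.filter fun F => ∃ v ∈ X0, ∃ v' ∈ X0, v ≠ v' ∧ On S.P v F ∧ On S.P v' F := ⟨_, rfl⟩
  have hD2c : D2.card ≤ 2 * (N1 + 2 * N1 ^ 2) ^ 2 := by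
    rw [hD2]
    exact (card_two_vertices S.pol X0).trans (Nat.mul_le_mul_left 2 (Nat.pow_le_pow_left hX0c 2))
  have hdel : ∀ T : Finset Φ, delF S lam T ⊆ lam := fun T => by
    unfold delF
    exact filter_subset _ _
  have hmD : ∀ F, F ∉ D2 → ∀ v ∈ X0, ∀ v' ∈ X0, On S.P v F → On S.P v' F → v = v' := by
    intro F hF v hv v' hv' h1 h2
    by_contra hne
    apply hF
    rw [hD2, mem_filter]
    exact ⟨mem_univ _, v, hv, v', hv', hne, h1, h2⟩
  -- the faces on no vertex of `X0`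
  have ha : ((Yf S lam mu).filter fun y => y ∉ Hb ∧ ∀ v ∈ X0, ¬ On S.P v y).card ≤ N * M := by
    by_contra hcon
    push Not at hcon
    have h1 : ((Yf S lam mu).filter fun y => y ∉ Hb ∧ ∀ v ∈ X0, ¬ On S.P v y).image
        (fun y => (row (S.D.gr lam) y, col y)) ⊆ (E2.image (row (S.D.gr lam))) ×ˢ (univ : Finset (Fin M)) := by
      intro x hx
      obtain ⟨y, hy, rfl⟩ := mem_image.1 hx
      exact mem_product.2 ⟨mem_image_of_mem _ (hE.sub (mem_filter.1 hy).1), mem_univ _⟩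
    have h2 := card_le_card h1
    rw [card_product, card_univ, Fintype.card_fin] at h2
    have h3 := h2.trans (Nat.mul_le_mul_right M hE.card)
    obtain ⟨y, hy, y', hy', hne, hrc⟩ := exists_ne_map_eq_of_card_lt_of_maps_to
      (lt_of_le_of_lt h3 hcon) (f := fun y => (row (S.D.gr lam) y, col y)) (fun y hy => mem_image_of_mem _ hy)
    obtain ⟨hrow, hc⟩ := Prod.mk.inj hrc
    obtain ⟨a1, a2, a3⟩ := mem_filter.1 hy
    obtain ⟨b1, b2, b3⟩ := mem_filter.1 hy'
    have hlc : LC S lam y y' := hcol y a1 y' b1 a2 b2 (fun v hv v' _ h4 _ => absurd h4 (a3 v hv))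
      (fun v hv => ⟨fun h4 => absurd h4 (a3 v hv), fun h4 => absurd h4 (b3 v hv)⟩) hrow hc
    refine ko_contra h hne (fun h' => a2 (hBH h')) a1 hrow hlc ?_
    rintro v (hv | hv)
    · exact hoff v (fun hvx => a3 v hvx hv) y a1 hv _ (hdel _)
    · exact hoff v (fun hvx => b3 v hvx hv) y' b1 hv _ (hdel _)
  -- the faces on exactly one vertex of `X0`
  have hb : ∀ v ∈ X0, ((Yf S lam mu).filter fun y => y ∉ Hb ∧ On S.P v y ∧ y ∉ D2).card ≤ N2 := by
    intro v hv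
    by_contra hcon
    push Not at hcon
    obtain ⟨y, hy, y', hy', hne, hrow, hc, hreal⟩ := hN2 k Φ Vt Z Q S lam mu h E2 hE col v
      ((Yf S lam mu).filter fun y => y ∉ Hb ∧ On S.P v y ∧ y ∉ D2)
      (fun y hy => ⟨(mem_filter.1 hy).1, (mem_filter.1 hy).2.2.1⟩) hcon
    obtain ⟨a1, a0, a2, a3⟩ := mem_filter.1 hy
    obtain ⟨b1, b0, b2, b3⟩ := mem_filter.1 hy'
    have hlc : LC S lam y y' := by
      refine hcol y a1 y' b1 a0 b0 (hmD y a3) (fun w hw => ?_) hrow hc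
      by_cases hwv : w = v
      · rw [hwv]
        exact ⟨fun _ => b2, fun _ => a2⟩
      · exact ⟨fun h4 => absurd (hmD y a3 w hw v hv h4 a2) hwv, fun h4 => absurd (hmD y' b3 w hw v hv h4 b2) hwv⟩
    refine ko_contra h hne (fun h' => a0 (hBH h')) a1 hrow hlc ?_
    intro w hw
    by_cases hwv : w = v
    · rw [hwv]
      exact hreal
    rcases hw with hw | hw
    · exact hoff w (fun hwx => hwv (hmD y a3 w hwx v hv hw a2)) y a1 hw _ (hdel _)
    · exact hoff w (fun hwx => hwv (hmD y' b3 w hwx v hv hw b2)) y' b1 hw _ (hdel _)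
  have hsub : Yf S lam mu ⊆ (D2 ∪ Hb) ∪ (((Yf S lam mu).filter fun y => y ∉ Hb ∧ ∀ v ∈ X0, ¬ On S.P v y) ∪
      X0.biUnion fun v => (Yf S lam mu).filter fun y => y ∉ Hb ∧ On S.P v y ∧ y ∉ D2) := by
    intro y hy
    by_cases h0 : y ∈ D2 ∪ Hb
    · exact mem_union_left _ h0
    rw [mem_union, not_or] at h0
    refine mem_union_right _ ?_
    by_cases h2 : ∀ v ∈ X0, ¬ On S.P v y
    · exact mem_union_left _ (mem_filter.2 ⟨hy, h0.2, h2⟩)
    · push Not at h2
      obtain ⟨v, hv, hvy⟩ := h2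
      exact mem_union_right _ (mem_biUnion.2 ⟨v, hv, mem_filter.2 ⟨hy, h0.2, hvy, h0.1⟩⟩)
  refine (card_le_card hsub).trans ((card_union_le _ _).trans (Nat.add_le_add
    ((card_union_le _ _).trans (Nat.add_le_add hD2c hHb)) ((card_union_le _ _).trans (Nat.add_le_add ha ?_))))
  exact (card_biUnion_le_card_mul _ _ N2 hb).trans (Nat.mul_le_mul_right _ hX0c)

end Pool.Agent.RPH
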