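import Pool.Agent.RPH.LDic
import Pool.Agent.EPH.LHit

/-!
# RPH-LAdj: allowed corners at the two sides of a dart

PLAN. Write `i' := (i + 1) % na v`. `X.nxt_Rf : X.M0.nxt (X.Rf v i) = X.Lf v i' = side (cf X.M0 X.b v (X.fs v i'))`; a flag `cf ..` is never a
flag `side (cf ..)` (`cf_ne_side`). `adj_or`: if `r = Rf v i`: then `side r ≠ Rf v j` (`cf_ne_side`), so `side r = M0.nxt (Rf v j) = Lf v j'` with
`j' = (j + 1) % na v`, hence `cf (al v i) = cf (fs v j')` (`side` is injective), `al v i = fs v j'` (`cf_inj`, `al_lt`, `fs_lt`); by `ct_iff` and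
`ct_al` `i = ct v (al v i) = j'` (`fs v j' ≤ fs v j' ≤ al v j'` by `fs_le`). If `r = M0.nxt (Rf v i)`: the same with `i` and `j` exchanged
(replace `r` by `side r`). `nxt_of_dart`: unfold `Nxt` (`X.corP.d v = X.na v`), cases `i + 1 < na v` (`Nat.mod_eq_of_lt`) or `i + 1 = na v`.
`val_of_dart`: with `adj_or`: in the case `al v i = fs v j'`... here use the stronger form inside the proof: `r = cf M0 b v (al v i)` and
`side r = M0.nxt (Rf v j)`, `Rf v j = cf M0 b v (al v j)`, `M0.nxt (Rf v j) = side (cf M0 b v (al v j + 1))` (`nxt_cf`), so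
`cf (al v i) = cf (al v j + 1)`: either `al v j + 1 < d` and `al v i = al v j + 1`, and `cc` differs by `z.1 (ed (cf (al v i)))`
(`Finset.sum_Icc_succ_top`); or `al v j + 1 = d`, `al v i = 0` (`cf_period`), `cc v 0 z = 0` and `cc v (d - 1) z = z.1 (ed (cf v 0))` because the
sum over `Icc 1 d` is 0 (`EPH.cyc_zero` in `EPH/LHit.lean`) and `cf v d = cf v 0`. See `corner_val` in `Pool/Agent/EPH/LPar.lean`.
-/

set_option autoImplicit false

open Finset
open scoped Classical

namespace Pool.Agent.RPH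

open Pool.Agent.EPH Pool.Agent.BEO
open Pool.Agent.Helper35.OG hiding F2 dg

variable {V : Type} {G : SimpleGraph V} [Fintype V]

namespace Pce

variable (X : Pce G)

private theorem adj_core {v : V} {i j : ℕ} (hi : i < X.na v) (hj : j < X.na v) (r : Flag G)
    (h1 : r = X.Rf v i) (h2 : side r = X.M0.nxt (X.Rf v j)) : i = (j + 1) % X.na v := by
  have hj' : (j + 1) % X.na v < X.na v := Nat.mod_lt _ (by omega)
  rw [X.nxt_Rf hj] at h2
  unfold Lf at h2
  have h3 : r = cf X.M0 X.b v (X.fs v ((j + 1) % X.na v)) := by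
    have h4 := congrArg side h2
    rwa [side_side, side_side] at h4
  have h5 : cf X.M0 X.b v (X.al v i) = cf X.M0 X.b v (X.fs v ((j + 1) % X.na v)) := h1.symm.trans h3
  have h6 := cf_inj X.M0 X.hb v (X.al_lt hi) (X.fs_lt hj') h5
  have h7 : X.ct v (X.al v i) = (j + 1) % X.na v := (X.ct_iff hj' (X.al_lt hi)).2 ⟨h6 ▸ le_rfl, by
    rw [h6]
    exact X.fs_le hj'⟩
  rw [X.ct_al hi] at h7
  exact h7

private theorem rr_false {v : V} {i j : ℕ} (r : Flag G) (h1 : r = X.Rf v i) (h2 : side r = X.Rf v j) : False := by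
  rw [h1] at h2
  exact cf_ne_side X.M0 X.b v _ _ h2.symm

private theorem nn_false {v : V} {i j : ℕ} (r : Flag G) (h1 : r = X.M0.nxt (X.Rf v i))
    (h2 : side r = X.M0.nxt (X.Rf v j)) : False := by
  unfold Rf at h1 h2
  rw [nxt_cf] at h1 h2
  rw [h1, side_side] at h2
  exact cf_ne_side X.M0 X.b v _ _ h2

theorem adj_or {v : V} {i j : ℕ} (hi : i < X.na v) (hj : j < X.na v) (r : Flag G)
    (h1 : r = X.Rf v i ∨ r = X.M0.nxt (X.Rf v i)) (h2 : side r = X.Rf v j ∨ side r = X.M0.nxt (X.Rf v j)) :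
    i = (j + 1) % X.na v ∨ j = (i + 1) % X.na v := by
  rcases h1 with h1 | h1
  · rcases h2 with h2 | h2
    · exact (X.rr_false r h1 h2).elim
    · exact Or.inl (X.adj_core hi hj r h1 h2)
  · rcases h2 with h2 | h2
    · exact Or.inr (X.adj_core hj hi (side r) h2 (by rw [side_side]; exact h1))
    · exact (X.nn_false r h1 h2).elim

/-- the corners at the two sides of a dart are neighbours -/
theorem nxt_of_dart {v : V} {i j : ℕ} (hi : i < X.na v) (hj : j < X.na v) (r : Flag G)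
    (h1 : r = X.Rf v i ∨ r = X.M0.nxt (X.Rf v i)) (h2 : side r = X.Rf v j ∨ side r = X.M0.nxt (X.Rf v j)) :
    Nxt X.corP v i j := by
  have key : ∀ {i j : ℕ}, i < X.na v → j < X.na v → i = (j + 1) % X.na v →
      j + 1 = i ∨ (i = 0 ∧ j + 1 = X.na v) := by
    intro i j hi hj h
    rcases (show j + 1 ≤ X.na v from hj).lt_or_eq with h3 | h3
    · rw [Nat.mod_eq_of_lt h3] at h
      exact Or.inl h.symm
    · rw [h3, Nat.mod_self] at h
      exact Or.inr ⟨h, h3⟩
  show i + 1 = j ∨ j + 1 = i ∨ (i = 0 ∧ j + 1 = X.na v) ∨ (j = 0 ∧ i + 1 = X.na v)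
  rcases X.adj_or hi hj r h1 h2 with h | h
  · rcases key hi hj h with h3 | h3
    · exact Or.inr (Or.inl h3)
    · exact Or.inr (Or.inr (Or.inl h3))
  · rcases key hj hi h with h3 | h3
    · exact Or.inl h3
    · exact Or.inr (Or.inr (Or.inr h3))

private theorem val_core {v : V} {i j : ℕ} (hi : i < X.na v) (hj : j < X.na v) (r : Flag G)
    (h1 : r = X.Rf v i) (h2 : side r = X.M0.nxt (X.Rf v j)) (z : cyc G) :
    cc X.M0 X.b v (X.al v i) z + cc X.M0 X.b v (X.al v j) z = z.1 (ed r) := by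
  have hs : ∀ x : F2, x + x = 0 := fun x => CharTwo.add_self_eq_zero x
  have hcc : ∀ t, cc X.M0 X.b v (t + 1) z = cc X.M0 X.b v t z + z.1 (ed (cf X.M0 X.b v (t + 1))) := by
    intro t
    show ∑ t ∈ Icc 1 (t + 1), z.1 (ed (cf X.M0 X.b v t)) = ∑ t ∈ Icc 1 t, z.1 (ed (cf X.M0 X.b v t)) + _
    rw [Finset.sum_Icc_succ_top (by omega)]
  unfold Rf at h1 h2
  rw [nxt_cf] at h2
  have h3 : r = cf X.M0 X.b v (X.al v j + 1) := by
    have h4 := congrArg side h2
    rwa [side_side, side_side] at h4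
  have h4 : cf X.M0 X.b v (X.al v i) = cf X.M0 X.b v (X.al v j + 1) := h1.symm.trans h3
  have hji := X.al_lt hj
  have hii := X.al_lt hi
  rcases (show X.al v j + 1 ≤ (nb G v).card from hji).lt_or_eq with h5 | h5
  · have h6 := cf_inj X.M0 X.hb v hii h5 h4
    rw [h6, hcc, ← h3]
    linear_combination hs (cc X.M0 X.b v (X.al v j) z)
  · have h7 : cf X.M0 X.b v (X.al v j + 1) = cf X.M0 X.b v 0 := by
      have h8 := cf_period X.M0 X.hb v 0
      rwa [zero_add, ← h5] at h8
    have h8 : X.al v i = 0 := cf_inj X.M0 X.hb v hii (by omega) (h4.trans h7)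
    have h9 : cc X.M0 X.b v 0 z = 0 := by
      show ∑ t ∈ Icc 1 0, z.1 (ed (cf X.M0 X.b v t)) = 0
      rfl
    have h10 : cc X.M0 X.b v (X.al v j + 1) z = 0 := by
      rw [h5]
      exact cyc_zero X.M0 X.hb v z
    rw [hcc, ← h3] at h10
    rw [h8, h9]
    linear_combination h10 - hs (z.1 (ed r))

/-- the functionals of the corners at the two sides of a dart -/
theorem val_of_dart {v : V} {i j : ℕ} (hi : i < X.na v) (hj : j < X.na v) (r : Flag G)
    (h1 : r = X.Rf v i ∨ r = X.M0.nxt (X.Rf v i)) (h2 : side r = X.Rf v j ∨ side r = X.M0.nxt (X.Rf v j)) (z : cyc G) :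
    cc X.M0 X.b v (X.al v i) z + cc X.M0 X.b v (X.al v j) z = z.1 (ed r) := by
  rcases h1 with h1 | h1
  · rcases h2 with h2 | h2
    · exact (X.rr_false r h1 h2).elim
    · exact X.val_core hi hj r h1 h2 z
  · rcases h2 with h2 | h2
    · have h3 := X.val_core hj hi (side r) h2 (by rw [side_side]; exact h1) z
      rw [ed_side] at h3
      rw [add_comm]
      exact h3
    · exact (X.nn_false r h1 h2).elim

end Pce

end Pool.Agent.RPH
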