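import Pool.Agent.RPH.LPce

/-!
# RPH-LAl: the numbers of the allowed corners
-/

set_option autoImplicit false

open Finset
open scoped Classical

namespace Pool.Agent.RPH

open Pool.Agent.EPH Pool.Agent.BEO
open Pool.Agent.Helper35.OG hiding F2 dg

variable {V : Type} {G : SimpleGraph V} [Fintype V]

namespace Pce

variable (X : Pce G)

private theorem al_fin (v : V) : (setOf fun i => i < (nb G v).card ∧ X.ok v i).Finite :=
  (Set.finite_lt_nat (nb G v).card).subset fun _ h => h.1

private theorem na_card (v : V) : X.na v = (X.al_fin v).toFinset.card := by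
  unfold na
  rw [Nat.count_eq_card_filter_range]
  congr 1
  ext i
  rw [mem_filter, mem_range, Set.Finite.mem_toFinset]
  rfl

theorem na_le (v : V) : X.na v ≤ (nb G v).card := Nat.count_le _

theorem al_mem {v : V} {j : ℕ} (h : j < X.na v) : X.al v j < (nb G v).card ∧ X.ok v (X.al v j) := by
  rw [na_card] at h
  exact Nat.nth_mem_of_lt_card (X.al_fin v) h

theorem al_lt {v : V} {j : ℕ} (h : j < X.na v) : X.al v j < (nb G v).card := (X.al_mem h).1

theorem al_ok {v : V} {j : ℕ} (h : j < X.na v) : X.ok v (X.al v j) := (X.al_mem h).2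

theorem al_mono {v : V} {i j : ℕ} (h : i < j) (hj : j < X.na v) : X.al v i < X.al v j := by
  rw [na_card] at hj
  exact Nat.nth_lt_nth_of_lt_card (X.al_fin v) h hj

theorem al_inj {v : V} {i j : ℕ} (hi : i < X.na v) (hj : j < X.na v) (h : X.al v i = X.al v j) : i = j := by
  rcases lt_trichotomy i j with h1 | h1 | h1
  · have := X.al_mono h1 hj
    omega
  · exact h1
  · have := X.al_mono h1 hi
    omega

theorem al_surj {v : V} {i : ℕ} (hi : i < (nb G v).card) (h : X.ok v i) : ∃ j, j < X.na v ∧ X.al v j = i := by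
  obtain ⟨j, h1, h2⟩ := Nat.exists_lt_card_finite_nth_eq (X.al_fin v) (x := i) ⟨hi, h⟩
  exact ⟨j, by rw [na_card]; exact h1, h2⟩

/-- the number of the allowed corners before `i` -/
noncomputable def ct (v : V) (i : ℕ) : ℕ := Nat.count (X.ok v) i

theorem ct_mono (v : V) {i j : ℕ} (h : i ≤ j) : X.ct v i ≤ X.ct v j := Nat.count_monotone _ h

theorem ct_deg (v : V) : X.ct v (nb G v).card = X.na v := rfl

theorem ct_succ (v : V) (i : ℕ) : X.ct v (i + 1) = X.ct v i + if X.ok v i then 1 else 0 := Nat.count_succ _ _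

theorem ct_al {v : V} {j : ℕ} (h : j < X.na v) : X.ct v (X.al v j) = j := by
  have h1 := h
  rw [na_card] at h
  have h2 := Nat.count_nth_of_lt_card_finite (X.al_fin v) h
  unfold ct
  have h3 := X.al_lt h1
  have h4 : ∀ n, n ≤ (nb G v).card → Nat.count (X.ok v) n = Nat.count (fun i => i < (nb G v).card ∧ X.ok v i) n := by
    intro n
    induction n with
    | zero =>
      intro _
      rfl
    | succ n ih =>
      intro hn
      rw [Nat.count_succ, Nat.count_succ, ih (by omega)]
      congr 1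
      refine if_congr ⟨fun h => ⟨by omega, h⟩, fun h => h.2⟩ rfl rfl
  rw [h4 _ h3.le]
  exact h2

theorem lt_ct_iff {v : V} {i j : ℕ} (hj : j < X.na v) : j < X.ct v i ↔ X.al v j < i := by
  constructor
  · intro h
    by_contra h1
    have h2 := X.ct_mono v (not_lt.1 h1)
    rw [X.ct_al hj] at h2
    omega
  · intro h
    have h1 := X.ct_mono v (show X.al v j + 1 ≤ i from h)
    rw [X.ct_succ, X.ct_al hj, if_pos (X.al_ok hj)] at h1
    omega

theorem ct_lt {v : V} {i : ℕ} (hi : i < (nb G v).card) (h : 0 < X.na v) : X.ct v i < X.na v := by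
  have h1 := X.ct_mono v hi.le
  rw [X.ct_deg] at h1
  rcases h1.lt_or_eq with h2 | h2
  · exact h2
  · exfalso
    -- the last corner is allowed
    have h3 : X.ok v ((nb G v).card - 1) := by
      have h4 := X.al_mem h
      have h5 : AF (FGT.rk X.K) X.M (side (X.b v)) := X.wrap v
        ⟨cf X.M0 X.b v (X.al v 0), cf_fst X.M0 X.hb v _, (X.af_iff _).1 h4.2⟩
      have h6 : X.M0.nxt (cf X.M0 X.b v ((nb G v).card - 1)) = side (X.b v) := by
        rw [nxt_cf]
        have h7 := cf_period X.M0 X.hb v 0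
        rw [show (nb G v).card - 1 + 1 = 0 + (nb G v).card by omega, h7]
        rfl
      have h8 : X.af (side (X.b v)) := (X.af_iff _).2 h5
      rw [← h6, X.af_nxt] at h8
      exact h8
    have h4 := X.ct_mono v (show i ≤ (nb G v).card - 1 by omega)
    have h5 := X.ct_succ v ((nb G v).card - 1)
    rw [if_pos h3, show (nb G v).card - 1 + 1 = (nb G v).card by omega, X.ct_deg] at h5
    omega

/-- the last corner is allowed -/
theorem al_last {v : V} (h : 0 < X.na v) : X.al v (X.na v - 1) = (nb G v).card - 1 := by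
  have h0 : X.na v ≤ (nb G v).card := X.na_le v
  have h1 := X.al_lt (show X.na v - 1 < X.na v by omega)
  by_contra h2
  have h3 : X.al v (X.na v - 1) < (nb G v).card - 1 := by omega
  have h4 := (X.lt_ct_iff (show X.na v - 1 < X.na v by omega)).2 h3
  have h5 := X.ct_lt (show (nb G v).card - 1 < (nb G v).card by omega) h
  omega

theorem fs_le {v : V} {j : ℕ} (h : j < X.na v) : X.fs v j ≤ X.al v j := by
  unfold fs
  split_ifs with h1
  · exact Nat.zero_le _
  · exact X.al_mono (show j - 1 < j by omega) h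

theorem fs_lt {v : V} {j : ℕ} (h : j < X.na v) : X.fs v j < (nb G v).card := (X.fs_le h).trans_lt (X.al_lt h)

/-- the dart `i` belongs to the block `ct v i` -/
theorem ct_iff {v : V} {i j : ℕ} (hj : j < X.na v) (hi : i < (nb G v).card) :
    X.ct v i = j ↔ X.fs v j ≤ i ∧ i ≤ X.al v j := by
  have h1 := X.lt_ct_iff (v := v) (i := i) hj
  unfold fs
  split_ifs with h2
  · subst h2
    omega
  · have h3 := X.lt_ct_iff (v := v) (i := i) (show j - 1 < X.na v by omega)
    omega

theorem af_Rf {v : V} {j : ℕ} (h : j < X.na v) : X.af (X.Rf v j) := X.al_ok h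

theorem Rf_fst (v : V) (j : ℕ) : (X.Rf v j).1.fst = v := cf_fst X.M0 X.hb v _

theorem Lf_fst (v : V) (j : ℕ) : (X.Lf v j).1.fst = v := cf_fst X.M0 X.hb v _

/-- the other flag of an allowed corner is the first flag of the next block -/
theorem nxt_Rf {v : V} {j : ℕ} (h : j < X.na v) : X.M0.nxt (X.Rf v j) = X.Lf v ((j + 1) % X.na v) := by
  unfold Rf Lf
  rw [nxt_cf]
  congr 1
  rcases (show j + 1 ≤ X.na v from h).lt_or_eq with h1 | h1
  · rw [Nat.mod_eq_of_lt h1]
    unfold fs
    rw [if_neg (by omega)]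
    rfl
  · rw [h1, Nat.mod_self]
    have h2 : X.al v j = (nb G v).card - 1 := by
      have h3 := X.al_last (show 0 < X.na v by omega)
      rw [← h1] at h3
      exact h3
    have h3 := X.al_lt h
    unfold fs
    rw [if_pos rfl, h2, show (nb G v).card - 1 + 1 = 0 + (nb G v).card by omega, cf_period X.M0 X.hb]

theorem af_Lf {v : V} {j : ℕ} (h : j < X.na v) : X.af (X.Lf v j) := by
  obtain ⟨i, hi, h1⟩ : ∃ i, i < X.na v ∧ (i + 1) % X.na v = j := by
    rcases Nat.eq_zero_or_pos j with h0 | h0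
    · exact ⟨X.na v - 1, by omega, by rw [show X.na v - 1 + 1 = X.na v by omega, Nat.mod_self, h0]⟩
    · exact ⟨j - 1, by omega, by rw [show j - 1 + 1 = j by omega, Nat.mod_eq_of_lt h]⟩
  rw [← h1, ← X.nxt_Rf hi, X.af_nxt]
  exact X.af_Rf hi

/-- every allowed flag is the flag of an allowed corner -/
theorem exists_Rf {p : Flag G} (h : X.af p) : ∃ j, j < X.na p.1.fst ∧ (p = X.Rf p.1.fst j ∨ X.M0.nxt p = X.Rf p.1.fst j) := by
  obtain ⟨i, hi, h1⟩ : ∃ i, i < (nb G p.1.fst).card ∧ (p = cf X.M0 X.b p.1.fst i ∨ X.M0.nxt p = cf X.M0 X.b p.1.fst i) := by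
    obtain ⟨i, hi, h1 | h1⟩ := cf_cover X.M0 X.hb p.1.fst p rfl
    · exact ⟨i, hi, Or.inl h1⟩
    · rcases Nat.eq_zero_or_pos i with h0 | h0
      · refine ⟨(nb G p.1.fst).card - 1, by omega, Or.inr ?_⟩
        have h2 := nxt_side_cf X.M0 X.b p.1.fst ((nb G p.1.fst).card - 1)
        rw [show (nb G p.1.fst).card - 1 + 1 = 0 + (nb G p.1.fst).card by omega, cf_period X.M0 X.hb, ← h0, ← h1] at h2
        exact h2
      · refine ⟨i - 1, by omega, Or.inr ?_⟩
        have h2 := nxt_side_cf X.M0 X.b p.1.fst (i - 1)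
        rw [show i - 1 + 1 = i by omega, ← h1] at h2
        exact h2
  have h2 : X.ok p.1.fst i := by
    unfold ok
    rcases h1 with h1 | h1
    · rw [← h1]
      exact h
    · rw [← h1, X.af_nxt]
      exact h
  obtain ⟨j, hj, h3⟩ := X.al_surj hi h2
  refine ⟨j, hj, ?_⟩
  unfold Rf
  rw [h3]
  exact h1

theorem Rf_inj {v : V} {i j : ℕ} (hi : i < X.na v) (hj : j < X.na v) (h : X.Rf v i = X.Rf v j) : i = j :=
  X.al_inj hi hj (cf_inj X.M0 X.hb v (X.al_lt hi) (X.al_lt hj) h)

theorem Rf_ne_nxt {v : V} {i j : ℕ} : X.Rf v i ≠ X.M0.nxt (X.Rf v j) := by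
  unfold Rf
  rw [nxt_cf]
  exact cf_ne_side X.M0 X.b v _ _

end Pce

end Pool.Agent.RPH
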