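import Pool.Agent.RPH.THit
import Pool.Agent.EPH.LSys

/-!
# RPH-LCcp: the functional of a corner, by its flags
-/

set_option autoImplicit false

open Finset
open scoped Classical

namespace Pool.Agent.RPH

open Pool.Agent.EPH Pool.Agent.BEO
open Pool.Agent.Helper35.OG hiding F2 dg

variable {V : Type} {G : SimpleGraph V} [Fintype V]

/-- the functional of the corner of `p` -/
noncomputable def ccp (T : GMap G) (b : V → Flag G) (p : Flag G) : cyc G →ₗ[F2] F2 :=
  if h : ∃ i, i < (nb G p.1.fst).card ∧ AtC T b p.1.fst i p then cc T b p.1.fst (Classical.choose h) else 0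

private theorem lccp_at (T : GMap G) {b : V → Flag G} (hb : IsBase b) {v : V} {i : ℕ} (hi : i < (nb G v).card)
    {p : Flag G} (hp : AtC T b v i p) : ccp T b p = cc T b v i := by
  have h1 := (atC_fst T hb hp).1
  subst h1
  have h : ∃ i, i < (nb G p.1.fst).card ∧ AtC T b p.1.fst i p := ⟨i, hi, hp⟩
  unfold ccp
  rw [dif_pos h]
  obtain ⟨h2, h3⟩ := Classical.choose_spec h
  have h4 : i = Classical.choose h := by
    rcases hp with h5 | h5
    · have h6 : AtC T b p.1.fst (Classical.choose h) (cf T b p.1.fst i) := by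
        rw [← h5]; exact h3
      exact ((atC_cf T hb hi h2).1 h6).2
    · have h6 : AtC T b p.1.fst (Classical.choose h) (T.nxt (cf T b p.1.fst i)) := by
        rw [← h5]; exact h3
      rw [atC_nxt] at h6
      exact ((atC_cf T hb hi h2).1 h6).2
  rw [← h4]

/-- every flag is at a corner -/
private theorem lccp_ex (T : GMap G) {b : V → Flag G} (hb : IsBase b) (p : Flag G) :
    ∃ i, i < (nb G p.1.fst).card ∧ AtC T b p.1.fst i p := by
  obtain ⟨i, hi, h | h⟩ := cf_cover T hb p.1.fst p rfl
  · exact ⟨i, hi, Or.inl h⟩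
  · rcases Nat.eq_zero_or_pos i with h0 | h0
    · refine ⟨(nb G p.1.fst).card - 1, by omega, Or.inr ?_⟩
      rw [nxt_cf, show (nb G p.1.fst).card - 1 + 1 = 0 + (nb G p.1.fst).card by omega, cf_period T hb, ← h0]
      exact h
    · refine ⟨i - 1, by omega, Or.inr ?_⟩
      rw [nxt_cf, show i - 1 + 1 = i by omega]
      exact h

private theorem lccp_self (x : F2) : x + x = 0 := CharTwo.add_self_eq_zero x

private theorem lccp_cc (T : GMap G) (b : V → Flag G) (z : cyc G) (v : V) (t : ℕ) :
    cc T b v (t + 1) z = cc T b v t z + z.1 (ed (cf T b v (t + 1))) := by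
  show ∑ t ∈ Icc 1 (t + 1), z.1 (ed (cf T b v t)) = ∑ t ∈ Icc 1 t, z.1 (ed (cf T b v t)) + _
  rw [Finset.sum_Icc_succ_top (by omega)]

/-- the other corner at a dart -/
private theorem lccp_prev (T : GMap G) {b : V → Flag G} (hb : IsBase b) (z : cyc G) (v : V) (m : ℕ)
    (hm : m < (nb G v).card) :
    ∃ p, p < (nb G v).card ∧ AtC T b v p (side (cf T b v m)) ∧
      cc T b v m z + cc T b v p z = z.1 (ed (cf T b v m)) := by
  rcases Nat.eq_zero_or_pos m with h0 | h0
  · refine ⟨(nb G v).card - 1, by omega, Or.inr ?_, ?_⟩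
    · rw [nxt_cf, show (nb G v).card - 1 + 1 = 0 + (nb G v).card by omega, cf_period T hb, h0]
    · have h1 := lccp_cc T b z v ((nb G v).card - 1)
      rw [show (nb G v).card - 1 + 1 = (nb G v).card by omega] at h1
      have h2 : cc T b v (nb G v).card z = 0 := cyc_zero T hb v z
      have h3 : cf T b v (nb G v).card = cf T b v 0 := by
        have a7 := cf_period T hb v 0
        rwa [zero_add] at a7
      have h4 : cc T b v 0 z = 0 := by
        show ∑ t ∈ Icc 1 0, z.1 (ed (cf T b v t)) = 0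
        rfl
      rw [h2, h3] at h1
      rw [h0, h4]
      linear_combination (-1 : F2) * h1 - lccp_self (z.1 (ed (cf T b v 0)))
  · obtain ⟨p, rfl⟩ := Nat.exists_eq_succ_of_ne_zero h0.ne'
    refine ⟨p, by omega, Or.inr (nxt_cf T b v p).symm, ?_⟩
    rw [Nat.succ_eq_add_one, lccp_cc]
    linear_combination lccp_self (cc T b v p z)

theorem ccp_cf (T : GMap G) {b : V → Flag G} (hb : IsBase b) {v : V} {i : ℕ} (hi : i < (nb G v).card) :
    ccp T b (cf T b v i) = cc T b v i :=
  lccp_at T hb hi (Or.inl rfl)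

theorem ccp_nxt (T : GMap G) {b : V → Flag G} (hb : IsBase b) (p : Flag G) : ccp T b (T.nxt p) = ccp T b p := by
  obtain ⟨i, hi, h⟩ := lccp_ex T hb p
  rw [lccp_at T hb hi h, lccp_at T hb hi ((atC_nxt T _ _ _).2 h)]

theorem ccp_side (T : GMap G) {b : V → Flag G} (hb : IsBase b) (p : Flag G) (z : cyc G) :
    ccp T b p z + ccp T b (side p) z = z.1 (ed p) := by
  obtain ⟨i, hi, h | h⟩ := cf_cover T hb p.1.fst p rfl
  · obtain ⟨j, hj, h1, h2⟩ := lccp_prev T hb z p.1.fst i hi
    rw [← h] at h1 h2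
    rw [lccp_at T hb hi (Or.inl h), lccp_at T hb hj h1]
    exact h2
  · obtain ⟨j, hj, h1, h2⟩ := lccp_prev T hb z p.1.fst i hi
    have h3 : side p = cf T b p.1.fst i := by
      conv_lhs => rw [h]
      exact side_side _
    rw [← h] at h1
    rw [← h3] at h2
    rw [lccp_at T hb hj h1, lccp_at T hb hi (p := side p) (Or.inl h3), add_comm]
    exact h2

theorem ccp_bd (T : GMap G) {b : V → Flag G} (hb : IsBase b) (p : Flag G) (F : T.Face) :
    ccp T b p (bdF T F) = (if T.face p = F then 1 else 0) + (if T.face (b p.1.fst) = F then 1 else 0) := by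
  obtain ⟨i, hi, h⟩ := lccp_ex T hb p
  rw [lccp_at T hb hi h, cc_bd, ← (atC_fst T hb h).2]
  rfl

end Pool.Agent.RPH
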