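import Pool.Agent.RPH.LAl
import Pool.Agent.RPH.TRect

/-!
# RPH-LDic: the faces of the allowed corners
-/

set_option autoImplicit false

open Finset
open scoped Classical

namespace Pool.Agent.RPH

open Pool.Agent.EPH Pool.Agent.BEO
open Pool.Agent.Helper35.OG hiding F2 dg

variable {V : Type} {G : SimpleGraph V} [Fintype V]

namespace Pce

variable (X : Pce G)

theorem fcs_inl {p : Flag G} {F : X.S.Face} : X.fcs p = Sum.inl F ↔ X.gc p ∧ X.S.face p = F := by
  unfold fcs
  by_cases h : X.gc p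
  · rw [if_pos h]
    exact ⟨fun h1 => ⟨h, Sum.inl.inj h1⟩, fun h1 => congrArg Sum.inl h1.2⟩
  · rw [if_neg h]
    exact ⟨fun h1 => (nomatch h1), fun h1 => absurd h1.1 h⟩

theorem fcs_inr {p q : Flag G} : X.fcs p = Sum.inr q ↔ ¬ X.gc p ∧ p = q := by
  unfold fcs
  by_cases h : X.gc p
  · rw [if_pos h]
    exact ⟨fun h1 => (nomatch h1), fun h1 => absurd h h1.1⟩
  · rw [if_neg h]
    exact ⟨fun h1 => ⟨h, Sum.inr.inj h1⟩, fun h1 => congrArg Sum.inr h1.2⟩

theorem inl_nB {F : X.S.Face} : Sum.inl F ∉ X.B ↔ X.cpl F ∨ ∀ p, X.S.face p = F → ¬ X.gc p := by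
  unfold B isB
  rw [mem_filter]
  simp only [mem_univ, true_and, Sum.elim_inl]
  constructor
  · intro h
    by_cases h1 : ∃ p, X.S.face p = F ∧ X.gc p
    · left
      intro p hp
      by_contra h2
      exact h ⟨h1, p, hp, h2⟩
    · right
      intro p hp h2
      exact h1 ⟨p, hp, h2⟩
  · rintro (h | h) ⟨⟨p, h1, h2⟩, q, h3, h4⟩
    · exact h4 (h q h3)
    · exact h p h1 h2

theorem fcs_nB {p : Flag G} (ha : X.af p) (h : X.fcs p ∉ X.B) : X.gc p ∧ X.cpl (X.S.face p) := by
  by_cases h1 : X.gc p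
  · refine ⟨h1, ?_⟩
    rw [X.fcs_inl.2 ⟨h1, rfl⟩, X.inl_nB] at h
    rcases h with h | h
    · exact h
    · exact absurd h1 (h p rfl)
  · exfalso
    apply h
    rw [X.fcs_inr.2 ⟨h1, rfl⟩]
    unfold B isB
    rw [mem_filter]
    exact ⟨mem_univ _, ha, h1⟩

/-- the complete faces of `S` are faces of `M0` -/
theorem face_iff {F : X.S.Face} (hF : X.cpl F) (p : Flag G) : X.M0.face p = X.mf F ↔ X.S.face p = F := by
  have key : ∀ x y : Flag G, (y = X.M0.nxt x ∨ y = across x) → (X.S.face x = F ↔ X.S.face y = F) := by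
    rintro x y (h | h)
    · constructor
      · intro h1
        rw [h, X.gc_eq (hF x h1), face_nxt]
        exact h1
      · intro h1
        have h2 : x = X.M0.nxt y := by rw [h, X.M0.nxt_nxt]
        rw [h2, X.gc_eq (hF y h1), face_nxt]
        exact h1
    · rw [h, face_across]
  constructor
  · intro h
    have h0 : Relation.EqvGen (fun p q : Flag G => q = X.M0.nxt p ∨ q = across p) p (X.rep F) := Quot.eqvGen_exact h
    have h1 : ∀ x y : Flag G, Relation.EqvGen (fun p q : Flag G => q = X.M0.nxt p ∨ q = across p) x y →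
        (X.S.face x = F ↔ X.S.face y = F) := by
      intro x y hxy
      induction hxy with
      | rel x y h => exact key x y h
      | refl x => exact Iff.rfl
      | symm x y _ ih => exact ih.symm
      | trans x y z _ _ ih1 ih2 => exact ih1.trans ih2
    exact (h1 _ _ h0).2 (X.rep_eq F)
  · intro h
    have h0 : Relation.EqvGen (fun p q : Flag G => q = X.S.nxt p ∨ q = across p) p (X.rep F) :=
      Quot.eqvGen_exact (h.trans (X.rep_eq F).symm)
    have h1 : ∀ x y : Flag G, Relation.EqvGen (fun p q : Flag G => q = X.S.nxt p ∨ q = across p) x y →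
        X.S.face x = F → X.M0.face x = X.M0.face y := by
      intro x y hxy
      induction hxy with
      | rel x y h =>
        intro h1
        rcases h with h | h
        · rw [h, ← X.gc_eq (hF x h1), face_nxt]
        · rw [h, face_across]
      | refl x => exact fun _ => rfl
      | symm x y h ih =>
        intro h1
        have h2 : X.S.face x = X.S.face y := Quot.eqvGen_sound h
        exact (ih (h2.trans h1)).symm
      | trans x y z h h' ih1 ih2 =>
        intro h1
        have h2 : X.S.face x = X.S.face y := Quot.eqvGen_sound h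
        exact (ih1 h1).trans (ih2 (h2.symm.trans h1))
    exact h1 _ _ h0 h

theorem one_cpl {F : X.S.Face} (hF : X.cpl F) : One X.M0 (X.mf F) := by
  intro p q h h1 h2
  rw [X.face_iff hF] at h1 h2
  have h3 := hF p h1
  have h4 := hF q h2
  rcases X.lf.one p q ⟨h3.1.1.1.1, h3.1.2.1.1, h3.2⟩ ⟨h4.1.1.1.1, h4.1.2.1.1, h4.2⟩ h (h1.trans h2.symm) with
    h5 | h5
  · exact Or.inl h5
  · rw [X.gc_eq h3]
    exact Or.inr h5

theorem mf_inj {F F' : X.S.Face} (hF : X.cpl F) (hF' : X.cpl F') (h : X.mf F = X.mf F') : F = F' := by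
  have h1 := (X.face_iff hF' (X.rep F)).1 h
  rw [X.rep_eq] at h1
  exact h1

theorem gd_of_gc {p : Flag G} (h : X.gc p) : FGT.Gd X.S (FGT.rk X.K) X.Q p := ⟨h.1.1.1.1, h.1.2.1.1, h.2⟩

theorem fcs_inj {v : V} {i j : ℕ} (hi : i < X.na v) (hj : j < X.na v) (h : X.fcs (X.Rf v i) = X.fcs (X.Rf v j)) :
    i = j := by
  by_cases h1 : X.gc (X.Rf v j)
  · rw [X.fcs_inl.2 ⟨h1, rfl⟩, X.fcs_inl] at h
    rcases X.lf.one (X.Rf v i) (X.Rf v j) (X.gd_of_gc h.1) (X.gd_of_gc h1) ((X.Rf_fst v i).trans (X.Rf_fst v j).symm)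
      h.2 with h2 | h2
    · exact (X.Rf_inj hj hi h2).symm
    · rw [← X.gc_eq h.1] at h2
      exact absurd h2 X.Rf_ne_nxt
  · rw [X.fcs_inr.2 ⟨h1, rfl⟩, X.fcs_inr] at h
    exact X.Rf_inj hi hj h.2

/-- the allowed corners -/
noncomputable def corP : Cor (X.S.Face ⊕ Flag G) V where
  d := X.na
  fc v i := X.fcs (X.Rf v i)
  inj _ _ _ hi hj h := X.fcs_inj hi hj h

end Pce

end Pool.Agent.RPH
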