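import Pool.Agent.RPH.LSysD

/-!
# RPH-LEmb: the chords of the allowed corners as chords of all corners

The numbers of chords in `lam.image X.emb` are those of `lam` with the arguments counted by `X.ct` (`em_cnt`). In `real_emb` the
degenerate cases have an empty range.
-/

set_option autoImplicit false

open Finset
open scoped Classical

namespace Pool.Agent.RPH

open Pool.Agent.EPH Pool.Agent.BEO
open Pool.Agent.Helper35.OG hiding F2 dg

variable {V : Type} {G : SimpleGraph V} [Fintype V]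

namespace Pce

variable (X : Pce G)

/-- a chord of allowed corners as a chord of all corners -/
noncomputable def emb (e : Ch X.corP) : Ch (corF X.M0 X.b X.hb) :=
  ⟨⟨e.vx, (⟨X.al e.vx e.lo, X.al_lt (X.e_lo e)⟩, ⟨X.al e.vx e.hi, X.al_lt (X.e_hi e)⟩)⟩, X.al_mono (X.e_lt e) (X.e_hi e)⟩

theorem emb_vx (e : Ch X.corP) : (X.emb e).vx = e.vx := rfl

theorem emb_lo (e : Ch X.corP) : (X.emb e).lo = X.al e.vx e.lo := rfl

theorem emb_hi (e : Ch X.corP) : (X.emb e).hi = X.al e.vx e.hi := rfl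

private theorem em_ext {Φ Vt : Type} {P : Cor Φ Vt} {e e' : Ch P} (h1 : e.vx = e'.vx) (h2 : e.lo = e'.lo)
    (h3 : e.hi = e'.hi) : e = e' := by
  rcases e with ⟨⟨v, ⟨⟨a, ha⟩, ⟨b, hb⟩⟩⟩, h⟩
  rcases e' with ⟨⟨v', ⟨⟨a', ha'⟩, ⟨b', hb'⟩⟩⟩, h'⟩
  simp only [Ch.vx, Ch.lo, Ch.hi] at h1 h2 h3
  subst h1
  subst h2
  subst h3
  rfl

theorem emb_inj : Function.Injective X.emb := by
  intro e e' h
  have h1 : (X.emb e).vx = (X.emb e').vx := congrArg Ch.vx h
  have h2 : (X.emb e).lo = (X.emb e').lo := congrArg Ch.lo h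
  have h3 : (X.emb e).hi = (X.emb e').hi := congrArg Ch.hi h
  rw [emb_vx, emb_vx] at h1
  rw [emb_lo, emb_lo] at h2
  rw [emb_hi, emb_hi] at h3
  have h4 := X.e_lo e'
  have h5 := X.e_hi e'
  rw [← h1] at h2 h3 h4 h5
  exact em_ext h1 (X.al_inj (X.e_lo e) h4 h2) (X.al_inj (X.e_hi e) h5 h3)

private theorem em_card (lam : Finset (Ch X.corP)) (p : Ch (corF X.M0 X.b X.hb) → Prop) (q : Ch X.corP → Prop)
    [DecidablePred p] [DecidablePred q] (h : ∀ e, p (X.emb e) ↔ q e) : ((lam.image X.emb).filter p).card = (lam.filter q).card := by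
  have h1 : (lam.image X.emb).filter p = (lam.filter q).image X.emb := by
    ext e
    rw [Finset.mem_filter, Finset.mem_image, Finset.mem_image]
    constructor
    · rintro ⟨⟨e0, h1, rfl⟩, h2⟩
      exact ⟨e0, Finset.mem_filter.2 ⟨h1, (h e0).1 h2⟩, rfl⟩
    · rintro ⟨e0, h1, rfl⟩
      have h2 := Finset.mem_filter.1 h1
      exact ⟨⟨e0, h2.1, rfl⟩, (h e0).2 h2.2⟩
  rw [h1, Finset.card_image_of_injective _ X.emb_inj]

private theorem em_cnt (lam : Finset (Ch X.corP)) (v : V) (a b c f : ℕ) :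
    cnt (lam.image X.emb) v a b c f = cnt lam v (X.ct v a) (X.ct v b) (X.ct v c) (X.ct v f) := by
  unfold cnt
  refine X.em_card lam _ _ fun e => ?_
  rw [emb_vx, emb_lo, emb_hi]
  constructor
  · rintro ⟨rfl, h1, h2, h3, h4⟩
    refine ⟨rfl, ?_, (X.lt_ct_iff (X.e_lo e)).2 h2, ?_, (X.lt_ct_iff (X.e_hi e)).2 h4⟩
    · by_contra hc
      have := (X.lt_ct_iff (X.e_lo e)).1 (not_le.1 hc)
      omega
    · by_contra hc
      have := (X.lt_ct_iff (X.e_hi e)).1 (not_le.1 hc)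
      omega
  · rintro ⟨rfl, h1, h2, h3, h4⟩
    refine ⟨rfl, ?_, (X.lt_ct_iff (X.e_lo e)).1 h2, ?_, (X.lt_ct_iff (X.e_hi e)).1 h4⟩
    · by_contra hc
      have := (X.lt_ct_iff (X.e_lo e)).2 (not_le.1 hc)
      omega
    · by_contra hc
      have := (X.lt_ct_iff (X.e_hi e)).2 (not_le.1 hc)
      omega

private theorem em_zero {Φ Vt : Type} {P : Cor Φ Vt} (lam : Finset (Ch P)) (v : Vt) {a b c f : ℕ} (h : b ≤ a ∨ f ≤ c) :
    ¬ Odd (cnt lam v a b c f) := by
  have h0 : cnt lam v a b c f = 0 := by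
    unfold cnt
    rw [Finset.card_eq_zero, Finset.filter_eq_empty_iff]
    rintro e - ⟨-, h1, h2, h3, h4⟩
    omega
  rw [h0]
  decide

theorem real_emb (lam : Finset (Ch X.corP)) : Real (corF X.M0 X.b X.hb) (lam.image X.emb) ↔ Real X.corP lam := by
  constructor
  · intro h v l m n h1 h2 h3 h4
    have h4' : n < X.na v := h4
    have h5 : 0 < X.al v l := lt_of_le_of_lt (Nat.zero_le _) (X.al_mono h1 (by omega))
    have h6 : X.al v l < X.al v m := X.al_mono h2 (by omega)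
    have h7 : X.al v m < X.al v n := X.al_mono h3 h4'
    have h8 := h v _ _ _ h5 h6 h7 (X.al_lt h4')
    rw [em_cnt, em_cnt] at h8
    have h9 : X.ct v 0 = 0 := rfl
    have h10 : X.ct v ((corF X.M0 X.b X.hb).d v) = X.corP.d v := rfl
    rw [h9, h10, X.ct_al (show l < X.na v by omega), X.ct_al (show m < X.na v by omega), X.ct_al h4'] at h8
    exact h8
  · intro h v l m n h1 h2 h3 h4
    rw [em_cnt, em_cnt]
    have h9 : X.ct v 0 = 0 := rfl
    have h10 : X.ct v ((corF X.M0 X.b X.hb).d v) = X.corP.d v := rfl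
    rw [h9, h10]
    have h5 := X.ct_mono v h2.le
    have h6 := X.ct_mono v h3.le
    have h7 : X.ct v n ≤ X.corP.d v := by
      rw [← h10]
      exact X.ct_mono v h4.le
    rintro ⟨o1, o2⟩
    by_cases h8 : 0 < X.ct v l
    · by_cases h11 : X.ct v l < X.ct v m
      · by_cases h12 : X.ct v m < X.ct v n
        · by_cases h13 : X.ct v n < X.corP.d v
          · exact h v _ _ _ h8 h11 h12 h13 ⟨o1, o2⟩
          · exact em_zero lam v (Or.inr (not_lt.1 h13)) o2
        · exact em_zero lam v (Or.inr (not_lt.1 h12)) o1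
      · exact em_zero lam v (Or.inl (not_lt.1 h11)) o2
    · exact em_zero lam v (Or.inl (not_lt.1 h8)) o1

theorem ovr_emb (lam : Finset (Ch X.corP)) (v : V) (l m : ℕ) :
    ovr (lam.image X.emb) v l m = ovr lam v (X.ct v l) (X.ct v m) := by
  unfold ovr
  refine X.em_card lam _ _ fun e => ?_
  rw [emb_vx, emb_lo, emb_hi]
  constructor
  · rintro ⟨rfl, h1, h2, h3, h4⟩
    refine ⟨rfl, (X.lt_ct_iff (X.e_lo e)).2 h1, ?_, (X.lt_ct_iff (X.e_lo e)).2 h3, ?_⟩
    · by_contra hc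
      have := (X.lt_ct_iff (X.e_hi e)).1 (not_le.1 hc)
      omega
    · by_contra hc
      have := (X.lt_ct_iff (X.e_hi e)).1 (not_le.1 hc)
      omega
  · rintro ⟨rfl, h1, h2, h3, h4⟩
    refine ⟨rfl, (X.lt_ct_iff (X.e_lo e)).1 h1, ?_, (X.lt_ct_iff (X.e_lo e)).1 h3, ?_⟩
    · by_contra hc
      have := (X.lt_ct_iff (X.e_hi e)).2 (not_le.1 hc)
      omega
    · by_contra hc
      have := (X.lt_ct_iff (X.e_hi e)).2 (not_le.1 hc)
      omega

theorem exists_emb (lam' : Finset (Ch (corF X.M0 X.b X.hb))) (h : ∀ e ∈ lam', X.ok e.vx e.lo ∧ X.ok e.vx e.hi) :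
    ∃ lam : Finset (Ch X.corP), lam' = lam.image X.emb := by
  refine ⟨univ.filter fun e => X.emb e ∈ lam', ?_⟩
  ext e'
  rw [Finset.mem_image]
  constructor
  · intro he
    obtain ⟨h1, h2⟩ := h e' he
    have hlo : e'.lo < (nb G e'.vx).card := e'.1.2.1.2
    have hhi : e'.hi < (nb G e'.vx).card := e'.1.2.2.2
    have hlt : e'.lo < e'.hi := e'.2
    obtain ⟨a, ha, ha'⟩ := X.al_surj hlo h1
    obtain ⟨b, hb, hb'⟩ := X.al_surj hhi h2
    have hab : a < b := by
      by_contra hc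
      rcases (not_lt.1 hc).lt_or_eq with h3 | h3
      · have := X.al_mono h3 ha
        omega
      · rw [h3] at hb'
        omega
    have hemb : X.emb ⟨⟨e'.vx, (⟨a, ha⟩, ⟨b, hb⟩)⟩, hab⟩ = e' := em_ext rfl ha' hb'
    refine ⟨⟨⟨e'.vx, (⟨a, ha⟩, ⟨b, hb⟩)⟩, hab⟩, ?_, hemb⟩
    refine Finset.mem_filter.2 ⟨Finset.mem_univ _, ?_⟩
    rw [hemb]
    exact he
  · rintro ⟨e, he, rfl⟩
    exact (Finset.mem_filter.1 he).2

end Pce

end Pool.Agent.RPH
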