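import Pool.Agent.RPH.LAdj

/-!
# RPH-LPolR: two faces and their common vertices

PLAN. `two_dart`: `F` and `F'` are not dummies: `fcs (Rf v i) = F = fcs (Rf v' i')` with `v ≠ v'`; if the first flag is not good then `F = inr (Rf v i)`
(`fcs_inr`) and so `Rf v' i' = Rf v i`, contradicting `Rf_fst`. So all four flags are good and `F = inl (S.face ..)` (`fcs_inl`); `X.lf.two` for
`p := Rf v i`, `q := Rf v j`, `p' := Rf v' i'`, `q' := Rf v' j'` (`gd_of_gc`) gives `r`; replace `S.nxt p` by `M0.nxt p` (`gc_eq`).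
`polP`: `two`: `two_dart` and `nxt_of_dart` (LAdj; the hypothesis `On P v' F` gives `i'` etc.; the index of `F` at `v` is unique by `corP.inj`).
`faces`: `two_dart` for `(F, F')` and for `(F, L)`, both at `v, v'` with the same index `i` of `F` at `v`, gives `r`, `r2`, both from `v` to `v'`, so
`r.1 = r2.1` (a dart is determined by its ends: `SimpleGraph.Dart.ext`, `Prod.ext`), `r2 = r` or `r2 = side r`. If `r2 = r` then `side r` is in the
corner of `F'` and in the corner of `L`: `Rf v j` and `Rf v l` are equal or `nxt` of each other, so equal (`Rf_inj`, `Rf_ne_nxt`), `F' = L`. If `r2 = side r` then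
`side r` is in the corners `F'` and `F`: `F = F'`. `three`: `two_dart` for `v, v'`, for `v, v''` and for `v', v''` gives the darts `r : v → v'`,
`r' : v → v''`, `r'' : v' → v''` with `ed ∈ D = rk K` (an edge of `rk K` has an end in `K`: unfold `FGT.rk`), so at least two of the three vertices
are in `K`, in particular one of them, say `u`, and at `u` there are two different darts (`x`, `y`, different heads), both with the corner of `F` on one side and the corner of `F'`
on the other side: `x ∈ {p, nxt p}`, `side x ∈ {q, nxt q}`, `y ∈ {p, nxt p}`, `side y ∈ {q, nxt q}` where `p := Rf u i`, `q := Rf u j` (`nxt := X.M0.nxt`).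
As `x ≠ y`: `y = nxt x`, `side y = nxt (side x)`. So the set `{x, y, side x, side y}` is closed under `nxt` and `side`, and all flags
at `u` are in it (`X.M0.conn`), so `u` has only the two neighbours `x.1.snd`, `y.1.snd`: contradiction to `X.lf.deg u`.
(For the other two vertices exchange the roles; it may help to prove first a lemma with the hypotheses: `u ∈ K`, `x`, `y` flags at `u` with
different darts, `i, j < na u`, `i ≠ j`, and the four membership facts, conclusion `False`.)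
-/

set_option autoImplicit false

open Finset
open scoped Classical

namespace Pool.Agent.RPH

open Pool.Agent.EPH Pool.Agent.BEO
open Pool.Agent.Helper35.OG hiding F2 dg

variable {V : Type} {G : SimpleGraph V} [Fintype V]

namespace Pce

variable (X : Pce G)

private theorem lpr_gc {v v' : V} (hv : v ≠ v') {i i' : ℕ} (h : X.fcs (X.Rf v i) = X.fcs (X.Rf v' i')) :
    X.gc (X.Rf v i) ∧ X.gc (X.Rf v' i') ∧ X.S.face (X.Rf v i) = X.S.face (X.Rf v' i') := by
  by_cases h1 : X.gc (X.Rf v' i')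
  · have h2 := h
    rw [X.fcs_inl.2 ⟨h1, rfl⟩, X.fcs_inl] at h2
    exact ⟨h2.1, h1, h2.2⟩
  · exfalso
    rw [X.fcs_inr.2 ⟨h1, rfl⟩, X.fcs_inr] at h
    exact hv ((X.Rf_fst v i).symm.trans ((congrArg (fun p : Flag G => p.1.fst) h.2).trans (X.Rf_fst v' i')))

/-- two faces with two common vertices are on the two sides of an edge joining them -/
theorem two_dart {v v' : V} (hv : v ≠ v') {i j i' j' : ℕ} (hi : i < X.na v) (hj : j < X.na v) (hi' : i' < X.na v')
    (hj' : j' < X.na v') (hij : i ≠ j) (h1 : X.fcs (X.Rf v i) = X.fcs (X.Rf v' i'))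
    (h2 : X.fcs (X.Rf v j) = X.fcs (X.Rf v' j')) :
    ∃ r : Flag G, r.1.fst = v ∧ r.1.snd = v' ∧ ed r ∈ X.D ∧ (r = X.Rf v i ∨ r = X.M0.nxt (X.Rf v i)) ∧
      (side r = X.Rf v j ∨ side r = X.M0.nxt (X.Rf v j)) ∧
      (across r = X.Rf v' i' ∨ across r = X.M0.nxt (X.Rf v' i')) ∧
      (side (across r) = X.Rf v' j' ∨ side (across r) = X.M0.nxt (X.Rf v' j')) := by
  obtain ⟨g1, g2, e1⟩ := X.lpr_gc hv h1
  obtain ⟨g3, g4, e2⟩ := X.lpr_gc hv h2
  have hne : X.S.face (X.Rf v i) ≠ X.S.face (X.Rf v j) := by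
    intro h
    apply hij
    apply X.fcs_inj hi hj
    rw [X.fcs_inl.2 ⟨g1, rfl⟩, X.fcs_inl.2 ⟨g3, rfl⟩, h]
  obtain ⟨r, hr1, hr2, hr3, hr4, hr5, hr6, hr7⟩ := X.lf.two (X.Rf v i) (X.Rf v j) (X.Rf v' i') (X.Rf v' j')
    (X.gd_of_gc g1) (X.gd_of_gc g3) (X.gd_of_gc g2) (X.gd_of_gc g4) ((X.Rf_fst v i).trans (X.Rf_fst v j).symm)
    ((X.Rf_fst v' i').trans (X.Rf_fst v' j').symm)
    (fun h => hv ((X.Rf_fst v i).symm.trans (h.trans (X.Rf_fst v' i')))) e1 e2 hne
  have key : ∀ (p x : Flag G), X.gc p → (p = x ∨ p = X.S.nxt x) → (x = p ∨ x = X.M0.nxt p) := by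
    rintro p x hp (h | h)
    · exact Or.inl h.symm
    · right
      rw [X.gc_eq hp, h, X.S.nxt_nxt]
  exact ⟨r, hr1.trans (X.Rf_fst v i), hr2.trans (X.Rf_fst v' i'), hr3, key _ _ g1 hr4, key _ _ g3 hr5,
    key _ _ g2 hr6, key _ _ g4 hr7⟩

private theorem lpr_uniq {v : V} {i j : ℕ} (hi : i < X.na v) (hj : j < X.na v) (x : Flag G)
    (h1 : x = X.Rf v i ∨ x = X.M0.nxt (X.Rf v i)) (h2 : x = X.Rf v j ∨ x = X.M0.nxt (X.Rf v j)) : i = j := by
  rcases h1 with h1 | h1
  · rcases h2 with h2 | h2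
    · exact X.Rf_inj hi hj (h1.symm.trans h2)
    · exact absurd (h1.symm.trans h2) X.Rf_ne_nxt
  · rcases h2 with h2 | h2
    · exact absurd (h2.symm.trans h1) X.Rf_ne_nxt
    · exact X.Rf_inj hi hj (nxt_inj X.M0 (h1.symm.trans h2))

private theorem lpr_nxt {v : V} {i : ℕ} (x y : Flag G) (hxy : x ≠ y)
    (h1 : x = X.Rf v i ∨ x = X.M0.nxt (X.Rf v i)) (h2 : y = X.Rf v i ∨ y = X.M0.nxt (X.Rf v i)) :
    y = X.M0.nxt x := by
  rcases h1 with h1 | h1
  · rcases h2 with h2 | h2
    · exact absurd (h1.trans h2.symm) hxy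
    · rw [h2, h1]
  · rcases h2 with h2 | h2
    · rw [h2, h1, X.M0.nxt_nxt]
    · exact absurd (h1.trans h2.symm) hxy

private theorem lpr_deg {u : V} (hu : u ∈ X.K) {i j : ℕ} (x y : Flag G) (hx : x.1.fst = u) (hxy : x.1.snd ≠ y.1.snd)
    (h1 : x = X.Rf u i ∨ x = X.M0.nxt (X.Rf u i)) (h2 : side x = X.Rf u j ∨ side x = X.M0.nxt (X.Rf u j))
    (h3 : y = X.Rf u i ∨ y = X.M0.nxt (X.Rf u i)) (h4 : side y = X.Rf u j ∨ side y = X.M0.nxt (X.Rf u j)) :
    False := by
  have hne : x ≠ y := by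
    rintro rfl
    exact hxy rfl
  have hne' : side x ≠ side y := by
    intro h
    apply hne
    have h5 := congrArg side h
    rwa [side_side, side_side] at h5
  have h5 : y = X.M0.nxt x := X.lpr_nxt x y hne h1 h3
  have h6 : side y = X.M0.nxt (side x) := X.lpr_nxt (side x) (side y) hne' h2 h4
  have h7 : (rot X.M0)^[2] x = (rot X.M0)^[0] x := by
    show side (X.M0.nxt (side (X.M0.nxt x))) = x
    rw [← h5, h6, X.M0.nxt_nxt, side_side]
  have h8 := X.lf.deg u hu
  rw [← hx] at h8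
  have h9 := (rot_orbit X.M0 x).2.1 2 0 (by omega) (by omega) h7
  omega

private theorem lpr_end (r : Flag G) (h : ed r ∈ X.D) : r.1.fst ∈ X.K ∨ r.1.snd ∈ X.K := by
  unfold D FGT.rk at h
  rw [mem_filter] at h
  obtain ⟨_, w, hw, h1⟩ := h
  have h2 : w = r.1.fst ∨ w = r.1.snd := by
    have h3 : w ∈ s(r.1.fst, r.1.snd) := h1
    exact Sym2.mem_iff.1 h3
  rcases h2 with h2 | h2
  · exact Or.inl (h2 ▸ hw)
  · exact Or.inr (h2 ▸ hw)

theorem polP : Pol X.corP where
  two := by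
    rintro v v' F F' hv hF _ _ ⟨i', hi', h1⟩ ⟨j', hj', h2⟩ i j hi hj h3 h4
    have hij : i ≠ j := by
      rintro rfl
      exact hF (h3.symm.trans h4)
    obtain ⟨r, _, _, _, hr4, hr5, _, _⟩ := X.two_dart hv (i := i) (j := j) (i' := i') (j' := j') hi hj hi' hj' hij
      (h3.trans h1.symm) (h4.trans h2.symm)
    exact X.nxt_of_dart hi hj r hr4 hr5
  three := by
    rintro v v' v'' F F' hv hv' hv'' hF ⟨i, hi, h1⟩ ⟨j, hj, h2⟩ ⟨i', hi', h3⟩ ⟨j', hj', h4⟩ ⟨i'', hi'', h5⟩
      ⟨j'', hj'', h6⟩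
    have hij : i ≠ j := by
      rintro rfl
      exact hF (h1.symm.trans h2)
    have hij' : i' ≠ j' := by
      rintro rfl
      exact hF (h3.symm.trans h4)
    obtain ⟨r, a1, a2, a3, a4, a5, a6, a7⟩ := X.two_dart hv (i := i) (j := j) (i' := i') (j' := j') hi hj hi' hj' hij
      (h1.trans h3.symm) (h2.trans h4.symm)
    obtain ⟨x, b1, b2, b3, b4, b5, b6, b7⟩ := X.two_dart hv' (i := i) (j := j) (i' := i'') (j' := j'') hi hj hi'' hj''
      hij (h1.trans h5.symm) (h2.trans h6.symm)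
    obtain ⟨y, c1, c2, c3, c4, c5, c6, c7⟩ := X.two_dart hv'' (i := i') (j := j') (i' := i'') (j' := j'') hi' hj'
      hi'' hj'' hij' (h3.trans h5.symm) (h4.trans h6.symm)
    rcases X.lpr_end r a3 with h | h
    · rw [a1] at h
      exact X.lpr_deg h r x a1 (by rw [a2, b2]; exact hv'') a4 a5 b4 b5
    · rw [a2] at h
      refine X.lpr_deg h (across r) y a2 ?_ a6 a7 c4 c5
      rw [c2]
      show r.1.fst ≠ v''
      rw [a1]
      exact hv'
  faces := by
    rintro v v' F F' L hv hF hFL hFL' ⟨i, hi, h1⟩ ⟨j, hj, h2⟩ ⟨l, hl, h3⟩ ⟨i', hi', h4⟩ ⟨j', hj', h5⟩ ⟨l', hl', h6⟩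
    have hij : i ≠ j := by
      rintro rfl
      exact hF (h1.symm.trans h2)
    have hil : i ≠ l := by
      rintro rfl
      exact hFL (h1.symm.trans h3)
    have hjl : j ≠ l := by
      rintro rfl
      exact hFL' (h2.symm.trans h3)
    obtain ⟨r, a1, a2, a3, a4, a5, a6, a7⟩ := X.two_dart hv (i := i) (j := j) (i' := i') (j' := j') hi hj hi' hj' hij
      (h1.trans h4.symm) (h2.trans h5.symm)
    obtain ⟨x, b1, b2, b3, b4, b5, b6, b7⟩ := X.two_dart hv (i := i) (j := l) (i' := i') (j' := l') hi hl hi' hl'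
      hil (h1.trans h4.symm) (h3.trans h6.symm)
    have hd : r.1 = x.1 := by
      apply SimpleGraph.Dart.ext
      exact Prod.ext (a1.trans b1.symm) (a2.trans b2.symm)
    rcases Bool.eq_or_eq_not r.2 x.2 with h | h
    · have h10 : r = x := Prod.ext hd h
      rw [h10] at a5
      exact hjl (X.lpr_uniq hj hl _ a5 b5)
    · have h10 : r = side x := Prod.ext hd h
      rw [h10] at a4
      exact hil (X.lpr_uniq hi hl _ a4 b5)

end Pce

end Pool.Agent.RPH
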