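import Pool.Agent.RPH.LEmb
import Pool.Agent.RPH.LKeep

/-!
# RPH-LRed: the map as a set of chords of allowed corners

The chords given by `real_of_mapF` end at allowed corners (`keep_iff`), so they are the image of chords of allowed corners.
-/

set_option autoImplicit false

open Finset
open scoped Classical

namespace Pool.Agent.RPH

open Pool.Agent.EPH Pool.Agent.BEO
open Pool.Agent.Helper35.OG hiding F2 dg

variable {V : Type} {G : SimpleGraph V} [Fintype V]

namespace Pce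

variable (X : Pce G)

theorem exists_lamM : ∃ lam : Finset (Ch X.corP), Real X.corP lam ∧
    ∀ z z' : cyc G, frm X.M z z' = frm X.M0 z z' + ∑ e ∈ lam, (X.qe e).1 z * (X.qe e).1 z' := by
  obtain ⟨lam', h1, h2, h3⟩ := real_of_mapF X.M0 X.b X.hb X.M
  have key : ∀ v i, i < (nb G v).card → (∃ e ∈ lam', e.vx = v ∧ (e.lo = i ∨ e.hi = i)) → X.ok v i := by
    rintro v i hi ⟨e, he, hv, h4⟩
    by_contra h5
    have h6 : ¬ AF (FGT.rk X.K) X.M (cf X.M0 X.b v i) := fun h => h5 ((X.af_iff _).2 h)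
    have h7 := (keep_iff X.M0 X.b X.hb lam' h1 X.M h2 v i hi).1 (X.keep _ h6).symm e he hv
    rcases h4 with h4 | h4
    · exact h7.1 h4
    · exact h7.2 h4
  obtain ⟨lam, hlam⟩ := X.exists_emb lam' (fun e he =>
    ⟨key _ _ e.1.2.1.2 ⟨e, he, rfl, Or.inl rfl⟩, key _ _ e.1.2.2.2 ⟨e, he, rfl, Or.inr rfl⟩⟩)
  rw [hlam] at h1 h3
  refine ⟨lam, (X.real_emb lam).1 h1, fun z z' => ?_⟩
  rw [h3]
  unfold frC
  rw [Finset.sum_image fun _ _ _ _ h => X.emb_inj h]
  rfl

end Pce

end Pool.Agent.RPH
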