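import Pool.Agent.RPH.LCcp
import Pool.Agent.RPH.LDic

/-!
# RPH-LRun: the functionals of the good corners in the two maps

PLAN. `gg_side`: `ccp_side` for both maps (`x + x = 0`). `gg_nxt`: `X.M0.nxt p = X.S.nxt p` (`gc_eq`) and `ccp_nxt`. `gg_run`: suppose there is no such `r`. The set of the flags `q` at `v` with
`gc q` and `gg q = gg p` contains `p`, is closed under `X.S.nxt` (`gc_nxt`, `gg_nxt`, `X.S.nxt_fst`) and under `side` (for `q` in it, `ed (side q) = ed q ∈ D` as `q` is good, `gg (side q) = gg q`; if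
`side q` was not good, `r := side q` would do). By `X.S.conn` it contains all flags at `v` (induction on `EqvGen`, the closure is an iff).
-/

set_option autoImplicit false

open Finset
open scoped Classical

namespace Pool.Agent.RPH

open Pool.Agent.EPH Pool.Agent.BEO
open Pool.Agent.Helper35.OG hiding F2 dg

variable {V : Type} {G : SimpleGraph V} [Fintype V]

namespace Pce

variable (X : Pce G)

/-- the difference of the functionals of the corners of `p` in the two maps -/
noncomputable def gg (p : Flag G) : cyc G →ₗ[F2] F2 := ccp X.M0 X.b p + ccp X.S X.b p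

private theorem zaux : ∀ a a' b b' e : ZMod 2, a + a' = e → b + b' = e → a' + b' = a + b := by
  decide

theorem gg_side (p : Flag G) : X.gg (side p) = X.gg p := by
  refine LinearMap.ext fun z => ?_
  have h1 := ccp_side X.M0 X.hb p z
  have h2 := ccp_side X.S X.hb p z
  exact zaux _ _ _ _ _ h1 h2

theorem gg_nxt {p : Flag G} (h : X.gc p) : X.gg (X.S.nxt p) = X.gg p := by
  have h1 : ccp X.M0 X.b (X.S.nxt p) = ccp X.M0 X.b p := by
    rw [← X.gc_eq h]
    exact ccp_nxt X.M0 X.hb p
  unfold gg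
  rw [h1, ccp_nxt X.S X.hb p]

theorem gg_run {p : Flag G} (h : X.gc p) :
    (∃ r : Flag G, r.1.fst = p.1.fst ∧ ed r ∈ X.D ∧ ¬ X.gc r ∧ X.gg r = X.gg p) ∨
      ∀ q : Flag G, q.1.fst = p.1.fst → X.gc q ∧ X.gg q = X.gg p := by
  by_cases hr : ∃ r : Flag G, r.1.fst = p.1.fst ∧ ed r ∈ X.D ∧ ¬ X.gc r ∧ X.gg r = X.gg p
  · exact Or.inl hr
  · right
    have hstep : ∀ x : Flag G, x.1.fst = p.1.fst ∧ X.gc x ∧ X.gg x = X.gg p →
        (side x).1.fst = p.1.fst ∧ X.gc (side x) ∧ X.gg (side x) = X.gg p := by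
      rintro x ⟨h1, h2, h3⟩
      have h4 : X.gg (side x) = X.gg p := (X.gg_side x).trans h3
      refine ⟨h1, ?_, h4⟩
      by_contra h5
      exact hr ⟨side x, h1, h2.1.1.1.1, h5, h4⟩
    have key : ∀ x y : Flag G, (y = X.S.nxt x ∨ y = side x) →
        ((x.1.fst = p.1.fst ∧ X.gc x ∧ X.gg x = X.gg p) ↔ (y.1.fst = p.1.fst ∧ X.gc y ∧ X.gg y = X.gg p)) := by
      rintro x y (rfl | rfl)
      · rw [X.S.nxt_fst, X.gc_nxt]
        constructor
        · rintro ⟨h1, h2, h3⟩
          exact ⟨h1, h2, (X.gg_nxt h2).trans h3⟩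
        · rintro ⟨h1, h2, h3⟩
          exact ⟨h1, h2, (X.gg_nxt h2).symm.trans h3⟩
      · constructor
        · exact hstep x
        · intro h1
          have h2 := hstep (side x) h1
          rwa [side_side] at h2
    have h2 : ∀ x y : Flag G, Relation.EqvGen (fun x y : Flag G => y = X.S.nxt x ∨ y = side x) x y →
        ((x.1.fst = p.1.fst ∧ X.gc x ∧ X.gg x = X.gg p) ↔ (y.1.fst = p.1.fst ∧ X.gc y ∧ X.gg y = X.gg p)) := by
      intro x y hxy
      induction hxy with
      | rel x y h => exact key x y h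
      | refl x => exact Iff.rfl
      | symm x y _ ih => exact ih.symm
      | trans x y z _ _ ih1 ih2 => exact ih1.trans ih2
    intro q hq
    exact ((h2 p q (X.S.conn p q hq.symm)).1 ⟨rfl, h, rfl⟩).2

end Pce

end Pool.Agent.RPH
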