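import Pool.Agent.RPH.TOut

/-!
# RPH-TTch: three far apart homologous walks touching a path are null

PLAN. Write `w i := l i`. `0 ≤ α i` for all `i`, so `q 0` is outside all windows. `κ1` from `hit_colour` for `l 0 ++ l 1` (`clsL_append`, `hc1`,
`x + x = 0`), `κ2` for `l 0 ++ l 2`; both are constant on the face `q 0` (`face_const`; `q 0` is not a face of any `l i`), add constants
so that they are 0 on `q 0` (if the value is 1 replace `κ` by `κ + 1`). `κ3 := κ1 + κ2` changes at the hits of `l 1` and of `l 2`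
(`hit S (l 0) q` twice) and is 0 on `q 0`. For `i = 0, 1, 2` let `t i` with `α i < t i < β i` and `q (t i)` a face of a chord of `l i`.
By `outside_zero` (windows of `l 0, l 1`, at `t 2`) `κ1 = 0` on `q (t 2)`; then `κ1 = 0` on the whole zone of `l 2` (`zone_const`: in
the zone of `l 2` there are no hits of `l 0`, `l 1`: `hit_ne`, `hsp`). Similarly `κ2 = 0` on the zone of `l 1`, `κ3 = 0` on the zone
of `l 0`. The windows are in order: `β 0 ≤ α 1 < β 1 ≤ α 2`. Then `P e := κ1 e * κ2 e` satisfies `P (ed q) + P (ed (S.nxt q)) =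
hit S (l 0) q` for all flags `q`: with `a := κ1 (ed q)`, `b := κ2 (ed q)`, `hi := hit S (l i) q` it is
`a * b + (a + h0 + h1) * (b + h0 + h2)`; `h0 ≠ 0` implies `q` in the zone of `l 0` (`hit_ne`), `a + b = 0`, `h1 = h2 = 0` (`hsp`);
`h1 ≠ 0` implies `b = 0`, `h0 = h2 = 0`; `h2 ≠ 0` implies `a = 0`, `h0 = h1 = 0` (all values in `F2`: `decide` after `revert`).
`null_of_colour`.
-/

set_option autoImplicit false

open Finset
open scoped Classical

namespace Pool.Agent.RPH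

open Pool.Agent.EPH Pool.Agent.BEO
open Pool.Agent.Helper35.OG hiding F2 dg

variable {V : Type} {G : SimpleGraph V} [Fintype V]

variable {S : GMap G} {b : V → Flag G} {hb : IsBase b}

/-- adding a constant to a colouring -/
private theorem tc_norm (F : S.Face) (κ : G.edgeSet → F2) (σ : Flag G → F2)
    (hκ : ∀ q, κ (ed q) + κ (ed (S.nxt q)) = σ q) (h0 : ∀ q, S.face q = F → σ q = 0) :
    ∃ κ' : G.edgeSet → F2, (∀ q, κ' (ed q) + κ' (ed (S.nxt q)) = σ q) ∧ ∀ q, S.face q = F → κ' (ed q) = 0 := by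
  obtain ⟨r, hr⟩ : ∃ r : Flag G, S.face r = F := Quot.exists_rep F
  have h2 : ∀ x : F2, x + x = 0 := by decide
  have h3 : ∀ x y z : F2, x + z + (y + z) = x + y := by decide
  refine ⟨fun x => κ x + κ (ed r), fun q => ?_, fun q hq => ?_⟩
  · beta_reduce
    rw [h3, hκ]
  · beta_reduce
    rw [face_const S κ F (fun y hy => by rw [hκ y, h0 y hy]) hq hr, h2]

private theorem tc_hit {l : List (Ch (corF S b hb))} {q : Flag G} (h : hit S l q ≠ 0) : Zn S l q := by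
  obtain ⟨g, hg, a, c⟩ := hit_ne S l q h
  exact ⟨g, hg, Or.inl a⟩

/-- in the zone of `l` there are no hits of `l'` -/
private theorem tc_sep {l l' : List (Ch (corF S b hb))} (h : SP S l l') {q : Flag G} (hq : Zn S l q) :
    hit S l' q = 0 := by
  by_contra hc
  obtain ⟨g', hg', a, c⟩ := hit_ne S l' q hc
  obtain ⟨g, hg, d | d | d⟩ := hq
  · exact h.vx g hg g' hg' (d.symm.trans a)
  · rcases c with c | c
    · exact h.ll g hg g' hg' (d.symm.trans c)
    · exact h.lh g hg g' hg' (d.symm.trans c)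
  · rcases c with c | c
    · exact h.hl g hg g' hg' (d.symm.trans c)
    · exact h.hh g hg g' hg' (d.symm.trans c)

/-- the colouring of two walks is zero on the zone of the third one -/
private theorem tc_zone {mu : Finset (Ch (corF S b hb))} {N : ℕ} {q : ℕ → S.Face} {e : ℕ → Ch (corF S b hb)}
    (hm : PM S mu N q e) {l l' l'' : List (Ch (corF S b hb))} {α β α' β' α'' β'' : ℕ} {F : S.Face}
    (hl : DW (fun e : Ch (corF S b hb) => S.face (cf S b e.vx e.lo))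
      (fun e : Ch (corF S b hb) => S.face (cf S b e.vx e.hi)) F F l'')
    (ht : TW S mu N q e l α β) (ht' : TW S mu N q e l' α' β') (ht'' : TW S mu N q e l'' α'' β'')
    (hd : β ≤ α' ∨ β' ≤ α) (hd1 : β ≤ α'' ∨ β'' ≤ α) (hd2 : β' ≤ α'' ∨ β'' ≤ α')
    (hsp : SP S l l') (hsp1 : SP S l'' l) (hsp2 : SP S l'' l') (hcls : clsL S l = clsL S l')
    (htch : ∃ t, α'' < t ∧ t < β'' ∧ ∃ g ∈ l'', S.face (cf S b g.vx g.lo) = q t ∨ S.face (cf S b g.vx g.hi) = q t)
    (κ : G.edgeSet → F2) (hκ : ∀ q, κ (ed q) + κ (ed (S.nxt q)) = hit S l q + hit S l' q)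
    (h0 : ∀ p, S.face p = q 0 → κ (ed p) = 0) (p : Flag G) (hp : Zn S l'' p) : κ (ed p) = 0 := by
  obtain ⟨t, t1, t2, g, hg, hgt⟩ := htch
  have hle := ht''.le
  obtain ⟨r, hr⟩ : ∃ r : Flag G, S.face r = q t := Quot.exists_rep (q t)
  have hz : Zn S l'' r := by
    rcases hgt with hgt | hgt
    · exact ⟨g, hg, Or.inr (Or.inl (hr.trans hgt.symm))⟩
    · exact ⟨g, hg, Or.inr (Or.inr (hr.trans hgt.symm))⟩
  rw [zone_const hl κ (fun y hy => by rw [hκ y, tc_sep hsp1 hy, tc_sep hsp2 hy, add_zero]) p r hp hz]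
  exact outside_zero hm ht ht' hd hsp hcls κ hκ h0 t (by omega) (by omega) (by omega) r hr

theorem touch_null {mu : Finset (Ch (corF S b hb))} {N : ℕ} {q : ℕ → S.Face} {e : ℕ → Ch (corF S b hb)}
    (hm : PM S mu N q e) (F : Fin 3 → S.Face) (l : Fin 3 → List (Ch (corF S b hb))) (α β : Fin 3 → ℕ)
    (hl : ∀ i, DW (fun e : Ch (corF S b hb) => S.face (cf S b e.vx e.lo))
      (fun e : Ch (corF S b hb) => S.face (cf S b e.vx e.hi)) (F i) (F i) (l i))
    (ht : ∀ i, TW S mu N q e (l i) (α i) (β i)) (h01 : β 0 ≤ α 1) (h12 : β 1 ≤ α 2)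
    (htch : ∀ i, ∃ t, α i < t ∧ t < β i ∧ ∃ g ∈ l i, S.face (cf S b g.vx g.lo) = q t ∨ S.face (cf S b g.vx g.hi) = q t)
    (hsp : ∀ i j, i ≠ j → SP S (l i) (l j)) (hc1 : clsL S (l 0) = clsL S (l 1)) (hc2 : clsL S (l 1) = clsL S (l 2)) :
    clsL S (l 0) = 0 := by
  have hself : ∀ x : cyc G →ₗ[F2] F2, x + x = 0 := by
    intro x
    apply LinearMap.ext
    intro z
    exact CharTwo.add_self_eq_zero (x z)
  have l1 := (ht 1).lt
  have h02 : β 0 ≤ α 2 := by omega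
  -- the face `q 0` is not hit
  have hq0 : ∀ i, ∀ y : Flag G, S.face y = q 0 → hit S (l i) y = 0 := by
    intro i y hy
    by_contra hc
    obtain ⟨g, hg, -, a⟩ := hit_ne S (l i) y hc
    rw [hy] at a
    have h4 := (ht i).face g hg 0 (Nat.zero_le _) (Or.inl (Nat.zero_le _))
    rcases a with a | a
    · exact h4.1 a.symm
    · exact h4.2 a.symm
  obtain ⟨κ1', hκ1'⟩ := hit_colour S (l 0 ++ l 1) (by rw [clsL_append, hc1, hself])
  obtain ⟨κ2', hκ2'⟩ := hit_colour S (l 0 ++ l 2) (by rw [clsL_append, hc1, hc2, hself])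
  obtain ⟨κ1, hκ1, z1⟩ := tc_norm (q 0) κ1' (fun y => hit S (l 0) y + hit S (l 1) y)
    (fun y => by rw [hκ1' y, hit_append]) (fun y hy => by rw [hq0 0 y hy, hq0 1 y hy, add_zero])
  obtain ⟨κ2, hκ2, z2⟩ := tc_norm (q 0) κ2' (fun y => hit S (l 0) y + hit S (l 2) y)
    (fun y => by rw [hκ2' y, hit_append]) (fun y hy => by rw [hq0 0 y hy, hq0 2 y hy, add_zero])
  have hκ3 : ∀ y, (fun x => κ1 x + κ2 x) (ed y) + (fun x => κ1 x + κ2 x) (ed (S.nxt y)) =
      hit S (l 1) y + hit S (l 2) y := by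
    intro y
    have a1 := hκ1 y
    have a2 := hκ2 y
    beta_reduce
    have h3 : ∀ a b c d x y z : F2, a + b = x + y → c + d = x + z → a + c + (b + d) = y + z := by decide
    exact h3 _ _ _ _ _ _ _ a1 a2
  -- the zones
  have k1 : ∀ p, Zn S (l 2) p → κ1 (ed p) = 0 := fun p hp =>
    tc_zone hm (hl 2) (ht 0) (ht 1) (ht 2) (Or.inl h01) (Or.inl h02) (Or.inl h12) (hsp 0 1 (by decide))
      (hsp 2 0 (by decide)) (hsp 2 1 (by decide)) hc1 (htch 2) κ1 hκ1 z1 p hp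
  have k2 : ∀ p, Zn S (l 1) p → κ2 (ed p) = 0 := fun p hp =>
    tc_zone hm (hl 1) (ht 0) (ht 2) (ht 1) (Or.inl h02) (Or.inl h01) (Or.inr h12) (hsp 0 2 (by decide))
      (hsp 1 0 (by decide)) (hsp 1 2 (by decide)) (hc1.trans hc2) (htch 1) κ2 hκ2 z2 p hp
  have k3 : ∀ p, Zn S (l 0) p → κ1 (ed p) + κ2 (ed p) = 0 := fun p hp =>
    tc_zone hm (hl 0) (ht 1) (ht 2) (ht 0) (Or.inl h12) (Or.inr h01) (Or.inr h02) (hsp 1 2 (by decide))
      (hsp 0 1 (by decide)) (hsp 0 2 (by decide)) hc2 (htch 0) (fun x => κ1 x + κ2 x) hκ3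
      (fun p hp => by beta_reduce; rw [z1 p hp, z2 p hp, add_zero]) p hp
  refine null_of_colour S (l 0) (fun x => κ1 x * κ2 x) fun y => ?_
  beta_reduce
  have a1 := hκ1 y
  have a2 := hκ2 y
  beta_reduce at a1 a2
  have b0 : hit S (l 0) y ≠ 0 → κ1 (ed y) + κ2 (ed y) = 0 ∧ hit S (l 1) y = 0 ∧ hit S (l 2) y = 0 := fun h =>
    ⟨k3 y (tc_hit h), tc_sep (hsp 0 1 (by decide)) (tc_hit h), tc_sep (hsp 0 2 (by decide)) (tc_hit h)⟩
  have b1 : hit S (l 1) y ≠ 0 → κ2 (ed y) = 0 ∧ hit S (l 0) y = 0 ∧ hit S (l 2) y = 0 := fun h =>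
    ⟨k2 y (tc_hit h), tc_sep (hsp 1 0 (by decide)) (tc_hit h), tc_sep (hsp 1 2 (by decide)) (tc_hit h)⟩
  have b2 : hit S (l 2) y ≠ 0 → κ1 (ed y) = 0 ∧ hit S (l 0) y = 0 ∧ hit S (l 1) y = 0 := fun h =>
    ⟨k1 y (tc_hit h), tc_sep (hsp 2 0 (by decide)) (tc_hit h), tc_sep (hsp 2 1 (by decide)) (tc_hit h)⟩
  generalize κ1 (ed y) = x1 at *
  generalize κ2 (ed y) = x2 at *
  generalize κ1 (ed (S.nxt y)) = y1 at *
  generalize κ2 (ed (S.nxt y)) = y2 at *
  generalize hit S (l 0) y = w0 at *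
  generalize hit S (l 1) y = w1 at *
  generalize hit S (l 2) y = w2 at *
  have c0 : w0 = 0 ∨ (x1 + x2 = 0 ∧ w1 = 0 ∧ w2 = 0) := or_iff_not_imp_left.2 b0
  have c1 : w1 = 0 ∨ (x2 = 0 ∧ w0 = 0 ∧ w2 = 0) := or_iff_not_imp_left.2 b1
  have c2 : w2 = 0 ∨ (x1 = 0 ∧ w0 = 0 ∧ w1 = 0) := or_iff_not_imp_left.2 b2
  clear * - a1 a2 c0 c1 c2
  revert c2 c1 c0 a2 a1
  revert x1 x2 y1 y2 w0 w1 w2
  decide

end Pool.Agent.RPH
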