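import Pool.Agent.RPH.LSysR
import Pool.Agent.RPH.TTch

/-!
# RPH-LTcR: the touching rule for a piece
-/

set_option autoImplicit false

open Finset
open scoped Classical

namespace Pool.Agent.RPH

open Pool.Agent.EPH Pool.Agent.BEO
open Pool.Agent.Helper35.OG hiding F2 dg

variable {V : Type} {G : SimpleGraph V} [Fintype V]

namespace Pce

variable (X : Pce G)

/-- the face of the base map -/
private noncomputable def mfx : X.S.Face ⊕ Flag G → X.M0.Face := Sum.elim X.mf X.M0.face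

private theorem ltc_face {p p' : Flag G} (ha : X.af p) (h : X.fcs p ∉ X.B) (he : X.M0.face p' = X.M0.face p) :
    X.fcs p' = X.fcs p := by
  obtain ⟨h1, h2⟩ := X.fcs_nB ha h
  have h3 := (X.face_iff h2 p).2 rfl
  rw [h3] at he
  have h4 := (X.face_iff h2 p').1 he
  rw [X.fcs_inl.2 ⟨h1, rfl⟩]
  exact X.fcs_inl.2 ⟨h2 p' h4, h4⟩

private theorem ltc_mf {p : Flag G} (ha : X.af p) (h : X.fcs p ∉ X.B) : X.M0.face p = X.mfx (X.fcs p) := by
  obtain ⟨h1, h2⟩ := X.fcs_nB ha h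
  rw [X.fcs_inl.2 ⟨h1, rfl⟩]
  exact (X.face_iff h2 p).2 rfl

private theorem ltc_lo (e : Ch X.corP) : X.af (X.Rf e.vx e.lo) := X.af_Rf (X.e_lo e)

private theorem ltc_hi (e : Ch X.corP) : X.af (X.Rf e.vx e.hi) := X.af_Rf (X.e_hi e)

private theorem ltc_dw {F H : X.S.Face ⊕ Flag G} {l : List (Ch X.corP)}
    (hl : DW (fun e : Ch X.corP => X.fcs (X.Rf e.vx e.lo)) (fun e : Ch X.corP => X.fcs (X.Rf e.vx e.hi)) F H l) :
    (∀ g ∈ l, X.fcs (X.Rf g.vx g.lo) ∉ X.B ∧ X.fcs (X.Rf g.vx g.hi) ∉ X.B) →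
    DW (fun e : Ch (corF X.M0 X.b X.hb) => X.M0.face (cf X.M0 X.b e.vx e.lo))
      (fun e : Ch (corF X.M0 X.b X.hb) => X.M0.face (cf X.M0 X.b e.vx e.hi)) (X.mfx F) (X.mfx H) (l.map X.emb) := by
  induction hl with
  | nil F => exact fun _ => DW.nil _
  | cons F K H g l he _ ih =>
    intro hB
    have h1 := hB g List.mem_cons_self
    refine DW.cons _ (X.mfx K) _ (X.emb g) _ ?_ (ih fun g' hg' => hB g' (List.mem_cons_of_mem _ hg'))
    have h2 := X.ltc_mf (X.ltc_lo g) h1.1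
    have h3 := X.ltc_mf (X.ltc_hi g) h1.2
    rcases he with ⟨h4, h5⟩ | ⟨h4, h5⟩
    · exact Or.inl ⟨h2.trans (congrArg _ h4), h3.trans (congrArg _ h5)⟩
    · exact Or.inr ⟨h2.trans (congrArg _ h4), h3.trans (congrArg _ h5)⟩

private theorem ltc_deg (Φ : X.S.Face ⊕ Flag G) {F H : X.S.Face ⊕ Flag G} {l : List (Ch X.corP)}
    (hl : DW (fun e : Ch X.corP => X.fcs (X.Rf e.vx e.lo)) (fun e : Ch X.corP => X.fcs (X.Rf e.vx e.hi)) F H l) :
    X.dF Φ (l.map X.qe).sum = (if F = Φ then 1 else 0) + (if H = Φ then 1 else 0) := by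
  have h2 : ∀ x : F2, x + x = 0 := by decide
  have h3 : ∀ x y z : F2, x + y + (y + z) = x + z := by decide
  have h4 : ∀ x y z : F2, y + x + (y + z) = x + z := by decide
  induction hl with
  | nil F => rw [List.map_nil, List.sum_nil, map_zero, h2]
  | cons F K H g l he _ ih =>
    rw [List.map_cons, List.sum_cons, map_add, ih, X.dF_qe]
    rcases he with ⟨h5, h6⟩ | ⟨h5, h6⟩
    · have h5' : X.fcs (X.Rf g.vx g.lo) = F := h5
      have h6' : X.fcs (X.Rf g.vx g.hi) = K := h6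
      rw [h5', h6', h3]
    · have h5' : X.fcs (X.Rf g.vx g.lo) = K := h5
      have h6' : X.fcs (X.Rf g.vx g.hi) = F := h6
      rw [h5', h6', h4]

private theorem ltc_cls (l : List (Ch X.corP)) :
    clsL X.M0 (l.map X.emb : List (Ch (corF X.M0 X.b X.hb))) = ((l.map X.qe).sum).1 := by
  unfold clsL
  induction l with
  | nil => rfl
  | cons g l ih =>
    rw [List.map_cons, List.map_cons, List.sum_cons, ih, List.map_cons, List.sum_cons]
    rfl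

private theorem ltc_main (mu : Finset (Ch X.corP)) (h : ∀ z : cyc G, frm X.M0 z z = ∑ e ∈ mu, (X.qe e).1 z)
    (N : ℕ) (q : ℕ → X.S.Face ⊕ Flag G) (e : ℕ → Ch X.corP) (F : Fin 3 → X.S.Face ⊕ Flag G)
    (l : Fin 3 → List (Ch X.corP)) (α β : Fin 3 → ℕ)
    (h1 : ∀ t, t < N → e t ∈ mu ∧ s(X.fcs (X.Rf (e t).vx (e t).lo), X.fcs (X.Rf (e t).vx (e t).hi)) = s(q t, q (t + 1)))
    (h2 : ∀ t t', t < N → t' < N → e t = e t' → t = t')
    (h3 : ∀ i, DW (fun e : Ch X.corP => X.fcs (X.Rf e.vx e.lo)) (fun e : Ch X.corP => X.fcs (X.Rf e.vx e.hi))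
      (F i) (F i) (l i))
    (h4 : β 0 ≤ α 1) (h5 : β 1 ≤ α 2) (h6 : β 2 ≤ N)
    (h7 : ∀ i, ∃ t, α i < t ∧ t < β i ∧ ∃ g ∈ l i, X.fcs (X.Rf g.vx g.lo) = q t ∨ X.fcs (X.Rf g.vx g.hi) = q t)
    (h8 : ∀ i, ∀ g ∈ l i, ∀ t, t ≤ N → t ≤ α i ∨ β i ≤ t → X.fcs (X.Rf g.vx g.lo) ≠ q t ∧ X.fcs (X.Rf g.vx g.hi) ≠ q t)
    (h9 : ∀ i, ∀ g ∈ l i, ∀ h ∈ mu, (X.fcs (X.Rf h.vx h.lo) = X.fcs (X.Rf g.vx g.lo) ∨
      X.fcs (X.Rf h.vx h.lo) = X.fcs (X.Rf g.vx g.hi) ∨ X.fcs (X.Rf h.vx h.hi) = X.fcs (X.Rf g.vx g.lo) ∨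
      X.fcs (X.Rf h.vx h.hi) = X.fcs (X.Rf g.vx g.hi) ∨ h.vx = g.vx) → ∃ t, α i ≤ t ∧ t < β i ∧ h = e t)
    (h10 : ∀ i j, i ≠ j → ∀ g ∈ l i, ∀ g' ∈ l j,
      g.vx ≠ g'.vx ∧ X.fcs (X.Rf g.vx g.lo) ≠ X.fcs (X.Rf g'.vx g'.lo) ∧
      X.fcs (X.Rf g.vx g.lo) ≠ X.fcs (X.Rf g'.vx g'.hi) ∧ X.fcs (X.Rf g.vx g.hi) ≠ X.fcs (X.Rf g'.vx g'.lo) ∧
      X.fcs (X.Rf g.vx g.hi) ≠ X.fcs (X.Rf g'.vx g'.hi))
    (h11 : ∀ i, ∀ g ∈ l i, X.fcs (X.Rf g.vx g.lo) ∉ X.B ∧ X.fcs (X.Rf g.vx g.hi) ∉ X.B)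
    (h12 : ∀ t, t ≤ N → q t ∉ X.B)
    (h13 : ((l 0).map X.qe).sum = ((l 1).map X.qe).sum) (h14 : ((l 1).map X.qe).sum = ((l 2).map X.qe).sum) :
    ((l 0).map X.qe).sum = 0 := by
  have hlt : ∀ i, α i < β i := fun i => by
    obtain ⟨t, ht1, ht2, -⟩ := h7 i
    omega
  have hle : ∀ i, β i ≤ N := by
    intro i
    have a1 := hlt 1
    have a2 := hlt 2
    fin_cases i
    · show β 0 ≤ N
      omega
    · show β 1 ≤ N
      omega
    · exact h6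
  -- the faces of the chords of the path
  have hf : ∀ t, t < N → (X.fcs (X.Rf (e t).vx (e t).lo) = q t ∧ X.fcs (X.Rf (e t).vx (e t).hi) = q (t + 1)) ∨
      (X.fcs (X.Rf (e t).vx (e t).lo) = q (t + 1) ∧ X.fcs (X.Rf (e t).vx (e t).hi) = q t) := fun t ht =>
    Sym2.eq_iff.1 (h1 t ht).2
  have hr : ∀ t, t ≤ N → ∃ p : Flag G, X.af p ∧ X.fcs p = q t := by
    intro t ht
    rcases Nat.lt_or_ge t N with a | a
    · rcases hf t a with b | b
      · exact ⟨_, X.ltc_lo (e t), b.1⟩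
      · exact ⟨_, X.ltc_hi (e t), b.2⟩
    · have c1 := hlt 2
      obtain ⟨t', rfl⟩ : ∃ t', t = t' + 1 := ⟨t - 1, by omega⟩
      rcases hf t' (by omega) with b | b
      · exact ⟨_, X.ltc_hi (e t'), b.2⟩
      · exact ⟨_, X.ltc_lo (e t'), b.1⟩
  have hmq : ∀ p : Flag G, X.af p → ∀ t, t ≤ N → X.M0.face p = X.mfx (q t) → X.fcs p = q t := by
    intro p hp t ht he
    obtain ⟨r, hr1, hr2⟩ := hr t ht
    have h15 : X.fcs r ∉ X.B := by
      rw [hr2]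
      exact h12 t ht
    have h16 := X.ltc_mf hr1 h15
    rw [hr2] at h16
    rw [← h16] at he
    rw [X.ltc_face hr1 h15 he, hr2]
  have hPM : PM X.M0 (mu.image X.emb) N (fun t => X.mfx (q t)) (fun t => X.emb (e t)) := by
    refine ⟨fun z => ?_, fun t ht => ?_, fun t ht => ?_, fun t t' ht ht' he => h2 t t' ht ht' (X.emb_inj he)⟩
    · rw [Finset.sum_image fun x _ y _ hxy => X.emb_inj hxy, h z]
      rfl
    · exact Finset.mem_image_of_mem _ (h1 t ht).1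
    · show s(X.M0.face (X.Rf (e t).vx (e t).lo), X.M0.face (X.Rf (e t).vx (e t).hi)) = s(X.mfx (q t), X.mfx (q (t + 1)))
      have g1 := h12 t (by omega)
      have g2 := h12 (t + 1) (by omega)
      rcases hf t ht with ⟨b1, b2⟩ | ⟨b1, b2⟩
      · rw [X.ltc_mf (X.ltc_lo (e t)) (by rw [b1]; exact g1), X.ltc_mf (X.ltc_hi (e t)) (by rw [b2]; exact g2), b1, b2]
      · rw [X.ltc_mf (X.ltc_lo (e t)) (by rw [b1]; exact g2), X.ltc_mf (X.ltc_hi (e t)) (by rw [b2]; exact g1), b1, b2]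
        exact Sym2.eq_swap
  have hTW : ∀ i, TW X.M0 (mu.image X.emb) N (fun t => X.mfx (q t)) (fun t => X.emb (e t)) ((l i).map X.emb)
      (α i) (β i) := by
    intro i
    refine ⟨hlt i, hle i, ?_, ?_⟩
    · intro g' hg' t ht hw
      obtain ⟨g, hg, rfl⟩ := List.mem_map.1 hg'
      have a := h8 i g hg t ht hw
      exact ⟨fun he => a.1 (hmq _ (X.ltc_lo g) t ht he), fun he => a.2 (hmq _ (X.ltc_hi g) t ht he)⟩
    · intro g' hg' x' hx' hw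
      obtain ⟨g, hg, rfl⟩ := List.mem_map.1 hg'
      obtain ⟨x, hx, rfl⟩ := Finset.mem_image.1 hx'
      have a := h11 i g hg
      obtain ⟨t, t1, t2, t3⟩ := h9 i g hg x hx (by
        rcases hw with hw | hw | hw | hw | hw
        · exact Or.inl (X.ltc_face (X.ltc_lo g) a.1 hw)
        · exact Or.inr (Or.inl (X.ltc_face (X.ltc_hi g) a.2 hw))
        · exact Or.inr (Or.inr (Or.inl (X.ltc_face (X.ltc_lo g) a.1 hw)))
        · exact Or.inr (Or.inr (Or.inr (Or.inl (X.ltc_face (X.ltc_hi g) a.2 hw))))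
        · exact Or.inr (Or.inr (Or.inr (Or.inr hw))))
      exact ⟨t, t1, t2, by rw [t3]⟩
  have hSP : ∀ i j, i ≠ j → SP X.M0 ((l i).map X.emb) ((l j).map X.emb : List (Ch (corF X.M0 X.b X.hb))) := by
    intro i j hij
    refine ⟨?_, ?_, ?_, ?_, ?_⟩
    · intro g' hg' x' hx'
      obtain ⟨g, hg, rfl⟩ := List.mem_map.1 hg'
      obtain ⟨x, hx, rfl⟩ := List.mem_map.1 hx'
      exact (h10 i j hij g hg x hx).1
    · intro g' hg' x' hx' he
      obtain ⟨g, hg, rfl⟩ := List.mem_map.1 hg'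
      obtain ⟨x, hx, rfl⟩ := List.mem_map.1 hx'
      exact (h10 i j hij g hg x hx).2.1 (X.ltc_face (X.ltc_lo x) (h11 j x hx).1 he)
    · intro g' hg' x' hx' he
      obtain ⟨g, hg, rfl⟩ := List.mem_map.1 hg'
      obtain ⟨x, hx, rfl⟩ := List.mem_map.1 hx'
      exact (h10 i j hij g hg x hx).2.2.1 (X.ltc_face (X.ltc_hi x) (h11 j x hx).2 he)
    · intro g' hg' x' hx' he
      obtain ⟨g, hg, rfl⟩ := List.mem_map.1 hg'
      obtain ⟨x, hx, rfl⟩ := List.mem_map.1 hx'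
      exact (h10 i j hij g hg x hx).2.2.2.1 (X.ltc_face (X.ltc_lo x) (h11 j x hx).1 he)
    · intro g' hg' x' hx' he
      obtain ⟨g, hg, rfl⟩ := List.mem_map.1 hg'
      obtain ⟨x, hx, rfl⟩ := List.mem_map.1 hx'
      exact (h10 i j hij g hg x hx).2.2.2.2 (X.ltc_face (X.ltc_hi x) (h11 j x hx).2 he)
  have hT := touch_null hPM (fun i => X.mfx (F i)) (fun i => (l i).map X.emb) α β
    (fun i => X.ltc_dw (h3 i) (h11 i)) hTW h4 h5
    (fun i => by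
      obtain ⟨t, t1, t2, g, hg, hgt⟩ := h7 i
      refine ⟨t, t1, t2, X.emb g, List.mem_map_of_mem hg, ?_⟩
      rcases hgt with hgt | hgt
      · exact Or.inl ((X.ltc_mf (X.ltc_lo g) (h11 i g hg).1).trans (congrArg _ hgt))
      · exact Or.inr ((X.ltc_mf (X.ltc_hi g) (h11 i g hg).2).trans (congrArg _ hgt)))
    hSP (by rw [X.ltc_cls, X.ltc_cls, h13]) (by rw [X.ltc_cls, X.ltc_cls, h14])
  rw [X.ltc_cls] at hT
  refine Prod.ext hT (funext fun Φ => ?_)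
  have h15 := X.ltc_deg Φ (h3 0)
  have h16 : ∀ x : F2, x + x = 0 := by decide
  rw [h16] at h15
  exact h15

theorem tch_P (hG : G.Connected) (k : ℕ) (hB : X.B.card ≤ k) (hH : Module.finrank F2 (HQ X.qe X.dF) ≤ k) (g : ℕ)
    (mu : Finset (Ch X.corP)) (h : ∀ z : cyc G, frm X.M0 z z = ∑ e ∈ mu, (X.qe e).1 z) :
    Tch (X.mkS hG k hB hH) g mu := by
  intro N q e F l α β h1 h2 h3 h4 h5 h6 h7 h8 h9 h10 h11 h12 h13 h14
  exact X.ltc_main mu h N q e F l α β h1 h2 h3 (by omega) (by omega) h6 h7 h8 h9 h10 h11 h12 h13 h14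

end Pce

end Pool.Agent.RPH
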