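import Pool.Agent.RPH.YEdg
import Pool.Agent.RPH.KOut
import Pool.Agent.RPH.XCfg
import Pool.Agent.RPH.CFrame

/-!
# RPH-YRest: few chords outside `mu`

The chords outside `mu` inject into the edges outside the graph of `mu`.
-/

set_option autoImplicit false

open Finset
open scoped Classical

namespace Pool.Agent.RPH

open Pool.Agent.EPH
open Pool.Agent.BEO hiding Cfg Frame

theorem card_rest (k : ℕ) : ∃ C : ℕ, ∀ (Φ Vt Z Q : Type) [Fintype Φ] [Fintype Vt] [AddCommGroup Z] [Module F2 Z]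
    [Module.Finite F2 Z] [AddCommGroup Q] [Module F2 Q] (S : Sys k Φ Vt Z Q) (lam mu : Finset (Ch S.P)), Ext S lam mu →
    (lam \ mu).card ≤ C := by
  obtain ⟨C, hC⟩ := exists_frame (30 * (4 * k + 1) + 10)
  obtain ⟨C1, hC1⟩ := card_Y k
  obtain ⟨C2, hC2⟩ := card_edges_out (30 * (4 * k + 1) + 10) C C1
  refine ⟨C2, ?_⟩
  intro Φ Vt Z Q _ _ _ _ _ _ _ S lam mu h
  obtain ⟨c, hcL, hcM, _, _, _⟩ := exists_pcfg h
  obtain ⟨f⟩ := hC (GV c.B) (Q × GT c.B) c.ext
  have h1 : (univ.filter fun y => y ∈ vs c.ext.L ∧ y ∉ vs c.ext.M).card ≤ C1 := by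
    refine le_trans ?_ (hC1 Φ Vt Z Q S lam mu h)
    have hsub : (univ.filter fun y => y ∈ vs c.ext.L ∧ y ∉ vs c.ext.M) ⊆
        (Yf S lam mu).image (fun y => (Sum.inl y : GV c.B)) := by
      intro x hx
      obtain ⟨-, hx1, hx2⟩ := mem_filter.1 hx
      unfold vs at hx1
      obtain ⟨-, u, hu⟩ := mem_filter.1 hx1
      have hno : ∀ w, ¬ c.ext.M.Adj x w := fun w hw => hx2 (mem_filter.2 ⟨mem_univ _, w, hw⟩)
      rcases c.gv_cases x with ⟨v, rfl⟩ | ⟨b, i, j, rfl⟩ | rfl
      · rw [mem_image]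
        refine ⟨v, ?_, rfl⟩
        unfold Yf
        rw [mem_filter]
        refine ⟨mem_univ _, ?_, ?_⟩
        · unfold vs
          rw [mem_filter]
          refine ⟨mem_univ _, ?_⟩
          rcases c.gv_cases u with ⟨w, rfl⟩ | ⟨b, i, j, rfl⟩ | rfl
          · refine ⟨w, ?_⟩
            rw [← hcL]
            exact (c.ext_inl_inl c.L v w).1 hu
          · exfalso
            refine hno (c.mid b i j) ?_
            exact (c.ext_inl_mid c.M v b i j).2 ((c.ext_inl_mid c.L v b i j).1 hu)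
          · exact absurd hu (c.ext_inl_top c.L v)
        · intro h3
          unfold vs at h3
          obtain ⟨-, w, hw⟩ := mem_filter.1 h3
          rw [← hcM] at hw
          exact hno _ ((c.ext_inl_inl c.M v w).2 hw)
      · exfalso
        rcases c.gv_cases u with ⟨w, rfl⟩ | ⟨b', i', j', rfl⟩ | rfl
        · exact hno (Sum.inl w) ((c.ext_inl_mid c.M w b i j).2 ((c.ext_inl_mid c.L w b i j).1 hu.symm)).symm
        · exact hno _ ((c.ext_mid_mid c.M b b' i i' j j').2 ((c.ext_mid_mid c.L b b' i i' j j').1 hu))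
        · exact hno _ ((c.ext_mid_top c.M b i j).2 ((c.ext_mid_top c.L b i j).1 hu))
      · exfalso
        rcases c.gv_cases u with ⟨w, rfl⟩ | ⟨b', i', j', rfl⟩ | rfl
        · exact absurd hu.symm (c.ext_inl_top c.L w)
        · exact hno _ ((c.ext_mid_top c.M b' i' j').2 ((c.ext_mid_top c.L b' i' j').1 hu.symm)).symm
        · exact hu.ne rfl
    exact (card_le_card hsub).trans card_image_le
  have h2 := hC2 (GV c.B) (Q × GT c.B) c.ext f (by convert h1)
  refine le_trans ?_ h2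
  refine card_le_card_of_injOn (fun e => Sym2.map Sum.inl s(S.D.s e, S.D.t e)) ?_ ?_
  · intro e he
    obtain ⟨he1, he2⟩ := mem_sdiff.1 (mem_coe.1 he)
    refine mem_coe.2 (mem_filter.2 ⟨?_, ?_⟩)
    · unfold es
      refine mem_filter.2 ⟨mem_univ _, ?_⟩
      refine c.map_edge' (L := c.L) ?_
      rw [hcL]
      exact (gr_mem S lam _).2 ⟨e, he1, rfl⟩
    · intro h3
      have h5 := c.map_edge (L := c.M) h3
      rw [hcM] at h5
      obtain ⟨e', he', h4⟩ := (gr_mem S mu _).1 h5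
      rw [noPar h e he1 e' (h.sub he') h4.symm] at he2
      exact he2 he'
  · intro e he e' he' hh
    exact noPar h e (mem_sdiff.1 (mem_coe.1 he)).1 e' (mem_sdiff.1 (mem_coe.1 he')).1
      (c.map_inj hh)

end Pool.Agent.RPH
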