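import Pool.Agent.EPH.YCnt
import Pool.Agent.RPH.YRest
import Pool.Agent.RPH.YDef
import Pool.Agent.RPH.ExtS

/-!
# RPH-YSel: a leg which can be replaced

`exists_free`: for every set `I` of indices the legs `P i`, `i ∈ I`, are replaced by their canonical walks; Lemma F bounds
the number of coincidences of vertices, and `conflict_free` gives a leg whose canonical walk has no conflict.
-/

set_option autoImplicit false

open Finset
open scoped Classical

namespace Pool.Agent.RPH

open Pool.Agent.EPH Pool.Agent.BEO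

private theorem ys_sum {A ι M : Type} [AddCommMonoid M] (T : Finset ι) (L : ι → List A) (f : A → M) :
    ((T.toList.map L).flatten.map f).sum = ∑ i ∈ T, ((L i).map f).sum := by
  rw [List.map_flatten, List.sum_flatten, List.map_map, List.map_map]
  exact Finset.sum_map_toList T _

private theorem ys_cnt {A ι : Type} (T : Finset ι) (L : ι → List A) (f : A → Bool) :
    (T.toList.map L).flatten.countP f = ∑ i ∈ T, (L i).countP f := by
  rw [List.countP_flatten, List.map_map]
  exact Finset.sum_map_toList T _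

private theorem ys_len {A ι : Type} (T : Finset ι) (L : ι → List A) :
    (T.toList.map L).flatten.length = ∑ i ∈ T, (L i).length := by
  rw [List.length_flatten, List.map_map]
  exact Finset.sum_map_toList T _

private theorem ys_split {A M : Type} [AddCommMonoid M] {t : ℕ} (mu : Finset A) (P : Fin t → List A)
    (hs : ∀ i, ∀ e ∈ P i, e ∈ mu) (hn : ∀ i, (P i).Nodup) (hd : ∀ i j, i ≠ j → ∀ e, e ∈ P i → e ∉ P j) (f : A → M) :
    ∑ e ∈ mu, f e = ∑ e ∈ mu.filter (fun e => ∀ i, e ∉ P i), f e + ∑ i, ((P i).map f).sum := by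
  rw [← Finset.sum_filter_add_sum_filter_not mu (fun e => ∀ i, e ∉ P i)]
  congr 1
  have h1 : mu.filter (fun e => ¬ ∀ i, e ∉ P i) = univ.biUnion fun i => (P i).toFinset := by
    ext e
    rw [Finset.mem_filter, Finset.mem_biUnion]
    constructor
    · rintro ⟨-, h⟩
      push Not at h
      obtain ⟨i, hi⟩ := h
      exact ⟨i, Finset.mem_univ _, List.mem_toFinset.2 hi⟩
    · rintro ⟨i, -, hi⟩
      rw [List.mem_toFinset] at hi
      exact ⟨hs i e hi, fun h => h i hi⟩
  rw [h1, Finset.sum_biUnion]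
  · exact Finset.sum_congr rfl fun i _ => List.sum_toFinset f (hn i)
  · intro i _ j _ hij
    rw [Function.onFun, Finset.disjoint_left]
    intro e h2 h3
    rw [List.mem_toFinset] at h2 h3
    exact hd i j hij e h2 h3

private theorem ys_ite {t : ℕ} {M : Type} [AddCommMonoid M] (I : Finset (Fin t)) (a b : Fin t → M) :
    (∑ i, if i ∈ I then a i else b i) = ∑ i ∈ univ \ I, b i + ∑ i ∈ I, a i := by
  rw [← Finset.sum_sdiff (Finset.subset_univ I)]
  congr 1
  · apply Finset.sum_congr rfl
    intro i hi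
    rw [if_neg (Finset.mem_sdiff.1 hi).2]
  · apply Finset.sum_congr rfl
    intro i hi
    rw [if_pos hi]

theorem exists_free (k : ℕ) : ∃ T : ℕ, ∀ (Φ Vt Z Q : Type) [Fintype Φ] [Fintype Vt] [AddCommGroup Z] [Module F2 Z]
    [Module.Finite F2 Z] [AddCommGroup Q] [Module F2 Q] (S : Sys k Φ Vt Z Q) (W : Set (List (Ch S.P))) (lam mu : Finset (Ch S.P)), Canon S W →
    Ext S lam mu → ∀ (t : ℕ) (F G : Fin t → Φ) (P : Fin t → List (Ch S.P)), (∀ i, Leg S lam mu (F i) (G i) (P i)) →
    (∀ i j, i ≠ j → ∀ e, e ∈ P i → e ∉ P j) → T < t →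
    ∃ i, ∃ c ∈ W, DW S.D.s S.D.t (F i) (G i) c ∧ c ≠ [] ∧ c.length ≤ (P i).length ∧
      (c.length + (P i).length) % 2 = 0 ∧ (c.map S.D.q).sum = ((P i).map S.D.q).sum ∧ Free lam (P i) c := by
  obtain ⟨x1, hx1⟩ := card_rest k
  refine ⟨x1 * ((114 * k + 8) + 1) + 2 * (114 * k + 8) + 16 * (114 * k + 8) ^ 2, ?_⟩
  intro Φ Vt Z Q _ _ _ _ _ _ _ S W lam mu hW hx t F G P hl hdis ht
  have h1 : ∀ i, ∃ c ∈ W, DW S.D.s S.D.t (F i) (G i) c ∧ c ≠ [] ∧ c.length ≤ (P i).length ∧
      (c.length + (P i).length) % 2 = 0 ∧ (c.map S.D.q).sum = ((P i).map S.D.q).sum :=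
    fun i => hW (F i) (G i) (P i) (hl i).dw (hl i).ne
  choose c hcW hcdw hcne hclen hcpar hcsum using h1
  obtain ⟨R, hR⟩ : ∃ R : Finset (Ch S.P), R = mu.filter fun e => ∀ i, e ∉ P i := ⟨_, rfl⟩
  have hF : ∀ I : Finset (Fin t), ∑ v, ((mv R.toList v + ∑ i ∈ univ \ I, mv (P i) v + ∑ i ∈ I, mv (c i) v) - 1) ≤
      (114 * k + 8) := by
    intro I
    obtain ⟨l, hl0⟩ : ∃ l : List (Ch S.P), l = R.toList ++
        ((univ : Finset (Fin t)).toList.map fun i => if i ∈ I then c i else P i).flatten := ⟨_, rfl⟩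
    have h2 := lemF hx l 0 ?_ ?_
    · refine le_trans (le_of_eq ?_) (h2.trans (by omega))
      apply Finset.sum_congr rfl
      intro v _
      have h3 : mv l v = mv R.toList v + ∑ i ∈ univ \ I, mv (P i) v + ∑ i ∈ I, mv (c i) v := by
        unfold mv
        rw [hl0, List.countP_append, ys_cnt, add_assoc, ← ys_ite]
        congr 1
        apply Finset.sum_congr rfl
        intro i _
        split_ifs <;> rfl
      rw [h3]
    · rw [← hx.clsM]
      unfold Dat.cls
      rw [hl0, List.map_append, List.sum_append, ys_sum, Finset.sum_map_toList,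
        ys_split mu P (fun i => (hl i).subM) (fun i => (hl i).nodup) hdis, ← hR]
      congr 1
      apply Finset.sum_congr rfl
      intro i _
      split_ifs
      · exact hcsum i
      · rfl
    · rw [hl0, List.length_append, ys_len, Finset.length_toList, add_zero]
      have h3 := ys_split mu P (fun i => (hl i).subM) (fun i => (hl i).nodup) hdis (fun _ => 1)
      rw [← hR] at h3
      rw [← Finset.card_eq_sum_ones, ← Finset.card_eq_sum_ones] at h3
      rw [h3]
      apply Nat.add_le_add_left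
      apply Finset.sum_le_sum
      intro i _
      have h4 : ((P i).map fun _ => 1).sum = (P i).length := by
        rw [List.map_const', List.sum_replicate, smul_eq_mul, mul_one]
      rw [h4]
      split_ifs
      · exact hclen i
      · exact le_refl _
  obtain ⟨i, hi⟩ := conflict_free (114 * k + 8) x1 t (fun v => mv R.toList v) (fun i v => mv (P i) v)
    (fun i v => mv (c i) v) ((lam \ mu).image Ch.vx)
    (Finset.card_image_le.trans (hx1 Φ Vt Z Q S lam mu hx)) hF ht
  refine ⟨i, c i, hcW i, hcdw i, hcne i, hclen i, hcpar i, hcsum i, ?_⟩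
  have hpos : ∀ (l : List (Ch S.P)) (e : Ch S.P), e ∈ l → 0 < mv l e.vx := by
    intro l e he
    unfold mv
    rw [List.countP_pos_iff]
    exact ⟨e, he, decide_eq_true rfl⟩
  intro e he
  obtain ⟨h3, h4, h5, h6⟩ := hi e.vx (hpos _ e he)
  refine ⟨h4, ?_⟩
  intro e' he' hn hv
  by_cases hmu : e' ∈ mu
  · by_cases hP : ∀ j, e' ∉ P j
    · have h7 := hpos R.toList e' (Finset.mem_toList.2 (by rw [hR]; exact Finset.mem_filter.2 ⟨hmu, hP⟩))
      rw [hv] at h7
      exact absurd h5 (Nat.pos_iff_ne_zero.1 h7)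
    · push Not at hP
      obtain ⟨j, hj⟩ := hP
      have hji : j ≠ i := by
        rintro rfl
        exact hn hj
      have h7 := hpos (P j) e' hj
      rw [hv] at h7
      exact absurd (h6 j hji) (Nat.pos_iff_ne_zero.1 h7)
  · apply h3
    rw [← hv]
    exact Finset.mem_image_of_mem _ (Finset.mem_sdiff.2 ⟨he', hmu⟩)

end Pool.Agent.RPH
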