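import Pool.Agent.RPH.YPair
import Pool.Agent.RPH.YJoin
import Pool.Agent.RPH.YSel
import Pool.Agent.RPH.YRep

/-!
# RPH-YSh: shortening

PLAN. `C` from `exists_pairs k`, `T` from `exists_free k`, `S0 := 6 * T + C`. Then `T < Pm.card`. Enumerate `Pm` by
`Fin Pm.card`; `join_leg` gives the legs `P i`, pairwise disjoint (`hd.nodup`, the pairs are disjoint). `exists_free` gives
an index `i`, a pair `(a, b)`, and `c`; `replace` gives the new extremal set. `ls' := c :: ` (the members of `ls` at the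
positions different from `a`, `b`), of length `ls.length - 1`: its flattening has no repetitions and covers the new set
(`P i` is a permutation of `ls.get a ++ ls.get b`; the other members are disjoint from `c` by `replace`).
-/

set_option autoImplicit false

open Finset
open scoped Classical

namespace Pool.Agent.RPH

open Pool.Agent.EPH Pool.Agent.BEO

/-- the members of a decomposition are disjoint -/
private theorem ysh_disj {α : Type} {ls : List (List α)} (h : ls.flatten.Nodup) {i j : Fin ls.length} (hij : i ≠ j)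
    {e : α} (hi : e ∈ ls.get i) : e ∉ ls.get j := by
  intro hj
  have h1 := (List.nodup_flatten.1 h).2
  rw [List.pairwise_iff_get] at h1
  rcases lt_or_gt_of_ne hij with h2 | h2
  · exact h1 i j h2 hi hj
  · exact h1 j i h2 hj hi

/-- the other members -/
private def yshRest {α : Type} (ls : List (List α)) (a b : Fin ls.length) : List (List α) :=
  ((List.finRange ls.length).filter fun j => decide (j ≠ a ∧ j ≠ b)).map ls.get

private theorem ysh_mem {α : Type} {ls : List (List α)} {a b : Fin ls.length} {w : List α} :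
    w ∈ yshRest ls a b ↔ ∃ j, j ≠ a ∧ j ≠ b ∧ ls.get j = w := by
  unfold yshRest
  rw [List.mem_map]
  constructor
  · rintro ⟨j, hj, rfl⟩
    rw [List.mem_filter, decide_eq_true_eq] at hj
    exact ⟨j, hj.2.1, hj.2.2, rfl⟩
  · rintro ⟨j, h1, h2, rfl⟩
    exact ⟨j, List.mem_filter.2 ⟨List.mem_finRange j, decide_eq_true ⟨h1, h2⟩⟩, rfl⟩

private theorem ysh_memf {α : Type} {ls : List (List α)} {a b : Fin ls.length} {e : α} :
    e ∈ (yshRest ls a b).flatten ↔ ∃ j, j ≠ a ∧ j ≠ b ∧ e ∈ ls.get j := by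
  rw [List.mem_flatten]
  constructor
  · rintro ⟨w, hw, he⟩
    obtain ⟨j, h1, h2, rfl⟩ := ysh_mem.1 hw
    exact ⟨j, h1, h2, he⟩
  · rintro ⟨j, h1, h2, he⟩
    exact ⟨_, ysh_mem.2 ⟨j, h1, h2, rfl⟩, he⟩

private theorem ysh_nodup {α : Type} {ls : List (List α)} (h : ls.flatten.Nodup) (a b : Fin ls.length) :
    (yshRest ls a b).flatten.Nodup := by
  rw [List.nodup_flatten]
  refine ⟨?_, ?_⟩
  · intro w hw
    obtain ⟨j, -, -, rfl⟩ := ysh_mem.1 hw
    exact (List.nodup_flatten.1 h).1 _ (List.get_mem ls j)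
  · unfold yshRest
    rw [List.pairwise_map]
    have h1 : ((List.finRange ls.length).filter fun j => decide (j ≠ a ∧ j ≠ b)).Nodup :=
      (List.nodup_finRange _).filter _
    refine List.Pairwise.imp ?_ h1
    intro i j hij e hi hj
    exact ysh_disj h hij hi hj

private theorem ysh_len {α : Type} {ls : List (List α)} {a b : Fin ls.length} (hab : a ≠ b) :
    (yshRest ls a b).length + 1 < ls.length := by
  unfold yshRest
  rw [List.length_map]
  have h1 := List.toFinset_card_of_nodup ((List.nodup_finRange ls.length).filter fun j => decide (j ≠ a ∧ j ≠ b))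
  have h2 : ((List.finRange ls.length).filter fun j => decide (j ≠ a ∧ j ≠ b)).toFinset ⊆
      (univ : Finset (Fin ls.length)) \ {a, b} := by
    intro j hj
    rw [List.mem_toFinset, List.mem_filter, decide_eq_true_eq] at hj
    rw [mem_sdiff, mem_insert, mem_singleton]
    exact ⟨mem_univ _, fun h => h.elim hj.2.1 hj.2.2⟩
  have h3 := card_le_card h2
  rw [card_sdiff_of_subset (subset_univ _), card_univ, Fintype.card_fin, card_pair hab, h1] at h3
  have h4 : 2 ≤ ls.length := by
    have h5 := card_le_univ ({a, b} : Finset (Fin ls.length))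
    rw [card_pair hab, Fintype.card_fin] at h5
    exact h5
  omega

theorem shorten (k : ℕ) : ∃ S0 : ℕ, ∀ (Φ Vt Z Q : Type) [Fintype Φ] [Fintype Vt] [AddCommGroup Z] [Module F2 Z]
    [Module.Finite F2 Z] [AddCommGroup Q] [Module F2 Q] (S : Sys k Φ Vt Z Q) (W : Set (List (Ch S.P))) (lam mu : Finset (Ch S.P))
    (ls : List (List (Ch S.P))), Canon S W → Ext S lam mu → Dec S W lam ls → S0 < ls.length →
    ∃ lam' mu' ls', Ext S lam' mu' ∧ Dec S W lam' ls' ∧ ls'.length < ls.length ∧ S.D.cls lam' = S.D.cls lam := by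
  obtain ⟨C, hC⟩ := exists_pairs k
  obtain ⟨T, hT⟩ := exists_free k
  refine ⟨6 * T + C, ?_⟩
  intro Φ Vt Z Q _ _ _ _ _ _ _ S W lam mu ls hW hE hD hlen
  obtain ⟨Pm, hP1, hP2, hP3⟩ := hC Φ Vt Z Q S W lam mu ls hE hD
  have hTP : T < Pm.card := by omega
  obtain ⟨e⟩ : Nonempty (Fin Pm.card ≃ Pm) := ⟨Pm.equivFin.symm⟩
  have hleg : ∀ i : Fin Pm.card, ∃ F G P, Leg S lam mu F G P ∧
      P.Perm (ls.get (e i : Fin ls.length × Fin ls.length).1 ++ ls.get (e i : Fin ls.length × Fin ls.length).2) := by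
    intro i
    obtain ⟨h1, h2, h3, h4⟩ := hP1 _ (e i).2
    exact join_leg hD _ _ h1 h3 h4 h2
  choose F G P hl hperm using hleg
  have hmemP : ∀ i x, x ∈ P i ↔ x ∈ ls.get (e i : Fin ls.length × Fin ls.length).1 ∨
      x ∈ ls.get (e i : Fin ls.length × Fin ls.length).2 := by
    intro i x
    rw [(hperm i).mem_iff, List.mem_append]
  have hdis : ∀ i j, i ≠ j → ∀ x, x ∈ P i → x ∉ P j := by
    intro i j hij x hx hx'
    have hne : (e i : Fin ls.length × Fin ls.length) ≠ (e j : Fin ls.length × Fin ls.length) :=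
      fun h => hij (e.injective (Subtype.ext h))
    obtain ⟨h1, h2, h3, h4⟩ := hP2 _ (e i).2 _ (e j).2 hne
    rcases (hmemP i x).1 hx with hx1 | hx1 <;> rcases (hmemP j x).1 hx' with hx2 | hx2
    · exact ysh_disj hD.nodup h1 hx1 hx2
    · exact ysh_disj hD.nodup h2 hx1 hx2
    · exact ysh_disj hD.nodup h3 hx1 hx2
    · exact ysh_disj hD.nodup h4 hx1 hx2
  obtain ⟨i, c, hcW, hcdw, hcne, hclen, hcpar, hccls, hcfree⟩ := hT Φ Vt Z Q S W lam mu hW hE Pm.card F G P hl hdis hTP
  obtain ⟨hcn, hcP, hcc, mu', hE'⟩ := replace hE (hl i) c hcdw hcne hclen hcpar hccls hcfree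
  obtain ⟨a, ha⟩ : ∃ a, a = (e i : Fin ls.length × Fin ls.length).1 := ⟨_, rfl⟩
  obtain ⟨b, hb⟩ : ∃ b, b = (e i : Fin ls.length × Fin ls.length).2 := ⟨_, rfl⟩
  have hab : a ≠ b := by
    rw [ha, hb]
    exact (hP1 _ (e i).2).1
  have hPab : ∀ x, x ∈ P i ↔ x ∈ ls.get a ∨ x ∈ ls.get b := by
    intro x
    rw [ha, hb]
    exact hmemP i x
  have hlam : ∀ j x, x ∈ ls.get j → x ∈ lam := fun j x hx =>
    (hD.cov x).2 (List.mem_flatten.2 ⟨_, List.get_mem ls j, hx⟩)
  have hout : ∀ j x, j ≠ a → j ≠ b → x ∈ ls.get j → x ∉ P i := by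
    intro j x h1 h2 hx hxP
    rcases (hPab x).1 hxP with h3 | h3
    · exact ysh_disj hD.nodup h1 hx h3
    · exact ysh_disj hD.nodup h2 hx h3
  refine ⟨_, mu', c :: yshRest ls a b, hE', ⟨?_, ?_, ?_, ?_, ?_⟩, ?_, hcc⟩
  · intro w hw
    rcases List.mem_cons.1 hw with rfl | hw
    · exact hcW
    · obtain ⟨j, -, -, rfl⟩ := ysh_mem.1 hw
      exact hD.mem _ (List.get_mem ls j)
  · intro w hw
    rcases List.mem_cons.1 hw with rfl | hw
    · exact ⟨_, _, hcdw⟩
    · obtain ⟨j, -, -, rfl⟩ := ysh_mem.1 hw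
      exact hD.walk _ (List.get_mem ls j)
  · intro w hw
    rcases List.mem_cons.1 hw with rfl | hw
    · exact hcne
    · obtain ⟨j, -, -, rfl⟩ := ysh_mem.1 hw
      exact hD.ne _ (List.get_mem ls j)
  · rw [List.flatten_cons, List.nodup_append]
    refine ⟨hcn, ysh_nodup hD.nodup a b, ?_⟩
    intro x hx y hy hxy
    subst hxy
    obtain ⟨j, h1, h2, h3⟩ := ysh_memf.1 hy
    exact hout j x h1 h2 h3 (hcP x hx (hlam j x h3))
  · intro x
    rw [List.flatten_cons, List.mem_append, mem_union, mem_filter, List.mem_toFinset, ysh_memf]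
    constructor
    · rintro (⟨h1, h2⟩ | h1)
      · right
        obtain ⟨w, hw, hxw⟩ := List.mem_flatten.1 ((hD.cov x).1 h1)
        obtain ⟨j, rfl⟩ := List.mem_iff_get.1 hw
        refine ⟨j, ?_, ?_, hxw⟩
        · rintro rfl
          exact h2 ((hPab x).2 (Or.inl hxw))
        · rintro rfl
          exact h2 ((hPab x).2 (Or.inr hxw))
      · exact Or.inl h1
    · rintro (h1 | ⟨j, h1, h2, h3⟩)
      · exact Or.inr h1
      · exact Or.inl ⟨hlam j x h3, hout j x h1 h2 h3⟩
  · rw [List.length_cons]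
    exact ysh_len hab

end Pool.Agent.RPH
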