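import Pool.Agent.RPH.LTcR
import Pool.Agent.RPH.LRed
import Pool.Agent.RPH.LNewR
import Pool.Agent.RPH.Opt

/-!
# RPH-LTopR: orientable maps in a piece can be replaced by unions of few canonical walks
-/

set_option autoImplicit false

open Finset
open scoped Classical

namespace Pool.Agent.RPH

open Pool.Agent.EPH Pool.Agent.BEO
open Pool.Agent.Helper35.OG hiding F2 dg

namespace Pce

variable {V : Type} {G : SimpleGraph V} [Fintype V]

theorem rkN_eg [Nontrivial V] (hG : G.Connected) (X : Pce G) (k : ℕ) (hB : X.B.card ≤ k)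
    (hH : Module.finrank F2 (HQ X.qe X.dF) ≤ k) (lam : Finset (Ch X.corP)) (T : GMap G)
    (h : ∀ z z' : cyc G, frm T z z' = frm X.M0 z z' + ∑ e ∈ lam, (X.qe e).1 z * (X.qe e).1 z') :
    (((X.mkS hG k hB hH).D.rkN lam : ℕ) : ℤ) = T.eg := by
  have h1 : (X.mkS hG k hB hH).D.N lam = frm T := by
    apply LinearMap.ext
    intro z
    apply LinearMap.ext
    intro z'
    rw [X.N_mkS, h]
  unfold Dat.rkN
  rw [h1]
  exact frm_rank hG T

end Pce

theorem exists_new (k : ℕ) : ∃ T : ℕ, ∀ (V : Type) [Fintype V] [Nontrivial V] (G : SimpleGraph V) (hG : G.Connected)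
    (X : Pce G) (hB : X.B.card ≤ k) (hH : Module.finrank F2 (HQ X.qe X.dF) ≤ k), X.M.Orientable →
    ∀ W : Set (List (Ch X.corP)), Canon (X.mkS hG k hB hH) W → ∃ ls : List (List (Ch X.corP)), ls.length ≤ T ∧
      (∀ w ∈ ls, w ∈ W) ∧ Real X.corP (oddE ls.flatten) ∧ ∃ M' : GMap G, M'.Orientable ∧ M'.eg ≤ X.M.eg ∧
        (∀ p, ¬ AF X.D X.M p → M'.nxt p = X.M.nxt p) ∧ X.IsR (oddE ls.flatten) M' := by
  obtain ⟨T, hT⟩ := exists_optW k
  refine ⟨T, ?_⟩
  intro V _ _ G hG X hB hH hor W hW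
  have h2 : ∀ x y : F2, x + y = 0 → x = y := by decide
  have h3 : ∀ x : F2, x * x = x := by decide
  obtain ⟨nu, hn1, hn2⟩ := X.exists_lamM
  have hadm : ∀ z : cyc G, frm X.M0 z z = ((X.mkS hG k hB hH).D.cls nu).1 z := by
    intro z
    have h4 := (frm_alt X.M).1 hor z
    rw [hn2] at h4
    rw [X.cls_fst]
    refine (h2 _ _ h4).trans (Finset.sum_congr rfl fun e _ => h3 _)
  have hadm' : ∀ mu : Finset (Ch X.corP), (X.mkS hG k hB hH).D.cls mu = (X.mkS hG k hB hH).D.cls nu →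
      ∀ z : cyc G, frm X.M0 z z = ∑ e ∈ mu, (X.qe e).1 z := by
    intro mu hmu z
    rw [hadm z, ← hmu, X.cls_fst]
  obtain ⟨ls, hl1, hl2, hl3, hl4, hl5⟩ := hT (X.S.Face ⊕ Flag G) V (cyc G) (QT X.S) (X.mkS hG k hB hH) W hW nu hn1
    (fun F hF => by
      have h4 : (X.mkS hG k hB hH).D.dF F ((X.mkS hG k hB hH).D.cls nu) =
          ((X.mkS hG k hB hH).D.cls nu).1 (X.zz F) := by
        rw [X.cls_fst]
        show X.dF F (∑ e ∈ nu, X.qe e) = _
        rw [map_sum]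
        exact Finset.sum_congr rfl fun e _ => (X.bd F hF e).symm
      rw [h4, ← hadm, X.rad])
    (fun mu hmu => X.tch_P hG k hB hH _ mu (hadm' mu hmu))
  obtain ⟨M', hM1, hM2, hM3⟩ := X.exists_newR (oddE ls.flatten) hl3
  refine ⟨ls, hl1, hl2, hl3, M', ?_, ?_, hM2, hM1⟩
  · rw [frm_alt]
    intro z
    rw [hM3, hadm' _ hl4]
    have h5 : ∀ x : F2, x + x = 0 := by decide
    rw [Finset.sum_congr rfl fun e _ => h3 ((X.qe e).1 z)]
    exact h5 _
  · rw [← Pce.rkN_eg hG X k hB hH _ M' hM3, ← Pce.rkN_eg hG X k hB hH nu X.M hn2]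
    exact_mod_cast hl5

end Pool.Agent.RPH
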