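import Pool.Agent.RPH.CBase

/-!
# RPH-PCfg: configurations inside a piece

As `Cfg` (`Pool/Agent/RPH/CBase.lean`), but the degrees are even only outside a bounded set `B`.
-/

set_option autoImplicit false

open Finset
open scoped Classical

namespace Pool.Agent.RPH

open Pool.Agent.BEO hiding Cfg Frame

/-- the row of `v` outside `B` -/
noncomputable def rowI {V : Type} (L : SimpleGraph V) (B : Finset V) (v u : {v : V // v ∉ B}) : F2 :=
  if L.Adj v.1 u.1 then 1 else 0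

noncomputable def rowISp {V : Type} (L : SimpleGraph V) (B : Finset V) : Submodule F2 ({v : V // v ∉ B} → F2) :=
  Submodule.span F2 (Set.range (rowI L B))

structure PCfg (k : ℕ) (V Q : Type) [Fintype V] [AddCommGroup Q] [Module F2 Q] where
  /-- the graph of the extremal set -/
  L : SimpleGraph V
  /-- its smallest subset with the same class -/
  M : SimpleGraph V
  /-- the pairs of faces with a common vertex -/
  R : SimpleGraph V
  le : M ≤ L
  leR : L ≤ R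
  /-- the exceptional vertices -/
  B : Finset V
  cardB : B.card ≤ k
  /-- the class of an edge -/
  a : Sym2 V → Q
  /-- the classes of the sets which are even outside `B` -/
  H : Submodule F2 Q
  evL : ∀ v, v ∉ B → Even (nb L v).card
  evM : ∀ v, v ∉ B → Even (nb M v).card
  par : ∀ v, Even ((nb L v).card + (nb M v).card)
  touch : ∀ (N : ℕ) (q : ℕ → V) (v : Fin 3 → V) (w : ∀ i, R.Walk (v i) (v i)) (α β : Fin 3 → ℕ),
    (∀ t, t < N → M.Adj (q t) (q (t + 1))) →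
    (∀ t t', t ≤ N → t' ≤ N → q t = q t' → t = t') →
    β 0 + (60 * k + 60) ≤ α 1 → β 1 + (60 * k + 60) ≤ α 2 → β 2 ≤ N →
    (∀ i, ∃ t, α i < t ∧ t < β i ∧ q t ∈ (w i).support) →
    (∀ i t, α i < t → t < β i → ∀ u, M.Adj (q t) u → u = q (t - 1) ∨ u = q (t + 1)) →
    (∀ i, ∀ F ∈ vs M, ∀ F' ∈ (w i).support, F = F' ∨ R.Adj F F' → ∃ t, α i < t ∧ t < β i ∧ F = q t) →
    (∀ i j, i ≠ j → ∀ F ∈ (w i).support, ∀ F' ∈ (w j).support, F ≠ F' ∧ ¬ R.Adj F F') →
    (∀ i, (w i).length ≤ 4) → (∀ i, ∀ F ∈ (w i).support, F ∉ B) → (∀ t, t ≤ N → q t ∉ B) →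
    ((w 0).edges.map a).sum = ((w 1).edges.map a).sum → ((w 1).edges.map a).sum = ((w 2).edges.map a).sum →
    ((w 0).edges.map a).sum = 0
  clsR : ∀ χ : Finset (Sym2 V), (∀ e ∈ χ, e ∈ R.edgeSet) → (∀ v, v ∉ B → Even (dg χ v)) → ∑ e ∈ χ, a e ∈ H
  finH : Module.Finite F2 H
  dimH : Module.finrank F2 H ≤ k
  mn : ∀ χ : Finset (Sym2 V), (∀ e ∈ χ, e ∈ L.edgeSet) → (∀ v, Even (dg χ v)) → ∑ e ∈ χ, a e = 0 →
    (χ.filter fun e => e ∈ M.edgeSet).card ≤ (χ.filter fun e => e ∉ M.edgeSet).card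
  mnR : ∀ χ : Finset (Sym2 V), (∀ e ∈ χ, e ∈ R.edgeSet) → (∀ v, Even (dg χ v)) → ∑ e ∈ χ, a e = 0 →
    (χ.filter fun e => e ∈ M.edgeSet).card ≤ (χ.filter fun e => e ∉ M.edgeSet).card + 13 * k
  clLM : ∑ e ∈ es L, a e = ∑ e ∈ es M, a e
  rk : Module.finrank F2 (rowISp L B) ≤ k + (es M).card
  lb : ∀ L' : SimpleGraph V, L' ≤ L → (∀ v, v ∉ B → Even (nb L' v).card) →
    (∀ v, Even ((nb L' v).card + (nb M v).card)) → ∑ e ∈ es L', a e = ∑ e ∈ es M, a e →
    (es M).card ≤ Module.finrank F2 (rowISp L' B) + 12 * k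

end Pool.Agent.RPH
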