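import Pool.Agent.RPH.NPar
import Pool.Agent.EPH.NAbs
import Pool.Agent.RPH.PCfg

/-!
# RPH-NLb: the lower bound by the rows
-/

set_option autoImplicit false

open Finset
open scoped Classical

namespace Pool.Agent.RPH

open Pool.Agent.EPH Pool.Agent.BEO

variable {k : ℕ} {Φ Vt Z Q : Type} [Fintype Φ] [Fintype Vt] [AddCommGroup Z] [Module F2 Z] [Module.Finite F2 Z]
  [AddCommGroup Q] [Module F2 Q]

omit [Module.Finite F2 Z] in
private theorem nlb_ne (S : Sys k Φ Vt Z Q) (e : Ch S.P) : S.D.s e ≠ S.D.t e := by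
  rw [S.hs, S.ht]
  intro h
  have h1 : e.lo = e.hi := S.P.inj e.vx e.lo e.hi e.1.2.1.2 e.1.2.2.2 h
  have h2 : e.lo < e.hi := e.2
  omega

private theorem nlb_list (L : SimpleGraph Φ) (B : Finset Φ) (ℓ : List ({v : Φ // v ∉ B} × {v : Φ // v ∉ B}))
    (h1 : ∀ p ∈ ℓ, rowI L B p.1 p.2 = 1)
    (h2 : ℓ.Pairwise fun p q => rowI L B p.1 q.2 = 0) : ℓ.length ≤ Module.finrank F2 (rowISp L B) := by
  have hmem : ∀ v, rowI L B v ∈ rowISp L B := fun v => Submodule.subset_span ⟨v, rfl⟩
  have hp := List.pairwise_iff_get.1 h2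
  have hli : LinearIndependent F2 (fun i : Fin ℓ.length => (⟨rowI L B (ℓ.get i).1, hmem _⟩ : rowISp L B)) := by
    rw [Fintype.linearIndependent_iff]
    intro g hg
    by_contra hcon
    push Not at hcon
    obtain ⟨j0, hj0⟩ := hcon
    have hne : (univ.filter fun j => g j ≠ 0).Nonempty := ⟨j0, mem_filter.2 ⟨mem_univ _, hj0⟩⟩
    obtain ⟨j, hj, hmax⟩ : ∃ j ∈ univ.filter (fun j => g j ≠ 0),
        ∀ i ∈ univ.filter (fun j => g j ≠ 0), i ≤ j :=
      ⟨_, Finset.max'_mem _ hne, fun i hi => Finset.le_max' _ i hi⟩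
    have h3 : (∑ i, g i • (⟨rowI L B (ℓ.get i).1, hmem _⟩ : rowISp L B)).1 (ℓ.get j).2 = 0 := by
      rw [hg]
      rfl
    rw [AddSubmonoidClass.coe_finsetSum, Finset.sum_apply, Finset.sum_eq_single j] at h3
    · have h4 : g j * rowI L B (ℓ.get j).1 (ℓ.get j).2 = 0 := h3
      rw [h1 _ (List.get_mem ℓ j), mul_one] at h4
      exact (mem_filter.1 hj).2 h4
    · intro i _ hij
      show g i * rowI L B (ℓ.get i).1 (ℓ.get j).2 = 0
      rcases lt_or_gt_of_ne hij with h4 | h4
      · rw [hp i j h4, mul_zero]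
      · have h5 : g i = 0 := by
          by_contra h6
          have h7 := hmax i (mem_filter.2 ⟨mem_univ _, h6⟩)
          exact absurd h7 (not_le.2 h4)
        rw [h5, zero_mul]
    · intro h4
      exact absurd (mem_univ _) h4
  have h3 := hli.fintype_card_le_finrank
  rwa [Fintype.card_fin] at h3

private theorem nlb_ind {E A : Type} [Fintype E] [AddCommMonoid A] (nu : Finset E) (f : E → A) :
    ∑ e, (if e ∈ nu then f e else 0) = ∑ e ∈ nu, f e := by
  rw [Finset.sum_ite_mem, Finset.univ_inter]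

/-- the exceptional faces are contracted to `none` -/
private noncomputable def nlbPi (B : Finset Φ) (F : Φ) : Option Φ := if F ∈ B then none else some F

omit [Fintype Φ] in
private theorem nlbPi_some {B : Finset Φ} {x F : Φ} (h : nlbPi B x = some F) : x = F ∧ F ∉ B := by
  unfold nlbPi at h
  by_cases hx : x ∈ B
  · rw [if_pos hx] at h
    exact absurd h (by simp)
  · rw [if_neg hx] at h
    have h1 : x = F := Option.some.inj h
    exact ⟨h1, h1 ▸ hx⟩

omit [Fintype Φ] in
private theorem nlbPi_iff {B : Finset Φ} {x F : Φ} (hF : F ∉ B) : nlbPi B x = some F ↔ x = F := by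
  constructor
  · intro h
    exact (nlbPi_some h).1
  · rintro rfl
    unfold nlbPi
    rw [if_neg hF]

omit [Module.Finite F2 Z] in
private theorem nlb_adj0 (S : Sys k Φ Vt Z Q) (nu : Finset (Ch S.P)) (u v : Option Φ) :
    Helper35.OG.adj (fun e => nlbPi S.D.B (S.D.s e)) (fun e => nlbPi S.D.B (S.D.t e)) nu u v =
      ∑ e ∈ nu, ((if nlbPi S.D.B (S.D.s e) = u ∧ nlbPi S.D.B (S.D.t e) = v then (1 : F2) else 0) +
        (if nlbPi S.D.B (S.D.s e) = v ∧ nlbPi S.D.B (S.D.t e) = u then 1 else 0)) := by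
  rw [← nlb_ind]
  show ∑ e, Helper35.OG.ind nu e * ((if nlbPi S.D.B (S.D.s e) = u ∧ nlbPi S.D.B (S.D.t e) = v then 1 else 0) +
    (if nlbPi S.D.B (S.D.s e) = v ∧ nlbPi S.D.B (S.D.t e) = u then 1 else 0)) = _
  refine sum_congr rfl fun e _ => ?_
  unfold Helper35.OG.ind
  split_ifs <;> simp

omit [Module.Finite F2 Z] in
private theorem nlb_adj (S : Sys k Φ Vt Z Q) (nu : Finset (Ch S.P)) (hp : NoPar S nu)
    (F G : {v : Φ // v ∉ S.D.B}) :
    Helper35.OG.adj (fun e => nlbPi S.D.B (S.D.s e)) (fun e => nlbPi S.D.B (S.D.t e)) nu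
      (some F.1) (some G.1) = rowI (S.D.gr nu) S.D.B F G := by
  obtain ⟨F, hF⟩ := F
  obtain ⟨G, hG⟩ := G
  have h0 : Helper35.OG.adj (fun e => nlbPi S.D.B (S.D.s e)) (fun e => nlbPi S.D.B (S.D.t e)) nu
      (some F) (some G) =
      ∑ e ∈ nu, ((if S.D.s e = F ∧ S.D.t e = G then (1 : F2) else 0) +
        (if S.D.s e = G ∧ S.D.t e = F then 1 else 0)) := by
    rw [nlb_adj0]
    refine sum_congr rfl fun e _ => ?_
    have h1 : (nlbPi S.D.B (S.D.s e) = some F ∧ nlbPi S.D.B (S.D.t e) = some G) ↔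
        (S.D.s e = F ∧ S.D.t e = G) := and_congr (nlbPi_iff hF) (nlbPi_iff hG)
    have h2 : (nlbPi S.D.B (S.D.s e) = some G ∧ nlbPi S.D.B (S.D.t e) = some F) ↔
        (S.D.s e = G ∧ S.D.t e = F) := and_congr (nlbPi_iff hG) (nlbPi_iff hF)
    simp only [h1, h2]
  rw [h0]
  unfold rowI
  by_cases hA : (S.D.gr nu).Adj F G
  · rw [if_pos hA]
    obtain ⟨hFG, e, he, h1⟩ := hA
    rw [Finset.sum_eq_single_of_mem e he]
    · rcases h1 with h1 | h1
      · rw [if_pos h1, if_neg (fun h2 => hFG (h1.1.symm.trans h2.1)), add_zero]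
      · rw [if_pos h1, if_neg (fun h2 => hFG (h2.1.symm.trans h1.1)), zero_add]
    · intro e' he' hne
      have h3 : ¬ ((S.D.s e' = F ∧ S.D.t e' = G) ∨ (S.D.s e' = G ∧ S.D.t e' = F)) := by
        intro h4
        apply hne
        refine hp e' he' e he ?_
        have h5 : s(S.D.s e', S.D.t e') = s(F, G) := Sym2.eq_iff.2 h4
        have h6 : s(S.D.s e, S.D.t e) = s(F, G) := Sym2.eq_iff.2 h1
        rw [h5, h6]
      push Not at h3
      rw [if_neg (fun h4 => h3.1 h4.1 h4.2), if_neg (fun h4 => h3.2 h4.1 h4.2), add_zero]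
  · rw [if_neg hA]
    refine Finset.sum_eq_zero fun e he => ?_
    by_cases hFG : F = G
    · have h1 := nlb_ne S e
      rw [if_neg (fun h2 => h1 (h2.1.trans (hFG.trans h2.2.symm))),
        if_neg (fun h2 => h1 (h2.1.trans (hFG.symm.trans h2.2.symm))), add_zero]
    · rw [if_neg (fun h2 => hA ⟨hFG, e, he, Or.inl h2⟩), if_neg (fun h2 => hA ⟨hFG, e, he, Or.inr h2⟩),
        add_zero]

omit [Module.Finite F2 Z] in
private theorem nlb_end (S : Sys k Φ Vt Z Q) (nu : Finset (Ch S.P)) {u v : Option Φ}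
    (h : Helper35.OG.adj (fun e => nlbPi S.D.B (S.D.s e)) (fun e => nlbPi S.D.B (S.D.t e)) nu u v = 1) :
    (∀ F, u = some F → F ∉ S.D.B) ∧ ∀ F, v = some F → F ∉ S.D.B := by
  rw [nlb_adj0] at h
  have h1 : ∃ e, (nlbPi S.D.B (S.D.s e) = u ∧ nlbPi S.D.B (S.D.t e) = v) ∨
      (nlbPi S.D.B (S.D.s e) = v ∧ nlbPi S.D.B (S.D.t e) = u) := by
    by_contra hcon
    push Not at hcon
    rw [Finset.sum_eq_zero] at h
    · exact zero_ne_one h
    · intro e _
      rw [if_neg (fun h2 => (hcon e).1 h2.1 h2.2), if_neg (fun h2 => (hcon e).2 h2.1 h2.2), add_zero]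
  obtain ⟨e, h2 | h2⟩ := h1
  · exact ⟨fun F hF => (nlbPi_some (h2.1.trans hF)).2, fun F hF => (nlbPi_some (h2.2.trans hF)).2⟩
  · exact ⟨fun F hF => (nlbPi_some (h2.2.trans hF)).2, fun F hF => (nlbPi_some (h2.1.trans hF)).2⟩

/-- the pairs of nonexceptional faces -/
private noncomputable def nlbG (B : Finset Φ) :
    Option Φ × Option Φ → Option ({v : Φ // v ∉ B} × {v : Φ // v ∉ B})
  | (some F, some G) => if h : F ∉ B ∧ G ∉ B then some (⟨F, h.1⟩, ⟨G, h.2⟩) else none
  | _ => none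

omit [Fintype Φ] in
private theorem nlbG_some {B : Finset Φ} {p : Option Φ × Option Φ} {r : {v : Φ // v ∉ B} × {v : Φ // v ∉ B}}
    (h : nlbG B p = some r) : p = (some r.1.1, some r.2.1) := by
  obtain ⟨u, v⟩ := p
  rcases u with _ | F
  · exact absurd h (by simp [nlbG])
  · rcases v with _ | G
    · exact absurd h (by simp [nlbG])
    · by_cases hh : F ∉ B ∧ G ∉ B
      · have h1 : nlbG B (some F, some G) = some (⟨F, hh.1⟩, ⟨G, hh.2⟩) := by
          exact dif_pos hh
        rw [h1] at h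
        have h2 := Option.some.inj h
        rw [← h2]
      · have h1 : nlbG B (some F, some G) = none := by
          exact dif_neg hh
        rw [h1] at h
        exact absurd h (by simp)

omit [Fintype Φ] in
private theorem nlb_len (B : Finset Φ) : ∀ ℓ : List (Option Φ × Option Φ),
    (∀ p ∈ ℓ, (∀ F, p.1 = some F → F ∉ B) ∧ ∀ F, p.2 = some F → F ∉ B) →
    ℓ.length ≤ (ℓ.filterMap (nlbG B)).length + (ℓ.map Prod.fst).count none + (ℓ.map Prod.snd).count none := by
  intro ℓ
  induction ℓ with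
  | nil => intro _; simp
  | cons p ℓ ih =>
    intro h
    have ih' := ih fun q hq => h q (List.mem_cons_of_mem _ hq)
    have h0 := h p (by simp)
    obtain ⟨u, v⟩ := p
    change ℓ.length + 1 ≤ (((u, v) :: ℓ).filterMap (nlbG B)).length + (u :: ℓ.map Prod.fst).count none +
      (v :: ℓ.map Prod.snd).count none
    have m1 : (ℓ.filterMap (nlbG B)).length ≤ (((u, v) :: ℓ).filterMap (nlbG B)).length := by
      rcases hg : nlbG B (u, v) with _ | r
      · rw [List.filterMap_cons_none hg]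
      · rw [List.filterMap_cons_some hg, List.length_cons]
        exact Nat.le_succ _
    have m2 : (ℓ.map Prod.fst).count none ≤ (u :: ℓ.map Prod.fst).count none :=
      List.Sublist.count_le _ (List.sublist_cons_self _ _)
    have m3 : (ℓ.map Prod.snd).count none ≤ (v :: ℓ.map Prod.snd).count none :=
      List.Sublist.count_le _ (List.sublist_cons_self _ _)
    rcases u with _ | F
    · have h1 : (none :: ℓ.map Prod.fst).count none = (ℓ.map Prod.fst).count none + 1 :=
        List.count_cons_self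
      omega
    · rcases v with _ | G
      · have h1 : (none :: ℓ.map Prod.snd).count none = (ℓ.map Prod.snd).count none + 1 :=
          List.count_cons_self
        omega
      · have hh : F ∉ B ∧ G ∉ B := ⟨h0.1 F rfl, h0.2 G rfl⟩
        have h1 : nlbG B (some F, some G) = some (⟨F, hh.1⟩, ⟨G, hh.2⟩) := by
          exact dif_pos hh
        have h2 : (((some F, some G) :: ℓ).filterMap (nlbG B)).length = (ℓ.filterMap (nlbG B)).length + 1 := by
          rw [List.filterMap_cons_some h1, List.length_cons]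
        omega

omit [Module.Finite F2 Z] in
private theorem nlb_c (S : Sys k Φ Vt Z Q) (nu : Finset (Ch S.P)) :
    Fintype.linearCombination F2 S.D.q (Helper35.OG.ind nu) = S.D.cls nu := by
  rw [Fintype.linearCombination_apply]
  show _ = ∑ e ∈ nu, S.D.q e
  rw [← nlb_ind nu]
  refine sum_congr rfl fun e _ => ?_
  unfold Helper35.OG.ind
  by_cases he : e ∈ nu
  · rw [if_pos he, if_pos he, one_smul]
  · rw [if_neg he, if_neg he, zero_smul]

private theorem nlb_f2 (x : F2) : x + x = 0 := by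
  have h : ∀ y : ZMod 2, y + y = 0 := by decide
  exact h x

omit [Module.Finite F2 Z] in
private theorem nlb_ker (S : Sys k Φ Vt Z Q) {x : Ch S.P → F2}
    (hx : Helper35.OG.bd (fun e => nlbPi S.D.B (S.D.s e)) (fun e => nlbPi S.D.B (S.D.t e)) x = 0) :
    Fintype.linearCombination F2 S.D.q x ∈ S.D.HB := by
  rw [S.D.mem_HB]
  refine ⟨?_, fun F hF => ?_⟩
  · rw [Fintype.linearCombination_apply]
    exact Submodule.sum_mem _ fun e _ => Submodule.smul_mem _ _ (Submodule.subset_span ⟨e, rfl⟩)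
  · have h1 : (Helper35.OG.bd (fun e => nlbPi S.D.B (S.D.s e)) (fun e => nlbPi S.D.B (S.D.t e)) x) (some F) = 0 :=
      congrFun hx (some F)
    rw [Fintype.linearCombination_apply, map_sum, ← h1]
    show _ = ∑ e, x e * ((if nlbPi S.D.B (S.D.s e) = some F then 1 else 0) +
      (if nlbPi S.D.B (S.D.t e) = some F then 1 else 0))
    refine sum_congr rfl fun e _ => ?_
    rw [map_smul, smul_eq_mul, S.D.inc]
    simp only [nlbPi_iff hF]

omit [Module.Finite F2 Z] in
private theorem nlb_bd (S : Sys k Φ Vt Z Q) (nu : Finset (Ch S.P))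
    (hev : ∀ F, F ∉ S.D.B → S.D.dF F (S.D.cls nu) = 0) :
    Helper35.OG.bd (fun e => nlbPi S.D.B (S.D.s e)) (fun e => nlbPi S.D.B (S.D.t e)) (Helper35.OG.ind nu) = 0 := by
  have hval : ∀ u : Option Φ, Helper35.OG.bd (fun e => nlbPi S.D.B (S.D.s e)) (fun e => nlbPi S.D.B (S.D.t e))
      (Helper35.OG.ind nu) u = ∑ e ∈ nu, ((if nlbPi S.D.B (S.D.s e) = u then (1 : F2) else 0) +
        (if nlbPi S.D.B (S.D.t e) = u then 1 else 0)) := by
    intro u
    rw [← nlb_ind]
    show ∑ e, Helper35.OG.ind nu e * ((if nlbPi S.D.B (S.D.s e) = u then 1 else 0) +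
      (if nlbPi S.D.B (S.D.t e) = u then 1 else 0)) = _
    refine sum_congr rfl fun e _ => ?_
    unfold Helper35.OG.ind
    by_cases he : e ∈ nu
    · rw [if_pos he, if_pos he, one_mul]
    · rw [if_neg he, if_neg he, zero_mul]
  have hsome : ∀ F : Φ, Helper35.OG.bd (fun e => nlbPi S.D.B (S.D.s e)) (fun e => nlbPi S.D.B (S.D.t e))
      (Helper35.OG.ind nu) (some F) = 0 := by
    intro F
    rw [hval]
    by_cases hF : F ∈ S.D.B
    · refine Finset.sum_eq_zero fun e _ => ?_
      rw [if_neg (fun h => (nlbPi_some h).2 hF), if_neg (fun h => (nlbPi_some h).2 hF), add_zero]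
    · have h0 := hev F hF
      rw [S.D.dF_cls] at h0
      refine (Finset.sum_congr rfl fun e _ => ?_).trans h0
      simp only [nlbPi_iff hF]
  funext u
  rcases u with _ | F
  · have h1 : ∑ u : Option Φ, Helper35.OG.bd (fun e => nlbPi S.D.B (S.D.s e)) (fun e => nlbPi S.D.B (S.D.t e))
        (Helper35.OG.ind nu) u = 0 := by
      rw [Finset.sum_congr rfl fun u _ => hval u, Finset.sum_comm]
      refine Finset.sum_eq_zero fun e _ => ?_
      rw [Finset.sum_add_distrib, Finset.sum_ite_eq, Finset.sum_ite_eq, if_pos (mem_univ _),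
        if_pos (mem_univ _)]
      exact nlb_f2 1
    rw [Fintype.sum_option, Finset.sum_eq_zero (fun F _ => hsome F), add_zero] at h1
    exact h1
  · exact hsome F

theorem lb_row {S : Sys k Φ Vt Z Q} {lam mu : Finset (Ch S.P)} (h : Ext S lam mu)
    (nu : Finset (Ch S.P)) (hs : nu ⊆ lam) (hn : S.D.cls nu = S.D.cls lam) :
    mu.card ≤ Module.finrank F2 (rowISp (S.D.gr nu) S.D.B) + (24 * k + 2) := by
  have hpl : NoPar S lam := noPar h
  have hpn : NoPar S nu := fun e he e' he' hee => hpl e (hs he) e' (hs he') hee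
  have hk : Module.finrank F2 ((LinearMap.ker (Helper35.OG.bd (fun e => nlbPi S.D.B (S.D.s e))
      (fun e => nlbPi S.D.B (S.D.t e)))).map (Fintype.linearCombination F2 S.D.q)) ≤ 2 * k := by
    have := S.D.fin_HB
    refine le_trans (Submodule.finrank_mono ?_) S.D.finrank_HB
    rintro _ ⟨x, hx, rfl⟩
    exact nlb_ker S (LinearMap.mem_ker.1 hx)
  have hb := nlb_bd S nu (fun F hF => by rw [hn]; exact h.ev F hF)
  obtain ⟨mu', hm1, -, hm3, ℓ, hl1, hl2, hl3⟩ :=
    abs_sub (fun e => nlbPi S.D.B (S.D.s e)) (fun e => nlbPi S.D.B (S.D.t e))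
      (Fintype.linearCombination F2 S.D.q) hk nu hb
  rw [nlb_c, nlb_c] at hm3
  have h4 := h.smallM mu' (hm1.trans hs) (hm3.trans hn)
  have hn1 : (ℓ.map Prod.fst).Nodup := by
    refine List.Pairwise.map (R := fun p q : Option Φ × Option Φ => p.1 ≠ q.1) _ (fun a b hab => hab) ?_
    refine hl2.imp_of_mem fun {p q} _ hq hpq heq => ?_
    rw [heq, hl1 q hq] at hpq
    exact one_ne_zero hpq
  have hn2 : (ℓ.map Prod.snd).Nodup := by
    refine List.Pairwise.map (R := fun p q : Option Φ × Option Φ => p.2 ≠ q.2) _ (fun a b hab => hab) ?_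
    refine hl2.imp_of_mem fun {p q} hp _ hpq heq => ?_
    rw [← heq, hl1 p hp] at hpq
    exact one_ne_zero hpq
  have hc1 : (ℓ.map Prod.fst).count none ≤ 1 := List.nodup_iff_count_le_one.1 hn1 none
  have hc2 : (ℓ.map Prod.snd).count none ≤ 1 := List.nodup_iff_count_le_one.1 hn2 none
  have hlen := nlb_len S.D.B ℓ fun p hp => nlb_end S nu (hl1 p hp)
  have h5 := nlb_list (S.D.gr nu) S.D.B (ℓ.filterMap (nlbG S.D.B)) (by
      intro r hr
      obtain ⟨p, hp, hpr⟩ := List.mem_filterMap.1 hr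
      have h6 := hl1 p hp
      rw [nlbG_some hpr] at h6
      rw [← nlb_adj S nu hpn]
      exact h6) (by
      refine hl2.filterMap _ ?_
      intro p q hpq r hr r' hr'
      rw [nlbG_some hr, nlbG_some hr'] at hpq
      rw [← nlb_adj S nu hpn]
      exact hpq)
  omega

end Pool.Agent.RPH
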