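import Pool.Agent.RPH.ExtD
import Pool.Agent.EPH.NPair

/-!
# RPH-NMat: corners are matched by noncrossing chords

The pairs of `pairsO` at all the vertices.
-/

set_option autoImplicit false

open Finset
open scoped Classical

namespace Pool.Agent.RPH

open Pool.Agent.EPH Pool.Agent.BEO

variable {k : ℕ} {Φ Vt Z Q : Type} [Fintype Φ] [Fintype Vt] [AddCommGroup Z] [Module F2 Z] [AddCommGroup Q] [Module F2 Q]

omit [Fintype Φ] [Fintype Vt] in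
private theorem ch_ext {P : Cor Φ Vt} : ∀ e e' : Ch P, e.vx = e'.vx → e.lo = e'.lo → e.hi = e'.hi →
    e = e' := by
  rintro ⟨⟨v, a, b⟩, h⟩ ⟨⟨v', a', b'⟩, h'⟩ h1 h2 h3
  change v = v' at h1
  subst h1
  change (a : ℕ) = (a' : ℕ) at h2
  change (b : ℕ) = (b' : ℕ) at h3
  have h4 : a = a' := Fin.ext h2
  have h5 : b = b' := Fin.ext h3
  subst h4
  subst h5
  rfl

private theorem fib (P : Cor Φ Vt) (Qp : Vt → Finset (ℕ × ℕ))
    (hQ : ∀ v, ∀ p ∈ Qp v, p.1 < p.2 ∧ p.2 < P.d v) {M : Type} [AddCommMonoid M]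
    (g : Vt → ℕ → ℕ → M) :
    ∑ e ∈ (univ.filter fun e : Ch P => (e.lo, e.hi) ∈ Qp e.vx), g e.vx e.lo e.hi =
      ∑ v, ∑ p ∈ Qp v, g v p.1 p.2 := by
  rw [Finset.sum_sigma']
  refine Finset.sum_bij (fun (e : Ch P) _ => (⟨e.vx, (e.lo, e.hi)⟩ : (_ : Vt) × (ℕ × ℕ))) ?_ ?_ ?_ ?_
  · intro e he
    rw [mem_filter] at he
    rw [mem_sigma]
    exact ⟨mem_univ _, he.2⟩
  · intro e _ e' _ h
    have h1 : e.vx = e'.vx := congrArg (fun x : (_ : Vt) × (ℕ × ℕ) => x.1) h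
    have h2 : (e.lo, e.hi) = (e'.lo, e'.hi) := congrArg (fun x : (_ : Vt) × (ℕ × ℕ) => x.2) h
    rw [Prod.mk.injEq] at h2
    exact ch_ext e e' h1 h2.1 h2.2
  · rintro ⟨v, p⟩ hp
    rw [mem_sigma] at hp
    obtain ⟨h1, h2⟩ := hQ v p hp.2
    obtain ⟨e, he1, he2, he3⟩ : ∃ e : Ch P, e.vx = v ∧ e.lo = p.1 ∧ e.hi = p.2 :=
      ⟨⟨⟨v, (⟨p.1, h1.trans h2⟩, ⟨p.2, h2⟩)⟩, h1⟩, rfl, rfl, rfl⟩
    refine ⟨e, ?_, ?_⟩
    · rw [mem_filter]
      refine ⟨mem_univ _, ?_⟩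
      rw [he1, he2, he3]
      exact hp.2
    · rw [he1, he2, he3]
  · intro e _
    rfl

theorem rematchO (S : Sys k Φ Vt Z Q) (O : Finset (Vt × ℕ)) (h1 : ∀ x ∈ O, x.2 < S.P.d x.1)
    (h2 : ∀ v, Even (O.filter fun x => x.1 = v).card) :
    ∃ nu : Finset (Ch S.P), Real S.P nu ∧ 2 * nu.card = O.card ∧ S.D.cls nu = ∑ x ∈ O, S.c x.1 x.2 := by
  obtain ⟨W, hW⟩ : ∃ W : Vt → Finset ℕ, ∀ v, W v = (O.filter fun x => x.1 = v).image Prod.snd :=
    ⟨_, fun _ => rfl⟩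
  have hinj : ∀ v, Set.InjOn (Prod.snd : Vt × ℕ → ℕ) (O.filter fun x => x.1 = v : Finset (Vt × ℕ)) := by
    intro v x hx y hy h
    rw [mem_coe, mem_filter] at hx hy
    exact Prod.ext (hx.2.trans hy.2.symm) h
  have hmW : ∀ v i, i ∈ W v ↔ (v, i) ∈ O := by
    intro v i
    rw [hW, mem_image]
    constructor
    · rintro ⟨⟨v', i'⟩, h, rfl⟩
      rw [mem_filter] at h
      obtain ⟨h3, h4⟩ := h
      change v' = v at h4
      subst h4
      exact h3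
    · intro h
      exact ⟨(v, i), mem_filter.2 ⟨h, rfl⟩, rfl⟩
  have hcW : ∀ v, (W v).card = (O.filter fun x => x.1 = v).card := by
    intro v
    rw [hW, card_image_of_injOn (hinj v)]
  choose Qp hQ1 hQ2 hQ3 using fun v => pairsO (W v) (by rw [hcW]; exact h2 v)
  have hQd : ∀ v, ∀ p ∈ Qp v, p.1 < p.2 ∧ p.2 < S.P.d v := by
    intro v p hp
    obtain ⟨_, h4, h5, _⟩ := hQ2 v p hp
    exact ⟨h5, h1 _ ((hmW v p.2).1 h4)⟩
  refine ⟨univ.filter fun e : Ch S.P => (e.lo, e.hi) ∈ Qp e.vx, ?_, ?_, ?_⟩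
  · intro v l m n _ _ _ _ hodd
    obtain ⟨ho1, ho2⟩ := hodd
    unfold cnt at ho1 ho2
    obtain ⟨e, he⟩ := card_pos.1 ho1.pos
    obtain ⟨e', he'⟩ := card_pos.1 ho2.pos
    rw [mem_filter, mem_filter] at he he'
    obtain ⟨⟨_, q1⟩, q2, q3, q4, q5, q6⟩ := he
    obtain ⟨⟨_, r1⟩, r2, r3, r4, r5, r6⟩ := he'
    rw [q2] at q1
    rw [r2] at r1
    exact (hQ2 v _ q1).2.2.2 e'.lo (hQ2 v _ r1).1
      ⟨lt_of_lt_of_le q4 r3, lt_of_lt_of_le r4 q5⟩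
  · have h3 := fib S.P Qp hQd (fun _ _ _ => 1)
    simp only [sum_const, smul_eq_mul, mul_one] at h3
    rw [h3, mul_sum]
    have h4 := card_eq_sum_card_fiberwise (f := fun x : Vt × ℕ => x.1) (s := O)
      (t := (univ : Finset Vt)) (fun x _ => by simp)
    rw [h4]
    exact sum_congr rfl fun v _ => by rw [hQ1 v, hcW v]
  · have h3 := fib S.P Qp hQd (fun v i j => S.c v i + S.c v j)
    unfold Dat.cls
    rw [sum_congr rfl fun e _ => S.hc e]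
    rw [h3]
    rw [sum_congr rfl fun v _ => hQ3 v Q (fun i => S.c v i)]
    have h5 : ∀ v ∈ (univ : Finset Vt), ∑ i ∈ W v, S.c v i =
        ∑ x ∈ O.filter (fun x => x.1 = v), S.c x.1 x.2 := by
      intro v _
      rw [hW, sum_image (hinj v)]
      refine sum_congr rfl fun x hx => ?_
      rw [(mem_filter.1 hx).2]
    rw [sum_congr rfl h5]
    exact sum_fiberwise O (fun x => x.1) fun x => S.c x.1 x.2

end Pool.Agent.RPH
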