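import Pool.Agent.RPH.NExt
import Pool.Agent.RPH.NLb

/-!
# RPH-NRk: the rank of the rows and the size of `mu`

Adapt `Pool/Agent/EPH/NRk.lean`. `row_eq`: for `F, G ∉ S.D.B` the entry `rowI (gr lam) F G` is `N lam (z F) (z G)` (`J_z`, `a_z`, `noPar h`; for
`F = G` both are 0: the degree of `F` is even by `h.ev`, `dF_cls`). `row_le`: `rematch` for `nu`, `h.opt`, `rank_ineq`. `near_min`:
`lb_row` for `lam` and `row_le` for `nu`.
-/

set_option autoImplicit false

open Finset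
open scoped Classical

namespace Pool.Agent.RPH

open Pool.Agent.EPH Pool.Agent.BEO

variable {k : ℕ} {Φ Vt Z Q : Type} [Fintype Φ] [Fintype Vt] [AddCommGroup Z] [Module F2 Z] [Module.Finite F2 Z]
  [AddCommGroup Q] [Module F2 Q]

omit [Module.Finite F2 Z] in
private theorem nr_st (S : Sys k Φ Vt Z Q) (e : Ch S.P) : S.D.s e ≠ S.D.t e := by
  rw [S.hs, S.ht]
  intro h
  have h1 : e.lo = e.hi := S.P.inj e.vx e.lo e.hi e.1.2.1.2 e.1.2.2.2 h
  have h2 : e.lo < e.hi := e.2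
  omega

omit [Module.Finite F2 Z] in
private theorem nr_mem (S : Sys k Φ Vt Z Q) (lam : Finset (Ch S.P)) (F G : Φ) :
    (S.D.gr lam).Adj F G ↔ ∃ e ∈ lam, s(S.D.s e, S.D.t e) = s(F, G) := by
  constructor
  · rintro ⟨_, e, he, h⟩
    exact ⟨e, he, Sym2.eq_iff.2 h⟩
  · rintro ⟨e, he, h⟩
    have h1 := Sym2.eq_iff.1 h
    refine ⟨?_, e, he, h1⟩
    have hne := nr_st S e
    rcases h1 with ⟨h3, h4⟩ | ⟨h3, h4⟩
    · rw [← h3, ← h4]
      exact hne
    · rw [← h3, ← h4]
      exact hne.symm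

omit [Module.Finite F2 Z] in
private theorem nr_prod (S : Sys k Φ Vt Z Q) (e : Ch S.P) (F G : Φ) (hF : F ∉ S.D.B) (hG : G ∉ S.D.B)
    (hFG : F ≠ G) :
    S.D.a e (S.D.z F) * S.D.a e (S.D.z G) = if s(S.D.s e, S.D.t e) = s(F, G) then 1 else 0 := by
  have hst := nr_st S e
  rw [S.D.a_z e F hF, S.D.a_z e G hG]
  by_cases h1 : S.D.s e = F
  · have h2 : S.D.t e ≠ F := fun h => hst (h1.trans h.symm)
    have h3 : S.D.s e ≠ G := fun h => hFG (h1.symm.trans h)
    rw [if_pos h1, if_neg h2, if_neg h3, add_zero, one_mul, zero_add]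
    by_cases h4 : S.D.t e = G
    · rw [if_pos h4, if_pos (by rw [h1, h4])]
    · rw [if_neg h4, if_neg]
      intro h5
      rcases Sym2.eq_iff.1 h5 with ⟨_, h6⟩ | ⟨h6, _⟩
      · exact h4 h6
      · exact h3 h6
  · by_cases h2 : S.D.t e = F
    · have h3 : S.D.t e ≠ G := fun h => hFG (h2.symm.trans h)
      rw [if_neg h1, if_pos h2, if_neg h3, zero_add, one_mul, add_zero]
      by_cases h4 : S.D.s e = G
      · rw [if_pos h4, if_pos (by rw [h2, h4]; exact Sym2.eq_swap)]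
      · rw [if_neg h4, if_neg]
        intro h5
        rcases Sym2.eq_iff.1 h5 with ⟨h6, _⟩ | ⟨h6, _⟩
        · exact h1 h6
        · exact h4 h6
    · rw [if_neg h1, if_neg h2, add_zero, zero_mul, if_neg]
      intro h5
      rcases Sym2.eq_iff.1 h5 with ⟨h6, _⟩ | ⟨_, h6⟩
      · exact h1 h6
      · exact h2 h6

omit [Module.Finite F2 Z] in
private theorem nr_row {S : Sys k Φ Vt Z Q} {lam mu : Finset (Ch S.P)} (h : Ext S lam mu)
    (F G : {F : Φ // F ∉ S.D.B}) :
    rowI (S.D.gr lam) S.D.B F G = S.D.N lam (S.D.z F.1) (S.D.z G.1) := by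
  rw [S.D.N_apply, S.D.J_z _ _ G.2, zero_add]
  unfold rowI
  by_cases hFG : F = G
  · subst hFG
    rw [if_neg (fun hh => (S.D.gr lam).loopless.irrefl _ hh)]
    have h1 := h.ev F.1 F.2
    rw [S.D.dF_cls] at h1
    have h2 : ∀ y : F2, y * y = y := by decide
    rw [sum_congr rfl fun e _ => h2 (S.D.a e (S.D.z F.1)), sum_congr rfl fun e _ => S.D.a_z e F.1 F.2, h1]
  · have hFG' : F.1 ≠ G.1 := fun hh => hFG (Subtype.ext hh)
    rw [sum_congr rfl fun e _ => nr_prod S e F.1 G.1 F.2 G.2 hFG']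
    by_cases hA : (S.D.gr lam).Adj F.1 G.1
    · rw [if_pos hA]
      obtain ⟨e, he, hee⟩ := (nr_mem S lam F.1 G.1).1 hA
      rw [sum_eq_single_of_mem e he, if_pos hee]
      intro e' he' hne
      rw [if_neg]
      intro h3
      exact hne (noPar h e' he' e he (h3.trans hee.symm))
    · rw [if_neg hA]
      symm
      refine sum_eq_zero fun e he => ?_
      rw [if_neg]
      intro h3
      exact hA ((nr_mem S lam F.1 G.1).2 ⟨e, he, h3⟩)

theorem row_eq {S : Sys k Φ Vt Z Q} {lam mu : Finset (Ch S.P)} (h : Ext S lam mu) :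
    Module.finrank F2 (rowISp (S.D.gr lam) S.D.B) ≤ S.D.gI lam := by
  have h1 : rowISp (S.D.gr lam) S.D.B = Submodule.span F2 (Set.range
      fun (F G : {F : Φ // F ∉ S.D.B}) => S.D.N lam (S.D.z F.1) (S.D.z G.1)) := by
    unfold rowISp
    congr 2
    funext F G
    exact nr_row h F G
  rw [h1]
  exact le_refl _

theorem row_le {S : Sys k Φ Vt Z Q} {lam mu : Finset (Ch S.P)} (h : Ext S lam mu) (nu : Finset (Ch S.P))
    (hn : S.D.cls nu = S.D.cls lam) :
    Module.finrank F2 (rowISp (S.D.gr lam) S.D.B) ≤ 4 * k + nu.card := by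
  obtain ⟨nu', hr, hc, hle⟩ := rematch S nu
  have h1 := h.opt nu' hr (hc.trans hn)
  have h2 := S.D.rank_ineq lam nu'
  have h3 := row_eq h
  omega

theorem near_min {S : Sys k Φ Vt Z Q} {lam mu : Finset (Ch S.P)} (h : Ext S lam mu) (nu : Finset (Ch S.P))
    (hn : S.D.cls nu = S.D.cls lam) : mu.card ≤ nu.card + (28 * k + 2) := by
  have h1 := lb_row h lam (subset_refl _) rfl
  have h2 := row_le h nu hn
  omega

end Pool.Agent.RPH
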