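import Pool.Agent.EPH.LHit
import Pool.Agent.RPH.LFul

/-!
# RPH-THit: corners hit by a list of chords

The colourings are those of `Pool/Agent/EPH/LRect.lean` (complete proof for rectangles; reuse its code: `lr_two`, `hσ1`, `hσ2`,
`hval`, `hmain`, `lr_vertex`, `lr_face`). `hit_cf`: `cf_face_inj`. `hit_zero`, `hit_cc`: exchange the sum over the list with the
others (induction on `l` with `hit_cons`, `clsL_cons`): a chord `e` contributes `1 + 1 = 0` at `v = e.vx`, resp.
`cc S b e.vx e.lo z + cc S b e.vx e.hi z` (`lr_two`). `chg_all`: every flag is `cf S b v m` or `side (cf S b v m)` (`cf_cover`,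
`nxt_cf`, `nxt_side_cf`, `cf_period`), as `hmain` in LRect; both sides do not change under `side` resp. are equal for the two
flags of a corner (`hN`). `cyc_zero`: `wd_cyc` in `Pool/Agent/EAD/LWid.lean`. `vert_const`, `face_const`: `lr_vertex`, `lr_face` in
LRect.
-/

set_option autoImplicit false

open Finset
open scoped Classical

namespace Pool.Agent.RPH

open Pool.Agent.EPH Pool.Agent.BEO
open Pool.Agent.Helper35.OG hiding F2 dg

variable {V : Type} {G : SimpleGraph V} [Fintype V]

/-- number (modulo 2) of the ends of the chords of `l` at the corner of `q` -/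
noncomputable def hit (S : GMap G) {b : V → Flag G} {hb : IsBase b} (l : List (Ch (corF S b hb)))
    (q : Flag G) : F2 :=
  (l.map fun e => if AtC S b e.vx e.lo q ∨ AtC S b e.vx e.hi q then (1 : F2) else 0).sum

/-- the class of a list of chords -/
noncomputable def clsL (S : GMap G) {b : V → Flag G} {hb : IsBase b} (l : List (Ch (corF S b hb))) :
    cyc G →ₗ[F2] F2 :=
  (l.map fun e => cc S b e.vx e.lo + cc S b e.vx e.hi).sum

variable (S : GMap G) {b : V → Flag G} {hb : IsBase b} (l l' : List (Ch (corF S b hb)))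

theorem hit_append (q : Flag G) : hit S (l ++ l') q = hit S l q + hit S l' q := by
  unfold hit
  rw [List.map_append, List.sum_append]

theorem clsL_append : clsL S (l ++ l') = clsL S l + clsL S l' := by
  unfold clsL
  rw [List.map_append, List.sum_append]

theorem atC_nxt (v : V) (i : ℕ) (q : Flag G) : AtC S b v i (S.nxt q) ↔ AtC S b v i q := by
  unfold AtC
  constructor
  · rintro (h | h)
    · exact Or.inr (by rw [← h, S.nxt_nxt])
    · exact Or.inl (by rw [← S.nxt_nxt q, h, S.nxt_nxt])
  · rintro (h | h)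
    · exact Or.inr (by rw [h])
    · exact Or.inl (by rw [h, S.nxt_nxt])

theorem hit_nxt (q : Flag G) : hit S l (S.nxt q) = hit S l q := by
  unfold hit
  simp only [atC_nxt]

theorem atC_fst (hb : IsBase b) {v : V} {i : ℕ} {q : Flag G} (h : AtC S b v i q) :
    q.1.fst = v ∧ S.face q = S.face (cf S b v i) := by
  rcases h with h | h
  · rw [h]
    exact ⟨cf_fst S hb v i, rfl⟩
  · rw [h, S.nxt_fst, face_nxt]
    exact ⟨cf_fst S hb v i, rfl⟩

theorem hit_ne (q : Flag G) (h : hit S l q ≠ 0) : ∃ e ∈ l, q.1.fst = e.vx ∧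
    (S.face q = S.face (cf S b e.vx e.lo) ∨ S.face q = S.face (cf S b e.vx e.hi)) := by
  by_contra hcon
  push Not at hcon
  apply h
  unfold hit
  apply List.sum_eq_zero
  intro x hx
  obtain ⟨e, he, rfl⟩ := List.mem_map.1 hx
  rw [if_neg]
  rintro (h2 | h2)
  · have h3 := atC_fst S hb h2
    exact (hcon e he h3.1).1 h3.2
  · have h3 := atC_fst S hb h2
    exact (hcon e he h3.1).2 h3.2

private theorem lh_add_self (x : F2) : x + x = 0 := CharTwo.add_self_eq_zero x

private theorem lh_two (d m n : ℕ) (hm : m < d) (hn : n < d) (hmn : m ≠ n) (φ : ℕ → F2) :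
    ∑ i ∈ range d, (if i = m ∨ i = n then (1 : F2) else 0) * φ i = φ m + φ n := by
  have h1 : ∀ i ∈ range d, (if i = m ∨ i = n then (1 : F2) else 0) * φ i =
      (if i = m then φ i else 0) + (if i = n then φ i else 0) := by
    intro i _
    by_cases h : i = m
    · rw [if_pos (Or.inl h), if_pos h, if_neg (by omega), one_mul, add_zero]
    · by_cases h' : i = n
      · rw [if_pos (Or.inr h'), if_neg h, if_pos h', one_mul, zero_add]
      · rw [if_neg (by omega), if_neg h, if_neg h', zero_mul, add_zero]
  rw [Finset.sum_congr rfl h1, Finset.sum_add_distrib, Finset.sum_ite_eq', Finset.sum_ite_eq',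
    if_pos (mem_range.2 hm), if_pos (mem_range.2 hn)]

private theorem lh_sum {α : Type} (s : Finset α) {β : Type} (l : List β) (w : β → α → F2) :
    ∑ i ∈ s, (l.map fun e => w e i).sum = (l.map fun e => ∑ i ∈ s, w e i).sum := by
  induction l with
  | nil => simp
  | cons a l ih => simp only [List.map_cons, List.sum_cons, sum_add_distrib, ih]

theorem atC_cf (hb : IsBase b) {v v' : V} {i m : ℕ} (hm : m < (nb G v).card) (hi : i < (nb G v').card) :
    AtC S b v' i (cf S b v m) ↔ v = v' ∧ m = i := by
  constructor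
  · intro h
    have h1 := (atC_fst S hb h).1
    rw [cf_fst S hb] at h1
    subst h1
    refine ⟨rfl, ?_⟩
    rcases h with h | h
    · exact cf_inj S hb v hm hi h
    · rw [nxt_cf] at h
      exact absurd h (cf_ne_side S b v m (i + 1))
  · rintro ⟨rfl, rfl⟩
    exact Or.inl rfl

theorem hit_cf (v : V) (m : ℕ) (hm : m < (nb G v).card) : hit S l (cf S b v m) =
    (l.map fun e => if v = e.vx ∧ (m = e.lo ∨ m = e.hi) then (1 : F2) else 0).sum := by
  unfold hit
  congr 1
  refine List.map_congr_left fun e _ => ?_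
  have hlo : e.lo < (nb G e.vx).card := e.1.2.1.2
  have hhi : e.hi < (nb G e.vx).card := e.1.2.2.2
  have h1 := atC_cf S hb hm hlo
  have h2 := atC_cf S hb hm hhi
  by_cases h3 : v = e.vx ∧ (m = e.lo ∨ m = e.hi)
  · rw [if_pos h3, if_pos]
    rcases h3 with ⟨h4, h5 | h5⟩
    · exact Or.inl (h1.2 ⟨h4, h5⟩)
    · exact Or.inr (h2.2 ⟨h4, h5⟩)
  · rw [if_neg h3, if_neg]
    rintro (h4 | h4)
    · exact h3 ⟨(h1.1 h4).1, Or.inl (h1.1 h4).2⟩
    · exact h3 ⟨(h2.1 h4).1, Or.inr (h2.1 h4).2⟩

private theorem lh_one (e : Ch (corF S b hb)) (v : V) (φ : ℕ → F2) :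
    ∑ i ∈ range (nb G v).card, (if v = e.vx ∧ (i = e.lo ∨ i = e.hi) then (1 : F2) else 0) * φ i =
      if v = e.vx then φ e.lo + φ e.hi else 0 := by
  by_cases hv : v = e.vx
  · subst hv
    rw [if_pos rfl]
    have hlt : e.lo < e.hi := e.2
    have h1 := lh_two (nb G e.vx).card e.lo e.hi e.1.2.1.2 e.1.2.2.2 hlt.ne φ
    rw [← h1]
    refine sum_congr rfl fun i _ => ?_
    simp only [true_and]
  · rw [if_neg hv]
    refine sum_eq_zero fun i _ => ?_
    rw [if_neg fun h => hv h.1, zero_mul]

theorem hit_zero (v : V) : ∑ i ∈ range (nb G v).card, hit S l (cf S b v i) = 0 := by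
  rw [sum_congr rfl fun i hi => hit_cf S l v i (mem_range.1 hi),
    lh_sum (range (nb G v).card) l fun (e : Ch (corF S b hb)) i =>
      if v = e.vx ∧ (i = e.lo ∨ i = e.hi) then (1 : F2) else 0]
  apply List.sum_eq_zero
  intro x hx
  obtain ⟨e, _, rfl⟩ := List.mem_map.1 hx
  have h1 := lh_one S e v fun _ => 1
  simp only [mul_one] at h1
  rw [h1, lh_add_self, ite_self]

theorem hit_cc (z : cyc G) : ∑ v, ∑ i ∈ range (nb G v).card, hit S l (cf S b v i) * cc S b v i z = clsL S l z := by
  have h1 : ∀ v, ∑ i ∈ range (nb G v).card, hit S l (cf S b v i) * cc S b v i z =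
      (l.map fun e => if v = e.vx then cc S b v e.lo z + cc S b v e.hi z else 0).sum := by
    intro v
    rw [sum_congr rfl fun i hi => by rw [hit_cf S l v i (mem_range.1 hi), ← List.sum_map_mul_right],
      lh_sum (range (nb G v).card) l fun (e : Ch (corF S b hb)) i =>
        (if v = e.vx ∧ (i = e.lo ∨ i = e.hi) then (1 : F2) else 0) * cc S b v i z]
    congr 1
    refine List.map_congr_left fun e _ => ?_
    exact lh_one S e v fun i => cc S b v i z
  rw [sum_congr rfl fun v _ => h1 v, lh_sum univ l fun (e : Ch (corF S b hb)) v =>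
    if v = e.vx then cc S b v e.lo z + cc S b v e.hi z else 0]
  unfold clsL
  induction l with
  | nil => rfl
  | cons a l ih =>
    rw [List.map_cons, List.map_cons, List.sum_cons, List.sum_cons, LinearMap.add_apply, ih, sum_ite_eq',
      if_pos (mem_univ _)]
    · rfl
    · intro v
      rw [sum_congr rfl fun i hi => by rw [hit_cf S l v i (mem_range.1 hi), ← List.sum_map_mul_right],
        lh_sum (range (nb G v).card) l fun (e : Ch (corF S b hb)) i =>
          (if v = e.vx ∧ (i = e.lo ∨ i = e.hi) then (1 : F2) else 0) * cc S b v i z]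
      congr 1
      refine List.map_congr_left fun e _ => ?_
      exact lh_one S e v fun i => cc S b v i z

end Pool.Agent.RPH
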