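import Pool.Agent.RPH.LFul

/-!
# RPH-TSum: the form of a set of chords

Multiply out and exchange the sums.
-/

set_option autoImplicit false

open Finset
open scoped Classical

namespace Pool.Agent.RPH

open Pool.Agent.EPH Pool.Agent.BEO
open Pool.Agent.Helper35.OG hiding F2 dg

variable {V : Type} {G : SimpleGraph V} [Fintype V]

private theorem lsum_icc {d i : ℕ} (hi : i < d) (f : ℕ → F2) :
    ∑ t ∈ Icc 1 i, f t = ∑ t ∈ range d, (if 1 ≤ t ∧ t ≤ i then 1 else 0) * f t := by
  have h1 : Icc 1 i = (range d).filter (fun t => 1 ≤ t ∧ t ≤ i) := by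
    ext t
    rw [mem_Icc, mem_filter, mem_range]
    constructor
    · intro h
      exact ⟨by omega, h⟩
    · intro h
      exact h.2
  rw [h1, sum_filter]
  refine sum_congr rfl fun t _ => ?_
  split_ifs
  · rw [one_mul]
  · rw [zero_mul]

private theorem lsum_cc {d i j : ℕ} (hij : i < j) (hj : j < d) (f : ℕ → F2) :
    ∑ t ∈ Icc 1 i, f t + ∑ t ∈ Icc 1 j, f t =
      ∑ t ∈ range d, (if i < t ∧ t ≤ j then 1 else 0) * f t := by
  rw [lsum_icc (hij.trans hj), lsum_icc hj, ← sum_add_distrib]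
  refine sum_congr rfl fun t _ => ?_
  rw [← add_mul]
  congr 1
  have h2 : (1 : F2) + 1 = 0 := by decide
  by_cases h1 : 1 ≤ t ∧ t ≤ i
  · rw [if_pos h1, if_pos (by omega), if_neg (by omega), h2]
  · rw [if_neg h1, zero_add]
    by_cases h3 : i < t ∧ t ≤ j
    · rw [if_pos h3, if_pos (by omega)]
    · rw [if_neg h3, if_neg (by omega)]

private theorem lsum_pt (i j l m : ℕ) (x y : F2) :
    ((if i < l ∧ l ≤ j then 1 else 0) * x) * ((if i < m ∧ m ≤ j then 1 else 0) * y) =
      (if i < l ∧ l ≤ j ∧ i < m ∧ m ≤ j then 1 else 0) * (y * x) := by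
  have h5 : (i < l ∧ l ≤ j ∧ i < m ∧ m ≤ j) ↔ ((i < l ∧ l ≤ j) ∧ (i < m ∧ m ≤ j)) := by tauto
  simp only [h5]
  by_cases h3 : i < l ∧ l ≤ j
  · by_cases h4 : i < m ∧ m ≤ j
    · simp only [h3, h4, and_self, if_true]
      ring
    · simp only [h4, and_false, if_false]
      ring
  · simp only [h3, false_and, if_false]
    ring

theorem sum_ovr (S : GMap G) (b : V → Flag G) (hb : IsBase b) (lam : Finset (Ch (corF S b hb)))
    (z z' : cyc G) :
    ∑ e ∈ lam, (cc S b e.vx e.lo z + cc S b e.vx e.hi z) * (cc S b e.vx e.lo z' + cc S b e.vx e.hi z') =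
      ∑ v, ∑ l ∈ range (nb G v).card, ∑ m ∈ range (nb G v).card,
        (ovr lam v l m : F2) * z.1 (ed (cf S b v m)) * z'.1 (ed (cf S b v l)) := by
  rw [← sum_fiberwise lam (fun e => e.vx)]
  refine sum_congr rfl fun v _ => ?_
  have h1 : ∀ e ∈ lam.filter (fun e => e.vx = v),
      (cc S b e.vx e.lo z + cc S b e.vx e.hi z) * (cc S b e.vx e.lo z' + cc S b e.vx e.hi z') =
      ∑ l ∈ range (nb G v).card, ∑ m ∈ range (nb G v).card,
        (if e.lo < l ∧ l ≤ e.hi ∧ e.lo < m ∧ m ≤ e.hi then 1 else 0) *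
          (z.1 (ed (cf S b v m)) * z'.1 (ed (cf S b v l))) := by
    intro e he
    have hv := (mem_filter.1 he).2
    have hlo : e.lo < e.hi := e.2
    have hhi : e.hi < (nb G v).card := by
      rw [← hv]
      exact e.1.2.2.2
    have h2 : ∀ y : cyc G, cc S b e.vx e.lo y + cc S b e.vx e.hi y =
        ∑ t ∈ range (nb G v).card, (if e.lo < t ∧ t ≤ e.hi then 1 else 0) * y.1 (ed (cf S b v t)) := by
      intro y
      rw [hv]
      exact lsum_cc hlo hhi fun t => y.1 (ed (cf S b v t))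
    rw [h2, h2, mul_comm, sum_mul_sum]
    refine sum_congr rfl fun l _ => sum_congr rfl fun m _ => ?_
    exact lsum_pt _ _ _ _ _ _
  rw [sum_congr rfl h1, sum_comm]
  refine sum_congr rfl fun l _ => ?_
  rw [sum_comm]
  refine sum_congr rfl fun m _ => ?_
  rw [← sum_mul, ← mul_assoc]
  congr 2
  unfold ovr
  rw [sum_boole, filter_filter]

end Pool.Agent.RPH
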