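import Pool.Agent.EPH.LMain
import Pool.Agent.RPH.TSum

/-!
# RPH-TMain: maps and realizable sets of chords (all corners)
-/

set_option autoImplicit false

open Finset
open scoped Classical

namespace Pool.Agent.RPH

open Pool.Agent.EPH Pool.Agent.BEO
open Pool.Agent.Helper35.OG hiding F2 dg

variable {V : Type} {G : SimpleGraph V} [Fintype V]

/-- the form of a set of chords -/
noncomputable def frC (S : GMap G) (b : V → Flag G) (hb : IsBase b) (lam : Finset (Ch (corF S b hb))) (z z' : cyc G) :
    F2 := frm S z z' +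
      ∑ e ∈ lam, (cc S b e.vx e.lo z + cc S b e.vx e.hi z) * (cc S b e.vx e.lo z' + cc S b e.vx e.hi z')

theorem psF (S : GMap G) (b : V → Flag G) (hb : IsBase b) (lam : Finset (Ch (corF S b hb)))
    (h : Real (corF S b hb) lam) : PS G (posN lam) :=
  ⟨fun v i hi => posN_lt lam v i hi, fun v i j hi hj hij => (real_iff_inj lam).1 h v i j hi hj hij⟩

/-- a map with the positions and signs of a set of chords has the form of this set -/
theorem frm_psF (S : GMap G) (b : V → Flag G) (hb : IsBase b) (lam : Finset (Ch (corF S b hb))) (h : PS G (posN lam))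
    (T : GMap G) (hT : IsMk S b (posN lam) (sgN lam) T) (z z' : cyc G) : frm T z z' = frC S b hb lam z z' := by
  unfold frC
  rw [sum_ovr, frm_isMk S b hb _ h _ T hT z z']
  congr 1
  refine Finset.sum_congr rfl fun v _ => Finset.sum_congr rfl fun l hl => Finset.sum_congr rfl fun m hm => ?_
  rw [cmp_posN lam v (h.inj v) l m (mem_range.1 hl) (mem_range.1 hm)]

theorem map_of_realF (S : GMap G) (b : V → Flag G) (hb : IsBase b) (lam : Finset (Ch (corF S b hb)))
    (h : Real (corF S b hb) lam) : ∃ T : GMap G, IsMk S b (posN lam) (sgN lam) T ∧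
      ∀ z z' : cyc G, frm T z z' = frC S b hb lam z z' :=
  ⟨mkT S b hb (posN lam) (psF S b hb lam h) (sgN lam), mkT_isMk S b hb _ _ _,
    frm_psF S b hb lam (psF S b hb lam h) _ (mkT_isMk S b hb _ _ _)⟩

theorem real_of_mapF (S : GMap G) (b : V → Flag G) (hb : IsBase b) (T : GMap G) :
    ∃ lam : Finset (Ch (corF S b hb)), Real (corF S b hb) lam ∧
      IsMk S b (posN lam) (sgN lam) T ∧ ∀ z z' : cyc G, frm T z z' = frC S b hb lam z z' := by
  obtain ⟨pos, sg, hp, hp0, hs0, hT⟩ := exists_rep S b hb T
  obtain ⟨lam, hlam⟩ := exists_lam (corF S b hb)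
    (fun v l m => if l < (nb G v).card ∧ m < (nb G v).card then EPH.cmp (pos v) (sg v) l m else 0)
    (fun v m => by
      split_ifs with h
      · unfold EPH.cmp
        by_cases h0 : 0 = m
        · rw [if_pos h0, hs0]
          rfl
        · rw [if_neg h0, if_neg (Nat.not_lt_zero _), hp0, if_neg (Nat.not_lt_zero _), add_zero]
      · rfl)
    (fun v l m => by
      by_cases h : l < (nb G v).card ∧ m < (nb G v).card
      · rw [if_pos h, if_pos h.symm]
        unfold EPH.cmp
        by_cases h0 : l = m
        · rw [h0]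
        · rw [if_neg h0, if_neg (Ne.symm h0)]
          have h1 : pos v l ≠ pos v m := fun h2 => h0 (hp.inj v l m h.1 h.2 h2)
          rcases Nat.lt_or_gt_of_ne h0 with h3 | h3 <;> rcases Nat.lt_or_gt_of_ne h1 with h4 | h4
          · rw [if_neg (by omega), if_neg (by omega), if_pos h3, if_pos h4]
            decide
          · rw [if_neg (by omega), if_pos h4, if_pos h3, if_neg (by omega)]
            decide
          · rw [if_pos h3, if_neg (by omega), if_neg (by omega), if_pos h4]
            decide
          · rw [if_pos h3, if_pos h4, if_neg (by omega), if_neg (by omega)]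
            decide
      · rw [if_neg h, if_neg (fun h1 => h h1.symm)])
  have h1 : ∀ v l, l < (nb G v).card → posN lam v l = pos v l ∧ sgN lam v l = sg v l := by
    intro v l hl
    refine posN_of_cmp lam v (pos v) (sg v) (hp.lt v) (hp.inj v) (fun l m hl hm => ?_) l hl
    rw [hlam v l m hl hm, if_pos ⟨hl, hm⟩]
  have h2 : PS G (posN lam) := by
    refine ⟨fun v i hi => posN_lt lam v i hi, fun v i j hi hj hij => ?_⟩
    rw [(h1 v i hi).1, (h1 v j hj).1] at hij
    exact hp.inj v i j hi hj hij
  have h3 : IsMk S b (posN lam) (sgN lam) T := by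
    intro v x y hx hy h
    rw [(h1 v x hx).1, (h1 v y hy).1] at h
    have h4 := hT v x y hx hy h
    unfold outF at h4 ⊢
    rw [(h1 v x hx).2, (h1 v y hy).2]
    exact h4
  exact ⟨lam, (real_iff_inj lam).2 h2.inj, h3, frm_psF S b hb lam h2 T h3⟩

end Pool.Agent.RPH
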