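import Pool.Agent.RPH.THit

/-!
# RPH-TZva: values of the chords at the boundary of the faces of a walk

PLAN. `κ_t := κ (ed (cf S b v t))`, `χ_t := if A (S.face (cf S b v t)) then 1 else 0`, `ζ_t := ζ.1 (ed (cf S b v t))`. By `face_side_cf`
`ζ_(t+1) = (1 + κ_(t+1)) * (χ_(t+1) + χ_t)`, and `κ_t + κ_(t+1) = hit S l q + hit S l' q` for `q = cf S b v t` (`nxt_cf`, `ed_side`).
`zeta_near`: at `v` there are only chords of `l`, so `κ_(t+1) = κ_t` if not `A` (`hit_ne`, `h1`); with `f_t := if A .. then 1 else κ_t`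
this gives `ζ_(t+1) = f_(t+1) + f_t` in all four cases; hence `cc S b v i ζ = ∑ t ∈ Icc 1 i, ζ_t = f_i + f_0` (induction on `i`, no
bound on `i` needed; `x + x = 0`). `zeta_far`: at `v` there are only chords of `l'`, so `κ_(t+1) = κ_t` if `A` (`hit_ne`, `h2`); with
`f_t := (1 + κ_t) * χ_t`: `ζ_(t+1) = f_(t+1) + f_t`, so `cc S b v i ζ + cc S b v j ζ = f_i + f_j = 0`.
-/

set_option autoImplicit false

open Finset
open scoped Classical

namespace Pool.Agent.RPH

open Pool.Agent.EPH Pool.Agent.BEO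
open Pool.Agent.Helper35.OG hiding F2 dg

variable {V : Type} {G : SimpleGraph V} [Fintype V]

variable (S : GMap G) {b : V → Flag G} {hb : IsBase b} (l l' : List (Ch (corF S b hb)))
    (κ : G.edgeSet → F2) (hκ : ∀ q, κ (ed q) + κ (ed (S.nxt q)) = hit S l q + hit S l' q) (A : S.Face → Prop)
    (h1 : ∀ e ∈ l, A (S.face (cf S b e.vx e.lo)) ∧ A (S.face (cf S b e.vx e.hi)))
    (h2 : ∀ e ∈ l', ¬ A (S.face (cf S b e.vx e.lo)) ∧ ¬ A (S.face (cf S b e.vx e.hi)))
    (ζ : cyc G) (hζ : ∀ q, ζ.1 (ed q) =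
      (1 + κ (ed q)) * ((if A (S.face q) then 1 else 0) + (if A (S.face (side q)) then 1 else 0)))

private theorem lz_self (x : F2) : x + x = 0 := CharTwo.add_self_eq_zero x

include hκ h1 h2 hζ

/-- the coordinates of a dart in terms of its two corners -/
private theorem lz_step (v : V) (t : ℕ) : ζ.1 (ed (cf S b v (t + 1))) = (1 + κ (ed (cf S b v (t + 1)))) *
    ((if A (S.face (cf S b v (t + 1))) then 1 else 0) + (if A (S.face (cf S b v t)) then 1 else 0)) := by
  rw [hζ, face_side_cf]

private theorem lz_chg (v : V) (t : ℕ) : κ (ed (cf S b v t)) + κ (ed (cf S b v (t + 1))) =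
    hit S l (cf S b v t) + hit S l' (cf S b v t) := by
  rw [← hκ, nxt_cf, ed_side]

omit hκ h1 h2 hζ in
private theorem lz_tel (f : ℕ → F2) (v : V) (ζ : cyc G) (hf : ∀ t, ζ.1 (ed (cf S b v (t + 1))) = f (t + 1) + f t)
    (i : ℕ) : cc S b v i ζ = f i + f 0 := by
  show ∑ t ∈ Icc 1 i, ζ.1 (ed (cf S b v t)) = f i + f 0
  induction i with
  | zero =>
    rw [lz_self]
    rfl
  | succ i ih =>
    rw [Finset.sum_Icc_succ_top (by omega), ih, hf i]
    linear_combination lz_self (f i)

theorem zeta_far (v : V) (hv : ∀ e ∈ l, e.vx ≠ v) (i j : ℕ) (hi : ¬ A (S.face (cf S b v i)))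
    (hj : ¬ A (S.face (cf S b v j))) : (cc S b v i + cc S b v j) ζ = 0 := by
  have key : ∀ t, ζ.1 (ed (cf S b v (t + 1))) =
      (1 + κ (ed (cf S b v (t + 1)))) * (if A (S.face (cf S b v (t + 1))) then 1 else 0) +
        (1 + κ (ed (cf S b v t))) * (if A (S.face (cf S b v t)) then 1 else 0) := by
    intro t
    rw [lz_step S l l' κ hκ A h1 h2 ζ hζ v t]
    by_cases h3 : A (S.face (cf S b v t))
    · have h4 := lz_chg S l l' κ hκ A h1 h2 ζ hζ v t
      have z1 : hit S l (cf S b v t) = 0 := by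
        by_contra hc
        obtain ⟨g, hg, a, -⟩ := hit_ne S l _ hc
        rw [cf_fst S hb] at a
        exact hv g hg a.symm
      have z2 : hit S l' (cf S b v t) = 0 := by
        by_contra hc
        obtain ⟨g, hg, -, a | a⟩ := hit_ne S l' _ hc
        · exact (h2 g hg).1 (a ▸ h3)
        · exact (h2 g hg).2 (a ▸ h3)
      rw [z1, z2, add_zero] at h4
      rw [if_pos h3]
      linear_combination h4 - lz_self (κ (ed (cf S b v t)))
    · rw [if_neg h3, add_zero, mul_zero, add_zero]
  have k1 := lz_tel (S := S) (b := b) (fun t => (1 + κ (ed (cf S b v t))) * (if A (S.face (cf S b v t)) then 1 else 0))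
    v ζ key i
  have k2 := lz_tel (S := S) (b := b) (fun t => (1 + κ (ed (cf S b v t))) * (if A (S.face (cf S b v t)) then 1 else 0))
    v ζ key j
  beta_reduce at k1 k2
  rw [LinearMap.add_apply, k1, k2, if_neg hi, if_neg hj, mul_zero, mul_zero, zero_add, lz_self]

theorem zeta_near (v : V) (hv : ∀ e ∈ l', e.vx ≠ v) (i j : ℕ) : (cc S b v i + cc S b v j) ζ =
    (if A (S.face (cf S b v i)) then 1 else κ (ed (cf S b v i))) +
      (if A (S.face (cf S b v j)) then 1 else κ (ed (cf S b v j))) := by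
  have key : ∀ t, ζ.1 (ed (cf S b v (t + 1))) =
      (if A (S.face (cf S b v (t + 1))) then 1 else κ (ed (cf S b v (t + 1)))) +
        (if A (S.face (cf S b v t)) then 1 else κ (ed (cf S b v t))) := by
    intro t
    rw [lz_step S l l' κ hκ A h1 h2 ζ hζ v t]
    by_cases h3 : A (S.face (cf S b v t))
    · rw [if_pos h3, if_pos h3]
      by_cases h5 : A (S.face (cf S b v (t + 1)))
      · rw [if_pos h5, if_pos h5, lz_self, mul_zero]
      · rw [if_neg h5, if_neg h5]
        ring
    · have h4 := lz_chg S l l' κ hκ A h1 h2 ζ hζ v t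
      have z1 : hit S l (cf S b v t) = 0 := by
        by_contra hc
        obtain ⟨g, hg, -, a | a⟩ := hit_ne S l _ hc
        · exact h3 (a ▸ (h1 g hg).1)
        · exact h3 (a ▸ (h1 g hg).2)
      have z2 : hit S l' (cf S b v t) = 0 := by
        by_contra hc
        obtain ⟨g, hg, a, -⟩ := hit_ne S l' _ hc
        rw [cf_fst S hb] at a
        exact hv g hg a.symm
      rw [z1, z2, add_zero] at h4
      rw [if_neg h3, if_neg h3, add_zero]
      by_cases h5 : A (S.face (cf S b v (t + 1)))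
      · rw [if_pos h5, if_pos h5]
        linear_combination h4 - lz_self (κ (ed (cf S b v t)))
      · rw [if_neg h5, if_neg h5]
        linear_combination - h4
  have k1 := lz_tel (S := S) (b := b) (fun t => if A (S.face (cf S b v t)) then 1 else κ (ed (cf S b v t))) v ζ key i
  have k2 := lz_tel (S := S) (b := b) (fun t => if A (S.face (cf S b v t)) then 1 else κ (ed (cf S b v t))) v ζ key j
  beta_reduce at k1 k2
  rw [LinearMap.add_apply, k1, k2]
  linear_combination lz_self (if A (S.face (cf S b v 0)) then 1 else κ (ed (cf S b v 0)))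

end Pool.Agent.RPH
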