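import Pool.Agent.RPH.XCfgB
import Pool.Agent.RPH.NRk

/-!
# RPH-XCfgC: minimality in terms of pairs of faces

Adapt `Pool/Agent/EPH/XCfgC.lean`.
-/

set_option autoImplicit false

open Finset
open scoped Classical

namespace Pool.Agent.RPH

open Pool.Agent.EPH Pool.Agent.BEO

variable {k : ℕ} {Φ Vt Z Q : Type} [Fintype Φ] [Fintype Vt] [AddCommGroup Z] [Module F2 Z] [Module.Finite F2 Z]
  [AddCommGroup Q] [Module F2 Q]

variable {S : Sys k Φ Vt Z Q} {lam mu : Finset (Ch S.P)}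

omit [Module.Finite F2 Z] in
private theorem xc_add (q : Q) : q + q = 0 := by
  have h : (2 : F2) = 0 := by decide
  rw [← two_smul F2, h, zero_smul]

omit [Module.Finite F2 Z] in
private theorem xc_symm (ν χ : Finset (Ch S.P)) :
    S.D.cls (symmDiff ν χ) = S.D.cls ν + S.D.cls χ := by
  change ∑ e ∈ symmDiff ν χ, S.D.q e = ∑ e ∈ ν, S.D.q e + ∑ e ∈ χ, S.D.q e
  have h1 : ∑ e ∈ ν, S.D.q e = ∑ e ∈ ν \ χ, S.D.q e + ∑ e ∈ ν ∩ χ, S.D.q e := by
    rw [add_comm]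
    exact (sum_inter_add_sum_sdiff ν χ _).symm
  have h2 : ∑ e ∈ χ, S.D.q e = ∑ e ∈ χ \ ν, S.D.q e + ∑ e ∈ ν ∩ χ, S.D.q e := by
    rw [add_comm, inter_comm]
    exact (sum_inter_add_sum_sdiff χ ν _).symm
  have h3 : ∑ e ∈ symmDiff ν χ, S.D.q e = ∑ e ∈ ν \ χ, S.D.q e + ∑ e ∈ χ \ ν, S.D.q e := by
    have h4 : symmDiff ν χ = (ν \ χ) ∪ (χ \ ν) := rfl
    rw [h4, sum_union]
    rw [disjoint_left]
    intro e he he'
    exact (mem_sdiff.1 he').2 (mem_sdiff.1 he).1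
  rw [h1, h2, h3]
  have h5 := xc_add (∑ e ∈ ν ∩ χ, S.D.q e)
  calc ∑ e ∈ ν \ χ, S.D.q e + ∑ e ∈ χ \ ν, S.D.q e
      = ∑ e ∈ ν \ χ, S.D.q e + ∑ e ∈ χ \ ν, S.D.q e +
        (∑ e ∈ ν ∩ χ, S.D.q e + ∑ e ∈ ν ∩ χ, S.D.q e) := by rw [h5, add_zero]
    _ = _ := by abel

private theorem xc_card {E : Type} (ν χ : Finset E) :
    (symmDiff ν χ).card + (χ ∩ ν).card = ν.card + (χ \ ν).card := by
  have h4 : symmDiff ν χ = (ν \ χ) ∪ (χ \ ν) := rfl
  have h5 : Disjoint (ν \ χ) (χ \ ν) := by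
    rw [disjoint_left]
    intro e he he'
    exact (mem_sdiff.1 he').2 (mem_sdiff.1 he).1
  have h6 := card_inter_add_card_sdiff ν χ
  rw [h4, card_union_of_disjoint h5, inter_comm χ ν]
  omega

omit [Module.Finite F2 Z] in
private theorem xc_cls (hm : S.D.cls mu = S.D.cls lam) (nu : Finset (Ch S.P)) (h0 : S.D.cls nu = 0) :
    S.D.cls (symmDiff mu nu) = S.D.cls lam := by
  rw [xc_symm, h0, add_zero, hm]

omit [Module.Finite F2 Z] in
private theorem xc_cnt (nu : Finset (Ch S.P)) (hn : NoPar S nu) (χ : Finset (Sym2 Φ))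
    (hχ : ∀ e', e' ∈ χ ↔ ∃ e ∈ nu, s(S.D.s e, S.D.t e) = e')
    (hm : ∀ e ∈ nu, s(S.D.s e, S.D.t e) ∈ (S.D.gr mu).edgeSet → e ∈ mu) :
    (χ.filter fun e => e ∈ (S.D.gr mu).edgeSet).card = (nu ∩ mu).card ∧
      (χ.filter fun e => e ∉ (S.D.gr mu).edgeSet).card = (nu \ mu).card := by
  constructor
  · have h1 : (χ.filter fun e => e ∈ (S.D.gr mu).edgeSet) =
        (nu ∩ mu).image fun e => s(S.D.s e, S.D.t e) := by
      ext e'
      rw [mem_filter, mem_image, hχ]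
      constructor
      · rintro ⟨⟨e, he, rfl⟩, h2⟩
        exact ⟨e, mem_inter.2 ⟨he, hm e he h2⟩, rfl⟩
      · rintro ⟨e, he, rfl⟩
        obtain ⟨he1, he2⟩ := mem_inter.1 he
        exact ⟨⟨e, he1, rfl⟩, (gr_mem S mu _).2 ⟨e, he2, rfl⟩⟩
    rw [h1, card_image_of_injOn]
    intro e he e' he' hh
    exact hn e (mem_inter.1 (mem_coe.1 he)).1 e' (mem_inter.1 (mem_coe.1 he')).1 hh
  · have h1 : (χ.filter fun e => e ∉ (S.D.gr mu).edgeSet) =
        (nu \ mu).image fun e => s(S.D.s e, S.D.t e) := by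
      ext e'
      rw [mem_filter, mem_image, hχ]
      constructor
      · rintro ⟨⟨e, he, rfl⟩, h2⟩
        exact ⟨e, mem_sdiff.2 ⟨he, fun h3 => h2 ((gr_mem S mu _).2 ⟨e, h3, rfl⟩)⟩, rfl⟩
      · rintro ⟨e, he, rfl⟩
        obtain ⟨he1, he2⟩ := mem_sdiff.1 he
        exact ⟨⟨e, he1, rfl⟩, fun h2 => he2 (hm e he1 h2)⟩
    rw [h1, card_image_of_injOn]
    intro e he e' he' hh
    exact hn e (mem_sdiff.1 (mem_coe.1 he)).1 e' (mem_sdiff.1 (mem_coe.1 he')).1 hh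

omit [Module.Finite F2 Z] in
private theorem xc_parMu (h : Ext S lam mu) : NoPar S mu := by
  intro e he e' he' hh
  exact noPar h e (h.sub he) e' (h.sub he') hh

theorem mnL (h : Ext S lam mu) (χ : Finset (Sym2 Φ)) (hχ : ∀ e ∈ χ, e ∈ (S.D.gr lam).edgeSet)
    (h0 : ∑ e ∈ χ, cl S e = 0) :
    (χ.filter fun e => e ∈ (S.D.gr mu).edgeSet).card ≤ (χ.filter fun e => e ∉ (S.D.gr mu).edgeSet).card := by
  have hp := noPar h
  set nu : Finset (Ch S.P) := lam.filter fun e => s(S.D.s e, S.D.t e) ∈ χ with hnu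
  have hsub : nu ⊆ lam := filter_subset _ _
  have hn : NoPar S nu := fun e he e' he' hh => hp e (hsub he) e' (hsub he') hh
  have hiff : ∀ e', e' ∈ χ ↔ ∃ e ∈ nu, s(S.D.s e, S.D.t e) = e' := by
    intro e'
    constructor
    · intro he'
      obtain ⟨e, he, h1⟩ := (gr_mem S lam e').1 (hχ e' he')
      refine ⟨e, mem_filter.2 ⟨he, ?_⟩, h1⟩
      rw [h1]
      exact he'
    · rintro ⟨e, he, rfl⟩
      exact (mem_filter.1 he).2
  have hm : ∀ e ∈ nu, s(S.D.s e, S.D.t e) ∈ (S.D.gr mu).edgeSet → e ∈ mu := by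
    intro e he h1
    obtain ⟨e1, he1, h2⟩ := (gr_mem S mu _).1 h1
    rw [hp e (hsub he) e1 (h.sub he1) h2.symm]
    exact he1
  have himg : nu.image (fun e => s(S.D.s e, S.D.t e)) = χ := by
    ext e'
    rw [mem_image, hiff]
  have hsum : S.D.cls nu = 0 := by
    rw [← h0, ← himg, sum_image (fun e he e' he' hh => hn e he e' he' hh)]
    exact sum_congr rfl fun e _ => (cl_eq S e).symm
  obtain ⟨h1, h2⟩ := xc_cnt (mu := mu) nu hn χ hiff hm
  rw [h1, h2]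
  have h3 : symmDiff mu nu ⊆ lam := by
    intro e he
    rcases mem_symmDiff.1 he with h4 | h4
    · exact h.sub h4.1
    · exact hsub h4.1
  have h4 := h.smallM _ h3 (xc_cls h.clsM nu hsum)
  have h5 := xc_card mu nu
  omega

theorem mnR (h : Ext S lam mu) (χ : Finset (Sym2 Φ)) (hχ : ∀ e ∈ χ, e ∈ (RG S.P).edgeSet)
    (h0 : ∑ e ∈ χ, cl S e = 0) :
    (χ.filter fun e => e ∈ (S.D.gr mu).edgeSet).card ≤
      (χ.filter fun e => e ∉ (S.D.gr mu).edgeSet).card + (28 * k + 2) := by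
  obtain ⟨nu, hn, hiff, _, hsum, hm⟩ := exists_lift S mu (xc_parMu h) χ hχ
  obtain ⟨h1, h2⟩ := xc_cnt (mu := mu) nu hn χ hiff hm
  rw [h1, h2]
  have h4 := near_min h (symmDiff mu nu) (xc_cls h.clsM nu (hsum.trans h0))
  have h5 := xc_card mu nu
  omega

theorem classes (h : Ext S lam mu) :
    ∑ e ∈ es (S.D.gr lam), cl S e = ∑ e ∈ es (S.D.gr mu), cl S e := by
  rw [sum_gr S lam (noPar h), sum_gr S mu (xc_parMu h)]
  exact h.clsM.symm

theorem lbG (h : Ext S lam mu) (L' : SimpleGraph Φ) (hL : L' ≤ S.D.gr lam)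
    (hc : ∑ e ∈ es L', cl S e = ∑ e ∈ es (S.D.gr mu), cl S e) :
    (es (S.D.gr mu)).card ≤ Module.finrank F2 (rowISp L' S.D.B) + (24 * k + 2) := by
  set nu : Finset (Ch S.P) := lam.filter fun e => s(S.D.s e, S.D.t e) ∈ L'.edgeSet with hnu
  have hsub : nu ⊆ lam := filter_subset _ _
  have hn : NoPar S nu := fun e he e' he' hh => noPar h e (hsub he) e' (hsub he') hh
  have hgr : S.D.gr nu = L' := by
    apply SimpleGraph.edgeSet_injective
    ext e'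
    rw [gr_mem]
    constructor
    · rintro ⟨e, he, rfl⟩
      exact (mem_filter.1 he).2
    · intro he'
      obtain ⟨e, he, h1⟩ := (gr_mem S lam e').1 (SimpleGraph.edgeSet_mono hL he')
      refine ⟨e, mem_filter.2 ⟨he, ?_⟩, h1⟩
      rw [h1]
      exact he'
  have hcls : S.D.cls nu = S.D.cls lam := by
    rw [← h.clsM, ← sum_gr S mu (xc_parMu h), ← sum_gr S nu hn, hgr, hc]
  have h1 := lb_row h nu hsub hcls
  rw [hgr] at h1
  rw [card_gr S mu (xc_parMu h)]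
  exact h1

end Pool.Agent.RPH
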