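import Pool.Agent.RPH.XDel
import Pool.Agent.RPH.DPriv
import Pool.Agent.RPH.XCfgA
import Pool.Agent.RPH.GdTop

/-!
# RPH-XCol: private good positions have only one face
-/

set_option autoImplicit false

open Finset
open scoped Classical

namespace Pool.Agent.RPH

open Pool.Agent.EPH
open Pool.Agent.BEO hiding Cfg Frame

variable {k : ℕ} {Φ Vt Z Q : Type} [Fintype Φ] [Fintype Vt] [AddCommGroup Z] [Module F2 Z] [Module.Finite F2 Z]
  [AddCommGroup Q] [Module F2 Q]

variable {S : Sys k Φ Vt Z Q} {lam mu : Finset (Ch S.P)}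

private theorem star_of (T : Finset Φ) (x : Φ) (v : Vt)
    (h : ∀ e ∈ delF S lam T, e.vx = v → e.Long → S.D.s e = x ∨ S.D.t e = x) :
    RealAt S.P (delF S lam T) v := by
  by_cases hx : ∃ i₀, i₀ < S.P.d v ∧ S.P.fc v i₀ = x
  · obtain ⟨i₀, hi, he⟩ := hx
    refine realAt_star i₀ (fun e h1 h2 h3 => ?_)
    have h5 := h e h1 h2 h3
    subst h2
    rcases h5 with h4 | h4
    · left
      rw [S.hs] at h4
      exact S.P.inj _ _ _ e.1.2.1.2 hi (h4.trans he.symm)
    · right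
      rw [S.ht] at h4
      exact S.P.inj _ _ _ e.1.2.2.2 hi (h4.trans he.symm)
  · refine realAt_star 0 (fun e h1 h2 h3 => ?_)
    exfalso
    apply hx
    have h5 := h e h1 h2 h3
    subst h2
    rcases h5 with h4 | h4
    · rw [S.hs] at h4
      exact ⟨_, e.1.2.1.2, h4⟩
    · rw [S.ht] at h4
      exact ⟨_, e.1.2.2.2, h4⟩

private theorem on_s (e : Ch S.P) : On S.P e.vx (S.D.s e) := ⟨e.lo, e.1.2.1.2, (S.hs e).symm⟩

private theorem on_t (e : Ch S.P) : On S.P e.vx (S.D.t e) := ⟨e.hi, e.1.2.2.2, (S.ht e).symm⟩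

private theorem adj_st (e : Ch S.P) (he : e ∈ lam) : (S.D.gr lam).Adj (S.D.s e) (S.D.t e) :=
  ⟨s_ne_t S e, e, he, Or.inl ⟨rfl, rfl⟩⟩

/-- the chords at `v` when a face `y` of the twins and a face `u` of the next ones are there -/
private theorem real_of (T A B : Finset Φ) (x : Φ) (v : Vt) (y u : Φ) (hTA : ∀ w ∈ A, w ∉ T → w = x)
    (hy : On S.P v y) (hu : On S.P v u)
    (hp : ∀ w ∈ vs (S.D.gr lam), (w = y ∨ (RG S.P).Adj w y) → (w = u ∨ (RG S.P).Adj w u) → w ∈ A ∨ w ∈ B)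
    (hB : ∀ a ∈ B, ∀ b ∈ B, ¬ (S.D.gr lam).Adj a b) :
    RealAt S.P (delF S lam T) v := by
  refine star_of T x v (fun e h1 h2 _ => ?_)
  obtain ⟨he, hs, ht⟩ := mem_filter.1 h1
  have hadj := adj_st e he
  have key : ∀ w, On S.P v w → w ∈ vs (S.D.gr lam) → w ∈ A ∨ w ∈ B := by
    intro w hw hw'
    refine hp w hw' ?_ ?_
    · by_cases hwy : w = y
      · exact Or.inl hwy
      · exact Or.inr ⟨hwy, v, hw, hy⟩
    · by_cases hwu : w = u
      · exact Or.inl hwu
      · exact Or.inr ⟨hwu, v, hw, hu⟩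
  have k1 := key (S.D.s e) (h2 ▸ on_s e) (mem_filter.2 ⟨mem_univ _, _, hadj⟩)
  have k2 := key (S.D.t e) (h2 ▸ on_t e) (mem_filter.2 ⟨mem_univ _, _, hadj.symm⟩)
  rcases k1 with k1 | k1
  · exact Or.inl (hTA _ k1 hs)
  · rcases k2 with k2 | k2
    · exact Or.inr (hTA _ k2 ht)
    · exact absurd hadj (hB _ k1 _ k2)

private theorem xl_q2 {y : Q} : y + y = 0 := by
  have h : (2 : F2) = 0 := by decide
  rw [← two_smul F2 y, h, zero_smul]

private theorem lc_of_nul {x y u0 : Φ}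
    (hnul : ∀ w : (RG S.P).Walk x x, w.length ≤ 4 → (w.edges.map (cl S)).sum = 0)
    (hx : (S.D.gr lam).Adj x u0) (hy : (S.D.gr lam).Adj y u0) : LC S lam y x := by
  refine ⟨cl S s(y, u0) + cl S s(x, u0), ?_⟩
  intro e he e' he' u h1 h2
  have a1 : (S.D.gr lam).Adj y u := by
    have h3 := (gr_mem S lam s(y, u)).2 ⟨e, he, h1⟩
    rwa [SimpleGraph.mem_edgeSet] at h3
  have a2 : (S.D.gr lam).Adj x u := by
    have h3 := (gr_mem S lam s(x, u)).2 ⟨e', he', h2⟩
    rwa [SimpleGraph.mem_edgeSet] at h3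
  have h := hnul (SimpleGraph.Walk.cons (gr_le S lam a2) (SimpleGraph.Walk.cons (gr_le S lam a1.symm)
    (SimpleGraph.Walk.cons (gr_le S lam hy) (SimpleGraph.Walk.cons (gr_le S lam hx.symm) SimpleGraph.Walk.nil))))
    (by simp)
  simp only [SimpleGraph.Walk.edges_cons, SimpleGraph.Walk.edges_nil, List.map_cons, List.map_nil,
    List.sum_cons, List.sum_nil, add_zero] at h
  rw [Sym2.eq_swap (a := u) (b := y), Sym2.eq_swap (a := u0) (b := x), ← h1, ← h2, cl_eq, cl_eq] at h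
  have h3 : S.D.q e + S.D.q e' = S.D.q e + S.D.q e' + (S.D.q e' + (S.D.q e + (cl S s(y, u0) + cl S s(x, u0)))) := by
    rw [h, add_zero]
  have h4 : S.D.q e + S.D.q e' + (S.D.q e' + (S.D.q e + (cl S s(y, u0) + cl S s(x, u0)))) =
      (S.D.q e + S.D.q e) + (S.D.q e' + S.D.q e') + (cl S s(y, u0) + cl S s(x, u0)) := by abel
  rw [h3, h4, xl_q2, xl_q2, zero_add, zero_add]

/-- walks of the piece are walks of the extended graph -/
private theorem nul_old {k' : ℕ} (c : PCfg k' Φ Q) {x : Φ}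
    (h : ∀ w : (c.extG c.R).Walk (Sum.inl x) (Sum.inl x), w.length ≤ 4 → (w.edges.map c.aX).sum = 0)
    (w : c.R.Walk x x) (hw : w.length ≤ 4) : (w.edges.map c.a).sum = 0 := by
  let φ : c.R →g c.extG c.R := ⟨Sum.inl, fun {a b} h => (c.ext_inl_inl c.R a b).2 h⟩
  have h1 := h (w.map φ) (by rw [SimpleGraph.Walk.length_map]; exact hw)
  rw [SimpleGraph.Walk.edges_map, List.map_map] at h1
  have h2 : ∀ l : List (Sym2 Φ), (l.map (c.aX ∘ Sym2.map φ)).sum = ((l.map c.a).sum, 0) := by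
    intro l
    induction l with
    | nil => rfl
    | cons e l ih =>
      rw [List.map_cons, List.sum_cons, ih, List.map_cons, List.sum_cons]
      have h3 : c.aX (e.map Sum.inl) = (c.a e, 0) := c.aX_old e
      show c.aX (e.map Sum.inl) + _ = _
      rw [h3, Prod.mk_add_mk, add_zero]
  rw [h2] at h1
  exact congrArg Prod.fst h1

/-- the inner vertices of the segments are old and not exceptional -/
private theorem old_x {k' C : ℕ} {c : PCfg k' Φ Q} (f : Frame C c.ext) (j : Fin f.m) (l : ℕ) (h1 : 1 ≤ l) (h2 : l ≤ f.n j) :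
    ∃ v, v ∉ c.B ∧ f.x j l = Sum.inl v :=
  c.not_XX _ fun h => f.notB j l h1 h2 (f.XB _ h)

/-- the twins of an inner vertex are old -/
private theorem old_tw {k' : ℕ} (c : PCfg k' Φ Q) {x xm : Φ} (hx : x ∉ c.B) (hxm : xm ∉ c.B)
    (ha : (c.extG c.L).Adj (Sum.inl x) (Sum.inl xm)) (w : GV c.B)
    (hw : ∀ u, (c.extG c.L).Adj w u ↔ (c.extG c.L).Adj (Sum.inl x) u) : ∃ y, w = Sum.inl y := by
  have h1 := (hw _).2 ha
  rcases c.gv_cases w with ⟨v, rfl⟩ | ⟨b, i, j, rfl⟩ | rfl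
  · exact ⟨v, rfl⟩
  · have h2 := (c.ext_inl_mid c.L xm b i j).1 h1.symm
    exact absurd (h2.1 ▸ b.2) hxm
  · exact absurd h1.symm (c.ext_inl_top c.L xm)

theorem tw_single (h : Ext S lam mu) (c : PCfg (4 * k + 1) Φ Q) (hL : c.L = S.D.gr lam) (hM : c.M = S.D.gr mu)
    (hR : c.R = RG S.P) (hca : c.a = cl S) (hB : c.B = S.D.B) {C : ℕ} (f : Frame C c.ext) (j : Fin f.m) (i : ℕ)
    (g0 : f.Good j (i - 1)) (g : f.Good j i) (g1 : f.Good j (i + 1)) (p0 : f.Priv j (i - 1)) (p : f.Priv j i) :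
    f.tw j i = {f.x j i} := by
  have hok := (g i (by omega) (by omega)).ok
  have hlo := hok.lo
  have hhi := hok.hi
  have hself := mem_tw_self f j i
  have hodd := odd_tw f j i g
  have hi1 : i - 1 + 1 = i := by omega
  have hmt : ∀ w, w ∈ f.tw j i ↔ ∀ u, (c.extG c.L).Adj w u ↔ (c.extG c.L).Adj (f.x j i) u := by
    intro w
    unfold Frame.tw
    rw [mem_filter]
    exact ⟨fun h => h.2, fun h => ⟨mem_univ _, h⟩⟩
  obtain ⟨x, hxB, hx⟩ := old_x f j i (by omega) (by omega)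
  obtain ⟨xp, hxpB, hxp⟩ := old_x f j (i + 1) (by omega) (by omega)
  have hnx : (c.extG c.L).Adj (Sum.inl x) (Sum.inl xp) := by
    rw [← hx, ← hxp]
    exact adj_next f j i (by omega) (by omega)
  have hnxL : (S.D.gr lam).Adj x xp := by
    rw [← hL]
    exact (c.ext_inl_inl c.L _ _).1 hnx
  have hold : ∀ w ∈ f.tw j i, ∃ y, w = Sum.inl y := by
    intro w hw
    refine old_tw c hxB hxpB hnx w ?_
    rw [← hx]
    exact (hmt w).1 hw
  set A : ℕ → Finset Φ := fun l => univ.filter fun y => (Sum.inl y : GV c.B) ∈ f.tw j l with hA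
  have hmA : ∀ l y, y ∈ A l ↔ (Sum.inl y : GV c.B) ∈ f.tw j l := by
    intro l y
    rw [hA, mem_filter]
    exact ⟨fun h => h.2, fun h => ⟨mem_univ _, h⟩⟩
  have hind : ∀ l, ∀ a ∈ A l, ∀ b ∈ A l, ¬ (S.D.gr lam).Adj a b := by
    intro l a ha b hb hab
    rw [← hL] at hab
    exact tw_indep f j l _ _ ((hmA l a).1 ha) ((hmA l b).1 hb) ((c.ext_inl_inl c.L _ _).2 hab)
  have hcard : (A i).card = (f.tw j i).card := by
    have h1 : f.tw j i = (A i).image Sum.inl := by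
      ext w
      rw [mem_image]
      constructor
      · intro hw
        obtain ⟨y, rfl⟩ := hold w hw
        exact ⟨y, (hmA i y).2 hw, rfl⟩
      · rintro ⟨y, hy, rfl⟩
        exact (hmA i y).1 hy
    rw [h1, card_image_of_injective _ Sum.inl_injective]
  have hxA : x ∈ A i := (hmA i x).2 (hx ▸ hself)
  have hAtw : ∀ y ∈ A i, ∀ u, (S.D.gr lam).Adj y u ↔ (S.D.gr lam).Adj x u := by
    intro y hy u
    have h1 := (hmt _).1 ((hmA i y).1 hy) (Sum.inl u)
    rw [hx, c.ext_inl_inl, c.ext_inl_inl, hL] at h1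
    exact h1
  have hnb : ∀ u, (S.D.gr lam).Adj x u → u ∈ A (i - 1) ∨ u ∈ A (i + 1) := by
    intro u hu
    rw [hmA, hmA]
    refine (nb_good f j i g i (by omega) (by omega) (Sum.inl u)).1 ?_
    rw [hx]
    rw [← hL] at hu
    exact (c.ext_inl_inl c.L _ _).2 hu
  have hvs : ∀ w ∈ vs (S.D.gr lam), (Sum.inl w : GV c.B) ∈ vs (c.ext.L) := by
    intro w hw
    unfold vs at hw ⊢
    obtain ⟨u, hu⟩ := (mem_filter.1 hw).2
    rw [← hL] at hu
    exact mem_filter.2 ⟨mem_univ _, Sum.inl u, (c.ext_inl_inl c.L _ _).2 hu⟩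
  have hRe : ∀ w y : Φ, (w = y ∨ (RG S.P).Adj w y) →
      ((Sum.inl w : GV c.B) = Sum.inl y ∨ c.ext.R.Adj (Sum.inl w) (Sum.inl y)) := by
    rintro w y (rfl | h1)
    · exact Or.inl rfl
    · rw [← hR] at h1
      exact Or.inr ((c.ext_inl_inl c.R _ _).2 h1)
  by_contra hne
  have hTA : ∀ w ∈ A i, w ∉ (A i).erase x → w = x := by
    intro w hw hw'
    by_contra h1
    exact hw' (mem_erase.2 ⟨h1, hw⟩)
  have hex : ∃ y, y ∈ (A i).erase x := by
    by_contra h1
    push Not at h1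
    apply hne
    ext w
    rw [mem_singleton]
    constructor
    · intro hw
      obtain ⟨y, rfl⟩ := hold w hw
      rw [hx, hTA y ((hmA i y).2 hw) (h1 y)]
    · rintro rfl
      exact hself
  obtain ⟨y0, hy0⟩ := hex
  refine del_contra h x (by rw [← hB]; exact hxB) ((A i).erase x) ?_ ⟨y0, hy0, ?_⟩ ?_ ?_ ?_
  · rw [card_erase_of_mem hxA, hcard]
    exact Nat.Odd.sub_odd hodd odd_one
  · refine mem_filter.2 ⟨mem_univ _, xp, ?_⟩
    exact (hAtw y0 (mem_of_mem_erase hy0) _).2 hnxL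
  · intro y hy u
    exact hAtw y (mem_of_mem_erase hy) u
  · intro y hy
    refine lc_of_nul (u0 := xp) ?_ hnxL ((hAtw y (mem_of_mem_erase hy) _).2 hnxL)
    rw [← hR, ← hca]
    refine nul_old c ?_
    have h1 := hok.nul
    unfold Frame.Nul at h1
    rw [hx] at h1
    exact h1
  · intro v _
    by_cases hch : ∃ e ∈ lam, e.vx = v ∧ ∃ y ∈ (A i).erase x, S.D.s e = y ∨ S.D.t e = y
    · obtain ⟨e, he, hev, y, hy, hye⟩ := hch
      have hadj := adj_st e he
      obtain ⟨u, hu, hou, hoy⟩ : ∃ u, (S.D.gr lam).Adj y u ∧ On S.P v u ∧ On S.P v y := by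
        rcases hye with hye | hye
        · exact ⟨S.D.t e, hye ▸ hadj, hev ▸ on_t e, hye ▸ hev ▸ on_s e⟩
        · exact ⟨S.D.s e, hye ▸ hadj.symm, hev ▸ on_s e, hye ▸ hev ▸ on_t e⟩
      have hyt := mem_of_mem_erase hy
      have hyt' := (hmA i y).1 hyt
      rcases hnb u ((hAtw y hyt u).1 hu) with hu | hu
      · refine real_of _ (A i) (A (i - 1)) x v y u hTA hoy hou ?_ (hind (i - 1))
        intro w hw h1 h2
        unfold Frame.Priv at p0
        rw [hi1] at p0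
        have h3 := p0 _ ((hmA _ u).1 hu) _ hyt' _ (hvs w hw) (hRe w u h2) (hRe w y h1)
        rw [hmA, hmA]
        exact h3.symm
      · refine real_of _ (A i) (A (i + 1)) x v y u hTA hoy hou ?_ (hind (i + 1))
        intro w hw h1 h2
        rw [hmA, hmA]
        exact p _ hyt' _ ((hmA _ u).1 hu) _ (hvs w hw) (hRe w y h1) (hRe w u h2)
    · refine realAt_congr (fun e hev _ => ?_) (h.real v)
      constructor
      · intro he
        refine mem_filter.2 ⟨he, fun h1 => ?_, fun h1 => ?_⟩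
        · exact hch ⟨e, he, hev, _, h1, Or.inl rfl⟩
        · exact hch ⟨e, he, hev, _, h1, Or.inr rfl⟩
      · intro he
        exact (mem_filter.1 he).1

end Pool.Agent.RPH
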