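import Pool.Agent.RPH.YRest
import Pool.Agent.RPH.YDef
import Pool.Agent.RPH.ExtS
import Pool.Agent.RPH.XCfgA

/-!
# RPH-YDeg: the faces of degree at least three have bounded total degree

As `Pool/Agent/EPH/YDeg.lean`; the degrees at the faces of `B` may be odd.
-/

set_option autoImplicit false

open Finset
open scoped Classical

namespace Pool.Agent.RPH

open Pool.Agent.EPH
open Pool.Agent.BEO hiding Cfg Frame

private theorem yd_sum {k : ℕ} {Φ Vt Z Q : Type} [Fintype Φ] [Fintype Vt] [AddCommGroup Z] [Module F2 Z] [AddCommGroup Q] [Module F2 Q]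
    (S : Sys k Φ Vt Z Q) (ν : Finset (Ch S.P)) (F : Φ) :
    dgF S ν F = ∑ e ∈ ν, ((if S.D.s e = F then 1 else 0) + (if S.D.t e = F then 1 else 0)) := by
  unfold dgF
  rw [card_filter]
  refine sum_congr rfl fun e _ => ?_
  have h := s_ne_t S e
  by_cases h1 : S.D.s e = F
  · have h2 : ¬ S.D.t e = F := fun h' => h (h1.trans h'.symm)
    rw [if_pos h1, if_neg h2, if_pos (Or.inl h1)]
  · by_cases h2 : S.D.t e = F
    · rw [if_neg h1, if_pos h2, if_pos (Or.inr h2)]
    · rw [if_neg h1, if_neg h2, if_neg (by rintro (h3 | h3); exacts [h1 h3, h2 h3])]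

private theorem yd_even {k : ℕ} {Φ Vt Z Q : Type} [Fintype Φ] [Fintype Vt] [AddCommGroup Z] [Module F2 Z] [AddCommGroup Q] [Module F2 Q]
    (S : Sys k Φ Vt Z Q) (ν : Finset (Ch S.P)) (F : Φ) (h : S.D.dF F (S.D.cls ν) = 0) : Even (dgF S ν F) := by
  have h1 := h
  rw [S.D.dF_cls] at h1
  rw [← ZMod.natCast_eq_zero_iff_even, yd_sum, Nat.cast_sum, ← h1]
  refine sum_congr rfl fun e _ => ?_
  rw [Nat.cast_add, Nat.cast_ite, Nat.cast_ite, Nat.cast_one, Nat.cast_zero]

private theorem yd_tot {k : ℕ} {Φ Vt Z Q : Type} [Fintype Φ] [Fintype Vt] [AddCommGroup Z] [Module F2 Z] [AddCommGroup Q] [Module F2 Q]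
    (S : Sys k Φ Vt Z Q) (ν : Finset (Ch S.P)) : ∑ F, dgF S ν F = 2 * ν.card := by
  simp only [yd_sum]
  rw [sum_comm]
  have h : ∀ e ∈ ν, ∑ F, ((if S.D.s e = F then 1 else 0) + (if S.D.t e = F then 1 else 0)) = 2 := by
    intro e _
    rw [sum_add_distrib, sum_ite_eq, sum_ite_eq, if_pos (mem_univ _), if_pos (mem_univ _)]
  rw [sum_congr rfl h, sum_const, smul_eq_mul, mul_comm]

private theorem yd_count {α : Type} (ν : Finset α) (p : α → Prop) :
    (ν.toList.countP fun e => decide (p e)) = (ν.filter p).card := by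
  rw [← Multiset.coe_countP, Finset.coe_toList, Multiset.countP_eq_card_filter]
  rfl

private theorem yd_mf {k : ℕ} {Φ Vt Z Q : Type} [Fintype Φ] [Fintype Vt] [AddCommGroup Z] [Module F2 Z] [AddCommGroup Q] [Module F2 Q]
    (S : Sys k Φ Vt Z Q) (ν : Finset (Ch S.P)) (F : Φ) : mf S ν.toList F = dgF S ν F := by
  unfold mf
  rw [yd_count, yd_count, yd_sum, sum_add_distrib, card_filter, card_filter]

theorem card_deg (k : ℕ) : ∃ C : ℕ, ∀ (Φ Vt Z Q : Type) [Fintype Φ] [Fintype Vt] [AddCommGroup Z] [Module F2 Z]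
    [Module.Finite F2 Z] [AddCommGroup Q] [Module F2 Q] (S : Sys k Φ Vt Z Q) (lam mu : Finset (Ch S.P)), Ext S lam mu →
    ∑ F ∈ univ.filter (fun F => 2 < dgF S lam F), dgF S lam F ≤ C := by
  obtain ⟨C, hC⟩ := card_rest k
  refine ⟨4 * (2 * k + 4 * (28 * k + 2 + 0)) + 3 * (2 * C) + 3 * k, ?_⟩
  intro Φ Vt Z Q _ _ _ _ _ _ _ S lam mu h
  have h1 := lemF' h mu.toList 0 ((Finset.sum_map_toList mu S.D.q).trans h.clsM) (by rw [length_toList]; omega)
  have h2 := yd_tot S (lam \ mu)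
  have h3 := hC Φ Vt Z Q S lam mu h
  have hsplit : ∀ F, dgF S lam F = dgF S mu F + dgF S (lam \ mu) F := by
    intro F
    rw [yd_sum, yd_sum, yd_sum, add_comm, sum_sdiff h.sub]
  have key : ∀ F ∈ univ.filter (fun F => 2 < dgF S lam F),
      dgF S lam F ≤ 4 * (mf S mu.toList F / 2 - 1) + 3 * dgF S (lam \ mu) F + (if F ∈ S.D.B then 3 else 0) := by
    intro F hF
    have hF' := (mem_filter.1 hF).2
    rw [yd_mf]
    rw [hsplit F] at hF' ⊢
    by_cases hB : F ∈ S.D.B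
    · rw [if_pos hB]
      omega
    · obtain ⟨m, hm⟩ := yd_even S mu F (by rw [h.clsM]; exact h.ev F hB)
      rw [if_neg hB]
      rw [hm] at hF' ⊢
      omega
  calc ∑ F ∈ univ.filter (fun F => 2 < dgF S lam F), dgF S lam F
      ≤ ∑ F ∈ univ.filter (fun F => 2 < dgF S lam F),
          (4 * (mf S mu.toList F / 2 - 1) + 3 * dgF S (lam \ mu) F + (if F ∈ S.D.B then 3 else 0)) := sum_le_sum key
    _ ≤ ∑ F, (4 * (mf S mu.toList F / 2 - 1) + 3 * dgF S (lam \ mu) F + (if F ∈ S.D.B then 3 else 0)) :=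
        sum_le_sum_of_subset (filter_subset _ _)
    _ = 4 * ∑ F, (mf S mu.toList F / 2 - 1) + 3 * ∑ F, dgF S (lam \ mu) F + ∑ F, (if F ∈ S.D.B then 3 else 0) := by
        rw [sum_add_distrib, sum_add_distrib, ← mul_sum, ← mul_sum]
    _ ≤ 4 * (2 * k + 4 * (28 * k + 2 + 0)) + 3 * (2 * C) + 3 * k := by
        have h4 : ∑ F, (if F ∈ S.D.B then 3 else 0) = 3 * S.D.B.card := by
          rw [sum_ite_mem, univ_inter, sum_const, smul_eq_mul, mul_comm]
        have h5 := S.D.cardB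
        rw [h2, h4]
        omega

/-- the degrees are even outside `B` -/
theorem dg_even {k : ℕ} {Φ Vt Z Q : Type} [Fintype Φ] [Fintype Vt] [AddCommGroup Z] [Module F2 Z] [Module.Finite F2 Z] [AddCommGroup Q] [Module F2 Q]
    {S : Sys k Φ Vt Z Q} {lam mu : Finset (Ch S.P)} (h : Ext S lam mu) (F : Φ) (hF : F ∉ S.D.B) : Even (dgF S lam F) := by
  exact yd_even S lam F (h.ev F hF)

end Pool.Agent.RPH
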