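import Pool.Agent.RPH.CSeg
import Pool.Agent.RPH.CDeg

/-!
# RPH-YEdg: a bounded number of edges outside `M`

Every edge outside `M` has an end in the set `D` of the exceptional vertices and the vertices outside `M`; the other
ends of such edges at a given vertex are in `D` or in a ball of radius two.
-/

set_option autoImplicit false

open Finset
open scoped Classical

namespace Pool.Agent.RPH

open Pool.Agent.BEO hiding Cfg Frame

theorem card_edges_out (k C C1 : ℕ) : ∃ C2 : ℕ, ∀ (V Q : Type) [Fintype V] [AddCommGroup Q] [Module F2 Q]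
    (c : Cfg k V Q) (_ : Frame C c), (univ.filter fun y => y ∈ vs c.L ∧ y ∉ vs c.M).card ≤ C1 →
    ((es c.L).filter fun e => e ∉ c.M.edgeSet).card ≤ C2 := by
  refine ⟨(C + C1) * (C + C1 + (2 * k + 3) ^ 2), ?_⟩
  intro V Q _ _ _ c f hC1
  obtain ⟨D, hD⟩ : ∃ D : Finset V, D = f.B ∪ (univ.filter fun y => y ∈ vs c.L ∧ y ∉ vs c.M) := ⟨_, rfl⟩
  have hDc : D.card ≤ C + C1 := by
    rw [hD]
    exact (card_union_le _ _).trans (Nat.add_le_add f.hB hC1)
  have hvs : ∀ (G : SimpleGraph V) (u v : V), G.Adj u v → u ∈ vs G := by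
    intro G u v h
    rw [vs, mem_filter]
    exact ⟨mem_univ _, v, h⟩
  have hin : ∀ u, u ∉ D → u ∈ vs c.L → ∃ j l, 1 ≤ l ∧ l ≤ f.n j ∧ u = f.x j l := by
    intro u hu huL
    have huM : u ∈ vs c.M := by
      by_contra h
      apply hu
      rw [hD, mem_union]
      right
      rw [mem_filter]
      exact ⟨mem_univ _, huL, h⟩
    rcases f.cov u huM with h | h
    · exfalso
      apply hu
      rw [hD, mem_union]
      exact Or.inl h
    · exact h
  have hsub : ((es c.L).filter fun e => e ∉ c.M.edgeSet) ⊆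
      D.biUnion fun b => (univ.filter fun u => (c.L \ c.M).Adj b u).image fun u => s(b, u) := by
    intro e he
    rw [mem_filter, es, mem_filter] at he
    obtain ⟨⟨-, h1⟩, h2⟩ := he
    induction e using Sym2.ind with
    | _ u v =>
      rw [SimpleGraph.mem_edgeSet] at h1 h2
      rw [mem_biUnion]
      by_cases hu : u ∈ D
      · refine ⟨u, hu, mem_image.2 ⟨v, ?_, rfl⟩⟩
        rw [mem_filter, SimpleGraph.sdiff_adj]
        exact ⟨mem_univ _, h1, h2⟩
      by_cases hv : v ∈ D
      · refine ⟨v, hv, mem_image.2 ⟨u, ?_, Sym2.eq_swap⟩⟩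
        rw [mem_filter, SimpleGraph.sdiff_adj]
        exact ⟨mem_univ _, h1.symm, fun h => h2 h.symm⟩
      exfalso
      obtain ⟨j, l, a1, a2, e1⟩ := hin u hu (hvs _ _ _ h1)
      obtain ⟨j', l', b1, b2, e2⟩ := hin v hv (hvs _ _ _ h1.symm)
      rw [e1, e2] at h1 h2
      obtain ⟨hj, hl⟩ := adj_inner f j j' l l' a1 a2 b1 b2 h1
      apply h2
      rw [f.adj j l a1 a2]
      rcases hl with h | h
      · right
        rw [hj, h]
      · left
        rw [hj, h]
        rfl
  have hN : ∀ b ∈ D, ((univ.filter fun u => (c.L \ c.M).Adj b u).image fun u => s(b, u)).card ≤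
      D.card + (2 * k + 3) ^ 2 := by
    intro b _
    refine card_image_le.trans ?_
    have h1 : (univ.filter fun u => (c.L \ c.M).Adj b u) ⊆
        D ∪ ((univ.filter fun u => (c.L \ c.M).Adj b u) \ D) := by
      intro u hu
      rw [mem_union, mem_sdiff]
      by_cases h : u ∈ D
      · exact Or.inl h
      · exact Or.inr ⟨hu, h⟩
    refine (card_le_card h1).trans ((card_union_le _ _).trans (Nat.add_le_add_left ?_ _))
    rcases ((univ.filter fun u => (c.L \ c.M).Adj b u) \ D).eq_empty_or_nonempty with h | ⟨u, hu⟩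
    · rw [h, card_empty]
      exact Nat.zero_le _
    · refine le_trans (card_le_card ?_) (card_ball (fun v => deg_le c v) 2 u)
      intro u' hu'
      rw [mem_sdiff, mem_filter] at hu hu'
      rw [mem_filter]
      refine ⟨mem_univ _, ?_⟩
      obtain ⟨⟨-, g1⟩, g2⟩ := hu
      obtain ⟨⟨-, g3⟩, g4⟩ := hu'
      have g1' := g1
      have g3' := g3
      rw [SimpleGraph.sdiff_adj] at g1' g3'
      obtain ⟨j, l, a1, a2, e1⟩ := hin u g2 (hvs _ _ _ g1'.1.symm)
      obtain ⟨j', l', b1, b2, e2⟩ := hin u' g4 (hvs _ _ _ g3'.1.symm)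
      subst e1 e2
      have h5 := f.far j l j' l' a1 a2 b1 b2
        (SimpleGraph.Walk.cons g1.symm (SimpleGraph.Walk.cons g3 SimpleGraph.Walk.nil)) (by simp)
      simpa using h5
  refine (card_le_card hsub).trans ((card_biUnion_le_card_mul _ _ _ hN).trans ?_)
  exact Nat.mul_le_mul hDc (Nat.add_le_add_right hDc _)

end Pool.Agent.RPH
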