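import Pool.Agent.RPH.YDef
import Pool.Agent.RPH.DtB
import Pool.Agent.RPH.XCfgA
import Pool.Agent.RPH.DtB
import Pool.Agent.BEO.DWB

/-!
# RPH-YLeg: properties of legs

An inner face of a leg has exactly two chords of `lam`, both in the leg. So an even subset of `lam` contains the leg or
is disjoint from it, and the inner faces are different from each other and from the two ends.
-/

set_option autoImplicit false

open Finset
open scoped Classical

namespace Pool.Agent.RPH

open Pool.Agent.EPH Pool.Agent.BEO

variable {k : ℕ} {Φ Vt Z Q : Type} [Fintype Φ] [Fintype Vt] [AddCommGroup Z] [Module F2 Z] [Module.Finite F2 Z] [AddCommGroup Q] [Module F2 Q]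

variable {S : Sys k Φ Vt Z Q} {lam mu : Finset (Ch S.P)} {F G : Φ} {P : List (Ch S.P)}

omit [Module.Finite F2 Z] in
/-- two different chords at a face of degree two are all chords at this face -/
private theorem yl_two {X : Φ} (hd : dgF S lam X = 2) {e e' e'' : Ch S.P} (he : e ∈ lam) (he' : e' ∈ lam)
    (he'' : e'' ∈ lam) (hne : e ≠ e') (h : S.D.s e = X ∨ S.D.t e = X) (h' : S.D.s e' = X ∨ S.D.t e' = X)
    (h'' : S.D.s e'' = X ∨ S.D.t e'' = X) : e'' = e ∨ e'' = e' := by
  by_contra hc
  rw [not_or] at hc
  have h1 : ({e'', e, e'} : Finset (Ch S.P)) ⊆ lam.filter fun e => S.D.s e = X ∨ S.D.t e = X := by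
    intro x hx
    rw [mem_insert, mem_insert, mem_singleton] at hx
    rw [mem_filter]
    rcases hx with rfl | rfl | rfl
    · exact ⟨he'', h''⟩
    · exact ⟨he, h⟩
    · exact ⟨he', h'⟩
  have h2 := Finset.card_le_card h1
  have h3 : ({e'', e, e'} : Finset (Ch S.P)).card = 3 := Finset.card_eq_three.2 ⟨e'', e, e', hc.1, hc.2, hne, rfl⟩
  unfold dgF at hd
  omega

omit [Module.Finite F2 Z] in
/-- an even subset contains both or none of the two chords at a face of degree two -/
private theorem yl_ev {X : Φ} (hd : dgF S lam X = 2) {e e' : Ch S.P} (he : e ∈ lam) (he' : e' ∈ lam)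
    (hne : e ≠ e') (h : S.D.s e = X ∨ S.D.t e = X) (h' : S.D.s e' = X ∨ S.D.t e' = X) (ν : Finset (Ch S.P))
    (hν : ν ⊆ lam)
    (hev : ∑ e ∈ ν, ((if S.D.s e = X then (1 : F2) else 0) + (if S.D.t e = X then 1 else 0)) = 0) (hin : e ∈ ν) : e' ∈ ν := by
  by_contra hout
  have h1 := hev
  rw [Finset.sum_eq_single e] at h1
  · have h2 := s_ne_t S e
    rcases h with h | h
    · rw [if_pos h, if_neg (fun h3 => h2 (h.trans h3.symm))] at h1
      exact absurd h1 (by decide)
    · rw [if_pos h, if_neg (fun h3 => h2 (h3.trans h.symm))] at h1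
      exact absurd h1 (by decide)
  · intro x hx hxe
    have h3 : ¬ (S.D.s x = X ∨ S.D.t x = X) := by
      intro h3
      rcases yl_two hd he he' (hν hx) hne h h' h3 with h4 | h4
      · exact hxe h4
      · rw [h4] at hx
        exact hout hx
    rw [not_or] at h3
    rw [if_neg h3.1, if_neg h3.2, add_zero]
  · intro h3
    exact absurd hin h3

/-- the last edge of a walk is at its end -/
private theorem yl_last {Ψ E : Type} {s t : E → Ψ} {F G : Ψ} {l : List E} (h : DW s t F G l) (hne : l ≠ []) :
    ∃ e ∈ l, s e = G ∨ t e = G := by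
  induction h with
  | nil F => exact absurd rfl hne
  | cons F X H e l he hl ih =>
    by_cases h1 : l = []
    · subst h1
      cases hl
      exact ⟨e, List.mem_cons_self, he.elim (fun h => Or.inr h.2) (fun h => Or.inl h.1)⟩
    · obtain ⟨e', he', h2⟩ := ih h1
      exact ⟨e', List.mem_cons_of_mem _ he', h2⟩

omit [Module.Finite F2 Z] in
/-- the inner faces of a walk with faces of degree two -/
private theorem yl_inner {F G : Φ} {P : List (Ch S.P)} (h : DW S.D.s S.D.t F G P) (hne : P ≠ [])
    (hnd : P.Nodup) (hsub : ∀ e ∈ P, e ∈ lam)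
    (hdeg : ∀ e ∈ P, dgF S lam (S.D.s e) = 2 ∧ dgF S lam (S.D.t e) = 2) :
    ∃ H : Finset Φ, H.card + 1 = P.length ∧ F ∉ H ∧ G ∉ H ∧
    (∀ X ∈ H, ∃ e ∈ P, S.D.s e = X ∨ S.D.t e = X) ∧
    ∀ X ∈ H, ∀ e ∈ lam, (S.D.s e = X ∨ S.D.t e = X) → e ∈ P := by
  induction h with
  | nil F => exact absurd rfl hne
  | cons F X G e l he hl ih =>
    have hst := s_ne_t S e
    have heF : S.D.s e = F ∨ S.D.t e = F := he.elim (fun h => Or.inl h.1) (fun h => Or.inr h.2)
    have heX : S.D.s e = X ∨ S.D.t e = X := he.elim (fun h => Or.inr h.2) (fun h => Or.inl h.1)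
    have hFX : F ≠ X := by
      rintro rfl
      rcases he with ⟨h1, h2⟩ | ⟨h1, h2⟩
      · exact hst (h1.trans h2.symm)
      · exact hst (h1.trans h2.symm)
    have hdX : dgF S lam X = 2 := by
      rcases heX with h1 | h1
      · rw [← h1]
        exact (hdeg e List.mem_cons_self).1
      · rw [← h1]
        exact (hdeg e List.mem_cons_self).2
    have hel : e ∉ l := (List.nodup_cons.1 hnd).1
    by_cases h1 : l = []
    · subst h1
      refine ⟨∅, rfl, Finset.notMem_empty _, Finset.notMem_empty _, ?_, ?_⟩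
      · intro Y hY
        exact absurd hY (Finset.notMem_empty _)
      · intro Y hY
        exact absurd hY (Finset.notMem_empty _)
    · obtain ⟨H, a1, a2, a3, a4, a5⟩ := ih h1 (List.nodup_cons.1 hnd).2
        (fun e' he' => hsub e' (List.mem_cons_of_mem _ he')) (fun e' he' => hdeg e' (List.mem_cons_of_mem _ he'))
      -- the first chord of the rest
      obtain ⟨e1, he1, he1X⟩ : ∃ e1 ∈ l, S.D.s e1 = X ∨ S.D.t e1 = X := by
        obtain ⟨e1, h2, h3⟩ := yl_last hl.reverse (by
          intro h4
          exact h1 (List.reverse_eq_nil_iff.1 h4))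
        exact ⟨e1, List.mem_reverse.1 h2, h3⟩
      have hne1 : e ≠ e1 := by
        rintro rfl
        exact hel he1
      refine ⟨insert X H, ?_, ?_, ?_, ?_, ?_⟩
      · rw [Finset.card_insert_of_notMem a2, List.length_cons, a1]
      · rw [mem_insert, not_or]
        refine ⟨hFX, fun h2 => hel (a5 F h2 e (hsub e List.mem_cons_self) heF)⟩
      · rw [mem_insert, not_or]
        refine ⟨?_, a3⟩
        rintro rfl
        -- three chords at `X`
        cases hl with
        | nil => exact h1 rfl
        | cons _ Y _ e2 l2 he2 hl2 =>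
          have hst2 := s_ne_t S e2
          have hl2ne : l2 ≠ [] := by
            rintro rfl
            cases hl2
            rcases he2 with ⟨h3, h4⟩ | ⟨h3, h4⟩
            · exact hst2 (h3.trans h4.symm)
            · exact hst2 (h3.trans h4.symm)
          obtain ⟨e3, he3, h3⟩ := yl_last hl2 hl2ne
          have hnd2 := (List.nodup_cons.1 (List.nodup_cons.1 hnd).2).1
          have h23 : e2 ≠ e3 := by
            rintro rfl
            exact hnd2 he3
          have h2X : S.D.s e2 = G ∨ S.D.t e2 = G := he2.elim (fun h => Or.inl h.1) (fun h => Or.inr h.2)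
          rcases yl_two hdX (hsub e2 (List.mem_cons_of_mem _ List.mem_cons_self))
            (hsub e3 (List.mem_cons_of_mem _ (List.mem_cons_of_mem _ he3))) (hsub e List.mem_cons_self) h23 h2X h3
            heX with h4 | h4
          · rw [h4] at hel
            exact hel List.mem_cons_self
          · rw [h4] at hel
            exact hel (List.mem_cons_of_mem _ he3)
      · intro Y hY
        rw [mem_insert] at hY
        rcases hY with rfl | hY
        · exact ⟨e, List.mem_cons_self, heX⟩
        · obtain ⟨e', he', h2⟩ := a4 Y hY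
          exact ⟨e', List.mem_cons_of_mem _ he', h2⟩
      · intro Y hY e' he' h2
        rw [mem_insert] at hY
        rcases hY with rfl | hY
        · rcases yl_two hdX (hsub e List.mem_cons_self) (hsub e1 (List.mem_cons_of_mem _ he1)) he' hne1 heX he1X h2 with
            h3 | h3
          · rw [h3]
            exact List.mem_cons_self
          · rw [h3]
            exact List.mem_cons_of_mem _ he1
        · exact List.mem_cons_of_mem _ (a5 Y hY e' he' h2)

omit [Module.Finite F2 Z] in
private theorem yl_un {F G : Φ} {P : List (Ch S.P)} (h : DW S.D.s S.D.t F G P)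
    (hnd : P.Nodup) (hsub : ∀ e ∈ P, e ∈ lam)
    (hdeg : ∀ e ∈ P, dgF S lam (S.D.s e) = 2 ∧ dgF S lam (S.D.t e) = 2)
    (hout : ∀ e ∈ P, S.D.s e ∉ S.D.B ∧ S.D.t e ∉ S.D.B)
    (ν : Finset (Ch S.P)) (hν : ν ⊆ lam) (hev : ∀ X, X ∉ S.D.B → ∑ e ∈ ν, ((if S.D.s e = X then (1 : F2) else 0) + (if S.D.t e = X then 1 else 0)) = 0) :
    (∀ e ∈ P, e ∈ ν) ∨ (∀ e ∈ P, e ∉ ν) := by
  induction h with
  | nil F =>
    left
    intro e he
    exact absurd he List.not_mem_nil
  | cons F X G e l he hl ih =>
    have heX : S.D.s e = X ∨ S.D.t e = X := he.elim (fun h => Or.inr h.2) (fun h => Or.inl h.1)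
    have hdX : dgF S lam X = 2 := by
      rcases heX with h1 | h1
      · rw [← h1]
        exact (hdeg e List.mem_cons_self).1
      · rw [← h1]
        exact (hdeg e List.mem_cons_self).2
    have hXB : X ∉ S.D.B := by
      rcases heX with h1 | h1
      · rw [← h1]
        exact (hout e List.mem_cons_self).1
      · rw [← h1]
        exact (hout e List.mem_cons_self).2
    have hel : e ∉ l := (List.nodup_cons.1 hnd).1
    by_cases h1 : l = []
    · subst h1
      by_cases h2 : e ∈ ν
      · left
        intro e' he'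
        rw [List.mem_singleton] at he'
        rwa [he']
      · right
        intro e' he'
        rw [List.mem_singleton] at he'
        rwa [he']
    · obtain ⟨e1, he1, he1X⟩ : ∃ e1 ∈ l, S.D.s e1 = X ∨ S.D.t e1 = X := by
        obtain ⟨e1, h2, h3⟩ := yl_last hl.reverse (by
          intro h4
          exact h1 (List.reverse_eq_nil_iff.1 h4))
        exact ⟨e1, List.mem_reverse.1 h2, h3⟩
      have hne1 : e ≠ e1 := by
        rintro rfl
        exact hel he1
      have b0 := hsub e List.mem_cons_self
      have b1 := hsub e1 (List.mem_cons_of_mem _ he1)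
      rcases ih (List.nodup_cons.1 hnd).2
        (fun e' he' => hsub e' (List.mem_cons_of_mem _ he')) (fun e' he' => hdeg e' (List.mem_cons_of_mem _ he'))
        (fun e' he' => hout e' (List.mem_cons_of_mem _ he')) with
        h2 | h2
      · left
        intro e' he'
        rw [List.mem_cons] at he'
        rcases he' with rfl | he'
        · exact yl_ev hdX b1 b0 hne1.symm he1X heX ν hν (hev X hXB) (h2 e1 he1)
        · exact h2 e' he'
      · right
        intro e' he'
        rw [List.mem_cons] at he'
        rcases he' with rfl | he'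
        · intro h3
          exact h2 e1 he1 (yl_ev hdX b0 b1 hne1 heX he1X ν hν (hev X hXB) h3)
        · exact h2 e' he'

theorem leg_un (h : Leg S lam mu F G P) (ν : Finset (Ch S.P)) (hν : ν ⊆ lam)
    (hev : ∀ X, X ∉ S.D.B → S.D.dF X (S.D.cls ν) = 0) :
    (∀ e ∈ P, e ∈ ν) ∨ (∀ e ∈ P, e ∉ ν) := by
  refine yl_un h.dw h.nodup h.sub h.deg h.out ν hν fun X hX => ?_
  rw [← S.D.dF_cls]
  exact hev X hX

theorem leg_inner (h : Leg S lam mu F G P) : ∃ H : Finset Φ, H.card + 1 = P.length ∧ F ∉ H ∧ G ∉ H ∧
    (∀ X ∈ H, ∃ e ∈ P, S.D.s e = X ∨ S.D.t e = X) ∧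
    ∀ X ∈ H, ∀ e ∈ lam, (S.D.s e = X ∨ S.D.t e = X) → e ∈ P := by
  exact yl_inner h.dw h.ne h.nodup h.sub h.deg

/-- the faces of a walk: its ends and at most `length - 1` others -/
theorem walk_faces {F G : Φ} {c : List (Ch S.P)} (hc : DW S.D.s S.D.t F G c) (hne : c ≠ []) :
    ∃ H : Finset Φ, H.card + 1 ≤ c.length ∧ ∀ e ∈ c, (S.D.s e = F ∨ S.D.s e = G ∨ S.D.s e ∈ H) ∧
      (S.D.t e = F ∨ S.D.t e = G ∨ S.D.t e ∈ H) := by
  induction hc with
  | nil F => exact absurd rfl hne
  | cons F X G e l he hl ih =>
    by_cases h1 : l = []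
    · subst h1
      cases hl
      refine ⟨∅, by simp, ?_⟩
      intro e' he'
      rw [List.mem_singleton] at he'
      subst he'
      rcases he with ⟨h2, h3⟩ | ⟨h2, h3⟩
      · exact ⟨Or.inl h2, Or.inr (Or.inl h3)⟩
      · exact ⟨Or.inr (Or.inl h2), Or.inl h3⟩
    · obtain ⟨H, a1, a2⟩ := ih h1
      refine ⟨insert X H, ?_, ?_⟩
      · have h2 := Finset.card_insert_le X H
        rw [List.length_cons]
        omega
      · intro e' he'
        rw [List.mem_cons] at he'
        rcases he' with rfl | he'
        · rcases he with ⟨h2, h3⟩ | ⟨h2, h3⟩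
          · exact ⟨Or.inl h2, Or.inr (Or.inr (by rw [h3]; exact mem_insert_self _ _))⟩
          · exact ⟨Or.inr (Or.inr (by rw [h2]; exact mem_insert_self _ _)), Or.inl h3⟩
        · obtain ⟨h2, h3⟩ := a2 e' he'
          constructor
          · rcases h2 with h2 | h2 | h2
            · exact Or.inr (Or.inr (by rw [h2]; exact mem_insert_self _ _))
            · exact Or.inr (Or.inl h2)
            · exact Or.inr (Or.inr (mem_insert_of_mem h2))
          · rcases h3 with h2 | h2 | h2
            · exact Or.inr (Or.inr (by rw [h2]; exact mem_insert_self _ _))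
            · exact Or.inr (Or.inl h2)
            · exact Or.inr (Or.inr (mem_insert_of_mem h2))

end Pool.Agent.RPH
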