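import Pool.Agent.RPH.YPc
import Pool.Agent.EPH.YGr
import Pool.Agent.RPH.YBad
import Pool.Agent.RPH.YDeg
import Pool.Agent.RPH.YFew

/-!
# RPH-YPair: many disjoint pairs of neighbouring good pieces

PLAN. `pairs` with `ι := Fin ls.length`, `J i j := i ≠ j ∧ Jn ..` (symmetric), `piece_deg`, `piece_nb`, and `Gd` the set of the
`i` with `GdP S lam mu (ls.get i)`. The others, at most `Cb := C1 + C2 + k`: members with a bad chord (`card_badC`, the
members are disjoint: at most `C1`), members with a chord at a face of degree different from 2 (the degree is even and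
positive, so at least 4: at most `C2` by `card_deg`: every such member contains one of the chords at such faces), and
otherwise the member is closed (all its walks `DW F G` have `F = G`): its chords are in `mu` (not bad), and its set of
chords is even (`ends_par`): at most `k` by `few` (disjoint nonempty sets).
-/

set_option autoImplicit false

open Finset
open scoped Classical

namespace Pool.Agent.RPH

open Pool.Agent.EPH Pool.Agent.BEO

variable {k : ℕ} {Φ Vt Z Q : Type} [Fintype Φ] [Fintype Vt] [AddCommGroup Z] [Module F2 Z] [Module.Finite F2 Z] [AddCommGroup Q] [Module F2 Q]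

variable {S : Sys k Φ Vt Z Q} {W : Set (List (Ch S.P))} {lam mu : Finset (Ch S.P)} {ls : List (List (Ch S.P))}

omit [Module.Finite F2 Z] in
private theorem yp_dj (hd : Dec S W lam ls) (i j : Fin ls.length) (e : Ch S.P) (h1 : e ∈ ls.get i)
    (h2 : e ∈ ls.get j) : i = j := by
  have hp := (List.nodup_flatten.1 hd.nodup).2
  rw [List.pairwise_iff_get] at hp
  by_contra hne
  rcases lt_or_gt_of_ne hne with h | h
  · exact hp i j h h1 h2
  · exact hp j i h h2 h1

omit [Module.Finite F2 Z] in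
private theorem yp_lam (hd : Dec S W lam ls) (i : Fin ls.length) (e : Ch S.P) (h1 : e ∈ ls.get i) : e ∈ lam := by
  rw [hd.cov]
  exact List.mem_flatten.2 ⟨ls.get i, List.get_mem ls i, h1⟩

omit [Module.Finite F2 Z] in
/-- members with an element in a given set -/
private theorem yp_hit (hd : Dec S W lam ls) (T : Finset (Ch S.P)) (A : Finset (Fin ls.length))
    (hA : ∀ i ∈ A, ∃ e ∈ ls.get i, e ∈ T) : A.card ≤ T.card := by
  rcases A.eq_empty_or_nonempty with rfl | ⟨i0, hi0⟩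
  · rw [card_empty]
    exact Nat.zero_le _
  haveI : Nonempty (Ch S.P) := ⟨(hA i0 hi0).choose⟩
  choose! f hf using hA
  refine card_le_card_of_injOn f (fun i hi => (hf i hi).2) ?_
  intro i hi j hj hij
  refine yp_dj hd i j (f i) (hf i hi).1 ?_
  rw [hij]
  exact (hf j hj).1

omit [Module.Finite F2 Z] in
private theorem yp_big (hd : Dec S W lam ls) (A : Finset (Fin ls.length))
    (hA : ∀ i ∈ A, ∃ e ∈ ls.get i, ∃ F, 2 < dgF S lam F ∧ (S.D.s e = F ∨ S.D.t e = F)) :
    A.card ≤ ∑ F ∈ univ.filter (fun F => 2 < dgF S lam F), dgF S lam F := by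
  refine (yp_hit hd ((univ.filter (fun F => 2 < dgF S lam F)).biUnion
    fun F => lam.filter fun e => S.D.s e = F ∨ S.D.t e = F) A ?_).trans card_biUnion_le
  intro i hi
  obtain ⟨e, he, F, hF, h1⟩ := hA i hi
  exact ⟨e, he, mem_biUnion.2 ⟨F, mem_filter.2 ⟨mem_univ _, hF⟩, mem_filter.2 ⟨yp_lam hd i e he, h1⟩⟩⟩

omit [Module.Finite F2 Z] in
private theorem yp_inB (hd : Dec S W lam ls) (A : Finset (Fin ls.length))
    (hA : ∀ i ∈ A, ∃ e ∈ ls.get i, ∃ F ∈ S.D.B, S.D.s e = F ∨ S.D.t e = F) :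
    A.card ≤ 2 * k + ∑ F ∈ univ.filter (fun F => 2 < dgF S lam F), dgF S lam F := by
  have h1 : A.card ≤ ∑ F ∈ S.D.B, dgF S lam F := by
    refine (yp_hit hd (S.D.B.biUnion
      fun F => lam.filter fun e => S.D.s e = F ∨ S.D.t e = F) A ?_).trans card_biUnion_le
    intro i hi
    obtain ⟨e, he, F, hF, h1⟩ := hA i hi
    exact ⟨e, he, mem_biUnion.2 ⟨F, hF, mem_filter.2 ⟨yp_lam hd i e he, h1⟩⟩⟩
  have h2 : ∀ F ∈ S.D.B, dgF S lam F ≤ 2 + if 2 < dgF S lam F then dgF S lam F else 0 := by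
    intro F _
    split_ifs with h3
    · omega
    · omega
  refine h1.trans ((sum_le_sum h2).trans ?_)
  rw [sum_add_distrib, sum_const, smul_eq_mul, ← sum_filter]
  have h3 := S.D.cardB
  have h4 : ∑ F ∈ S.D.B.filter (fun F => 2 < dgF S lam F), dgF S lam F ≤
      ∑ F ∈ univ.filter (fun F => 2 < dgF S lam F), dgF S lam F :=
    sum_le_sum_of_subset (filter_subset_filter _ (subset_univ _))
  omega

private theorem yp_closed (h : Ext S lam mu) (hd : Dec S W lam ls) (A : Finset (Fin ls.length))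
    (h0 : ∀ i ∈ A, ¬ GdP S lam mu (ls.get i)) (h1 : ∀ i ∈ A, ∀ e ∈ ls.get i, e ∉ badC S lam mu)
    (h2 : ∀ i ∈ A, ∀ e ∈ ls.get i, ∀ F, 2 < dgF S lam F → ¬ (S.D.s e = F ∨ S.D.t e = F))
    (h2B : ∀ i ∈ A, ∀ e ∈ ls.get i, ∀ F ∈ S.D.B, ¬ (S.D.s e = F ∨ S.D.t e = F)) : A.card ≤ k := by
  have hinj : Set.InjOn (fun i => (ls.get i).toFinset) (A : Set (Fin ls.length)) := by
    intro i _ j _ hij
    obtain ⟨e, he⟩ := List.exists_mem_of_ne_nil _ (hd.ne _ (List.get_mem ls i))
    have h3 : e ∈ (ls.get j).toFinset := by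
      have h4 : (ls.get i).toFinset = (ls.get j).toFinset := hij
      rw [← h4]
      exact List.mem_toFinset.2 he
    exact yp_dj hd i j e he (List.mem_toFinset.1 h3)
  rw [← card_image_of_injOn hinj]
  refine few h _ ?_ ?_
  · intro q hq
    obtain ⟨i, hi, rfl⟩ := mem_image.1 hq
    refine ⟨?_, ?_, ?_⟩
    · intro e he
      have he' := List.mem_toFinset.1 he
      have h3 := h1 i hi e he'
      by_contra hmu
      exact h3 (mem_filter.2 ⟨yp_lam hd i e he', Or.inl hmu⟩)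
    · obtain ⟨e, he⟩ := List.exists_mem_of_ne_nil _ (hd.ne _ (List.get_mem ls i))
      exact ⟨e, List.mem_toFinset.2 he⟩
    · obtain ⟨F, G, hw⟩ := hd.walk _ (List.get_mem ls i)
      have hFG : F = G := by
        by_contra hne
        refine h0 i hi ⟨⟨F, G, hne, hw⟩, h1 i hi, ?_, fun e he =>
          ⟨fun hB => h2B i hi e he _ hB (Or.inl rfl), fun hB => h2B i hi e he _ hB (Or.inr rfl)⟩⟩
        intro e he
        have hpos : ∀ X, (S.D.s e = X ∨ S.D.t e = X) → dgF S lam X = 2 := by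
          intro X hX
          have h3 : 0 < dgF S lam X := card_pos.2 ⟨e, mem_filter.2 ⟨yp_lam hd i e he, hX⟩⟩
          have h4 : ¬ 2 < dgF S lam X := fun h5 => h2 i hi e he X h5 hX
          obtain ⟨c, hc⟩ := dg_even h X (fun hB => h2B i hi e he X hB hX)
          omega
        exact ⟨hpos _ (Or.inl rfl), hpos _ (Or.inr rfl)⟩
      have hnd : (ls.get i).Nodup := (List.nodup_flatten.1 hd.nodup).1 _ (List.get_mem ls i)
      intro X
      rw [List.sum_toFinset _ hnd, hw.bd X, hFG]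
      exact CharTwo.add_self_eq_zero _
  · intro q hq q' hq' hne
    obtain ⟨i, hi, rfl⟩ := mem_image.1 hq
    obtain ⟨j, hj, rfl⟩ := mem_image.1 hq'
    rw [disjoint_left]
    intro e h3 h4
    apply hne
    rw [yp_dj hd i j e (List.mem_toFinset.1 h3) (List.mem_toFinset.1 h4)]

theorem exists_pairs (k : ℕ) : ∃ C : ℕ, ∀ (Φ Vt Z Q : Type) [Fintype Φ] [Fintype Vt] [AddCommGroup Z] [Module F2 Z]
    [Module.Finite F2 Z] [AddCommGroup Q] [Module F2 Q] (S : Sys k Φ Vt Z Q) (W : Set (List (Ch S.P))) (lam mu : Finset (Ch S.P))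
    (ls : List (List (Ch S.P))), Ext S lam mu → Dec S W lam ls →
    ∃ Pm : Finset (Fin ls.length × Fin ls.length),
      (∀ p ∈ Pm, p.1 ≠ p.2 ∧ Jn S lam (ls.get p.1) (ls.get p.2) ∧ GdP S lam mu (ls.get p.1) ∧
        GdP S lam mu (ls.get p.2)) ∧
      (∀ p ∈ Pm, ∀ q ∈ Pm, p ≠ q → p.1 ≠ q.1 ∧ p.1 ≠ q.2 ∧ p.2 ≠ q.1 ∧ p.2 ≠ q.2) ∧
      ls.length ≤ 6 * Pm.card + C := by
  obtain ⟨C1, hC1⟩ := card_badC k
  obtain ⟨C2, hC2⟩ := card_deg k
  refine ⟨3 * (C1 + C2 + (2 * k + C2) + k), ?_⟩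
  intro Φ Vt Z Q _ _ _ _ _ _ _ S W lam mu ls h hd
  set Gd : Finset (Fin ls.length) := univ.filter fun i => GdP S lam mu (ls.get i) with hGd
  have hb : (univ \ Gd).card ≤ C1 + C2 + (2 * k + C2) + k := by
    set A1 := (univ \ Gd).filter fun i => ∃ e ∈ ls.get i, e ∈ badC S lam mu with hA1
    set A2 := (univ \ Gd).filter fun i => ∃ e ∈ ls.get i, ∃ F, 2 < dgF S lam F ∧ (S.D.s e = F ∨ S.D.t e = F)
      with hA2
    set A4 := (univ \ Gd).filter fun i => ∃ e ∈ ls.get i, ∃ F ∈ S.D.B, S.D.s e = F ∨ S.D.t e = F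
      with hA4
    set A3 := (univ \ Gd) \ (A1 ∪ A2 ∪ A4) with hA3
    have hsub : univ \ Gd ⊆ (A1 ∪ A2 ∪ A4) ∪ A3 := by
      intro i hi
      by_cases h1 : i ∈ A1 ∪ A2 ∪ A4
      · exact mem_union_left _ h1
      · exact mem_union_right _ (mem_sdiff.2 ⟨hi, h1⟩)
    have c1 : A1.card ≤ C1 := (yp_hit hd (badC S lam mu) A1 fun i hi => (mem_filter.1 hi).2).trans
      (hC1 Φ Vt Z Q S lam mu h)
    have c2 : A2.card ≤ C2 := (yp_big hd A2 fun i hi => (mem_filter.1 hi).2).trans (hC2 Φ Vt Z Q S lam mu h)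
    have c6 : A4.card ≤ 2 * k + C2 := (yp_inB hd A4 fun i hi => (mem_filter.1 hi).2).trans
      (Nat.add_le_add_left (hC2 Φ Vt Z Q S lam mu h) _)
    have c3 : A3.card ≤ k := by
      refine yp_closed h hd A3 ?_ ?_ ?_ ?_
      · intro i hi hg
        exact (mem_sdiff.1 (mem_sdiff.1 hi).1).2 (mem_filter.2 ⟨mem_univ _, hg⟩)
      · intro i hi e he hbad
        exact (mem_sdiff.1 hi).2 (mem_union_left _ (mem_union_left _
          (mem_filter.2 ⟨(mem_sdiff.1 hi).1, e, he, hbad⟩)))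
      · intro i hi e he F hF hX
        exact (mem_sdiff.1 hi).2 (mem_union_left _ (mem_union_right _
          (mem_filter.2 ⟨(mem_sdiff.1 hi).1, e, he, F, hF, hX⟩)))
      · intro i hi e he F hF hX
        exact (mem_sdiff.1 hi).2 (mem_union_right _ (mem_filter.2 ⟨(mem_sdiff.1 hi).1, e, he, F, hF, hX⟩))
    have c4 := (card_le_card hsub).trans (card_union_le _ _)
    have c5 := card_union_le A1 A2
    have c7 := card_union_le (A1 ∪ A2) A4
    omega
  have hb2 : Fintype.card (Fin ls.length) - Gd.card ≤ C1 + C2 + (2 * k + C2) + k := by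
    rw [← card_univ_sdiff]
    exact hb
  obtain ⟨J, hJ⟩ : ∃ J : Fin ls.length → Fin ls.length → Prop, ∀ i j, J i j ↔
      (i ≠ j ∧ Jn S lam (ls.get i) (ls.get j)) := ⟨_, fun _ _ => Iff.rfl⟩
  obtain ⟨Pm, h1, h2, h3⟩ := pairs J
    (fun i j hij => by
      obtain ⟨hne, F, hF, ha, hb'⟩ := (hJ i j).1 hij
      exact (hJ j i).2 ⟨hne.symm, F, hF, hb', ha⟩)
    (fun i hi => ((hJ i i).1 hi).1 rfl)
    (fun i => by
      have h4 := piece_deg h hd i
      refine le_trans (card_le_card ?_) h4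
      intro j hj
      rw [mem_filter] at hj ⊢
      have h5 := (hJ i j).1 hj.2
      exact ⟨mem_univ _, h5.1.symm, h5.2⟩) Gd
    (fun i hi => by
      obtain ⟨j, hj, hJn⟩ := piece_nb h hd i (mem_filter.1 hi).2
      exact ⟨j, (hJ i j).2 ⟨hj.symm, hJn⟩⟩) (C1 + C2 + (2 * k + C2) + k)
    (le_of_eq_of_le (@card_univ_sdiff (Fin ls.length) (fun a b => Classical.propDecidable (a = b)) _ Gd) hb2)
  rw [Fintype.card_fin] at h3
  refine ⟨Pm, fun p hp => ?_, h2, h3⟩
  obtain ⟨h6, hc, hd'⟩ := h1 p hp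
  obtain ⟨ha, hb'⟩ := (hJ _ _).1 h6
  exact ⟨ha, hb', (mem_filter.1 hc).2, (mem_filter.1 hd').2⟩

end Pool.Agent.RPH
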