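import Pool.Agent.RPH.YDef
import Pool.Agent.RPH.YDeg
import Pool.Agent.BEO.DWB

/-!
# RPH-YPc: the ends of the pieces

Let `w` be a walk from `F` to `G`, and `n X` the number of its chords at the face `X` (`countP`). `ends_par`:
`n X` is modulo 2 the number of `F`, `G` equal to `X`. `yp_deg`: the degree of `X` in `lam` is the sum of the numbers of
the chords of the members at `X`. `piece_nb`: an end of a good member has degree 2, so exactly one other member has
exactly one chord there. `piece_deg`: every member has at most two ends, each with at most one other member.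
-/

set_option autoImplicit false

open Finset
open scoped Classical

namespace Pool.Agent.RPH

open Pool.Agent.EPH Pool.Agent.BEO

variable {k : ℕ} {Φ Vt Z Q : Type} [Fintype Φ] [Fintype Vt] [AddCommGroup Z] [Module F2 Z] [Module.Finite F2 Z] [AddCommGroup Q] [Module F2 Q]

variable {S : Sys k Φ Vt Z Q} {W : Set (List (Ch S.P))} {lam mu : Finset (Ch S.P)} {ls : List (List (Ch S.P))}

omit [Module.Finite F2 Z] in
private theorem yp_sum (X : Φ) (w : List (Ch S.P)) :
    (((w.countP fun e => decide (S.D.s e = X ∨ S.D.t e = X) : ℕ)) : F2) =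
      (w.map fun e => ((if S.D.s e = X then (1 : F2) else 0) + (if S.D.t e = X then 1 else 0))).sum := by
  induction w with
  | nil => simp
  | cons e w ih =>
    rw [List.map_cons, List.sum_cons, ← ih, List.countP_cons, Nat.cast_add, add_comm]
    congr 1
    have hne := s_ne_t S e
    by_cases h1 : S.D.s e = X
    · have h2 : S.D.t e ≠ X := fun h2 => hne (h1.trans h2.symm)
      simp [h1, h2]
    · by_cases h2 : S.D.t e = X <;> simp [h1, h2]

theorem ends_par {F G : Φ} {w : List (Ch S.P)} (h : DW S.D.s S.D.t F G w) (X : Φ) :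
    (((w.countP fun e => decide (S.D.s e = X ∨ S.D.t e = X) : ℕ)) : F2) =
      (if F = X then 1 else 0) + (if G = X then 1 else 0) := by
  rw [yp_sum, h.bd X]

omit [Module.Finite F2 Z] in
/-- the degree is the sum of the numbers of chords of the members -/
private theorem yp_deg (hd : Dec S W lam ls) (X : Φ) :
    dgF S lam X = ∑ j : Fin ls.length, ((ls.get j).countP fun e => decide (S.D.s e = X ∨ S.D.t e = X)) := by
  have h1 : lam = ls.flatten.toFinset := by
    ext e
    rw [List.mem_toFinset]
    exact hd.cov e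
  have h2 : dgF S lam X = ls.flatten.countP fun e => decide (S.D.s e = X ∨ S.D.t e = X) := by
    unfold dgF
    rw [h1, List.countP_eq_length_filter, ← List.toFinset_card_of_nodup (hd.nodup.filter _)]
    congr 1
    ext e
    simp only [Finset.mem_filter, List.mem_toFinset, List.mem_filter, decide_eq_true_iff]
  rw [h2, List.countP_flatten]
  exact (Fin.sum_univ_fun_getElem ls _).symm

theorem piece_nb (h : Ext S lam mu) (hd : Dec S W lam ls) (i : Fin ls.length) (hi : GdP S lam mu (ls.get i)) :
    ∃ j, j ≠ i ∧ Jn S lam (ls.get i) (ls.get j) := by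
  obtain ⟨F, G, hFG, hw⟩ := hi.op
  have h1 := ends_par hw F
  rw [if_pos rfl, if_neg hFG.symm, add_zero] at h1
  set n : Fin ls.length → ℕ := fun j => ((ls.get j).countP fun e => decide (S.D.s e = F ∨ S.D.t e = F)) with hn
  have h2 : (n i) % 2 = 1 := by
    have h3 : ((n i : ℕ) : ZMod 2) = ((1 : ℕ) : ZMod 2) := by
      rw [Nat.cast_one]
      exact h1
    exact (ZMod.natCast_eq_natCast_iff' _ _ 2).1 h3
  have h3 : 0 < n i := by omega
  obtain ⟨e, he, hF⟩ := List.countP_pos_iff.1 h3
  have h4 : dgF S lam F = 2 := by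
    rcases of_decide_eq_true hF with h5 | h5
    · rw [← h5]
      exact (hi.deg e he).1
    · rw [← h5]
      exact (hi.deg e he).2
  have h5 : ∑ j, n j = 2 := by rw [← h4, yp_deg hd F]
  have h6 : n i ≤ ∑ j, n j := Finset.single_le_sum (fun j _ => Nat.zero_le _) (Finset.mem_univ i)
  have h7 : n i = 1 := by omega
  have h8 : n i + ∑ j ∈ univ.erase i, n j = 2 := by
    rw [Finset.add_sum_erase _ _ (Finset.mem_univ i), h5]
  have h9 : ∑ j ∈ univ.erase i, n j = 1 := by omega
  obtain ⟨j, hj, hj0⟩ : ∃ j ∈ univ.erase i, n j ≠ 0 := by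
    by_contra hcon
    push Not at hcon
    rw [Finset.sum_eq_zero hcon] at h9
    exact absurd h9 (by norm_num)
  have h10 : n j ≤ ∑ j ∈ univ.erase i, n j :=
    Finset.single_le_sum (fun j _ => Nat.zero_le _) hj
  exact ⟨j, (Finset.mem_erase.1 hj).1, F, h4, h7, by
    show n j = 1
    omega⟩

theorem piece_deg (h : Ext S lam mu) (hd : Dec S W lam ls) (i : Fin ls.length) :
    (univ.filter fun j => j ≠ i ∧ Jn S lam (ls.get i) (ls.get j)).card ≤ 2 := by
  obtain ⟨F, G, hw⟩ := hd.walk (ls.get i) (List.get_mem ls i)
  set A : Φ → Finset (Fin ls.length) := fun X => univ.filter fun j => j ≠ i ∧ dgF S lam X = 2 ∧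
    ((ls.get i).countP fun e => decide (S.D.s e = X ∨ S.D.t e = X)) = 1 ∧
    ((ls.get j).countP fun e => decide (S.D.s e = X ∨ S.D.t e = X)) = 1 with hA
  have h1 : ∀ X, (A X).card ≤ 1 := by
    intro X
    rw [Finset.card_le_one]
    intro j hj l hl
    rw [hA] at hj hl
    simp only [Finset.mem_filter, Finset.mem_univ, true_and] at hj hl
    by_contra hjl
    have h3 := yp_deg hd X
    have h4 := Finset.sum_le_sum_of_subset (f := fun j : Fin ls.length =>
      ((ls.get j).countP fun e => decide (S.D.s e = X ∨ S.D.t e = X))) (Finset.subset_univ {i, j, l})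
    rw [Finset.sum_insert (by
      simp only [Finset.mem_insert, Finset.mem_singleton, not_or]
      exact ⟨fun h => hj.1 h.symm, fun h => hl.1 h.symm⟩), Finset.sum_pair hjl] at h4
    rw [← h3] at h4
    have h5 := hj.2.1
    have h6 := hj.2.2.1
    have h7 := hj.2.2.2
    have h8 := hl.2.2.2
    omega
  refine (Finset.card_le_card (t := A F ∪ A G) ?_).trans
    ((Finset.card_union_le _ _).trans (Nat.add_le_add (h1 F) (h1 G)))
  intro j hj
  simp only [Finset.mem_filter, Finset.mem_univ, true_and] at hj
  obtain ⟨hji, X, h2, h3, h4⟩ := hj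
  have h5 := ends_par hw X
  rw [h3] at h5
  have h6 : F = X ∨ G = X := by
    by_contra hcon
    push Not at hcon
    rw [if_neg hcon.1, if_neg hcon.2] at h5
    norm_num at h5
  rw [Finset.mem_union]
  rcases h6 with rfl | rfl
  · left
    rw [hA]
    simp only [Finset.mem_filter, Finset.mem_univ, true_and]
    exact ⟨hji, h2, h3, h4⟩
  · right
    rw [hA]
    simp only [Finset.mem_filter, Finset.mem_univ, true_and]
    exact ⟨hji, h2, h3, h4⟩

end Pool.Agent.RPH
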