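import Pool.Agent.RPH.XDel

/-!
# RPH-ZDef: the rows of the matrix of the form on the faces (definitions)

For sets of chords which need not be even. The matrix has the parity of the degree on the diagonal.
-/

set_option autoImplicit false

open Finset
open scoped Classical

namespace Pool.Agent.RPH

open Pool.Agent.EPH
open Pool.Agent.BEO hiding Cfg Frame

variable {k : ℕ} {Φ Vt Z Q : Type} [Fintype Φ] [Fintype Vt] [AddCommGroup Z] [Module F2 Z] [Module.Finite F2 Z]
  [AddCommGroup Q] [Module F2 Q]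

omit [Module.Finite F2 Z] in
/-- the row of the graph, with the parity of the degree on the diagonal -/
noncomputable def rwL (S : Sys k Φ Vt Z Q) (lam : Finset (Ch S.P)) (F : Φ) : Φ → F2 := fun u =>
  if u = F then S.D.dF F (S.D.cls lam) else row (S.D.gr lam) F u

omit [Module.Finite F2 Z] in
theorem rwL_self (S : Sys k Φ Vt Z Q) (lam : Finset (Ch S.P)) (F : Φ) : rwL S lam F F = S.D.dF F (S.D.cls lam) :=
  if_pos rfl

omit [Module.Finite F2 Z] in
theorem rwL_ne (S : Sys k Φ Vt Z Q) (lam : Finset (Ch S.P)) {F u : Φ} (h : F ≠ u) :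
    rwL S lam F u = if (S.D.gr lam).Adj F u then 1 else 0 := by
  unfold rwL row
  rw [if_neg (Ne.symm h)]

omit [Module.Finite F2 Z] in
theorem rwL_one (S : Sys k Φ Vt Z Q) (lam : Finset (Ch S.P)) {F u : Φ} (h : F ≠ u) :
    rwL S lam F u = 1 ↔ (S.D.gr lam).Adj F u := by
  rw [rwL_ne S lam h]
  split_ifs with h1
  · exact ⟨fun _ => h1, fun _ => rfl⟩
  · exact ⟨fun h2 => absurd h2 (by decide), fun h2 => absurd h2 h1⟩

omit [Module.Finite F2 Z] in
theorem rwL_symm (S : Sys k Φ Vt Z Q) (lam : Finset (Ch S.P)) (F u : Φ) : rwL S lam F u = rwL S lam u F := by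
  by_cases h : F = u
  · rw [h]
  · rw [rwL_ne S lam h, rwL_ne S lam (Ne.symm h)]
    by_cases h1 : (S.D.gr lam).Adj F u
    · rw [if_pos h1, if_pos h1.symm]
    · rw [if_neg h1, if_neg fun h2 => h1 h2.symm]

omit [Module.Finite F2 Z] in
/-- faces with the same row have the same other neighbours -/
theorem rwL_adj (S : Sys k Φ Vt Z Q) (lam : Finset (Ch S.P)) {p q u : Φ} (h : rwL S lam p = rwL S lam q) (hp : p ≠ u)
    (hq : q ≠ u) : (S.D.gr lam).Adj p u ↔ (S.D.gr lam).Adj q u := by
  rw [← rwL_one S lam hp, ← rwL_one S lam hq, h]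

omit [Module.Finite F2 Z] in
/-- faces with the same row: adjacent if and only if of odd degree -/
theorem rwL_pair (S : Sys k Φ Vt Z Q) (lam : Finset (Ch S.P)) {p q : Φ} (h : rwL S lam p = rwL S lam q) (hne : p ≠ q) :
    ((S.D.gr lam).Adj p q ↔ S.D.dF q (S.D.cls lam) = 1) ∧ ((S.D.gr lam).Adj p q ↔ S.D.dF p (S.D.cls lam) = 1) := by
  refine ⟨?_, ?_⟩
  · rw [← rwL_one S lam hne, h, rwL_self]
  · rw [← rwL_one S lam hne, rwL_symm, ← h, rwL_self]

end Pool.Agent.RPH
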