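import Pool.Agent.RPH.ZTw

/-!
# RPH-ZDel: no two twins can be deleted from an extremal set

PLAN. As `del_contra` in `Pool/Agent/RPH/XDel.lean`: `delF S lam {y, y'}` is realizable, has rank at most `rkN lam` and fewer active faces, contradicting `h.few`. The rank: if `dF y (cls lam) = 0` then `y, y'` are not adjacent (`rwL_pair`), so they have the same neighbours (`rwL_adj`; `u = y`, `u = y'` are not neighbours) and `twin_del0` (`RPH/NTw.lean`) applies. Otherwise it is 1, `y, y'` are adjacent, and `twin_del1`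
(ZTw) applies: `hlc` follows from `LC` (with its constant `d`) for `u`, and for `u = y2`: `cl S s(y, y2) + cl S s(y', y2) = d`, and this is `cl S s(y, y')` because the three faces are on `v`: `cl S s(F, G) = c v i + c v j` for the corners of `F, G` at `v` (`kl_corner` in `RPH/KLab.lean`, copy it). `noPar0 h`; `cl_eq`, `gr_mem` (`RPH/XCfgA.lean`) translate between chords and pairs.
-/

set_option autoImplicit false

open Finset
open scoped Classical

namespace Pool.Agent.RPH

open Pool.Agent.EPH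
open Pool.Agent.BEO hiding Cfg Frame

variable {k : ℕ} {Φ Vt Z Q : Type} [Fintype Φ] [Fintype Vt] [AddCommGroup Z] [Module F2 Z] [Module.Finite F2 Z]
  [AddCommGroup Q] [Module F2 Q]

omit [Module.Finite F2 Z] in
private theorem zd_corner (S : Sys k Φ Vt Z Q) (x : Vt) (F G : Φ) (hFG : F ≠ G) (i j : ℕ) (hi : i < S.P.d x)
    (hj : j < S.P.d x) (hiF : S.P.fc x i = F) (hjG : S.P.fc x j = G) : cl S s(F, G) = S.c x i + S.c x j := by
  rcases lt_trichotomy i j with hij | hij | hij
  · let e : Ch S.P := ⟨⟨x, ⟨i, hi⟩, ⟨j, hj⟩⟩, hij⟩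
    have h1 : s(S.D.s e, S.D.t e) = s(F, G) := by
      rw [S.hs, S.ht]
      change s(S.P.fc x i, S.P.fc x j) = s(F, G)
      rw [hiF, hjG]
    rw [← h1, cl_eq, S.hc]
    rfl
  · exact absurd (by rw [← hiF, ← hjG, hij]) hFG
  · let e : Ch S.P := ⟨⟨x, ⟨j, hj⟩, ⟨i, hi⟩⟩, hij⟩
    have h1 : s(S.D.s e, S.D.t e) = s(F, G) := by
      rw [S.hs, S.ht]
      change s(S.P.fc x j, S.P.fc x i) = s(F, G)
      rw [hiF, hjG, Sym2.eq_swap]
    rw [← h1, cl_eq, S.hc]
    exact add_comm _ _

private theorem zd_q2 (y : Q) : y + y = 0 := by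
  have h : (2 : F2) = 0 := by decide
  rw [← two_smul F2 y, h, zero_smul]

omit [Module.Finite F2 Z] in
private theorem zd_ch (S : Sys k Φ Vt Z Q) (lam : Finset (Ch S.P)) (y u : Φ) (h : (S.D.gr lam).Adj y u) :
    ∃ e ∈ lam, s(S.D.s e, S.D.t e) = s(y, u) := by
  rw [← SimpleGraph.mem_edgeSet, gr_mem] at h
  exact h

theorem del_contraL {S : Sys k Φ Vt Z Q} {lam : Finset (Ch S.P)} (h : Ext0 S lam) (y y' : Φ) (hne : y ≠ y')
    (hy : y ∉ S.D.B) (hy' : y' ∉ S.D.B) (hact : y ∈ vs (S.D.gr lam)) (hrow : rwL S lam y = rwL S lam y')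
    (hlc : LC S lam y y') (hthird : (S.D.gr lam).Adj y y' → ∃ v y2, y2 ≠ y ∧ y2 ≠ y' ∧ (S.D.gr lam).Adj y y2 ∧
      (S.D.gr lam).Adj y' y2 ∧ On S.P v y ∧ On S.P v y' ∧ On S.P v y2)
    (hreal : ∀ v, (On S.P v y ∨ On S.P v y') → RealAt S.P (delF S lam {y, y'}) v) : False := by
  have hR : S.D.rkN (delF S lam {y, y'}) ≤ S.D.rkN lam := by
    by_cases hadj : (S.D.gr lam).Adj y y'
    · have hodd : S.D.dF y (S.D.cls lam) = 1 := (rwL_pair S lam hrow hne).2.1 hadj
      refine twin_del1 (noPar0 h) y y' hy hadj hodd (fun u h1 h2 => rwL_adj S lam hrow (Ne.symm h1) (Ne.symm h2)) ?_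
      obtain ⟨d, hd⟩ := hlc
      have hcl : ∀ u, u ≠ y → u ≠ y' → (S.D.gr lam).Adj y u → cl S s(y, u) + cl S s(y', u) = d := by
        intro u h1 h2 hu
        obtain ⟨e, he, he1⟩ := zd_ch S lam y u hu
        obtain ⟨e', he', he1'⟩ := zd_ch S lam y' u ((rwL_adj S lam hrow (Ne.symm h1) (Ne.symm h2)).1 hu)
        rw [← he1, ← he1', cl_eq, cl_eq]
        exact hd e he e' he' u he1 he1'
      obtain ⟨v, y2, n1, n2, a1, a2, ⟨i, hi, hiy⟩, ⟨i', hi', hiy'⟩, ⟨j, hj, hjy⟩⟩ := hthird hadj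
      have hdd : d = cl S s(y, y') := by
        rw [← hcl y2 n1 n2 a1, zd_corner S v y y2 n1.symm i j hi hj hiy hjy,
          zd_corner S v y' y2 n2.symm i' j hi' hj hiy' hjy, zd_corner S v y y' hne i i' hi hi' hiy hiy']
        have e2 : S.c v i + S.c v j + (S.c v i' + S.c v j) = S.c v i + S.c v i' + (S.c v j + S.c v j) := by abel
        rw [e2, zd_q2, add_zero]
      intro u hu' hu
      rw [← hdd]
      exact hcl u hu.ne' hu' hu
    · refine twin_del0 (noPar0 h) y y' hy hy' hne (fun u => ?_) hlc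
      by_cases h1 : y = u
      · subst h1
        exact ⟨fun h2 => absurd rfl h2.ne, fun h2 => absurd h2.symm hadj⟩
      · by_cases h2 : y' = u
        · subst h2
          exact ⟨fun h3 => absurd h3 hadj, fun h3 => absurd rfl h3.ne⟩
        · exact rwL_adj S lam hrow h1 h2
  have hreal' : Real S.P (delF S lam {y, y'}) := by
    rw [real_iff]
    intro v
    by_cases hv : On S.P v y ∨ On S.P v y'
    · exact hreal v hv
    · push Not at hv
      refine realAt_congr (fun e he _ => ?_) ((real_iff S.P lam).1 h.real v)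
      have h1 : On S.P v (S.D.s e) := by
        rw [S.hs e, ← he]
        exact ⟨e.lo, e.1.2.1.isLt, rfl⟩
      have h2 : On S.P v (S.D.t e) := by
        rw [S.ht e, ← he]
        exact ⟨e.hi, e.1.2.2.isLt, rfl⟩
      have h3 : S.D.s e ∉ ({y, y'} : Finset Φ) := fun h' => by
        rcases mem_insert.1 h' with h'' | h''
        · exact hv.1 (h'' ▸ h1)
        · exact hv.2 (mem_singleton.1 h'' ▸ h1)
      have h4 : S.D.t e ∉ ({y, y'} : Finset Φ) := fun h' => by
        rcases mem_insert.1 h' with h'' | h''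
        · exact hv.1 (h'' ▸ h2)
        · exact hv.2 (mem_singleton.1 h'' ▸ h2)
      unfold delF
      rw [mem_filter]
      exact ⟨fun h' => ⟨h', h3, h4⟩, fun h' => h'.1⟩
  have hle := h.few _ hreal' hR
  have hyT : y ∈ ({y, y'} : Finset Φ) := mem_insert_self _ _
  have hsub : vs (S.D.gr (delF S lam {y, y'})) ⊂ vs (S.D.gr lam) := by
    rw [ssubset_iff_of_subset]
    · refine ⟨y, hact, fun hy' => ?_⟩
      unfold vs at hy'
      obtain ⟨u, -, e, he, h1⟩ := (mem_filter.1 hy').2
      unfold delF at he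
      obtain ⟨-, h2, h3⟩ := mem_filter.1 he
      rcases h1 with ⟨h1, -⟩ | ⟨-, h1⟩
      · exact h2 (h1 ▸ hyT)
      · exact h3 (h1 ▸ hyT)
    · intro w hw
      unfold vs at hw ⊢
      obtain ⟨u, hne, e, he, h1⟩ := (mem_filter.1 hw).2
      unfold delF at he
      exact mem_filter.2 ⟨mem_univ _, u, hne, e, (mem_filter.1 he).1, h1⟩
  have h5 := card_lt_card hsub
  unfold act at hle
  omega

end Pool.Agent.RPH
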