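import Pool.Agent.RPH.KErs
import Pool.Agent.RPH.ZWfn
import Pool.Agent.RPH.ZDef

/-!
# RPH-ZErs: erasing two twins of the same colour at a vertex

PLAN. `realAt_iffL`: as `realAt_iff` in `Pool/Agent/RPH/KWrd.lean` (there `h` is only used for `i < b < c ≤ j`). `real_eraseL`: adapt `real_erase` in `Pool/Agent/RPH/KErs.lean` with `E2 := univ` and `vertex_eraseL` (`RPH/ZWfn.lean`): the letters are the pairs (`rwL S lam p`, `col p`); two letters are related if `rwL S lam p q = 1` for some faces `p, q` with these letters;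
by `rwL_symm` this does not depend on the choice of `p, q` (if `rwL p = rwL p'` and `rwL q = rwL q'` then `rwL p q = rwL p' q = rwL q p' = rwL q' p' = rwL p' q'`); for `i ≠ j` the faces of the corners are different and `rwL_one` applies.
-/

set_option autoImplicit false

open Finset
open scoped Classical

namespace Pool.Agent.RPH

open Pool.Agent.EPH
open Pool.Agent.BEO hiding Cfg Frame

variable {k : ℕ} {Φ Vt Z Q : Type} [Fintype Φ] [Fintype Vt] [AddCommGroup Z] [Module F2 Z] [Module.Finite F2 Z]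
  [AddCommGroup Q] [Module F2 Q]

omit [Module.Finite F2 Z] in
theorem realAt_iffL {A : Type} (S : Sys k Φ Vt Z Q) (lam : Finset (Ch S.P)) (v : Vt) (B : A → A → Prop) (κ : ℕ → Option A)
    (h : ∀ i j, i < S.P.d v → j < S.P.d v → i < j → ((S.D.gr lam).Adj (S.P.fc v i) (S.P.fc v j) ↔ rl B κ i j)) :
    RealAt S.P lam v ↔ Four B (S.P.d v) κ := by
  have key : ∀ a b c f, f ≤ S.P.d v → b < c → (0 < a ∨ f < S.P.d v) → c ≤ S.P.d v →
      cnt lam v a b c f = cw B κ a b c f := by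
    intro a b c f hf hbc hgap hc
    rw [cnt_gr S lam v a b c f hf hbc hgap]
    unfold cw
    congr 1
    ext ⟨i, j⟩
    rw [mem_filter, mem_filter]
    refine and_congr_right fun hp => ?_
    rw [mem_product, mem_Ico, mem_Ico] at hp
    obtain ⟨⟨h1, h2⟩, h3, h4⟩ := hp
    change i < b at h2
    change c ≤ j at h3
    change j < f at h4
    exact h i j (by omega) (by omega) (by omega)
  constructor
  · intro hR l m n h1 h2 h3 h4
    have := hR l m n h1 h2 h3 h4
    rwa [key 0 l m n h4.le h2 (Or.inr h4) (by omega), key l m n _ le_rfl h3 (Or.inl h1) h4.le] at this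
  · intro hR l m n h1 h2 h3 h4
    have := hR l m n h1 h2 h3 h4
    rwa [← key 0 l m n h4.le h2 (Or.inr h4) (by omega), ← key l m n _ le_rfl h3 (Or.inl h1) h4.le] at this

/-- letters -/
private def KAL {Φ : Type} {M : ℕ} (rw' : Φ → Φ → F2) (col : Φ → Fin M) : Type :=
  {r : (Φ → F2) × Fin M // ∃ p, (rw' p, col p) = r}

/-- the relation on the letters -/
private def KBL {Φ : Type} {M : ℕ} (rw' : Φ → Φ → F2) (col : Φ → Fin M) (a b : KAL rw' col) : Prop :=
  ∃ p q, rw' p = a.1.1 ∧ rw' q = b.1.1 ∧ rw' p q = 1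

private theorem kbL_iff {Φ : Type} {M : ℕ} {rw' : Φ → Φ → F2} (hs : ∀ p q, rw' p q = rw' q p) (col : Φ → Fin M)
    {p q : Φ} (a b : KAL rw' col) (ha : a.1.1 = rw' p) (hb : b.1.1 = rw' q) : KBL rw' col a b ↔ rw' p q = 1 := by
  constructor
  · rintro ⟨p', q', h1, h2, h3⟩
    have h4 : rw' p q' = 1 := by rw [← congrFun (h1.trans ha) q']; exact h3
    have h5 : rw' q p = 1 := by rw [← congrFun (h2.trans hb) p, hs]; exact h4
    rw [hs]
    exact h5
  · intro h
    exact ⟨p, q, ha.symm, hb.symm, h⟩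

private theorem kbL_symm {Φ : Type} {M : ℕ} {rw' : Φ → Φ → F2} (hs : ∀ p q, rw' p q = rw' q p) (col : Φ → Fin M)
    (a b : KAL rw' col) (h : KBL rw' col a b) : KBL rw' col b a := by
  obtain ⟨p, q, h1, h2, h3⟩ := h
  exact ⟨q, p, h2, h1, by rw [hs]; exact h3⟩

/-- the word -/
private noncomputable def KWL {Φ : Type} {M : ℕ} (rw' : Φ → Φ → F2) (col : Φ → Fin M) (d : ℕ)
    (fc : ℕ → Φ) (i : ℕ) : Option (KAL rw' col) :=
  if i < d then some ⟨(rw' (fc i), col (fc i)), fc i, rfl⟩ else none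

private theorem kwL_pos {Φ : Type} {M : ℕ} (rw' : Φ → Φ → F2) (col : Φ → Fin M) {d : ℕ} (fc : ℕ → Φ)
    {i : ℕ} (h1 : i < d) :
    KWL rw' col d fc i = some ⟨(rw' (fc i), col (fc i)), fc i, rfl⟩ := by
  unfold KWL
  rw [if_pos h1]

private theorem kwL_rl {Φ : Type} {M : ℕ} {rw' : Φ → Φ → F2} (hs : ∀ p q, rw' p q = rw' q p) (col : Φ → Fin M)
    {d : ℕ} (fc : ℕ → Φ) (i j : ℕ) (hi : i < d) (hj : j < d) :
    rw' (fc i) (fc j) = 1 ↔ rl (KBL rw' col) (KWL rw' col d fc) i j := by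
  constructor
  · intro h
    exact ⟨_, _, kwL_pos rw' col fc hi, kwL_pos rw' col fc hj, (kbL_iff hs col _ _ rfl rfl).2 h⟩
  · rintro ⟨a, b, ha, hb, hab⟩
    rw [kwL_pos rw' col fc hi, Option.some.injEq] at ha
    rw [kwL_pos rw' col fc hj, Option.some.injEq] at hb
    subst ha
    subst hb
    exact (kbL_iff hs col _ _ rfl rfl).1 hab

omit [Module.Finite F2 Z] in
private theorem delF_adjL (S : Sys k Φ Vt Z Q) (lam : Finset (Ch S.P)) (T : Finset Φ) (p q : Φ) :
    (S.D.gr (delF S lam T)).Adj p q ↔ (S.D.gr lam).Adj p q ∧ p ∉ T ∧ q ∉ T := by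
  constructor
  · rintro ⟨h1, e, he, h2⟩
    unfold delF at he
    rw [mem_filter] at he
    refine ⟨⟨h1, e, he.1, h2⟩, ?_⟩
    rcases h2 with ⟨rfl, rfl⟩ | ⟨rfl, rfl⟩
    · exact he.2
    · exact ⟨he.2.2, he.2.1⟩
  · rintro ⟨⟨h1, e, he, h2⟩, h3, h4⟩
    refine ⟨h1, e, ?_, h2⟩
    unfold delF
    rw [mem_filter]
    refine ⟨he, ?_⟩
    rcases h2 with ⟨rfl, rfl⟩ | ⟨rfl, rfl⟩
    · exact ⟨h3, h4⟩
    · exact ⟨h4, h3⟩

theorem real_eraseL (N M : ℕ) : ∃ N' : ℕ, ∀ (k : ℕ) (Φ Vt Z Q : Type) [Fintype Φ] [Fintype Vt] [AddCommGroup Z] [Module F2 Z]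
    [Module.Finite F2 Z] [AddCommGroup Q] [Module F2 Q] (S : Sys k Φ Vt Z Q) (lam : Finset (Ch S.P)),
    Real S.P lam → ((univ : Finset Φ).image (rwL S lam)).card ≤ N → ∀ (col : Φ → Fin M) (v : Vt) (Y0 : Finset Φ),
    (∀ y ∈ Y0, On S.P v y) → N' < Y0.card → ∃ y ∈ Y0, ∃ y' ∈ Y0, y ≠ y' ∧
      rwL S lam y = rwL S lam y' ∧ col y = col y' ∧ RealAt S.P (delF S lam {y, y'}) v := by
  obtain ⟨N', hN'⟩ := vertex_eraseL (N * M)
  refine ⟨N', ?_⟩
  intro k Φ Vt Z Q _ _ _ _ _ _ _ S lam hR hN col v Y0 hY hcard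
  have hs : ∀ p q, rwL S lam p q = rwL S lam q p := rwL_symm S lam
  let eA : ↥((univ : Finset Φ).image (fun p => (rwL S lam p, col p))) ≃ KAL (rwL S lam) col :=
    ⟨fun x => ⟨x.1, by
      obtain ⟨p, -, hp⟩ := mem_image.1 x.2
      exact ⟨p, hp⟩⟩, fun x => ⟨x.1, by
      obtain ⟨p, hp⟩ := x.2
      exact mem_image.2 ⟨p, mem_univ _, hp⟩⟩, fun _ => rfl, fun _ => rfl⟩
  let iA : Fintype (KAL (rwL S lam) col) := Fintype.ofEquiv _ eA
  have hA : Fintype.card (KAL (rwL S lam) col) ≤ N * M := by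
    rw [Fintype.card_congr eA.symm, Fintype.card_coe]
    have h1 : (univ : Finset Φ).image (fun p => (rwL S lam p, col p)) ⊆
        ((univ : Finset Φ).image (rwL S lam)) ×ˢ (univ : Finset (Fin M)) := by
      intro x hx
      obtain ⟨p, hp, rfl⟩ := mem_image.1 hx
      exact mem_product.2 ⟨mem_image_of_mem _ hp, mem_univ _⟩
    have h2 := card_le_card h1
    rw [card_product, card_univ, Fintype.card_fin] at h2
    exact h2.trans (Nat.mul_le_mul_right M hN)
  have hinj : ∀ a b, a < S.P.d v → b < S.P.d v → (S.P.fc v a = S.P.fc v b ↔ a = b) :=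
    fun a b ha hb => ⟨S.P.inj v a b ha hb, fun hab => by rw [hab]⟩
  have hadj : ∀ i j, i < S.P.d v → j < S.P.d v → i < j → ((S.D.gr lam).Adj (S.P.fc v i) (S.P.fc v j) ↔
      rl (KBL (rwL S lam) col) (KWL (rwL S lam) col (S.P.d v) (S.P.fc v)) i j) := by
    intro i j hi hj hij
    rw [← kwL_rl hs col (S.P.fc v) i j hi hj]
    exact (rwL_one S lam (fun h => absurd ((hinj i j hi hj).1 h) hij.ne)).symm
  have hreal : RealAt S.P lam v := (real_iff S.P lam).1 hR v
  have hfour := (realAt_iffL S lam v (KBL (rwL S lam) col) (KWL (rwL S lam) col (S.P.d v) (S.P.fc v))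
    hadj).1 hreal
  have hmem : ∀ i, i ∈ (range (S.P.d v)).filter (fun i => S.P.fc v i ∈ Y0) ↔
      i < S.P.d v ∧ S.P.fc v i ∈ Y0 := fun i => by rw [mem_filter, mem_range]
  have hSp : N' < ((range (S.P.d v)).filter (fun i => S.P.fc v i ∈ Y0)).card := by
    refine lt_of_lt_of_le hcard ?_
    refine le_trans (card_le_card ?_) (card_image_le (f := S.P.fc v))
    intro y hy
    obtain ⟨i, hi, hiy⟩ := hY y hy
    exact mem_image.2 ⟨i, (hmem i).2 ⟨hi, by rw [hiy]; exact hy⟩, hiy⟩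
  obtain ⟨i, hi, j, hj, hij, hκ, h4⟩ := hN' (KAL (rwL S lam) col) hA (KBL (rwL S lam) col)
    (kbL_symm hs col) (S.P.d v) _ hfour
    ((range (S.P.d v)).filter (fun i => S.P.fc v i ∈ Y0)) (fun i hi => by
      obtain ⟨h1, h2⟩ := (hmem i).1 hi
      exact ⟨h1, by rw [kwL_pos (rwL S lam) col (S.P.fc v) h1]; exact Option.some_ne_none _⟩) hSp
  obtain ⟨hi1, hi2⟩ := (hmem i).1 hi
  obtain ⟨hj1, hj2⟩ := (hmem j).1 hj
  have hrc : (rwL S lam (S.P.fc v i), col (S.P.fc v i)) = (rwL S lam (S.P.fc v j), col (S.P.fc v j)) := by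
    rw [kwL_pos (rwL S lam) col (S.P.fc v) hi1, kwL_pos (rwL S lam) col (S.P.fc v) hj1, Option.some.injEq] at hκ
    exact congrArg (fun x : KAL (rwL S lam) col => x.1) hκ
  refine ⟨S.P.fc v i, hi2, S.P.fc v j, hj2, fun hh => hij ((hinj i j hi1 hj1).1 hh), congrArg Prod.fst hrc,
    congrArg Prod.snd hrc, ?_⟩
  · refine (realAt_iffL S _ v (KBL (rwL S lam) col) _ ?_).2 h4
    intro a b ha hb hab
    rw [delF_adjL, hadj a b ha hb hab, mem_insert, mem_singleton, mem_insert, mem_singleton,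
      hinj a i ha hi1, hinj a j ha hj1, hinj b i hb hi1, hinj b j hb hj1]
    constructor
    · rintro ⟨⟨x, y, h5, h6, h7⟩, h8, h9⟩
      refine ⟨x, y, ?_, ?_, h7⟩
      · show (if a = i ∨ a = j then none else _) = _
        rw [if_neg h8]
        exact h5
      · show (if b = i ∨ b = j then none else _) = _
        rw [if_neg h9]
        exact h6
    · rintro ⟨x, y, h5, h6, h7⟩
      have h5' : (if a = i ∨ a = j then none else
        KWL (rwL S lam) col (S.P.d v) (S.P.fc v) a) = some x := h5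
      have h6' : (if b = i ∨ b = j then none else
        KWL (rwL S lam) col (S.P.d v) (S.P.fc v) b) = some y := h6
      have h8 : ¬ (a = i ∨ a = j) := by
        intro hh
        rw [if_pos hh] at h5'
        exact Option.some_ne_none x h5'.symm
      have h9 : ¬ (b = i ∨ b = j) := by
        intro hh
        rw [if_pos hh] at h6'
        exact Option.some_ne_none y h6'.symm
      rw [if_neg h8] at h5'
      rw [if_neg h9] at h6'
      exact ⟨⟨x, y, h5', h6', h7⟩, h8, h9⟩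

end Pool.Agent.RPH
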