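import Pool.Agent.RPH.KLab
import Pool.Agent.RPH.ZDef

/-!
# RPH-ZLab: few classes of twins
-/

set_option autoImplicit false

open Finset
open scoped Classical

namespace Pool.Agent.RPH

open Pool.Agent.EPH
open Pool.Agent.BEO hiding Cfg Frame

private theorem kl_code {α X : Type} [i : DecidableEq X] (Y : Finset α) (f : α → X) (M : ℕ)
    (hM : (Y.image f).card < M) : ∃ col : α → Fin M, ∀ y ∈ Y, ∀ y' ∈ Y, col y = col y' → f y = f y' := by
  have h : i = fun a b => Classical.propDecidable (a = b) := Subsingleton.elim _ _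
  subst h
  exact exists_code Y f M hM

private theorem kl_dbl {Q : Type} [AddCommGroup Q] [Module F2 Q] (φ : Q) : φ + φ = 0 := by
  rw [← two_smul F2 φ, show (2 : F2) = 0 from rfl, zero_smul]

private theorem kl_cl {k : ℕ} {Φ Vt Z Q : Type} [Fintype Φ] [Fintype Vt] [AddCommGroup Z] [Module F2 Z] [AddCommGroup Q] [Module F2 Q]
    (S : Sys k Φ Vt Z Q) (e : Ch S.P) (F G : Φ) (h : s(S.D.s e, S.D.t e) = s(F, G)) :
    cl S s(F, G) = S.D.q e := by
  rw [← h, cl_eq]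

private theorem kl_corner {k : ℕ} {Φ Vt Z Q : Type} [Fintype Φ] [Fintype Vt] [AddCommGroup Z] [Module F2 Z] [AddCommGroup Q] [Module F2 Q]
    (S : Sys k Φ Vt Z Q) (x : Vt) (F G : Φ) (hFG : F ≠ G) (i j : ℕ) (hi : i < S.P.d x) (hj : j < S.P.d x)
    (hiF : S.P.fc x i = F) (hjG : S.P.fc x j = G) : cl S s(F, G) = S.c x i + S.c x j := by
  rcases lt_trichotomy i j with hij | hij | hij
  · let e : Ch S.P := ⟨⟨x, ⟨i, hi⟩, ⟨j, hj⟩⟩, hij⟩
    have h1 : s(S.D.s e, S.D.t e) = s(F, G) := by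
      rw [S.hs, S.ht]
      change s(S.P.fc x i, S.P.fc x j) = s(F, G)
      rw [hiF, hjG]
    rw [kl_cl S e F G h1, S.hc]
    rfl
  · exact absurd (by rw [← hiF, ← hjG, hij]) hFG
  · let e : Ch S.P := ⟨⟨x, ⟨j, hj⟩, ⟨i, hi⟩⟩, hij⟩
    have h1 : s(S.D.s e, S.D.t e) = s(F, G) := by
      rw [S.hs, S.ht]
      change s(S.P.fc x j, S.P.fc x i) = s(F, G)
      rw [hiF, hjG, Sym2.eq_swap]
    rw [kl_cl S e F G h1, S.hc]
    exact add_comm _ _

private theorem kl_lc {k : ℕ} {Φ Vt Z Q : Type} [Fintype Φ] [Fintype Vt] [AddCommGroup Z] [Module F2 Z] [AddCommGroup Q] [Module F2 Q]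
    (S : Sys k Φ Vt Z Q) (lam : Finset (Ch S.P)) (y y' : Φ) (d : Q)
    (h : ∀ u, (S.D.gr lam).Adj y u → (S.D.gr lam).Adj y' u → cl S s(y, u) + cl S s(y', u) = d) :
    LC S lam y y' := by
  refine ⟨d, fun e he e' he' u h1 h2 => ?_⟩
  rw [← kl_cl S e y u h1, ← kl_cl S e' y' u h2]
  refine h u ?_ ?_
  · rw [← SimpleGraph.mem_edgeSet, gr_mem]
    exact ⟨e, he, h1⟩
  · rw [← SimpleGraph.mem_edgeSet, gr_mem]
    exact ⟨e', he', h2⟩

private theorem kl_ch {k : ℕ} {Φ Vt Z Q : Type} [Fintype Φ] [Fintype Vt] [AddCommGroup Z] [Module F2 Z] [AddCommGroup Q] [Module F2 Q]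
    (S : Sys k Φ Vt Z Q) (lam : Finset (Ch S.P)) (y u : Φ) (h : (S.D.gr lam).Adj y u) :
    ∃ e : Ch S.P, s(S.D.s e, S.D.t e) = s(y, u) := by
  rw [← SimpleGraph.mem_edgeSet, gr_mem] at h
  obtain ⟨e, -, he⟩ := h
  exact ⟨e, he⟩

/-- two big blocks of faces with two common vertices each: impossible -/
private theorem zl_blk {k : ℕ} (N3 : ℕ) (hN3 : ∀ (Φ Vt Z Q : Type) [Fintype Φ] [Fintype Vt] [AddCommGroup Z] [Module F2 Z]
    [Module.Finite F2 Z] [AddCommGroup Q] [Module F2 Q] (S : Sys k Φ Vt Z Q) (I J : Finset Φ), Disjoint I J →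
    (∀ f ∈ I, f ∉ S.D.B) → (∀ g ∈ J, g ∉ S.D.B) →
    (∀ f ∈ I, ∀ g ∈ J, ∃ v, On S.P v f ∧ On S.P v g) → N3 ≤ I.card → N3 ≤ J.card →
    ∃ v, ∃ I' ⊆ I, ∃ J' ⊆ J, 3 ≤ I'.card ∧ 3 ≤ J'.card ∧ (∀ f ∈ I', On S.P v f) ∧ ∀ g ∈ J', On S.P v g)
    {Φ Vt Z Q : Type} [Fintype Φ] [Fintype Vt] [AddCommGroup Z] [Module F2 Z]
    [Module.Finite F2 Z] [AddCommGroup Q] [Module F2 Q] (S : Sys k Φ Vt Z Q) (lam : Finset (Ch S.P)) (I J : Finset Φ)
    (hdisj : Disjoint I J) (hI : ∀ f ∈ I, f ∉ S.D.B) (hJ : ∀ g ∈ J, g ∉ S.D.B)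
    (hadj : ∀ y ∈ I, ∀ u ∈ J, (S.D.gr lam).Adj y u) (hIc : N3 ≤ I.card) (hJc : N3 ≤ J.card)
    (h2 : ∀ y ∈ I, ∀ u ∈ J, ∃ v v', v ≠ v' ∧ On S.P v y ∧ On S.P v u ∧ On S.P v' y ∧ On S.P v' u) : False := by
  obtain ⟨v, I', hI', J', hJ', hI3, hJ3, hIv, hJv⟩ := hN3 Φ Vt Z Q S I J hdisj hI hJ
    (fun y hy u hu => (gr_le S lam (hadj y hy u hu)).2) hIc hJc
  obtain ⟨y, hy⟩ : I'.Nonempty := card_pos.1 (by omega)
  obtain ⟨i, hi, hiy⟩ := hIv y hy
  have key : ∀ u ∈ J', ∃ j, j < S.P.d v ∧ S.P.fc v j = u ∧ Nxt S.P v i j := by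
    intro u hu
    obtain ⟨j, hj, hju⟩ := hJv u hu
    have h1 : (S.D.gr lam).Adj y u := hadj y (hI' hy) u (hJ' hu)
    refine ⟨j, hj, hju, ?_⟩
    obtain ⟨w, w', hww, h2, h3, h4, h5⟩ := h2 y (hI' hy) u (hJ' hu)
    by_cases hvw : v = w
    · exact S.pol.two v w' y u (by rw [hvw]; exact hww) h1.ne (hIv y hy) (hJv u hu) h4 h5 i j hi hj
        hiy hju
    · exact S.pol.two v w y u hvw h1.ne (hIv y hy) (hJv u hu) h2 h3 i j hi hj hiy hju
  obtain ⟨a, ha, b, hb, c, hc', hab, hac, hbc⟩ := two_lt_card.1 (by omega : 2 < J'.card)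
  obtain ⟨j1, hj1, hf1, hn1⟩ := key a ha
  obtain ⟨j2, hj2, hf2, hn2⟩ := key b hb
  obtain ⟨j3, hj3, hf3, hn3⟩ := key c hc'
  have h12 : j1 ≠ j2 := fun h => hab (by rw [← hf1, ← hf2, h])
  have h13 : j1 ≠ j3 := fun h => hac (by rw [← hf1, ← hf3, h])
  have h23 : j2 ≠ j3 := fun h => hbc (by rw [← hf2, ← hf3, h])
  unfold Nxt at hn1 hn2 hn3
  omega

/-- the sum of the classes of two chords at a common vertex -/
private theorem zl_corner {k : ℕ} {Φ Vt Z Q : Type} [Fintype Φ] [Fintype Vt] [AddCommGroup Z] [Module F2 Z] [AddCommGroup Q] [Module F2 Q]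
    (S : Sys k Φ Vt Z Q) (x : Vt) (y y' u w : Φ) (h1 : y ≠ u) (h2 : y' ≠ u) (h3 : y ≠ w) (h4 : y' ≠ w)
    (hy : On S.P x y) (hy' : On S.P x y') (hu : On S.P x u) (hw : On S.P x w) :
    cl S s(y, u) + cl S s(y', u) = cl S s(y, w) + cl S s(y', w) := by
  obtain ⟨i, hi, hiy⟩ := hy
  obtain ⟨i', hi', hiy'⟩ := hy'
  obtain ⟨j, hj, hju⟩ := hu
  obtain ⟨j1, hj1, hju1⟩ := hw
  rw [kl_corner S x y u h1 i j hi hj hiy hju, kl_corner S x y' u h2 i' j hi' hj hiy' hju,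
    kl_corner S x y w h3 i j1 hi hj1 hiy hju1, kl_corner S x y' w h4 i' j1 hi' hj1 hiy' hju1]
  have e1 : ∀ A B C : Q, A + B + (C + B) = A + C := by
    intro A B C
    have e2 : A + B + (C + B) = A + C + (B + B) := by abel
    rw [e2, kl_dbl, add_zero]
  rw [e1, e1]

theorem lab_classesL (k N1 : ℕ) : ∃ M : ℕ, ∀ (Φ Vt Z Q : Type) [Fintype Φ] [Fintype Vt] [AddCommGroup Z] [Module F2 Z]
    [Module.Finite F2 Z] [AddCommGroup Q] [Module F2 Q] (S : Sys k Φ Vt Z Q) (lam : Finset (Ch S.P)) (Y1 Hb : Finset Φ)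
    (X1 : Finset Vt), NoPar S lam → (∀ y ∈ Y1, y ∉ Hb) → S.D.B ⊆ Hb → Hb.card ≤ N1 → X1.card ≤ 1 →
    (∀ y ∈ Y1, ∀ v ∈ X1, On S.P v y) → (∀ y ∈ Y1, ∀ y' ∈ Y1, rwL S lam y = rwL S lam y') →
    (∀ y ∈ Y1, ∀ u, (S.D.gr lam).Adj y u → u ∈ Hb ∨ (∃ v ∈ X1, On S.P v u) ∨
      ∃ v v', v ≠ v' ∧ On S.P v y ∧ On S.P v u ∧ On S.P v' y ∧ On S.P v' u) →
    ∃ col : Φ → Fin M, ∀ y ∈ Y1, ∀ y' ∈ Y1, col y = col y' → LC S lam y y' := by
  obtain ⟨N3, hN3⟩ := big_block k 3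
  refine ⟨(2 * N3 + 3 + ((2 ^ k) ^ (N1 + N3 + 1) + 1)) + 2, ?_⟩
  intro Φ Vt Z Q _ _ _ _ _ _ _ S lam Y1 Hb X1 _ hYH hBH hHb hX1 hon hrow hnb
  have hYB : ∀ y ∈ Y1, y ∉ S.D.B := fun y hy h => hYH y hy (hBH h)
  by_cases hY : Y1.card ≤ 2 * N3 + 2
  · have h1 : (Y1.image (id : Φ → Φ)).card < (2 * N3 + 3 + ((2 ^ k) ^ (N1 + N3 + 1) + 1)) + 2 := by
      rw [image_id]
      omega
    obtain ⟨col, hcol⟩ := exists_code Y1 id _ h1
    refine ⟨col, fun y hy y' hy' h => ?_⟩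
    have h2 : y = y' := hcol y hy y' hy' h
    rw [← h2]
    exact kl_lc S lam y y 0 fun u _ _ => kl_dbl _
  push Not at hY
  obtain ⟨y0, hy0, y1, hy1, hy01⟩ := one_lt_card.1 (by omega : 1 < Y1.card)
  -- pairs of Y1
  have hpair : ∀ p ∈ Y1, ∀ q ∈ Y1, p ≠ q → ((S.D.gr lam).Adj p q ↔ S.D.dF y0 (S.D.cls lam) = 1) := by
    intro p hp q hq hpq
    have h1 := rwL_pair S lam (hrow p hp q hq) hpq
    by_cases hp0 : p = y0
    · rw [← hp0]
      exact h1.2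
    · have h2 := rwL_pair S lam (hrow y0 hy0 p hp) (Ne.symm hp0)
      exact h1.2.trans (h2.1.symm.trans h2.2)
  -- neighbours outside Y1
  have hadj : ∀ y ∈ Y1, ∀ u, u ∉ Y1 → ((S.D.gr lam).Adj y u ↔ (S.D.gr lam).Adj y0 u) := by
    intro y hy u hu
    exact rwL_adj S lam (hrow y hy y0 hy0) (fun h => hu (h ▸ hy)) (fun h => hu (h ▸ hy0))
  let U : Finset Φ := univ.filter fun u => u ∉ Y1 ∧ (S.D.gr lam).Adj y0 u
  have hU : ∀ u, u ∈ U ↔ u ∉ Y1 ∧ (S.D.gr lam).Adj y0 u := fun u => by simp [U]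
  have hUadj : ∀ y ∈ Y1, ∀ u ∈ U, (S.D.gr lam).Adj y u := fun y hy u hu =>
    (hadj y hy u ((hU u).1 hu).1).2 ((hU u).1 hu).2
  let U2 : Finset Φ := U.filter fun u => u ∉ Hb ∧ ∀ v ∈ X1, ¬ On S.P v u
  have hU2 : U2.card ≤ N3 := by
    by_contra hc
    push Not at hc
    refine zl_blk N3 hN3 S lam Y1 U2 ?_ hYB (fun u hu h' => (mem_filter.1 hu).2.1 (hBH h'))
      (fun y hy u hu => hUadj y hy u (mem_filter.1 hu).1) (by omega) hc.le ?_
    · rw [disjoint_left]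
      intro u hu1 hu2
      exact ((hU u).1 (mem_filter.1 hu2).1).1 hu1
    · intro y hy u hu
      have hu2 := mem_filter.1 hu
      rcases hnb y hy u (hUadj y hy u hu2.1) with h2 | ⟨x, hx, h2⟩ | h2
      · exact absurd h2 hu2.2.1
      · exact absurd h2 (hu2.2.2 x hx)
      · exact h2
  -- in the odd case there is a vertex in X1
  have hodd : S.D.dF y0 (S.D.cls lam) = 1 → ∃ x, x ∈ X1 := by
    intro ho
    by_contra hc
    push Not at hc
    obtain ⟨I, hI, hIc⟩ := exists_subset_card_eq (show N3 ≤ Y1.card by omega)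
    have hJc : (Y1 \ I).card = Y1.card - N3 := by
      rw [card_sdiff_of_subset hI, hIc]
    refine zl_blk N3 hN3 S lam I (Y1 \ I) disjoint_sdiff (fun f hf => hYB f (hI hf))
      (fun f hf => hYB f (mem_sdiff.1 hf).1) (fun y hy u hu => ?_) hIc.ge (by omega) ?_
    · exact (hpair y (hI hy) u (mem_sdiff.1 hu).1 (fun h => (mem_sdiff.1 hu).2 (h ▸ hy))).2 ho
    · intro y hy u hu
      have h1 : (S.D.gr lam).Adj y u :=
        (hpair y (hI hy) u (mem_sdiff.1 hu).1 (fun h => (mem_sdiff.1 hu).2 (h ▸ hy))).2 ho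
      rcases hnb y (hI hy) u h1 with h2 | ⟨x, hx, h2⟩ | h2
      · exact absurd h2 (hYH u (mem_sdiff.1 hu).1)
      · exact absurd hx (hc x)
      · exact h2
  -- even case without neighbours
  by_cases htriv : S.D.dF y0 (S.D.cls lam) ≠ 1 ∧ U = ∅
  · refine ⟨fun _ => ⟨0, by omega⟩, fun y hy y' hy' _ => kl_lc S lam y y' 0 fun u hu _ => ?_⟩
    exfalso
    by_cases huY : u ∈ Y1
    · exact htriv.1 ((hpair y hy u huY hu.ne).1 hu)
    · have h1 : u ∈ U := (hU u).2 ⟨huY, (hadj y hy u huY).1 hu⟩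
      rw [htriv.2] at h1
      exact absurd h1 (notMem_empty u)
  -- the reference neighbour
  obtain ⟨r, hr0, hr, hrY⟩ : ∃ r, (S.D.gr lam).Adj y0 r ∧
      (∀ y ∈ Y1, y ≠ y0 → y ≠ y1 → (S.D.gr lam).Adj y r) ∧
      ∀ y ∈ Y1, y ≠ y0 → y ≠ y1 → ∀ y' ∈ Y1, y' ≠ y0 → y' ≠ y1 → ∀ u ∈ Y1, (S.D.gr lam).Adj y u →
        (S.D.gr lam).Adj y' u → cl S s(y, u) + cl S s(y', u) = cl S s(y, r) + cl S s(y', r) := by
    by_cases ho : S.D.dF y0 (S.D.cls lam) = 1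
    · obtain ⟨x, hx⟩ := hodd ho
      refine ⟨y1, (hpair y0 hy0 y1 hy1 hy01).2 ho, fun y hy _ h => (hpair y hy y1 hy1 h).2 ho, ?_⟩
      intro y hy _ h2 y' hy' _ h4 u hu h5 h6
      exact zl_corner S x y y' u y1 h5.ne h6.ne h2 h4 (hon y hy x hx) (hon y' hy' x hx) (hon u hu x hx)
        (hon y1 hy1 x hx)
    · have hUe : U ≠ ∅ := fun h => htriv ⟨ho, h⟩
      obtain ⟨u0, hu0⟩ := nonempty_iff_ne_empty.2 hUe
      refine ⟨u0, hUadj y0 hy0 u0 hu0, fun y hy _ _ => hUadj y hy u0 hu0, ?_⟩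
      intro y hy _ _ y' _ _ _ u hu h5 _
      exact absurd ((hpair y hy u hu h5.ne).1 h5) ho
  obtain ⟨W1, hW1U, hW1c, hW1⟩ : ∃ W1 : Finset Φ, W1 ⊆ U ∧ W1.card ≤ 1 ∧
      ((∃ u ∈ U, ∃ v ∈ X1, On S.P v u) → ∃ u1 ∈ W1, ∃ v ∈ X1, On S.P v u1) := by
    by_cases h : ∃ u ∈ U, ∃ v ∈ X1, On S.P v u
    · obtain ⟨u, hu, h1⟩ := h
      exact ⟨{u}, singleton_subset_iff.2 hu, by rw [card_singleton], fun _ => ⟨u, mem_singleton_self u, h1⟩⟩
    · exact ⟨∅, empty_subset _, by simp, fun h' => absurd h' h⟩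
  let W : Finset Φ := (U.filter fun u => u ∈ Hb) ∪ U2 ∪ W1
  have hWU : ∀ u ∈ W, u ∈ U := by
    intro u hu
    rcases mem_union.1 hu with h | h
    · rcases mem_union.1 h with h | h
      · exact (mem_filter.1 h).1
      · exact (mem_filter.1 h).1
    · exact hW1U h
  have hWc : W.card ≤ N1 + N3 + 1 := by
    have h1 : (U.filter fun u => u ∈ Hb).card ≤ N1 :=
      (card_le_card fun u hu => (mem_filter.1 hu).2).trans hHb
    calc W.card ≤ ((U.filter fun u => u ∈ Hb) ∪ U2).card + W1.card := card_union_le _ _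
      _ ≤ ((U.filter fun u => u ∈ Hb).card + U2.card) + 1 := by
          have := card_union_le (U.filter fun u => u ∈ Hb) U2
          omega
      _ ≤ N1 + N3 + 1 := by omega
  obtain ⟨T, hT, hTm⟩ := card_H S
  let Y2 : Finset Φ := Y1.filter fun y => y ≠ y0 ∧ y ≠ y1
  let f : Φ → ({u // u ∈ W} → (Q)) := fun y u =>
    cl S s(y, u.1) + cl S s(y0, u.1) + cl S s(y0, r) + cl S s(y, r)
  have hf : (Y2.image f).card < 2 * N3 + 3 + ((2 ^ k) ^ (N1 + N3 + 1) + 1) := by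
    have h1 : Y2.image f ⊆ Fintype.piFinset (fun _ : {u // u ∈ W} => T) := by
      intro g hg
      obtain ⟨y, hy, rfl⟩ := mem_image.1 hg
      obtain ⟨hyY, hyn0, hyn1⟩ := mem_filter.1 hy
      rw [Fintype.mem_piFinset]
      intro u
      rw [hTm]
      obtain ⟨e1, he1⟩ := kl_ch S lam y u.1 (hUadj y hyY _ (hWU _ u.2))
      obtain ⟨e2, he2⟩ := kl_ch S lam y0 u.1 (hUadj y0 hy0 _ (hWU _ u.2))
      obtain ⟨e3, he3⟩ := kl_ch S lam y0 r hr0
      obtain ⟨e4, he4⟩ := kl_ch S lam y r (hr y hyY hyn0 hyn1)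
      have h2 := rect_mem S y y0 u.1 r e1 e2 e3 e4 he1 he2 he3 he4
      change cl S s(y, u.1) + cl S s(y0, u.1) + cl S s(y0, r) + cl S s(y, r) ∈ S.D.H
      rw [kl_cl S e1 _ _ he1, kl_cl S e2 _ _ he2, kl_cl S e3 _ _ he3, kl_cl S e4 _ _ he4]
      exact h2
    have h2 := card_le_card h1
    rw [Fintype.card_piFinset, prod_const, card_univ, Fintype.card_coe] at h2
    have h3 : T.card ^ W.card ≤ (2 ^ k) ^ (N1 + N3 + 1) :=
      (Nat.pow_le_pow_left hT _).trans (Nat.pow_le_pow_right (by positivity) hWc)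
    omega
  obtain ⟨col, hcol⟩ := kl_code Y2 f (2 * N3 + 3 + ((2 ^ k) ^ (N1 + N3 + 1) + 1)) hf
  -- faces of Y2 with the same colour
  have main : ∀ y ∈ Y2, ∀ y' ∈ Y2, f y = f y' → LC S lam y y' := by
    intro y hy2 y' hy2' hff
    obtain ⟨hy, hyn0, hyn1⟩ := mem_filter.1 hy2
    obtain ⟨hy', hyn0', hyn1'⟩ := mem_filter.1 hy2'
    have hW : ∀ u ∈ W, cl S s(y, u) + cl S s(y', u) = cl S s(y, r) + cl S s(y', r) := by
      intro u hu
      have h1 : cl S s(y, u) + cl S s(y0, u) + cl S s(y0, r) + cl S s(y, r) =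
          cl S s(y', u) + cl S s(y0, u) + cl S s(y0, r) + cl S s(y', r) := congrFun hff ⟨u, hu⟩
      have h2 : ∀ A B C D E E' : Q, A + B + C + D = E + B + C + E' → A + E = D + E' := by
        intro A B C D E E' h
        have e1 : A = E + E' - D := by
          have : A = (A + B + C + D) - B - C - D := by abel
          rw [this, h]
          abel
        rw [e1]
        have e2 : E + E' - D + E = (E + E) + E' - (D + D) + D := by abel
        rw [e2, kl_dbl, kl_dbl]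
        abel
      exact h2 _ _ _ _ _ _ h1
    refine kl_lc S lam y y' (cl S s(y, r) + cl S s(y', r)) fun u hu hu' => ?_
    by_cases huY : u ∈ Y1
    · exact hrY y hy hyn0 hyn1 y' hy' hyn0' hyn1' u huY hu hu'
    have huU : u ∈ U := (hU u).2 ⟨huY, (hadj y hy u huY).1 hu⟩
    by_cases huW : u ∈ W
    · exact hW u huW
    · have hX : ∃ v ∈ X1, On S.P v u := by
        by_contra hc
        push Not at hc
        apply huW
        by_cases hH : u ∈ Hb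
        · exact mem_union_left _ (mem_union_left _ (mem_filter.2 ⟨huU, hH⟩))
        · exact mem_union_left _ (mem_union_right _ (mem_filter.2 ⟨huU, hH, hc⟩))
      obtain ⟨x, hx, hxu⟩ := hX
      obtain ⟨u1, hu1, x', hx', hxu1⟩ := hW1 ⟨u, huU, x, hx, hxu⟩
      have hxx : x' = x := card_le_one.1 hX1 x' hx' x hx
      rw [hxx] at hxu1
      rw [← hW u1 (mem_union_right _ hu1)]
      exact zl_corner S x y y' u u1 hu.ne hu'.ne (hUadj y hy u1 (hW1U hu1)).ne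
        (hUadj y' hy' u1 (hW1U hu1)).ne (hon y hy x hx) (hon y' hy' x hx) hxu hxu1
  refine ⟨fun y => if y = y0 then ⟨2 * N3 + 3 + ((2 ^ k) ^ (N1 + N3 + 1) + 1), by omega⟩ else
    if y = y1 then ⟨2 * N3 + 3 + ((2 ^ k) ^ (N1 + N3 + 1) + 1) + 1, by omega⟩ else
      ⟨(col y).1, by have := (col y).2; omega⟩, ?_⟩
  intro y hy y' hy' h
  beta_reduce at h
  have hself : ∀ z, LC S lam z z := fun z => kl_lc S lam z z 0 fun u _ _ => kl_dbl _
  have hb := (col y).2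
  have hb' := (col y').2
  by_cases h1 : y = y0
  · by_cases h2 : y' = y0
    · rw [h1, h2]; exact hself _
    · rw [if_pos h1, if_neg h2] at h
      by_cases h3 : y' = y1
      · rw [if_pos h3, Fin.mk.injEq] at h
        omega
      · rw [if_neg h3, Fin.mk.injEq] at h
        omega
  · rw [if_neg h1] at h
    by_cases h2 : y = y1
    · rw [if_pos h2] at h
      by_cases h3 : y' = y0
      · rw [if_pos h3, Fin.mk.injEq] at h
        omega
      · rw [if_neg h3] at h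
        by_cases h4 : y' = y1
        · rw [h2, h4]; exact hself _
        · rw [if_neg h4, Fin.mk.injEq] at h
          omega
    · rw [if_neg h2] at h
      by_cases h3 : y' = y0
      · rw [if_pos h3, Fin.mk.injEq] at h
        omega
      · rw [if_neg h3] at h
        by_cases h4 : y' = y1
        · rw [if_pos h4, Fin.mk.injEq] at h
          omega
        · rw [if_neg h4, Fin.mk.injEq] at h
          have hm : y ∈ Y2 := mem_filter.2 ⟨hy, h1, h2⟩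
          have hm' : y' ∈ Y2 := mem_filter.2 ⟨hy', h3, h4⟩
          exact main y hm y' hm' (hcol y hm y' hm' (Fin.ext h))

end Pool.Agent.RPH
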