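import Pool.Agent.RPH.ZRow
import Pool.Agent.RPH.ZHub
import Pool.Agent.RPH.ZCol
import Pool.Agent.RPH.ZErs
import Pool.Agent.RPH.ZOff
import Pool.Agent.RPH.ZDel
import Pool.Agent.RPH.KCnt

/-!
# RPH-ZOut: few active faces

PLAN. As `card_Y` in `Pool/Agent/RPH/KOut.lean`. `N := 2 ^ (k0 + k) + k` (`card_rwL`, `noPar0`), `N1` from `exists_hubsL k N` (with `ρ := rwL S lam`; `rwL_adj`), `M` from `lab_colL k N1`, `N2` from `real_eraseL N M`, `N3` from `big_block k 3`. `X0 := VH ∪ {v with two different hubs}`, `D2` the faces on two vertices of `X0` as there. (a) The active faces `y ∉ Hb` on no vertex of `X0`: a class (same `rwL`, same colour) has at most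
`2 * N3 + 2` members: if it has more and its faces have even degree (`rwL_pair`: not adjacent) take any two; if odd, all pairs are adjacent, hence have a common vertex (`gr_le`), and `big_block` for two disjoint parts gives three members `y, y', y2` on one vertex; in both cases `del_contraL` (`real_offL` at all vertices), so there are at most `N * M * (2 * N3 + 2)` of them. (b) For `v ∈ X0` the active faces
`y ∉ Hb`, `y ∉ D2` on `v`: if there were more than `N2 + 2 * (N * M)`, remove the faces whose class (among these faces) has at most two members; more than `N2` remain (`Y0`), `real_eraseL` gives `y, y'` in `Y0` of the same class, and there is a third member `y2` of the class on `v`; `del_contraL` (`real_offL` at the other vertices). Then add up as in `card_Y`.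
-/

set_option autoImplicit false

open Finset
open scoped Classical

namespace Pool.Agent.RPH

open Pool.Agent.EPH
open Pool.Agent.BEO hiding Cfg Frame

theorem card_act0 (k k0 : ℕ) : ∃ C : ℕ, ∀ (Φ Vt Z Q : Type) [Fintype Φ] [Fintype Vt] [AddCommGroup Z] [Module F2 Z]
    [Module.Finite F2 Z] [AddCommGroup Q] [Module F2 Q] (S : Sys k Φ Vt Z Q) (lam : Finset (Ch S.P)), Ext0 S lam →
    S.D.rkN lam ≤ k0 → (vs (S.D.gr lam)).card ≤ C := by
  obtain ⟨N, hNdef⟩ : ∃ N : ℕ, N = 2 ^ (k0 + k) + k := ⟨_, rfl⟩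
  obtain ⟨N1, hN1⟩ := exists_hubsL k N
  obtain ⟨M, hM⟩ := lab_colL k N1
  obtain ⟨N2, hN2⟩ := real_eraseL N M
  obtain ⟨N3, hN3⟩ := big_block k 3
  refine ⟨(2 * (N1 + 2 * N1 ^ 2) ^ 2 + N1) + (N * M * (2 * N3 + 2) +
    (N1 + 2 * N1 ^ 2) * (N2 + N * M * 2)), ?_⟩
  intro Φ Vt Z Q _ _ _ _ _ _ _ S lam h hrk
  have hnp : NoPar S lam := noPar0 h
  have hrowc : ((univ : Finset Φ).image (rwL S lam)).card ≤ N := by
    refine (card_rwL hnp).trans ?_
    rw [hNdef]
    have := Nat.pow_le_pow_right (show 0 < 2 by norm_num) (Nat.add_le_add_right hrk k)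
    omega
  obtain ⟨Hb, VH, hHb, hVH, hBH, hub⟩ := hN1 Φ Vt Z Q S (S.D.gr lam) (gr_le S lam) (rwL S lam)
    (fun a b c hab hbc hac => (rwL_adj S lam hab hac hbc.ne).2 hbc) hrowc
  obtain ⟨X1, hX1⟩ : ∃ X1 : Finset Vt, X1 =
    univ.filter fun v => ∃ p ∈ Hb, ∃ q ∈ Hb, p ≠ q ∧ On S.P v p ∧ On S.P v q := ⟨_, rfl⟩
  have hX1c : X1.card ≤ 2 * N1 ^ 2 := by
    rw [hX1]
    exact (card_two_faces S.pol Hb).trans (Nat.mul_le_mul_left 2 (Nat.pow_le_pow_left hHb 2))
  obtain ⟨X0, hX0⟩ : ∃ X0 : Finset Vt, X0 = VH ∪ X1 := ⟨_, rfl⟩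
  have hX0c : X0.card ≤ N1 + 2 * N1 ^ 2 := by
    rw [hX0]
    exact (card_union_le _ _).trans (Nat.add_le_add hVH hX1c)
  obtain ⟨col, hcol⟩ := hM Φ Vt Z Q S lam Hb VH X0 hnp hBH hHb (by rw [hX0]; exact subset_union_left) hub
  have hoff : ∀ v, v ∉ X0 → ∀ lam' : Finset (Ch S.P), lam' ⊆ lam → RealAt S.P lam' v := by
    intro v hv lam' hs
    rw [hX0, mem_union, not_or] at hv
    refine real_offL Hb VH hub v hv.1 ?_ lam' hs
    intro p hp q hq hvp hvq
    by_contra hpq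
    apply hv.2
    rw [hX1, mem_filter]
    exact ⟨mem_univ _, p, hp, q, hq, hpq, hvp, hvq⟩
  obtain ⟨D2, hD2⟩ : ∃ D2 : Finset Φ, D2 =
    univ.filter fun F => ∃ v ∈ X0, ∃ v' ∈ X0, v ≠ v' ∧ On S.P v F ∧ On S.P v' F := ⟨_, rfl⟩
  have hD2c : D2.card ≤ 2 * (N1 + 2 * N1 ^ 2) ^ 2 := by
    rw [hD2]
    exact (card_two_vertices S.pol X0).trans (Nat.mul_le_mul_left 2 (Nat.pow_le_pow_left hX0c 2))
  have hdel : ∀ T : Finset Φ, delF S lam T ⊆ lam := fun T => by
    unfold delF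
    exact filter_subset _ _
  have hmD : ∀ F, F ∉ D2 → ∀ v ∈ X0, ∀ v' ∈ X0, On S.P v F → On S.P v' F → v = v' := by
    intro F hF v hv v' hv' h1 h2
    by_contra hne
    apply hF
    rw [hD2, mem_filter]
    exact ⟨mem_univ _, v, hv, v', hv', hne, h1, h2⟩
  have hmaps : ∀ Y : Finset Φ, ∀ y ∈ Y, (rwL S lam y, col y) ∈
      ((univ : Finset Φ).image (rwL S lam)) ×ˢ (univ : Finset (Fin M)) := fun Y y _ =>
    mem_product.2 ⟨mem_image_of_mem _ (mem_univ _), mem_univ _⟩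
  have hcardT : (((univ : Finset Φ).image (rwL S lam)) ×ˢ (univ : Finset (Fin M))).card ≤ N * M := by
    rw [card_product, card_univ, Fintype.card_fin]
    exact Nat.mul_le_mul_right M hrowc
  -- the faces on no vertex of `X0`
  have ha : ((vs (S.D.gr lam)).filter fun y => y ∉ Hb ∧ ∀ v ∈ X0, ¬ On S.P v y).card ≤
      N * M * (2 * N3 + 2) := by
    by_contra hcon
    push Not at hcon
    obtain ⟨x, -, hx⟩ := exists_lt_card_fiber_of_mul_lt_card_of_maps_to
      (hmaps ((vs (S.D.gr lam)).filter fun y => y ∉ Hb ∧ ∀ v ∈ X0, ¬ On S.P v y))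
      (lt_of_le_of_lt (Nat.mul_le_mul_right (2 * N3 + 2) hcardT) hcon)
    obtain ⟨Y1, hY1⟩ : ∃ Y1 : Finset Φ, Y1 = ((vs (S.D.gr lam)).filter fun y =>
      y ∉ Hb ∧ ∀ v ∈ X0, ¬ On S.P v y).filter fun y => (rwL S lam y, col y) = x := ⟨_, rfl⟩
    have hx' : 2 * N3 + 2 < Y1.card := by rw [hY1]; exact hx
    have hmem : ∀ y ∈ Y1, y ∈ vs (S.D.gr lam) ∧ y ∉ Hb ∧ (∀ v ∈ X0, ¬ On S.P v y) ∧
        (rwL S lam y, col y) = x := by
      intro y hy
      rw [hY1] at hy
      obtain ⟨h1, h2⟩ := mem_filter.1 hy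
      obtain ⟨h3, h4, h5⟩ := mem_filter.1 h1
      exact ⟨h3, h4, h5, h2⟩
    have key : ∀ y ∈ Y1, ∀ y' ∈ Y1, y ≠ y' → ((S.D.gr lam).Adj y y' → ∃ v y2, y2 ≠ y ∧ y2 ≠ y' ∧
        (S.D.gr lam).Adj y y2 ∧ (S.D.gr lam).Adj y' y2 ∧ On S.P v y ∧ On S.P v y' ∧ On S.P v y2) →
        False := by
      intro y hy y' hy' hne hthird
      obtain ⟨a1, a2, a3, a4⟩ := hmem y hy
      obtain ⟨b1, b2, b3, b4⟩ := hmem y' hy'
      obtain ⟨hrow, hc⟩ := Prod.mk.inj (a4.trans b4.symm)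
      have hlc : LC S lam y y' := hcol y y' a2 b2 (fun v hv v' _ h4 _ => absurd h4 (a3 v hv))
        (fun v hv => ⟨fun h4 => absurd h4 (a3 v hv), fun h4 => absurd h4 (b3 v hv)⟩) hrow hc
      refine del_contraL h y y' hne (fun h' => a2 (hBH h')) (fun h' => b2 (hBH h')) a1 hrow hlc
        hthird ?_
      rintro v (hv | hv)
      · exact hoff v (fun hvx => a3 v hvx hv) _ (hdel _)
      · exact hoff v (fun hvx => b3 v hvx hv) _ (hdel _)
    have hall : ∀ y ∈ Y1, ∀ y' ∈ Y1, y ≠ y' → (S.D.gr lam).Adj y y' := by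
      intro y hy y' hy' hne
      by_contra hna
      exact key y hy y' hy' hne (fun h' => absurd h' hna)
    obtain ⟨I, hI, hIc⟩ := exists_subset_card_eq (show N3 ≤ Y1.card by omega)
    have hJc : N3 ≤ (Y1 \ I).card := by
      rw [card_sdiff_of_subset hI]
      omega
    obtain ⟨v, I', hI', J', hJ', hI'c, hJ'c, hvI, hvJ⟩ := hN3 Φ Vt Z Q S I (Y1 \ I) disjoint_sdiff
      (fun f hf hb => (hmem f (hI hf)).2.1 (hBH hb))
      (fun g hg hb => (hmem g (mem_sdiff.1 hg).1).2.1 (hBH hb))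
      (fun f hf g hg => by
        have hfg : f ≠ g := fun e => (mem_sdiff.1 hg).2 (e ▸ hf)
        have h1 := gr_le S lam (hall f (hI hf) g (mem_sdiff.1 hg).1 hfg)
        obtain ⟨e, he⟩ := (RG_iff S f g).1 h1
        have h2 : On S.P e.vx (S.D.s e) := by
          rw [S.hs e]
          exact ⟨e.lo, e.1.2.1.isLt, rfl⟩
        have h3 : On S.P e.vx (S.D.t e) := by
          rw [S.ht e]
          exact ⟨e.hi, e.1.2.2.isLt, rfl⟩
        rcases Sym2.eq_iff.1 he with ⟨h4, h5⟩ | ⟨h4, h5⟩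
        · exact ⟨e.vx, h4 ▸ h2, h5 ▸ h3⟩
        · exact ⟨e.vx, h5 ▸ h3, h4 ▸ h2⟩) (le_of_eq hIc.symm) hJc
    obtain ⟨y, hy, y', hy', hne⟩ := one_lt_card.1 (show 1 < I'.card by omega)
    obtain ⟨y2, hy2⟩ := card_pos.1 (show 0 < J'.card by omega)
    have hy1 := hI (hI' hy)
    have hy1' := hI (hI' hy')
    have hy21 := (mem_sdiff.1 (hJ' hy2)).1
    have hn1 : y2 ≠ y := fun e => (mem_sdiff.1 (hJ' hy2)).2 (e ▸ hI' hy)
    have hn2 : y2 ≠ y' := fun e => (mem_sdiff.1 (hJ' hy2)).2 (e ▸ hI' hy')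
    exact key y hy1 y' hy1' hne fun _ => ⟨v, y2, hn1, hn2, hall y hy1 y2 hy21 hn1.symm,
      hall y' hy1' y2 hy21 hn2.symm, hvI y hy, hvI y' hy', hvJ y2 hy2⟩
  -- the faces on exactly one vertex of `X0`
  have hb : ∀ v ∈ X0, ((vs (S.D.gr lam)).filter fun y => y ∉ Hb ∧ On S.P v y ∧ y ∉ D2).card ≤
      N2 + N * M * 2 := by
    intro v hv
    by_contra hcon
    push Not at hcon
    obtain ⟨Yv, hYv⟩ : ∃ Yv : Finset Φ, Yv =
      (vs (S.D.gr lam)).filter fun y => y ∉ Hb ∧ On S.P v y ∧ y ∉ D2 := ⟨_, rfl⟩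
    rw [← hYv] at hcon
    have hmem : ∀ y ∈ Yv, y ∈ vs (S.D.gr lam) ∧ y ∉ Hb ∧ On S.P v y ∧ y ∉ D2 := by
      intro y hy
      rw [hYv] at hy
      exact mem_filter.1 hy
    obtain ⟨fib, hfib⟩ : ∃ fib : Φ → Finset Φ, fib = fun y =>
      Yv.filter fun z => (rwL S lam z, col z) = (rwL S lam y, col y) := ⟨_, rfl⟩
    have hsplit := card_filter_add_card_filter_not (s := Yv) (fun y => 2 < (fib y).card)
    have hsmall : (Yv.filter fun y => ¬ 2 < (fib y).card).card ≤ N * M * 2 := by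
      have h1 := card_le_mul_card_image_of_maps_to (s := Yv.filter fun y => ¬ 2 < (fib y).card)
        (hmaps (Yv.filter fun y => ¬ 2 < (fib y).card)) 2 (fun x _ => by
          by_contra hc
          rw [not_le] at hc
          obtain ⟨y, hy⟩ := card_pos.1 (lt_trans (show 0 < 2 by norm_num) hc)
          obtain ⟨h2, h3⟩ := mem_filter.1 hy
          obtain ⟨h4, h5⟩ := mem_filter.1 h2
          apply h5
          refine lt_of_lt_of_le hc (card_le_card ?_)
          intro z hz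
          obtain ⟨h6, h7⟩ := mem_filter.1 hz
          rw [hfib]
          exact mem_filter.2 ⟨(mem_filter.1 h6).1, h7.trans h3.symm⟩)
      refine h1.trans ?_
      rw [mul_comm]
      exact Nat.mul_le_mul_right 2 hcardT
    obtain ⟨y, hy, y', hy', hne, hrow, hc, hreal⟩ := hN2 k Φ Vt Z Q S lam h.real hrowc col v
      (Yv.filter fun y => 2 < (fib y).card)
      (fun y hy => (hmem y (mem_filter.1 hy).1).2.2.1) (by omega)
    obtain ⟨hy0, hyf⟩ := mem_filter.1 hy
    obtain ⟨hy0', -⟩ := mem_filter.1 hy'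
    obtain ⟨a1, a0, a2, a3⟩ := hmem y hy0
    obtain ⟨b1, b0, b2, b3⟩ := hmem y' hy0'
    have hlc : LC S lam y y' := by
      refine hcol y y' a0 b0 (hmD y a3) (fun w hw => ?_) hrow hc
      by_cases hwv : w = v
      · rw [hwv]
        exact ⟨fun _ => b2, fun _ => a2⟩
      · exact ⟨fun h4 => absurd (hmD y a3 w hw v hv h4 a2) hwv, fun h4 => absurd (hmD y' b3 w hw v hv h4 b2) hwv⟩
    refine del_contraL h y y' hne (fun h' => a0 (hBH h')) (fun h' => b0 (hBH h')) a1 hrow hlc ?_ ?_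
    · intro hadj
      have hex : ∃ y2 ∈ fib y, y2 ∉ ({y, y'} : Finset Φ) := by
        by_contra hcc
        push Not at hcc
        have h1 := card_le_card (show fib y ⊆ {y, y'} from hcc)
        have h2 := card_le_two (a := y) (b := y')
        omega
      obtain ⟨y2, hy2, hy2n⟩ := hex
      rw [mem_insert, mem_singleton, not_or] at hy2n
      rw [hfib] at hy2
      obtain ⟨c0, c4⟩ := mem_filter.1 hy2
      obtain ⟨c1, c2, c3, -⟩ := hmem y2 c0
      obtain ⟨hrow2, -⟩ := Prod.mk.inj c4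
      have hdy := ((rwL_pair S lam hrow hne).2).1 hadj
      have hdy' := ((rwL_pair S lam hrow hne).1).1 hadj
      exact ⟨v, y2, hy2n.1, hy2n.2, ((rwL_pair S lam hrow2.symm (Ne.symm hy2n.1)).2).2 hdy,
        ((rwL_pair S lam (hrow.symm.trans hrow2.symm) (Ne.symm hy2n.2)).2).2 hdy', a2, b2, c3⟩
    · intro w hw
      by_cases hwv : w = v
      · rw [hwv]
        exact hreal
      rcases hw with hw | hw
      · exact hoff w (fun hwx => hwv (hmD y a3 w hwx v hv hw a2)) _ (hdel _)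
      · exact hoff w (fun hwx => hwv (hmD y' b3 w hwx v hv hw b2)) _ (hdel _)
  have hsub : vs (S.D.gr lam) ⊆ (D2 ∪ Hb) ∪ (((vs (S.D.gr lam)).filter fun y => y ∉ Hb ∧ ∀ v ∈ X0, ¬ On S.P v y) ∪
      X0.biUnion fun v => (vs (S.D.gr lam)).filter fun y => y ∉ Hb ∧ On S.P v y ∧ y ∉ D2) := by
    intro y hy
    by_cases h0 : y ∈ D2 ∪ Hb
    · exact mem_union_left _ h0
    rw [mem_union, not_or] at h0
    refine mem_union_right _ ?_
    by_cases h2 : ∀ v ∈ X0, ¬ On S.P v y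
    · exact mem_union_left _ (mem_filter.2 ⟨hy, h0.2, h2⟩)
    · push Not at h2
      obtain ⟨v, hv, hvy⟩ := h2
      exact mem_union_right _ (mem_biUnion.2 ⟨v, hv, mem_filter.2 ⟨hy, h0.2, hvy, h0.1⟩⟩)
  refine (card_le_card hsub).trans ((card_union_le _ _).trans (Nat.add_le_add
    ((card_union_le _ _).trans (Nat.add_le_add hD2c hHb)) ((card_union_le _ _).trans (Nat.add_le_add ha ?_))))
  exact (card_biUnion_le_card_mul _ _ (N2 + N * M * 2) hb).trans (Nat.mul_le_mul_right _ hX0c)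

end Pool.Agent.RPH
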