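import Pool.Agent.RPH.ZDef

/-!
# RPH-ZRow: few rows

PLAN. For `F, G` not in `S.D.B`: `S.D.N lam (z F) (z G) = rwL S lam F G`: `N_apply`, `J_z`, `a_z` (`RPH/DtB.lean`): the sum over `e ∈ lam` of `dF F (q e) * dF G (q e)`, `S.D.inc`; for `F = G` it is `dF F (cls lam)` (`x * x = x`, `dF_cls`); for `F ≠ G` it is the number of the chords of `lam` with the faces `F, G`, which is
at most one by `hp` (see `nr_prod`, `nr_row` in `Pool/Agent/RPH/NRk.lean`). For `F ∉ B` the row is determined by the functional `S.D.N lam (z F)`, an element of the range of `S.D.N lam`, which has `2 ^ rkN` elements (`Module.card_eq_pow_finrank`, `Nat.card`), and by the values at the at most `k` faces of `B` (`S.D.cardB`): at most `2 ^ rkN * 2 ^ k`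
rows (map the row to this pair, injective). The faces of `B` have at most `k` rows.
-/

set_option autoImplicit false

open Finset
open scoped Classical

namespace Pool.Agent.RPH

open Pool.Agent.EPH
open Pool.Agent.BEO hiding Cfg Frame

variable {k : ℕ} {Φ Vt Z Q : Type} [Fintype Φ] [Fintype Vt] [AddCommGroup Z] [Module F2 Z] [Module.Finite F2 Z]
  [AddCommGroup Q] [Module F2 Q]

omit [Module.Finite F2 Z] in
private theorem zr_st (S : Sys k Φ Vt Z Q) (e : Ch S.P) : S.D.s e ≠ S.D.t e := by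
  rw [S.hs, S.ht]
  intro h
  have h1 : e.lo = e.hi := S.P.inj e.vx e.lo e.hi e.1.2.1.2 e.1.2.2.2 h
  have h2 : e.lo < e.hi := e.2
  omega

omit [Module.Finite F2 Z] in
private theorem zr_mem (S : Sys k Φ Vt Z Q) (lam : Finset (Ch S.P)) (F G : Φ) :
    (S.D.gr lam).Adj F G ↔ ∃ e ∈ lam, s(S.D.s e, S.D.t e) = s(F, G) := by
  constructor
  · rintro ⟨_, e, he, h⟩
    exact ⟨e, he, Sym2.eq_iff.2 h⟩
  · rintro ⟨e, he, h⟩
    have h1 := Sym2.eq_iff.1 h
    refine ⟨?_, e, he, h1⟩
    have hne := zr_st S e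
    rcases h1 with ⟨h3, h4⟩ | ⟨h3, h4⟩
    · rw [← h3, ← h4]
      exact hne
    · rw [← h3, ← h4]
      exact hne.symm

omit [Module.Finite F2 Z] in
private theorem zr_prod (S : Sys k Φ Vt Z Q) (e : Ch S.P) (F G : Φ) (hF : F ∉ S.D.B) (hG : G ∉ S.D.B)
    (hFG : F ≠ G) :
    S.D.a e (S.D.z F) * S.D.a e (S.D.z G) = if s(S.D.s e, S.D.t e) = s(F, G) then 1 else 0 := by
  have hst := zr_st S e
  rw [S.D.a_z e F hF, S.D.a_z e G hG]
  by_cases h1 : S.D.s e = F
  · have h2 : S.D.t e ≠ F := fun h => hst (h1.trans h.symm)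
    have h3 : S.D.s e ≠ G := fun h => hFG (h1.symm.trans h)
    rw [if_pos h1, if_neg h2, if_neg h3, add_zero, one_mul, zero_add]
    by_cases h4 : S.D.t e = G
    · rw [if_pos h4, if_pos (by rw [h1, h4])]
    · rw [if_neg h4, if_neg]
      intro h5
      rcases Sym2.eq_iff.1 h5 with ⟨_, h6⟩ | ⟨h6, _⟩
      · exact h4 h6
      · exact h3 h6
  · by_cases h2 : S.D.t e = F
    · have h3 : S.D.t e ≠ G := fun h => hFG (h2.symm.trans h)
      rw [if_neg h1, if_pos h2, if_neg h3, zero_add, one_mul, add_zero]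
      by_cases h4 : S.D.s e = G
      · rw [if_pos h4, if_pos (by rw [h2, h4]; exact Sym2.eq_swap)]
      · rw [if_neg h4, if_neg]
        intro h5
        rcases Sym2.eq_iff.1 h5 with ⟨h6, _⟩ | ⟨h6, _⟩
        · exact h1 h6
        · exact h4 h6
    · rw [if_neg h1, if_neg h2, add_zero, zero_mul, if_neg]
      intro h5
      rcases Sym2.eq_iff.1 h5 with ⟨h6, _⟩ | ⟨_, h6⟩
      · exact h1 h6
      · exact h2 h6

omit [Module.Finite F2 Z] in
private theorem zr_row {S : Sys k Φ Vt Z Q} {lam : Finset (Ch S.P)} (hp : NoPar S lam) (F G : Φ)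
    (hF : F ∉ S.D.B) (hG : G ∉ S.D.B) : rwL S lam F G = S.D.N lam (S.D.z F) (S.D.z G) := by
  rw [S.D.N_apply, S.D.J_z _ _ hG, zero_add]
  by_cases hFG : F = G
  · subst hFG
    rw [rwL_self, S.D.dF_cls]
    have h2 : ∀ y : F2, y * y = y := by decide
    rw [sum_congr rfl fun e _ => h2 (S.D.a e (S.D.z F)), sum_congr rfl fun e _ => S.D.a_z e F hF]
  · rw [rwL_ne S lam hFG, sum_congr rfl fun e _ => zr_prod S e F G hF hG hFG]
    by_cases hA : (S.D.gr lam).Adj F G
    · rw [if_pos hA]
      obtain ⟨e, he, hee⟩ := (zr_mem S lam F G).1 hA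
      rw [sum_eq_single_of_mem e he, if_pos hee]
      intro e' he' hne
      rw [if_neg]
      intro h3
      exact hne (hp e' he' e he (h3.trans hee.symm))
    · rw [if_neg hA]
      symm
      refine sum_eq_zero fun e he => ?_
      rw [if_neg]
      intro h3
      exact hA ((zr_mem S lam F G).2 ⟨e, he, h3⟩)

theorem card_rwL {S : Sys k Φ Vt Z Q} {lam : Finset (Ch S.P)} (hp : NoPar S lam) :
    ((univ : Finset Φ).image (rwL S lam)).card ≤ 2 ^ (S.D.rkN lam + k) + k := by
  have hfin : Finite (LinearMap.range (S.D.N lam)) := Module.finite_of_finite F2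
  have := Fintype.ofFinite (LinearMap.range (S.D.N lam))
  -- the faces outside `B`
  have hout : (((univ : Finset Φ).filter fun F => F ∉ S.D.B).image (rwL S lam)).card ≤
      2 ^ (S.D.rkN lam + k) := by
    obtain ⟨T, hT, hinj, himg⟩ := Finset.exists_subset_injOn_image_eq_of_surjOn
      (f := rwL S lam) ((univ : Finset Φ).filter fun F => F ∉ S.D.B)
      (((univ : Finset Φ).filter fun F => F ∉ S.D.B).image (rwL S lam)) (by
        rw [Finset.coe_image]
        exact Set.surjOn_image _ _)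
    rw [← himg, Finset.card_image_of_injOn hinj]
    have hTB : ∀ F ∈ T, F ∉ S.D.B := fun F hF => (mem_filter.1 (hT hF)).2
    let g : Φ → (LinearMap.range (S.D.N lam)) × ({F : Φ // F ∈ S.D.B} → F2) := fun F =>
      (⟨S.D.N lam (S.D.z F), ⟨S.D.z F, rfl⟩⟩, fun G => rwL S lam F G.1)
    have hg : Set.InjOn g (T : Set Φ) := by
      intro F hF F' hF' hgg
      have h1 : S.D.N lam (S.D.z F) = S.D.N lam (S.D.z F') := congrArg (fun x => x.1.1) hgg
      have h2 : ∀ G ∈ S.D.B, rwL S lam F G = rwL S lam F' G := fun G hG =>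
        congrFun (congrArg Prod.snd hgg) ⟨G, hG⟩
      refine hinj hF hF' (funext fun G => ?_)
      by_cases hG : G ∈ S.D.B
      · exact h2 G hG
      · rw [zr_row hp F G (hTB F hF) hG, zr_row hp F' G (hTB F' hF') hG, h1]
    calc T.card ≤ (univ : Finset ((LinearMap.range (S.D.N lam)) × ({F : Φ // F ∈ S.D.B} → F2))).card :=
          Finset.card_le_card_of_injOn g (fun _ _ => mem_univ _) hg
      _ = Fintype.card (LinearMap.range (S.D.N lam)) * 2 ^ S.D.B.card := by
          rw [card_univ, Fintype.card_prod, Fintype.card_fun, Fintype.card_coe, ZMod.card]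
      _ = 2 ^ S.D.rkN lam * 2 ^ S.D.B.card := by
          rw [Module.card_eq_pow_finrank (K := F2) (V := LinearMap.range (S.D.N lam)), ZMod.card]
          rfl
      _ ≤ 2 ^ S.D.rkN lam * 2 ^ k := Nat.mul_le_mul_left _ (Nat.pow_le_pow_right (by norm_num) S.D.cardB)
      _ = 2 ^ (S.D.rkN lam + k) := by rw [pow_add]
  have hin : (S.D.B.image (rwL S lam)).card ≤ k := card_image_le.trans S.D.cardB
  have hsub : (univ : Finset Φ).image (rwL S lam) ⊆
      (((univ : Finset Φ).filter fun F => F ∉ S.D.B).image (rwL S lam)) ∪ S.D.B.image (rwL S lam) := by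
    intro r hr
    obtain ⟨F, -, rfl⟩ := mem_image.1 hr
    rw [mem_union]
    by_cases hF : F ∈ S.D.B
    · exact Or.inr (mem_image_of_mem _ hF)
    · exact Or.inl (mem_image_of_mem _ (mem_filter.2 ⟨mem_univ _, hF⟩))
  exact (card_le_card hsub).trans ((card_union_le _ _).trans (Nat.add_le_add hout hin))

end Pool.Agent.RPH
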