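import Pool.Agent.RPH.ZDef
import Pool.Agent.RPH.DtR
import Pool.Agent.RPH.XCfgB

/-!
# RPH-ZTw: deleting two adjacent twins of odd degree

PLAN. Write `N := S.D.N lam`, `N' := S.D.N (delF S lam {y, y'})`, `U` the set of the neighbours of `y` other than `y'` (so of `y'` other than `y`), `t := S.D.v (cl S s(y, y'))`, `a u := S.D.v (cl S s(y, u))`, `f := ∑ u ∈ U, a u`. For `u ∈ U`: `S.D.v (cl S s(y', u)) = a u + t` (`hlc`, `x + x = 0`). By `NoPar` the chords of `lam` at `y` or `y'` correspond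
to the pairs `s(y, y')`, `s(y, u)`, `s(y', u)` (`gr_mem`, `cl_eq` in `RPH/XCfgA.lean`; compare `nt_sum`, `nt_key` in `Pool/Agent/RPH/NTw.lean`). So `N = N' + ∑ u ∈ U, (a u ⊗ a u + (a u + t) ⊗ (a u + t)) + t ⊗ t`, and `U.card` is even since the degree `U.card + 1` of `y` is odd (`nb_dF` in `RPH/XCfgB.lean`). Hence `N' = N + f ⊗ t + t ⊗ f + t ⊗ t`.
`g := N (z y)` is `f + t` (`J_z`, `N_symm`, `a_z`: the functionals of the chords at `y` have the value 1 at `z y`, the others 0). So `N' = N + g ⊗ t + t ⊗ g + t ⊗ t = (N + g ⊗ g) + (g + t) ⊗ (g + t)`. `g (z y) = N (z y) (z y) = dF y (cls lam) = 1`. The kernel of `N + g ⊗ g` contains the kernel of `N` (`g x = N (z y) x = N x (z y) = 0`) and `z y`, which is not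
in the kernel of `N`: so `rank (N + g ⊗ g) + 1 ≤ rank N` (`LinearMap.finrank_range_add_finrank_ker`, `Submodule.finrank_lt_finrank_of_lt`), and adding a form of rank one increases the rank by at most one (the range of the sum is contained in the sup of the ranges, `Submodule.finrank_add_le_finrank_add_finrank`; `finrank_span_singleton` or
the range of `(g + t).smulRight (g + t)` is contained in the span of one vector).
-/

set_option autoImplicit false

open Finset
open scoped Classical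

namespace Pool.Agent.RPH

open Pool.Agent.EPH
open Pool.Agent.BEO hiding Cfg Frame

variable {k : ℕ} {Φ Vt Z Q : Type} [Fintype Φ] [Fintype Vt] [AddCommGroup Z] [Module F2 Z] [Module.Finite F2 Z]
  [AddCommGroup Q] [Module F2 Q]

omit [Module.Finite F2 Z] in
private theorem zt_adj (S : Sys k Φ Vt Z Q) (lam : Finset (Ch S.P)) (F G : Φ) :
    (S.D.gr lam).Adj F G ↔ ∃ e ∈ lam, s(S.D.s e, S.D.t e) = s(F, G) := by
  rw [← SimpleGraph.mem_edgeSet]
  exact gr_mem S lam s(F, G)

omit [Module.Finite F2 Z] in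
private theorem zt_nb (S : Sys k Φ Vt Z Q) (lam : Finset (Ch S.P)) (F G : Φ) :
    G ∈ nb (S.D.gr lam) F ↔ (S.D.gr lam).Adj F G := by
  unfold nb
  rw [mem_filter]
  exact ⟨fun h => h.2, fun h => ⟨mem_univ _, h⟩⟩

omit [Module.Finite F2 Z] in
private theorem zt_at (S : Sys k Φ Vt Z Q) (lam : Finset (Ch S.P)) (hp : NoPar S lam) (x : Φ) (g : Q → F2) :
    ∑ e ∈ lam.filter (fun e => S.D.s e = x ∨ S.D.t e = x), g (S.D.q e) = ∑ u ∈ nb (S.D.gr lam) x, g (cl S s(x, u)) := by
  have h1 : (lam.filter (fun e => S.D.s e = x ∨ S.D.t e = x)).image (fun e => s(S.D.s e, S.D.t e)) =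
      (nb (S.D.gr lam) x).image fun u => s(x, u) := by
    ext e'
    rw [mem_image, mem_image]
    constructor
    · rintro ⟨e, he, rfl⟩
      obtain ⟨he1, he2⟩ := mem_filter.1 he
      rcases he2 with he2 | he2
      · refine ⟨S.D.t e, (zt_nb S lam _ _).2 ((zt_adj S lam _ _).2 ⟨e, he1, ?_⟩), ?_⟩
        · rw [he2]
        · rw [he2]
      · refine ⟨S.D.s e, (zt_nb S lam _ _).2 ((zt_adj S lam _ _).2 ⟨e, he1, ?_⟩), ?_⟩
        · rw [he2]
          exact Sym2.eq_swap
        · rw [he2]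
          exact Sym2.eq_swap
    · rintro ⟨u, hu, rfl⟩
      obtain ⟨e, he, he2⟩ := (zt_adj S lam _ _).1 ((zt_nb S lam _ _).1 hu)
      refine ⟨e, mem_filter.2 ⟨he, ?_⟩, he2⟩
      rcases Sym2.eq_iff.1 he2 with ⟨h3, -⟩ | ⟨-, h3⟩
      · exact Or.inl h3
      · exact Or.inr h3
  calc ∑ e ∈ lam.filter (fun e => S.D.s e = x ∨ S.D.t e = x), g (S.D.q e) =
        ∑ e ∈ lam.filter (fun e => S.D.s e = x ∨ S.D.t e = x), g (cl S s(S.D.s e, S.D.t e)) :=
        sum_congr rfl fun e _ => by rw [cl_eq]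
    _ = ∑ e' ∈ (lam.filter (fun e => S.D.s e = x ∨ S.D.t e = x)).image (fun e => s(S.D.s e, S.D.t e)),
          g (cl S e') := by
        rw [sum_image]
        intro e he e' he' hee
        exact hp e (mem_filter.1 he).1 e' (mem_filter.1 he').1 hee
    _ = ∑ e' ∈ (nb (S.D.gr lam) x).image (fun u => s(x, u)), g (cl S e') := by rw [h1]
    _ = ∑ u ∈ nb (S.D.gr lam) x, g (cl S s(x, u)) := by
        rw [sum_image]
        intro u _ u' _ he
        exact Sym2.congr_right.1 he

omit [Module.Finite F2 Z] in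
private theorem zt_sum (S : Sys k Φ Vt Z Q) (lam : Finset (Ch S.P)) (hp : NoPar S lam) (y y' : Φ)
    (hadj : (S.D.gr lam).Adj y y') (g : Q → F2) :
    ∑ e ∈ lam.filter (fun e => S.D.s e ∈ ({y, y'} : Finset Φ) ∨ S.D.t e ∈ ({y, y'} : Finset Φ)), g (S.D.q e) =
      ∑ u ∈ nb (S.D.gr lam) y, g (cl S s(y, u)) + ∑ u ∈ nb (S.D.gr lam) y', g (cl S s(y', u)) +
        g (cl S s(y, y')) := by
  obtain ⟨e0, he0, h0⟩ := (zt_adj S lam y y').1 hadj
  have hne : y ≠ y' := hadj.ne
  have h3 : ∑ e ∈ lam, (if s(S.D.s e, S.D.t e) = s(y, y') then g (S.D.q e) else 0) = g (cl S s(y, y')) := by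
    rw [sum_eq_single e0, if_pos h0, ← h0, cl_eq]
    · intro e he hee
      rw [if_neg]
      intro h4
      exact hee (hp e he e0 he0 (h4.trans h0.symm))
    · intro h4
      exact absurd he0 h4
  rw [← zt_at S lam hp y g, ← zt_at S lam hp y' g, ← h3, sum_filter, sum_filter, sum_filter, ← sum_add_distrib,
    ← sum_add_distrib]
  refine sum_congr rfl fun e _ => ?_
  have hst := s_ne_t S e
  generalize g (S.D.q e) = c
  have t1 : ∀ c : F2, c = c + 0 + 0 := by decide
  have t2 : ∀ c : F2, c = 0 + c + 0 := by decide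
  have t3 : ∀ c : F2, c = c + c + c := by decide
  by_cases k1 : S.D.s e = y ∨ S.D.t e = y
  · have a1 : S.D.s e ∈ ({y, y'} : Finset Φ) ∨ S.D.t e ∈ ({y, y'} : Finset Φ) := by
      rcases k1 with k1 | k1
      · left
        rw [k1]
        exact mem_insert_self _ _
      · right
        rw [k1]
        exact mem_insert_self _ _
    rw [if_pos a1, if_pos k1]
    by_cases k2 : S.D.s e = y' ∨ S.D.t e = y'
    · have a2 : s(S.D.s e, S.D.t e) = s(y, y') := by
        rcases k1 with k1 | k1 <;> rcases k2 with k2 | k2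
        · exact absurd (k1.symm.trans k2) hne
        · rw [k1, k2]
        · rw [k1, k2]
          exact Sym2.eq_swap
        · exact absurd (k1.symm.trans k2) hne
      rw [if_pos k2, if_pos a2]
      exact t3 c
    · have a2 : ¬ s(S.D.s e, S.D.t e) = s(y, y') := by
        intro h4
        apply k2
        rcases Sym2.eq_iff.1 h4 with ⟨-, h5⟩ | ⟨h5, -⟩
        · exact Or.inr h5
        · exact Or.inl h5
      rw [if_neg k2, if_neg a2]
      exact t1 c
  · have a2 : ¬ s(S.D.s e, S.D.t e) = s(y, y') := by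
      intro h4
      apply k1
      rcases Sym2.eq_iff.1 h4 with ⟨h5, -⟩ | ⟨-, h5⟩
      · exact Or.inl h5
      · exact Or.inr h5
    rw [if_neg k1, if_neg a2]
    by_cases k2 : S.D.s e = y' ∨ S.D.t e = y'
    · have a1 : S.D.s e ∈ ({y, y'} : Finset Φ) ∨ S.D.t e ∈ ({y, y'} : Finset Φ) := by
        rcases k2 with k2 | k2
        · left
          rw [k2]
          exact mem_insert_of_mem (mem_singleton_self _)
        · right
          rw [k2]
          exact mem_insert_of_mem (mem_singleton_self _)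
      rw [if_pos a1, if_pos k2]
      exact t2 c
    · rw [if_neg k2, if_neg, add_zero, add_zero]
      rintro (h4 | h4)
      · rcases mem_insert.1 h4 with h5 | h5
        · exact k1 (Or.inl h5)
        · exact k2 (Or.inl (mem_singleton.1 h5))
      · rcases mem_insert.1 h4 with h5 | h5
        · exact k1 (Or.inr h5)
        · exact k2 (Or.inr (mem_singleton.1 h5))

omit [Module.Finite F2 Z] in
private theorem zt_f (S : Sys k Φ Vt Z Q) (lam : Finset (Ch S.P)) (hp : NoPar S lam) (x : Φ) (hx : x ∉ S.D.B)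
    (w : Z) : S.D.N lam (S.D.z x) w = ∑ u ∈ nb (S.D.gr lam) x, S.D.v (cl S s(x, u)) w := by
  rw [← zt_at S lam hp x (fun c => S.D.v c w), Dat.N_apply, S.D.symm, Dat.J_z S.D w x hx, zero_add, sum_filter]
  refine sum_congr rfl fun e _ => ?_
  have h1 : S.D.a e (S.D.z x) = S.D.dF x (S.D.q e) := S.D.bd x hx e
  have hne := s_ne_t S e
  rw [h1, S.D.inc]
  by_cases h2 : S.D.s e = x
  · have h3 : S.D.t e ≠ x := fun h => hne (h2.trans h.symm)
    rw [if_pos h2, if_neg h3, if_pos (Or.inl h2), add_zero, one_mul]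
    rfl
  · by_cases h3 : S.D.t e = x
    · rw [if_neg h2, if_pos h3, if_pos (Or.inr h3), zero_add, one_mul]
      rfl
    · rw [if_neg h2, if_neg h3, if_neg, add_zero, zero_mul]
      rintro (h4 | h4)
      · exact h2 h4
      · exact h3 h4

private theorem zt_sq : ∀ a : F2, a * a = a := by decide

omit [Module.Finite F2 Z] in
private theorem zt_self (S : Sys k Φ Vt Z Q) (lam : Finset (Ch S.P)) (x : Φ) (hx : x ∉ S.D.B) :
    S.D.N lam (S.D.z x) (S.D.z x) = S.D.dF x (S.D.cls lam) := by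
  rw [Dat.N_apply, Dat.J_z S.D _ x hx, zero_add]
  unfold Dat.cls
  rw [map_sum]
  refine sum_congr rfl fun e _ => ?_
  have h1 : S.D.a e (S.D.z x) = S.D.dF x (S.D.q e) := S.D.bd x hx e
  rw [h1, zt_sq]

private theorem zt_q2 (y : Q) : y + y = 0 := by
  have h : (2 : F2) = 0 := by decide
  rw [← two_smul F2 y, h, zero_smul]

omit [Module.Finite F2 Z] in
/-- the change of the form -/
private theorem zt_N (S : Sys k Φ Vt Z Q) (lam : Finset (Ch S.P)) (T : Finset Φ) (u v : Z) :
    S.D.N (delF S lam T) u v = S.D.N lam u v +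
      ∑ e ∈ lam.filter (fun e => S.D.s e ∈ T ∨ S.D.t e ∈ T), S.D.v (S.D.q e) u * S.D.v (S.D.q e) v := by
  have h2 : ∑ e ∈ lam, S.D.a e u * S.D.a e v = ∑ e ∈ delF S lam T, S.D.a e u * S.D.a e v +
      ∑ e ∈ lam.filter (fun e => S.D.s e ∈ T ∨ S.D.t e ∈ T), S.D.v (S.D.q e) u * S.D.v (S.D.q e) v := by
    unfold delF
    rw [← sum_filter_add_sum_filter_not lam (fun e => S.D.s e ∉ T ∧ S.D.t e ∉ T)]
    congr 1
    refine sum_congr (filter_congr fun e _ => ?_) fun _ _ => rfl
    tauto
  rw [Dat.N_apply, Dat.N_apply S.D lam u v, h2]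
  generalize ∑ e ∈ lam.filter (fun e => S.D.s e ∈ T ∨ S.D.t e ∈ T), S.D.v (S.D.q e) u * S.D.v (S.D.q e) v = p
  generalize S.D.J u v = j
  generalize ∑ e ∈ delF S lam T, S.D.a e u * S.D.a e v = t
  revert p j t
  decide

/-- the rank of the form with `g ⊗ t + t ⊗ g + t ⊗ t` added, where `g = N z` and `N z z = 1` -/
private theorem zt_rank {W : Type} [AddCommGroup W] [Module F2 W] [Module.Finite F2 W]
    (N : W →ₗ[F2] W →ₗ[F2] F2) (hsym : ∀ u v, N u v = N v u) (z0 : W) (h0 : N z0 z0 = 1) (t : W →ₗ[F2] F2)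
    (N' : W →ₗ[F2] W →ₗ[F2] F2) (h : ∀ u v, N' u v = N u v + N z0 u * t v + t u * N z0 v + t u * t v) :
    Module.finrank F2 (LinearMap.range N') ≤ Module.finrank F2 (LinearMap.range N) := by
  obtain ⟨N1, hN1⟩ : ∃ N1 : W →ₗ[F2] W →ₗ[F2] F2, ∀ u, N1 u = N u + N z0 u • N z0 :=
    ⟨N + (N z0).smulRight (N z0), fun u => rfl⟩
  obtain ⟨b, hb⟩ : ∃ b : W →ₗ[F2] F2, b = N z0 + t := ⟨_, rfl⟩
  have k1 : ∀ u, N' u = N1 u + b u • b := by
    intro u
    refine LinearMap.ext fun v => ?_
    rw [h, hN1, hb]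
    simp only [LinearMap.add_apply, LinearMap.smul_apply, smul_eq_mul]
    generalize N u v = a1
    generalize N z0 u = a2
    generalize N z0 v = a3
    generalize t u = a4
    generalize t v = a5
    revert a1 a2 a3 a4 a5
    decide
  have k2 : LinearMap.range N' ≤ LinearMap.range N1 ⊔ Submodule.span F2 {b} := by
    rintro _ ⟨u, rfl⟩
    rw [k1]
    exact Submodule.add_mem_sup ⟨u, rfl⟩ (Submodule.smul_mem _ _ (Submodule.mem_span_singleton_self b))
  have k3 : LinearMap.ker N < LinearMap.ker N1 := by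
    rw [lt_iff_le_and_ne]
    constructor
    · intro x hx
      rw [LinearMap.mem_ker] at hx ⊢
      have h1 : N z0 x = 0 := by
        rw [hsym, hx]
        rfl
      rw [hN1, hx, h1, zero_smul, zero_add]
    · intro h1
      have h2 : z0 ∈ LinearMap.ker N1 := by
        rw [LinearMap.mem_ker, hN1, h0, one_smul]
        refine LinearMap.ext fun v => ?_
        rw [LinearMap.add_apply, LinearMap.zero_apply]
        generalize N z0 v = a
        revert a
        decide
      rw [← h1, LinearMap.mem_ker] at h2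
      rw [h2, LinearMap.zero_apply] at h0
      exact absurd h0 (by decide)
  have k4 := Submodule.finrank_lt_finrank_of_lt k3
  have k5 := LinearMap.finrank_range_add_finrank_ker N
  have k6 := LinearMap.finrank_range_add_finrank_ker N1
  have k7 : Module.finrank F2 (LinearMap.range N') ≤ Module.finrank F2 (LinearMap.range N1) + 1 := by
    refine (Submodule.finrank_mono k2).trans ((Submodule.finrank_add_le_finrank_add_finrank _ _).trans ?_)
    refine Nat.add_le_add_left ?_ _
    exact (finrank_span_le_card ({b} : Set (W →ₗ[F2] F2))).trans (by simp)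
  omega

theorem twin_del1 {S : Sys k Φ Vt Z Q} {lam : Finset (Ch S.P)} (hp : NoPar S lam) (y y' : Φ) (hy : y ∉ S.D.B)
    (hadj : (S.D.gr lam).Adj y y') (hodd : S.D.dF y (S.D.cls lam) = 1)
    (h : ∀ u, u ≠ y → u ≠ y' → ((S.D.gr lam).Adj y u ↔ (S.D.gr lam).Adj y' u))
    (hlc : ∀ u, u ≠ y' → (S.D.gr lam).Adj y u → cl S s(y, u) + cl S s(y', u) = cl S s(y, y')) :
    S.D.rkN (delF S lam {y, y'}) ≤ S.D.rkN lam := by
  have hne : y ≠ y' := hadj.ne
  obtain ⟨U, hU⟩ : ∃ U : Finset Φ, U = (nb (S.D.gr lam) y).erase y' := ⟨_, rfl⟩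
  have hy'U : y' ∉ U := by
    rw [hU]
    exact notMem_erase _ _
  have hyU : y ∉ U := by
    rw [hU, mem_erase, zt_nb]
    exact fun h1 => (S.D.gr lam).loopless.irrefl y h1.2
  have hn1 : nb (S.D.gr lam) y = insert y' U := by
    rw [hU, insert_erase]
    rw [zt_nb]
    exact hadj
  have hn2 : nb (S.D.gr lam) y' = insert y U := by
    ext u
    rw [zt_nb, mem_insert, hU, mem_erase, zt_nb]
    by_cases h1 : u = y
    · rw [h1]
      exact ⟨fun _ => Or.inl rfl, fun _ => hadj.symm⟩
    · by_cases h2 : u = y'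
      · rw [h2]
        refine ⟨fun h3 => absurd h3 ((S.D.gr lam).loopless.irrefl y'), ?_⟩
        rintro (h3 | h3)
        · exact absurd h3.symm hne
        · exact absurd rfl h3.1
      · constructor
        · intro h3
          exact Or.inr ⟨h2, (h u h1 h2).2 h3⟩
        · rintro (h3 | h3)
          · exact absurd h3 h1
          · exact (h u h1 h2).1 h3.2
  have hcard : (U.card : F2) = 0 := by
    have h1 := nb_dF S lam hp y
    rw [hodd, hn1, card_insert_of_notMem hy'U] at h1
    push_cast at h1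
    generalize (U.card : F2) = a at h1
    revert a
    decide
  have hsw : cl S s(y', y) = cl S s(y, y') := by rw [Sym2.eq_swap]
  have hcl : ∀ u ∈ U, cl S s(y', u) = cl S s(y, u) + cl S s(y, y') := by
    intro u hu
    rw [hU, mem_erase, zt_nb] at hu
    rw [← hlc u hu.1 hu.2, ← add_assoc, zt_q2, zero_add]
  have hz : ∀ w, S.D.N lam (S.D.z y) w = S.D.v (cl S s(y, y')) w + ∑ u ∈ U, S.D.v (cl S s(y, u)) w := by
    intro w
    rw [zt_f S lam hp y hy, hn1, sum_insert hy'U]
  unfold Dat.rkN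
  refine zt_rank (S.D.N lam) (S.D.N_symm lam) (S.D.z y) ?_ (S.D.v (cl S s(y, y'))) _ ?_
  · rw [zt_self S lam y hy, hodd]
  · intro a b
    rw [zt_N, zt_sum S lam hp y y' hadj (fun c => S.D.v c a * S.D.v c b), hn1, hn2, sum_insert hy'U,
      sum_insert hyU, hsw, hz, hz]
    have h1 : ∀ u ∈ U, S.D.v (cl S s(y', u)) a * S.D.v (cl S s(y', u)) b =
        S.D.v (cl S s(y, u)) a * S.D.v (cl S s(y, u)) b + S.D.v (cl S s(y, u)) a * S.D.v (cl S s(y, y')) b +
          S.D.v (cl S s(y, y')) a * S.D.v (cl S s(y, u)) b +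
            S.D.v (cl S s(y, y')) a * S.D.v (cl S s(y, y')) b := by
      intro u hu
      rw [hcl u hu, map_add, LinearMap.add_apply, LinearMap.add_apply]
      ring
    rw [sum_congr rfl h1, sum_add_distrib, sum_add_distrib, sum_add_distrib, sum_const, nsmul_eq_mul, hcard,
      zero_mul, add_zero, ← sum_mul, ← mul_sum]
    generalize ∑ u ∈ U, S.D.v (cl S s(y, u)) a * S.D.v (cl S s(y, u)) b = c1
    generalize ∑ u ∈ U, S.D.v (cl S s(y, u)) a = c2
    generalize ∑ u ∈ U, S.D.v (cl S s(y, u)) b = c3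
    generalize S.D.v (cl S s(y, y')) a = c4
    generalize S.D.v (cl S s(y, y')) b = c5
    generalize S.D.N lam a b = c6
    revert c1 c2 c3 c4 c5 c6
    decide

end Pool.Agent.RPH
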